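import Mathlib

/-! # Toolkit: bits of sums of powers of two, digit sums -/
namespace Pool.Agent.N3

open Finset

theorem add_eq_or {x y : ℕ} (h : x &&& y = 0) : x + y = x ||| y := by
  have hlt : x + y < 2 ^ (x + y) := Nat.lt_two_pow_self
  have hx : x < 2 ^ (x + y) := by omega
  have hy : y < 2 ^ (x + y) := by omega
  have h1 := BitVec.add_eq_or_of_and_eq_zero (BitVec.ofNat (x + y) x) (BitVec.ofNat (x + y) y) (by
    apply BitVec.eq_of_toNat_eq
    rw [BitVec.toNat_and, BitVec.toNat_ofNat, BitVec.toNat_ofNat, Nat.mod_eq_of_lt hx,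
      Nat.mod_eq_of_lt hy, h]
    simp)
  have h2 := congrArg BitVec.toNat h1
  rw [BitVec.toNat_or, BitVec.toNat_add, BitVec.toNat_ofNat, BitVec.toNat_ofNat, Nat.mod_eq_of_lt hx,
      Nat.mod_eq_of_lt hy, Nat.mod_eq_of_lt hlt] at h2
  exact h2

theorem and_eq_zero_iff {x y : ℕ} :
    x &&& y = 0 ↔ ∀ p, ¬ (x.testBit p = true ∧ y.testBit p = true) := by
  constructor
  · intro h p hp
    have : (x &&& y).testBit p = true := by rw [Nat.testBit_and, hp.1, hp.2]; rfl
    rw [h] at this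
    simp at this
  · intro h
    apply Nat.eq_of_testBit_eq
    intro p
    rw [Nat.testBit_and, Nat.zero_testBit]
    have := h p
    cases hx : x.testBit p <;> cases hy : y.testBit p <;> simp_all

theorem testBit_add_disj {x y : ℕ} (h : ∀ p, ¬ (x.testBit p = true ∧ y.testBit p = true)) (p : ℕ) :
    (x + y).testBit p = (x.testBit p || y.testBit p) := by
  rw [add_eq_or (and_eq_zero_iff.2 h), Nat.testBit_or]

/-- bits of a sum of distinct powers of two -/
theorem testBit_sum_pow {ι : Type*} (s : Finset ι) (e : ι → ℕ)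
    (he : ∀ i ∈ s, ∀ j ∈ s, e i = e j → i = j) (p : ℕ) :
    (∑ i ∈ s, 2 ^ e i).testBit p = true ↔ ∃ i ∈ s, e i = p := by
  classical
  induction s using Finset.induction_on generalizing p with
  | empty => simp
  | insert a s ha ih =>
    have he' : ∀ i ∈ s, ∀ j ∈ s, e i = e j → i = j := fun i hi j hj h =>
      he i (mem_insert_of_mem hi) j (mem_insert_of_mem hj) h
    rw [sum_insert ha, testBit_add_disj, Bool.or_eq_true, ih he', Nat.testBit_two_pow]
    · simp only [decide_eq_true_eq, mem_insert, exists_eq_or_imp]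
    · rintro p ⟨h1, h2⟩
      rw [ih he'] at h2
      rw [Nat.testBit_two_pow, decide_eq_true_eq] at h1
      obtain ⟨j, hj, hje⟩ := h2
      exact ha (he a (mem_insert_self _ _) j (mem_insert_of_mem hj) (by rw [h1, hje]) ▸ hj)

/-- digit sums in base `2 ^ b` -/
def S (b N : ℕ) (f : ℕ → ℕ) : ℕ := ∑ m ∈ range N, f m * 2 ^ (b * m)

theorem S_succ (b N : ℕ) (f : ℕ → ℕ) : S b (N + 1) f = S b N f + f N * 2 ^ (b * N) := by
  rw [S, S, sum_range_succ]

theorem S_congr {b N : ℕ} {f g : ℕ → ℕ} (h : ∀ m < N, f m = g m) : S b N f = S b N g :=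
  sum_congr rfl fun m hm => by rw [h m (mem_range.1 hm)]

theorem S_lt {b N : ℕ} {f : ℕ → ℕ} (h : ∀ m < N, f m < 2 ^ b) : S b N f < 2 ^ (b * N) := by
  induction N with
  | zero => simp [S]
  | succ N ih =>
    rw [S_succ, Nat.mul_succ, pow_add]
    have h1 := ih fun m hm => h m (by omega)
    have h2 := h N (by omega)
    calc S b N f + f N * 2 ^ (b * N) < 2 ^ (b * N) + f N * 2 ^ (b * N) := by omega
      _ = (f N + 1) * 2 ^ (b * N) := by ring
      _ ≤ 2 ^ b * 2 ^ (b * N) := Nat.mul_le_mul_right _ h2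
      _ = 2 ^ (b * N) * 2 ^ b := by ring

theorem S_succ' (b N : ℕ) (f : ℕ → ℕ) : S b (N + 1) f = f 0 + 2 ^ b * S b N (fun m => f (m + 1)) := by
  rw [S, S, sum_range_succ', mul_sum]
  simp only [mul_zero, pow_zero, mul_one]
  rw [add_comm]
  congr 1
  apply sum_congr rfl
  intro m _
  rw [Nat.mul_succ, pow_add]
  ring

theorem S_testBit {b N : ℕ} {f : ℕ → ℕ} (hb : 0 < b) (h : ∀ m < N, f m < 2 ^ b) (p : ℕ) :
    (S b N f).testBit p = (decide (p / b < N) && (f (p / b)).testBit (p % b)) := by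
  induction N generalizing f p with
  | zero => simp [S]
  | succ N ih =>
    rw [S_succ', add_comm, Nat.testBit_two_pow_mul_add _ (h 0 (by omega))]
    split_ifs with hp
    · rw [Nat.div_eq_of_lt hp, Nat.mod_eq_of_lt hp]
      simp
    · rw [ih (f := fun m => f (m + 1)) (fun m hm => h (m + 1) (by omega))]
      obtain ⟨q, rfl⟩ : ∃ q, p = q + b := ⟨p - b, by omega⟩
      rw [Nat.add_sub_cancel, Nat.add_div_right _ hb, Nat.add_mod_right]
      simp

/-- bit `r` of digit `q` -/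
theorem S_testBit' {b N : ℕ} {f : ℕ → ℕ} (h : ∀ m < N, f m < 2 ^ b) (q r : ℕ) (hr : r < b) :
    (S b N f).testBit (b * q + r) = (decide (q < N) && (f q).testBit r) := by
  have hb : 0 < b := by omega
  rw [S_testBit hb h, Nat.mul_add_div hb, Nat.div_eq_of_lt hr, Nat.mul_add_mod, Nat.mod_eq_of_lt hr]
  simp

theorem S_div {b N : ℕ} {f : ℕ → ℕ} (h : ∀ m < N, f m < 2 ^ b) (q : ℕ) :
    S b N f / 2 ^ (b * q) = S b (N - q) (fun m => f (m + q)) := by
  induction q generalizing N f with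
  | zero => simp
  | succ q ih =>
    cases N with
    | zero => simp [S]
    | succ N =>
      rw [S_succ', Nat.mul_succ, Nat.add_comm (b * q) b, pow_add, ← Nat.div_div_eq_div_mul,
        Nat.add_mul_div_left _ _ (Nat.two_pow_pos b), Nat.div_eq_of_lt (h 0 (by omega)), Nat.zero_add,
        ih (f := fun m => f (m + 1)) (fun m hm => h (m + 1) (by omega)), Nat.add_sub_add_right]
      apply S_congr
      intro m _
      congr 1

theorem S_mod {b N : ℕ} {f : ℕ → ℕ} (h : ∀ m < N, f m < 2 ^ b) {q : ℕ} (hq : q ≤ N) :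
    S b N f % 2 ^ (b * q) = S b q f := by
  have h1 : S b N f = S b q f + 2 ^ (b * q) * S b (N - q) (fun m => f (m + q)) := by
    obtain ⟨d, rfl⟩ := Nat.exists_eq_add_of_le hq
    rw [Nat.add_sub_cancel_left, S, S, S, sum_range_add, mul_sum]
    congr 1
    apply sum_congr rfl
    intro m _
    rw [Nat.mul_add, pow_add, Nat.add_comm q m]
    ring
  rw [h1, Nat.add_mul_mod_self_left, Nat.mod_eq_of_lt (S_lt fun m hm => h m (by omega))]

theorem S_inj {b N : ℕ} {f g : ℕ → ℕ} (hf : ∀ m < N, f m < 2 ^ b) (hg : ∀ m < N, g m < 2 ^ b)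
    (h : S b N f = S b N g) : ∀ m < N, f m = g m := by
  intro m hm
  have hf' : f m = S b N f / 2 ^ (b * m) % 2 ^ (b * 1) := by
    rw [S_div hf, S_mod (fun i hi => hf _ (by omega)) (by omega)]
    simp [S]
  have hg' : g m = S b N g / 2 ^ (b * m) % 2 ^ (b * 1) := by
    rw [S_div hg, S_mod (fun i hi => hg _ (by omega)) (by omega)]
    simp [S]
  rw [hf', hg', h]

theorem S_digit {b N : ℕ} {f : ℕ → ℕ} (hf : ∀ m < N, f m < 2 ^ b) {m : ℕ} (hm : m < N) :
    S b N f / 2 ^ (b * m) % 2 ^ b = f m := by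
  rw [S_div hf]
  have := S_mod (b := b) (N := N - m) (f := fun i => f (i + m)) (fun i hi => hf _ (by omega)) (q := 1) (by omega)
  rw [Nat.mul_one] at this
  rw [this]
  simp [S]

theorem S_land {b N : ℕ} {f g : ℕ → ℕ} (hb : 0 < b) (hf : ∀ m < N, f m < 2 ^ b) (hg : ∀ m < N, g m < 2 ^ b) :
    S b N f &&& S b N g = S b N (fun m => f m &&& g m) := by
  apply Nat.eq_of_testBit_eq
  intro p
  rw [Nat.testBit_and, S_testBit hb hf, S_testBit hb hg,
    S_testBit hb (fun m hm => lt_of_le_of_lt Nat.and_le_left (hf m hm)), Nat.testBit_and]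
  cases decide (p / b < N) <;> simp

theorem S_xor {b N : ℕ} {f g : ℕ → ℕ} (hb : 0 < b) (hf : ∀ m < N, f m < 2 ^ b) (hg : ∀ m < N, g m < 2 ^ b) :
    S b N f ^^^ S b N g = S b N (fun m => f m ^^^ g m) := by
  apply Nat.eq_of_testBit_eq
  intro p
  rw [Nat.testBit_xor, S_testBit hb hf, S_testBit hb hg,
    S_testBit hb (fun m hm => Nat.xor_lt_two_pow (hf m hm) (hg m hm)), Nat.testBit_xor]
  cases decide (p / b < N) <;> simp

theorem S_add (b N : ℕ) (f g : ℕ → ℕ) : S b N f + S b N g = S b N (fun m => f m + g m) := by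
  rw [S, S, S, ← sum_add_distrib]
  exact sum_congr rfl fun m _ => by ring

theorem S_sub {b N : ℕ} {f g : ℕ → ℕ} (h : ∀ m < N, g m ≤ f m) :
    S b N f - S b N g = S b N (fun m => f m - g m) := by
  have h1 : S b N f = S b N (fun m => f m - g m) + S b N g := by
    rw [S_add]
    exact S_congr fun m hm => by have := h m hm; omega
  omega

theorem S_mul (b N : ℕ) (f : ℕ → ℕ) (a : ℕ) : a * S b N f = S b N (fun m => a * f m) := by
  rw [S, S, mul_sum]
  exact sum_congr rfl fun m _ => by ring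

/-- multiplication by a geometric sum repeats the digit -/
theorem mul_geo (b N a : ℕ) : a * ∑ i ∈ range N, 2 ^ (b * i) = S b N (fun _ => a) := by
  rw [S, mul_sum]

/-- casting out `2 ^ M - 1` -/
theorem fold_mod {ι : Type*} (s : Finset ι) (a e e' c : ι → ℕ) (M : ℕ)
    (h : ∀ i ∈ s, e i = e' i + M * c i) :
    (∑ i ∈ s, a i * 2 ^ e i) % (2 ^ M - 1) = (∑ i ∈ s, a i * 2 ^ e' i) % (2 ^ M - 1) := by
  have key : ∀ c : ℕ, 2 ^ (M * c) ≡ 1 [MOD (2 ^ M - 1)] := by
    intro c
    rw [pow_mul]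
    have h1 : 2 ^ M ≡ 1 [MOD (2 ^ M - 1)] := by
      have h2 : 1 ≤ 2 ^ M := Nat.one_le_two_pow
      exact ((Nat.modEq_iff_dvd' h2).2 dvd_rfl).symm
    simpa using h1.pow c
  rw [Finset.sum_nat_mod, Finset.sum_nat_mod s _ (fun i => a i * 2 ^ e' i)]
  congr 1
  apply sum_congr rfl
  intro i hi
  rw [h i hi, pow_add]
  have := (Nat.ModEq.refl (a i * 2 ^ e' i)).mul (key (c i))
  rw [mul_one] at this
  rw [← mul_assoc]
  exact this

end Pool.Agent.N3
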