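import Pool.Agent.Lib.MP_f3f345_co.Def
import Pool.Agent.Lib.MP_f3f345_co.Tool

/-! # Row A01 -/
namespace Pool.Agent.N3

open Finset

theorem a01_gS (n : ℕ) (I : ℕ → ℕ → ℕ) (k : ℕ) : gM n I k =
    S 80 n (fun x => S 5 n (fun y => if x = y then 18 - deg I k x else 1 - co I k x y)) := by
  rw [gM, S]
  apply sum_congr rfl
  intro x _
  rw [S, sum_mul]
  apply sum_congr rfl
  intro y _
  rw [mul_assoc, ← pow_add, Nat.add_comm (5 * y) (80 * x)]

theorem a01_deg {n k : ℕ} {I : ℕ → ℕ → ℕ} (hI : Mx n I) (hk : k ≤ n) {x : ℕ} (hx : x < n) :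
    deg I k x ≤ 3 := by
  rw [deg, ← hI.col x hx]
  exact sum_le_sum_of_subset (range_subset_range.2 hk)

theorem a01_bit {n k : ℕ} {I : ℕ → ℕ → ℕ} (hI : Mx n I) (hk : k ≤ n) {x : ℕ} (hx : x < n) :
    (gM n I k).testBit (85 * x + 4) = decide (deg I k x < 3) := by
  have hn := hI.n15
  have hd : ∀ x' m : ℕ, (if x' = m then 18 - deg I k x' else 1 - co I k x' m) < 2 ^ 5 := by
    intro x' m
    split_ifs
    · omega
    · omega
  have h1 : ∀ m < n, S 5 n (fun y => if m = y then 18 - deg I k m else 1 - co I k m y) < 2 ^ 80 := by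
    intro m _
    refine lt_of_lt_of_le (S_lt fun y _ => hd m y) ?_
    exact Nat.pow_le_pow_right (by norm_num) (by omega)
  have h2 : 85 * x + 4 = 80 * x + (5 * x + 4) := by ring
  rw [a01_gS, h2, S_testBit' h1 x (5 * x + 4) (by omega),
    S_testBit' (fun y _ => hd x y) x 4 (by omega), if_pos rfl]
  have h3 := a01_deg hI hk hx
  simp only [hx, decide_true, Bool.true_and]
  generalize deg I k x = d at h3
  interval_cases d <;> decide

theorem unsat_eq {n k : ℕ} {I : ℕ → ℕ → ℕ} (hI : Mx n I) (hk : k ≤ n) :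
    unsat (KK n) (gM n I k) = uM n I k := by
  classical
  have hn := hI.n15
  have e1 : unsat (KK n) (gM n I k) =
      ((gM n I k &&& ∑ x ∈ range n, 2 ^ (85 * x + 4)) % (2 ^ 80 - 1)) >>> 4 := rfl
  have e2 : (gM n I k &&& ∑ x ∈ range n, 2 ^ (85 * x + 4)) =
      ∑ x ∈ (range n).filter (fun x => deg I k x < 3), 2 ^ (85 * x + 4) := by
    apply Nat.eq_of_testBit_eq
    intro p
    rw [Bool.eq_iff_iff, Nat.testBit_and, Bool.and_eq_true,
      testBit_sum_pow (range n) (fun x => 85 * x + 4) (fun i _ j _ h => by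
        have h' : 85 * i + 4 = 85 * j + 4 := h
        omega),
      testBit_sum_pow _ (fun x => 85 * x + 4) (fun i _ j _ h => by
        have h' : 85 * i + 4 = 85 * j + 4 := h
        omega)]
    constructor
    · rintro ⟨h1, x, hx, rfl⟩
      rw [mem_range] at hx
      rw [a01_bit hI hk hx, decide_eq_true_eq] at h1
      exact ⟨x, mem_filter.2 ⟨mem_range.2 hx, h1⟩, rfl⟩
    · rintro ⟨x, hx, rfl⟩
      rw [mem_filter, mem_range] at hx
      refine ⟨?_, x, mem_range.2 hx.1, rfl⟩
      rw [a01_bit hI hk hx.1, decide_eq_true_eq]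
      exact hx.2
  have e3 : (∑ x ∈ (range n).filter (fun x => deg I k x < 3), 2 ^ (85 * x + 4)) % (2 ^ 80 - 1) =
      (∑ x ∈ (range n).filter (fun x => deg I k x < 3), 2 ^ (5 * x + 4)) % (2 ^ 80 - 1) := by
    have := fold_mod ((range n).filter (fun x => deg I k x < 3)) (fun _ => 1)
      (fun x => 85 * x + 4) (fun x => 5 * x + 4) (fun x => x) 80 (fun i _ => by ring)
    simp only [one_mul] at this
    exact this
  have e4 : (∑ x ∈ (range n).filter (fun x => deg I k x < 3), 2 ^ (5 * x + 4)) =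
      uM n I k * 2 ^ 4 := by
    rw [uM, sum_filter, sum_mul]
    apply sum_congr rfl
    intro x _
    split_ifs
    · rw [one_mul, pow_add]
    · rw [zero_mul, zero_mul]
  have e5 : uM n I k < 2 ^ 75 := by
    have h1 : uM n I k = S 5 n (fun c => if deg I k c < 3 then 1 else 0) := rfl
    rw [h1]
    refine lt_of_lt_of_le (S_lt fun y _ => ?_) (Nat.pow_le_pow_right (by norm_num) (by omega : 5 * n ≤ 75))
    split_ifs <;> norm_num
  rw [e1, e2, e3, e4, Nat.mod_eq_of_lt (by omega), Nat.shiftRight_eq_div_pow,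
    Nat.mul_div_cancel _ (by norm_num)]

end Pool.Agent.N3
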