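import Pool.Agent.Lib.MP_f3f345_co.Def
import Pool.Agent.Lib.MP_f3f345_co.Tool

/-! # Row A02 -/
namespace Pool.Agent.N3

open Finset

theorem a02_lhs (n a : ℕ) :
    spread (KK n) a = S 75 n (fun _ => a) &&& S 80 n (fun _ => 1) := by
  have h1 : (∑ x ∈ range n, 2 ^ (80 * x) : ℕ) = S 80 n (fun _ => 1) := by
    rw [S]
    exact sum_congr rfl fun x _ => (one_mul _).symm
  have h2 : a * ∑ x ∈ range n, 2 ^ (75 * x) = S 75 n (fun _ => a) := mul_geo 75 n a
  rw [← h1, ← h2]
  rfl

theorem spread_eq {n a : ℕ} (hn : n ≤ 15) (ha : a < 2 ^ 75) :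
    spread (KK n) a = ∑ c ∈ range n, (if a.testBit (5 * c) = true then 1 else 0) * 2 ^ (80 * c) := by
  have hR : (∑ c ∈ range n, (if a.testBit (5 * c) = true then 1 else 0) * 2 ^ (80 * c) : ℕ) =
      S 80 n (fun c => if a.testBit (5 * c) = true then 1 else 0) := rfl
  rw [a02_lhs, hR]
  apply Nat.eq_of_testBit_eq
  intro p
  rw [Nat.testBit_and, S_testBit (b := 75) (by norm_num) (fun _ _ => ha),
    S_testBit (b := 80) (f := fun _ => 1) (by norm_num) (fun _ _ => by norm_num),
    S_testBit (b := 80) (f := fun c => if a.testBit (5 * c) = true then 1 else 0) (by norm_num)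
      (fun m _ => by split_ifs <;> norm_num)]
  by_cases hx : p / 80 < n
  · by_cases hr : p % 80 = 0
    · have e1 : p / 75 = p / 80 := by omega
      have e2 : p % 75 = 5 * (p / 80) := by omega
      rw [e1, e2, hr]
      by_cases hb : a.testBit (5 * (p / 80)) = true
      · simp [hx, hb]
      · simp [hx, hb]
    · have h1 : (1 : ℕ).testBit (p % 80) = false := by
        rw [Nat.testBit_one_eq_true_iff_self_eq_zero.not.2 hr |> Bool.eq_false_iff.2]
      have h2 : (if a.testBit (5 * (p / 80)) = true then 1 else 0 : ℕ).testBit (p % 80) = false := by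
        split_ifs
        · exact h1
        · exact Nat.zero_testBit _
      rw [h1, h2]
      simp
  · simp [hx]

end Pool.Agent.N3
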