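import Pool.Agent.Lib.MP_f3f345_co.Def
import Pool.Agent.Lib.MP_f3f345_co.Tool

/-! # Row A03 -/
namespace Pool.Agent.N3

open Finset

/-- geometric sums -/
def a03_geo (b n : ℕ) : ℕ := Nat.div (Nat.sub (Nat.pow 2 (Nat.mul b n)) 1) (Nat.sub (Nat.pow 2 b) 1)

theorem a03_geo_eq (b n : ℕ) (hb : 0 < b) : ∑ i ∈ range n, 2 ^ (b * i) = a03_geo b n := by
  have h2 : 2 ≤ 2 ^ b := by
    calc 2 = 2 ^ 1 := rfl
      _ ≤ 2 ^ b := Nat.pow_le_pow_right (by norm_num) hb
  have h := Nat.geomSum_eq h2 n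
  simp only [← pow_mul] at h
  exact h

/-- the mask of the pairs `y < x < h` -/
def a03_mask (h : ℕ) : ℕ :=
  Nat.rec (motive := fun _ => ℕ) 0 (fun x ih => Nat.add ih (Nat.mul (a03_geo 5 x) (Nat.pow 2 (Nat.mul 80 x)))) h

/-- the expected value -/
def a03_tgt (h a b : ℕ) : ℕ :=
  Bool.rec (motive := fun _ => ℕ)
    (Bool.rec (motive := fun _ => ℕ) 0
      (Bool.rec (motive := fun _ => ℕ)
        (Nat.pow 2 (Nat.add (Nat.mul 80 a) (Nat.mul 5 b)))
        (Nat.pow 2 (Nat.add (Nat.mul 80 b) (Nat.mul 5 a)))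
        (Nat.ble a b))
      (Bool.rec (motive := fun _ => Bool) false (Nat.ble (Nat.succ b) h) (Nat.ble (Nat.succ a) h)))
    0 (Nat.beq a b)

def a03_out (s d w : ℕ) : ℕ := Nat.mul (Nat.land (Nat.mul w s) d) w

def a03_ck (s d m h idx : ℕ) : Bool :=
  Nat.beq (Nat.land (a03_out s d (rowm h idx)) m) (a03_tgt h (Nat.div idx 16) (Nat.mod idx 16))

theorem a03_all : ∀ n < 16, ∀ h < n, ∀ idx < 256,
    a03_ck (a03_geo 75 n) (a03_geo 80 n) (a03_mask h) h idx = true := by
  decide +kernel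

theorem a03_maskbit : ∀ h < 15, ∀ x < h, ∀ y < x, (a03_mask h).testBit (80 * x + 5 * y) = true := by
  decide +kernel

theorem a03_outer (n w : ℕ) : outer (KK n) w = a03_out (a03_geo 75 n) (a03_geo 80 n) w := by
  have h1 : (KK n).s75 = a03_geo 75 n := a03_geo_eq 75 n (by norm_num)
  have h2 : (KK n).d80 = a03_geo 80 n := a03_geo_eq 80 n (by norm_num)
  rw [outer, spread, h1, h2, a03_out]

theorem a03_rowm {h idx : ℕ} :
    rowm h idx = 2 ^ (5 * h) + (2 ^ (5 * (idx / 16)) + 2 ^ (5 * (idx % 16))) := by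
  have h1 : Nat.shiftRight idx 4 = idx / 16 := Nat.shiftRight_eq_div_pow idx 4
  have h2 : Nat.land idx 15 = idx % 16 := Nat.and_two_pow_sub_one_eq_mod idx 4
  have e : ∀ k, Nat.pow 32 k = 2 ^ (5 * k) := fun k => by
    rw [pow_mul]; rfl
  rw [rowm, h1, h2, e, e, e]
  rfl

theorem a03_tgt_bit {h a b x y : ℕ} (hyx : y < x) (ha : a < 16) (hb : b < 16)
    (ht : (a03_tgt h a b).testBit (80 * x + 5 * y) = true) : a = x ∧ b = y ∨ a = y ∧ b = x := by
  unfold a03_tgt at ht
  cases h1 : Nat.beq a b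
  · rw [h1] at ht
    cases h2 : Nat.ble (Nat.succ a) h
    · rw [h2] at ht
      simp at ht
    · rw [h2] at ht
      cases h3 : Nat.ble (Nat.succ b) h
      · rw [h3] at ht
        simp at ht
      · rw [h3] at ht
        cases h4 : Nat.ble a b
        · rw [h4] at ht
          have ht' : (2 ^ (80 * a + 5 * b)).testBit (80 * x + 5 * y) = true := ht
          rw [Nat.testBit_two_pow, decide_eq_true_eq] at ht'
          left
          omega
        · rw [h4] at ht
          have ht' : (2 ^ (80 * b + 5 * a)).testBit (80 * x + 5 * y) = true := ht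
          rw [Nat.testBit_two_pow, decide_eq_true_eq] at ht'
          right
          omega
  · rw [h1] at ht
    simp at ht

theorem cover_bit {n h x y idx : ℕ} (hn3 : 3 ≤ n) (hn : n ≤ 15) (hh : h < n) (hyx : y < x) (hxh : x < h)
    (hi : idx < 256) (hb : (outer (KK n) (rowm h idx)).testBit (80 * x + 5 * y) = true) :
    rowm h idx = 2 ^ (5 * h) + 2 ^ (5 * x) + 2 ^ (5 * y) ∧
      (idx / 16 = x ∧ idx % 16 = y ∨ idx / 16 = y ∧ idx % 16 = x) := by
  have hck := Nat.eq_of_beq_eq_true (a03_all n (by omega) h hh idx hi)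
  rw [← a03_outer] at hck
  have hm := a03_maskbit h (by omega) x hxh y hyx
  have hland : (outer (KK n) (rowm h idx) &&& a03_mask h).testBit (80 * x + 5 * y) = true := by
    rw [Nat.testBit_and, hb, hm]
    rfl
  have hck' : outer (KK n) (rowm h idx) &&& a03_mask h = a03_tgt h (idx / 16) (idx % 16) := hck
  rw [hck'] at hland
  have hxy := a03_tgt_bit hyx (by omega) (by omega) hland
  refine ⟨?_, hxy⟩
  rw [a03_rowm]
  rcases hxy with ⟨h1, h2⟩ | ⟨h1, h2⟩
  · rw [h1, h2]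
    ring
  · rw [h1, h2]
    ring

end Pool.Agent.N3
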