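import Pool.Agent.Lib.MP_f3f345_co.Def
import Pool.Agent.Lib.MP_f3f345_co.Tool

/-! # Row A04 -/
namespace Pool.Agent.N3

open Finset

theorem a04_inner {n : ℕ} (hn : n ≤ 15) {f : ℕ → ℕ} (h : ∀ c < n, f c < 2 ^ 5) :
    S 5 n f < 2 ^ 80 :=
  lt_of_lt_of_le (S_lt h) (Nat.pow_le_pow_right (by norm_num) (by omega))

theorem a04_spread {n t : ℕ} (hn : n ≤ 15) (ht : t < 2 ^ (5 * n)) :
    (t * ∑ x ∈ range n, 2 ^ (75 * x)) &&& (∑ x ∈ range n, 15 * 2 ^ (80 * x)) =
      S 80 n (fun m => t / 2 ^ (5 * m) % 2 ^ 4) := by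
  have ht' : t < 2 ^ 75 := lt_of_lt_of_le ht (Nat.pow_le_pow_right (by norm_num) (by omega))
  have e1 : (∑ x ∈ range n, 15 * 2 ^ (80 * x)) = S 80 n (fun _ => 15) := rfl
  rw [mul_geo, e1]
  apply Nat.eq_of_testBit_eq
  intro p
  have hd : ∀ m < n, t / 2 ^ (5 * m) % 2 ^ 4 < 2 ^ 80 := fun m _ =>
    lt_of_lt_of_le (Nat.mod_lt _ (by norm_num)) (by norm_num)
  rw [Nat.testBit_and, S_testBit (b := 80) (by norm_num) (fun m _ => by norm_num),
    S_testBit (b := 80) (by norm_num) hd]
  obtain ⟨m, r, hr, rfl⟩ : ∃ m r, r < 80 ∧ p = 80 * m + r :=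
    ⟨p / 80, p % 80, Nat.mod_lt _ (by norm_num), (Nat.div_add_mod p 80).symm⟩
  have e2 : (80 * m + r) / 80 = m := by omega
  have e3 : (80 * m + r) % 80 = r := by omega
  rw [e2, e3]
  have e4 : (15 : ℕ) = 2 ^ 4 - 1 := by norm_num
  rw [e4, Nat.testBit_two_pow_sub_one, Nat.testBit_mod_two_pow, Nat.testBit_div_two_pow]
  by_cases hr4 : r < 4
  · by_cases hm : m < n
    · have e5 : 80 * m + r = 75 * m + (5 * m + r) := by ring
      rw [e5, S_testBit' (b := 75) (fun _ _ => ht') m (5 * m + r) (by omega)]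
      simp only [hm, hr4, decide_true, Bool.true_and, Bool.and_true]
      rw [Nat.add_comm r (5 * m)]
    · simp [hm]
  · simp [hr4]

theorem a04_exT {n t : ℕ} (hn : n ≤ 15) (ht : t < 2 ^ (5 * n)) :
    exT (KK n) t = S 80 n (fun m => S 5 n (fun c =>
      if t / 2 ^ (5 * m) % 2 ^ 4 = c then 16 else 0)) := by
  have e1 : exT (KK n) t = ((∑ m ∈ range n, ∑ c ∈ range n, 2 ^ (80 * m + 5 * c + 4)) -
      (((((t * ∑ x ∈ range n, 2 ^ (75 * x)) &&& (∑ x ∈ range n, 15 * 2 ^ (80 * x))) *
        ∑ c ∈ range n, 2 ^ (5 * c)) ^^^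
        (∑ m ∈ range n, ∑ c ∈ range n, c * 2 ^ (80 * m + 5 * c))))) &&&
      (∑ m ∈ range n, ∑ c ∈ range n, 2 ^ (80 * m + 5 * c + 4)) := rfl
  have e2 : (∑ m ∈ range n, ∑ c ∈ range n, 2 ^ (80 * m + 5 * c + 4)) =
      S 80 n (fun _ => S 5 n (fun _ => 16)) := by
    rw [S]
    apply sum_congr rfl
    intro m _
    rw [S, sum_mul]
    apply sum_congr rfl
    intro c _
    rw [pow_add, pow_add]
    ring
  have e3 : (∑ m ∈ range n, ∑ c ∈ range n, c * 2 ^ (80 * m + 5 * c)) =
      S 80 n (fun _ => S 5 n (fun c => c)) := by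
    rw [S]
    apply sum_congr rfl
    intro m _
    rw [S, sum_mul]
    apply sum_congr rfl
    intro c _
    rw [pow_add]
    ring
  have e4 : ∀ d : ℕ → ℕ, S 80 n d * ∑ c ∈ range n, 2 ^ (5 * c) =
      S 80 n (fun m => S 5 n (fun _ => d m)) := by
    intro d
    rw [S, S, sum_mul]
    apply sum_congr rfl
    intro m _
    rw [← mul_geo]
    ring
  have h16 : ∀ m : ℕ, t / 2 ^ (5 * m) % 2 ^ 4 < 2 ^ 4 := fun m => Nat.mod_lt _ (by norm_num)
  have hx : ∀ m c : ℕ, c < n → (t / 2 ^ (5 * m) % 2 ^ 4) ^^^ c < 2 ^ 4 := fun m c hc =>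
    Nat.xor_lt_two_pow (h16 m) (by omega)
  rw [e1, a04_spread hn ht, e4, e2, e3, S_xor (by norm_num)
    (fun m _ => a04_inner hn fun c _ => by have := h16 m; omega)
    (fun m _ => a04_inner hn fun c _ => by omega)]
  have e5 : ∀ m < n, S 5 n (fun _ => t / 2 ^ (5 * m) % 2 ^ 4) ^^^ S 5 n (fun c => c) =
      S 5 n (fun c => (t / 2 ^ (5 * m) % 2 ^ 4) ^^^ c) := by
    intro m _
    exact S_xor (by norm_num) (fun c _ => by have := h16 m; omega) (fun c _ => by omega)
  rw [S_congr e5, S_sub, S_land (by norm_num)]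
  · apply S_congr
    intro m _
    rw [S_sub (fun c hc => by have := hx m c hc; omega), S_land (by norm_num)
      (fun c hc => by omega) (fun c hc => by norm_num)]
    apply S_congr
    intro c hc
    have h1 := hx m c hc
    by_cases h2 : t / 2 ^ (5 * m) % 2 ^ 4 = c
    · rw [if_pos h2, h2, Nat.xor_self]
      rfl
    · rw [if_neg h2]
      have h3 : (t / 2 ^ (5 * m) % 2 ^ 4) ^^^ c ≠ 0 := by
        intro h4
        exact h2 (Nat.xor_eq_zero_iff.1 h4)
      generalize (t / 2 ^ (5 * m) % 2 ^ 4) ^^^ c = v at h1 h3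
      interval_cases v
      · exact absurd rfl h3
      all_goals rfl
  · intro m _
    rw [S_sub (fun c hc => by have := hx m c hc; omega)]
    exact a04_inner hn fun c _ => by omega
  · intro m _
    exact a04_inner hn fun c _ => by norm_num
  · intro m _
    refine sum_le_sum fun c hc => Nat.mul_le_mul_right _ ?_
    have h1 := hx m c (mem_range.1 hc)
    change (t / 2 ^ (5 * m) % 2 ^ 4) ^^^ c ≤ 16
    exact h1.le

theorem exT_bits {n t : ℕ} (hn3 : 3 ≤ n) (hn : n ≤ 15) (ht : t < 2 ^ (5 * n))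
    (h : Nat.mod (exT (KK n) t) (KK n).m80 = (KK n).ones16) :
    ∃ τ : Equiv.Perm ℕ, (∀ i, τ i < n ↔ i < n) ∧
      exT (KK n) t = ∑ m ∈ range n, 2 ^ (80 * m + 5 * τ m + 4) := by
  classical
  set d : ℕ → ℕ := fun m => t / 2 ^ (5 * m) % 2 ^ 4 with hd
  have e1 : exT (KK n) t = S 80 n (fun m => S 5 n (fun c => if d m = c then 16 else 0)) :=
    a04_exT hn ht
  have e2 : exT (KK n) t = ∑ m ∈ range n, (if d m < n then 1 else 0) * 2 ^ (80 * m + 5 * d m + 4) := by
    rw [e1, S]
    apply sum_congr rfl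
    intro m _
    have e3 : S 5 n (fun c => if d m = c then 16 else 0) =
        if d m < n then 16 * 2 ^ (5 * d m) else 0 := by
      rw [S]
      simp only [ite_mul, zero_mul]
      rw [sum_ite_eq]
      simp only [mem_range]
    rw [e3]
    split_ifs
    · rw [pow_add, pow_add]
      ring
    · rw [zero_mul, zero_mul]
  have e4 : exT (KK n) t % (2 ^ 80 - 1) =
      (∑ m ∈ range n, (if d m < n then 1 else 0) * 2 ^ (5 * d m + 4)) % (2 ^ 80 - 1) := by
    rw [e2]
    exact fold_mod (range n) (fun m => if d m < n then 1 else 0) (fun m => 80 * m + 5 * d m + 4)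
      (fun m => 5 * d m + 4) (fun m => m) 80 (fun m _ => by ring)
  have e5 : (∑ m ∈ range n, (if d m < n then 1 else 0) * 2 ^ (5 * d m + 4)) =
      S 5 n (fun c => ((range n).filter (fun m => d m = c)).card) * 2 ^ 4 := by
    have e6 : ∀ m ∈ range n, (if d m < n then 1 else 0) * 2 ^ (5 * d m + 4) =
        ∑ c ∈ range n, if d m = c then 2 ^ (5 * c + 4) else 0 := by
      intro m _
      rw [sum_ite_eq]
      simp only [mem_range]
      split_ifs
      · rw [one_mul]
      · rw [zero_mul]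
    rw [sum_congr rfl e6, sum_comm, S, sum_mul]
    apply sum_congr rfl
    intro c _
    rw [← sum_filter, sum_const, smul_eq_mul, pow_add]
    ring
  have hc : ∀ c < n, ((range n).filter (fun m => d m = c)).card < 2 ^ 5 := by
    intro c _
    refine lt_of_le_of_lt (card_filter_le _ _) ?_
    rw [card_range]
    omega
  have e7 : S 5 n (fun c => ((range n).filter (fun m => d m = c)).card) < 2 ^ 75 :=
    lt_of_lt_of_le (S_lt hc) (Nat.pow_le_pow_right (by norm_num) (by omega))
  have e7' : S 5 n (fun c => ((range n).filter (fun m => d m = c)).card) * 2 ^ 4 < 2 ^ 80 - 1 :=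
    lt_of_le_of_lt (Nat.mul_le_mul_right _ (Nat.le_pred_of_lt e7)) (by norm_num)
  have e8 : (KK n).ones16 = S 5 n (fun _ => 1) * 2 ^ 4 := by
    change (∑ c ∈ range n, 2 ^ (5 * c + 4)) = _
    rw [S, sum_mul]
    apply sum_congr rfl
    intro c _
    rw [pow_add, one_mul]
  have e9 : S 5 n (fun c => ((range n).filter (fun m => d m = c)).card) = S 5 n (fun _ => 1) := by
    have h' : exT (KK n) t % (2 ^ 80 - 1) = (KK n).ones16 := h
    rw [e4, e5, e8, Nat.mod_eq_of_lt e7'] at h'
    exact Nat.eq_of_mul_eq_mul_right (by norm_num) h'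
  have e10 : ∀ c < n, ((range n).filter (fun m => d m = c)).card = 1 :=
    S_inj hc (fun _ _ => by norm_num) e9
  have hsurj : ∀ c < n, ∃ m < n, d m = c := by
    intro c hcn
    have h1 : ((range n).filter (fun m => d m = c)).Nonempty := by
      rw [← card_pos, e10 c hcn]
      norm_num
    obtain ⟨m, hm⟩ := h1
    rw [mem_filter, mem_range] at hm
    exact ⟨m, hm.1, hm.2⟩
  have hinj : ∀ m < n, ∀ m' < n, d m < n → d m = d m' → m = m' := by
    intro m hm m' hm' h1 h2
    have h3 := e10 (d m) h1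
    rw [card_eq_one] at h3
    obtain ⟨a, ha⟩ := h3
    have h4 : m ∈ (range n).filter (fun x => d x = d m) := by
      rw [mem_filter, mem_range]
      exact ⟨hm, rfl⟩
    have h5 : m' ∈ (range n).filter (fun x => d x = d m) := by
      rw [mem_filter, mem_range]
      exact ⟨hm', h2.symm⟩
    rw [ha, mem_singleton] at h4 h5
    rw [h4, h5]
  have hlt : ∀ m < n, d m < n := by
    choose! g hg1 hg2 using hsurj
    have h1 : (range n).image g ⊆ range n := by
      intro x hx
      rw [mem_image] at hx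
      obtain ⟨c, hc1, rfl⟩ := hx
      exact mem_range.2 (hg1 c (mem_range.1 hc1))
    have h2 : ((range n).image g).card = n := by
      rw [card_image_of_injOn, card_range]
      intro a ha b hb hab
      have ha' : a < n := mem_range.1 (mem_coe.1 ha)
      have hb' : b < n := mem_range.1 (mem_coe.1 hb)
      rw [← hg2 a ha', ← hg2 b hb', hab]
    have h3 : (range n).image g = range n := eq_of_subset_of_card_le h1 (by rw [h2, card_range])
    intro m hm
    have h4 : m ∈ (range n).image g := by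
      rw [h3]
      exact mem_range.2 hm
    rw [mem_image] at h4
    obtain ⟨c, hc1, rfl⟩ := h4
    rw [hg2 c (mem_range.1 hc1)]
    exact mem_range.1 hc1
  have hbij : Function.Bijective (fun i => if i < n then d i else i) := by
    constructor
    · intro a b hab
      simp only at hab
      split_ifs at hab with h1 h2 h2
      · exact hinj a h1 b h2 (hlt a h1) hab
      · have := hlt a h1
        omega
      · have := hlt b h2
        omega
      · exact hab
    · intro c
      by_cases h1 : c < n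
      · obtain ⟨m, hm, hmc⟩ := hsurj c h1
        refine ⟨m, ?_⟩
        simp only [hm, if_true]
        exact hmc
      · refine ⟨c, ?_⟩
        simp only [h1, if_false]
  refine ⟨Equiv.ofBijective _ hbij, ?_, ?_⟩
  · intro i
    rw [Equiv.ofBijective_apply]
    by_cases h1 : i < n
    · simp only [h1, if_true, iff_true]
      exact hlt i h1
    · simp only [h1, if_false]
  · rw [e2]
    apply sum_congr rfl
    intro m hm
    have hm' := mem_range.1 hm
    rw [Equiv.ofBijective_apply]
    simp only [hm', if_true, hlt m hm', one_mul]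

end Pool.Agent.N3
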