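import Pool.Agent.Lib.MP_f3f345_co.Def
import Pool.Agent.Lib.MP_f3f345_co.Tool

/-! # Row A05 -/
namespace Pool.Agent.N3

open Finset

/-- a sum over the blocks of 80 bits inside the blocks of 2320 bits -/
private theorem a05_double (n : ℕ) (a : ℕ → ℕ → ℕ) :
    ∑ i ∈ range n, ∑ r ∈ range n, a i r * 2 ^ (2320 * i + 80 * r) =
      S 2320 n (fun i => S 80 n (a i)) := by
  rw [S]
  refine sum_congr rfl fun i _ => ?_
  rw [S, sum_mul]
  refine sum_congr rfl fun r _ => ?_
  rw [pow_add]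
  ring

private theorem a05_lt {n : ℕ} (hn : n ≤ 15) {f : ℕ → ℕ} (hf : ∀ r < n, f r < 2 ^ 80) :
    S 80 n f < 2 ^ 2320 :=
  lt_of_lt_of_le (S_lt hf) (Nat.pow_le_pow_right (by norm_num) (by omega))

private theorem a05_dig {n : ℕ} (hn : n ≤ 15) (x r : ℕ) (hx : x < 16) : x ^^^ (n - r) < 16 := by
  have h1 : x < 2 ^ 4 := by norm_num; exact hx
  have h2 : n - r < 2 ^ 4 := by norm_num; omega
  have h3 := Nat.xor_lt_two_pow h1 h2
  norm_num at h3
  exact h3

private theorem a05_bit (x : ℕ) (hx : x < 16) : (16 - x) &&& 16 = if x = 0 then 16 else 0 := by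
  interval_cases x <;> rfl

/-- the digits picked by the mask -/
private theorem a05_pick {n s : ℕ} (hn : n ≤ 15) (hs : s < 2 ^ (5 * n)) :
    (s * ∑ i ∈ range n, 2 ^ (2315 * i)) &&& (∑ i ∈ range n, 15 * 2 ^ (2320 * i)) =
      S 2320 n (fun i => s / 2 ^ (5 * i) % 2 ^ 4) := by
  have hs' : s < 2 ^ 2315 := lt_of_lt_of_le hs (Nat.pow_le_pow_right (by norm_num) (by omega))
  have e1 : (∑ i ∈ range n, 15 * 2 ^ (2320 * i)) = S 2320 n (fun _ => 15) := rfl
  have h15 : (15 : ℕ) < 2 ^ 2320 :=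
    lt_of_lt_of_le (by norm_num : (15 : ℕ) < 2 ^ 4) (Nat.pow_le_pow_right (by norm_num) (by norm_num))
  have hg : ∀ i, s / 2 ^ (5 * i) % 2 ^ 4 < 2 ^ 2320 := fun i =>
    lt_of_lt_of_le (Nat.mod_lt _ (by norm_num)) (Nat.pow_le_pow_right (by norm_num) (by norm_num))
  rw [mul_geo, e1]
  apply Nat.eq_of_testBit_eq
  intro p
  obtain ⟨i, t, ht, rfl⟩ : ∃ i t, t < 2320 ∧ p = 2320 * i + t :=
    ⟨p / 2320, p % 2320, Nat.mod_lt _ (by norm_num), (Nat.div_add_mod p 2320).symm⟩
  rw [Nat.testBit_and, S_testBit' (fun _ _ => h15) i t ht, S_testBit' (fun m _ => hg m) i t ht]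
  by_cases hi : i < n
  · by_cases h4 : t < 4
    · have e2 : 2320 * i + t = 2315 * i + (5 * i + t) := by ring
      rw [e2, S_testBit' (fun _ _ => hs') i (5 * i + t) (by omega)]
      have e3 : Nat.testBit 15 t = true := by
        interval_cases t <;> rfl
      rw [e3, Nat.testBit_mod_two_pow, Nat.testBit_div_two_pow]
      simp [hi, h4, Nat.add_comm t]
    · have e3 : Nat.testBit 15 t = false :=
        Nat.testBit_lt_two_pow (lt_of_lt_of_le (by norm_num : (15 : ℕ) < 2 ^ 4)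
          (Nat.pow_le_pow_right (by norm_num) (by omega)))
      rw [e3, Nat.testBit_mod_two_pow]
      simp [h4]
  · simp [hi]

theorem exA_bits {n s : ℕ} (hn3 : 3 ≤ n) (hn : n ≤ 15) (hs : s < 2 ^ (5 * n)) :
    ∃ g : ℕ → ℕ, exA (KK n) s =
      ∑ i ∈ range n, (if 1 ≤ g i ∧ g i ≤ n then 2 ^ (2320 * i + 80 * (n - g i) + 4) else 0) := by
  refine ⟨fun i => s / 2 ^ (5 * i) % 2 ^ 4, ?_⟩
  set g : ℕ → ℕ := fun i => s / 2 ^ (5 * i) % 2 ^ 4 with hgdef
  have hg : ∀ i, g i < 16 := fun i => by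
    have h := Nat.mod_lt (s / 2 ^ (5 * i)) (by norm_num : 0 < 2 ^ 4)
    norm_num at h
    exact h
  have h80 : ∀ x : ℕ, x ≤ 16 → x < 2 ^ 80 := fun x hx =>
    lt_of_le_of_lt hx (by norm_num)
  have e0 : exA (KK n) s = ((KK n).j2 - ((((s * (KK n).s463) &&& (KK n).d464f) * (KK n).d80) ^^^
      (KK n).k2)) &&& (KK n).j2 := rfl
  have e1 : (s * (KK n).s463) &&& (KK n).d464f = S 2320 n g := a05_pick hn hs
  have e2 : S 2320 n g * (KK n).d80 = S 2320 n (fun i => S 80 n (fun _ => g i)) := by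
    have h1 : (KK n).d80 = ∑ x ∈ range n, 2 ^ (80 * x) := rfl
    rw [mul_comm, S_mul]
    refine S_congr fun i _ => ?_
    rw [mul_comm, h1, mul_geo]
  have e3 : (KK n).k2 = S 2320 n (fun _ => S 80 n (fun r => n - r)) := a05_double n (fun _ r => n - r)
  have e4 : (KK n).j2 = S 2320 n (fun _ => S 80 n (fun _ => 16)) := by
    rw [← a05_double n (fun _ _ => 16)]
    show ∑ i ∈ range n, ∑ r ∈ range n, 2 ^ (2320 * i + 80 * r + 4) = _
    refine sum_congr rfl fun i _ => sum_congr rfl fun r _ => ?_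
    rw [pow_add _ _ 4]
    ring
  have e5 : S 2320 n (fun i => S 80 n (fun _ => g i)) ^^^ S 2320 n (fun _ => S 80 n (fun r => n - r)) =
      S 2320 n (fun i => S 80 n (fun r => g i ^^^ (n - r))) := by
    rw [S_xor (by norm_num) (fun i _ => a05_lt hn fun r _ => h80 _ (hg i).le)
      (fun i _ => a05_lt hn fun r _ => h80 _ (by omega))]
    refine S_congr fun i _ => ?_
    exact S_xor (by norm_num) (fun r _ => h80 _ (hg i).le) (fun r _ => h80 _ (by omega))
  have hx : ∀ i r, g i ^^^ (n - r) < 16 := fun i r => a05_dig hn (g i) r (hg i)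
  have e6 : S 2320 n (fun _ => S 80 n (fun _ => 16)) -
      S 2320 n (fun i => S 80 n (fun r => g i ^^^ (n - r))) =
      S 2320 n (fun i => S 80 n (fun r => 16 - (g i ^^^ (n - r)))) := by
    have h1 : ∀ i < n, S 80 n (fun r => g i ^^^ (n - r)) ≤ S 80 n (fun _ => 16) := by
      intro i _
      rw [S, S]
      exact sum_le_sum fun r _ => Nat.mul_le_mul_right _ (hx i r).le
    rw [S_sub h1]
    refine S_congr fun i _ => ?_
    exact S_sub fun r _ => (hx i r).le
  have e7 : S 2320 n (fun i => S 80 n (fun r => 16 - (g i ^^^ (n - r)))) &&&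
      S 2320 n (fun _ => S 80 n (fun _ => 16)) =
      S 2320 n (fun i => S 80 n (fun r => if g i ^^^ (n - r) = 0 then 16 else 0)) := by
    rw [S_land (by norm_num) (fun i _ => a05_lt hn fun r _ => h80 _ (Nat.sub_le _ _))
      (fun i _ => a05_lt hn fun r _ => h80 _ le_rfl)]
    refine S_congr fun i _ => ?_
    rw [S_land (by norm_num) (fun r _ => h80 _ (Nat.sub_le _ _)) (fun r _ => h80 _ le_rfl)]
    exact S_congr fun r _ => a05_bit _ (hx i r)
  rw [e0, e1, e2, e3, e4, e5, e6, e7, ← a05_double]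
  refine sum_congr rfl fun i _ => ?_
  split_ifs with hgi
  · rw [sum_eq_single (n - g i)]
    · have h1 : n - (n - g i) = g i := by omega
      rw [h1, Nat.xor_self, if_pos rfl, pow_add _ _ 4]
      ring
    · intro r hr hne
      have hr' := mem_range.1 hr
      have h2 : g i ^^^ (n - r) ≠ 0 := by
        intro h0
        have h3 := Nat.xor_eq_zero_iff.1 h0
        omega
      rw [if_neg h2, Nat.zero_mul]
    · intro h1
      exact absurd (mem_range.2 (by omega)) h1
  · refine sum_eq_zero fun r hr => ?_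
    have hr' := mem_range.1 hr
    have h2 : g i ^^^ (n - r) ≠ 0 := by
      intro h0
      have h3 := Nat.xor_eq_zero_iff.1 h0
      exact hgi (by omega)
    rw [if_neg h2, Nat.zero_mul]

end Pool.Agent.N3
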