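import Pool.Agent.Lib.MP_f3f345_co.Def
import Pool.Agent.Lib.MP_f3f345_co.Tool

/-! # Row A07 -/
namespace Pool.Agent.N3

open Finset

theorem a07_pow (k M : ℕ) (h : k < M) : 2 ^ k ≤ 2 ^ M - 1 :=
  Nat.le_sub_one_of_lt (Nat.pow_lt_pow_right one_lt_two h)

/-- selection of the terms whose exponent occurs in the mask -/
theorem a07_land {ι κ : Type*} (s : Finset ι) (b e : ι → ℕ) (M : Finset κ) (e' : κ → ℕ)
    (hb : ∀ t ∈ s, b t ≤ 1) (hinj : ∀ t ∈ s, ∀ u ∈ s, e t = e u → t = u)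
    (hM : ∀ i ∈ M, ∀ j ∈ M, e' i = e' j → i = j) (sel : ι → Prop) [DecidablePred sel]
    (hsel : ∀ t ∈ s, (sel t ↔ ∃ m ∈ M, e' m = e t)) :
    (∑ t ∈ s, b t * 2 ^ e t) &&& (∑ m ∈ M, 2 ^ e' m) = ∑ t ∈ s.filter sel, b t * 2 ^ e t := by
  classical
  have key : ∀ u ⊆ s, ∑ t ∈ u, b t * 2 ^ e t = ∑ t ∈ u.filter (fun t => b t = 1), 2 ^ e t := by
    intro u hu
    rw [Finset.sum_filter]
    apply Finset.sum_congr rfl
    intro t ht
    have := hb t (hu ht)
    split_ifs with h
    · rw [h, one_mul]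
    · have h0 : b t = 0 := by omega
      rw [h0, zero_mul]
  rw [key s (Finset.Subset.refl _), key (s.filter sel) (Finset.filter_subset _ _)]
  apply Nat.eq_of_testBit_eq
  intro p
  rw [Nat.testBit_and]
  rw [Bool.eq_iff_iff, Bool.and_eq_true, testBit_sum_pow, testBit_sum_pow _ _ hM,
    testBit_sum_pow]
  · constructor
    · rintro ⟨⟨t, ht, hte⟩, m, hm, hme⟩
      rw [Finset.mem_filter] at ht
      refine ⟨t, ?_, hte⟩
      rw [Finset.mem_filter, Finset.mem_filter]
      exact ⟨⟨ht.1, (hsel t ht.1).2 ⟨m, hm, by rw [hme, hte]⟩⟩, ht.2⟩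
    · rintro ⟨t, ht, hte⟩
      rw [Finset.mem_filter, Finset.mem_filter] at ht
      obtain ⟨m, hm, hme⟩ := (hsel t ht.1.1).1 ht.1.2
      exact ⟨⟨t, Finset.mem_filter.2 ⟨ht.1.1, ht.2⟩, hte⟩, m, hm, by rw [hme, hte]⟩
  · intro t ht u hu h
    rw [Finset.mem_filter, Finset.mem_filter] at ht hu
    exact hinj t ht.1.1 u hu.1.1 h
  · intro t ht u hu h
    rw [Finset.mem_filter] at ht hu
    exact hinj t ht.1 u hu.1 h

/-- the general gathering lemma -/
theorem a07_core {ι : Type*} {n : ℕ} (hn : n ≤ 15) (s : Finset ι) (b e e2 q : ι → ℕ)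
    (hb : ∀ t ∈ s, b t ≤ 1) (hinj : ∀ t ∈ s, ∀ u ∈ s, e t = e u → t = u)
    (sel : ι → Prop) [DecidablePred sel]
    (hsel : ∀ t ∈ s, (sel t ↔ ∃ i < n, ∃ c < n, 2320 * i + 5 * c + (80 * (n - 1) + 4) = e t))
    (he2 : ∀ t ∈ s, sel t → e t = (80 * (n - 1) + 4) + (e2 t + 2240 * q t))
    (X Y : ℕ) (hXY : X * Y = ∑ t ∈ s, b t * 2 ^ e t)
    (hlt : ∑ t ∈ s.filter sel, b t * 2 ^ e2 t < 2 ^ 2240 - 1) :
    gath (KK n) X Y = ∑ t ∈ s.filter sel, b t * 2 ^ e2 t := by
  classical
  have hmi : (KK n).mi = ∑ x ∈ range n ×ˢ range n, 2 ^ (2320 * x.1 + 5 * x.2 + (80 * (n - 1) + 4)) := by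
    rw [Finset.sum_product]
    rfl
  have h1 : (X * Y) &&& (KK n).mi = ∑ t ∈ s.filter sel, b t * 2 ^ e t := by
    rw [hXY, hmi]
    apply a07_land s b e (range n ×ˢ range n)
      (fun x => 2320 * x.1 + 5 * x.2 + (80 * (n - 1) + 4)) hb hinj
    · rintro ⟨i, c⟩ h1 ⟨j, d⟩ h2 h
      simp only [Finset.mem_product, Finset.mem_range] at h1 h2
      simp only at h
      have hc : c = d := by omega
      have hi : i = j := by omega
      rw [hc, hi]
    · intro t ht
      rw [hsel t ht]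
      constructor
      · rintro ⟨i, hi, c, hc, h⟩
        exact ⟨(i, c), by simp only [Finset.mem_product, Finset.mem_range]; exact ⟨hi, hc⟩, h⟩
      · rintro ⟨⟨i, c⟩, hic, h⟩
        simp only [Finset.mem_product, Finset.mem_range] at hic
        exact ⟨i, hic.1, c, hic.2, h⟩
  have h2 : ∑ t ∈ s.filter sel, b t * 2 ^ e t =
      2 ^ (80 * (n - 1) + 4) * ∑ t ∈ s.filter sel, b t * 2 ^ (e2 t + 2240 * q t) := by
    rw [Finset.mul_sum]
    apply Finset.sum_congr rfl
    intro t ht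
    rw [Finset.mem_filter] at ht
    rw [he2 t ht.1 ht.2, pow_add 2 (80 * (n - 1) + 4)]
    ring
  have h3 : gath (KK n) X Y =
      ((((X * Y) &&& (KK n).mi) >>> (80 * (n - 1) + 4)) % (2 ^ 2240 - 1)) := rfl
  rw [h3, h1, h2, Nat.shiftRight_eq_div_pow, Nat.mul_div_cancel_left _ (Nat.two_pow_pos _),
    fold_mod _ _ _ e2 q 2240 (fun _ _ => rfl), Nat.mod_eq_of_lt hlt]

theorem gath2 {n : ℕ} {g : ℕ → ℕ} {β : ℕ → ℕ → ℕ} (hn3 : 3 ≤ n) (hn : n ≤ 15) (hβ : ∀ r c, β r c ≤ 1) :
    gath (KK n) (∑ i ∈ range n, (if 1 ≤ g i ∧ g i ≤ n then 2 ^ (2320 * i + 80 * (n - g i) + 4) else 0))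
        (∑ r ∈ range n, (∑ c ∈ range n, β r c * 2 ^ (5 * c)) * 2 ^ (80 * r)) =
      ∑ i ∈ range n, (if 1 ≤ g i ∧ g i ≤ n then ∑ c ∈ range n, β (g i - 1) c * 2 ^ (5 * c) else 0) *
        2 ^ (80 * i) := by
  classical
  set V : Finset ℕ := (range n).filter (fun i => 1 ≤ g i ∧ g i ≤ n) with hV
  have hsum : ∑ t ∈ (V ×ˢ (range n ×ˢ range n)).filter
      (fun t : ℕ × ℕ × ℕ => t.2.1 + 1 = g t.1), β t.2.1 t.2.2 * 2 ^ (80 * t.1 + 5 * t.2.2) =
      ∑ i ∈ range n, (if 1 ≤ g i ∧ g i ≤ n then ∑ c ∈ range n, β (g i - 1) c * 2 ^ (5 * c) else 0) *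
        2 ^ (80 * i) := by
    rw [Finset.sum_filter, Finset.sum_product, hV, Finset.sum_filter]
    apply Finset.sum_congr rfl
    intro i _
    split_ifs with hi
    · rw [Finset.sum_product, Finset.sum_mul]
      rw [Finset.sum_eq_single (g i - 1)]
      · apply Finset.sum_congr rfl
        intro c _
        simp only
        rw [if_pos (by omega), pow_add]
        ring
      · intro r _ hr
        apply Finset.sum_eq_zero
        intro c _
        simp only
        rw [if_neg (by omega)]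
      · intro h
        exfalso
        apply h
        rw [Finset.mem_range]
        omega
    · rw [zero_mul]
  rw [← hsum]
  apply a07_core hn (V ×ˢ (range n ×ˢ range n)) (fun t => β t.2.1 t.2.2)
    (fun t => 2320 * t.1 + 80 * ((n - g t.1) + t.2.1) + 5 * t.2.2 + 4)
    (fun t => 80 * t.1 + 5 * t.2.2) (fun t => t.1)
  · intro t _
    exact hβ _ _
  · rintro ⟨i, r, c⟩ h1 ⟨i', r', c'⟩ h2 h
    simp only [hV, Finset.mem_product, Finset.mem_range, Finset.mem_filter] at h1 h2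
    simp only at h
    have e1 : c = c' := by omega
    have g2 : 29 * i + (n - g i + r) = 29 * i' + (n - g i' + r') := by omega
    have e3 : i = i' := by omega
    subst e3
    have e4 : r = r' := by omega
    rw [e1, e4]
  · rintro ⟨i, r, c⟩ h1
    simp only [hV, Finset.mem_product, Finset.mem_range, Finset.mem_filter] at h1
    simp only
    constructor
    · intro h
      exact ⟨i, h1.1.1, c, h1.2.2, by omega⟩
    · rintro ⟨j, hj, d, hd, h⟩
      have hw : d = c := by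
        have g1 : 80 * (29 * j + (n - 1)) + 5 * d = 80 * (29 * i + (n - g i) + r) + 5 * c := by omega
        omega
      have g2 : 29 * j + (n - 1) = 29 * i + ((n - g i) + r) := by
        rw [hw] at h
        omega
      have g3 : j = i := by omega
      omega
  · rintro ⟨i, r, c⟩ h1 h2
    simp only [hV, Finset.mem_product, Finset.mem_range, Finset.mem_filter] at h1
    simp only at h2 ⊢
    omega
  · rw [Finset.sum_product]
    simp only [Finset.sum_product]
    rw [hV, Finset.sum_filter, Finset.sum_mul]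
    apply Finset.sum_congr rfl
    intro i _
    split_ifs with hi
    · rw [Finset.mul_sum]
      apply Finset.sum_congr rfl
      intro r _
      rw [Finset.sum_mul, Finset.mul_sum]
      apply Finset.sum_congr rfl
      intro c _
      have : 2320 * i + 80 * (n - g i + r) + 5 * c + 4 =
          (2320 * i + 80 * (n - g i) + 4) + (5 * c + 80 * r) := by ring
      rw [this, pow_add 2 (2320 * i + 80 * (n - g i) + 4), pow_add 2 (5 * c)]
      ring
    · rw [zero_mul]
  · rw [hsum]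
    have hf : ∀ i < n, (if 1 ≤ g i ∧ g i ≤ n then ∑ c ∈ range n, β (g i - 1) c * 2 ^ (5 * c) else 0) <
        2 ^ 80 := by
      intro i _
      split_ifs with hi
      · have h1 : ∑ c ∈ range n, β (g i - 1) c * 2 ^ (5 * c) ≤ ∑ _c ∈ range n, 2 ^ 70 := by
          apply Finset.sum_le_sum
          intro c hc
          rw [Finset.mem_range] at hc
          have h3 : 2 ^ (5 * c) ≤ 2 ^ 70 := Nat.pow_le_pow_right (by norm_num) (by omega)
          calc β (g i - 1) c * 2 ^ (5 * c) ≤ 1 * 2 ^ 70 := Nat.mul_le_mul (hβ _ c) h3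
            _ = 2 ^ 70 := one_mul _
        rw [Finset.sum_const, Finset.card_range, smul_eq_mul] at h1
        calc _ ≤ n * 2 ^ 70 := h1
          _ ≤ 15 * 2 ^ 70 := Nat.mul_le_mul_right _ hn
          _ < 2 ^ 80 := by norm_num
      · norm_num
    have h1 := S_lt (b := 80) (N := n)
      (f := fun i => if 1 ≤ g i ∧ g i ≤ n then ∑ c ∈ range n, β (g i - 1) c * 2 ^ (5 * c) else 0) hf
    rw [S] at h1
    exact lt_of_lt_of_le h1 (a07_pow (80 * n) 2240 (by omega))

end Pool.Agent.N3
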