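import Pool.Agent.Lib.MP_f3f345_co.Def
import Pool.Agent.Lib.MP_f3f345_co.Tool

/-! A08 -/
namespace Pool.Agent.N3

open Finset

theorem a08_sum (B : ℕ) (f : ℕ → ℕ) (k : ℕ) :
    ∑ r ∈ range (k + 1), f (k + 1 - 1 - r) * 2 ^ (B * r) =
      (∑ r ∈ range k, f (k - 1 - r) * 2 ^ (B * r)) * 2 ^ B + f k := by
  rw [sum_range_succ', sum_mul]
  have h1 : ∀ r, f (k + 1 - 1 - (r + 1)) * 2 ^ (B * (r + 1)) = f (k - 1 - r) * 2 ^ (B * r) * 2 ^ B := by
    intro r
    rw [show k + 1 - 1 - (r + 1) = k - 1 - r by omega, Nat.mul_succ, pow_add, mul_assoc]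
  rw [sum_congr rfl (fun r _ => h1 r), Nat.mul_zero, pow_zero, mul_one, Nat.sub_zero, Nat.add_sub_cancel]

theorem enc_eq {n k : ℕ} (I : ℕ → ℕ → ℕ) : enc n I k = ∑ r ∈ range k, msk n I (k - 1 - r) * 2 ^ (80 * r) := by
  induction k with
  | zero => rw [enc, range_zero, sum_empty]
  | succ k ih => rw [enc, ih, a08_sum 80 (msk n I) k]

theorem a08_wM {n k : ℕ} (I : ℕ → ℕ → ℕ) :
    wM n I k = ∑ r ∈ range k, sprM n I (k - 1 - r) * 2 ^ (2320 * r) := by
  induction k with
  | zero => rw [wM, range_zero, sum_empty]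
  | succ k ih => rw [wM, ih, a08_sum 2320 (sprM n I) k]

theorem wM_eq {n k : ℕ} {I : ℕ → ℕ → ℕ} (hk : k ≤ n) :
    wM n I k = wideS n (fun r c => if r < k then I (k - 1 - r) c else 0) := by
  rw [a08_wM, wideS, ← sum_subset (range_subset_range.2 hk)]
  · apply sum_congr rfl
    intro r hr
    rw [sprM, sum_mul]
    apply sum_congr rfl
    intro c _
    rw [if_pos (mem_range.1 hr), pow_add]
    ring
  · intro r _ hr
    apply sum_eq_zero
    intro c _
    rw [if_neg (fun h => hr (mem_range.2 h)), zero_mul]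

theorem a08_testBit_one {a : ℕ} (h : a ≤ 1) : a.testBit 0 = decide (a = 1) := by
  interval_cases a <;> rfl

/-- bits of a double sum of distinct powers of two with 0-1 coefficients -/
theorem a08_wide_bit {n : ℕ} (hn : n ≤ 15) (a : ℕ → ℕ → ℕ) (ha : ∀ r c, a r c ≤ 1) (p : ℕ) :
    (wideS n a).testBit p = true ↔ ∃ i < n, ∃ r < n, a i r = 1 ∧ 2320 * i + 80 * r = p := by
  have h1 : wideS n a = ∑ x ∈ ((range n) ×ˢ (range n)).filter (fun x => a x.1 x.2 = 1),
      2 ^ (2320 * x.1 + 80 * x.2) := by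
    rw [wideS, sum_filter, sum_product]
    apply sum_congr rfl
    intro i _
    apply sum_congr rfl
    intro r _
    have := ha i r
    split_ifs with h
    · simp only at h
      rw [h, one_mul]
    · simp only at h
      rw [show a i r = 0 by omega, zero_mul]
  rw [h1, testBit_sum_pow]
  · constructor
    · rintro ⟨x, hx, hp⟩
      rw [mem_filter, mem_product, mem_range, mem_range] at hx
      exact ⟨x.1, hx.1.1, x.2, hx.1.2, hx.2, hp⟩
    · rintro ⟨i, hi, r, hr, h, hp⟩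
      exact ⟨(i, r), by rw [mem_filter, mem_product, mem_range, mem_range]; exact ⟨⟨hi, hr⟩, h⟩, hp⟩
  · intro x hx y hy h
    rw [mem_filter, mem_product, mem_range, mem_range] at hx hy
    have h1 : x.1 = y.1 := by omega
    have h2 : x.2 = y.2 := by omega
    exact Prod.ext h1 h2

theorem a08_msk_lt {n : ℕ} {I : ℕ → ℕ → ℕ} (hI : Mx n I) (i : ℕ) : msk n I i < 2 ^ 80 := by
  have h : msk n I i = S 5 n (I i) := rfl
  rw [h]
  have h1 : S 5 n (I i) < 2 ^ (5 * n) := S_lt fun m _ => by have := hI.le1 i m; omega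
  exact h1.trans_le (Nat.pow_le_pow_right (by norm_num) (by have := hI.n15; omega))

theorem a08_enc_S {n k : ℕ} (I : ℕ → ℕ → ℕ) : enc n I k = S 80 k (fun r => msk n I (k - 1 - r)) := enc_eq I

theorem a08_enc_lt {n k : ℕ} {I : ℕ → ℕ → ℕ} (hI : Mx n I) (hk : k ≤ n) : enc n I k < 2 ^ 2315 := by
  rw [a08_enc_S]
  have h1 : S 80 k (fun r => msk n I (k - 1 - r)) < 2 ^ (80 * k) := S_lt fun m _ => a08_msk_lt hI _
  exact h1.trans_le (Nat.pow_le_pow_right (by norm_num) (by have := hI.n15; omega))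

theorem a08_enc_bit {n k : ℕ} {I : ℕ → ℕ → ℕ} (hI : Mx n I) {r i : ℕ} (hi : i < n) :
    (enc n I k).testBit (80 * r + 5 * i) = (decide (r < k) && decide (I (k - 1 - r) i = 1)) := by
  have hn := hI.n15
  rw [a08_enc_S, S_testBit' (fun m _ => a08_msk_lt hI _) r (5 * i) (by omega)]
  congr 1
  have h : msk n I (k - 1 - r) = S 5 n (I (k - 1 - r)) := rfl
  rw [h]
  have h2 := S_testBit' (b := 5) (N := n) (f := I (k - 1 - r))
    (fun m _ => by have := hI.le1 (k - 1 - r) m; omega) i 0 (by norm_num)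
  rw [Nat.add_zero] at h2
  rw [h2, decide_eq_true hi, Bool.true_and, a08_testBit_one (hI.le1 _ _)]

theorem wideT_eq {n k : ℕ} {I : ℕ → ℕ → ℕ} (hI : Mx n I) (hk : k ≤ n) :
    wideT (KK n) (enc n I k) = wideS n (fun c r => if r < k then I (k - 1 - r) c else 0) := by
  have hn := hI.n15
  have h0 : wideT (KK n) (enc n I k) =
      (enc n I k * ∑ i ∈ range n, 2 ^ (2315 * i)) &&& wideS n (fun _ _ => 1) := by
    have : wideS n (fun _ _ => 1) = ∑ i ∈ range n, ∑ r ∈ range n, 2 ^ (2320 * i + 80 * r) := by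
      rw [wideS]
      simp only [one_mul]
    rw [this]
    rfl
  rw [h0, mul_geo]
  apply Nat.eq_of_testBit_eq
  intro p
  rw [Bool.eq_iff_iff, Nat.testBit_and, Bool.and_eq_true, a08_wide_bit hn _ (fun _ _ => le_refl 1),
    a08_wide_bit hn _ (fun c r => by split_ifs; exacts [hI.le1 _ _, Nat.zero_le _])]
  have key : ∀ i < n, ∀ r < n, (S 2315 n (fun _ => enc n I k)).testBit (2320 * i + 80 * r) =
      (decide (r < k) && decide (I (k - 1 - r) i = 1)) := by
    intro i hi r hr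
    rw [show 2320 * i + 80 * r = 2315 * i + (80 * r + 5 * i) by ring,
      S_testBit' (fun _ _ => a08_enc_lt hI hk) i (80 * r + 5 * i) (by omega), decide_eq_true hi,
      Bool.true_and, a08_enc_bit hI hi]
  constructor
  · rintro ⟨h1, i, hi, r, hr, -, hp⟩
    refine ⟨i, hi, r, hr, ?_, hp⟩
    rw [← hp, key i hi r hr, Bool.and_eq_true, decide_eq_true_eq, decide_eq_true_eq] at h1
    rw [if_pos h1.1]
    exact h1.2
  · rintro ⟨i, hi, r, hr, h, hp⟩
    refine ⟨?_, i, hi, r, hr, rfl, hp⟩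
    rw [← hp, key i hi r hr, Bool.and_eq_true, decide_eq_true_eq, decide_eq_true_eq]
    split_ifs at h with h2
    exact ⟨h2, h⟩

end Pool.Agent.N3
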