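import Pool.Agent.Lib.MP_f3f345_co.Def
import Pool.Agent.Lib.MP_f3f345_co.Tool

/-! # Row A09 -/
namespace Pool.Agent.N3

open Finset

theorem a09_sum (n : ℕ) (b : ℕ → ℕ → ℕ) (hb : ∀ r c, b r c ≤ 1) (e : ℕ → ℕ → ℕ) :
    ∑ r ∈ range n, ∑ c ∈ range n, b r c * 2 ^ e r c =
      ∑ x ∈ (range n ×ˢ range n).filter (fun x => b x.1 x.2 = 1), 2 ^ e x.1 x.2 := by
  rw [← sum_product', sum_filter]
  apply sum_congr rfl
  intro x _
  have := hb x.1 x.2
  split_ifs with h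
  · rw [h, one_mul]
  · rw [show b x.1 x.2 = 0 by omega, zero_mul]

theorem a09_bit (n : ℕ) (b : ℕ → ℕ → ℕ) (hb : ∀ r c, b r c ≤ 1) (e : ℕ → ℕ → ℕ)
    (he : ∀ r < n, ∀ c < n, ∀ r' < n, ∀ c' < n, e r c = e r' c' → r = r' ∧ c = c') (p : ℕ) :
    (∑ r ∈ range n, ∑ c ∈ range n, b r c * 2 ^ e r c).testBit p = true ↔
      ∃ r < n, ∃ c < n, b r c = 1 ∧ e r c = p := by
  rw [a09_sum n b hb e, testBit_sum_pow]
  · constructor
    · rintro ⟨⟨r, c⟩, hx, hp⟩
      simp only [mem_filter, mem_product, mem_range] at hx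
      exact ⟨r, hx.1.1, c, hx.1.2, hx.2, hp⟩
    · rintro ⟨r, hr, c, hc, h1, hp⟩
      exact ⟨(r, c), by simp only [mem_filter, mem_product, mem_range]; exact ⟨⟨hr, hc⟩, h1⟩, hp⟩
  · rintro ⟨r, c⟩ hx ⟨r', c'⟩ hy h
    simp only [mem_filter, mem_product, mem_range] at hx hy
    obtain ⟨h1, h2⟩ := he r hx.1.1 c hx.1.2 r' hy.1.1 c' hy.1.2 h
    rw [h1, h2]

theorem a09_bit1 (n : ℕ) (e : ℕ → ℕ → ℕ)
    (he : ∀ r < n, ∀ c < n, ∀ r' < n, ∀ c' < n, e r c = e r' c' → r = r' ∧ c = c') (p : ℕ) :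
    (∑ r ∈ range n, ∑ c ∈ range n, 2 ^ e r c).testBit p = true ↔
      ∃ r < n, ∃ c < n, e r c = p := by
  have := a09_bit n (fun _ _ => 1) (fun _ _ => le_rfl) e he p
  simpa using this

theorem inc_eq {n : ℕ} {b : ℕ → ℕ → ℕ} (hn : n ≤ 15) (hb : ∀ r c, b r c ≤ 1) :
    inc (KK n) (∑ r ∈ range n, (∑ c ∈ range n, b r c * 2 ^ (5 * c)) * 2 ^ (80 * r)) =
      ∑ i ∈ range n, ∑ c ∈ range n, b i c * 2 ^ (1280 * i + 21 * c) := by
  have hP0 : (∑ r ∈ range n, (∑ c ∈ range n, b r c * 2 ^ (5 * c)) * 2 ^ (80 * r)) =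
      ∑ r ∈ range n, ∑ c ∈ range n, b r c * 2 ^ (80 * r + 5 * c) := by
    apply sum_congr rfl
    intro r _
    rw [sum_mul]
    apply sum_congr rfl
    intro c _
    rw [pow_add]
    ring
  have hPlt : (∑ r ∈ range n, (∑ c ∈ range n, b r c * 2 ^ (5 * c)) * 2 ^ (80 * r)) < 2 ^ 1200 := by
    have h1 : S 80 n (fun r => ∑ c ∈ range n, b r c * 2 ^ (5 * c)) < 2 ^ (80 * n) := by
      apply S_lt
      intro r _
      have h2 : S 5 n (fun c => b r c) < 2 ^ (5 * n) := by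
        apply S_lt
        intro c _
        have := hb r c
        omega
      have h3 : (2 : ℕ) ^ (5 * n) ≤ 2 ^ 80 := Nat.pow_le_pow_right (by norm_num) (by omega)
      exact lt_of_lt_of_le h2 h3
    have h4 : (2 : ℕ) ^ (80 * n) ≤ 2 ^ 1200 := Nat.pow_le_pow_right (by norm_num) (by omega)
    exact lt_of_lt_of_le h1 h4
  rw [hP0] at hPlt
  rw [hP0]
  set P := ∑ r ∈ range n, ∑ c ∈ range n, b r c * 2 ^ (80 * r + 5 * c) with hP
  have hPbit : ∀ p, P.testBit p = true ↔ ∃ r < n, ∃ c < n, b r c = 1 ∧ 80 * r + 5 * c = p := by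
    intro p
    exact a09_bit n b hb (fun r c => 80 * r + 5 * c) (by intro r hr c hc r' hr' c' hc' h; omega) p
  -- first mask
  have hA : Nat.land (Nat.mul P (KK n).s1200) (KK n).mra =
      ∑ r ∈ range n, ∑ c ∈ range n, b r c * 2 ^ (1280 * r + 5 * c) := by
    apply Nat.eq_of_testBit_eq
    intro p
    rw [Bool.eq_iff_iff]
    change ((P * ∑ i ∈ range n, 2 ^ (1200 * i)) &&&
      (∑ i ∈ range n, ∑ c ∈ range n, 2 ^ (1280 * i + 5 * c))).testBit p = true ↔ _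
    rw [Nat.testBit_and, Bool.and_eq_true, mul_geo,
      a09_bit1 n (fun i c => 1280 * i + 5 * c) (by intro r hr c hc r' hr' c' hc' h; omega),
      a09_bit n b hb (fun r c => 1280 * r + 5 * c) (by intro r hr c hc r' hr' c' hc' h; omega)]
    have key : ∀ i < n, ∀ c < n, ((S 1200 n fun _ => P).testBit (1280 * i + 5 * c) = true ↔ b i c = 1) := by
      intro i hi c hc
      rw [show 1280 * i + 5 * c = 1200 * i + (80 * i + 5 * c) by ring,
        S_testBit' (fun m _ => hPlt) i (80 * i + 5 * c) (by omega), Bool.and_eq_true, hPbit]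
      constructor
      · rintro ⟨_, r', hr', c', hc', h1, h2⟩
        have h3 : r' = i ∧ c' = c := by omega
        rw [h3.1, h3.2] at h1
        exact h1
      · intro h
        exact ⟨by simpa using hi, i, hi, c, hc, h, rfl⟩
    constructor
    · rintro ⟨h1, i, hi, c, hc, rfl⟩
      exact ⟨i, hi, c, hc, (key i hi c hc).1 h1, rfl⟩
    · rintro ⟨i, hi, c, hc, h1, rfl⟩
      exact ⟨(key i hi c hc).2 h1, i, hi, c, hc, rfl⟩
  unfold inc
  rw [hA]
  have hB : Nat.mul (∑ r ∈ range n, ∑ c ∈ range n, b r c * 2 ^ (1280 * r + 5 * c)) (KK n).s16 =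
      ∑ x ∈ ((range n ×ˢ range n).filter (fun x : ℕ × ℕ => b x.1 x.2 = 1)) ×ˢ range n,
        2 ^ (1280 * x.1.1 + 5 * x.1.2 + 16 * x.2) := by
    change (∑ r ∈ range n, ∑ c ∈ range n, b r c * 2 ^ (1280 * r + 5 * c)) * (∑ m ∈ range n, 2 ^ (16 * m)) = _
    rw [a09_sum n b hb (fun r c => 1280 * r + 5 * c), sum_mul_sum, sum_product]
    apply sum_congr rfl
    intro x _
    apply sum_congr rfl
    intro m _
    rw [← pow_add]
  rw [hB]
  apply Nat.eq_of_testBit_eq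
  intro p
  rw [Bool.eq_iff_iff]
  change ((∑ x ∈ ((range n ×ˢ range n).filter (fun x : ℕ × ℕ => b x.1 x.2 = 1)) ×ˢ range n,
        2 ^ (1280 * x.1.1 + 5 * x.1.2 + 16 * x.2)) &&&
      (∑ i ∈ range n, ∑ c ∈ range n, 2 ^ (1280 * i + 21 * c))).testBit p = true ↔ _
  rw [Nat.testBit_and, Bool.and_eq_true, testBit_sum_pow,
      a09_bit1 n (fun i c => 1280 * i + 21 * c) (by intro r hr c hc r' hr' c' hc' h; omega),
      a09_bit n b hb (fun r c => 1280 * r + 21 * c) (by intro r hr c hc r' hr' c' hc' h; omega)]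
  · constructor
    · rintro ⟨⟨⟨⟨i, c⟩, m⟩, hx, hp⟩, i', hi', c', hc', hp'⟩
      simp only [mem_filter, mem_product, mem_range] at hx hp hp'
      obtain ⟨⟨⟨hi, hc⟩, h1⟩, hm⟩ := hx
      have h2 : i = i' ∧ c = c' := by omega
      rw [h2.1, h2.2] at h1
      exact ⟨i', hi', c', hc', h1, hp'⟩
    · rintro ⟨i, hi, c, hc, h1, hp⟩
      refine ⟨⟨((i, c), c), ?_, ?_⟩, i, hi, c, hc, hp⟩
      · simp only [mem_filter, mem_product, mem_range]
        exact ⟨⟨⟨hi, hc⟩, h1⟩, hc⟩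
      · simp only at hp ⊢
        omega
  · rintro ⟨⟨i, c⟩, m⟩ hx ⟨⟨i', c'⟩, m'⟩ hy h
    simp only [mem_filter, mem_product, mem_range] at hx hy h
    have h3 : i = i' ∧ c = c' ∧ m = m' := by omega
    rw [h3.1, h3.2.1, h3.2.2]

end Pool.Agent.N3
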