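import Pool.Agent.Lib.MP_f3f345_co.Def
import Pool.Agent.Lib.MP_f3f345_co.Tool

/-! # Row A10 -/
namespace Pool.Agent.N3

open Finset

/-- signed coordinates read from 7-bit digits -/
def crd (p c a : ℕ) : ℤ := ((p / 2 ^ (21 * c + 7 * a) % 128 : ℕ) : ℤ) - 4

theorem a10_digits (N : ℕ) : ∀ p : ℕ, p < 2 ^ (7 * N) → p = S 7 N (fun m => p / 2 ^ (7 * m) % 2 ^ 7) := by
  induction N with
  | zero =>
    intro p hp
    have : p = 0 := by simpa using hp
    subst this
    simp [S]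
  | succ N ih =>
    intro p hp
    rw [S_succ']
    have h1 : p / 2 ^ 7 < 2 ^ (7 * N) := by
      rw [Nat.div_lt_iff_lt_mul (by norm_num), ← pow_add]
      have : 7 * N + 7 = 7 * (N + 1) := by ring
      rw [this]
      exact hp
    have h2 := ih (p / 2 ^ 7) h1
    have h3 : S 7 N (fun m => p / 2 ^ (7 * (m + 1)) % 2 ^ 7) = p / 2 ^ 7 := by
      refine (S_congr ?_).trans h2.symm
      intro m _
      rw [Nat.div_div_eq_div_mul, ← pow_add]
      have : 7 + 7 * m = 7 * (m + 1) := by ring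
      rw [this]
    rw [h3]
    simp only [mul_zero, pow_zero, Nat.div_one]
    exact (Nat.mod_add_div p (2 ^ 7)).symm

theorem a10_S_zero {b N : ℕ} {f : ℕ → ℕ} (h : S b N f = 0) : ∀ m < N, f m = 0 := by
  intro m hm
  unfold S at h
  have h1 := (Finset.sum_eq_zero_iff.1 h) m (mem_range.2 hm)
  rcases Nat.mul_eq_zero.1 h1 with h2 | h2
  · exact h2
  · exact absurd h2 (pow_ne_zero _ (by norm_num))

theorem a10_and {x : ℕ} (hx : x < 128) (h : x &&& 112 = 0) : x < 16 := by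
  revert h
  revert x
  decide

theorem a10_small {n p : ℕ} (hp : p < 2 ^ (21 * n)) (sp : small (KK n) p = true) :
    ∀ m < 3 * n, p / 2 ^ (7 * m) % 2 ^ 7 ≤ 8 := by
  have h0 : (p ||| (p + 7 * ∑ m ∈ range (3 * n), 2 ^ (7 * m))) &&&
      (112 * ∑ m ∈ range (3 * n), 2 ^ (7 * m)) = 0 := Nat.eq_of_beq_eq_true sp
  rw [mul_geo, mul_geo, Nat.and_or_distrib_right] at h0
  have h1 := (Nat.or_eq_zero_iff.1 h0).1
  have h2 := (Nat.or_eq_zero_iff.1 h0).2
  have hp' : p < 2 ^ (7 * (3 * n)) := by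
    have : 7 * (3 * n) = 21 * n := by ring
    rw [this]
    exact hp
  have hd := a10_digits (3 * n) p hp'
  have hd128 : ∀ m, p / 2 ^ (7 * m) % 2 ^ 7 < 2 ^ 7 := fun m => Nat.mod_lt _ (by norm_num)
  have h16 : ∀ m < 3 * n, p / 2 ^ (7 * m) % 2 ^ 7 < 16 := by
    rw [hd, S_land (by norm_num) (fun m _ => hd128 m) (fun m _ => by norm_num)] at h1
    intro m hm
    exact a10_and (hd128 m) (a10_S_zero h1 m hm)
  intro m hm
  rw [hd, S_add, S_land (by norm_num) (fun m hm => by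
    have := h16 m hm
    have e : (2 : ℕ) ^ 7 = 128 := by norm_num
    rw [e] at this ⊢
    omega) (fun m _ => by norm_num)] at h2
  have h3 := a10_S_zero h2 m hm
  have h4 := h16 m hm
  have h5 := a10_and (x := p / 2 ^ (7 * m) % 2 ^ 7 + 7) (by omega) h3
  omega

theorem a10_spQ {n q : ℕ} (hn : n ≤ 15) (hq : q < 2 ^ (21 * n)) :
    spQ (KK n) q = S 1280 n (fun i => q / 2 ^ (21 * i) % 2 ^ 21) := by
  change (q * ∑ i ∈ range n, 2 ^ (1259 * i)) &&& ((2 ^ 21 - 1) * ∑ i ∈ range n, 2 ^ (1280 * i)) = _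
  rw [mul_geo, mul_geo]
  have hq' : q < 2 ^ 1259 := lt_of_lt_of_le hq (Nat.pow_le_pow_right (by norm_num) (by omega))
  apply Nat.eq_of_testBit_eq
  intro j
  have hlt1 : ∀ m < n, (2 ^ 21 - 1 : ℕ) < 2 ^ 1280 := fun m _ =>
    lt_of_lt_of_le (Nat.sub_lt (by norm_num) one_pos) (Nat.pow_le_pow_right (by norm_num) (by norm_num))
  have hlt2 : ∀ m < n, q / 2 ^ (21 * m) % 2 ^ 21 < 2 ^ 1280 := fun m _ =>
    lt_of_lt_of_le (Nat.mod_lt _ (by norm_num)) (Nat.pow_le_pow_right (by norm_num) (by norm_num))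
  rw [Nat.testBit_and, S_testBit (b := 1280) (by norm_num) hlt1,
    S_testBit (b := 1280) (by norm_num) hlt2, Nat.testBit_two_pow_sub_one,
    Nat.testBit_mod_two_pow, Nat.testBit_div_two_pow]
  by_cases h1 : j / 1280 < n
  · by_cases h2 : j % 1280 < 21
    · have hj : j = 1259 * (j / 1280) + (21 * (j / 1280) + j % 1280) := by omega
      have h3 := S_testBit' (b := 1259) (N := n) (f := fun _ => q) (fun _ _ => hq') (j / 1280)
        (21 * (j / 1280) + j % 1280) (by omega)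
      rw [← hj] at h3
      rw [h3]
      simp only [h1, h2, decide_true, Bool.true_and, Bool.and_true]
      congr 1
      omega
    · simp [h1, h2]
  · simp [h1]

/-- shift of a sequence -/
def a10_sh (u : ℕ → ℤ) : ℕ → ℤ
  | 0 => 0
  | m + 1 => u m

theorem a10_sh_sum (u : ℕ → ℤ) (N : ℕ) (x : ℤ) :
    ∑ m ∈ range (N + 1), a10_sh u m * x ^ m = x * ∑ m ∈ range N, u m * x ^ m := by
  rw [sum_range_succ', mul_sum]
  simp only [a10_sh, zero_mul, add_zero]
  apply sum_congr rfl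
  intro m _
  rw [pow_succ]
  ring

theorem a10_conv (u : ℕ → ℤ) (N : ℕ) (x a b c : ℤ) (h0 : ∀ m, N ≤ m → u m = 0) :
    ∑ m ∈ range (N + 2), (u m * a + a10_sh u m * b + a10_sh (a10_sh u) m * c) * x ^ m =
      (∑ m ∈ range N, u m * x ^ m) * (a + b * x + c * x ^ 2) := by
  have h1 : ∑ m ∈ range (N + 2), u m * x ^ m = ∑ m ∈ range N, u m * x ^ m := by
    rw [sum_range_succ, sum_range_succ, h0 N le_rfl, h0 (N + 1) (by omega)]
    ring
  have h1' : ∑ m ∈ range (N + 1), u m * x ^ m = ∑ m ∈ range N, u m * x ^ m := by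
    rw [sum_range_succ, h0 N le_rfl]
    ring
  have h2 : ∑ m ∈ range (N + 2), a10_sh u m * x ^ m = x * ∑ m ∈ range N, u m * x ^ m := by
    rw [a10_sh_sum, h1']
  have h3 : ∑ m ∈ range (N + 2), a10_sh (a10_sh u) m * x ^ m =
      x * (x * ∑ m ∈ range N, u m * x ^ m) := by
    rw [a10_sh_sum, a10_sh_sum]
  calc _ = a * ∑ m ∈ range (N + 2), u m * x ^ m + b * ∑ m ∈ range (N + 2), a10_sh u m * x ^ m +
        c * ∑ m ∈ range (N + 2), a10_sh (a10_sh u) m * x ^ m := by
        rw [mul_sum, mul_sum, mul_sum, ← sum_add_distrib, ← sum_add_distrib]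
        apply sum_congr rfl
        intro m _
        ring
    _ = _ := by
        rw [h1, h2, h3]
        ring

theorem a10_mul_bd {a b : ℤ} (ha : |a| ≤ 4) (hb : |b| ≤ 4) : |a * b| ≤ 16 := by
  rw [abs_mul]
  calc |a| * |b| ≤ 4 * 4 := mul_le_mul ha hb (abs_nonneg _) (by norm_num)
    _ = 16 := by norm_num

theorem prod_eq {n p q : ℕ} (hn : n ≤ 15) (hp : p < 2 ^ (21 * n)) (hq : q < 2 ^ (21 * n))
    (sp : small (KK n) p = true) (sq : small (KK n) q = true) :
    ∃ z : ℕ → ℕ → ℕ, (∀ i m, z i m < 128) ∧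
      prodPQ (KK n) p (spQ (KK n) q) =
        ∑ i ∈ range n, (∑ m ∈ range (3 * n + 2), z i m * 2 ^ (7 * m)) * 2 ^ (1280 * i) ∧
      ∀ i < n, ∀ c < n, (z i (3 * c + 2) : ℤ) = 64 +
        (crd p c 0 * crd q i 2 + crd p c 1 * crd q i 1 + crd p c 2 * crd q i 0) := by
  classical
  have hdp := a10_small hp sp
  have hdq := a10_small hq sq
  set N : ℕ := 3 * n with hN
  -- signed digits
  set u : ℕ → ℤ := fun m => if m < N then ((p / 2 ^ (7 * m) % 2 ^ 7 : ℕ) : ℤ) - 4 else 0 with hu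
  set w : ℕ → ℕ → ℤ := fun i b => if i < n then ((q / 2 ^ (7 * (3 * i + b)) % 2 ^ 7 : ℕ) : ℤ) - 4
    else 0 with hw
  have hu4 : ∀ m, |u m| ≤ 4 := by
    intro m
    simp only [hu]
    split_ifs with h
    · have h1 := hdp m h
      rw [abs_le]
      constructor <;> omega
    · simp
  have hw4 : ∀ i b, b < 3 → |w i b| ≤ 4 := by
    intro i b hb
    simp only [hw]
    split_ifs with h
    · have h1 := hdq (3 * i + b) (by omega)
      rw [abs_le]
      constructor <;> omega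
    · simp
  have hsh4 : ∀ v : ℕ → ℤ, (∀ m, |v m| ≤ 4) → ∀ m, |a10_sh v m| ≤ 4 := by
    intro v hv m
    rcases m with _ | m
    · simp [a10_sh]
    · exact hv m
  set t : ℕ → ℕ → ℤ := fun i m => u m * w i 0 + a10_sh u m * w i 1 + a10_sh (a10_sh u) m * w i 2
    with ht
  have ht48 : ∀ i m, |t i m| ≤ 48 := by
    intro i m
    have h1 := a10_mul_bd (hu4 m) (hw4 i 0 (by norm_num))
    have h2 := a10_mul_bd (hsh4 u hu4 m) (hw4 i 1 (by norm_num))
    have h3 := a10_mul_bd (hsh4 _ (hsh4 u hu4) m) (hw4 i 2 (by norm_num))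
    rw [abs_le] at h1 h2 h3 ⊢
    simp only [ht]
    constructor
    · linarith [h1.1, h2.1, h3.1]
    · linarith [h1.2, h2.2, h3.2]
  have hz : ∀ i m, (((64 + t i m).toNat : ℕ) : ℤ) = 64 + t i m := by
    intro i m
    apply Int.toNat_of_nonneg
    have := (abs_le.1 (ht48 i m)).1
    linarith
  refine ⟨fun i m => (64 + t i m).toNat, ?_, ?_, ?_⟩
  · intro i m
    have h1 := hz i m
    have h2 := (abs_le.1 (ht48 i m)).2
    have h3 : (((64 + t i m).toNat : ℕ) : ℤ) < 128 := by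
      rw [h1]
      linarith
    exact_mod_cast h3
  · -- the identity
    have hp' : p < 2 ^ (7 * N) := by
      have : 7 * N = 21 * n := by rw [hN]; ring
      rw [this]
      exact hp
    have hpd : (p : ℤ) = ((4 * ∑ m ∈ range N, 2 ^ (7 * m) : ℕ) : ℤ) +
        ∑ m ∈ range N, u m * ((2 : ℤ) ^ 7) ^ m := by
      conv_lhs => rw [a10_digits N p hp']
      unfold S
      push_cast
      rw [mul_sum, ← sum_add_distrib]
      apply sum_congr rfl
      intro m hm
      have hm' : m < N := mem_range.1 hm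
      simp only [hu, if_pos hm']
      push_cast
      rw [pow_mul]
      ring
    have hq21 : ∀ i < n, ((q / 2 ^ (21 * i) % 2 ^ 21 : ℕ) : ℤ) =
        (4 + 4 * 2 ^ 7 + 4 * 2 ^ 14) + (w i 0 + w i 1 * (2 : ℤ) ^ 7 + w i 2 * ((2 : ℤ) ^ 7) ^ 2) := by
      intro i hi
      have e0 : q / 2 ^ (7 * (3 * i + 0)) = q / 2 ^ (21 * i) := by
        congr 2
        ring
      have e1 : q / 2 ^ (7 * (3 * i + 1)) = q / 2 ^ (21 * i) / 2 ^ 7 := by
        rw [Nat.div_div_eq_div_mul, ← pow_add]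
        congr 2
        ring
      have e2 : q / 2 ^ (7 * (3 * i + 2)) = q / 2 ^ (21 * i) / 2 ^ 14 := by
        rw [Nat.div_div_eq_div_mul, ← pow_add]
        congr 2
        ring
      simp only [hw, if_pos hi]
      rw [e0, e1, e2]
      generalize q / 2 ^ (21 * i) = y
      have h1 : y % 2 ^ 21 = y % 2 ^ 7 + (y / 2 ^ 7 % 2 ^ 7) * 2 ^ 7 + (y / 2 ^ 14 % 2 ^ 7) * 2 ^ 14 := by
        norm_num
        omega
      rw [h1]
      push_cast
      ring
    have hQ : ((spQ (KK n) q : ℕ) : ℤ) = ((∑ i ∈ range n, ∑ a ∈ range 3, 4 * 2 ^ (1280 * i + 7 * a) : ℕ) : ℤ) +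
        ∑ i ∈ range n, (w i 0 + w i 1 * (2 : ℤ) ^ 7 + w i 2 * ((2 : ℤ) ^ 7) ^ 2) * 2 ^ (1280 * i) := by
      rw [a10_spQ hn hq]
      unfold S
      push_cast
      rw [← sum_add_distrib]
      apply sum_congr rfl
      intro i hi
      have h1 := hq21 i (mem_range.1 hi)
      push_cast at h1
      rw [h1, sum_range_succ, sum_range_succ, sum_range_succ, sum_range_zero]
      ring
    have hZ : ((∑ i ∈ range n, (∑ m ∈ range (3 * n + 2), (64 + t i m).toNat * 2 ^ (7 * m)) * 2 ^ (1280 * i) : ℕ) : ℤ) =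
        ((64 * ∑ i ∈ range n, ∑ m ∈ range (3 * n + 2), 2 ^ (1280 * i + 7 * m) : ℕ) : ℤ) +
        (∑ m ∈ range N, u m * ((2 : ℤ) ^ 7) ^ m) *
        ∑ i ∈ range n, (w i 0 + w i 1 * (2 : ℤ) ^ 7 + w i 2 * ((2 : ℤ) ^ 7) ^ 2) * 2 ^ (1280 * i) := by
      simp only [Nat.cast_mul, Nat.cast_sum, Nat.cast_pow, Nat.cast_ofNat]
      rw [mul_sum, mul_sum, ← sum_add_distrib]
      apply sum_congr rfl
      intro i _
      have h1 := a10_conv u N ((2 : ℤ) ^ 7) (w i 0) (w i 1) (w i 2) (fun m hm => by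
        simp only [hu]
        rw [if_neg (by omega)])
      have h2 : ∑ m ∈ range (3 * n + 2), (((64 + t i m).toNat : ℕ) : ℤ) * (2 : ℤ) ^ (7 * m) =
          64 * ∑ m ∈ range (3 * n + 2), (2 : ℤ) ^ (7 * m) +
          ∑ m ∈ range (N + 2), (u m * w i 0 + a10_sh u m * w i 1 + a10_sh (a10_sh u) m * w i 2) *
            ((2 : ℤ) ^ 7) ^ m := by
        rw [mul_sum, ← sum_add_distrib]
        apply sum_congr rfl
        intro m _
        rw [hz, pow_mul]
        simp only [ht]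
        ring
      rw [h2, h1]
      simp only [pow_add]
      rw [← mul_sum]
      ring
    have hc : (KK n).c1 = (4 * ∑ m ∈ range N, 2 ^ (7 * m)) *
        (∑ i ∈ range n, ∑ a ∈ range 3, 4 * 2 ^ (1280 * i + 7 * a)) +
        64 * ∑ i ∈ range n, ∑ m ∈ range (3 * n + 2), 2 ^ (1280 * i + 7 * m) := rfl
    have hoh : (KK n).oh = ∑ i ∈ range n, ∑ a ∈ range 3, 4 * 2 ^ (1280 * i + 7 * a) := rfl
    have hoo : (KK n).oo = 4 * ∑ m ∈ range N, 2 ^ (7 * m) := rfl
    change p * spQ (KK n) q + (KK n).c1 - (p * (KK n).oh + (KK n).oo * spQ (KK n) q) = _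
    rw [hc, hoh, hoo]
    generalize (∑ i ∈ range n, (∑ m ∈ range (3 * n + 2), (64 + t i m).toNat * 2 ^ (7 * m)) *
      2 ^ (1280 * i)) = Z at hZ ⊢
    generalize spQ (KK n) q = Q at hQ ⊢
    generalize (4 * ∑ m ∈ range N, 2 ^ (7 * m)) = oo at hpd ⊢
    generalize (∑ i ∈ range n, ∑ a ∈ range 3, 4 * 2 ^ (1280 * i + 7 * a)) = oh at hQ ⊢
    generalize (64 * ∑ i ∈ range n, ∑ m ∈ range (3 * n + 2), 2 ^ (1280 * i + 7 * m)) = geo at hZ ⊢
    have hfin : ((p * Q + (oo * oh + geo) : ℕ) : ℤ) = ((Z + (p * oh + oo * Q) : ℕ) : ℤ) := by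
      push_cast
      rw [hZ, hQ, hpd]
      ring
    have hfin' : p * Q + (oo * oh + geo) = Z + (p * oh + oo * Q) := by exact_mod_cast hfin
    rw [hfin', Nat.add_sub_cancel]
  · intro i hi c hc
    rw [hz]
    congr 1
    have e2 : u (3 * c + 2) = crd p c 2 := by
      simp only [hu, crd]
      rw [if_pos (by omega)]
      have : 7 * (3 * c + 2) = 21 * c + 7 * 2 := by ring
      rw [this]
      norm_num
    have e1 : u (3 * c + 1) = crd p c 1 := by
      simp only [hu, crd]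
      rw [if_pos (by omega)]
      have : 7 * (3 * c + 1) = 21 * c + 7 * 1 := by ring
      rw [this]
      norm_num
    have e0 : u (3 * c) = crd p c 0 := by
      simp only [hu, crd]
      rw [if_pos (by omega)]
      have : 7 * (3 * c) = 21 * c + 7 * 0 := by ring
      rw [this]
      norm_num
    have ew : ∀ b < 3, w i b = crd q i b := by
      intro b _
      simp only [hw, crd, if_pos hi]
      have : 7 * (3 * i + b) = 21 * i + 7 * b := by ring
      rw [this]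
      norm_num
    change u (3 * c + 2) * w i 0 + u (3 * c + 1) * w i 1 + u (3 * c) * w i 2 = _
    rw [e2, e1, e0, ew 0 (by norm_num), ew 1 (by norm_num), ew 2 (by norm_num)]
    ring

end Pool.Agent.N3
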