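import Pool.Agent.Lib.MP_f3f345_co.Def
import Pool.Agent.Lib.MP_f3f345_co.Tool

/-! # Row A11 -/
namespace Pool.Agent.N3

open Finset

/-- double digit sums -/
theorem a11_dbl (n : ℕ) (f : ℕ → ℕ → ℕ) :
    ∑ i ∈ range n, ∑ c ∈ range n, f i c * 2 ^ (1280 * i + 21 * c) = S 1280 n (fun i => S 21 n (f i)) := by
  unfold S
  apply sum_congr rfl
  intro x _
  rw [sum_mul]
  apply sum_congr rfl
  intro y _
  rw [add_comm (1280 * x), pow_add, mul_assoc]

theorem a11_const (n a : ℕ) :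
    a * ∑ i ∈ range n, ∑ c ∈ range n, 2 ^ (1280 * i + 21 * c) = S 1280 n (fun _ => S 21 n (fun _ => a)) := by
  rw [← a11_dbl n (fun _ _ => a), mul_sum]
  exact sum_congr rfl fun x _ => mul_sum _ _ _

theorem a11_lt {n : ℕ} (hn : n ≤ 15) {f : ℕ → ℕ} (hf : ∀ m < n, f m < 2 ^ 21) : S 21 n f < 2 ^ 1280 :=
  lt_of_lt_of_le (S_lt hf) (Nat.pow_le_pow_right (by norm_num) (by omega))

theorem a11_land {n : ℕ} {z : ℕ → ℕ → ℕ} (hn : n ≤ 15) (hz : ∀ i m, z i m < 128) :
    (S 1280 n (fun i => S 7 (3 * n + 2) (z i))) >>> 14 &&& S 1280 n (fun _ => S 21 n (fun _ => 127)) =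
      S 1280 n (fun i => S 21 n (fun c => z i (3 * c + 2))) := by
  have hz7 : ∀ i, S 7 (3 * n + 2) (z i) < 2 ^ 1280 := fun i =>
    lt_of_lt_of_le (S_lt fun m _ => (hz i m)) (Nat.pow_le_pow_right (by norm_num) (by omega))
  have h127 : S 21 n (fun _ => 127) < 2 ^ 1280 := a11_lt hn fun _ _ => by norm_num
  have hzr : ∀ i, S 21 n (fun c => z i (3 * c + 2)) < 2 ^ 1280 := fun i => a11_lt hn fun m _ =>
    lt_of_lt_of_le (hz i _) (by norm_num)
  apply Nat.eq_of_testBit_eq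
  intro p
  obtain ⟨i, r, hr, rfl⟩ : ∃ i r, r < 1280 ∧ p = 1280 * i + r :=
    ⟨p / 1280, p % 1280, Nat.mod_lt _ (by norm_num), (Nat.div_add_mod p 1280).symm⟩
  rw [Nat.testBit_and, Nat.testBit_shiftRight, S_testBit' (fun _ _ => h127) i r hr,
    S_testBit' (fun i _ => hzr i) i r hr]
  obtain ⟨c, b, hb, rfl⟩ : ∃ c b, b < 21 ∧ r = 21 * c + b :=
    ⟨r / 21, r % 21, Nat.mod_lt _ (by norm_num), (Nat.div_add_mod r 21).symm⟩
  rw [S_testBit' (fun _ _ => by norm_num) c b hb,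
    S_testBit' (fun m _ => lt_of_lt_of_le (hz i _) (by norm_num)) c b hb]
  have h127b : (127 : ℕ).testBit b = decide (b < 7) := by
    have := Nat.testBit_two_pow_sub_one 7 b
    simpa using this
  rw [h127b]
  by_cases hi : i < n
  swap
  · simp [hi]
  by_cases hc : c < n
  swap
  · simp [hc]
  by_cases hb7 : b < 7
  swap
  · have : (z i (3 * c + 2)).testBit b = false :=
      Nat.testBit_eq_false_of_lt (lt_of_lt_of_le (hz i _) (by
        calc 128 = 2 ^ 7 := by norm_num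
          _ ≤ 2 ^ b := Nat.pow_le_pow_right (by norm_num) (by omega)))
    simp [hb7, this]
  have e1 : 14 + (1280 * i + (21 * c + b)) = 1280 * i + (7 * (3 * c + 2) + b) := by ring
  rw [e1, S_testBit' (fun i _ => hz7 i) i _ (by omega), S_testBit' (fun m _ => hz i m) (3 * c + 2) b hb7]
  have : 3 * c + 2 < 3 * n + 2 := by omega
  simp [hi, hc, hb7, this]

theorem a11_digit : ∀ z < 128, ((z ^^^ 64) + 127) &&& 128 = if z = 64 then 0 else 128 := by
  decide +kernel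

theorem nz_eq {n : ℕ} {z : ℕ → ℕ → ℕ} (hn3 : 3 ≤ n) (hn : n ≤ 15) (hz : ∀ i m, z i m < 128) :
    nz (KK n) (∑ i ∈ range n, (∑ m ∈ range (3 * n + 2), z i m * 2 ^ (7 * m)) * 2 ^ (1280 * i)) =
      ∑ i ∈ range n, ∑ c ∈ range n, (if z i (3 * c + 2) = 64 then 0 else 128) * 2 ^ (1280 * i + 21 * c) := by
  have hZ : (∑ i ∈ range n, (∑ m ∈ range (3 * n + 2), z i m * 2 ^ (7 * m)) * 2 ^ (1280 * i)) =
      S 1280 n (fun i => S 7 (3 * n + 2) (z i)) := rfl
  have hnz : ∀ Z, nz (KK n) Z = ((((Z >>> 14) &&& (KK n).j21a) ^^^ (KK n).j21b) + (KK n).j21a) &&& (KK n).j21c :=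
    fun Z => rfl
  have ha : (KK n).j21a = S 1280 n (fun _ => S 21 n (fun _ => 127)) := a11_const n 127
  have hb : (KK n).j21b = S 1280 n (fun _ => S 21 n (fun _ => 64)) := a11_const n 64
  have hc : (KK n).j21c = S 1280 n (fun _ => S 21 n (fun _ => 128)) := a11_const n 128
  have hz21 : ∀ i m, z i m < 2 ^ 21 := fun i m => lt_of_lt_of_le (hz i m) (by norm_num)
  have hx : ∀ i m, z i m ^^^ 64 < 2 ^ 7 := fun i m => Nat.xor_lt_two_pow (hz i m) (by norm_num)
  rw [hZ, hnz, ha, hb, hc, a11_land hn hz,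
    S_xor (by norm_num) (fun i _ => a11_lt hn fun m _ => hz21 _ _) (fun i _ => a11_lt hn fun m _ => by norm_num),
    S_congr (g := fun i => S 21 n (fun c => z i (3 * c + 2) ^^^ 64)) (fun i _ =>
      S_xor (by norm_num) (fun m _ => hz21 _ _) (fun m _ => by norm_num)),
    S_add, S_congr (g := fun i => S 21 n (fun c => (z i (3 * c + 2) ^^^ 64) + 127)) (fun i _ => S_add _ _ _ _)]
  have hlt : ∀ i m, (z i (3 * m + 2) ^^^ 64) + 127 < 2 ^ 21 := by
    intro i m
    have := hx i (3 * m + 2)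
    norm_num at this ⊢
    omega
  rw [S_land (by norm_num) (fun i _ => a11_lt hn fun m _ => hlt i m) (fun i _ => a11_lt hn fun m _ => by norm_num),
    S_congr (g := fun i => S 21 n (fun c => ((z i (3 * c + 2) ^^^ 64) + 127) &&& 128)) (fun i _ =>
      S_land (by norm_num) (fun m _ => hlt i m) (fun m _ => by norm_num)), a11_dbl]
  apply S_congr
  intro i _
  apply S_congr
  intro c _
  exact a11_digit _ (hz _ _)

end Pool.Agent.N3
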