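import Pool.Agent.Lib.MP_f3f345_co.Def
import Pool.Agent.Lib.MP_f3f345_co.Tool

/-! A12: equivalence of incidence matrices -/
namespace Pool.Agent.N3

open Finset

theorem a12_symm_lt {n : ℕ} {σ : Equiv.Perm ℕ} (h : ∀ i, σ i < n ↔ i < n) (i : ℕ) :
    σ.symm i < n ↔ i < n := by
  have := h (σ.symm i)
  rw [Equiv.apply_symm_apply] at this
  exact this.symm

theorem a12_trans_lt {n : ℕ} {σ τ : Equiv.Perm ℕ} (h : ∀ i, σ i < n ↔ i < n)
    (h' : ∀ i, τ i < n ↔ i < n) (i : ℕ) : (σ.trans τ) i < n ↔ i < n := by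
  rw [Equiv.trans_apply, h', h]

theorem eqv_refl (n : ℕ) (I : ℕ → ℕ → ℕ) : Eqv n I I :=
  ⟨Equiv.refl _, Equiv.refl _, fun _ => Iff.rfl, fun _ => Iff.rfl, Or.inl fun _ _ => rfl⟩

theorem eqv_symm {n : ℕ} {I J : ℕ → ℕ → ℕ} (h : Eqv n I J) : Eqv n J I := by
  obtain ⟨σ, τ, hσ, hτ, h⟩ := h
  rcases h with h | h
  · exact ⟨σ.symm, τ.symm, a12_symm_lt hσ, a12_symm_lt hτ, Or.inl fun i c => by
      rw [h, Equiv.apply_symm_apply, Equiv.apply_symm_apply]⟩
  · exact ⟨τ.symm, σ.symm, a12_symm_lt hτ, a12_symm_lt hσ, Or.inr fun i c => by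
      rw [h, Equiv.apply_symm_apply, Equiv.apply_symm_apply]⟩

theorem eqv_trans {n : ℕ} {I J L : ℕ → ℕ → ℕ} (h : Eqv n I J) (h' : Eqv n J L) : Eqv n I L := by
  obtain ⟨σ, τ, hσ, hτ, h⟩ := h
  obtain ⟨σ', τ', hσ', hτ', h'⟩ := h'
  rcases h with h | h <;> rcases h' with h' | h'
  · exact ⟨σ'.trans σ, τ'.trans τ, a12_trans_lt hσ' hσ, a12_trans_lt hτ' hτ, Or.inl fun i c => by
      rw [h', h, Equiv.trans_apply, Equiv.trans_apply]⟩
  · exact ⟨σ'.trans σ, τ'.trans τ, a12_trans_lt hσ' hσ, a12_trans_lt hτ' hτ, Or.inr fun i c => by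
      rw [h', h, Equiv.trans_apply, Equiv.trans_apply]⟩
  · exact ⟨τ'.trans σ, σ'.trans τ, a12_trans_lt hτ' hσ, a12_trans_lt hσ' hτ, Or.inr fun i c => by
      rw [h', h, Equiv.trans_apply, Equiv.trans_apply]⟩
  · exact ⟨τ'.trans σ, σ'.trans τ, a12_trans_lt hτ' hσ, a12_trans_lt hσ' hτ, Or.inl fun i c => by
      rw [h', h, Equiv.trans_apply, Equiv.trans_apply]⟩

theorem a12_mx_perm {n : ℕ} {I : ℕ → ℕ → ℕ} (hI : Mx n I) {σ τ : Equiv.Perm ℕ}
    (hσ : ∀ i, σ i < n ↔ i < n) (hτ : ∀ i, τ i < n ↔ i < n) :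
    Mx n (fun i c => I (σ i) (τ c)) where
  n3 := hI.n3
  n15 := hI.n15
  le1 i c := hI.le1 _ _
  out i c h := by
    apply hI.out
    rcases h with h | h
    · left
      have := hσ i
      omega
    · right
      have := hτ c
      omega
  row i hi := by
    rw [← hI.row (σ i) ((hσ i).2 hi)]
    exact Finset.sum_equiv τ (fun c => by rw [mem_range, mem_range, hτ]) (fun c _ => rfl)
  col c hc := by
    rw [← hI.col (τ c) ((hτ c).2 hc)]
    exact Finset.sum_equiv σ (fun c => by rw [mem_range, mem_range, hσ]) (fun c _ => rfl)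
  lin i j c d h1 h2 h3 h4 := by
    rcases hI.lin (σ i) (σ j) (τ c) (τ d) h1 h2 h3 h4 with h | h
    · exact Or.inl (σ.injective h)
    · exact Or.inr (τ.injective h)
  conn A B h h1 i hi := by
    obtain ⟨i0, hi0, hA⟩ := h1
    have := hI.conn (fun a => A (σ.symm a)) (fun b => B (τ.symm b)) (fun a b hab => by
      apply h (σ.symm a) (τ.symm b)
      rw [Equiv.apply_symm_apply, Equiv.apply_symm_apply]
      exact hab) ⟨σ i0, (hσ i0).2 hi0, by simpa using hA⟩ (σ i) ((hσ i).2 hi)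
    simpa using this

theorem a12_exists {n : ℕ} {I : ℕ → ℕ → ℕ} (hI : Mx n I) {c : ℕ} (hc : c < n) :
    ∃ r < n, I r c = 1 := by
  by_contra hcon
  push Not at hcon
  have h0 : ∑ i ∈ range n, I i c = 0 := by
    apply Finset.sum_eq_zero
    intro i hi
    have h1 := hI.le1 i c
    have h2 := hcon i (mem_range.1 hi)
    omega
  have := hI.col c hc
  omega

theorem a12_mx_transpose {n : ℕ} {I : ℕ → ℕ → ℕ} (hI : Mx n I) : Mx n (fun i c => I c i) where
  n3 := hI.n3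
  n15 := hI.n15
  le1 i c := hI.le1 _ _
  out i c h := hI.out _ _ h.symm
  row i hi := hI.col i hi
  col c hc := hI.row c hc
  lin i j c d h1 h2 h3 h4 := (hI.lin c d i j h1 h3 h2 h4).symm
  conn A B h h1 i hi := by
    obtain ⟨i0, hi0, hA⟩ := h1
    obtain ⟨r0, hr0, hr1⟩ := a12_exists hI hi0
    have hB : ∀ r < n, B r := hI.conn B A (fun a b hab => (h b a hab).symm)
      ⟨r0, hr0, (h i0 r0 hr1).1 hA⟩
    obtain ⟨r, hr, hr1⟩ := a12_exists hI hi
    exact (h i r hr1).2 (hB r hr)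

theorem mx_eqv {n : ℕ} {I J : ℕ → ℕ → ℕ} (h : Eqv n I J) (hI : Mx n I) : Mx n J := by
  obtain ⟨σ, τ, hσ, hτ, h⟩ := h
  rcases h with h | h
  · have : J = fun i c => I (σ i) (τ c) := by
      funext i c
      exact h i c
    rw [this]
    exact a12_mx_perm hI hσ hτ
  · have : J = fun i c => (fun a b => I b a) (τ i) (σ c) := by
      funext i c
      exact h i c
    rw [this]
    exact a12_mx_perm (a12_mx_transpose hI) hτ hσ

theorem realZ_eqv {n : ℕ} {I J : ℕ → ℕ → ℕ} (h : Eqv n I J) (hI : RealZ n I) : RealZ n J := by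
  obtain ⟨σ, τ, hσ, hτ, h⟩ := h
  obtain ⟨p, q, hpq⟩ := hI
  rcases h with h | h
  · refine ⟨fun c => p (τ c), fun i => q (σ i), fun i hi c hc => ?_⟩
    rw [h i c]
    exact hpq (σ i) ((hσ i).2 hi) (τ c) ((hτ c).2 hc)
  · refine ⟨fun c => q (σ c), fun i => p (τ i), fun i hi c hc => ?_⟩
    rw [h i c, ← hpq (σ c) ((hσ c).2 hc) (τ i) ((hτ i).2 hi)]
    rw [mul_comm (q (σ c) 0), mul_comm (q (σ c) 1), mul_comm (q (σ c) 2)]

end Pool.Agent.N3
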