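import Pool.Agent.Lib.MP_f3f345_co.Def
import Pool.Agent.Lib.MP_f3f345_co.Tool

/-! # Row A13 -/
namespace Pool.Agent.N3

open Finset

theorem a13_ones (n : ℕ) : ∑ c ∈ range n, 2 ^ (5 * c) < 2 ^ (5 * n) := by
  induction n with
  | zero => simp
  | succ k ih =>
    rw [Finset.sum_range_succ, Nat.mul_succ, pow_add]
    have h : 0 < 2 ^ (5 * k) := by positivity
    omega

theorem a13_msk {n : ℕ} {J : ℕ → ℕ → ℕ} (hJ : Mx n J) (i : ℕ) : msk n J i < 2 ^ 80 := by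
  have h1 : msk n J i ≤ ∑ c ∈ range n, 2 ^ (5 * c) := by
    apply Finset.sum_le_sum
    intro c _
    calc J i c * 2 ^ (5 * c) ≤ 1 * 2 ^ (5 * c) := Nat.mul_le_mul_right _ (hJ.le1 i c)
      _ = 2 ^ (5 * c) := one_mul _
  have h2 : (2 : ℕ) ^ (5 * n) ≤ 2 ^ 80 := by
    apply Nat.pow_le_pow_right (by norm_num)
    have := hJ.n15
    omega
  exact lt_of_le_of_lt h1 (lt_of_lt_of_le (a13_ones n) h2)

theorem a13_enc {n : ℕ} {J : ℕ → ℕ → ℕ} (hJ : Mx n J) (k : ℕ) : enc n J k < 2 ^ (80 * k) := by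
  induction k with
  | zero => simp [enc]
  | succ k ih =>
    have h1 := a13_msk hJ k
    have h2 : enc n J (k + 1) = enc n J k * 2 ^ 80 + msk n J k := rfl
    rw [h2, Nat.mul_succ, pow_add]
    have h3 : (enc n J k + 1) * 2 ^ 80 ≤ 2 ^ (80 * k) * 2 ^ 80 := Nat.mul_le_mul_right _ ih
    have h4 : (enc n J k + 1) * 2 ^ 80 = enc n J k * 2 ^ 80 + 2 ^ 80 := by ring
    rw [h4] at h3
    exact lt_of_lt_of_le (Nat.add_lt_add_left h1 _) h3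

theorem exists_max {n : ℕ} {I : ℕ → ℕ → ℕ} (hI : Mx n I) (hT : ∀ J, Eqv n I J → Mx n J)
    (htr : ∀ J L, Eqv n I J → Eqv n J L → Eqv n I L) (hrf : Eqv n I I) : ∃ J, Max n J ∧ Eqv n I J := by
  have hne : {v : ℕ | ∃ J, Eqv n I J ∧ enc n J n = v}.Nonempty := ⟨enc n I n, I, hrf, rfl⟩
  have hbd : BddAbove {v : ℕ | ∃ J, Eqv n I J ∧ enc n J n = v} := by
    refine ⟨2 ^ (80 * n), ?_⟩
    rintro v ⟨J, hJ, rfl⟩
    exact (a13_enc (hT J hJ) n).le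
  obtain ⟨J, hJ, hJe⟩ := Nat.sSup_mem hne hbd
  refine ⟨J, ⟨hT J hJ, ?_⟩, hJ⟩
  intro L hL
  rw [hJe]
  exact le_csSup hbd ⟨L, htr J L hJ hL, rfl⟩

end Pool.Agent.N3
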