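import Pool.Agent.Lib.MP_f3f345_co.Def
import Pool.Agent.Lib.MP_f3f345_co.Tool

/-! # Row A14 -/
namespace Pool.Agent.N3

open Finset

theorem closed_false {n k : ℕ} {I : ℕ → ℕ → ℕ} (hI : Mx n I) (hk : k ≤ n) (hk1 : 1 ≤ k)
    (h : ∀ c < n, deg I k c < 3 → deg I k c = 0) (h2 : ∃ c < n, deg I k c = 0) : False := by
  have hle : ∀ c < n, deg I k c ≤ 3 := by
    intro c hc
    have h1 := hI.col c hc
    rw [← h1]
    exact sum_le_sum_of_subset (range_subset_range.2 hk)
  have hlt : ∀ i c, I i c = 1 → i < n ∧ c < n := by
    intro i c hic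
    by_contra hcon
    have h0 := hI.out i c (by omega)
    omega
  have hall := hI.conn (fun i => i < k) (fun c => deg I k c = 3) (by
    intro i c hic
    obtain ⟨hin, hcn⟩ := hlt i c hic
    constructor
    · intro hik
      have h1 : I i c ≤ deg I k c :=
        single_le_sum (f := fun i => I i c) (fun _ _ => Nat.zero_le _) (mem_range.2 hik)
      have h2 := hle c hcn
      by_contra h3
      have h4 := h c hcn (by omega)
      omega
    · intro h3
      by_contra hik
      have hik' : i ∉ range k := by simpa using hik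
      have h4 : ∑ j ∈ insert i (range k), I j c ≤ ∑ j ∈ range n, I j c := by
        refine sum_le_sum_of_subset (insert_subset (mem_range.2 hin) (range_subset_range.2 hk))
      rw [sum_insert hik', hI.col c hcn] at h4
      have h5 : ∑ j ∈ range k, I j c = 3 := h3
      omega) ⟨0, by have := hI.n3; omega, by omega⟩
  have hkn : k = n := by
    have h3 := hI.n3
    have h4 : n - 1 < k := hall (n - 1) (by omega)
    omega
  obtain ⟨c, hc, hd⟩ := h2
  rw [hkn] at hd
  have h5 := hI.col c hc
  have h6 : ∑ i ∈ range n, I i c = 0 := hd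
  omega

end Pool.Agent.N3
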