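import Pool.Agent.Lib.MP_f3f345_co.Def
import Pool.Agent.Lib.MP_f3f345_co.Tool

/-! # Row A15 -/
namespace Pool.Agent.N3

open Finset

theorem a15_mul {n : ℕ} {I : ℕ → ℕ → ℕ} (hI : Mx n I) (i a b : ℕ) (h : I i a * I i b ≠ 0) :
    I i a = 1 ∧ I i b = 1 := by
  have h1 := hI.le1 i a
  have h2 := hI.le1 i b
  have h3 : I i a ≠ 0 := fun h0 => h (by rw [h0, zero_mul])
  have h4 : I i b ≠ 0 := fun h0 => h (by rw [h0, mul_zero])
  exact ⟨by omega, by omega⟩

theorem a15_inner {n k q : ℕ} {I : ℕ → ℕ → ℕ} (hI : Mx n I) (hk : k ≤ n) (y : ℕ)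
    (hy : y ∈ (range n).erase q) :
    ∑ i ∈ Ico k n, I i q * I i y ≤ if (y ≠ q ∧ deg I k y < 3 ∧ co I k q y = 0) then 1 else 0 := by
  rw [mem_erase, mem_range] at hy
  by_cases hex : ∃ i ∈ Ico k n, I i q * I i y ≠ 0
  · obtain ⟨i0, hi0, h0⟩ := hex
    obtain ⟨hq1, hy1⟩ := a15_mul hI i0 q y h0
    have huniq : ∀ i, I i q * I i y ≠ 0 → i = i0 := by
      intro i hi
      obtain ⟨a, b⟩ := a15_mul hI i q y hi
      rcases hI.lin i i0 q y a b hq1 hy1 with h | h
      · exact h
      · exact absurd h.symm hy.1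
    have hs : ∑ i ∈ Ico k n, I i q * I i y = I i0 q * I i0 y := by
      refine Finset.sum_eq_single_of_mem i0 hi0 fun i _ hne => ?_
      by_contra hc
      exact hne (huniq i hc)
    rw [hs, hq1, hy1, if_pos]
    refine ⟨hy.1, ?_, ?_⟩
    · have hc := hI.col y hy.2
      rw [← Finset.sum_range_add_sum_Ico (fun i => I i y) hk] at hc
      have h1 : I i0 y ≤ ∑ i ∈ Ico k n, I i y :=
        Finset.single_le_sum (f := fun i => I i y) (fun i _ => Nat.zero_le _) hi0
      unfold deg
      omega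
    · unfold co
      refine Finset.sum_eq_zero fun i hi => ?_
      by_contra hc
      have := huniq i hc
      rw [mem_range] at hi
      rw [mem_Ico] at hi0
      omega
  · push Not at hex
    rw [Finset.sum_eq_zero hex]
    exact Nat.zero_le _

theorem deg_bound {n k q : ℕ} {I : ℕ → ℕ → ℕ} (hI : Mx n I) (hk : k ≤ n) (hq : q < n) :
    2 * (3 - deg I k q) ≤
      ((range n).filter (fun y => y ≠ q ∧ deg I k y < 3 ∧ co I k q y = 0)).card := by
  have h1 : ∑ y ∈ (range n).erase q, ∑ i ∈ Ico k n, I i q * I i y = 2 * (3 - deg I k q) := by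
    rw [Finset.sum_comm]
    have h2 : ∀ i ∈ Ico k n, ∑ y ∈ (range n).erase q, I i q * I i y = 2 * I i q := by
      intro i hi
      rw [mem_Ico] at hi
      rw [← Finset.mul_sum]
      have h3 := hI.row i hi.2
      rw [← Finset.add_sum_erase (range n) (fun c => I i c) (mem_range.2 hq)] at h3
      have h4 := hI.le1 i q
      rcases Nat.eq_zero_or_pos (I i q) with h5 | h5
      · rw [h5, zero_mul, mul_zero]
      · have h6 : I i q = 1 := by omega
        rw [h6] at h3 ⊢
        omega
    rw [Finset.sum_congr rfl h2, ← Finset.mul_sum]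
    have hc := hI.col q hq
    rw [← Finset.sum_range_add_sum_Ico (fun i => I i q) hk] at hc
    unfold deg
    omega
  rw [← h1, Finset.card_filter]
  refine (Finset.sum_le_sum fun y hy => a15_inner hI hk y hy).trans ?_
  exact Finset.sum_le_sum_of_subset (Finset.erase_subset _ _)

end Pool.Agent.N3
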