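import Pool.Agent.Lib.MP_f3f345_co.Def
import Pool.Agent.Lib.MP_f3f345_co.Tool

/-! # Row A16 -/
namespace Pool.Agent.N3

open Finset

/-- digits of the state matrix -/
def a16_dg (I : ℕ → ℕ → ℕ) (k x y : ℕ) : ℕ := if x = y then 18 - deg I k x else 1 - co I k x y

theorem a16_dg_lt (I : ℕ → ℕ → ℕ) (k x y : ℕ) : a16_dg I k x y < 2 ^ 5 := by
  unfold a16_dg
  split_ifs <;> norm_num <;> omega

theorem a16_gM (n : ℕ) (I : ℕ → ℕ → ℕ) (k : ℕ) :
    gM n I k = S 80 n (fun x => S 5 n (a16_dg I k x)) := by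
  unfold gM S
  apply sum_congr rfl
  intro x _
  rw [sum_mul]
  apply sum_congr rfl
  intro y _
  rw [add_comm (80 * x), pow_add, mul_assoc]
  rfl

theorem a16_in_lt {n : ℕ} (hn : n ≤ 15) (I : ℕ → ℕ → ℕ) (k x : ℕ) : S 5 n (a16_dg I k x) < 2 ^ 80 :=
  lt_of_lt_of_le (S_lt fun m _ => a16_dg_lt I k x m) (Nat.pow_le_pow_right (by norm_num) (by omega))

theorem a16_land {u x : ℕ} (hu : u < 2 ^ 80) : u &&& x = u &&& (x % 2 ^ 80) := by
  rw [← Nat.and_two_pow_sub_one_eq_mod x 80, Nat.and_comm x, ← Nat.and_assoc, Nat.and_two_pow_sub_one_eq_mod,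
    Nat.mod_eq_of_lt hu]

theorem a16_deg_le {n k q : ℕ} {I : ℕ → ℕ → ℕ} (hI : Mx n I) (hk : k ≤ n) (hq : q < n) : deg I k q ≤ 3 := by
  rw [← hI.col q hq]
  exact sum_le_sum_of_subset (range_subset_range.2 hk)

theorem degbad_bits {n k q : ℕ} {I : ℕ → ℕ → ℕ} (hI : Mx n I) (hk : k ≤ n)
    (hU : unsat (KK n) (gM n I k) = uM n I k)
    (h : degbad (KK n) (gM n I k) q = true) :
    q < n ∧ ((range n).filter (fun y => y ≠ q ∧ deg I k y < 3 ∧ co I k q y = 0)).card < 2 * (3 - deg I k q) := by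
  have h15 := hI.n15
  unfold degbad at h
  rw [hU] at h
  have h' : Nat.succ ((uM n I k &&& (gM n I k >>> (80 * q))) % 31) ≤
      thr ((gM n I k >>> (85 * q)) &&& 31) := Nat.le_of_ble_eq_true h
  clear h
  have hthr : ∀ f, thr f = 6 - (18 - f) * (18 - f) := fun f => rfl
  rw [hthr, Nat.shiftRight_eq_div_pow, Nat.shiftRight_eq_div_pow] at h'
  have h31 : ∀ x : ℕ, x &&& 31 = x % 2 ^ 5 := fun x => Nat.and_two_pow_sub_one_eq_mod x 5
  rw [h31] at h'
  have hin : ∀ m < n, S 5 n (a16_dg I k m) < 2 ^ 80 := fun m _ => a16_in_lt h15 I k m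
  have hGlt : gM n I k < 2 ^ (80 * n) := by
    rw [a16_gM]
    exact S_lt hin
  by_cases hq : q < n
  swap
  · exfalso
    have h0 : gM n I k / 2 ^ (85 * q) = 0 :=
      Nat.div_eq_of_lt (lt_of_lt_of_le hGlt (Nat.pow_le_pow_right (by norm_num) (by omega)))
    rw [h0] at h'
    norm_num at h'
  refine ⟨hq, ?_⟩
  have hdig : gM n I k / 2 ^ (80 * q) % 2 ^ 80 = S 5 n (a16_dg I k q) := by
    rw [a16_gM]
    exact S_digit hin hq
  have hdd : gM n I k / 2 ^ (85 * q) % 2 ^ 5 = 18 - deg I k q := by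
    have e1 : 2 ^ (85 * q) = 2 ^ (80 * q) * 2 ^ (5 * q) := by rw [← pow_add]; congr 1; ring
    rw [e1, ← Nat.div_div_eq_div_mul]
    set X := gM n I k / 2 ^ (80 * q)
    have e2 : X / 2 ^ (5 * q) % 2 ^ 5 = (X % 2 ^ 80) / 2 ^ (5 * q) % 2 ^ 5 := by
      have e3 : 2 ^ 80 = 2 ^ (5 * q) * 2 ^ (80 - 5 * q) := by rw [← pow_add]; congr 1; omega
      rw [e3, Nat.mod_mul_right_div_self, Nat.mod_mod_of_dvd]
      exact pow_dvd_pow 2 (by omega)
    rw [e2, hdig, S_digit (fun m _ => a16_dg_lt I k q m) hq]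
    simp [a16_dg]
  have hu : uM n I k = S 5 n (fun c => if deg I k c < 3 then 1 else 0) := rfl
  have hult : ∀ m < n, (fun c => if deg I k c < 3 then 1 else 0) m < 2 ^ 5 := by
    intro m _
    dsimp only
    split_ifs <;> norm_num
  have hUlt : uM n I k < 2 ^ 80 := by
    rw [hu]
    exact lt_of_lt_of_le (S_lt hult) (Nat.pow_le_pow_right (by norm_num) (by omega))
  rw [a16_land hUlt, hdig, hdd, hu, S_land (by norm_num) hult (fun m _ => a16_dg_lt I k q m)] at h'
  have hfold := fold_mod (range n) (fun m => (if deg I k m < 3 then 1 else 0) &&& a16_dg I k q m)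
    (fun m => 5 * m) (fun _ => 0) (fun m => m) 5 (fun i _ => by simp)
  have hS : S 5 n (fun m => (if deg I k m < 3 then 1 else 0) &&& a16_dg I k q m) % 31 =
      (∑ m ∈ range n, ((if deg I k m < 3 then 1 else 0) &&& a16_dg I k q m)) % 31 := by
    simpa [S] using hfold
  rw [hS] at h'
  have hcount : ∑ m ∈ range n, ((if deg I k m < 3 then 1 else 0) &&& a16_dg I k q m) =
      ((range n).filter (fun y => y ≠ q ∧ deg I k y < 3 ∧ co I k q y = 0)).card +
        (if deg I k q < 3 then (18 - deg I k q) % 2 else 0) := by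
    rw [Finset.card_filter, ← Finset.add_sum_erase _ _ (mem_range.2 hq),
      ← Finset.add_sum_erase (range n) (fun y => if y ≠ q ∧ deg I k y < 3 ∧ co I k q y = 0 then 1 else 0)
        (mem_range.2 hq)]
    have t1 : ∑ m ∈ (range n).erase q, ((if deg I k m < 3 then 1 else 0) &&& a16_dg I k q m) =
        ∑ m ∈ (range n).erase q, (if m ≠ q ∧ deg I k m < 3 ∧ co I k q m = 0 then 1 else 0) := by
      apply sum_congr rfl
      intro m hm
      rw [mem_erase] at hm
      unfold a16_dg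
      rw [if_neg (Ne.symm hm.1)]
      by_cases h1 : deg I k m < 3
      · by_cases h2 : co I k q m = 0
        · rw [if_pos h1, if_pos ⟨hm.1, h1, h2⟩, h2]; rfl
        · rw [if_pos h1, if_neg (fun h => h2 h.2.2)]
          have : 1 - co I k q m = 0 := by omega
          rw [this]; rfl
      · rw [if_neg h1, if_neg (fun h => h1 h.2.1), Nat.zero_and]
    rw [t1]
    have t2 : ((if deg I k q < 3 then 1 else 0) &&& a16_dg I k q q) = (if deg I k q < 3 then (18 - deg I k q) % 2 else 0) := by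
      unfold a16_dg
      rw [if_pos rfl]
      split_ifs
      · rw [Nat.one_and_eq_mod_two]
      · rw [Nat.zero_and]
    rw [t2]
    simp
    ring
  have hbound : ∑ m ∈ range n, ((if deg I k m < 3 then 1 else 0) &&& a16_dg I k q m) ≤ 15 := by
    calc ∑ m ∈ range n, ((if deg I k m < 3 then 1 else 0) &&& a16_dg I k q m)
        ≤ ∑ m ∈ range n, 1 := by
          apply sum_le_sum
          intro m _
          refine le_trans Nat.and_le_left ?_
          split_ifs <;> omega
      _ = n := by simp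
      _ ≤ 15 := h15
  rw [Nat.mod_eq_of_lt (by omega), hcount] at h'
  have hd3 := a16_deg_le hI hk hq
  generalize ((range n).filter (fun y => y ≠ q ∧ deg I k y < 3 ∧ co I k q y = 0)).card = N at h' ⊢
  generalize deg I k q = d at h' hd3 ⊢
  interval_cases d <;> simp at h' ⊢ <;> omega

end Pool.Agent.N3
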