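import Pool.Agent.Lib.MP_f3f345_co.Def
import Pool.Agent.Lib.MP_f3f345_co.Tool

/-! A17: lexicographic comparison of encodings -/
namespace Pool.Agent.N3

open Finset

theorem a17_msk_lt {n : ℕ} {I : ℕ → ℕ → ℕ} (hI : ∀ i c, I i c ≤ 1) (hn : n ≤ 15) (i : ℕ) :
    msk n I i < 2 ^ 80 := by
  have h : S 5 n (I i) < 2 ^ (5 * n) := S_lt fun m _ => lt_of_le_of_lt (hI i m) (by norm_num)
  have h2 : (2 : ℕ) ^ (5 * n) ≤ 2 ^ 80 := Nat.pow_le_pow_right (by norm_num) (by omega)
  exact lt_of_lt_of_le h h2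

theorem a17_enc_eq {n j : ℕ} {I J : ℕ → ℕ → ℕ} (heq : ∀ i < j, msk n J i = msk n I i) :
    enc n J j = enc n I j := by
  induction j with
  | zero => rfl
  | succ j ih =>
    simp only [enc]
    rw [ih (fun i hi => heq i (by omega)), heq j (by omega)]

theorem enc_lt {n j : ℕ} {I J : ℕ → ℕ → ℕ} (hI : ∀ i c, I i c ≤ 1) (hn : n ≤ 15) (hj : j < n)
    (heq : ∀ i < j, msk n J i = msk n I i) (hlt : msk n I j < msk n J j) : enc n I n < enc n J n := by
  have key : ∀ d, enc n I (j + 1 + d) < enc n J (j + 1 + d) := by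
    intro d
    induction d with
    | zero =>
      simp only [Nat.add_zero, enc]
      rw [a17_enc_eq heq]
      omega
    | succ d ih =>
      have e1 : enc n I (j + 1 + (d + 1)) = enc n I (j + 1 + d) * 2 ^ 80 + msk n I (j + 1 + d) := rfl
      have e2 : enc n J (j + 1 + (d + 1)) = enc n J (j + 1 + d) * 2 ^ 80 + msk n J (j + 1 + d) := rfl
      have h1 := a17_msk_lt hI hn (j + 1 + d)
      have h2 : (enc n I (j + 1 + d) + 1) * 2 ^ 80 ≤ enc n J (j + 1 + d) * 2 ^ 80 :=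
        Nat.mul_le_mul_right _ ih
      rw [e1, e2]
      generalize enc n I (j + 1 + d) = a at *
      generalize enc n J (j + 1 + d) = b at *
      rw [Nat.add_mul, Nat.one_mul] at h2
      omega
  have := key (n - (j + 1))
  rwa [Nat.add_sub_cancel' (by omega : j + 1 ≤ n)] at this

/-- extension of an injection `{0..j} → range n` to a permutation of `ℕ` -/
theorem a17_perm {n j : ℕ} (f : ℕ → ℕ) (hf : ∀ i ≤ j, f i < n)
    (hinj : ∀ i ≤ j, ∀ i' ≤ j, f i = f i' → i = i') (hj : j < n) :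
    ∃ π : Equiv.Perm ℕ, (∀ i, π i < n ↔ i < n) ∧ ∀ i ≤ j, π i = f i := by
  classical
  let g : {x : Fin n // x.1 ≤ j} → Fin n := fun y => ⟨f y.1.1, hf _ y.2⟩
  have hg : Function.Injective g := by
    intro y y' h
    have h1 : f y.1.1 = f y'.1.1 := congrArg Fin.val h
    exact Subtype.ext (Fin.ext (hinj _ y.2 _ y'.2 h1))
  let e : {x : Fin n // x.1 ≤ j} ≃ {x : Fin n // x ∈ Set.range g} := Equiv.ofInjective g hg
  let σ : Equiv.Perm (Fin n) := e.extendSubtype
  have hσ : ∀ x : Fin n, ∀ hx : x.1 ≤ j, σ x = g ⟨x, hx⟩ := by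
    intro x hx
    have := e.extendSubtype_apply_of_mem x hx
    rw [this]
    rfl
  let F : Fin n ≃ {i : ℕ // i < n} := Fin.equivSubtype
  refine ⟨σ.extendDomain F, fun i => ?_, fun i hi => ?_⟩
  · by_cases h : i < n
    · rw [Equiv.Perm.extendDomain_apply_subtype σ F h]
      exact ⟨fun _ => h, fun _ => (F (σ (F.symm ⟨i, h⟩))).2⟩
    · rw [Equiv.Perm.extendDomain_apply_not_subtype σ F h]
  · have h : i < n := by omega
    rw [Equiv.Perm.extendDomain_apply_subtype σ F h]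
    have h2 : σ (F.symm ⟨i, h⟩) = g ⟨F.symm ⟨i, h⟩, hi⟩ := hσ _ hi
    rw [h2]
    rfl

theorem lex_lt {n j : ℕ} {I J : ℕ → ℕ → ℕ} (hI : Max n I) (hJ : Eqv n I J) (f : ℕ → ℕ)
    (hf : ∀ i ≤ j, f i < n) (hinj : ∀ i ≤ j, ∀ i' ≤ j, f i = f i' → i = i') (hj : j < n)
    (heq : ∀ i < j, msk n J (f i) = msk n I i) (hlt : msk n I j < msk n J (f j)) : False := by
  obtain ⟨π, hπ, hπf⟩ := a17_perm f hf hinj hj
  have hE : Eqv n I (fun i c => J (π i) c) := by
    obtain ⟨σ, τ, hσ, hτ, h⟩ := hJ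
    rcases h with h | h
    · exact ⟨π.trans σ, τ, fun i => by rw [Equiv.trans_apply, hσ, hπ], hτ,
        Or.inl fun i c => by rw [Equiv.trans_apply]; exact h _ _⟩
    · exact ⟨σ, π.trans τ, hσ, fun i => by rw [Equiv.trans_apply, hτ, hπ],
        Or.inr fun i c => by rw [Equiv.trans_apply]; exact h _ _⟩
  have h1 := hI.2 _ hE
  have h2 : enc n I n < enc n (fun i c => J (π i) c) n := by
    refine enc_lt hI.1.le1 hI.1.n15 hj (fun i hi => ?_) ?_
    · have : msk n (fun i c => J (π i) c) i = msk n J (π i) := rfl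
      rw [this, hπf i (by omega)]
      exact heq i hi
    · have : msk n (fun i c => J (π i) c) j = msk n J (π j) := rfl
      rw [this, hπf j le_rfl]
      exact hlt
  omega

end Pool.Agent.N3
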