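import Pool.Agent.Lib.MP_f3f345_co.Def
import Pool.Agent.Lib.MP_f3f345_co.Tool

/-! # Row A18 -/
namespace Pool.Agent.N3

open Finset

theorem a18_deg_le {n k c : ℕ} {I : ℕ → ℕ → ℕ} (hI : Mx n I) (hk : k ≤ n) (hc : c < n) :
    deg I k c ≤ 3 := by
  rw [← hI.col c hc]
  exact Finset.sum_le_sum_of_subset (Finset.range_mono hk)

theorem uM_top {n k h r : ℕ} {I : ℕ → ℕ → ℕ} (hI : Mx n I) (hk : k ≤ n) (hr : r < 32)
    (hU : uM n I k / 2 ^ (5 * h) = r) (hr1 : 1 ≤ r) :
    r = 1 ∧ (h < n ∧ deg I k h < 3 ∧ ∀ c < n, h < c → deg I k c = 3) ∧ k < n := by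
  set f : ℕ → ℕ := fun c => if deg I k c < 3 then 1 else 0 with hf
  have hf1 : ∀ m, f m ≤ 1 := by
    intro m
    simp only [hf]
    split_ifs <;> omega
  have hu : uM n I k = S 5 n f := rfl
  rw [hu, S_div (fun m _ => by have := hf1 m; omega)] at hU
  have hhn : h < n := by
    by_contra hcon
    have h0 : n - h = 0 := by omega
    rw [h0] at hU
    simp [S] at hU
    omega
  obtain ⟨N, hN⟩ : ∃ N, n - h = N + 1 := ⟨n - h - 1, by omega⟩
  rw [hN, S_succ'] at hU
  simp only [Nat.zero_add] at hU
  have h1 := hf1 h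
  have hS0 : S 5 N (fun m => f (m + 1 + h)) = 0 := by omega
  have hfh : f h = 1 := by omega
  have hdh : deg I k h < 3 := by
    by_contra hcon
    simp only [hf, if_neg hcon] at hfh
    omega
  refine ⟨by omega, ⟨hhn, hdh, ?_⟩, ?_⟩
  · intro c hc hhc
    have h2 : f c = 0 := by
      unfold S at hS0
      rw [Finset.sum_eq_zero_iff] at hS0
      have h3 := hS0 (c - h - 1) (Finset.mem_range.2 (by omega))
      have h4 : c - h - 1 + 1 + h = c := by omega
      simp only [h4] at h3
      rcases Nat.mul_eq_zero.1 h3 with h5 | h5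
      · exact h5
      · exact absurd h5 (by positivity)
    have h6 : ¬ deg I k c < 3 := by
      intro hcon
      simp only [hf, if_pos hcon] at h2
      omega
    have h7 := a18_deg_le hI hk hc
    omega
  · rcases Nat.lt_or_ge k n with h8 | h8
    · exact h8
    · exfalso
      have h9 : k = n := by omega
      subst h9
      have h10 := hI.col h hhn
      unfold deg at hdh
      omega

end Pool.Agent.N3
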