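import Mathlib
import Pool.Agent.Lib.MP_f3f345_co.Cst

/-! # Matrices of (n_3) configurations, maximal representatives, state formulas, constants -/
namespace Pool.Agent.N3

open Finset

/-- `I i c = 1` iff position `c` lies on row `i`; connected linear 3-regular incidence matrices -/
structure Mx (n : ℕ) (I : ℕ → ℕ → ℕ) : Prop where
  n3 : 3 ≤ n
  n15 : n ≤ 15
  le1 : ∀ i c, I i c ≤ 1
  out : ∀ i c, n ≤ i ∨ n ≤ c → I i c = 0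
  row : ∀ i < n, ∑ c ∈ range n, I i c = 3
  col : ∀ c < n, ∑ i ∈ range n, I i c = 3
  lin : ∀ i j c d, I i c = 1 → I i d = 1 → I j c = 1 → I j d = 1 → i = j ∨ c = d
  conn : ∀ A B : ℕ → Prop, (∀ i c, I i c = 1 → (A i ↔ B c)) → (∃ i < n, A i) → ∀ i < n, A i

/-- mask of a row -/
def msk (n : ℕ) (I : ℕ → ℕ → ℕ) (i : ℕ) : ℕ := ∑ c ∈ range n, I i c * 2 ^ (5 * c)

/-- the first `k` rows, newest row lowest -/
def enc (n : ℕ) (I : ℕ → ℕ → ℕ) : ℕ → ℕ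
  | 0 => 0
  | k + 1 => enc n I k * 2 ^ 80 + msk n I k

/-- equivalence: permutations of rows and of positions, or transposition -/
def Eqv (n : ℕ) (I J : ℕ → ℕ → ℕ) : Prop :=
  ∃ σ τ : Equiv.Perm ℕ, (∀ i, σ i < n ↔ i < n) ∧ (∀ i, τ i < n ↔ i < n) ∧
    ((∀ i c, J i c = I (σ i) (τ c)) ∨ (∀ i c, J i c = I (σ c) (τ i)))

/-- maximal representatives -/
def Max (n : ℕ) (I : ℕ → ℕ → ℕ) : Prop :=
  Mx n I ∧ ∀ J, Eqv n I J → enc n J n ≤ enc n I n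

/-- projective realization with integer coordinates -/
def RealZ (n : ℕ) (I : ℕ → ℕ → ℕ) : Prop :=
  ∃ p q : ℕ → ℕ → ℤ, ∀ i < n, ∀ c < n,
    (p c 0 * q i 0 + p c 1 * q i 1 + p c 2 * q i 2 = 0 ↔ I i c = 1)

/-- number of the first `k` rows through position `c` -/
def deg (I : ℕ → ℕ → ℕ) (k c : ℕ) : ℕ := ∑ i ∈ range k, I i c
/-- number of the first `k` rows through positions `x` and `y` -/
def co (I : ℕ → ℕ → ℕ) (k x y : ℕ) : ℕ := ∑ i ∈ range k, I i x * I i y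

def gM (n : ℕ) (I : ℕ → ℕ → ℕ) (k : ℕ) : ℕ :=
  ∑ x ∈ range n, ∑ y ∈ range n,
    (if x = y then 18 - deg I k x else 1 - co I k x y) * 2 ^ (80 * x + 5 * y)
def fM (n : ℕ) (I : ℕ → ℕ → ℕ) (k : ℕ) : ℕ :=
  ∑ c ∈ range n, (if deg I k c = 0 then 1 else 0) * 2 ^ (5 * c)
def uM (n : ℕ) (I : ℕ → ℕ → ℕ) (k : ℕ) : ℕ :=
  ∑ c ∈ range n, (if deg I k c < 3 then 1 else 0) * 2 ^ (5 * c)
def sprM (n : ℕ) (I : ℕ → ℕ → ℕ) (i : ℕ) : ℕ := ∑ c ∈ range n, I i c * 2 ^ (80 * c)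
def wM (n : ℕ) (I : ℕ → ℕ → ℕ) : ℕ → ℕ
  | 0 => 0
  | k + 1 => wM n I k * 2 ^ 2320 + sprM n I k

/-- row `k` is `{h, x, y}` -/
def Nx (n : ℕ) (I : ℕ → ℕ → ℕ) (k h x y : ℕ) : Prop :=
  y < x ∧ x < h ∧ h < n ∧ ∀ c, I k c = 1 ↔ c = h ∨ c = x ∨ c = y

/-- formulas for the constants -/
def KK (n : ℕ) : K where
  n := n
  ones := ∑ c ∈ range n, 2 ^ (5 * c)
  d80 := ∑ x ∈ range n, 2 ^ (80 * x)
  s75 := ∑ x ∈ range n, 2 ^ (75 * x)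
  d85s := ∑ x ∈ range n, 2 ^ (85 * x + 4)
  m80 := 2 ^ 80 - 1
  lt := ∑ x ∈ range n, ∑ y ∈ range x, 2 ^ (80 * x + 5 * y)
  g0 := ∑ x ∈ range n, ∑ y ∈ range n, (if x = y then 18 else 1) * 2 ^ (80 * x + 5 * y)
  ones16 := ∑ c ∈ range n, 2 ^ (5 * c + 4)
  d80f := ∑ x ∈ range n, 15 * 2 ^ (80 * x)
  k1 := ∑ m ∈ range n, ∑ c ∈ range n, c * 2 ^ (80 * m + 5 * c)
  j1 := ∑ m ∈ range n, ∑ c ∈ range n, 2 ^ (80 * m + 5 * c + 4)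
  s463 := ∑ i ∈ range n, 2 ^ (2315 * i)
  d464f := ∑ i ∈ range n, 15 * 2 ^ (2320 * i)
  k2 := ∑ i ∈ range n, ∑ r ∈ range n, (n - r) * 2 ^ (2320 * i + 80 * r)
  j2 := ∑ i ∈ range n, ∑ r ∈ range n, 2 ^ (2320 * i + 80 * r + 4)
  mw := ∑ i ∈ range n, ∑ r ∈ range n, 2 ^ (2320 * i + 80 * r)
  mi := ∑ i ∈ range n, ∑ c ∈ range n, 2 ^ (2320 * i + 5 * c + (80 * (n - 1) + 4))
  cs4 := 80 * (n - 1) + 4
  m448 := 2 ^ 2240 - 1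
  mt := 2 ^ (5 * n) - 1
  b5n := 15 + 5 * n
  b10n := 15 + 10 * n
  top := 2 ^ (80 * (n - 1))
  p21 := 2 ^ (21 * n) - 1
  b21 := 15 + 21 * n
  b42 := 15 + 42 * n
  s1200 := ∑ i ∈ range n, 2 ^ (1200 * i)
  mra := ∑ i ∈ range n, ∑ c ∈ range n, 2 ^ (1280 * i + 5 * c)
  s16 := ∑ m ∈ range n, 2 ^ (16 * m)
  j21 := ∑ i ∈ range n, ∑ c ∈ range n, 2 ^ (1280 * i + 21 * c)
  j21a := 127 * ∑ i ∈ range n, ∑ c ∈ range n, 2 ^ (1280 * i + 21 * c)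
  j21b := 64 * ∑ i ∈ range n, ∑ c ∈ range n, 2 ^ (1280 * i + 21 * c)
  j21c := 128 * ∑ i ∈ range n, ∑ c ∈ range n, 2 ^ (1280 * i + 21 * c)
  s1259 := ∑ i ∈ range n, 2 ^ (1259 * i)
  mq := (2 ^ 21 - 1) * ∑ i ∈ range n, 2 ^ (1280 * i)
  oo := 4 * ∑ m ∈ range (3 * n), 2 ^ (7 * m)
  oh := ∑ i ∈ range n, ∑ a ∈ range 3, 4 * 2 ^ (1280 * i + 7 * a)
  c1 := (4 * ∑ m ∈ range (3 * n), 2 ^ (7 * m)) * (∑ i ∈ range n, ∑ a ∈ range 3, 4 * 2 ^ (1280 * i + 7 * a)) +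
    64 * ∑ i ∈ range n, ∑ m ∈ range (3 * n + 2), 2 ^ (1280 * i + 7 * m)
  g7 := 7 * ∑ m ∈ range (3 * n), 2 ^ (7 * m)
  g112 := 112 * ∑ m ∈ range (3 * n), 2 ^ (7 * m)

/-- wide matrix -/
def wideS (n : ℕ) (a : ℕ → ℕ → ℕ) : ℕ := ∑ r ∈ range n, ∑ c ∈ range n, a r c * 2 ^ (2320 * r + 80 * c)

/-- target property: integer realization, or exceptional -/
def R (X : ℕ → (ℕ → ℕ → ℕ) → Prop) (n : ℕ) (I : ℕ → ℕ → ℕ) : Prop := RealZ n I ∨ X n I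

end Pool.Agent.N3
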