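import Pool.Agent.Lib.MP_f3f345_co.Cfg
import Pool.Agent.Lib.MP_f3f345_co.Def
import Pool.Agent.Lib.MP_f3f345_co.Tool

/-! # Row A19 -/
namespace Pool.Agent.N3

open Finset

theorem a19_mat {n : ℕ} (C : Cfg n) (i c : Fin n) :
    C.mat i c = if c ∈ C.line i then 1 else 0 := by
  unfold Cfg.mat
  rw [dif_pos ⟨i.2, c.2⟩]

theorem a19_one {n : ℕ} (C : Cfg n) {i c : ℕ} (h : C.mat i c = 1) :
    ∃ (hi : i < n) (hc : c < n), (⟨c, hc⟩ : Fin n) ∈ C.line ⟨i, hi⟩ := by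
  unfold Cfg.mat at h
  split_ifs at h with h1 h2
  exact ⟨h1.1, h1.2, h2⟩

theorem cfg_mx {n : ℕ} (C : Cfg n) (hC : C.levi.Connected) (h3 : 3 ≤ n) (h15 : n ≤ 15) : Mx n C.mat := by
  refine ⟨h3, h15, ?_, ?_, ?_, ?_, ?_, ?_⟩
  · intro i c
    unfold Cfg.mat
    split_ifs <;> omega
  · intro i c h
    unfold Cfg.mat
    rw [dif_neg (by omega)]
  · intro i hi
    rw [Finset.sum_range]
    have h1 : ∀ c : Fin n, C.mat i c = if c ∈ C.line ⟨i, hi⟩ then 1 else 0 := fun c =>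
      a19_mat C ⟨i, hi⟩ c
    simp_rw [h1]
    rw [Finset.sum_boole, Finset.filter_mem_eq_inter, Finset.univ_inter, C.card_line]
    rfl
  · intro c hc
    rw [Finset.sum_range]
    have h1 : ∀ i : Fin n, C.mat i c = if (⟨c, hc⟩ : Fin n) ∈ C.line i then 1 else 0 := fun i =>
      a19_mat C i ⟨c, hc⟩
    simp_rw [h1]
    rw [Finset.sum_boole, C.card_point]
    rfl
  · intro i j c d h1 h2 h3 h4
    obtain ⟨hi, hc, h1⟩ := a19_one C h1
    obtain ⟨_, hd, h2⟩ := a19_one C h2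
    obtain ⟨hj, _, h3⟩ := a19_one C h3
    obtain ⟨_, _, h4⟩ := a19_one C h4
    by_cases hcd : c = d
    · exact Or.inr hcd
    · left
      have hne : (⟨c, hc⟩ : Fin n) ≠ ⟨d, hd⟩ := fun h => hcd (by simpa using h)
      have := Finset.card_le_one.1 (C.inter _ _ hne) ⟨i, hi⟩ (by simp [h1, h2]) ⟨j, hj⟩ (by simp [h3, h4])
      simpa using this
  · intro A B hAB ⟨i0, hi0, hA0⟩ i hi
    let Q : Fin n ⊕ Fin n → Prop := fun v => Sum.elim (fun c : Fin n => B c) (fun i : Fin n => A i) v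
    have key : ∀ u v, C.levi.Adj u v → (Q u ↔ Q v) := by
      intro u v h
      rcases h with ⟨c, j, rfl, rfl, h⟩ | ⟨c, j, rfl, rfl, h⟩
      · have := hAB j c (by rw [a19_mat, if_pos h])
        exact this.symm
      · have := hAB j c (by rw [a19_mat, if_pos h])
        exact this
    have hw : ∀ u v, C.levi.Walk u v → (Q u ↔ Q v) := by
      intro u v w
      induction w with
      | nil => exact Iff.rfl
      | cons h _ ih => exact (key _ _ h).trans ih
    obtain ⟨w⟩ := hC.preconnected (Sum.inr ⟨i0, hi0⟩) (Sum.inr ⟨i, hi⟩)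
    exact (hw _ _ w).1 hA0

end Pool.Agent.N3
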