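import Pool.Agent.Lib.MP_f3f345_co.Cfg
import Pool.Agent.Lib.MP_f3f345_co.Def
import Pool.Agent.Lib.MP_f3f345_co.Tool

/-! # Row A20 -/
namespace Pool.Agent.N3

open Finset

theorem a20_mat {n : ℕ} (C : Cfg n) (i c : Fin n) : C.mat i c = 1 ↔ c ∈ C.line i := by
  unfold Cfg.mat
  rw [dif_pos ⟨i.2, c.2⟩]
  by_cases h : c ∈ C.line i
  · simp [h]
  · simp [h]

theorem a20_exists_t {n : ℕ} (p : Fin n → Fin 3 → ℤ) (hp : ∀ c, p c ≠ 0) :
    ∃ t : ℤ, ∀ c, p c 0 + p c 1 * t + p c 2 * t ^ 2 ≠ 0 := by
  classical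
  let f : Fin n → Polynomial ℤ := fun c => Polynomial.C (p c 0) + Polynomial.C (p c 1) * Polynomial.X +
    Polynomial.C (p c 2) * Polynomial.X ^ 2
  have hf : ∀ c, f c ≠ 0 := by
    intro c h0
    apply hp c
    have h1 : ∀ k, (f c).coeff k = 0 := fun k => by rw [h0, Polynomial.coeff_zero]
    have e0 := h1 0
    have e1 := h1 1
    have e2 := h1 2
    simp only [f, Polynomial.coeff_add, Polynomial.coeff_C_mul, Polynomial.coeff_C, Polynomial.coeff_X,
      Polynomial.coeff_X_pow] at e0 e1 e2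
    norm_num at e0 e1 e2
    funext k
    fin_cases k
    · exact e0
    · exact e1
    · exact e2
  have hF : ∏ c, f c ≠ 0 := Finset.prod_ne_zero_iff.mpr fun c _ => hf c
  by_contra hcon
  push Not at hcon
  apply hF
  apply Polynomial.funext
  intro t
  obtain ⟨c, hc⟩ := hcon t
  rw [Polynomial.eval_prod, Polynomial.eval_zero]
  apply Finset.prod_eq_zero (Finset.mem_univ c)
  simp only [f, Polynomial.eval_add, Polynomial.eval_mul, Polynomial.eval_C, Polynomial.eval_X, Polynomial.eval_pow]
  exact hc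

/-- the linear form `b x + e y` -/
noncomputable def a20_phi (b e : ℝ) : EuclideanSpace ℝ (Fin 2) →ₗ[ℝ] ℝ where
  toFun z := b * z 0 + e * z 1
  map_add' x y := by
    simp only [PiLp.add_apply]
    ring
  map_smul' r x := by
    simp only [PiLp.smul_apply, smul_eq_mul, RingHom.id_apply]
    ring

theorem a20_phi_apply (b e : ℝ) (z : EuclideanSpace ℝ (Fin 2)) : a20_phi b e z = b * z 0 + e * z 1 := rfl

theorem a20_finrank (b e : ℝ) (h : b ≠ 0 ∨ e ≠ 0) : Module.finrank ℝ (LinearMap.ker (a20_phi b e)) = 1 := by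
  have hsurj : Function.Surjective (a20_phi b e) := by
    have hne : a20_phi b e ≠ 0 := by
      intro h0
      rcases h with h | h
      · apply h
        have h1 := congrArg (fun f => f (EuclideanSpace.single (0 : Fin 2) (1 : ℝ))) h0
        simp only [a20_phi_apply, LinearMap.zero_apply] at h1
        simpa using h1
      · apply h
        have h1 := congrArg (fun f => f (EuclideanSpace.single (1 : Fin 2) (1 : ℝ))) h0
        simp only [a20_phi_apply, LinearMap.zero_apply] at h1
        simpa using h1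
    exact LinearMap.surjective hne
  have h1 := LinearMap.finrank_range_add_finrank_ker (a20_phi b e)
  rw [LinearMap.range_eq_top.mpr hsurj, finrank_top, Module.finrank_self, finrank_euclideanSpace_fin] at h1
  omega

theorem realize {n : ℕ} (C : Cfg n) (hn : 4 ≤ n) (h : RealZ n C.mat) : C.RatRealizable := by
  classical
  obtain ⟨p', q', hpq'⟩ := h
  -- integer vectors indexed by `Fin n`
  let p : Fin n → Fin 3 → ℤ := fun c a => p' c a
  let q : Fin n → Fin 3 → ℤ := fun i a => q' i a
  have hpq : ∀ i c : Fin n, p c 0 * q i 0 + p c 1 * q i 1 + p c 2 * q i 2 = 0 ↔ c ∈ C.line i := by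
    intro i c
    rw [← a20_mat]
    exact hpq' i i.2 c c.2
  have hp : ∀ c, p c ≠ 0 := by
    intro c h0
    have h1 : ∀ i, c ∈ C.line i := by
      intro i
      rw [← hpq i c, h0]
      simp
    have h2 := C.card_point c
    rw [Finset.filter_true_of_mem (fun i _ => h1 i), Finset.card_univ, Fintype.card_fin] at h2
    omega
  obtain ⟨t, ht⟩ := a20_exists_t p hp
  let d : Fin n → ℝ := fun c => p c 0 + p c 1 * t + p c 2 * t ^ 2
  have hd : ∀ c, d c ≠ 0 := by
    intro c h0
    apply ht c
    have h1 : ((p c 0 + p c 1 * t + p c 2 * t ^ 2 : ℤ) : ℝ) = 0 := by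
      push_cast
      exact h0
    exact_mod_cast h1
  let P : Fin n → EuclideanSpace ℝ (Fin 2) := fun c => !₂[(p c 1 : ℝ) / d c, (p c 2 : ℝ) / d c]
  have hP0 : ∀ c, P c 0 = (p c 1 : ℝ) / d c := fun c => rfl
  have hP1 : ∀ c, P c 1 = (p c 2 : ℝ) / d c := fun c => rfl
  let a : Fin n → ℝ := fun i => q i 0
  let b : Fin n → ℝ := fun i => q i 1 - t * q i 0
  let e : Fin n → ℝ := fun i => q i 2 - t ^ 2 * q i 0
  have hval : ∀ i c, (a i + a20_phi (b i) (e i) (P c)) * d c =
      ((p c 0 * q i 0 + p c 1 * q i 1 + p c 2 * q i 2 : ℤ) : ℝ) := by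
    intro i c
    rw [a20_phi_apply, hP0, hP1]
    have h1 : (p c 1 : ℝ) / d c * d c = p c 1 := div_mul_cancel₀ _ (hd c)
    have h2 : (p c 2 : ℝ) / d c * d c = p c 2 := div_mul_cancel₀ _ (hd c)
    have h3 : (a i + (b i * ((p c 1 : ℝ) / d c) + e i * ((p c 2 : ℝ) / d c))) * d c =
        a i * d c + b i * ((p c 1 : ℝ) / d c * d c) + e i * ((p c 2 : ℝ) / d c * d c) := by ring
    rw [h3, h1, h2]
    simp only [a, b, e, d]
    push_cast
    ring
  have hinc : ∀ i c, a i + a20_phi (b i) (e i) (P c) = 0 ↔ c ∈ C.line i := by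
    intro i c
    rw [← hpq i c]
    constructor
    · intro h0
      have h1 := hval i c
      rw [h0, zero_mul] at h1
      exact_mod_cast h1.symm
    · intro h0
      have h1 := hval i c
      rw [h0, Int.cast_zero] at h1
      exact (mul_eq_zero.mp h1).resolve_right (hd c)
  have hne : ∀ i, b i ≠ 0 ∨ e i ≠ 0 := by
    intro i
    by_contra hcon
    push Not at hcon
    have hz : ∀ c, a20_phi (b i) (e i) (P c) = 0 := by
      intro c
      rw [a20_phi_apply, hcon.1, hcon.2, zero_mul, zero_mul, add_zero]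
    have hl : (C.line i).Nonempty := by
      rw [← Finset.card_pos, C.card_line i]
      norm_num
    obtain ⟨c₀, hc₀⟩ := hl
    have ha : a i = 0 := by
      have h1 := (hinc i c₀).mpr hc₀
      rwa [hz, add_zero] at h1
    have hall : ∀ c, c ∈ C.line i := by
      intro c
      rw [← hinc i c, hz, ha, add_zero]
    have h2 := C.card_line i
    rw [(Finset.eq_univ_iff_forall.mpr hall), Finset.card_univ, Fintype.card_fin] at h2
    omega
  have hpt : ∀ i, ∃ c, c ∈ C.line i := by
    intro i
    have hl : (C.line i).Nonempty := by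
      rw [← Finset.card_pos, C.card_line i]
      norm_num
    exact hl
  choose c₀ hc₀ using hpt
  let ℓ : Fin n → AffineSubspace ℝ (EuclideanSpace ℝ (Fin 2)) := fun i =>
    AffineSubspace.mk' (P (c₀ i)) (LinearMap.ker (a20_phi (b i) (e i)))
  have hmem : ∀ i j, P i ∈ ℓ j ↔ i ∈ C.line j := by
    intro i j
    show P i ∈ AffineSubspace.mk' (P (c₀ j)) (LinearMap.ker (a20_phi (b j) (e j))) ↔ _
    rw [AffineSubspace.mem_mk', LinearMap.mem_ker, vsub_eq_sub, map_sub, sub_eq_zero, ← hinc j i]
    have h1 := (hinc j (c₀ j)).mpr (hc₀ j)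
    constructor
    · intro h2
      rw [h2]
      exact h1
    · intro h2
      linarith
  refine ⟨P, ℓ, ?_, ?_, ?_, hmem, ?_⟩
  · intro c c' hcc
    by_contra hne'
    have h1 : ∀ j, c ∈ C.line j ↔ c' ∈ C.line j := by
      intro j
      rw [← hmem c j, ← hmem c' j, hcc]
    have h2 := C.inter c c' hne'
    have h3 : (univ.filter (fun j => c ∈ C.line j ∧ c' ∈ C.line j)) = univ.filter (fun j => c ∈ C.line j) := by
      apply Finset.filter_congr
      intro j _
      constructor
      · exact fun h => h.1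
      · exact fun h => ⟨h, (h1 j).mp h⟩
    rw [h3, C.card_point c] at h2
    omega
  · intro j j' hjj
    by_contra hne'
    have h1 : C.line j = C.line j' := by
      ext c
      rw [← hmem c j, ← hmem c j', hjj]
    have h2 : 1 < (C.line j).card := by
      rw [C.card_line j]
      norm_num
    obtain ⟨c, hc, c', hc', hcc⟩ := Finset.one_lt_card.mp h2
    have h3 := C.inter c c' hcc
    have h4 : 1 < (univ.filter (fun i => c ∈ C.line i ∧ c' ∈ C.line i)).card := by
      rw [Finset.one_lt_card]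
      refine ⟨j, ?_, j', ?_, hne'⟩
      · exact Finset.mem_filter.mpr ⟨Finset.mem_univ _, hc, hc'⟩
      · exact Finset.mem_filter.mpr ⟨Finset.mem_univ _, h1 ▸ hc, h1 ▸ hc'⟩
    omega
  · intro j
    show Module.finrank ℝ (AffineSubspace.mk' (P (c₀ j)) (LinearMap.ker (a20_phi (b j) (e j)))).direction = 1
    rw [AffineSubspace.direction_mk']
    exact a20_finrank _ _ (hne j)
  · intro c k
    have hdq : d c = (((p c 0 : ℚ) + p c 1 * t + p c 2 * t ^ 2 : ℚ) : ℝ) := by
      simp only [d]
      push_cast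
      ring
    fin_cases k
    · refine ⟨(p c 1 : ℚ) / ((p c 0 : ℚ) + p c 1 * t + p c 2 * t ^ 2), ?_⟩
      show (p c 1 : ℝ) / d c = _
      rw [hdq]
      push_cast
      ring
    · refine ⟨(p c 2 : ℚ) / ((p c 0 : ℚ) + p c 1 * t + p c 2 * t ^ 2), ?_⟩
      show (p c 2 : ℝ) / d c = _
      rw [hdq]
      push_cast
      ring

end Pool.Agent.N3
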