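import Pool.Agent.Lib.MP_f3f345_co.Cfg
import Pool.Agent.Lib.MP_f3f345_co.Def
import Pool.Agent.Lib.MP_f3f345_co.Tool

/-! # Isomorphism from equivalence of matrices, self-duality of the exceptional configurations -/
namespace Pool.Agent.N3

open Finset

/-- restriction of a permutation to an initial segment -/
def a21_res {n : ℕ} (σ : Equiv.Perm ℕ) (h : ∀ i, σ i < n ↔ i < n) : Equiv.Perm (Fin n) where
  toFun i := ⟨σ i, (h i).2 i.2⟩
  invFun i := ⟨σ.symm i, by
    have := h (σ.symm i); rw [Equiv.apply_symm_apply] at this; exact this.1 i.2⟩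
  left_inv i := by ext; simp
  right_inv i := by ext; simp

theorem a21_mat {n : ℕ} (C : Cfg n) (i c : ℕ) (hi : i < n) (hc : c < n) :
    C.mat i c = 1 ↔ (⟨c, hc⟩ : Fin n) ∈ C.line ⟨i, hi⟩ := by
  unfold Cfg.mat
  rw [dif_pos ⟨hi, hc⟩]
  split_ifs with h
  · simp [h]
  · simp [h]

/-- a self-dual configuration absorbs the transposed case of `Eqv` -/
theorem iso_of_eqv {n : ℕ} (D C : Cfg n) (s t : Equiv.Perm (Fin n))
    (hst : ∀ p j : Fin n, p ∈ D.line j ↔ t j ∈ D.line (s p)) (h : Eqv n D.mat C.mat) : C.Iso D := by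
  obtain ⟨σ, τ, hσ, hτ, h | h⟩ := h
  · refine ⟨a21_res τ hτ, a21_res σ hσ, ?_⟩
    intro c i
    have h1 := h i c
    have h2 := a21_mat C i c i.2 c.2
    have h3 := a21_mat D (σ i) (τ c) ((hσ i).2 i.2) ((hτ c).2 c.2)
    rw [h1] at h2
    exact h2.symm.trans h3
  · refine ⟨(a21_res σ hσ).trans s.symm, (a21_res τ hτ).trans t.symm, ?_⟩
    intro c i
    have h1 := h i c
    have h2 := a21_mat C i c i.2 c.2
    have h3 := a21_mat D (σ c) (τ i) ((hσ c).2 c.2) ((hτ i).2 i.2)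
    rw [h1] at h2
    have h4 := hst (s.symm (a21_res σ hσ c)) (t.symm (a21_res τ hτ i))
    rw [Equiv.apply_symm_apply, Equiv.apply_symm_apply] at h4
    exact (h2.symm.trans h3).trans h4.symm

def tenS : Equiv.Perm (Fin 10) where
  toFun := ![0, 1, 5, 3, 2, 4, 6, 7, 8, 9]
  invFun := ![0, 1, 4, 3, 5, 2, 6, 7, 8, 9]
  left_inv := by decide
  right_inv := by decide

def tenT : Equiv.Perm (Fin 10) where
  toFun := ![0, 1, 4, 3, 5, 2, 6, 7, 8, 9]
  invFun := ![0, 1, 5, 3, 2, 4, 6, 7, 8, 9]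
  left_inv := by decide
  right_inv := by decide

theorem ten_dual : ∀ p j : Fin 10, p ∈ ten.line j ↔ tenT j ∈ ten.line (tenS p) := by
  decide +kernel

def fanoS : Equiv.Perm (Fin 7) where
  toFun := ![0, 1, 3, 6, 5, 4, 2]
  invFun := ![0, 1, 6, 2, 5, 4, 3]
  left_inv := by decide
  right_inv := by decide

def fanoT : Equiv.Perm (Fin 7) where
  toFun := ![0, 1, 6, 2, 5, 4, 3]
  invFun := ![0, 1, 3, 6, 5, 4, 2]
  left_inv := by decide
  right_inv := by decide

theorem fano_dual : ∀ p j : Fin 7, p ∈ fano.line j ↔ fanoT j ∈ fano.line (fanoS p) := by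
  decide +kernel

def mkS : Equiv.Perm (Fin 8) where
  toFun := ![0, 1, 3, 5, 2, 4, 6, 7]
  invFun := ![0, 1, 4, 2, 5, 3, 6, 7]
  left_inv := by decide
  right_inv := by decide

def mkT : Equiv.Perm (Fin 8) where
  toFun := ![0, 1, 4, 2, 5, 3, 6, 7]
  invFun := ![0, 1, 3, 5, 2, 4, 6, 7]
  left_inv := by decide
  right_inv := by decide

theorem mk_dual : ∀ p j : Fin 8, p ∈ mobiusKantor.line j ↔ mkT j ∈ mobiusKantor.line (mkS p) := by
  decide +kernel

end Pool.Agent.N3
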