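import Pool.Agent.Lib.MP_f3f345_co.Cfg
import Pool.Agent.Lib.MP_f3f345_co.Def
import Pool.Agent.Lib.MP_f3f345_co.Tool

/-! # Row A22 -/
namespace Pool.Agent.N3

open Finset

theorem a22_msk_S (n : ℕ) (I : ℕ → ℕ → ℕ) (i : ℕ) : msk n I i = S 5 n (I i) := rfl

theorem a22_msk_lt {n : ℕ} {I : ℕ → ℕ → ℕ} (hI : Mx n I) (i : ℕ) : msk n I i < 2 ^ 80 := by
  have h1 : msk n I i < 2 ^ (5 * n) := by
    rw [a22_msk_S]
    apply S_lt
    intro m _
    have := hI.le1 i m
    omega
  have h2 : 2 ^ (5 * n) ≤ 2 ^ 80 := Nat.pow_le_pow_right (by norm_num) (by have := hI.n15; omega)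
  omega

theorem a22_enc_lt {n : ℕ} {I : ℕ → ℕ → ℕ} (hI : Mx n I) (k : ℕ) : enc n I k < 2 ^ (80 * k) := by
  induction k with
  | zero => simp [enc]
  | succ k ih =>
    rw [enc, Nat.mul_succ, pow_add]
    have h2 := a22_msk_lt hI k
    calc enc n I k * 2 ^ 80 + msk n I k < enc n I k * 2 ^ 80 + 2 ^ 80 := by omega
      _ = (enc n I k + 1) * 2 ^ 80 := by ring
      _ ≤ 2 ^ (80 * k) * 2 ^ 80 := Nat.mul_le_mul_right _ ih

theorem a22_msk0 {n : ℕ} {I : ℕ → ℕ → ℕ} (hI : Mx n I) : 1 ≤ msk n I 0 := by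
  have hn := hI.n3
  have h3 := hI.row 0 (by omega)
  by_contra hc
  have h0 : msk n I 0 = 0 := by omega
  have : ∑ c ∈ range n, I 0 c = 0 := by
    apply sum_eq_zero
    intro c hc'
    rw [msk, sum_eq_zero_iff] at h0
    have := h0 c hc'
    rcases Nat.mul_eq_zero.1 this with h | h
    · exact h
    · exact absurd h (Nat.two_pow_pos _).ne'
  omega

theorem a22_enc_ge {n : ℕ} {I : ℕ → ℕ → ℕ} (hI : Mx n I) (k : ℕ) : 2 ^ (80 * k) ≤ enc n I (k + 1) := by
  induction k with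
  | zero =>
    rw [enc, enc]
    have := a22_msk0 hI
    simpa using this
  | succ k ih =>
    rw [enc, Nat.mul_succ, pow_add]
    calc 2 ^ (80 * k) * 2 ^ 80 ≤ enc n I (k + 1) * 2 ^ 80 := Nat.mul_le_mul_right _ ih
      _ ≤ _ := Nat.le_add_right _ _

theorem a22_digits {n : ℕ} {I J : ℕ → ℕ → ℕ} (hI : Mx n I) (hJ : Mx n J) (k : ℕ)
    (h : enc n I k = enc n J k) : ∀ i < k, msk n I i = msk n J i := by
  induction k with
  | zero => intro i hi; omega
  | succ k ih =>
    rw [enc, enc] at h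
    have h1 := a22_msk_lt hI k
    have h2 := a22_msk_lt hJ k
    have h3 : enc n I k = enc n J k := by omega
    have h4 : msk n I k = msk n J k := by omega
    intro i hi
    rcases Nat.lt_succ_iff_lt_or_eq.1 hi with h5 | h5
    · exact ih h3 i h5
    · rw [h5]; exact h4

theorem enc_inj {n k : ℕ} {I J : ℕ → ℕ → ℕ} (hI : Mx n I) (hJ : Mx n J) (hk : k ≤ n)
    (h : enc n I k = enc n J n) : I = J := by
  have hn := hI.n3
  have hkn : k = n := by
    by_contra hne
    have hlt : k ≤ n - 1 := by omega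
    have h1 := a22_enc_lt hI k
    have h2 := a22_enc_ge hJ (n - 1)
    have h3 : n - 1 + 1 = n := by omega
    rw [h3] at h2
    have h4 : 2 ^ (80 * k) ≤ 2 ^ (80 * (n - 1)) := Nat.pow_le_pow_right (by norm_num) (by omega)
    omega
  subst hkn
  have hd := a22_digits hI hJ k h
  funext i c
  by_cases hic : i < k ∧ c < k
  · have h5 := hd i hic.1
    rw [a22_msk_S, a22_msk_S] at h5
    exact S_inj (fun m _ => by have := hI.le1 i m; omega) (fun m _ => by have := hJ.le1 i m; omega) h5 c hic.2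
  · have h6 : k ≤ i ∨ k ≤ c := by omega
    rw [hI.out i c h6, hJ.out i c h6]

end Pool.Agent.N3
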