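import Pool.Agent.Lib.MP_f3f345_co.I0

/-! # Row B01 -/
namespace Pool.Agent.N3

open Finset

theorem b01_msk_eq (n : ℕ) (I : ℕ → ℕ → ℕ) (k : ℕ) : msk n I k = S 5 n (I k) := rfl

theorem b01_spread {n k : ℕ} {I : ℕ → ℕ → ℕ} (hI : Mx n I) :
    spread (KK n) (msk n I k) = sprM n I k := by
  have hlt : ∀ m < n, I k m < 2 ^ 5 := fun m _ => by have := hI.le1 k m; omega
  have h75 : msk n I k < 2 ^ 75 := by
    rw [b01_msk_eq]
    refine (S_lt hlt).trans_le ?_
    apply Nat.pow_le_pow_right (by norm_num)
    have := hI.n15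
    omega
  rw [spread_eq hI.n15 h75]
  unfold sprM
  apply sum_congr rfl
  intro c hc
  have hc' := mem_range.1 hc
  have h1 := S_testBit' (b := 5) (N := n) (f := I k) hlt c 0 (by norm_num)
  rw [Nat.add_zero] at h1
  rw [b01_msk_eq, h1]
  have h2 := hI.le1 k c
  interval_cases h3 : I k c
  · simp
  · simp [hc']

theorem b01_co_le {n k x y : ℕ} {I : ℕ → ℕ → ℕ} (hI : Mx n I) (hxy : x ≠ y) :
    co I k x y ≤ 1 := by
  unfold co
  by_cases h : ∃ i ∈ range k, I i x = 1 ∧ I i y = 1
  · obtain ⟨i, hi, hix, hiy⟩ := h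
    rw [sum_eq_single_of_mem i hi]
    · rw [hix, hiy]
    · intro j hj hji
      have h1 := hI.le1 j x
      have h2 := hI.le1 j y
      by_contra hcon
      have h3 : I j x = 1 := by
        rcases Nat.eq_zero_or_pos (I j x) with h | h
        · exact absurd (by rw [h, Nat.zero_mul]) hcon
        · omega
      have h4 : I j y = 1 := by
        rcases Nat.eq_zero_or_pos (I j y) with h | h
        · exact absurd (by rw [h, Nat.mul_zero]) hcon
        · omega
      rcases hI.lin j i x y h3 h4 hix hiy with h5 | h5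
      · exact hji h5
      · exact hxy h5
  · rw [sum_eq_zero]
    · omega
    · intro j hj
      have h1 := hI.le1 j x
      have h2 := hI.le1 j y
      by_contra hcon
      apply h
      refine ⟨j, hj, ?_, ?_⟩
      · rcases Nat.eq_zero_or_pos (I j x) with h | h
        · exact absurd (by rw [h, Nat.zero_mul]) hcon
        · omega
      · rcases Nat.eq_zero_or_pos (I j y) with h | h
        · exact absurd (by rw [h, Nat.mul_zero]) hcon
        · omega

theorem b01_deg_le {n k c : ℕ} {I : ℕ → ℕ → ℕ} (hI : Mx n I) (hk : k ≤ n) (hc : c < n) :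
    deg I k c ≤ 3 := by
  rw [← hI.col c hc]
  exact Finset.sum_le_sum_of_subset (Finset.range_mono hk)

theorem gM_succ {n k : ℕ} {I : ℕ → ℕ → ℕ} (hI : Mx n I) (hk : k < n) :
    gM n I k - outer (KK n) (msk n I k) = gM n I (k + 1) := by
  have h1 : outer (KK n) (msk n I k) =
      ∑ x ∈ range n, ∑ y ∈ range n, (I k x * I k y) * 2 ^ (80 * x + 5 * y) := by
    have h2 : outer (KK n) (msk n I k) = spread (KK n) (msk n I k) * msk n I k := rfl
    rw [h2, b01_spread hI]
    unfold sprM msk
    rw [sum_mul_sum]
    apply sum_congr rfl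
    intro x _
    apply sum_congr rfl
    intro y _
    rw [pow_add]
    ring
  have h3 : gM n I k = gM n I (k + 1) + outer (KK n) (msk n I k) := by
    rw [h1]
    unfold gM
    rw [← sum_add_distrib]
    apply sum_congr rfl
    intro x hx
    rw [← sum_add_distrib]
    apply sum_congr rfl
    intro y hy
    rw [← Nat.add_mul]
    congr 1
    have hx' := mem_range.1 hx
    split_ifs with hxy
    · subst hxy
      have h4 : deg I (k + 1) x = deg I k x + I k x := sum_range_succ _ _
      have h5 := b01_deg_le hI (by omega : k + 1 ≤ n) hx'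
      have h6 := hI.le1 k x
      have h7 : I k x * I k x = I k x := by
        interval_cases h8 : I k x <;> rfl
      rw [h7]
      omega
    · have h4 : co I (k + 1) x y = co I k x y + I k x * I k y := sum_range_succ _ _
      have h5 := b01_co_le (k := k + 1) hI hxy
      omega
  omega

theorem fM_succ {n k : ℕ} {I : ℕ → ℕ → ℕ} (hI : Mx n I) (hk : k < n) :
    addF (fM n I k) (msk n I k) = fM n I (k + 1) := by
  set f : ℕ → ℕ := fun c => if deg I k c = 0 then 1 else 0 with hf
  have h0 : addF (fM n I k) (msk n I k) = S 5 n f - (S 5 n f &&& S 5 n (I k)) := rfl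
  have hf1 : ∀ m, f m ≤ 1 := by
    intro m
    simp only [hf]
    split_ifs <;> omega
  rw [h0, S_land (by norm_num) (fun m _ => by have := hf1 m; omega)
    (fun m _ => by have := hI.le1 k m; omega), S_sub (fun m _ => Nat.and_le_left)]
  apply S_congr
  intro m _
  have h4 : deg I (k + 1) m = deg I k m + I k m := sum_range_succ _ _
  have h6 := hI.le1 k m
  simp only [hf]
  rw [h4]
  interval_cases h7 : I k m
  · simp
  · split_ifs with h8 h9
    · omega
    · simp
    · omega
    · simp

theorem wM_succ {n k : ℕ} {I : ℕ → ℕ → ℕ} (hI : Mx n I) (hk : k < n) :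
    addW (KK n) (wM n I k) (msk n I k) = wM n I (k + 1) := by
  have h0 : addW (KK n) (wM n I k) (msk n I k) =
    wM n I k <<< 2320 + spread (KK n) (msk n I k) := rfl
  rw [h0, b01_spread hI, Nat.shiftLeft_eq]
  rfl

end Pool.Agent.N3
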