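import Pool.Agent.Lib.MP_f3f345_co.I0

/-! B02 -/
namespace Pool.Agent.N3

open Finset

theorem b02_tb (P : Prop) [Decidable P] (r : ℕ) :
    (if P then 1 else 0 : ℕ).testBit r = (decide P && decide (r = 0)) := by
  by_cases hP : P
  · by_cases hr : r = 0
    · subst hr
      simp [hP]
    · have : (1 : ℕ).testBit r = false := by
        have h1 : (1 : ℕ) = 2 ^ 0 := rfl
        rw [h1, Nat.testBit_two_pow]
        simpa using fun h => hr h.symm
      simp [hP, hr, this]
  · simp [hP]

theorem b02_co_le {n : ℕ} {I : ℕ → ℕ → ℕ} (hI : Mx n I) (k x y : ℕ) : co I k x y ≤ deg I k y := by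
  refine Finset.sum_le_sum fun i _ => ?_
  calc I i x * I i y ≤ 1 * I i y := Nat.mul_le_mul_right _ (hI.le1 i x)
    _ = I i y := one_mul _

/-- digits of `gM` -/
def b02_g (I : ℕ → ℕ → ℕ) (k x y : ℕ) : ℕ := if x = y then 18 - deg I k x else 1 - co I k x y

theorem b02_g_lt (I : ℕ → ℕ → ℕ) (k x y : ℕ) : b02_g I k x y < 2 ^ 5 := by
  rw [b02_g]
  split_ifs <;> omega

theorem b02_gM (n : ℕ) (I : ℕ → ℕ → ℕ) (k : ℕ) :
    gM n I k = S 80 n (fun x => S 5 n (b02_g I k x)) := by
  rw [gM, S]
  refine Finset.sum_congr rfl fun x _ => ?_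
  rw [S, Finset.sum_mul]
  refine Finset.sum_congr rfl fun y _ => ?_
  rw [b02_g, pow_add]
  ring

theorem b02_gM_bit {n : ℕ} (hn : n ≤ 15) (I : ℕ → ℕ → ℕ) (k : ℕ) {x y : ℕ} (hx : x < n)
    (hy : y < n) : (gM n I k).testBit (80 * x + 5 * y) = (b02_g I k x y).testBit 0 := by
  have h1 : ∀ m < n, S 5 n (b02_g I k m) < 2 ^ 80 := by
    intro m _
    refine lt_of_lt_of_le (S_lt fun j _ => b02_g_lt I k m j) ?_
    exact Nat.pow_le_pow_right (by norm_num) (by omega)
  rw [b02_gM, S_testBit' h1 x (5 * y) (by omega)]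
  have h2 := S_testBit' (b := 5) (N := n) (f := b02_g I k x) (fun j _ => b02_g_lt I k x j) y 0
    (by norm_num)
  rw [add_zero] at h2
  rw [h2]
  simp [hx, hy]

/-- the candidate set -/
def b02_C (I : ℕ → ℕ → ℕ) (k h f c : ℕ) : ℕ :=
  (if deg I k c < 3 ∧ co I k h c = 0 then 1 else 0) - (if c + 1 < f then 1 else 0)

theorem b02_A {n k h : ℕ} {I : ℕ → ℕ → ℕ} (hI : Mx n I) (hh : h < n) :
    Nat.land (Nat.mod (uM n I k) (Nat.pow 32 h)) (Nat.shiftRight (gM n I k) (Nat.mul 80 h)) =
      S 5 h (fun c => if deg I k c < 3 ∧ co I k h c = 0 then 1 else 0) := by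
  have hn := hI.n15
  have hU : uM n I k = S 5 n (fun c => if deg I k c < 3 then 1 else 0) := rfl
  have h32 : Nat.pow 32 h = 2 ^ (5 * h) := by
    rw [pow_mul]; rfl
  change (uM n I k % Nat.pow 32 h) &&& (gM n I k >>> (80 * h)) = _
  rw [h32]
  apply Nat.eq_of_testBit_eq
  intro p
  rw [Nat.testBit_and, Nat.testBit_mod_two_pow, Nat.testBit_shiftRight, hU,
    S_testBit (by norm_num) (fun m _ => by split_ifs <;> norm_num),
    S_testBit (by norm_num) (fun m _ => by split_ifs <;> norm_num), b02_tb, b02_tb]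
  obtain ⟨c, r, hr, hp⟩ : ∃ c r, r < 5 ∧ p = 5 * c + r := ⟨p / 5, p % 5, Nat.mod_lt _ (by norm_num),
    (Nat.div_add_mod p 5).symm⟩
  have hpc : p / 5 = c := by omega
  have hpr : p % 5 = r := by omega
  rw [hpc, hpr]
  by_cases hr0 : r = 0
  · subst hr0
    by_cases hc : c < h
    · have hcn : c < n := by omega
      have hp1 : p < 5 * h := by omega
      have hb : (gM n I k).testBit (80 * h + p) = decide (co I k h c = 0) := by
        have : 80 * h + p = 80 * h + 5 * c := by omega
        rw [this, b02_gM_bit hn I k hh hcn, b02_g, if_neg (by omega)]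
        by_cases h0 : co I k h c = 0
        · simp [h0]
        · have : 1 - co I k h c = 0 := by omega
          simp [h0, this]
      rw [hb]
      simp [hc, hcn, hp1]
    · have hp1 : ¬ p < 5 * h := by omega
      simp [hc, hp1]
  · simp [hr0]

theorem b02_F {n k h f : ℕ} {I : ℕ → ℕ → ℕ} (hh : h < n)
    (hF : ∀ c < n, deg I k c = 0 ↔ c < f) (hfh : f ≤ h) :
    fM n I k = S 5 n (fun c => if c < f then 1 else 0) ∧
    Nat.shiftRight (fM n I k) 5 = S 5 h (fun c => if c + 1 < f then 1 else 0) := by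
  have h0 : fM n I k = S 5 n (fun c => if c < f then 1 else 0) := by
    have h1 : fM n I k = S 5 n (fun c => if deg I k c = 0 then 1 else 0) := rfl
    rw [h1]
    refine S_congr fun c hc => ?_
    simp only [hF c hc]
  refine ⟨h0, ?_⟩
  change fM n I k >>> 5 = _
  rw [Nat.shiftRight_eq_div_pow, h0]
  have h2 := S_div (b := 5) (N := n) (f := fun c => if c < f then 1 else 0)
    (fun m _ => by split_ifs <;> norm_num) 1
  rw [Nat.mul_one] at h2
  rw [h2]
  have h3 : n - 1 = h + (n - 1 - h) := by omega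
  rw [h3, S, S, Finset.sum_range_add]
  have h4 : ∑ i ∈ range (n - 1 - h), (if h + i + 1 < f then 1 else 0) * 2 ^ (5 * (h + i)) = 0 := by
    refine Finset.sum_eq_zero fun i _ => ?_
    rw [if_neg (by omega), zero_mul]
  rw [h4, add_zero]

theorem b02_cand {n k h f : ℕ} {I : ℕ → ℕ → ℕ} (hI : Mx n I) (hh : h < n)
    (hF : ∀ c < n, deg I k c = 0 ↔ c < f) (hfh : f ≤ h) :
    cand (gM n I k) (uM n I k) h (fM n I k) = S 5 h (b02_C I k h f) := by
  rw [cand, b02_A hI hh, (b02_F hh hF hfh).2]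
  change S 5 h _ - S 5 h _ = _
  rw [S_sub]
  · rfl
  · intro m hm
    by_cases h1 : m + 1 < f
    · have h2 : deg I k m = 0 := (hF m (by omega)).2 (by omega)
      have h3 : co I k h m = 0 := by
        have := b02_co_le hI k h m
        omega
      rw [if_pos h1, if_pos ⟨by omega, h3⟩]
    · rw [if_neg h1]
      exact Nat.zero_le _

theorem b02_C_le (I : ℕ → ℕ → ℕ) (k h f c : ℕ) : b02_C I k h f c ≤ 1 := by
  rw [b02_C]
  split_ifs <;> omega

theorem b02_lt_bit {n : ℕ} (hn : n ≤ 15) (p : ℕ) :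
    (KK n).lt.testBit p = true ↔ ∃ x y, y < x ∧ x < n ∧ 80 * x + 5 * y = p := by
  change (∑ x ∈ range n, ∑ y ∈ range x, 2 ^ (80 * x + 5 * y)).testBit p = true ↔ _
  rw [Finset.sum_sigma', testBit_sum_pow]
  · constructor
    · rintro ⟨⟨x, y⟩, hxy, hp⟩
      simp only [mem_sigma, mem_range] at hxy
      exact ⟨x, y, hxy.2, hxy.1, hp⟩
    · rintro ⟨x, y, hy, hx, hp⟩
      exact ⟨⟨x, y⟩, by simp only [mem_sigma, mem_range]; exact ⟨hx, hy⟩, hp⟩
  · rintro ⟨x, y⟩ hxy ⟨x', y'⟩ hxy' he
    simp only [mem_sigma, mem_range] at hxy hxy' he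
    have h1 : x = x' := by omega
    have h2 : y = y' := by omega
    subst h1
    subst h2
    rfl

theorem b02_T2 {n f : ℕ} (hn : f ≤ n) :
    Nat.shiftRight (Nat.pow (Nat.add (Nat.mul 31 (S 5 n (fun c => if c < f then 1 else 0))) 1) 17) 90 =
      if 2 ≤ f then 2 ^ (80 * (f - 1) + 5 * (f - 2)) else 0 := by
  have h1 : ∀ m ≤ n, 31 * S 5 m (fun c => if c < f then 1 else 0) + 1 = 2 ^ (5 * min m f) := by
    intro m hm
    induction m with
    | zero => simp [S]
    | succ m ih =>
      have ih' := ih (by omega)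
      rw [S_succ]
      by_cases h2 : m < f
      · rw [if_pos h2, one_mul]
        rw [Nat.min_eq_left (by omega)] at ih' ⊢
        have h3 : 2 ^ (5 * (m + 1)) = 32 * 2 ^ (5 * m) := by
          rw [Nat.mul_succ, pow_add]; ring
        rw [h3]
        omega
      · rw [if_neg h2, zero_mul, add_zero, ih', Nat.min_eq_right (by omega),
          Nat.min_eq_right (by omega)]
  have h2 : Nat.add (Nat.mul 31 (S 5 n (fun c => if c < f then 1 else 0))) 1 = 2 ^ (5 * f) := by
    have := h1 n le_rfl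
    rw [Nat.min_eq_right hn] at this
    exact this
  rw [h2]
  change (2 ^ (5 * f)) ^ 17 >>> 90 = _
  rw [Nat.shiftRight_eq_div_pow, ← pow_mul]
  by_cases h3 : 2 ≤ f
  · rw [if_pos h3, Nat.pow_div (by omega) (by norm_num)]
    congr 1
    omega
  · rw [if_neg h3]
    apply Nat.div_eq_of_lt
    exact Nat.pow_lt_pow_right (by norm_num) (by omega)

theorem amat_mem {n k h x y f v : ℕ} {I : ℕ → ℕ → ℕ} (hI : Mx n I) (hk : k < n) (hh : h < n)
    (hyx : y < x) (hxh : x < h) (ux : deg I k x < 3) (uy : deg I k y < 3)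
    (ahx : co I k h x = 0) (ahy : co I k h y = 0) (axy : co I k x y = 0)
    (hF : ∀ c < n, deg I k c = 0 ↔ c < f) (hfh : f ≤ h)
    (hfr : f ≤ y + 1 ∨ (x + 1 = f ∧ y + 2 = f)) (hv : 1280 * h + 80 * x + 5 * y < v) :
    (amat (KK n) (gM n I k) (uM n I k) h v (fM n I k)).testBit (80 * x + 5 * y) = true := by
  have hn := hI.n15
  have hC : ∀ m < h, b02_C I k h f m < 2 ^ 5 := fun m _ =>
    lt_of_le_of_lt (b02_C_le I k h f m) (by norm_num)
  have haC : ∀ c, (S 5 h (b02_C I k h f)).testBit (5 * c) =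
      (decide (c < h) && (b02_C I k h f c).testBit 0) := by
    intro c
    have h2 := S_testBit' hC c 0 (by norm_num)
    rwa [add_zero] at h2
  have ha75 : S 5 h (b02_C I k h f) < 2 ^ 75 :=
    lt_of_lt_of_le (S_lt hC) (Nat.pow_le_pow_right (by norm_num) (by omega))
  -- the bits of the product
  have hprod : ∀ x' y', x' < n → y' < n →
      ((spread (KK n) (S 5 h (b02_C I k h f))) * (S 5 h (b02_C I k h f))).testBit
        (80 * x' + 5 * y') =
      ((S 5 h (b02_C I k h f)).testBit (5 * x') && (S 5 h (b02_C I k h f)).testBit (5 * y')) := by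
    intro x' y' hx' hy'
    have h1 : (spread (KK n) (S 5 h (b02_C I k h f))) * (S 5 h (b02_C I k h f)) =
        S 80 n (fun c => (if (S 5 h (b02_C I k h f)).testBit (5 * c) = true then 1 else 0) *
          (S 5 h (b02_C I k h f))) := by
      rw [spread_eq hn ha75, S, Finset.sum_mul]
      refine Finset.sum_congr rfl fun c _ => ?_
      ring
    have h2 : ∀ m < n, (if (S 5 h (b02_C I k h f)).testBit (5 * m) = true then 1 else 0) *
        (S 5 h (b02_C I k h f)) < 2 ^ 80 := by
      intro m _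
      have : S 5 h (b02_C I k h f) < 2 ^ 80 := lt_trans ha75 (by norm_num)
      split_ifs
      · rwa [one_mul]
      · rw [zero_mul]; positivity
    rw [h1, S_testBit' h2 x' (5 * y') (by omega)]
    by_cases h3 : (S 5 h (b02_C I k h f)).testBit (5 * x') = true
    · rw [if_pos h3, one_mul, h3]
      simp [hx']
    · rw [if_neg h3, zero_mul]
      simp only [Bool.not_eq_true] at h3
      rw [h3]
      simp
  have hCbit : ∀ c, c < h → deg I k c < 3 → co I k h c = 0 → ¬ c + 1 < f →
      (S 5 h (b02_C I k h f)).testBit (5 * c) = true := by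
    intro c h1 h2 h3 h4
    rw [haC, b02_C, if_pos ⟨h2, h3⟩, if_neg h4]
    simp [h1]
  have hCbit' : ∀ c, c + 1 < f → (S 5 h (b02_C I k h f)).testBit (5 * c) = false := by
    intro c h1
    have h2 : b02_C I k h f c = 0 := by
      rw [b02_C, if_pos h1]
      split_ifs <;> rfl
    rw [haC, h2]
    simp
  rw [amat]
  change (sqm (KK n) (gM n I k) (fM n I k) (cand (gM n I k) (uM n I k) h (fM n I k)) %
    2 ^ (v - 1280 * h)).testBit (80 * x + 5 * y) = true
  rw [Nat.testBit_mod_two_pow, b02_cand hI hh hF hfh, sqm, (b02_F hh hF hfh).1,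
    b02_T2 (by omega : f ≤ n)]
  have hlt : 80 * x + 5 * y < v - 1280 * h := by omega
  rw [decide_eq_true hlt, Bool.true_and]
  change (((spread (KK n) (S 5 h (b02_C I k h f)) * (S 5 h (b02_C I k h f))) &&& (KK n).lt &&&
    gM n I k) + (if 2 ≤ f then 2 ^ (80 * (f - 1) + 5 * (f - 2)) else 0)).testBit
      (80 * x + 5 * y) = true
  rw [testBit_add_disj]
  · rw [Bool.or_eq_true]
    rcases hfr with h1 | ⟨h1, h2⟩
    · left
      have hg : (gM n I k).testBit (80 * x + 5 * y) = true := by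
        rw [b02_gM_bit hn I k (by omega) (by omega), b02_g, if_neg (by omega), axy]
        rfl
      have hl : (KK n).lt.testBit (80 * x + 5 * y) = true :=
        (b02_lt_bit hn _).2 ⟨x, y, hyx, by omega, rfl⟩
      rw [Nat.testBit_and, Nat.testBit_and, hprod x y (by omega) (by omega),
        hCbit x hxh ux ahx (by omega), hCbit y (by omega) uy ahy (by omega), hg, hl]
      rfl
    · right
      rw [if_pos (by omega), Nat.testBit_two_pow]
      simp only [decide_eq_true_eq]
      omega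
  · rintro p ⟨h1, h2⟩
    by_cases h3 : 2 ≤ f
    · rw [if_pos h3, Nat.testBit_two_pow, decide_eq_true_eq] at h2
      rw [Nat.testBit_and, Nat.testBit_and, Bool.and_eq_true, Bool.and_eq_true] at h1
      obtain ⟨x', y', hy', hx', hp⟩ := (b02_lt_bit hn p).1 h1.1.2
      have hx1 : x' = f - 1 := by omega
      have hy1 : y' = f - 2 := by omega
      have h4 := h1.1.1
      rw [← hp, hprod x' y' hx' (by omega), Bool.and_eq_true] at h4
      rw [hCbit' y' (by omega)] at h4
      exact absurd h4.2 (by simp)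
    · rw [if_neg h3] at h2
      simp at h2

end Pool.Agent.N3
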