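import Pool.Agent.Lib.MP_f3f345_co.I0

/-! # Row B03 -/
namespace Pool.Agent.N3

open Finset

theorem b03_rec {b c : Bool} (h : Bool.rec (motive := fun _ => Bool) false b c = true) :
    c = true ∧ b = true := by
  cases c
  · exact absurd h (by simp)
  · exact ⟨rfl, h⟩

/-- reversal of the first `n` numbers -/
def b03_rev (n : ℕ) : Equiv.Perm ℕ where
  toFun c := if c < n then n - 1 - c else c
  invFun c := if c < n then n - 1 - c else c
  left_inv c := by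
    by_cases h : c < n
    · simp only [h, if_true]
      rw [if_pos (by omega)]
      omega
    · simp only [h, if_false]
  right_inv c := by
    by_cases h : c < n
    · simp only [h, if_true]
      rw [if_pos (by omega)]
      omega
    · simp only [h, if_false]

theorem b03_rev_lt (n c : ℕ) (h : c < n) : b03_rev n c = n - 1 - c := if_pos h

theorem b03_rev_iff (n c : ℕ) : b03_rev n c < n ↔ c < n := by
  by_cases h : c < n
  · rw [b03_rev_lt n c h]
    omega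
  · have : b03_rev n c = c := if_neg h
    rw [this]

theorem b03_reidx (n : ℕ) (τ : Equiv.Perm ℕ) (hτ : ∀ i, τ i < n ↔ i < n) (f : ℕ → ℕ) :
    ∑ c ∈ range n, f c * 2 ^ (5 * τ c) = ∑ c ∈ range n, f (τ.symm c) * 2 ^ (5 * c) := by
  apply Finset.sum_equiv τ
  · intro i
    rw [mem_range, mem_range, hτ]
  · intro i _
    rw [Equiv.symm_apply_apply]

theorem b03_cmp {n P1 L : ℕ} (h : cmp1 (KK n) P1 L = true) :
    L / 2 ^ 80 = P1 / 2 ^ 80 ∧ P1 < L ∧ L % 2 ^ 80 < (P1 / 2 ^ 80) % 2 ^ 80 := by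
  have h1 : Bool.rec (motive := fun _ => Bool) false
    (Bool.rec (motive := fun _ => Bool) false
      (Nat.ble (Nat.succ (Nat.land L (KK n).m80)) (Nat.land (Nat.shiftRight P1 80) (KK n).m80))
      (Nat.ble (Nat.succ P1) L))
    (Nat.beq (Nat.shiftRight L 80) (Nat.shiftRight P1 80)) = true := h
  obtain ⟨h2, h3⟩ := b03_rec h1
  obtain ⟨h4, h5⟩ := b03_rec h3
  have h6 := Nat.eq_of_beq_eq_true h2
  have h7 := Nat.le_of_ble_eq_true h4
  have h8 := Nat.le_of_ble_eq_true h5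
  have e1 : Nat.shiftRight L 80 = L / 2 ^ 80 := Nat.shiftRight_eq_div_pow L 80
  have e2 : Nat.shiftRight P1 80 = P1 / 2 ^ 80 := Nat.shiftRight_eq_div_pow P1 80
  have e3 : ∀ x : ℕ, Nat.land x (KK n).m80 = x % 2 ^ 80 := fun x =>
    Nat.and_two_pow_sub_one_eq_mod x 80
  rw [e1, e2] at h6
  rw [e3, e3, e2] at h8
  exact ⟨h6, h7, h8⟩

theorem noncan_bits {n P t s e : ℕ} {a : ℕ → ℕ → ℕ} (hn3 : 3 ≤ n) (hn : n ≤ 15) (ha : ∀ r c, a r c ≤ 1)
    (ht : t < 2 ^ (5 * n)) (hs : s < 2 ^ (5 * n))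
    (h : noncan (KK n) P (wideS n a) t s e = true) :
    ∃ (τ : Equiv.Perm ℕ) (g : ℕ → ℕ), (∀ i, τ i < n ↔ i < n) ∧
      (let L := ∑ i ∈ range n, (if 1 ≤ g i ∧ g i ≤ n then ∑ c ∈ range n, a (g i - 1) c * 2 ^ (5 * τ c) else 0) *
          2 ^ (80 * i)
       L / 2 ^ 80 = P / 2 ^ (80 * e) / 2 ^ 80 ∧ P / 2 ^ (80 * e) < L ∧
        L % 2 ^ 80 < (P / 2 ^ (80 * e) / 2 ^ 80) % 2 ^ 80) := by
  have h1 : Bool.rec (motive := fun _ => Bool) false
    (cmp1 (KK n) (Nat.shiftRight P (Nat.mul 80 e))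
      (gath (KK n) (exA (KK n) s) (gath (KK n) (wideS n a) (exT (KK n) t))))
    (Nat.beq (Nat.mod (exT (KK n) t) (KK n).m80) (KK n).ones16) = true := h
  obtain ⟨h2, h3⟩ := b03_rec h1
  obtain ⟨τ', hτ', hT⟩ := exT_bits hn3 hn ht (Nat.eq_of_beq_eq_true h2)
  obtain ⟨g, hg⟩ := exA_bits hn3 hn hs
  have h4 := b03_cmp h3
  have e0 : Nat.shiftRight P (Nat.mul 80 e) = P / 2 ^ (80 * e) :=
    Nat.shiftRight_eq_div_pow P (80 * e)
  set τ : Equiv.Perm ℕ := (b03_rev n).trans τ' with hτdef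
  have hτ : ∀ i, τ i < n ↔ i < n := by
    intro i
    rw [hτdef, Equiv.trans_apply, hτ', b03_rev_iff]
  have hb : gath (KK n) (wideS n a) (exT (KK n) t) =
      ∑ r ∈ range n, (∑ c ∈ range n, a r (τ.symm c) * 2 ^ (5 * c)) * 2 ^ (80 * r) := by
    rw [hT, gath1 hn3 hn ha τ' hτ']
    apply sum_congr rfl
    intro r _
    congr 1
    rw [← b03_reidx n τ hτ (a r)]
    apply sum_congr rfl
    intro c hc
    rw [hτdef, Equiv.trans_apply, b03_rev_lt n c (mem_range.1 hc)]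
  rw [e0, hb, hg, gath2 (β := fun r c => a r (τ.symm c)) hn3 hn (fun r c => ha _ _)] at h4
  refine ⟨τ, g, hτ, ?_⟩
  have e5 : (∑ i ∈ range n, (if 1 ≤ g i ∧ g i ≤ n then
      ∑ c ∈ range n, a (g i - 1) c * 2 ^ (5 * τ c) else 0) * 2 ^ (80 * i)) =
      ∑ i ∈ range n, (if 1 ≤ g i ∧ g i ≤ n then
      ∑ c ∈ range n, a (g i - 1) (τ.symm c) * 2 ^ (5 * c) else 0) * 2 ^ (80 * i) := by
    apply sum_congr rfl
    intro i _
    rw [b03_reidx n τ hτ (a (g i - 1))]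
  simp only [e5]
  exact h4

end Pool.Agent.N3
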