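import Pool.Agent.Lib.MP_f3f345_co.I0

/-! # Row B04 -/
namespace Pool.Agent.N3

open Finset

theorem b04_unfold {κ : K} {P p q : ℕ} (h : leafok κ P p q = true) :
    κ.top ≤ P ∧ small κ p = true ∧ small κ q = true ∧
      (nz κ (prodPQ κ p (spQ κ q))) / 2 ^ 7 + inc κ P = κ.j21 := by
  unfold leafok at h
  cases h1 : Nat.ble κ.top P with
  | false => rw [h1] at h; exact absurd h (by simp)
  | true =>
    rw [h1] at h
    cases h2 : small κ p with
    | false => rw [h2] at h; exact absurd h (by simp)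
    | true =>
      rw [h2] at h
      cases h3 : small κ q with
      | false => rw [h3] at h; exact absurd h (by simp)
      | true =>
        rw [h3] at h
        refine ⟨Nat.le_of_ble_eq_true h1, rfl, rfl, ?_⟩
        have h4 := Nat.eq_of_beq_eq_true h
        rw [← Nat.shiftRight_eq_div_pow]
        exact h4

theorem b04_msk_lt {n : ℕ} {I : ℕ → ℕ → ℕ} (hI : Mx n I) (i : ℕ) : msk n I i < 2 ^ 80 := by
  have h1 : msk n I i = S 5 n (fun c => I i c) := rfl
  rw [h1]
  refine lt_of_lt_of_le (S_lt fun m _ => ?_) (Nat.pow_le_pow_right (by norm_num) ?_)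
  · have := hI.le1 i m
    norm_num
    omega
  · have := hI.n15
    omega

theorem b04_kn {n k : ℕ} {I : ℕ → ℕ → ℕ} (hI : Mx n I) (hk : k ≤ n) (h : (KK n).top ≤ enc n I k) : k = n := by
  by_contra hne
  have h1 : enc n I k < 2 ^ (80 * k) := by
    rw [enc_eq]
    exact S_lt (b := 80) (f := fun r => msk n I (k - 1 - r)) fun m _ => b04_msk_lt hI _
  have h2 : 2 ^ (80 * k) ≤ 2 ^ (80 * (n - 1)) := Nat.pow_le_pow_right (by norm_num) (by omega)
  have h3 : (KK n).top = 2 ^ (80 * (n - 1)) := rfl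
  rw [h3] at h
  omega

theorem b04_S (n : ℕ) (a : ℕ → ℕ → ℕ) :
    ∑ i ∈ range n, ∑ c ∈ range n, a i c * 2 ^ (1280 * i + 21 * c) = S 1280 n (fun i => S 21 n (fun c => a i c)) := by
  unfold S
  refine sum_congr rfl fun i _ => ?_
  rw [sum_mul]
  refine sum_congr rfl fun c _ => ?_
  rw [pow_add]
  ring

theorem b04_inj {n : ℕ} (hn : n ≤ 15) (a b : ℕ → ℕ → ℕ) (ha : ∀ i c, a i c < 2 ^ 21) (hb : ∀ i c, b i c < 2 ^ 21)
    (h : ∑ i ∈ range n, ∑ c ∈ range n, a i c * 2 ^ (1280 * i + 21 * c) =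
      ∑ i ∈ range n, ∑ c ∈ range n, b i c * 2 ^ (1280 * i + 21 * c)) : ∀ i < n, ∀ c < n, a i c = b i c := by
  rw [b04_S, b04_S] at h
  have hlt : ∀ (a : ℕ → ℕ → ℕ), (∀ i c, a i c < 2 ^ 21) → ∀ i, S 21 n (fun c => a i c) < 2 ^ 1280 := by
    intro a ha i
    exact lt_of_lt_of_le (S_lt fun m _ => ha i m) (Nat.pow_le_pow_right (by norm_num) (by omega))
  intro i hi c hc
  have h1 := S_inj (fun m _ => hlt a ha m) (fun m _ => hlt b hb m) h i hi
  exact S_inj (fun m _ => ha i m) (fun m _ => hb i m) h1 c hc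

theorem leaf_bits {n k p q : ℕ} {I : ℕ → ℕ → ℕ} (hI : Mx n I) (hk : k ≤ n)
    (hp : p < 2 ^ (21 * n)) (hq : q < 2 ^ (21 * n))
    (h : leafok (KK n) (enc n I k) p q = true) : RealZ n I := by
  obtain ⟨htop, hsp, hsq, hfin⟩ := b04_unfold h
  have hkn := b04_kn hI hk htop
  subst hkn
  have hn15 := hI.n15
  have hn3 := hI.n3
  have henc : enc k I k = ∑ r ∈ range k, (∑ c ∈ range k, I (k - 1 - r) c * 2 ^ (5 * c)) * 2 ^ (80 * r) := by
    rw [enc_eq]
    rfl
  have hinc := inc_eq (n := k) (b := fun r c => I (k - 1 - r) c) hn15 (fun r c => hI.le1 _ _)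
  obtain ⟨z, hz, hprod, hdot⟩ := prod_eq (n := k) hn15 hp hq hsp hsq
  have hnz := nz_eq (n := k) (z := z) hn3 hn15 hz
  rw [henc, hinc, hprod, hnz] at hfin
  have hshift : (∑ i ∈ range k, ∑ c ∈ range k, (if z i (3 * c + 2) = 64 then 0 else 128) * 2 ^ (1280 * i + 21 * c)) / 2 ^ 7 =
      ∑ i ∈ range k, ∑ c ∈ range k, (if z i (3 * c + 2) = 64 then 0 else 1) * 2 ^ (1280 * i + 21 * c) := by
    have h1 : (∑ i ∈ range k, ∑ c ∈ range k, (if z i (3 * c + 2) = 64 then 0 else 128) * 2 ^ (1280 * i + 21 * c)) =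
        2 ^ 7 * ∑ i ∈ range k, ∑ c ∈ range k, (if z i (3 * c + 2) = 64 then 0 else 1) * 2 ^ (1280 * i + 21 * c) := by
      rw [mul_sum]
      refine sum_congr rfl fun i _ => ?_
      rw [mul_sum]
      refine sum_congr rfl fun c _ => ?_
      split_ifs <;> ring
    rw [h1]
    exact Nat.mul_div_cancel_left _ (by norm_num)
  rw [hshift] at hfin
  have hj : (KK k).j21 = ∑ i ∈ range k, ∑ c ∈ range k, 1 * 2 ^ (1280 * i + 21 * c) := by
    simp only [one_mul]
    rfl
  rw [hj, ← sum_add_distrib] at hfin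
  have hfin2 : ∑ i ∈ range k, ∑ c ∈ range k, ((if z i (3 * c + 2) = 64 then 0 else 1) + I (k - 1 - i) c) * 2 ^ (1280 * i + 21 * c) =
      ∑ i ∈ range k, ∑ c ∈ range k, 1 * 2 ^ (1280 * i + 21 * c) := by
    rw [← hfin]
    refine sum_congr rfl fun i _ => ?_
    rw [← sum_add_distrib]
    refine sum_congr rfl fun c _ => ?_
    ring
  have hall := b04_inj hn15 _ _ (fun i c => by
    have := hI.le1 (k - 1 - i) c
    have h2 : (if z i (3 * c + 2) = 64 then 0 else 1) ≤ 1 := by split_ifs <;> norm_num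
    norm_num
    omega) (fun i c => by norm_num) hfin2
  refine ⟨fun c a => crd p c a, fun i a => crd q (k - 1 - i) (2 - a), fun i hi c hc => ?_⟩
  have h1 := hall (k - 1 - i) (by omega) c hc
  have h2 : k - 1 - (k - 1 - i) = i := by omega
  rw [h2] at h1
  have h3 := hdot (k - 1 - i) (by omega) c hc
  have h4 := hI.le1 i c
  show crd p c 0 * crd q (k - 1 - i) 2 + crd p c 1 * crd q (k - 1 - i) 1 + crd p c 2 * crd q (k - 1 - i) 0 = 0 ↔ I i c = 1
  constructor
  · intro h5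
    rw [h5, add_zero] at h3
    have h6 : z (k - 1 - i) (3 * c + 2) = 64 := by exact_mod_cast h3
    rw [if_pos h6] at h1
    omega
  · intro h5
    rw [h5] at h1
    have h6 : z (k - 1 - i) (3 * c + 2) = 64 := by
      by_contra hne
      rw [if_neg hne] at h1
      omega
    rw [h6] at h3
    push_cast at h3
    linarith

end Pool.Agent.N3
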