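import Pool.Agent.Lib.MP_f3f345_co.I0

/-! # Row B05 -/
namespace Pool.Agent.N3

open Finset

theorem b05_mskS (n : ℕ) (I : ℕ → ℕ → ℕ) (i : ℕ) : msk n I i = S 5 n (I i) := rfl

theorem b05_msk_lt {n : ℕ} {I : ℕ → ℕ → ℕ} (hI : Mx n I) (i : ℕ) : msk n I i < 2 ^ 75 := by
  have h1 : msk n I i < 2 ^ (5 * n) := by
    rw [b05_mskS]
    exact S_lt fun m _ => lt_of_le_of_lt (hI.le1 i m) (by norm_num)
  have h2 := hI.n15
  exact lt_of_lt_of_le h1 (Nat.pow_le_pow_right (by norm_num) (by omega))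

theorem b05_msk_bit {n : ℕ} {I : ℕ → ℕ → ℕ} (hI : Mx n I) (i c : ℕ) (hc : c < n) :
    (if (msk n I i).testBit (5 * c) = true then 1 else 0) = I i c := by
  have h1 := S_testBit' (b := 5) (N := n) (f := I i)
    (fun m _ => lt_of_le_of_lt (hI.le1 i m) (by norm_num)) c 0 (by norm_num)
  rw [Nat.add_zero] at h1
  rw [b05_mskS, h1, decide_eq_true hc, Bool.true_and]
  have h2 := hI.le1 i c
  rcases Nat.le_one_iff_eq_zero_or_eq_one.1 h2 with h | h
  · rw [h]; rfl
  · rw [h]; rfl

theorem b05_spread {n : ℕ} {I : ℕ → ℕ → ℕ} (hI : Mx n I) (i : ℕ) :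
    spread (KK n) (msk n I i) = sprM n I i := by
  rw [spread_eq hI.n15 (b05_msk_lt hI i), sprM]
  refine sum_congr rfl fun c hc => ?_
  rw [b05_msk_bit hI i c (mem_range.1 hc)]

theorem b05_spread0 {n : ℕ} (hn : n ≤ 15) : spread (KK n) 0 = 0 := by
  rw [spread_eq hn (by norm_num)]
  refine sum_eq_zero fun c _ => ?_
  rw [Nat.zero_testBit]
  simp

theorem b05_encS (n k : ℕ) (I : ℕ → ℕ → ℕ) :
    enc n I k = S 80 k (fun r => msk n I (k - 1 - r)) := enc_eq I

theorem b05_fld {n k : ℕ} {I : ℕ → ℕ → ℕ} (hI : Mx n I) (i : ℕ) :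
    fld (KK n) (enc n I k) i = if i < k then msk n I (k - 1 - i) else 0 := by
  have h0 : fld (KK n) (enc n I k) i = enc n I k / 2 ^ (80 * i) % 2 ^ 80 := by
    have h1 : fld (KK n) (enc n I k) i = (enc n I k >>> (80 * i)) &&& (2 ^ 80 - 1) := rfl
    rw [h1, Nat.and_two_pow_sub_one_eq_mod, Nat.shiftRight_eq_div_pow]
  have hlt : ∀ m < k, msk n I (k - 1 - m) < 2 ^ 80 := fun m _ =>
    lt_trans (b05_msk_lt hI _) (by norm_num)
  rw [h0, b05_encS]
  split_ifs with h
  · exact S_digit hlt h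
  · have h2 : S 80 k (fun r => msk n I (k - 1 - r)) < 2 ^ (80 * i) :=
      lt_of_lt_of_le (S_lt hlt) (Nat.pow_le_pow_right (by norm_num) (by omega))
    rw [Nat.div_eq_of_lt h2, Nat.zero_mod]

theorem b05_recsum (f : ℕ → ℕ) (m : ℕ) :
    (Nat.rec (motive := fun _ => Nat) 0 (fun i ih => Nat.add ih (f i)) m : ℕ) =
      ∑ i ∈ range m, f i := by
  induction m with
  | zero => rfl
  | succ m ih =>
    rw [sum_range_succ, ← ih]
    rfl

theorem b05_outer {n : ℕ} {I : ℕ → ℕ → ℕ} (hI : Mx n I) (i : ℕ) :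
    outer (KK n) (msk n I i) =
      ∑ x ∈ range n, ∑ y ∈ range n, (I i x * I i y) * 2 ^ (80 * x + 5 * y) := by
  have h1 : outer (KK n) (msk n I i) = spread (KK n) (msk n I i) * msk n I i := rfl
  rw [h1, b05_spread hI, sprM, msk, sum_mul_sum]
  refine sum_congr rfl fun x _ => sum_congr rfl fun y _ => ?_
  rw [pow_add]
  ring

theorem b05_outer0 {n : ℕ} : outer (KK n) 0 = 0 := by
  have h1 : outer (KK n) 0 = spread (KK n) 0 * 0 := rfl
  rw [h1, mul_zero]

/-- a sum over the fields is a sum over the rows -/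
theorem b05_sum {n k : ℕ} (hk : k ≤ n) (f g : ℕ → ℕ)
    (h : ∀ i < n, f i = if i < k then g (k - 1 - i) else 0) :
    ∑ i ∈ range n, f i = ∑ j ∈ range k, g j := by
  obtain ⟨d, rfl⟩ := Nat.exists_eq_add_of_le hk
  rw [sum_range_add]
  have h1 : ∑ i ∈ range d, f (k + i) = 0 := by
    refine sum_eq_zero fun i hi => ?_
    rw [h (k + i) (by have := mem_range.1 hi; omega), if_neg (by omega)]
  rw [h1, add_zero, ← sum_range_reflect]
  refine sum_congr rfl fun i hi => ?_
  have hi' := mem_range.1 hi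
  rw [h (k - 1 - i) (by omega), if_pos (by omega)]
  congr 1
  omega

theorem b05_sq {n : ℕ} {I : ℕ → ℕ → ℕ} (hI : Mx n I) (i c : ℕ) : I i c * I i c = I i c := by
  rcases Nat.le_one_iff_eq_zero_or_eq_one.1 (hI.le1 i c) with h | h
  · rw [h]
  · rw [h]

theorem b05_deg_le {n k : ℕ} {I : ℕ → ℕ → ℕ} (hI : Mx n I) (hk : k ≤ n) (c : ℕ) (hc : c < n) :
    deg I k c ≤ 3 := by
  have h1 : deg I k c ≤ ∑ i ∈ range n, I i c :=
    sum_le_sum_of_subset (range_subset_range.2 hk)
  rwa [hI.col c hc] at h1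

theorem b05_co_le {n k : ℕ} {I : ℕ → ℕ → ℕ} (hI : Mx n I) (x y : ℕ) (hxy : x ≠ y) :
    co I k x y ≤ 1 := by
  unfold co
  by_contra hcon
  push Not at hcon
  have hz : ∃ i ∈ range k, I i x * I i y ≠ 0 := by
    by_contra h
    push Not at h
    rw [sum_eq_zero h] at hcon
    omega
  obtain ⟨i, hi, hi0⟩ := hz
  have hone : ∀ j, I j x * I j y ≠ 0 → I j x = 1 ∧ I j y = 1 := by
    intro j hj
    have a1 := hI.le1 j x
    have a2 := hI.le1 j y
    have a3 : I j x ≠ 0 := fun h => hj (by rw [h, zero_mul])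
    have a4 : I j y ≠ 0 := fun h => hj (by rw [h, mul_zero])
    omega
  have h1 := hone i hi0
  rw [sum_eq_single i] at hcon
  · rw [h1.1, h1.2] at hcon
    omega
  · intro j _ hj
    by_contra hj0
    have h2 := hone j hj0
    rcases hI.lin j i x y h2.1 h2.2 h1.1 h1.2 with h | h
    · exact hj h
    · exact hxy h
  · intro h
    exact absurd hi h

theorem b05_G {n k : ℕ} {I : ℕ → ℕ → ℕ} (hI : Mx n I) (hk : k ≤ n) :
    stG (KK n) (enc n I k) = gM n I k := by
  have h1 : stG (KK n) (enc n I k) = (KK n).g0 -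
      ∑ i ∈ range n, outer (KK n) (fld (KK n) (enc n I k) i) := by
    rw [← b05_recsum]
    rfl
  have h2 : ∑ i ∈ range n, outer (KK n) (fld (KK n) (enc n I k) i) =
      ∑ j ∈ range k, outer (KK n) (msk n I j) := by
    refine b05_sum hk _ (fun j => outer (KK n) (msk n I j)) fun i _ => ?_
    rw [b05_fld hI]
    split_ifs
    · rfl
    · exact b05_outer0
  have h3 : ∑ j ∈ range k, outer (KK n) (msk n I j) =
      ∑ x ∈ range n, ∑ y ∈ range n, (if x = y then deg I k x else co I k x y) *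
        2 ^ (80 * x + 5 * y) := by
    rw [sum_congr rfl fun j _ => b05_outer hI j, sum_comm]
    refine sum_congr rfl fun x _ => ?_
    rw [sum_comm]
    refine sum_congr rfl fun y _ => ?_
    rw [← sum_mul]
    congr 1
    split_ifs with h
    · subst h
      unfold deg
      exact sum_congr rfl fun j _ => b05_sq hI j x
    · rfl
  have h4 : (KK n).g0 = gM n I k + ∑ x ∈ range n, ∑ y ∈ range n,
      (if x = y then deg I k x else co I k x y) * 2 ^ (80 * x + 5 * y) := by
    have h5 : (KK n).g0 = ∑ x ∈ range n, ∑ y ∈ range n,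
      (if x = y then 18 else 1) * 2 ^ (80 * x + 5 * y) := rfl
    rw [h5, gM, ← sum_add_distrib]
    refine sum_congr rfl fun x hx => ?_
    rw [← sum_add_distrib]
    refine sum_congr rfl fun y _ => ?_
    rw [← add_mul]
    congr 1
    split_ifs with h
    · have := b05_deg_le hI hk x (mem_range.1 hx)
      omega
    · have := b05_co_le (k := k) hI x y h
      omega
  rw [h1, h2, h3, h4, Nat.add_sub_cancel]

theorem b05_lor {n : ℕ} (a b : ℕ → ℕ) (ha : ∀ c, a c ≤ 1) (hb : ∀ c, b c ≤ 1) :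
    S 5 n a ||| S 5 n b = S 5 n (fun c => a c ||| b c) := by
  have h1 : ∀ m < n, a m < 2 ^ 5 := fun m _ => lt_of_le_of_lt (ha m) (by norm_num)
  have h2 : ∀ m < n, b m < 2 ^ 5 := fun m _ => lt_of_le_of_lt (hb m) (by norm_num)
  apply Nat.eq_of_testBit_eq
  intro p
  rw [Nat.testBit_or, S_testBit (by norm_num) h1, S_testBit (by norm_num) h2,
    S_testBit (by norm_num) (fun m hm => Nat.or_lt_two_pow (h1 m hm) (h2 m hm)), Nat.testBit_or]
  cases decide (p / 5 < n) <;> simp

theorem b05_F {n k : ℕ} {I : ℕ → ℕ → ℕ} (hI : Mx n I) (hk : k ≤ n) :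
    stF (KK n) (enc n I k) = fM n I k := by
  have key : ∀ m : ℕ, (Nat.rec (motive := fun _ => Nat) 0
      (fun i ih => Nat.lor ih (fld (KK n) (enc n I k) i)) m : ℕ) =
      S 5 n (fun c => if ∃ i < m, i < k ∧ I (k - 1 - i) c = 1 then 1 else 0) := by
    intro m
    induction m with
    | zero =>
      show 0 = _
      symm
      unfold S
      refine sum_eq_zero fun c _ => ?_
      simp
    | succ m ih =>
      have h1 : (Nat.rec (motive := fun _ => Nat) 0
          (fun i ih => Nat.lor ih (fld (KK n) (enc n I k) i)) (m + 1) : ℕ) =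
          (Nat.rec (motive := fun _ => Nat) 0
            (fun i ih => Nat.lor ih (fld (KK n) (enc n I k) i)) m : ℕ) |||
            fld (KK n) (enc n I k) m := rfl
      rw [h1, ih, b05_fld hI]
      by_cases hm : m < k
      · rw [if_pos hm, b05_mskS, b05_lor _ _ (fun c => by split_ifs <;> omega) (hI.le1 _)]
        refine S_congr fun c _ => ?_
        rcases Nat.le_one_iff_eq_zero_or_eq_one.1 (hI.le1 (k - 1 - m) c) with h | h
        · rw [h, Nat.or_zero]
          refine if_congr ⟨?_, ?_⟩ rfl rfl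
          · rintro ⟨i, hi, h2⟩
            exact ⟨i, by omega, h2⟩
          · rintro ⟨i, hi, h2, h3⟩
            refine ⟨i, ?_, h2, h3⟩
            rcases Nat.lt_succ_iff_lt_or_eq.1 hi with h4 | h4
            · exact h4
            · rw [h4, h] at h3
              omega
        · rw [h, if_pos (⟨m, by omega, hm, h⟩ : ∃ i < m + 1, i < k ∧ I (k - 1 - i) c = 1)]
          split_ifs <;> rfl
      · rw [if_neg hm, Nat.or_zero]
        refine S_congr fun c _ => if_congr ⟨?_, ?_⟩ rfl rfl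
        · rintro ⟨i, hi, h2⟩
          exact ⟨i, by omega, h2⟩
        · rintro ⟨i, hi, h2, h3⟩
          exact ⟨i, by omega, h2, h3⟩
  have h1 : stF (KK n) (enc n I k) = (KK n).ones - (Nat.rec (motive := fun _ => Nat) 0
      (fun i ih => Nat.lor ih (fld (KK n) (enc n I k) i)) n : ℕ) := rfl
  have h2 : (KK n).ones = fM n I k +
      S 5 n (fun c => if ∃ i < n, i < k ∧ I (k - 1 - i) c = 1 then 1 else 0) := by
    have h5 : (KK n).ones = ∑ c ∈ range n, 2 ^ (5 * c) := rfl
    rw [h5, fM, S, ← sum_add_distrib]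
    refine sum_congr rfl fun c _ => ?_
    rw [← add_mul]
    have h6 : deg I k c = 0 ↔ ¬ ∃ i < n, i < k ∧ I (k - 1 - i) c = 1 := by
      unfold deg
      rw [sum_eq_zero_iff]
      constructor
      · rintro h ⟨i, _, h3, h4⟩
        have := h (k - 1 - i) (mem_range.2 (by omega))
        omega
      · intro h i hi
        have hi' := mem_range.1 hi
        by_contra h3
        apply h
        refine ⟨k - 1 - i, by omega, by omega, ?_⟩
        have h4 : k - 1 - (k - 1 - i) = i := by omega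
        rw [h4]
        have := hI.le1 i c
        omega
    by_cases h7 : ∃ i < n, i < k ∧ I (k - 1 - i) c = 1
    · rw [if_pos h7, if_neg (fun h => (h6.1 h) h7), zero_add, one_mul]
    · rw [if_neg h7, if_pos (h6.2 h7), add_zero, one_mul]
  rw [h1, key n, h2, Nat.add_sub_cancel]

theorem b05_W {n k : ℕ} {I : ℕ → ℕ → ℕ} (hI : Mx n I) (hk : k ≤ n) :
    stW (KK n) (enc n I k) = wM n I k := by
  have h1 : stW (KK n) (enc n I k) =
      ∑ i ∈ range n, (spread (KK n) (fld (KK n) (enc n I k) i)) <<< (2320 * i) := by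
    rw [← b05_recsum]
    rfl
  rw [h1, wM_eq hk, wideS]
  refine sum_congr rfl fun i _ => ?_
  rw [Nat.shiftLeft_eq, b05_fld hI]
  split_ifs with h
  · rw [b05_spread hI, sprM, sum_mul]
    refine sum_congr rfl fun c _ => ?_
    rw [pow_add]
    ring
  · rw [b05_spread0 hI.n15, zero_mul]
    symm
    refine sum_eq_zero fun c _ => ?_
    rw [zero_mul]

theorem st_eq {n k : ℕ} {I : ℕ → ℕ → ℕ} (hI : Mx n I) (hk : k ≤ n) :
    stG (KK n) (enc n I k) = gM n I k ∧ stF (KK n) (enc n I k) = fM n I k ∧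
      stW (KK n) (enc n I k) = wM n I k :=
  ⟨b05_G hI hk, b05_F hI hk, b05_W hI hk⟩

theorem fld_zero {n k : ℕ} {I : ℕ → ℕ → ℕ} (hI : Mx n I) (hk : k ≤ n) (hk1 : 1 ≤ k) :
    fld (KK n) (enc n I k) 0 = msk n I (k - 1) := by
  rw [b05_fld hI, if_pos (by omega), Nat.sub_zero]

end Pool.Agent.N3
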