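import Pool.Agent.Lib.MP_f3f345_co.I0

/-! # Row B06 -/
namespace Pool.Agent.N3

open Finset

theorem b06_mskS (n : ℕ) (I : ℕ → ℕ → ℕ) (i : ℕ) : msk n I i = S 5 n (I i) := rfl

theorem b06_lt {I : ℕ → ℕ → ℕ} (h1 : ∀ i c, I i c ≤ 1) (i : ℕ) (n : ℕ) : ∀ m < n, I i m < 2 ^ 5 :=
  fun m _ => lt_of_le_of_lt (h1 i m) (by norm_num)

/-- two distinct rows are different -/
theorem b06_ne {n : ℕ} {I : ℕ → ℕ → ℕ} (hI : Mx n I) {i j : ℕ} (hi : i < n) (hij : i ≠ j) :
    msk n I i ≠ msk n I j := by
  intro h
  rw [b06_mskS, b06_mskS] at h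
  have h1 := S_inj (b06_lt hI.le1 i n) (b06_lt hI.le1 j n) h
  have hrow := hI.row i hi
  -- two positions on row i
  have h2 : ∃ c < n, ∃ d < n, c ≠ d ∧ I i c = 1 ∧ I i d = 1 := by
    by_contra hcon
    push Not at hcon
    have h3 : ∑ c ∈ range n, I i c ≤ 1 := by
      have h4 : ∑ c ∈ range n, I i c = ((range n).filter (fun c => I i c = 1)).card := by
        rw [Finset.card_filter]
        apply sum_congr rfl
        intro c _
        have := hI.le1 i c
        split_ifs with h5
        · exact h5
        · omega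
      rw [h4, Finset.card_le_one]
      intro a ha b hb
      rw [mem_filter, mem_range] at ha hb
      by_contra hab
      exact hcon a ha.1 b hb.1 hab ha.2 hb.2
    omega
  obtain ⟨c, hc, d, hd, hcd, hc1, hd1⟩ := h2
  rcases hI.lin i j c d hc1 hd1 (by rw [← h1 c hc]; exact hc1) (by rw [← h1 d hd]; exact hd1) with h5 | h5
  · exact hij h5
  · exact hcd h5

theorem sorted {n k : ℕ} {I : ℕ → ℕ → ℕ} (hI : Max n I) (hk : k + 1 < n) :
    msk n I (k + 1) < msk n I k := by
  rcases lt_trichotomy (msk n I (k + 1)) (msk n I k) with h | h | h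
  · exact h
  · exact absurd h (b06_ne hI.1 hk (by omega))
  · exfalso
    refine lex_lt (J := I) (j := k) hI (eqv_refl n I) (fun i => if i = k then k + 1 else i) ?_ ?_ (by omega) ?_ ?_
    · intro i hi
      split_ifs <;> omega
    · intro i hi i' hi' h
      split_ifs at h <;> omega
    · intro i hi
      rw [if_neg (by omega)]
    · rw [if_pos rfl]
      exact h

theorem b06_down {n k : ℕ} {I : ℕ → ℕ → ℕ} (hI : Max n I) (hk : k ≤ n) {c c' : ℕ} (hc : c < n) (hcc : c' < c)
    (h0 : deg I k c = 0) : deg I k c' = 0 := by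
  by_contra hne
  have hex : ∃ i, i < k ∧ I i c' = 1 := by
    by_contra hcon
    push Not at hcon
    apply hne
    unfold deg
    apply Finset.sum_eq_zero
    intro i hi
    have := hcon i (mem_range.1 hi)
    have := hI.1.le1 i c'
    omega
  classical
  have hmin := Nat.find_spec hex
  have hlt : ∀ i < Nat.find hex, ¬ (i < k ∧ I i c' = 1) := fun i hi => Nat.find_min hex hi
  obtain ⟨hik, hic⟩ := hmin
  set i := Nat.find hex with hi
  have hc0 : ∀ j < k, I j c = 0 := by
    intro j hj
    unfold deg at h0
    exact (Finset.sum_eq_zero_iff.1 h0) j (mem_range.2 hj)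
  let τ : Equiv.Perm ℕ := Equiv.swap c c'
  have hτ : ∀ m, τ m < n ↔ m < n := by
    intro m
    show Equiv.swap c c' m < n ↔ m < n
    rw [Equiv.swap_apply_def]
    split_ifs <;> omega
  let J : ℕ → ℕ → ℕ := fun r m => I r (τ m)
  have hJ : Eqv n I J := ⟨1, τ, fun _ => Iff.rfl, hτ, Or.inl fun _ _ => rfl⟩
  refine lex_lt (J := J) (j := i) hI hJ id (fun r hr => by show r < n; omega) (fun _ _ _ _ h => h) (by omega) ?_ ?_
  · intro r hr
    apply sum_congr rfl
    intro m hm
    congr 1
    show I r (Equiv.swap c c' m) = I r m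
    rw [Equiv.swap_apply_def]
    have hrk : r < k := by omega
    have h1 : I r c' = 0 := by
      have h2 := hlt r hr
      have h3 := hI.1.le1 r c'
      have : ¬ I r c' = 1 := fun h => h2 ⟨hrk, h⟩
      omega
    split_ifs with h2 h3
    · rw [h2, h1, hc0 r hrk]
    · rw [h3, h1, hc0 r hrk]
    · rfl
  · show msk n I i < msk n J i
    -- msk I i + 2^(5c) = msk J i + 2^(5c')
    have key : msk n J i + 2 ^ (5 * c') = msk n I i + 2 ^ (5 * c) := by
      have e1 : msk n J i = ∑ m ∈ range n, I i m * 2 ^ (5 * τ m) := by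
        unfold msk
        have hbij := Finset.sum_bij' (s := range n) (t := range n) (f := fun m => J i m * 2 ^ (5 * m))
          (g := fun m => I i m * 2 ^ (5 * τ m)) (fun m _ => τ m) (fun m _ => τ m)
          (fun m hm => by rw [mem_range] at hm ⊢; exact (hτ m).2 hm)
          (fun m hm => by rw [mem_range] at hm ⊢; exact (hτ m).2 hm)
          (fun m _ => Equiv.swap_apply_def c c' _ ▸ by
            show Equiv.swap c c' (Equiv.swap c c' m) = m
            exact Equiv.swap_apply_self c c' m)
          (fun m _ => by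
            show Equiv.swap c c' (Equiv.swap c c' m) = m
            exact Equiv.swap_apply_self c c' m)
          (fun m _ => by
            show I i (τ m) * 2 ^ (5 * m) = I i (τ m) * 2 ^ (5 * τ (τ m))
            have : τ (τ m) = m := Equiv.swap_apply_self c c' m
            rw [this])
        exact hbij
      have hcn : c' ∈ range n := mem_range.2 (by omega)
      rw [e1]
      unfold msk
      rw [← Finset.add_sum_erase _ _ hcn, ← Finset.add_sum_erase (range n) (fun m => I i m * 2 ^ (5 * m)) hcn]
      have h5 : τ c' = c := Equiv.swap_apply_right c c'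
      rw [h5, hic]
      have h6 : ∑ m ∈ (range n).erase c', I i m * 2 ^ (5 * τ m) = ∑ m ∈ (range n).erase c', I i m * 2 ^ (5 * m) := by
        apply sum_congr rfl
        intro m hm
        rw [mem_erase] at hm
        by_cases hmc : m = c
        · rw [hmc, hc0 i hik]; simp
        · have : τ m = m := Equiv.swap_apply_of_ne_of_ne hmc hm.1
          rw [this]
      rw [h6]
      ring
    have hp : 2 ^ (5 * c') < 2 ^ (5 * c) := Nat.pow_lt_pow_right (by norm_num) (by omega)
    omega

theorem fresh_seg {n k : ℕ} {I : ℕ → ℕ → ℕ} (hI : Max n I) (hk : k ≤ n) :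
    ∃ f ≤ n, ∀ c < n, deg I k c = 0 ↔ c < f := by
  classical
  have hex : ∃ f, f = n ∨ deg I k f ≠ 0 := ⟨n, Or.inl rfl⟩
  refine ⟨Nat.find hex, ?_, ?_⟩
  · exact Nat.find_min' hex (Or.inl rfl)
  · intro c hc
    constructor
    · intro h0
      by_contra hcon
      push Not at hcon
      rcases Nat.find_spec hex with h | h
      · omega
      · rcases Nat.lt_or_eq_of_le hcon with h1 | h1
        · exact h (b06_down hI hk hc h1 h0)
        · rw [h1] at h; exact h h0
    · intro h
      have := Nat.find_min hex h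
      push Not at this
      exact this.2

end Pool.Agent.N3
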