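import Pool.Agent.Lib.MP_f3f345_co.I0

/-! # Row B07 -/
namespace Pool.Agent.N3

open Finset

theorem b07_sum {n : ℕ} (g : ℕ → ℕ) {p q r : ℕ} (hp : p < n) (hq : q < n) (hr : r < n)
    (hpq : p ≠ q) (hpr : p ≠ r) (hqr : q ≠ r) (gp : g p = 1) (gq : g q = 1) (gr : g r = 1)
    (h0 : ∀ c < n, c ≠ p → c ≠ q → c ≠ r → g c = 0) :
    ∑ c ∈ range n, g c * 2 ^ (5 * c) = 2 ^ (5 * p) + 2 ^ (5 * q) + 2 ^ (5 * r) := by
  have hsub : ({p, q, r} : Finset ℕ) ⊆ range n := by
    intro c hc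
    rw [mem_insert, mem_insert, mem_singleton] at hc
    rw [mem_range]
    rcases hc with h | h | h <;> omega
  rw [← sum_subset hsub]
  · rw [sum_insert, sum_insert, sum_singleton, gp, gq, gr, one_mul, one_mul, one_mul, add_assoc]
    · rw [mem_singleton]; exact hqr
    · rw [mem_insert, mem_singleton]
      rintro (h | h)
      · exact hpq h
      · exact hpr h
  · intro c hc hc'
    rw [mem_insert, mem_insert, mem_singleton] at hc'
    push Not at hc'
    rw [h0 c (mem_range.1 hc) hc'.1 hc'.2.1 hc'.2.2, zero_mul]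

theorem b07_swap {n a b : ℕ} (ha : a < n) (hb : b < n) (i : ℕ) : Equiv.swap a b i < n ↔ i < n := by
  rw [Equiv.swap_apply_def]
  split_ifs with h1 h2
  · rw [h1]; exact ⟨fun _ => ha, fun _ => hb⟩
  · rw [h2]; exact ⟨fun _ => hb, fun _ => ha⟩
  · rfl

theorem b07_perm {n x y z p q r : ℕ} (hx : x < n) (hy : y < n) (hz : z < n) (hp : p < n) (hq : q < n)
    (hr : r < n) (hpq : p ≠ q) (hpr : p ≠ r) (hqr : q ≠ r)
    (hxy : x ≠ y) (hxz : x ≠ z) (hyz : y ≠ z) :
    ∃ τ : Equiv.Perm ℕ, (∀ i, τ i < n ↔ i < n) ∧ τ p = x ∧ τ q = y ∧ τ r = z := by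
  -- first swap
  have hA : ∀ i, Equiv.swap p x i < n ↔ i < n := b07_swap hp hx
  have hA1 : Equiv.swap p x p = x := Equiv.swap_apply_left p x
  have hBy : Equiv.swap p x y < n := (hA y).2 hy
  have hyp : p ≠ Equiv.swap p x y := by
    intro h
    apply hxy
    have h2 := congrArg (Equiv.swap p x) h
    rw [Equiv.swap_apply_self, hA1] at h2
    exact h2
  obtain ⟨B, hB, hB1, hB2⟩ : ∃ B : Equiv.Perm ℕ, (∀ i, B i < n ↔ i < n) ∧ B p = x ∧ B q = y := by
    refine ⟨(Equiv.swap q (Equiv.swap p x y)).trans (Equiv.swap p x), fun i => ?_, ?_, ?_⟩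
    · rw [Equiv.trans_apply, hA, b07_swap hq hBy]
    · rw [Equiv.trans_apply, Equiv.swap_apply_of_ne_of_ne hpq hyp, hA1]
    · rw [Equiv.trans_apply, Equiv.swap_apply_left, Equiv.swap_apply_self]
  have hCz : B.symm z < n := by
    rw [← hB, Equiv.apply_symm_apply]
    exact hz
  refine ⟨(Equiv.swap r (B.symm z)).trans B, fun i => ?_, ?_, ?_, ?_⟩
  · rw [Equiv.trans_apply, hB, b07_swap hr hCz]
  · rw [Equiv.trans_apply, Equiv.swap_apply_of_ne_of_ne hpr, hB1]
    intro h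
    apply hxz
    rw [← hB1, h, Equiv.apply_symm_apply]
  · rw [Equiv.trans_apply, Equiv.swap_apply_of_ne_of_ne hqr, hB2]
    intro h
    apply hyz
    rw [← hB2, h, Equiv.apply_symm_apply]
  · rw [Equiv.trans_apply, Equiv.swap_apply_left, Equiv.apply_symm_apply]

theorem b07_le {n x y z : ℕ} (hx : x < n) (hxy : y < x) (hyz : z < y) :
    2 ^ (5 * x) + 2 ^ (5 * y) + 2 ^ (5 * z) ≤
      2 ^ (5 * (n - 1)) + 2 ^ (5 * (n - 2)) + 2 ^ (5 * (n - 3)) := by
  have h1 : 2 ^ (5 * x) ≤ 2 ^ (5 * (n - 1)) := Nat.pow_le_pow_right (by norm_num) (by omega)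
  have h2 : 2 ^ (5 * y) ≤ 2 ^ (5 * (n - 2)) := Nat.pow_le_pow_right (by norm_num) (by omega)
  have h3 : 2 ^ (5 * z) ≤ 2 ^ (5 * (n - 3)) := Nat.pow_le_pow_right (by norm_num) (by omega)
  omega

theorem root_msk {n : ℕ} {I : ℕ → ℕ → ℕ} (hI : Max n I) :
    msk n I 0 = 2 ^ (5 * (n - 1)) + 2 ^ (5 * (n - 2)) + 2 ^ (5 * (n - 3)) := by
  have hM := hI.1
  have hn := hM.n3
  have hle := hM.le1
  -- the three positions
  have hcard : ((range n).filter (fun c => I 0 c = 1)).card = 3 := by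
    rw [card_filter, ← hM.row 0 (by omega)]
    apply sum_congr rfl
    intro c _
    have := hle 0 c
    by_cases h : I 0 c = 1
    · rw [if_pos h, h]
    · rw [if_neg h]; omega
  obtain ⟨x, y, z, hxy, hxz, hyz, hR⟩ := card_eq_three.1 hcard
  have hmem : ∀ c, (c < n ∧ I 0 c = 1) ↔ (c = x ∨ c = y ∨ c = z) := by
    intro c
    have := Finset.ext_iff.1 hR c
    rw [mem_filter, mem_range, mem_insert, mem_insert, mem_singleton] at this
    exact this
  have hx := (hmem x).2 (Or.inl rfl)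
  have hy := (hmem y).2 (Or.inr (Or.inl rfl))
  have hz := (hmem z).2 (Or.inr (Or.inr rfl))
  have hmsk : msk n I 0 = 2 ^ (5 * x) + 2 ^ (5 * y) + 2 ^ (5 * z) := by
    rw [msk]
    apply b07_sum (fun c => I 0 c) hx.1 hy.1 hz.1 hxy hxz hyz hx.2 hy.2 hz.2
    intro c hc h1 h2 h3
    have h4 : ¬ (c < n ∧ I 0 c = 1) := fun h => by
      rcases (hmem c).1 h with h5 | h5 | h5
      · exact h1 h5
      · exact h2 h5
      · exact h3 h5
    have := hle 0 c
    have h5 : I 0 c ≠ 1 := fun h => h4 ⟨hc, h⟩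
    show I 0 c = 0
    omega
  -- upper bound
  have hub : msk n I 0 ≤ 2 ^ (5 * (n - 1)) + 2 ^ (5 * (n - 2)) + 2 ^ (5 * (n - 3)) := by
    rw [hmsk]
    rcases Nat.lt_or_gt_of_ne hxy with h1 | h1 <;> rcases Nat.lt_or_gt_of_ne hxz with h2 | h2 <;>
      rcases Nat.lt_or_gt_of_ne hyz with h3 | h3
    · have := b07_le hz.1 h3 h1; omega
    · have := b07_le hy.1 h3 h2; omega
    · omega
    · have := b07_le hy.1 h1 h2; omega
    · have := b07_le hz.1 h2 h1; omega
    · omega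
    · have := b07_le hx.1 h2 h3; omega
    · have := b07_le hx.1 h1 h3; omega
  -- lower bound
  obtain ⟨τ, hτ, t1, t2, t3⟩ := b07_perm (p := n - 1) (q := n - 2) (r := n - 3) hx.1 hy.1 hz.1
    (by omega) (by omega) (by omega) (by omega) (by omega) (by omega) hxy hxz hyz
  have hJ : Eqv n I (fun i c => I i (τ c)) :=
    ⟨Equiv.refl ℕ, τ, fun i => Iff.rfl, hτ, Or.inl fun i c => rfl⟩
  have hmJ : msk n (fun i c => I i (τ c)) 0 =
      2 ^ (5 * (n - 1)) + 2 ^ (5 * (n - 2)) + 2 ^ (5 * (n - 3)) := by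
    rw [msk]
    apply b07_sum (fun c => I 0 (τ c)) (by omega) (by omega) (by omega) (by omega) (by omega) (by omega)
    · show I 0 (τ (n - 1)) = 1
      rw [t1]; exact hx.2
    · show I 0 (τ (n - 2)) = 1
      rw [t2]; exact hy.2
    · show I 0 (τ (n - 3)) = 1
      rw [t3]; exact hz.2
    · intro c hc h1 h2 h3
      show I 0 (τ c) = 0
      have h4 : I 0 (τ c) ≠ 1 := by
        intro h
        rcases (hmem (τ c)).1 ⟨(hτ c).2 hc, h⟩ with h5 | h5 | h5
        · exact h1 (τ.injective (h5.trans t1.symm))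
        · exact h2 (τ.injective (h5.trans t2.symm))
        · exact h3 (τ.injective (h5.trans t3.symm))
      have := hle 0 (τ c)
      omega
  apply le_antisymm hub
  by_contra hc
  have hlt : msk n I 0 < msk n (fun i c => I i (τ c)) 0 := by
    rw [hmJ]
    omega
  exact lex_lt (j := 0) hI hJ (fun _ => 0) (fun _ _ => by omega) (fun i hi i' hi' _ => by omega)
    (by omega) (fun i hi => absurd hi (by omega)) hlt

end Pool.Agent.N3
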