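import Pool.Agent.Lib.MP_f3f345_co.I1

/-! # Row C01 -/
namespace Pool.Agent.N3

open Finset

theorem c01_triple {n k : ℕ} {I : ℕ → ℕ → ℕ} (hI : Mx n I) (hk : k < n) :
    ∃ h x y, Nx n I k h x y := by
  have hsum : ∑ c ∈ range n, I k c = ((range n).filter (fun c => I k c = 1)).card := by
    rw [Finset.card_filter]
    refine Finset.sum_congr rfl fun c _ => ?_
    have := hI.le1 k c
    split_ifs with h <;> omega
  have hcard : ((range n).filter (fun c => I k c = 1)).card = 3 := by
    rw [← hsum]
    exact hI.row k hk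
  set S := (range n).filter (fun c => I k c = 1) with hS
  have hr := Finset.range_orderEmbOfFin S hcard
  have hmem : ∀ c, I k c = 1 ↔ c ∈ S := by
    intro c
    rw [hS, Finset.mem_filter, Finset.mem_range]
    constructor
    · intro h
      refine ⟨?_, h⟩
      by_contra hc
      have := hI.out k c (Or.inr (by omega))
      omega
    · exact fun h => h.2
  have hlt : ∀ i, S.orderEmbOfFin hcard i < n := by
    intro i
    have h1 := (hmem _).2 (Finset.orderEmbOfFin_mem S hcard i)
    by_contra hc
    have := hI.out k _ (Or.inr (not_lt.1 hc))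
    omega
  refine ⟨S.orderEmbOfFin hcard 2, S.orderEmbOfFin hcard 1, S.orderEmbOfFin hcard 0, ?_, ?_, hlt 2, ?_⟩
  · exact (S.orderEmbOfFin hcard).strictMono (by decide)
  · exact (S.orderEmbOfFin hcard).strictMono (by decide)
  · intro c
    rw [hmem, ← Finset.mem_coe, ← hr, Set.mem_range]
    constructor
    · rintro ⟨i, rfl⟩
      fin_cases i
      · exact Or.inr (Or.inr rfl)
      · exact Or.inr (Or.inl rfl)
      · exact Or.inl rfl
    · rintro (h | h | h)
      · exact ⟨2, h.symm⟩
      · exact ⟨1, h.symm⟩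
      · exact ⟨0, h.symm⟩

theorem c01_deg {n k i c : ℕ} {I : ℕ → ℕ → ℕ} (hI : Mx n I) (hi : i < n) (hki : k ≤ i)
    (h : I i c = 1) : deg I k c < 3 := by
  have hc : c < n := by
    by_contra hc
    have := hI.out i c (Or.inr (by omega))
    omega
  have h1 : ∑ j ∈ range k, I j c + I i c ≤ ∑ j ∈ range n, I j c := by
    rw [← Finset.sum_insert (f := fun j => I j c) (a := i) (s := range k) (by simp; omega) |>.trans (add_comm _ _)]
    refine Finset.sum_le_sum_of_subset ?_
    intro j hj
    rw [Finset.mem_insert, Finset.mem_range] at hj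
    rw [Finset.mem_range]
    omega
  rw [hI.col c hc, h] at h1
  unfold deg
  omega

theorem c01_co {n k i a b : ℕ} {I : ℕ → ℕ → ℕ} (hI : Mx n I) (hki : k ≤ i)
    (ha : I i a = 1) (hb : I i b = 1) (hab : a ≠ b) : co I k a b = 0 := by
  unfold co
  refine Finset.sum_eq_zero fun j hj => ?_
  rw [Finset.mem_range] at hj
  by_contra h0
  have h1 := hI.le1 j a
  have h2 := hI.le1 j b
  have h3 : I j a ≠ 0 := fun h => h0 (by rw [h, zero_mul])
  have h4 : I j b ≠ 0 := fun h => h0 (by rw [h, mul_zero])
  rcases hI.lin i j a b ha hb (by omega) (by omega) with h | h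
  · omega
  · exact hab h

theorem c01_sorted {n k : ℕ} {I : ℕ → ℕ → ℕ} (hI : Max n I) (d : ℕ) (hk : k + (d + 1) < n) :
    msk n I (k + (d + 1)) < msk n I k := by
  induction d with
  | zero => exact sorted hI hk
  | succ d ih => exact (sorted hI (k := k + (d + 1)) hk).trans (ih (by omega))

theorem c01_msk_lt {n k h x y : ℕ} {I : ℕ → ℕ → ℕ} (hI : Mx n I) (hN : Nx n I k h x y) :
    msk n I k < 2 ^ (5 * (h + 1)) := by
  obtain ⟨hyx, hxh, hh, hN⟩ := hN
  have h1 : msk n I k ≤ ∑ c ∈ range (h + 1), 2 ^ (5 * c) := by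
    unfold msk
    have : ∑ c ∈ range n, I k c * 2 ^ (5 * c) = ∑ c ∈ range (h + 1), I k c * 2 ^ (5 * c) := by
      symm
      refine Finset.sum_subset ?_ ?_
      · intro c hc
        rw [Finset.mem_range] at hc ⊢
        omega
      · intro c _ hc
        rw [Finset.mem_range] at hc
        have h2 : I k c ≠ 1 := by
          intro h3
          rcases (hN c).1 h3 with h | h | h <;> omega
        have := hI.le1 k c
        have h4 : I k c = 0 := by omega
        rw [h4, zero_mul]
    rw [this]
    refine Finset.sum_le_sum fun c _ => ?_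
    calc I k c * 2 ^ (5 * c) ≤ 1 * 2 ^ (5 * c) := Nat.mul_le_mul_right _ (hI.le1 k c)
      _ = 2 ^ (5 * c) := one_mul _
  have h2 : ∀ m : ℕ, ∑ c ∈ range m, 2 ^ (5 * c) < 2 ^ (5 * m) := by
    intro m
    induction m with
    | zero => simp
    | succ m ih =>
      rw [Finset.sum_range_succ]
      have : 2 ^ (5 * (m + 1)) = 32 * 2 ^ (5 * m) := by
        rw [show 5 * (m + 1) = 5 * m + 5 by ring, pow_add]; ring
      omega
  exact lt_of_le_of_lt h1 (h2 _)

theorem c01_le_msk {n i c : ℕ} {I : ℕ → ℕ → ℕ} (hc : c < n) (h : I i c = 1) :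
    2 ^ (5 * c) ≤ msk n I i := by
  unfold msk
  have := Finset.single_le_sum (f := fun c => I i c * 2 ^ (5 * c)) (fun _ _ => Nat.zero_le _)
    (Finset.mem_range.2 hc)
  simpa [h] using this

theorem c01_swap {n k c d : ℕ} {I : ℕ → ℕ → ℕ} (hI : Max n I) (hk : k < n) (hc : c < n)
    (hdc : d < c) (fc : deg I k c = 0) (fd : deg I k d = 0) (hd1 : I k d = 1) (hc0 : I k c = 0) : False := by
  have hd : d < n := by omega
  have hz : ∀ i < k, I i c = 0 ∧ I i d = 0 := by
    intro i hi
    unfold deg at fc fd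
    rw [Finset.sum_eq_zero_iff] at fc fd
    exact ⟨fc i (Finset.mem_range.2 hi), fd i (Finset.mem_range.2 hi)⟩
  have hsw : ∀ a, Equiv.swap c d a < n ↔ a < n := by
    intro a
    by_cases h1 : a = c
    · rw [h1, Equiv.swap_apply_left]; simp [hc, hd]
    · by_cases h2 : a = d
      · rw [h2, Equiv.swap_apply_right]; simp [hc, hd]
      · rw [Equiv.swap_apply_of_ne_of_ne h1 h2]
  have hE : Eqv n I (fun i a => I i (Equiv.swap c d a)) :=
    ⟨1, Equiv.swap c d, fun i => Iff.rfl, hsw, Or.inl fun i a => rfl⟩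
  refine lex_lt hI hE id (j := k) (fun i hi => by simp only [id]; omega) (fun i _ i' _ h => h) hk ?_ ?_
  · intro i hi
    unfold msk
    refine Finset.sum_congr rfl fun a _ => ?_
    obtain ⟨z1, z2⟩ := hz i hi
    by_cases h1 : a = c
    · rw [h1]; simp only [id, Equiv.swap_apply_left]; rw [z1, z2]
    · by_cases h2 : a = d
      · rw [h2]; simp only [id, Equiv.swap_apply_right]; rw [z1, z2]
      · simp only [id]; rw [Equiv.swap_apply_of_ne_of_ne h1 h2]
  · have e : msk n (fun i a => I i (Equiv.swap c d a)) (id k) =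
        ∑ b ∈ range n, I k b * 2 ^ (5 * Equiv.swap c d b) := by
      unfold msk
      refine Finset.sum_equiv (Equiv.swap c d) ?_ ?_
      · intro a
        rw [Finset.mem_range, Finset.mem_range]
        exact (hsw a).symm
      · intro a _
        simp only [id, Equiv.swap_apply_self]
    rw [e]
    unfold msk
    refine Finset.sum_lt_sum ?_ ⟨d, Finset.mem_range.2 hd, ?_⟩
    · intro b _
      by_cases h1 : b = c
      · rw [h1, hc0]; simp
      · by_cases h2 : b = d
        · rw [h2, Equiv.swap_apply_right]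
          exact Nat.mul_le_mul_left _ (Nat.pow_le_pow_right (by norm_num) (by omega))
        · rw [Equiv.swap_apply_of_ne_of_ne h1 h2]
    · rw [hd1, Equiv.swap_apply_right, one_mul, one_mul]
      exact Nat.pow_lt_pow_right (by norm_num) (by omega)

theorem next_row {n k : ℕ} {I : ℕ → ℕ → ℕ} (hI : Max n I) (hk : k < n) (hk1 : 1 ≤ k) :
    ∃ h x y f, Nx n I k h x y ∧ deg I k h < 3 ∧ (∀ c < n, h < c → deg I k c = 3) ∧
      deg I k x < 3 ∧ deg I k y < 3 ∧ co I k h x = 0 ∧ co I k h y = 0 ∧ co I k x y = 0 ∧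
      (∀ c < n, deg I k c = 0 ↔ c < f) ∧ f ≤ h ∧ (f ≤ y + 1 ∨ (x + 1 = f ∧ y + 2 = f)) := by
  have hM := hI.1
  obtain ⟨h, x, y, hN⟩ := c01_triple hM hk
  obtain ⟨hyx, hxh, hh, hrow⟩ := id hN
  have ih : I k h = 1 := (hrow h).2 (Or.inl rfl)
  have ix : I k x = 1 := (hrow x).2 (Or.inr (Or.inl rfl))
  have iy : I k y = 1 := (hrow y).2 (Or.inr (Or.inr rfl))
  have htop : ∀ c < n, h < c → deg I k c = 3 := by
    intro c hc hhc
    by_contra hne
    have hle : deg I k c ≤ 3 := by
      rw [← hM.col c hc]
      unfold deg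
      refine Finset.sum_le_sum_of_subset ?_
      intro j hj
      rw [Finset.mem_range] at hj ⊢
      omega
    have hex : ∃ i, k ≤ i ∧ i < n ∧ I i c = 1 := by
      by_contra hcon
      push Not at hcon
      have : deg I k c = ∑ i ∈ range n, I i c := by
        unfold deg
        refine Finset.sum_subset ?_ ?_
        · intro j hj
          rw [Finset.mem_range] at hj ⊢
          omega
        · intro j hj hj2
          rw [Finset.mem_range] at hj hj2
          have h1 := hcon j (by omega) hj
          have h2 := hM.le1 j c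
          omega
      rw [hM.col c hc] at this
      exact hne this
    obtain ⟨i, hki, hin, hic⟩ := hex
    have hik : i ≠ k := by
      intro e
      rw [e] at hic
      rcases (hrow c).1 hic with e | e | e <;> omega
    obtain ⟨d, rfl⟩ : ∃ d, i = k + (d + 1) := ⟨i - k - 1, by omega⟩
    have h1 := c01_sorted hI d hin
    have h2 := c01_msk_lt hM hN
    have h3 := c01_le_msk hc hic
    have h4 : 2 ^ (5 * (h + 1)) ≤ 2 ^ (5 * c) := Nat.pow_le_pow_right (by norm_num) (by omega)
    omega
  obtain ⟨f, hfn, hf⟩ := fresh_seg hI hk.le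
  have hfh : f ≤ h := by
    by_contra hcon
    refine closed_false hM hk.le hk1 ?_ ⟨h, hh, (hf h hh).2 (by omega)⟩
    intro c hc hc3
    by_cases hch : c ≤ h
    · exact (hf c hc).2 (by omega)
    · have := htop c hc (by omega)
      omega
  refine ⟨h, x, y, f, hN, c01_deg hM hk le_rfl ih, htop, c01_deg hM hk le_rfl ix, c01_deg hM hk le_rfl iy,
    c01_co hM le_rfl ih ix (by omega), c01_co hM le_rfl ih iy (by omega),
    c01_co hM le_rfl ix iy (by omega), hf, hfh, ?_⟩
  by_contra hcon
  push Not at hcon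
  obtain ⟨g1, g2⟩ := hcon
  have hkey : ∀ c d, d < c → c < f → I k d = 1 → c ≠ h → c ≠ x → c ≠ y → False := by
    intro c d hdc hcf hd1 e1 e2 e3
    have hc0 : I k c = 0 := by
      have h1 := hM.le1 k c
      have h2 : I k c ≠ 1 := by
        intro h3
        rcases (hrow c).1 h3 with e | e | e
        · exact e1 e
        · exact e2 e
        · exact e3 e
      omega
    exact c01_swap hI hk (by omega) hdc ((hf c (by omega)).2 hcf) ((hf d (by omega)).2 (by omega)) hd1 hc0
  by_cases hx1 : x + 1 < f
  · exact hkey (f - 1) x (by omega) (by omega) ix (by omega) (by omega) (by omega)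
  · by_cases hx2 : f ≤ x
    · exact hkey (f - 1) y (by omega) (by omega) iy (by omega) (by omega) (by omega)
    · have hx3 : x + 1 = f := by omega
      have := g2 hx3
      exact hkey (f - 2) y (by omega) (by omega) iy (by omega) (by omega) (by omega)

end Pool.Agent.N3
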