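import Pool.Agent.Lib.MP_f3f345_co.I1

/-! C02 -/
namespace Pool.Agent.N3

open Finset

theorem c02_anti {n : ℕ} {I : ℕ → ℕ → ℕ} (hI : Max n I) {i j : ℕ} (hij : i < j) (hj : j < n) :
    msk n I j < msk n I i := by
  induction j with
  | zero => omega
  | succ j ih =>
    rcases Nat.lt_or_ge i j with h | h
    · exact lt_trans (sorted hI hj) (ih h (by omega))
    · have h1 : i = j := by omega
      subst h1
      exact sorted hI hj

theorem c02_msk_pos {n i : ℕ} {I : ℕ → ℕ → ℕ} (hI : Mx n I) (hi : i < n) : msk n I i ≠ 0 := by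
  intro h0
  rw [msk, Finset.sum_eq_zero_iff] at h0
  have h1 : ∑ c ∈ range n, I i c = 0 := by
    refine Finset.sum_eq_zero fun c hc => ?_
    have h2 := h0 c hc
    have h3 : 2 ^ (5 * c) ≠ 0 := by positivity
    rcases Nat.mul_eq_zero.mp h2 with h4 | h4
    · exact h4
    · exact absurd h4 h3
  rw [hI.row i hi] at h1
  omega

theorem c02_msk_eq (n : ℕ) (I : ℕ → ℕ → ℕ) (i : ℕ) : msk n I i = S 5 n (I i) := rfl

theorem c02_msk_lt {n : ℕ} {I : ℕ → ℕ → ℕ} (hI : Mx n I) (i : ℕ) : msk n I i < 2 ^ 80 := by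
  rw [c02_msk_eq]
  refine lt_of_lt_of_le (S_lt fun c _ => lt_of_le_of_lt (hI.le1 i c) (by norm_num)) ?_
  exact Nat.pow_le_pow_right (by norm_num) (by have := hI.n15; omega)

theorem c02_perm {n : ℕ} (τ : Equiv.Perm ℕ) (hτ : ∀ i, τ i < n ↔ i < n) (b : ℕ → ℕ) :
    ∑ c ∈ range n, b (τ.symm c) * 2 ^ (5 * c) = ∑ c ∈ range n, b c * 2 ^ (5 * τ c) := by
  symm
  refine Finset.sum_nbij (fun c => τ c) ?_ ?_ ?_ ?_
  · intro c hc
    rw [mem_range] at hc ⊢
    exact (hτ c).2 hc
  · intro c _ c' _ h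
    exact τ.injective h
  · intro c hc
    rw [Finset.coe_range, Set.mem_Iio] at hc
    refine ⟨τ.symm c, ?_, τ.apply_symm_apply c⟩
    rw [Finset.coe_range, Set.mem_Iio]
    have := hτ (τ.symm c)
    rw [τ.apply_symm_apply] at this
    exact this.1 hc
  · intro c _
    simp only [Equiv.symm_apply_apply]

theorem c02_enc_div {n k : ℕ} {I : ℕ → ℕ → ℕ} (hI : Mx n I) (e : ℕ) :
    enc n I k / 2 ^ (80 * e) = S 80 (k - e) (fun m => msk n I (k - e - 1 - m)) := by
  rw [enc_eq]
  change S 80 k (fun r => msk n I (k - 1 - r)) / 2 ^ (80 * e) = _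
  rw [S_div (fun m _ => c02_msk_lt hI _)]
  refine S_congr fun m _ => ?_
  congr 1
  omega

theorem primal_false {n k t s e : ℕ} {I : ℕ → ℕ → ℕ} (hI : Max n I) (hk : k ≤ n)
    (ht : t < 2 ^ (5 * n)) (hs : s < 2 ^ (5 * n))
    (h : noncan (KK n) (enc n I k) (wM n I k) t s e = true) : False := by
  have hM := hI.1
  have hn15 := hM.n15
  have ha : ∀ r c, (if r < k then I (k - 1 - r) c else 0) ≤ 1 := by
    intro r c
    split_ifs
    · exact hM.le1 _ _
    · omega
  rw [wM_eq hk] at h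
  obtain ⟨τ, g, hτ, h1, h2, h3⟩ := noncan_bits hM.n3 hM.n15 ha ht hs h
  rw [c02_enc_div hM] at h1 h2 h3
  -- the digits of L
  obtain ⟨μ, hμ⟩ : ∃ μ : ℕ → ℕ, μ = fun i => if 1 ≤ g i ∧ g i ≤ n then
      ∑ c ∈ range n, (if g i - 1 < k then I (k - 1 - (g i - 1)) c else 0) * 2 ^ (5 * τ c) else 0 :=
    ⟨_, rfl⟩
  obtain ⟨J, hJdef⟩ : ∃ J : ℕ → ℕ → ℕ, J = fun i c => I i (τ.symm c) := ⟨_, rfl⟩
  have hτ' : ∀ i, τ.symm i < n ↔ i < n := by
    intro i
    have := hτ (τ.symm i)
    rw [τ.apply_symm_apply] at this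
    exact this.symm
  have hJ : Eqv n I J := ⟨1, τ.symm, fun i => Iff.rfl, hτ', Or.inl fun i c => by rw [hJdef]; rfl⟩
  have hmJ : ∀ i, msk n J i = ∑ c ∈ range n, I i c * 2 ^ (5 * τ c) := by
    intro i
    rw [msk, hJdef]
    exact c02_perm τ hτ (I i)
  have hMJ : ∀ i c, J i c ≤ 1 := by
    intro i c
    rw [hJdef]
    exact hM.le1 _ _
  have hmJlt : ∀ i, msk n J i < 2 ^ 80 := by
    intro i
    rw [c02_msk_eq]
    refine lt_of_lt_of_le (S_lt fun c _ => lt_of_le_of_lt (hMJ i c) (by norm_num)) ?_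
    exact Nat.pow_le_pow_right (by norm_num) (by omega)
  have hμ1 : ∀ i, μ i = 0 ∨ (1 ≤ g i ∧ g i - 1 < k ∧ μ i = msk n J (k - 1 - (g i - 1))) := by
    intro i
    by_cases h4 : 1 ≤ g i ∧ g i ≤ n
    · by_cases h5 : g i - 1 < k
      · right
        refine ⟨h4.1, h5, ?_⟩
        rw [hμ]
        simp only [if_pos h4, if_pos h5]
        rw [hmJ]
      · left
        rw [hμ]
        simp only [if_pos h4, if_neg h5]
        simp
    · left
      rw [hμ]
      simp only [if_neg h4]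
  have hμlt : ∀ i, μ i < 2 ^ 80 := by
    intro i
    rcases hμ1 i with h4 | ⟨_, _, h4⟩
    · rw [h4]; positivity
    · rw [h4]; exact hmJlt _
  have hL : (∑ i ∈ range n, (if 1 ≤ g i ∧ g i ≤ n then
      ∑ c ∈ range n, (if g i - 1 < k then I (k - 1 - (g i - 1)) c else 0) * 2 ^ (5 * τ c) else 0) *
      2 ^ (80 * i)) = S 80 n μ := by
    rw [hμ]
    rfl
  rw [hL] at h1 h2 h3
  have hn0 : 3 ≤ n := hM.n3
  obtain ⟨n', hn'⟩ : ∃ n', n = n' + 1 := ⟨n - 1, by omega⟩
  have hLs : S 80 n μ = μ 0 + 2 ^ 80 * S 80 n' (fun m => μ (m + 1)) := by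
    rw [hn', S_succ']
  have hL0 : S 80 n μ % 2 ^ 80 = μ 0 := by
    rw [hLs, Nat.add_mul_mod_self_left, Nat.mod_eq_of_lt (hμlt 0)]
  have hL1 : S 80 n μ / 2 ^ 80 = S 80 n' (fun m => μ (m + 1)) := by
    rw [hLs, Nat.add_mul_div_left _ _ (by positivity), Nat.div_eq_of_lt (hμlt 0), Nat.zero_add]
  rw [hL0] at h3
  -- the number of rows
  rcases Nat.eq_zero_or_pos (k - e) with h4 | h4
  · rw [h4] at h3
    simp [S] at h3
  obtain ⟨j, hj⟩ : ∃ j, k - e = j + 1 := ⟨k - e - 1, by omega⟩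
  rw [hj] at h1 h2 h3
  have hPs : S 80 (j + 1) (fun m => msk n I (j + 1 - 1 - m)) =
      msk n I j + 2 ^ 80 * S 80 j (fun m => msk n I (j - (m + 1))) := by
    rw [S_succ']
    rfl
  have hP1 : S 80 (j + 1) (fun m => msk n I (j + 1 - 1 - m)) / 2 ^ 80 =
      S 80 j (fun m => msk n I (j - (m + 1))) := by
    rw [hPs, Nat.add_mul_div_left _ _ (by positivity), Nat.div_eq_of_lt (c02_msk_lt hM j),
      Nat.zero_add]
  rw [hP1] at h1 h3
  rw [hL1] at h1
  rw [hPs, hLs, h1] at h2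
  have h2' : msk n I j < μ 0 := by omega
  rcases Nat.eq_zero_or_pos j with h5 | h5
  · rw [h5] at h3
    simp [S] at h3
  obtain ⟨j', hj'⟩ : ∃ j', j = j' + 1 := ⟨j - 1, by omega⟩
  have h3' : μ 0 < msk n I (j - 1) := by
    have h6 : S 80 j (fun m => msk n I (j - (m + 1))) % 2 ^ 80 = msk n I (j - 1) := by
      rw [hj', S_succ', Nat.add_mul_mod_self_left, Nat.mod_eq_of_lt (c02_msk_lt hM _)]
    rwa [h6] at h3
  have hjn : j ≤ n' := by omega
  -- digits
  have hdig : ∀ m < n', μ (m + 1) = if m < j then msk n I (j - (m + 1)) else 0 := by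
    apply S_inj (b := 80) (fun m _ => hμlt _)
    · intro m _
      split_ifs
      · exact c02_msk_lt hM _
      · positivity
    · rw [h1]
      obtain ⟨d, hd⟩ := Nat.exists_eq_add_of_le hjn
      have h6 : S 80 n' (fun m => if m < j then msk n I (j - (m + 1)) else 0) =
          S 80 j (fun m => if m < j then msk n I (j - (m + 1)) else 0) := by
        rw [hd, S, S, Finset.sum_range_add]
        have : ∑ x ∈ range d, (if j + x < j then msk n I (j - (j + x + 1)) else 0) *
            2 ^ (80 * (j + x)) = 0 := by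
          refine Finset.sum_eq_zero fun x _ => ?_
          rw [if_neg (by omega), zero_mul]
        rw [this, add_zero]
      rw [h6]
      refine S_congr fun m hm => ?_
      rw [if_pos hm]
  have hdig' : ∀ i, 1 ≤ i → i ≤ j → μ i = msk n I (j - i) := by
    intro i hi1 hi2
    have h6 := hdig (i - 1) (by omega)
    have h7 : i - 1 + 1 = i := by omega
    rw [h7, if_pos (by omega)] at h6
    exact h6
  have hne : ∀ i ≤ j, μ i ≠ 0 := by
    intro i hi
    rcases Nat.eq_zero_or_pos i with h6 | h6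
    · rw [h6]; omega
    · rw [hdig' i h6 hi]
      exact c02_msk_pos hM (by omega)
  have hval : ∀ i ≤ j, μ i = msk n J (k - 1 - (g i - 1)) := by
    intro i hi
    rcases hμ1 i with h6 | h6
    · exact absurd h6 (hne i hi)
    · exact h6.2.2
  have hfi : ∀ i < j, msk n J (k - 1 - (g (j - i) - 1)) = msk n I i := by
    intro i hi
    rw [← hval (j - i) (by omega), hdig' (j - i) (by omega) (by omega)]
    congr 1
    omega
  have hfj : msk n J (k - 1 - (g (j - j) - 1)) = μ 0 := by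
    rw [Nat.sub_self, ← hval 0 (by omega)]
  refine lex_lt hI hJ (fun i => k - 1 - (g (j - i) - 1)) (j := j) ?_ ?_ (by omega) hfi ?_
  · intro i _
    omega
  · have key : ∀ i i', i < i' → i' ≤ j →
        k - 1 - (g (j - i) - 1) ≠ k - 1 - (g (j - i') - 1) := by
      intro i i' hii hi' heq
      have h6 := hfi i (by omega)
      rw [heq] at h6
      rcases Nat.lt_or_ge i' j with h7 | h7
      · rw [hfi i' h7] at h6
        have := c02_anti hI hii (by omega)
        omega
      · have h8 : i' = j := by omega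
        rw [h8, hfj] at h6
        rcases Nat.lt_or_ge i (j - 1) with h9 | h9
        · have := c02_anti hI h9 (by omega)
          omega
        · have h10 : i = j - 1 := by omega
          rw [h10] at h6
          omega
    intro i hi i' hi' heq
    rcases Nat.lt_trichotomy i i' with h6 | h6 | h6
    · exact absurd heq (key i i' h6 hi')
    · exact h6
    · exact absurd heq.symm (key i' i h6 hi)
  · rw [hfj]
    exact h2'

end Pool.Agent.N3
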