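import Pool.Agent.Lib.MP_f3f345_co.I1

/-! # Row C03 -/
namespace Pool.Agent.N3

open Finset

/-- reversal of the first `k` numbers -/
def c03_rev (k r : ℕ) : ℕ := if r < k then k - 1 - r else r

theorem c03_rev_invol (k : ℕ) : Function.Involutive (c03_rev k) := by
  intro r
  unfold c03_rev
  by_cases h : r < k
  · have h2 : k - 1 - r < k := by omega
    simp only [h, h2, if_true]
    omega
  · simp only [h, if_false]

theorem c03_sum_reindex {n : ℕ} (σ : Equiv.Perm ℕ) (hσ : ∀ i, σ i < n ↔ i < n) (F : ℕ → ℕ) :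
    ∑ c ∈ range n, F (σ c) = ∑ r ∈ range n, F r := by
  apply Finset.sum_equiv σ
  · intro i
    rw [mem_range, mem_range, hσ]
  · intro i _
    rfl

theorem c03_eq_of_le_of_sum {n : ℕ} {F G : ℕ → ℕ} (hle : ∀ c < n, F c ≤ G c)
    (hs : ∑ c ∈ range n, F c = ∑ c ∈ range n, G c) : ∀ c < n, F c = G c := by
  have := (Finset.sum_eq_sum_iff_of_le (s := range n) (f := F) (g := G)
    (fun i hi => hle i (mem_range.1 hi))).1 hs
  exact fun c hc => this c (mem_range.2 hc)

theorem c03_msk_lt {n : ℕ} {I : ℕ → ℕ → ℕ} (hI : Mx n I) (i : ℕ) : msk n I i < 2 ^ 80 := by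
  have h1 : S 5 n (fun c => I i c) < 2 ^ (5 * n) := by
    apply S_lt
    intro m _
    have := hI.le1 i m
    calc I i m ≤ 1 := this
      _ < 2 ^ 5 := by norm_num
  have h2 : (2 : ℕ) ^ (5 * n) ≤ 2 ^ 80 := by
    apply Nat.pow_le_pow_right (by norm_num)
    have := hI.n15
    omega
  exact lt_of_lt_of_le h1 h2

theorem c03_msk_pos {n : ℕ} {I : ℕ → ℕ → ℕ} (hI : Mx n I) {i : ℕ} (hi : i < n) :
    0 < msk n I i := by
  rcases Nat.eq_zero_or_pos (msk n I i) with h | h
  · exfalso
    have h2 : ∀ c ∈ range n, I i c * 2 ^ (5 * c) = 0 := by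
      have := Finset.sum_eq_zero_iff.1 (show ∑ c ∈ range n, I i c * 2 ^ (5 * c) = 0 from h)
      exact this
    have h3 := hI.row i hi
    have h4 : ∑ c ∈ range n, I i c = 0 := by
      apply Finset.sum_eq_zero
      intro c hc
      have := h2 c hc
      rcases Nat.mul_eq_zero.1 this with h5 | h5
      · exact h5
      · exact absurd h5 (by positivity)
    omega
  · exact h

theorem c03_anti {n : ℕ} {I : ℕ → ℕ → ℕ} (hI : Max n I) {i j : ℕ} (hij : i < j) (hj : j < n) :
    msk n I j < msk n I i := by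
  induction j with
  | zero => omega
  | succ j ih =>
    have h1 := sorted hI hj
    rcases Nat.lt_or_ge i j with h | h
    · exact lt_trans h1 (ih h (by omega))
    · have : i = j := by omega
      subst this
      exact h1

theorem dual_false {n k t s e : ℕ} {I : ℕ → ℕ → ℕ} (hI : Max n I) (hk : k ≤ n)
    (ht : t < 2 ^ (5 * n)) (hs : s < 2 ^ (5 * n))
    (h : noncan (KK n) (enc n I k) (wideT (KK n) (enc n I k)) t s e = true) : False := by
  have hMx := hI.1
  have hn3 := hMx.n3
  have hn15 := hMx.n15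
  rw [wideT_eq hMx hk] at h
  have hle1 : ∀ r c, (fun c r => if r < k then I (k - 1 - r) c else 0) r c ≤ 1 := by
    intro c r
    dsimp only
    split_ifs
    · exact hMx.le1 _ _
    · omega
  obtain ⟨τ, g, hτ, hL⟩ := noncan_bits hn3 hn15 hle1 ht hs h
  dsimp only at hL
  -- the permutations
  have hinv1 : ∀ r, τ⁻¹ (τ r) = r := fun r => Equiv.symm_apply_apply τ r
  have hinv2 : ∀ c, τ (τ⁻¹ c) = c := fun c => Equiv.apply_symm_apply τ c
  have hτi : ∀ c, τ⁻¹ c < n ↔ c < n := by
    intro c
    rw [← hτ (τ⁻¹ c), hinv2]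
  set π : Equiv.Perm ℕ := (c03_rev_invol k).toPerm with hπdef
  have hπ : ∀ r, π r = c03_rev k r := fun r => rfl
  have hπn : ∀ r, π r < n ↔ r < n := by
    intro r
    rw [hπ, c03_rev]
    split_ifs <;> omega
  set J : ℕ → ℕ → ℕ := fun i c => I ((π * τ⁻¹) c) i with hJdef
  have hσn : ∀ c, (π * τ⁻¹) c < n ↔ c < n := by
    intro c
    rw [Equiv.Perm.mul_apply, hπn, hτi]
  have hEqv : Eqv n I J := by
    refine ⟨π * τ⁻¹, 1, hσn, fun i => Iff.rfl, Or.inr ?_⟩
    intro i c
    rfl
  -- the truncated rows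
  set A : ℕ → ℕ → ℕ := fun i c => if τ⁻¹ c < k then I (k - 1 - τ⁻¹ c) i else 0 with hAdef
  have hA1 : ∀ i c, A i c ≤ 1 := fun i c => hle1 i (τ⁻¹ c)
  have hAJ : ∀ i c, A i c ≤ J i c := by
    intro i c
    simp only [hAdef, hJdef, Equiv.Perm.mul_apply, hπ, c03_rev]
    split_ifs
    · exact le_refl _
    · exact Nat.zero_le _
  have hμ : ∀ i, ∑ r ∈ range n, (if r < k then I (k - 1 - r) i else 0) * 2 ^ (5 * τ r) =
      S 5 n (A i) := by
    intro i
    rw [S, ← c03_sum_reindex τ hτ (fun c => A i c * 2 ^ (5 * c))]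
    apply sum_congr rfl
    intro r _
    simp only [hAdef, hinv1]
  have hA5 : ∀ i, ∀ m < n, A i m < 2 ^ 5 := by
    intro i m _
    calc A i m ≤ 1 := hA1 i m
      _ < 2 ^ 5 := by norm_num
  have hμlt : ∀ i, S 5 n (A i) < 2 ^ 80 := by
    intro i
    refine lt_of_lt_of_le (S_lt (hA5 i)) ?_
    apply Nat.pow_le_pow_right (by norm_num)
    omega
  -- the digits of L
  set M : ℕ → ℕ := fun i => if 1 ≤ g i ∧ g i ≤ n then S 5 n (A (g i - 1)) else 0 with hMdef
  have hLS : (∑ i ∈ range n, (if 1 ≤ g i ∧ g i ≤ n then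
      ∑ c ∈ range n, (if c < k then I (k - 1 - c) (g i - 1) else 0) * 2 ^ (5 * τ c) else 0) *
          2 ^ (80 * i)) = S 80 n M := by
    rw [S]
    apply sum_congr rfl
    intro i _
    rw [hμ]
  rw [hLS] at hL
  obtain ⟨hL1, hL2, hL3⟩ := hL
  have hMlt : ∀ m < n, M m < 2 ^ 80 := by
    intro m _
    simp only [hMdef]
    split_ifs
    · exact hμlt _
    · norm_num
  -- the digits of P
  have henc : enc n I k = S 80 k (fun r => msk n I (k - 1 - r)) := enc_eq I
  have hPd := S_div (b := 80) (N := k) (f := fun r => msk n I (k - 1 - r))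
    (fun m _ => c03_msk_lt hMx _) e
  rw [henc, hPd] at hL1 hL2 hL3
  have hdiv1 := S_div (b := 80) (N := k - e) (f := fun m => msk n I (k - 1 - (m + e)))
    (fun m _ => c03_msk_lt hMx _) 1
  rw [mul_one] at hdiv1
  have hdiv2 := S_div (b := 80) (N := n) (f := M) hMlt 1
  rw [mul_one] at hdiv2
  rw [hdiv1] at hL1 hL3
  rw [hdiv2] at hL1
  -- `k - e ≥ 2`
  obtain ⟨j, hj1, hj⟩ : ∃ j, 1 ≤ j ∧ k - e = j + 1 := by
    rcases Nat.lt_or_ge (k - e) 2 with h2 | h2
    · exfalso
      have h3 : k - e - 1 = 0 := by omega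
      rw [h3] at hL3
      simp [S] at hL3
    · exact ⟨k - e - 1, by omega, by omega⟩
  rw [hj] at hL1 hL2 hL3
  rw [Nat.add_sub_cancel] at hL1 hL3
  have hjn : j < n := by omega
  have hidx : ∀ m, k - 1 - (m + e) = j - m := by intro m; omega
  simp only [hidx] at hL1 hL2 hL3
  -- digits `1 ≤ i ≤ j`
  have hdig : ∀ m < j, M (m + 1) = msk n I (j - (m + 1)) := by
    intro m hm
    have h1 := S_digit (b := 80) (N := n - 1) (f := fun m => M (m + 1))
      (fun i hi => hMlt _ (by omega)) (m := m) (by omega)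
    have h2 := S_digit (b := 80) (N := j) (f := fun m => msk n I (j - (m + 1)))
      (fun i _ => c03_msk_lt hMx _) (m := m) hm
    rw [hL1] at h1
    rw [h1] at h2
    exact h2
  have hmodL : S 80 n M % 2 ^ 80 = M 0 := by
    have := S_digit (b := 80) (N := n) (f := M) hMlt (m := 0) (by omega)
    simpa using this
  have hmodP : S 80 (j + 1) (fun m => msk n I (j - m)) % 2 ^ 80 = msk n I j := by
    have := S_digit (b := 80) (N := j + 1) (f := fun m => msk n I (j - m))
      (fun i _ => c03_msk_lt hMx _) (m := 0) (by omega)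
    simpa using this
  have hdivP : S 80 (j + 1) (fun m => msk n I (j - m)) / 2 ^ 80 =
      S 80 j (fun m => msk n I (j - (m + 1))) := by
    have := S_div (b := 80) (N := j + 1) (f := fun m => msk n I (j - m))
      (fun m _ => c03_msk_lt hMx _) 1
    rw [mul_one, Nat.add_sub_cancel] at this
    exact this
  have hM0 : msk n I j < M 0 := by
    have e1 := Nat.div_add_mod (S 80 (j + 1) (fun m => msk n I (j - m))) (2 ^ 80)
    have e2 := Nat.div_add_mod (S 80 n M) (2 ^ 80)
    rw [hdivP, hmodP] at e1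
    rw [hdiv2, hL1, hmodL] at e2
    rw [← e1, ← e2] at hL2
    omega
  have hM0' : M 0 < msk n I (j - 1) := by
    rw [hmodL] at hL3
    have := S_digit (b := 80) (N := j) (f := fun m => msk n I (j - (m + 1)))
      (fun i _ => c03_msk_lt hMx _) (m := 0) (by omega)
    simp only [mul_zero, pow_zero, Nat.div_one, zero_add] at this
    rw [this] at hL3
    exact hL3
  -- positions of the digits
  have hMpos : ∀ i ≤ j, 0 < M i := by
    intro i hi
    rcases Nat.eq_zero_or_pos i with h0 | h0
    · rw [h0]; omega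
    · obtain ⟨m, rfl⟩ : ∃ m, i = m + 1 := ⟨i - 1, by omega⟩
      rw [hdig m (by omega)]
      exact c03_msk_pos hMx (by omega)
  have hg : ∀ i ≤ j, (1 ≤ g i ∧ g i ≤ n) ∧ M i = S 5 n (A (g i - 1)) := by
    intro i hi
    have h1 := hMpos i hi
    simp only [hMdef] at h1 ⊢
    split_ifs at h1 ⊢ with h2
    · exact ⟨h2, rfl⟩
    · omega
  have hv : ∀ i < j, S 5 n (A (g (j - i) - 1)) = msk n I i := by
    intro i hi
    rw [← (hg (j - i) (by omega)).2]
    have := hdig (j - i - 1) (by omega)
    rw [show j - i - 1 + 1 = j - i by omega, show j - (j - i) = i by omega] at this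
    exact this
  have hvj : S 5 n (A (g (j - j) - 1)) = M 0 := by
    rw [Nat.sub_self, (hg 0 (by omega)).2]
  -- strictly decreasing values
  have hvlt : ∀ i i', i < i' → i' ≤ j →
      S 5 n (A (g (j - i') - 1)) < S 5 n (A (g (j - i) - 1)) := by
    intro i i' h1 h2
    rw [hv i (by omega)]
    rcases Nat.lt_or_ge i' j with h3 | h3
    · rw [hv i' h3]
      exact c03_anti hI h1 (by omega)
    · have : i' = j := by omega
      subst this
      rw [hvj]
      refine lt_of_lt_of_le hM0' ?_
      rcases Nat.lt_or_ge i (i' - 1) with h4 | h4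
      · exact (c03_anti hI h4 (by omega)).le
      · have : i = i' - 1 := by omega
        rw [this]
  have hJle : ∀ i, S 5 n (A i) ≤ msk n J i := by
    intro i
    rw [S, msk]
    apply sum_le_sum
    intro c _
    exact Nat.mul_le_mul_right _ (hAJ i c)
  refine lex_lt (j := j) hI hEqv (fun i => g (j - i) - 1) ?_ ?_ hjn ?_ ?_
  · intro i hi
    have := (hg (j - i) (by omega)).1
    show g (j - i) - 1 < n
    omega
  · intro i hi i' hi' hii
    have hii' : g (j - i) - 1 = g (j - i') - 1 := hii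
    rcases Nat.lt_trichotomy i i' with h1 | h1 | h1
    · have := hvlt i i' h1 hi'
      rw [hii'] at this
      omega
    · exact h1
    · have := hvlt i' i h1 hi
      rw [hii'] at this
      omega
  · intro i hi
    show msk n J (g (j - i) - 1) = msk n I i
    have hgi := (hg (j - i) (by omega)).1
    have h1 := hv i hi
    set p := g (j - i) - 1 with hp
    have hpn : p < n := by omega
    have h2 : ∀ c < n, A p c = I i c := by
      apply S_inj (b := 5) (hA5 p) (fun m _ => ?_) h1
      calc I i m ≤ 1 := hMx.le1 _ _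
        _ < 2 ^ 5 := by norm_num
    have h3 : ∑ c ∈ range n, A p c = 3 := by
      rw [← hMx.row i (by omega)]
      exact sum_congr rfl fun c hc => h2 c (mem_range.1 hc)
    have h4 : ∑ c ∈ range n, J p c = 3 := by
      rw [← hMx.col p hpn]
      exact c03_sum_reindex (π * τ⁻¹) hσn (fun r => I r p)
    have h5 := c03_eq_of_le_of_sum (n := n) (F := A p) (G := J p) (fun c _ => hAJ p c)
      (by rw [h3, h4])
    rw [← h1, msk, S]
    exact sum_congr rfl fun c hc => by rw [h5 c (mem_range.1 hc)]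
  · show msk n I j < msk n J (g (j - j) - 1)
    refine lt_of_lt_of_le hM0 ?_
    rw [← hvj]
    exact hJle _

end Pool.Agent.N3
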