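import Mathlib

/-! # Combinatorial (n_3) configurations and realizability -/
namespace Pool.Agent.N3

open Finset

/-- a combinatorial `(n_3)` configuration: `n` points, `n` lines (three-element sets of points), every point
on exactly three lines, two distinct points on at most one common line -/
structure Cfg (n : ℕ) where
  line : Fin n → Finset (Fin n)
  card_line : ∀ j, (line j).card = 3
  card_point : ∀ i, (univ.filter (fun j => i ∈ line j)).card = 3
  inter : ∀ i i', i ≠ i' → (univ.filter (fun j => i ∈ line j ∧ i' ∈ line j)).card ≤ 1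

/-- the incidence (Levi) graph: points on the left, lines on the right -/
def Cfg.levi {n : ℕ} (C : Cfg n) : SimpleGraph (Fin n ⊕ Fin n) where
  Adj u v := (∃ i j, u = Sum.inl i ∧ v = Sum.inr j ∧ i ∈ C.line j) ∨
    (∃ i j, u = Sum.inr j ∧ v = Sum.inl i ∧ i ∈ C.line j)
  symm := ⟨by
    rintro u v (⟨i, j, h1, h2, h3⟩ | ⟨i, j, h1, h2, h3⟩)
    · exact Or.inr ⟨i, j, h2, h1, h3⟩
    · exact Or.inl ⟨i, j, h2, h1, h3⟩⟩
  loopless := ⟨by
    rintro u (⟨i, j, h1, h2, _⟩ | ⟨i, j, h1, h2, _⟩)
    · rw [h1] at h2; exact absurd h2 (by simp)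
    · rw [h1] at h2; exact absurd h2 (by simp)⟩

/-- `n` distinct points and `n` distinct straight lines of the Euclidean plane with exactly the prescribed
incidences, the points having rational coordinates -/
def Cfg.RatRealizable {n : ℕ} (C : Cfg n) : Prop :=
  ∃ (P : Fin n → EuclideanSpace ℝ (Fin 2)) (ℓ : Fin n → AffineSubspace ℝ (EuclideanSpace ℝ (Fin 2))),
    Function.Injective P ∧ Function.Injective ℓ ∧
    (∀ j, Module.finrank ℝ (ℓ j).direction = 1) ∧
    (∀ i j, P i ∈ ℓ j ↔ i ∈ C.line j) ∧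
    (∀ i a, ∃ r : ℚ, P i a = (r : ℝ))

/-- the incidence matrix (rows are lines) -/
def Cfg.mat {n : ℕ} (C : Cfg n) (i c : ℕ) : ℕ :=
  if h : i < n ∧ c < n then (if (⟨c, h.2⟩ : Fin n) ∈ C.line ⟨i, h.1⟩ then 1 else 0) else 0

/-- isomorphism: bijections of the points and of the lines that preserve incidence -/
def Cfg.Iso {n m : ℕ} (C : Cfg n) (C' : Cfg m) : Prop :=
  ∃ (σ τ : Fin n ≃ Fin m), ∀ i j, i ∈ C.line j ↔ σ i ∈ C'.line (τ j)

/-- the Fano configuration `(7_3)` -/
def fano : Cfg 7 where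
  line := ![{6, 5, 4}, {6, 3, 2}, {6, 1, 0}, {5, 3, 1}, {5, 2, 0}, {4, 3, 0}, {4, 2, 1}]
  card_line := by decide +kernel
  card_point := by decide +kernel
  inter := by decide +kernel

/-- the Moebius-Kantor configuration `(8_3)` -/
def mobiusKantor : Cfg 8 where
  line := ![{7, 6, 5}, {7, 4, 3}, {7, 2, 1}, {6, 4, 2}, {6, 3, 0}, {5, 3, 1}, {5, 2, 0}, {4, 1, 0}]
  card_line := by decide +kernel
  card_point := by decide +kernel
  inter := by decide +kernel

/-- the exceptional configuration `(10_3)` -/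
def ten : Cfg 10 where
  line := ![{9, 8, 7}, {9, 6, 5}, {9, 4, 3}, {8, 6, 4}, {8, 2, 1}, {7, 5, 2}, {7, 3, 1}, {6, 2, 0}, {5, 3, 0},
    {4, 1, 0}]
  card_line := by decide +kernel
  card_point := by decide +kernel
  inter := by decide +kernel

end Pool.Agent.N3
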