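/-! # Kernel checker for the enumeration of the (n_3) configurations -/
namespace Pool.Agent.N3

structure K where
  n : Nat
  ones : Nat
  d80 : Nat
  s75 : Nat
  d85s : Nat
  m80 : Nat
  lt : Nat
  g0 : Nat
  ones16 : Nat
  d80f : Nat
  k1 : Nat
  j1 : Nat
  s463 : Nat
  d464f : Nat
  k2 : Nat
  j2 : Nat
  mw : Nat
  mi : Nat
  cs4 : Nat
  m448 : Nat
  mt : Nat
  b5n : Nat
  b10n : Nat
  top : Nat
  p21 : Nat
  b21 : Nat
  b42 : Nat
  s1200 : Nat
  mra : Nat
  s16 : Nat
  j21 : Nat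
  j21a : Nat
  j21b : Nat
  j21c : Nat
  s1259 : Nat
  mq : Nat
  oo : Nat
  oh : Nat
  c1 : Nat
  g7 : Nat
  g112 : Nat

noncomputable section

def spread (κ : K) (a : Nat) : Nat := Nat.land (Nat.mul a κ.s75) κ.d80
def unsat (κ : K) (G : Nat) : Nat := Nat.shiftRight (Nat.mod (Nat.land G κ.d85s) κ.m80) 4
def outer (κ : K) (w : Nat) : Nat := Nat.mul (spread κ w) w
def rowm (h idx : Nat) : Nat :=
  Nat.add (Nat.pow 32 h) (Nat.add (Nat.pow 32 (Nat.shiftRight idx 4)) (Nat.pow 32 (Nat.land idx 15)))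
def newv (h idx : Nat) : Nat :=
  Nat.add (Nat.mul 1280 h) (Nat.add (Nat.mul 80 (Nat.shiftRight idx 4)) (Nat.mul 5 (Nat.land idx 15)))
def addP (P w : Nat) : Nat := Nat.add (Nat.shiftLeft P 80) w
def addW (κ : K) (W w : Nat) : Nat := Nat.add (Nat.shiftLeft W 2320) (spread κ w)
def addF (F w : Nat) : Nat := Nat.sub F (Nat.land F w)

def cand (G U h F : Nat) : Nat :=
  Nat.sub (Nat.land (Nat.mod U (Nat.pow 32 h)) (Nat.shiftRight G (Nat.mul 80 h))) (Nat.shiftRight F 5)
def sqm (κ : K) (G F a : Nat) : Nat :=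
  Nat.add (Nat.land (Nat.land (Nat.mul (spread κ a) a) κ.lt) G)
    (Nat.shiftRight (Nat.pow (Nat.add (Nat.mul 31 F) 1) 17) 90)
def amat (κ : K) (G U h v F : Nat) : Nat :=
  Nat.mod (sqm κ G F (cand G U h F)) (Nat.pow 2 (Nat.sub v (Nat.mul 1280 h)))

def thr (f : Nat) : Nat := Nat.sub 6 (Nat.mul (Nat.sub 18 f) (Nat.sub 18 f))
/-- witness q has too few partners -/
def degbad (κ : K) (G q : Nat) : Bool :=
  Nat.ble (Nat.succ (Nat.mod (Nat.land (unsat κ G) (Nat.shiftRight G (Nat.mul 80 q))) 31))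
    (thr (Nat.land (Nat.shiftRight G (Nat.mul 85 q)) 31))

def gath (κ : K) (X Y : Nat) : Nat := Nat.mod (Nat.shiftRight (Nat.land (Nat.mul X Y) κ.mi) κ.cs4) κ.m448
def exT (κ : K) (t : Nat) : Nat :=
  Nat.land (Nat.sub κ.j1 (Nat.xor (Nat.mul (Nat.land (Nat.mul t κ.s75) κ.d80f) κ.ones) κ.k1)) κ.j1
def exA (κ : K) (s : Nat) : Nat :=
  Nat.land (Nat.sub κ.j2 (Nat.xor (Nat.mul (Nat.land (Nat.mul s κ.s463) κ.d464f) κ.d80) κ.k2)) κ.j2
def wideT (κ : K) (P : Nat) : Nat := Nat.land (Nat.mul P κ.s463) κ.mw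

def cmp2 (κ : K) (P1 Q1 L : Nat) : Bool :=
  Bool.rec (motive := fun _ => Bool) false
    (Bool.rec (motive := fun _ => Bool) false (Nat.ble (Nat.succ (Nat.land L κ.m80)) (Nat.land Q1 κ.m80))
      (Nat.ble (Nat.succ P1) L))
    (Nat.beq (Nat.shiftRight L 80) Q1)
def cmp1 (κ : K) (P1 L : Nat) : Bool := cmp2 κ P1 (Nat.shiftRight P1 80) L

def noncan2 (κ : K) (P X T s e : Nat) : Bool :=
  Bool.rec (motive := fun _ => Bool) false
    (cmp1 κ (Nat.shiftRight P (Nat.mul 80 e)) (gath κ (exA κ s) (gath κ X T)))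
    (Nat.beq (Nat.mod T κ.m80) κ.ones16)
def noncan (κ : K) (P X t s e : Nat) : Bool := noncan2 κ P X (exT κ t) s e

/-! leaf -/
def inc (κ : K) (P : Nat) : Nat :=
  Nat.land (Nat.mul (Nat.land (Nat.mul P κ.s1200) κ.mra) κ.s16) κ.j21
def spQ (κ : K) (q : Nat) : Nat := Nat.land (Nat.mul q κ.s1259) κ.mq
def prodPQ (κ : K) (p q : Nat) : Nat :=
  Nat.sub (Nat.add (Nat.mul p q) κ.c1) (Nat.add (Nat.mul p κ.oh) (Nat.mul κ.oo q))
def nz (κ : K) (Z : Nat) : Nat :=
  Nat.land (Nat.add (Nat.xor (Nat.land (Nat.shiftRight Z 14) κ.j21a) κ.j21b) κ.j21a) κ.j21c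
/-- all 7-bit digits are at most 8 -/
def small (κ : K) (p : Nat) : Bool := Nat.beq (Nat.land (Nat.lor p (Nat.add p κ.g7)) κ.g112) 0
def leafok (κ : K) (P p q : Nat) : Bool :=
  Bool.rec (motive := fun _ => Bool) false
    (Bool.rec (motive := fun _ => Bool) false
      (Bool.rec (motive := fun _ => Bool) false
        (Nat.beq (Nat.add (Nat.shiftRight (nz κ (prodPQ κ p (spQ κ q))) 7) (inc κ P)) κ.j21)
        (small κ q))
      (small κ p))
    (Nat.ble κ.top P)

/-! the search -/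
structure Ctx where
  A : Nat
  P : Nat
  F : Nat
  W : Nat
  cont : Nat → List Nat → List Nat → Bool

abbrev T := Ctx → Nat → Nat → Nat → Nat → List Nat → List Nat → Bool

def node2 (κ : K) (ih : T) (G P F W U h g idx D : Nat) (E L : List Nat) (cont : Nat → List Nat → List Nat → Bool) : Bool :=
  Bool.rec (motive := fun _ => Bool) false (ih (Ctx.mk (amat κ G U h (newv g idx) F) P F W cont) G h 0 D E L)
    (Nat.beq (Nat.shiftRight U (Nat.mul 5 h)) (Nat.succ (Nat.sub (Nat.succ (Nat.land idx 15)) (Nat.shiftRight idx 4))))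
def node (κ : K) (ih : T) (G P F W h g idx D : Nat) (E L : List Nat) (cont : Nat → List Nat → List Nat → Bool) : Bool :=
  node2 κ ih G P F W (unsat κ G) h g idx D E L cont

def kDeg (κ : K) (ih : T) (c : Ctx) (G h S D : Nat) (E L : List Nat) (s : Nat) : Bool :=
  Bool.rec (motive := fun _ => Bool) false
    (ih c G h (Nat.lor S (outer κ (rowm h (Nat.land (Nat.shiftRight s 3) 255)))) (Nat.shiftRight D 15) E L)
    (degbad κ (Nat.sub G (outer κ (rowm h (Nat.land (Nat.shiftRight s 3) 255)))) (Nat.shiftRight s 11))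

def kEnd (c : Ctx) (S D : Nat) (E L : List Nat) : Bool :=
  Bool.rec (motive := fun _ => Bool) false (c.cont (Nat.shiftRight D 3) E L) (Nat.beq (Nat.land S c.A) c.A)

def kInt (κ : K) (ih : T) (c : Ctx) (G h S D : Nat) (E L : List Nat) (s w o : Nat) : Bool :=
  node κ ih (Nat.sub G o) (addP c.P w) (addF c.F w) (addW κ c.W w) (Nat.shiftRight s 11) h (Nat.land (Nat.shiftRight s 3) 255)
    (Nat.shiftRight D 15) E L (ih c G h (Nat.lor S o))

def kNon (κ : K) (ih : T) (c : Ctx) (G h S D : Nat) (E L : List Nat) (s P X : Nat) : Bool :=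
  Bool.rec (motive := fun _ => Bool) false (ih c G h S (Nat.shiftRight D κ.b10n) E L)
    (noncan κ P X (Nat.land (Nat.shiftRight D 15) κ.mt) (Nat.land (Nat.shiftRight D κ.b5n) κ.mt) (Nat.shiftRight s 11))

def kLeaf (κ : K) (ih : T) (c : Ctx) (G h S D : Nat) (E L : List Nat) (P : Nat) : Bool :=
  Bool.rec (motive := fun _ => Bool) false (ih c G h S (Nat.shiftRight D κ.b42) E L)
   (leafok κ P (Nat.land (Nat.shiftRight D 15) κ.p21) (Nat.land (Nat.shiftRight D κ.b21) κ.p21))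

/-- closed component -/
def kClo (κ : K) (ih : T) (c : Ctx) (G h S D : Nat) (E L : List Nat) (w o : Nat) : Bool :=
  Bool.rec (motive := fun _ => Bool) false
    (Bool.rec (motive := fun _ => Bool) false (ih c G h (Nat.lor S o) (Nat.shiftRight D 15) E L)
      (Nat.ble 1 (addF c.F w)))
    (Nat.beq (unsat κ (Nat.sub G o)) (addF c.F w))

/-- delegated node: the next element of the list is the row matrix -/
def kDel (ih : T) (c : Ctx) (G h S D : Nat) (E L : List Nat) (P : Nat) : Bool :=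
  List.rec (motive := fun _ => Bool) false
    (fun a L' _ => Bool.rec (motive := fun _ => Bool) false (ih c G h S (Nat.shiftRight D 15) E L') (Nat.beq a P)) L

/-- next segment -/
def kNext (ih : T) (c : Ctx) (G h S : Nat) (E L : List Nat) : Bool :=
  List.rec (motive := fun _ => Bool) false (fun D' E' _ => ih c G h S D' E' L) E

def kC (κ : K) (ih : T) (c : Ctx) (G h S D : Nat) (E L : List Nat) (s w o : Nat) : Bool :=
  Nat.rec (motive := fun _ => Bool) (kClo κ ih c G h S D E L w o)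
    (fun _ _ => kDel ih c G h (Nat.lor S o) D E L (addP c.P w)) (Nat.shiftRight s 11)
def kB (κ : K) (ih : T) (c : Ctx) (G h S D : Nat) (E L : List Nat) (s w o t : Nat) : Bool :=
  Nat.rec (motive := fun _ => Bool) (kNon κ ih c G h (Nat.lor S o) D E L s (addP c.P w) (wideT κ (addP c.P w)))
    (fun t _ => Nat.rec (motive := fun _ => Bool) (kLeaf κ ih c G h (Nat.lor S o) D E L (addP c.P w))
      (fun t _ => Nat.rec (motive := fun _ => Bool) (kNext ih c G h S E L)
        (fun _ _ => kC κ ih c G h S D E L s w o) t) t) t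
def kA (κ : K) (ih : T) (c : Ctx) (G h S D : Nat) (E L : List Nat) (s w o t : Nat) : Bool :=
  Nat.rec (motive := fun _ => Bool) (kInt κ ih c G h S D E L s w o)
    (fun t _ => Nat.rec (motive := fun _ => Bool) (kNon κ ih c G h (Nat.lor S o) D E L s (addP c.P w) (addW κ c.W w))
      (fun t _ => kB κ ih c G h S D E L s w o t) t) t
def kO2 (κ : K) (ih : T) (c : Ctx) (G h S D : Nat) (E L : List Nat) (s w t : Nat) : Bool :=
  kA κ ih c G h S D E L s w (outer κ w) t
def kOth (κ : K) (ih : T) (c : Ctx) (G h S D : Nat) (E L : List Nat) (s t : Nat) : Bool :=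
  Nat.rec (motive := fun _ => Bool) (kEnd c S D E L)
    (fun t _ => kO2 κ ih c G h S D E L s (rowm h (Nat.land (Nat.shiftRight s 3) 255)) t) t

def step (κ : K) (ih : T) : T := fun c G h S D E L =>
  Nat.rec (motive := fun _ => Bool) (kDeg κ ih c G h S D E L (Nat.land D 32767))
    (fun t _ => kOth κ ih c G h S D E L (Nat.land D 32767) t) (Nat.land D 7)

def loop (κ : K) (fuel : Nat) : T :=
  Nat.rec (motive := fun _ => T) (fun _ _ _ _ _ _ _ => false) (fun _ ih => step κ ih) fuel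

def fld (κ : K) (P i : Nat) : Nat := Nat.land (Nat.shiftRight P (Nat.mul 80 i)) κ.m80
def stG (κ : K) (P : Nat) : Nat :=
  Nat.sub κ.g0 (Nat.rec (motive := fun _ => Nat) 0 (fun i ih => Nat.add ih (outer κ (fld κ P i))) κ.n)
def stF (κ : K) (P : Nat) : Nat :=
  Nat.sub κ.ones (Nat.rec (motive := fun _ => Nat) 0 (fun i ih => Nat.lor ih (fld κ P i)) κ.n)
def stW (κ : K) (P : Nat) : Nat :=
  Nat.rec (motive := fun _ => Nat) 0 (fun i ih => Nat.add ih (Nat.shiftLeft (spread κ (fld κ P i)) (Nat.mul 2320 i))) κ.n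
def run (κ : K) (fuel P g idx h D : Nat) (E L : List Nat) : Bool :=
  Bool.rec (motive := fun _ => Bool) false
    (Bool.rec (motive := fun _ => Bool) false
      (node κ (loop κ fuel) (stG κ P) P (stF κ P) (stW κ P) h g idx D E L
        (fun _ _ L2 => List.rec (motive := fun _ => Bool) true (fun _ _ _ => false) L2))
      (Nat.ble (Nat.succ (Nat.shiftRight idx 4)) g))
    (Nat.beq (fld κ P 0) (rowm g idx))
end
end Pool.Agent.N3
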