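import Pool.Agent.Lib.MP_f3f345_co.Cfg

/-! # Connectedness of the exceptional configurations -/
namespace Pool.Agent.N3

theorem conn_of_par {V : Type*} (G : SimpleGraph V) (r : V) (par : V → V) (rk : V → ℕ)
    (h : ∀ v, v = r ∨ (G.Adj v (par v) ∧ rk (par v) < rk v)) : G.Connected := by
  have key : ∀ k v, rk v ≤ k → G.Reachable v r := by
    intro k
    induction k with
    | zero =>
      intro v hv
      rcases h v with h1 | ⟨_, h2⟩
      · rw [h1]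
      · omega
    | succ k ih =>
      intro v hv
      rcases h v with h1 | ⟨h1, h2⟩
      · rw [h1]
      · exact h1.reachable.trans (ih _ (by omega))
  have : Nonempty V := ⟨r⟩
  exact ⟨fun u v => (key _ u le_rfl).trans (key _ v le_rfl).symm⟩

instance levi_dec {n : ℕ} (C : Cfg n) : DecidableRel C.levi.Adj := fun u v =>
  inferInstanceAs (Decidable ((∃ i j, u = Sum.inl i ∧ v = Sum.inr j ∧ i ∈ C.line j) ∨
    (∃ i j, u = Sum.inr j ∧ v = Sum.inl i ∧ i ∈ C.line j)))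

theorem fano_conn : fano.levi.Connected :=
  conn_of_par _ (Sum.inl 0)
    (Sum.elim (fun p => Sum.inr ((![0, 2, 4, 5, 5, 4, 2] : Fin 7 → Fin 7) p)) (fun j => Sum.inl ((![6, 6, 0, 1, 0, 0, 1] : Fin 7 → Fin 7) j)))
    (Sum.elim (![0, 2, 2, 2, 2, 2, 2] : Fin 7 → ℕ) (![3, 3, 1, 3, 1, 1, 3] : Fin 7 → ℕ)) (by decide +kernel)

theorem mobiusKantor_conn : mobiusKantor.levi.Connected :=
  conn_of_par _ (Sum.inl 0)
    (Sum.elim (fun p => Sum.inr ((![0, 7, 6, 4, 7, 6, 4, 1] : Fin 8 → Fin 8) p)) (fun j => Sum.inl ((![6, 3, 2, 6, 0, 3, 0, 0] : Fin 8 → Fin 8) j)))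
    (Sum.elim (![0, 2, 2, 2, 2, 2, 2, 4] : Fin 8 → ℕ) (![3, 3, 3, 3, 1, 3, 1, 1] : Fin 8 → ℕ)) (by decide +kernel)

theorem ten_conn : ten.levi.Connected :=
  conn_of_par _ (Sum.inl 0)
    (Sum.elim (fun p => Sum.inr ((![0, 9, 7, 8, 9, 8, 7, 5, 4, 1] : Fin 10 → Fin 10) p)) (fun j => Sum.inl ((![8, 6, 3, 6, 2, 2, 3, 0, 0, 0] : Fin 10 → Fin 10) j)))
    (Sum.elim (![0, 2, 2, 2, 2, 2, 2, 4, 4, 4] : Fin 10 → ℕ) (![5, 3, 3, 3, 3, 3, 3, 1, 1, 1] : Fin 10 → ℕ)) (by decide +kernel)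

end Pool.Agent.N3
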