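/-! row matrices, n = 7 -/

namespace Pool.Agent.N3.C7

def p0 : Nat := nat_lit 0x00000000000042100000
def px : Nat := nat_lit 0x00000000000042100000000000000000400084000000000000004000002100000000000002008020000000000000020004010000000000000010800100000000000000100420

end Pool.Agent.N3.C7
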