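import Pool.Agent.Lib.MP_f3f345_co.Cst
import Pool.Agent.Lib.MP_f3f345_co.R7

/-! certificates, n = 7 -/

set_option linter.defProp false

namespace Pool.Agent.N3.C7

def c0 : run K7 10000 p0 6 84 6 (nat_lit 0x24800020c4108062214c040c000106208023110a602160000831042010c853018324062904308403110a602164487a1824204a6294413192)
  [] [px] = true := by decide +kernel

end Pool.Agent.N3.C7
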