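/-! row matrices, n = 8 -/

namespace Pool.Agent.N3.C8

def p0 : Nat := nat_lit 0x00000000000842000000
def px : Nat := nat_lit 0x0000000000084200000000000000000800108000000000000008000004200000000000004010040000000000000040008001000000000000020080200000000000000200040100000000000000100021

end Pool.Agent.N3.C8
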