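import Pool.Agent.Lib.MP_f3f345_co.Cst
import Pool.Agent.Lib.MP_f3f345_co.R8

/-! certificates, n = 8 -/

set_option linter.defProp false

namespace Pool.Agent.N3.C8

def c0 : run K8 10000 p0 7 101 7 (nat_lit 0x2480000106208041190a638083000002086100c81114c702060000041882008883298e060c0000083104020906531c0c58000010620802220ca638193200000520c2010483298e262c00000a4184011106531c4c9b2020000020c4100823214c7041640001464104032044531c04192a2080030c45204201888539808192221d081298a1320280010429820310c8498853a1a)
  [] [px] = true := by decide +kernel

end Pool.Agent.N3.C8
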