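/-! row matrices, n = 9 -/

namespace Pool.Agent.N3.C9

def p0 : Nat := nat_lit 0x00000000010840000000

end Pool.Agent.N3.C9
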