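import Pool.Agent.Lib.MP_f3f345_co.Cst
import Pool.Agent.Lib.MP_f3f345_co.R9

/-! certificates, n = 9 -/

set_option linter.defProp false

namespace Pool.Agent.N3.C9

def c0 : run K9 10000 p0 8 118 8 (nat_lit 0x180001ca619021010a2198e81316c80895204c82800000062902008c4521cc824260000003148100443290e64121b000000186208c80104a74189418000000c5204011888539904a4c0000006290200886429cc82536c608000000510482200232990714060000002906100462290c740a13000000148308022194863a050dba8a000000106208023110a63a0149920000c520c4108043214c740103000062146208024288663a00858000314831042010c8531d0060c000188518820090a2198e803160000c520c4108043214c7402032400000e83142008866390a83216a4080001ca620c21010a2198e81306c82889800310c848000188518820090a2198e804360000c520c4108043214c740283000002988308022198e42a05458000014c41840110cc721502a4d841000001464104012144331d0042c800030c452040209065320e020cb1022c42800018622902010483299070306062093100430006180050a0828602103020a102840c0c1840a0c2050410286041838608143060e082050a183850a143080e10205010a640948511886404084010c12428308142870c1038408142830a142840814206061c2840a08387081428508102030a0c2860814202081c1840a0c185010a64088c0210a2310284090c328205100a4190512c2080840188041028601440a906424ea69cc942a2)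
  [nat_lit 0x124b882000000106208023110a63a0085800000082184012144331d0062c00000041882008865218e8041600000020c4100462290c740213000000106208022194863a010d9000002906208023110a63a00819000000186208ca0104874188418000310a2184202144331d0040c000188510c21010a2198e802160000c4288610808510cc74018b2486020c28406103830a104040a1c30302140850a102040a143850e0c3880a143040a102830a102050e142030a20187080635081290a] [] = true := by decide +kernel

end Pool.Agent.N3.C9
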