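import Pool.Agent.Lib.MP_f3f345_co.Rs
import Pool.Agent.Lib.MP_f3f345_co.Conn
import Pool.Agent.Lib.MP_f3f345_co.D11_00

/-! all subtrees are good, n = 11 -/

namespace Pool.Agent.N3.C11

theorem g0 : Good XX 11 p0 := rs11 c0 rfl trivial
theorem g1 : Good XX 11 p1 := rs11 c1 rfl trivial
theorem g2 : Good XX 11 p2 := rs11 c2 rfl trivial
theorem g3 : Good XX 11 p3 := rs11 c3 rfl ⟨g0, ⟨g1, ⟨g2, trivial⟩⟩⟩

end Pool.Agent.N3.C11
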