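import Pool.Agent.Lib.MP_f3f345_co.Rs
import Pool.Agent.Lib.MP_f3f345_co.Conn
import Pool.Agent.Lib.MP_f3f345_co.D12_00

/-! all subtrees are good, n = 12 -/

namespace Pool.Agent.N3.C12

theorem g0 : Good XX 12 p0 := rs12 c0 rfl trivial
theorem g1 : Good XX 12 p1 := rs12 c1 rfl trivial
theorem g2 : Good XX 12 p2 := rs12 c2 rfl ⟨g0, ⟨g1, trivial⟩⟩
theorem g3 : Good XX 12 p3 := rs12 c3 rfl trivial
theorem g4 : Good XX 12 p4 := rs12 c4 rfl trivial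
theorem g5 : Good XX 12 p5 := rs12 c5 rfl trivial
theorem g6 : Good XX 12 p6 := rs12 c6 rfl trivial
theorem g7 : Good XX 12 p7 := rs12 c7 rfl ⟨g3, ⟨g4, ⟨g5, ⟨g6, trivial⟩⟩⟩⟩
theorem g8 : Good XX 12 p8 := rs12 c8 rfl trivial
theorem g9 : Good XX 12 p9 := rs12 c9 rfl trivial
theorem g10 : Good XX 12 p10 := rs12 c10 rfl trivial
theorem g11 : Good XX 12 p11 := rs12 c11 rfl ⟨g10, trivial⟩
theorem g12 : Good XX 12 p12 := rs12 c12 rfl trivial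
theorem g13 : Good XX 12 p13 := rs12 c13 rfl ⟨g8, ⟨g9, ⟨g11, ⟨g12, trivial⟩⟩⟩⟩
theorem g14 : Good XX 12 p14 := rs12 c14 rfl ⟨g2, ⟨g7, ⟨g13, trivial⟩⟩⟩
theorem g15 : Good XX 12 p15 := rs12 c15 rfl ⟨g14, trivial⟩

end Pool.Agent.N3.C12
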