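import Pool.Agent.Lib.MP_f3f345_co.Rs
import Pool.Agent.Lib.MP_f3f345_co.Conn
import Pool.Agent.Lib.MP_f3f345_co.D13_00

/-! all subtrees are good, n = 13 -/

namespace Pool.Agent.N3.C13

theorem g0 : Good XX 13 p0 := rs13 c0 rfl trivial
theorem g1 : Good XX 13 p1 := rs13 c1 rfl trivial
theorem g2 : Good XX 13 p2 := rs13 c2 rfl trivial
theorem g3 : Good XX 13 p3 := rs13 c3 rfl trivial
theorem g4 : Good XX 13 p4 := rs13 c4 rfl trivial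
theorem g5 : Good XX 13 p5 := rs13 c5 rfl trivial
theorem g6 : Good XX 13 p6 := rs13 c6 rfl ⟨g5, trivial⟩
theorem g7 : Good XX 13 p7 := rs13 c7 rfl trivial
theorem g8 : Good XX 13 p8 := rs13 c8 rfl trivial
theorem g9 : Good XX 13 p9 := rs13 c9 rfl trivial
theorem g10 : Good XX 13 p10 := rs13 c10 rfl ⟨g9, trivial⟩
theorem g11 : Good XX 13 p11 := rs13 c11 rfl trivial
theorem g12 : Good XX 13 p12 := rs13 c12 rfl ⟨g8, ⟨g10, ⟨g11, trivial⟩⟩⟩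
theorem g13 : Good XX 13 p13 := rs13 c13 rfl trivial
theorem g14 : Good XX 13 p14 := rs13 c14 rfl trivial
theorem g15 : Good XX 13 p15 := rs13 c15 rfl trivial
theorem g16 : Good XX 13 p16 := rs13 c16 rfl trivial
theorem g17 : Good XX 13 p17 := rs13 c17 rfl trivial
theorem g18 : Good XX 13 p18 := rs13 c18 rfl trivial
theorem g19 : Good XX 13 p19 := rs13 c19 rfl ⟨g18, trivial⟩
theorem g20 : Good XX 13 p20 := rs13 c20 rfl trivial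
theorem g21 : Good XX 13 p21 := rs13 c21 rfl trivial
theorem g22 : Good XX 13 p22 := rs13 c22 rfl trivial
theorem g23 : Good XX 13 p23 := rs13 c23 rfl trivial
theorem g24 : Good XX 13 p24 := rs13 c24 rfl ⟨g2, ⟨g3, ⟨g4, ⟨g6, ⟨g7, ⟨g12, ⟨g13, ⟨g14, ⟨g15, ⟨g16, ⟨g17, ⟨g19, ⟨g20, ⟨g21, ⟨g22, ⟨g23, trivial⟩⟩⟩⟩⟩⟩⟩⟩⟩⟩⟩⟩⟩⟩⟩⟩
theorem g25 : Good XX 13 p25 := rs13 c25 rfl trivial
theorem g26 : Good XX 13 p26 := rs13 c26 rfl trivial
theorem g27 : Good XX 13 p27 := rs13 c27 rfl trivial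
theorem g28 : Good XX 13 p28 := rs13 c28 rfl trivial
theorem g29 : Good XX 13 p29 := rs13 c29 rfl trivial
theorem g30 : Good XX 13 p30 := rs13 c30 rfl trivial
theorem g31 : Good XX 13 p31 := rs13 c31 rfl trivial
theorem g32 : Good XX 13 p32 := rs13 c32 rfl trivial
theorem g33 : Good XX 13 p33 := rs13 c33 rfl trivial
theorem g34 : Good XX 13 p34 := rs13 c34 rfl trivial
theorem g35 : Good XX 13 p35 := rs13 c35 rfl trivial
theorem g36 : Good XX 13 p36 := rs13 c36 rfl ⟨g27, ⟨g28, ⟨g29, ⟨g30, ⟨g31, ⟨g32, ⟨g33, ⟨g34, ⟨g35, trivial⟩⟩⟩⟩⟩⟩⟩⟩⟩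
theorem g37 : Good XX 13 p37 := rs13 c37 rfl trivial
theorem g38 : Good XX 13 p38 := rs13 c38 rfl ⟨g37, trivial⟩
theorem g39 : Good XX 13 p39 := rs13 c39 rfl trivial
theorem g40 : Good XX 13 p40 := rs13 c40 rfl trivial
theorem g41 : Good XX 13 p41 := rs13 c41 rfl ⟨g39, ⟨g40, trivial⟩⟩
theorem g42 : Good XX 13 p42 := rs13 c42 rfl trivial
theorem g43 : Good XX 13 p43 := rs13 c43 rfl trivial
theorem g44 : Good XX 13 p44 := rs13 c44 rfl trivial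
theorem g45 : Good XX 13 p45 := rs13 c45 rfl ⟨g25, ⟨g26, ⟨g36, ⟨g38, ⟨g41, ⟨g42, ⟨g43, ⟨g44, trivial⟩⟩⟩⟩⟩⟩⟩⟩
theorem g46 : Good XX 13 p46 := rs13 c46 rfl trivial
theorem g47 : Good XX 13 p47 := rs13 c47 rfl trivial
theorem g48 : Good XX 13 p48 := rs13 c48 rfl ⟨g47, trivial⟩
theorem g49 : Good XX 13 p49 := rs13 c49 rfl trivial
theorem g50 : Good XX 13 p50 := rs13 c50 rfl trivial
theorem g51 : Good XX 13 p51 := rs13 c51 rfl trivial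
theorem g52 : Good XX 13 p52 := rs13 c52 rfl trivial
theorem g53 : Good XX 13 p53 := rs13 c53 rfl trivial
theorem g54 : Good XX 13 p54 := rs13 c54 rfl ⟨g51, ⟨g52, ⟨g53, trivial⟩⟩⟩
theorem g55 : Good XX 13 p55 := rs13 c55 rfl ⟨g49, ⟨g50, ⟨g54, trivial⟩⟩⟩
theorem g56 : Good XX 13 p56 := rs13 c56 rfl trivial
theorem g57 : Good XX 13 p57 := rs13 c57 rfl trivial
theorem g58 : Good XX 13 p58 := rs13 c58 rfl ⟨g56, ⟨g57, trivial⟩⟩
theorem g59 : Good XX 13 p59 := rs13 c59 rfl trivial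
theorem g60 : Good XX 13 p60 := rs13 c60 rfl trivial
theorem g61 : Good XX 13 p61 := rs13 c61 rfl trivial
theorem g62 : Good XX 13 p62 := rs13 c62 rfl ⟨g59, ⟨g60, ⟨g61, trivial⟩⟩⟩
theorem g63 : Good XX 13 p63 := rs13 c63 rfl trivial
theorem g64 : Good XX 13 p64 := rs13 c64 rfl ⟨g63, trivial⟩
theorem g65 : Good XX 13 p65 := rs13 c65 rfl trivial
theorem g66 : Good XX 13 p66 := rs13 c66 rfl trivial
theorem g67 : Good XX 13 p67 := rs13 c67 rfl trivial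
theorem g68 : Good XX 13 p68 := rs13 c68 rfl ⟨g65, ⟨g66, ⟨g67, trivial⟩⟩⟩
theorem g69 : Good XX 13 p69 := rs13 c69 rfl trivial
theorem g70 : Good XX 13 p70 := rs13 c70 rfl trivial
theorem g71 : Good XX 13 p71 := rs13 c71 rfl ⟨g70, trivial⟩
theorem g72 : Good XX 13 p72 := rs13 c72 rfl ⟨g0, ⟨g1, ⟨g24, ⟨g45, ⟨g46, ⟨g48, ⟨g55, ⟨g58, ⟨g62, ⟨g64, ⟨g68, ⟨g69, ⟨g71, trivial⟩⟩⟩⟩⟩⟩⟩⟩⟩⟩⟩⟩⟩
theorem g73 : Good XX 13 p73 := rs13 c73 rfl ⟨g72, trivial⟩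

end Pool.Agent.N3.C13
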