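import Pool.Agent.Lib.MP_f3f345_co.Rs
import Pool.Agent.Lib.MP_f3f345_co.Conn
import Pool.Agent.Lib.MP_f3f345_co.D14_00
import Pool.Agent.Lib.MP_f3f345_co.D14_01
import Pool.Agent.Lib.MP_f3f345_co.D14_02

/-! all subtrees are good, n = 14 -/

namespace Pool.Agent.N3.C14

theorem g0 : Good XX 14 p0 := rs14 c0 rfl trivial
theorem g1 : Good XX 14 p1 := rs14 c1 rfl trivial
theorem g2 : Good XX 14 p2 := rs14 c2 rfl ⟨g1, trivial⟩
theorem g3 : Good XX 14 p3 := rs14 c3 rfl trivial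
theorem g4 : Good XX 14 p4 := rs14 c4 rfl ⟨g0, ⟨g2, ⟨g3, trivial⟩⟩⟩
theorem g5 : Good XX 14 p5 := rs14 c5 rfl ⟨g4, trivial⟩
theorem g6 : Good XX 14 p6 := rs14 c6 rfl trivial
theorem g7 : Good XX 14 p7 := rs14 c7 rfl trivial
theorem g8 : Good XX 14 p8 := rs14 c8 rfl ⟨g7, trivial⟩
theorem g9 : Good XX 14 p9 := rs14 c9 rfl trivial
theorem g10 : Good XX 14 p10 := rs14 c10 rfl trivial
theorem g11 : Good XX 14 p11 := rs14 c11 rfl trivial
theorem g12 : Good XX 14 p12 := rs14 c12 rfl ⟨g9, ⟨g10, ⟨g11, trivial⟩⟩⟩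
theorem g13 : Good XX 14 p13 := rs14 c13 rfl ⟨g6, ⟨g8, ⟨g12, trivial⟩⟩⟩
theorem g14 : Good XX 14 p14 := rs14 c14 rfl trivial
theorem g15 : Good XX 14 p15 := rs14 c15 rfl trivial
theorem g16 : Good XX 14 p16 := rs14 c16 rfl trivial
theorem g17 : Good XX 14 p17 := rs14 c17 rfl ⟨g16, trivial⟩
theorem g18 : Good XX 14 p18 := rs14 c18 rfl trivial
theorem g19 : Good XX 14 p19 := rs14 c19 rfl trivial
theorem g20 : Good XX 14 p20 := rs14 c20 rfl ⟨g19, trivial⟩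
theorem g21 : Good XX 14 p21 := rs14 c21 rfl ⟨g18, ⟨g20, trivial⟩⟩
theorem g22 : Good XX 14 p22 := rs14 c22 rfl trivial
theorem g23 : Good XX 14 p23 := rs14 c23 rfl trivial
theorem g24 : Good XX 14 p24 := rs14 c24 rfl ⟨g22, ⟨g23, trivial⟩⟩
theorem g25 : Good XX 14 p25 := rs14 c25 rfl ⟨g14, ⟨g15, ⟨g17, ⟨g21, ⟨g24, trivial⟩⟩⟩⟩⟩
theorem g26 : Good XX 14 p26 := rs14 c26 rfl trivial
theorem g27 : Good XX 14 p27 := rs14 c27 rfl trivial
theorem g28 : Good XX 14 p28 := rs14 c28 rfl trivial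
theorem g29 : Good XX 14 p29 := rs14 c29 rfl ⟨g28, trivial⟩
theorem g30 : Good XX 14 p30 := rs14 c30 rfl ⟨g26, ⟨g27, ⟨g29, trivial⟩⟩⟩
theorem g31 : Good XX 14 p31 := rs14 c31 rfl trivial
theorem g32 : Good XX 14 p32 := rs14 c32 rfl trivial
theorem g33 : Good XX 14 p33 := rs14 c33 rfl trivial
theorem g34 : Good XX 14 p34 := rs14 c34 rfl ⟨g33, trivial⟩
theorem g35 : Good XX 14 p35 := rs14 c35 rfl trivial
theorem g36 : Good XX 14 p36 := rs14 c36 rfl ⟨g35, trivial⟩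
theorem g37 : Good XX 14 p37 := rs14 c37 rfl trivial
theorem g38 : Good XX 14 p38 := rs14 c38 rfl trivial
theorem g39 : Good XX 14 p39 := rs14 c39 rfl ⟨g38, trivial⟩
theorem g40 : Good XX 14 p40 := rs14 c40 rfl ⟨g37, ⟨g39, trivial⟩⟩
theorem g41 : Good XX 14 p41 := rs14 c41 rfl trivial
theorem g42 : Good XX 14 p42 := rs14 c42 rfl trivial
theorem g43 : Good XX 14 p43 := rs14 c43 rfl trivial
theorem g44 : Good XX 14 p44 := rs14 c44 rfl ⟨g43, trivial⟩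
theorem g45 : Good XX 14 p45 := rs14 c45 rfl trivial
theorem g46 : Good XX 14 p46 := rs14 c46 rfl trivial
theorem g47 : Good XX 14 p47 := rs14 c47 rfl trivial
theorem g48 : Good XX 14 p48 := rs14 c48 rfl ⟨g45, ⟨g46, ⟨g47, trivial⟩⟩⟩
theorem g49 : Good XX 14 p49 := rs14 c49 rfl trivial
theorem g50 : Good XX 14 p50 := rs14 c50 rfl trivial
theorem g51 : Good XX 14 p51 := rs14 c51 rfl trivial
theorem g52 : Good XX 14 p52 := rs14 c52 rfl ⟨g51, trivial⟩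
theorem g53 : Good XX 14 p53 := rs14 c53 rfl trivial
theorem g54 : Good XX 14 p54 := rs14 c54 rfl trivial
theorem g55 : Good XX 14 p55 := rs14 c55 rfl trivial
theorem g56 : Good XX 14 p56 := rs14 c56 rfl ⟨g53, ⟨g54, ⟨g55, trivial⟩⟩⟩
theorem g57 : Good XX 14 p57 := rs14 c57 rfl trivial
theorem g58 : Good XX 14 p58 := rs14 c58 rfl trivial
theorem g59 : Good XX 14 p59 := rs14 c59 rfl trivial
theorem g60 : Good XX 14 p60 := rs14 c60 rfl trivial
theorem g61 : Good XX 14 p61 := rs14 c61 rfl trivial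
theorem g62 : Good XX 14 p62 := rs14 c62 rfl ⟨g57, ⟨g58, ⟨g59, ⟨g60, ⟨g61, trivial⟩⟩⟩⟩⟩
theorem g63 : Good XX 14 p63 := rs14 c63 rfl trivial
theorem g64 : Good XX 14 p64 := rs14 c64 rfl trivial
theorem g65 : Good XX 14 p65 := rs14 c65 rfl trivial
theorem g66 : Good XX 14 p66 := rs14 c66 rfl ⟨g63, ⟨g64, ⟨g65, trivial⟩⟩⟩
theorem g67 : Good XX 14 p67 := rs14 c67 rfl ⟨g31, ⟨g32, ⟨g34, ⟨g36, ⟨g40, ⟨g41, ⟨g42, ⟨g44, ⟨g48, ⟨g49, ⟨g50, ⟨g52, ⟨g56, ⟨g62, ⟨g66, trivial⟩⟩⟩⟩⟩⟩⟩⟩⟩⟩⟩⟩⟩⟩⟩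
theorem g68 : Good XX 14 p68 := rs14 c68 rfl trivial
theorem g69 : Good XX 14 p69 := rs14 c69 rfl trivial
theorem g70 : Good XX 14 p70 := rs14 c70 rfl ⟨g68, ⟨g69, trivial⟩⟩
theorem g71 : Good XX 14 p71 := rs14 c71 rfl trivial
theorem g72 : Good XX 14 p72 := rs14 c72 rfl trivial
theorem g73 : Good XX 14 p73 := rs14 c73 rfl trivial
theorem g74 : Good XX 14 p74 := rs14 c74 rfl ⟨g71, ⟨g72, ⟨g73, trivial⟩⟩⟩
theorem g75 : Good XX 14 p75 := rs14 c75 rfl trivial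
theorem g76 : Good XX 14 p76 := rs14 c76 rfl trivial
theorem g77 : Good XX 14 p77 := rs14 c77 rfl trivial
theorem g78 : Good XX 14 p78 := rs14 c78 rfl trivial
theorem g79 : Good XX 14 p79 := rs14 c79 rfl ⟨g78, trivial⟩
theorem g80 : Good XX 14 p80 := rs14 c80 rfl ⟨g76, ⟨g77, ⟨g79, trivial⟩⟩⟩
theorem g81 : Good XX 14 p81 := rs14 c81 rfl trivial
theorem g82 : Good XX 14 p82 := rs14 c82 rfl trivial
theorem g83 : Good XX 14 p83 := rs14 c83 rfl trivial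
theorem g84 : Good XX 14 p84 := rs14 c84 rfl trivial
theorem g85 : Good XX 14 p85 := rs14 c85 rfl ⟨g84, trivial⟩
theorem g86 : Good XX 14 p86 := rs14 c86 rfl trivial
theorem g87 : Good XX 14 p87 := rs14 c87 rfl trivial
theorem g88 : Good XX 14 p88 := rs14 c88 rfl ⟨g87, trivial⟩
theorem g89 : Good XX 14 p89 := rs14 c89 rfl trivial
theorem g90 : Good XX 14 p90 := rs14 c90 rfl ⟨g81, ⟨g82, ⟨g83, ⟨g85, ⟨g86, ⟨g88, ⟨g89, trivial⟩⟩⟩⟩⟩⟩⟩
theorem g91 : Good XX 14 p91 := rs14 c91 rfl trivial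
theorem g92 : Good XX 14 p92 := rs14 c92 rfl trivial
theorem g93 : Good XX 14 p93 := rs14 c93 rfl ⟨g92, trivial⟩
theorem g94 : Good XX 14 p94 := rs14 c94 rfl ⟨g91, ⟨g93, trivial⟩⟩
theorem g95 : Good XX 14 p95 := rs14 c95 rfl trivial
theorem g96 : Good XX 14 p96 := rs14 c96 rfl trivial
theorem g97 : Good XX 14 p97 := rs14 c97 rfl trivial
theorem g98 : Good XX 14 p98 := rs14 c98 rfl trivial
theorem g99 : Good XX 14 p99 := rs14 c99 rfl trivial
theorem g100 : Good XX 14 p100 := rs14 c100 rfl trivial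
theorem g101 : Good XX 14 p101 := rs14 c101 rfl trivial
theorem g102 : Good XX 14 p102 := rs14 c102 rfl trivial
theorem g103 : Good XX 14 p103 := rs14 c103 rfl ⟨g98, ⟨g99, ⟨g100, ⟨g101, ⟨g102, trivial⟩⟩⟩⟩⟩
theorem g104 : Good XX 14 p104 := rs14 c104 rfl trivial
theorem g105 : Good XX 14 p105 := rs14 c105 rfl ⟨g104, trivial⟩
theorem g106 : Good XX 14 p106 := rs14 c106 rfl trivial
theorem g107 : Good XX 14 p107 := rs14 c107 rfl ⟨g106, trivial⟩
theorem g108 : Good XX 14 p108 := rs14 c108 rfl ⟨g95, ⟨g96, ⟨g97, ⟨g103, ⟨g105, ⟨g107, trivial⟩⟩⟩⟩⟩⟩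
theorem g109 : Good XX 14 p109 := rs14 c109 rfl trivial
theorem g110 : Good XX 14 p110 := rs14 c110 rfl ⟨g109, trivial⟩
theorem g111 : Good XX 14 p111 := rs14 c111 rfl trivial
theorem g112 : Good XX 14 p112 := rs14 c112 rfl trivial
theorem g113 : Good XX 14 p113 := rs14 c113 rfl trivial
theorem g114 : Good XX 14 p114 := rs14 c114 rfl trivial
theorem g115 : Good XX 14 p115 := rs14 c115 rfl trivial
theorem g116 : Good XX 14 p116 := rs14 c116 rfl trivial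
theorem g117 : Good XX 14 p117 := rs14 c117 rfl ⟨g113, ⟨g114, ⟨g115, ⟨g116, trivial⟩⟩⟩⟩
theorem g118 : Good XX 14 p118 := rs14 c118 rfl trivial
theorem g119 : Good XX 14 p119 := rs14 c119 rfl trivial
theorem g120 : Good XX 14 p120 := rs14 c120 rfl trivial
theorem g121 : Good XX 14 p121 := rs14 c121 rfl trivial
theorem g122 : Good XX 14 p122 := rs14 c122 rfl trivial
theorem g123 : Good XX 14 p123 := rs14 c123 rfl trivial
theorem g124 : Good XX 14 p124 := rs14 c124 rfl ⟨g120, ⟨g121, ⟨g122, ⟨g123, trivial⟩⟩⟩⟩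
theorem g125 : Good XX 14 p125 := rs14 c125 rfl trivial
theorem g126 : Good XX 14 p126 := rs14 c126 rfl ⟨g125, trivial⟩
theorem g127 : Good XX 14 p127 := rs14 c127 rfl trivial
theorem g128 : Good XX 14 p128 := rs14 c128 rfl trivial
theorem g129 : Good XX 14 p129 := rs14 c129 rfl ⟨g127, ⟨g128, trivial⟩⟩
theorem g130 : Good XX 14 p130 := rs14 c130 rfl ⟨g110, ⟨g111, ⟨g112, ⟨g117, ⟨g118, ⟨g119, ⟨g124, ⟨g126, ⟨g129, trivial⟩⟩⟩⟩⟩⟩⟩⟩⟩
theorem g131 : Good XX 14 p131 := rs14 c131 rfl trivial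
theorem g132 : Good XX 14 p132 := rs14 c132 rfl trivial
theorem g133 : Good XX 14 p133 := rs14 c133 rfl trivial
theorem g134 : Good XX 14 p134 := rs14 c134 rfl trivial
theorem g135 : Good XX 14 p135 := rs14 c135 rfl ⟨g134, trivial⟩
theorem g136 : Good XX 14 p136 := rs14 c136 rfl trivial
theorem g137 : Good XX 14 p137 := rs14 c137 rfl ⟨g136, trivial⟩
theorem g138 : Good XX 14 p138 := rs14 c138 rfl trivial
theorem g139 : Good XX 14 p139 := rs14 c139 rfl ⟨g138, trivial⟩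
theorem g140 : Good XX 14 p140 := rs14 c140 rfl trivial
theorem g141 : Good XX 14 p141 := rs14 c141 rfl ⟨g140, trivial⟩
theorem g142 : Good XX 14 p142 := rs14 c142 rfl trivial
theorem g143 : Good XX 14 p143 := rs14 c143 rfl trivial
theorem g144 : Good XX 14 p144 := rs14 c144 rfl trivial
theorem g145 : Good XX 14 p145 := rs14 c145 rfl trivial
theorem g146 : Good XX 14 p146 := rs14 c146 rfl trivial
theorem g147 : Good XX 14 p147 := rs14 c147 rfl ⟨g146, trivial⟩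
theorem g148 : Good XX 14 p148 := rs14 c148 rfl ⟨g144, ⟨g145, ⟨g147, trivial⟩⟩⟩
theorem g149 : Good XX 14 p149 := rs14 c149 rfl trivial
theorem g150 : Good XX 14 p150 := rs14 c150 rfl ⟨g149, trivial⟩
theorem g151 : Good XX 14 p151 := rs14 c151 rfl trivial
theorem g152 : Good XX 14 p152 := rs14 c152 rfl ⟨g151, trivial⟩
theorem g153 : Good XX 14 p153 := rs14 c153 rfl trivial
theorem g154 : Good XX 14 p154 := rs14 c154 rfl trivial
theorem g155 : Good XX 14 p155 := rs14 c155 rfl trivial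
theorem g156 : Good XX 14 p156 := rs14 c156 rfl trivial
theorem g157 : Good XX 14 p157 := rs14 c157 rfl trivial
theorem g158 : Good XX 14 p158 := rs14 c158 rfl ⟨g150, ⟨g152, ⟨g153, ⟨g154, ⟨g155, ⟨g156, ⟨g157, trivial⟩⟩⟩⟩⟩⟩⟩
theorem g159 : Good XX 14 p159 := rs14 c159 rfl trivial
theorem g160 : Good XX 14 p160 := rs14 c160 rfl ⟨g159, trivial⟩
theorem g161 : Good XX 14 p161 := rs14 c161 rfl trivial
theorem g162 : Good XX 14 p162 := rs14 c162 rfl ⟨g161, trivial⟩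
theorem g163 : Good XX 14 p163 := rs14 c163 rfl trivial
theorem g164 : Good XX 14 p164 := rs14 c164 rfl trivial
theorem g165 : Good XX 14 p165 := rs14 c165 rfl trivial
theorem g166 : Good XX 14 p166 := rs14 c166 rfl ⟨g164, ⟨g165, trivial⟩⟩
theorem g167 : Good XX 14 p167 := rs14 c167 rfl trivial
theorem g168 : Good XX 14 p168 := rs14 c168 rfl ⟨g167, trivial⟩
theorem g169 : Good XX 14 p169 := rs14 c169 rfl trivial
theorem g170 : Good XX 14 p170 := rs14 c170 rfl ⟨g169, trivial⟩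
theorem g171 : Good XX 14 p171 := rs14 c171 rfl trivial
theorem g172 : Good XX 14 p172 := rs14 c172 rfl trivial
theorem g173 : Good XX 14 p173 := rs14 c173 rfl ⟨g170, ⟨g171, ⟨g172, trivial⟩⟩⟩
theorem g174 : Good XX 14 p174 := rs14 c174 rfl trivial
theorem g175 : Good XX 14 p175 := rs14 c175 rfl trivial
theorem g176 : Good XX 14 p176 := rs14 c176 rfl ⟨g175, trivial⟩
theorem g177 : Good XX 14 p177 := rs14 c177 rfl trivial
theorem g178 : Good XX 14 p178 := rs14 c178 rfl trivial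
theorem g179 : Good XX 14 p179 := rs14 c179 rfl trivial
theorem g180 : Good XX 14 p180 := rs14 c180 rfl trivial
theorem g181 : Good XX 14 p181 := rs14 c181 rfl ⟨g180, trivial⟩
theorem g182 : Good XX 14 p182 := rs14 c182 rfl trivial
theorem g183 : Good XX 14 p183 := rs14 c183 rfl trivial
theorem g184 : Good XX 14 p184 := rs14 c184 rfl trivial
theorem g185 : Good XX 14 p185 := rs14 c185 rfl ⟨g184, trivial⟩
theorem g186 : Good XX 14 p186 := rs14 c186 rfl trivial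
theorem g187 : Good XX 14 p187 := rs14 c187 rfl trivial
theorem g188 : Good XX 14 p188 := rs14 c188 rfl trivial
theorem g189 : Good XX 14 p189 := rs14 c189 rfl trivial
theorem g190 : Good XX 14 p190 := rs14 c190 rfl trivial
theorem g191 : Good XX 14 p191 := rs14 c191 rfl ⟨g190, trivial⟩
theorem g192 : Good XX 14 p192 := rs14 c192 rfl trivial
theorem g193 : Good XX 14 p193 := rs14 c193 rfl trivial
theorem g194 : Good XX 14 p194 := rs14 c194 rfl trivial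
theorem g195 : Good XX 14 p195 := rs14 c195 rfl trivial
theorem g196 : Good XX 14 p196 := rs14 c196 rfl ⟨g192, ⟨g193, ⟨g194, ⟨g195, trivial⟩⟩⟩⟩
theorem g197 : Good XX 14 p197 := rs14 c197 rfl trivial
theorem g198 : Good XX 14 p198 := rs14 c198 rfl ⟨g186, ⟨g187, ⟨g188, ⟨g189, ⟨g191, ⟨g196, ⟨g197, trivial⟩⟩⟩⟩⟩⟩⟩
theorem g199 : Good XX 14 p199 := rs14 c199 rfl ⟨g176, ⟨g177, ⟨g178, ⟨g179, ⟨g181, ⟨g182, ⟨g183, ⟨g185, ⟨g198, trivial⟩⟩⟩⟩⟩⟩⟩⟩⟩
theorem g200 : Good XX 14 p200 := rs14 c200 rfl trivial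
theorem g201 : Good XX 14 p201 := rs14 c201 rfl trivial
theorem g202 : Good XX 14 p202 := rs14 c202 rfl trivial
theorem g203 : Good XX 14 p203 := rs14 c203 rfl trivial
theorem g204 : Good XX 14 p204 := rs14 c204 rfl ⟨g203, trivial⟩
theorem g205 : Good XX 14 p205 := rs14 c205 rfl trivial
theorem g206 : Good XX 14 p206 := rs14 c206 rfl trivial
theorem g207 : Good XX 14 p207 := rs14 c207 rfl trivial
theorem g208 : Good XX 14 p208 := rs14 c208 rfl trivial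
theorem g209 : Good XX 14 p209 := rs14 c209 rfl trivial
theorem g210 : Good XX 14 p210 := rs14 c210 rfl ⟨g200, ⟨g201, ⟨g202, ⟨g204, ⟨g205, ⟨g206, ⟨g207, ⟨g208, ⟨g209, trivial⟩⟩⟩⟩⟩⟩⟩⟩⟩
theorem g211 : Good XX 14 p211 := rs14 c211 rfl trivial
theorem g212 : Good XX 14 p212 := rs14 c212 rfl trivial
theorem g213 : Good XX 14 p213 := rs14 c213 rfl trivial
theorem g214 : Good XX 14 p214 := rs14 c214 rfl trivial
theorem g215 : Good XX 14 p215 := rs14 c215 rfl trivial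
theorem g216 : Good XX 14 p216 := rs14 c216 rfl ⟨g215, trivial⟩
theorem g217 : Good XX 14 p217 := rs14 c217 rfl trivial
theorem g218 : Good XX 14 p218 := rs14 c218 rfl trivial
theorem g219 : Good XX 14 p219 := rs14 c219 rfl trivial
theorem g220 : Good XX 14 p220 := rs14 c220 rfl trivial
theorem g221 : Good XX 14 p221 := rs14 c221 rfl trivial
theorem g222 : Good XX 14 p222 := rs14 c222 rfl trivial
theorem g223 : Good XX 14 p223 := rs14 c223 rfl ⟨g220, ⟨g221, ⟨g222, trivial⟩⟩⟩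
theorem g224 : Good XX 14 p224 := rs14 c224 rfl trivial
theorem g225 : Good XX 14 p225 := rs14 c225 rfl ⟨g224, trivial⟩
theorem g226 : Good XX 14 p226 := rs14 c226 rfl trivial
theorem g227 : Good XX 14 p227 := rs14 c227 rfl ⟨g226, trivial⟩
theorem g228 : Good XX 14 p228 := rs14 c228 rfl trivial
theorem g229 : Good XX 14 p229 := rs14 c229 rfl trivial
theorem g230 : Good XX 14 p230 := rs14 c230 rfl ⟨g229, trivial⟩
theorem g231 : Good XX 14 p231 := rs14 c231 rfl trivial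
theorem g232 : Good XX 14 p232 := rs14 c232 rfl trivial
theorem g233 : Good XX 14 p233 := rs14 c233 rfl trivial
theorem g234 : Good XX 14 p234 := rs14 c234 rfl trivial
theorem g235 : Good XX 14 p235 := rs14 c235 rfl trivial
theorem g236 : Good XX 14 p236 := rs14 c236 rfl ⟨g233, ⟨g234, ⟨g235, trivial⟩⟩⟩
theorem g237 : Good XX 14 p237 := rs14 c237 rfl trivial
theorem g238 : Good XX 14 p238 := rs14 c238 rfl ⟨g237, trivial⟩
theorem g239 : Good XX 14 p239 := rs14 c239 rfl trivial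
theorem g240 : Good XX 14 p240 := rs14 c240 rfl trivial
theorem g241 : Good XX 14 p241 := rs14 c241 rfl trivial
theorem g242 : Good XX 14 p242 := rs14 c242 rfl trivial
theorem g243 : Good XX 14 p243 := rs14 c243 rfl ⟨g240, ⟨g241, ⟨g242, trivial⟩⟩⟩
theorem g244 : Good XX 14 p244 := rs14 c244 rfl trivial
theorem g245 : Good XX 14 p245 := rs14 c245 rfl trivial
theorem g246 : Good XX 14 p246 := rs14 c246 rfl trivial
theorem g247 : Good XX 14 p247 := rs14 c247 rfl trivial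
theorem g248 : Good XX 14 p248 := rs14 c248 rfl ⟨g244, ⟨g245, ⟨g246, ⟨g247, trivial⟩⟩⟩⟩
theorem g249 : Good XX 14 p249 := rs14 c249 rfl trivial
theorem g250 : Good XX 14 p250 := rs14 c250 rfl trivial
theorem g251 : Good XX 14 p251 := rs14 c251 rfl trivial
theorem g252 : Good XX 14 p252 := rs14 c252 rfl ⟨g249, ⟨g250, ⟨g251, trivial⟩⟩⟩
theorem g253 : Good XX 14 p253 := rs14 c253 rfl ⟨g228, ⟨g230, ⟨g231, ⟨g232, ⟨g236, ⟨g238, ⟨g239, ⟨g243, ⟨g248, ⟨g252, trivial⟩⟩⟩⟩⟩⟩⟩⟩⟩⟩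
theorem g254 : Good XX 14 p254 := rs14 c254 rfl trivial
theorem g255 : Good XX 14 p255 := rs14 c255 rfl trivial
theorem g256 : Good XX 14 p256 := rs14 c256 rfl trivial
theorem g257 : Good XX 14 p257 := rs14 c257 rfl trivial
theorem g258 : Good XX 14 p258 := rs14 c258 rfl trivial
theorem g259 : Good XX 14 p259 := rs14 c259 rfl trivial
theorem g260 : Good XX 14 p260 := rs14 c260 rfl trivial
theorem g261 : Good XX 14 p261 := rs14 c261 rfl trivial
theorem g262 : Good XX 14 p262 := rs14 c262 rfl ⟨g259, ⟨g260, ⟨g261, trivial⟩⟩⟩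
theorem g263 : Good XX 14 p263 := rs14 c263 rfl trivial
theorem g264 : Good XX 14 p264 := rs14 c264 rfl trivial
theorem g265 : Good XX 14 p265 := rs14 c265 rfl ⟨g263, ⟨g264, trivial⟩⟩
theorem g266 : Good XX 14 p266 := rs14 c266 rfl trivial
theorem g267 : Good XX 14 p267 := rs14 c267 rfl trivial
theorem g268 : Good XX 14 p268 := rs14 c268 rfl ⟨g266, ⟨g267, trivial⟩⟩
theorem g269 : Good XX 14 p269 := rs14 c269 rfl ⟨g254, ⟨g255, ⟨g256, ⟨g257, ⟨g258, ⟨g262, ⟨g265, ⟨g268, trivial⟩⟩⟩⟩⟩⟩⟩⟩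
theorem g270 : Good XX 14 p270 := rs14 c270 rfl ⟨g211, ⟨g212, ⟨g213, ⟨g214, ⟨g216, ⟨g217, ⟨g218, ⟨g219, ⟨g223, ⟨g225, ⟨g227, ⟨g253, ⟨g269, trivial⟩⟩⟩⟩⟩⟩⟩⟩⟩⟩⟩⟩⟩
theorem g271 : Good XX 14 p271 := rs14 c271 rfl trivial
theorem g272 : Good XX 14 p272 := rs14 c272 rfl trivial
theorem g273 : Good XX 14 p273 := rs14 c273 rfl trivial
theorem g274 : Good XX 14 p274 := rs14 c274 rfl trivial
theorem g275 : Good XX 14 p275 := rs14 c275 rfl trivial
theorem g276 : Good XX 14 p276 := rs14 c276 rfl ⟨g275, trivial⟩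
theorem g277 : Good XX 14 p277 := rs14 c277 rfl trivial
theorem g278 : Good XX 14 p278 := rs14 c278 rfl trivial
theorem g279 : Good XX 14 p279 := rs14 c279 rfl trivial
theorem g280 : Good XX 14 p280 := rs14 c280 rfl ⟨g279, trivial⟩
theorem g281 : Good XX 14 p281 := rs14 c281 rfl trivial
theorem g282 : Good XX 14 p282 := rs14 c282 rfl ⟨g273, ⟨g274, ⟨g276, ⟨g277, ⟨g278, ⟨g280, ⟨g281, trivial⟩⟩⟩⟩⟩⟩⟩
theorem g283 : Good XX 14 p283 := rs14 c283 rfl trivial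
theorem g284 : Good XX 14 p284 := rs14 c284 rfl ⟨g283, trivial⟩
theorem g285 : Good XX 14 p285 := rs14 c285 rfl ⟨g284, trivial⟩
theorem g286 : Good XX 14 p286 := rs14 c286 rfl trivial
theorem g287 : Good XX 14 p287 := rs14 c287 rfl ⟨g286, trivial⟩
theorem g288 : Good XX 14 p288 := rs14 c288 rfl trivial
theorem g289 : Good XX 14 p289 := rs14 c289 rfl ⟨g288, trivial⟩
theorem g290 : Good XX 14 p290 := rs14 c290 rfl trivial
theorem g291 : Good XX 14 p291 := rs14 c291 rfl trivial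
theorem g292 : Good XX 14 p292 := rs14 c292 rfl trivial
theorem g293 : Good XX 14 p293 := rs14 c293 rfl trivial
theorem g294 : Good XX 14 p294 := rs14 c294 rfl trivial
theorem g295 : Good XX 14 p295 := rs14 c295 rfl ⟨g292, ⟨g293, ⟨g294, trivial⟩⟩⟩
theorem g296 : Good XX 14 p296 := rs14 c296 rfl trivial
theorem g297 : Good XX 14 p297 := rs14 c297 rfl ⟨g296, trivial⟩
theorem g298 : Good XX 14 p298 := rs14 c298 rfl trivial
theorem g299 : Good XX 14 p299 := rs14 c299 rfl trivial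
theorem g300 : Good XX 14 p300 := rs14 c300 rfl ⟨g299, trivial⟩
theorem g301 : Good XX 14 p301 := rs14 c301 rfl trivial
theorem g302 : Good XX 14 p302 := rs14 c302 rfl trivial
theorem g303 : Good XX 14 p303 := rs14 c303 rfl trivial
theorem g304 : Good XX 14 p304 := rs14 c304 rfl trivial
theorem g305 : Good XX 14 p305 := rs14 c305 rfl trivial
theorem g306 : Good XX 14 p306 := rs14 c306 rfl ⟨g302, ⟨g303, ⟨g304, ⟨g305, trivial⟩⟩⟩⟩
theorem g307 : Good XX 14 p307 := rs14 c307 rfl trivial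
theorem g308 : Good XX 14 p308 := rs14 c308 rfl trivial
theorem g309 : Good XX 14 p309 := rs14 c309 rfl trivial
theorem g310 : Good XX 14 p310 := rs14 c310 rfl ⟨g308, ⟨g309, trivial⟩⟩
theorem g311 : Good XX 14 p311 := rs14 c311 rfl trivial
theorem g312 : Good XX 14 p312 := rs14 c312 rfl trivial
theorem g313 : Good XX 14 p313 := rs14 c313 rfl ⟨g311, ⟨g312, trivial⟩⟩
theorem g314 : Good XX 14 p314 := rs14 c314 rfl trivial
theorem g315 : Good XX 14 p315 := rs14 c315 rfl trivial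
theorem g316 : Good XX 14 p316 := rs14 c316 rfl trivial
theorem g317 : Good XX 14 p317 := rs14 c317 rfl trivial
theorem g318 : Good XX 14 p318 := rs14 c318 rfl trivial
theorem g319 : Good XX 14 p319 := rs14 c319 rfl trivial
theorem g320 : Good XX 14 p320 := rs14 c320 rfl trivial
theorem g321 : Good XX 14 p321 := rs14 c321 rfl ⟨g319, ⟨g320, trivial⟩⟩
theorem g322 : Good XX 14 p322 := rs14 c322 rfl ⟨g289, ⟨g290, ⟨g291, ⟨g295, ⟨g297, ⟨g298, ⟨g300, ⟨g301, ⟨g306, ⟨g307, ⟨g310, ⟨g313, ⟨g314, ⟨g315, ⟨g316, ⟨g317, ⟨g318, ⟨g321, trivial⟩⟩⟩⟩⟩⟩⟩⟩⟩⟩⟩⟩⟩⟩⟩⟩⟩⟩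
theorem g323 : Good XX 14 p323 := rs14 c323 rfl trivial
theorem g324 : Good XX 14 p324 := rs14 c324 rfl trivial
theorem g325 : Good XX 14 p325 := rs14 c325 rfl trivial
theorem g326 : Good XX 14 p326 := rs14 c326 rfl trivial
theorem g327 : Good XX 14 p327 := rs14 c327 rfl ⟨g325, ⟨g326, trivial⟩⟩
theorem g328 : Good XX 14 p328 := rs14 c328 rfl trivial
theorem g329 : Good XX 14 p329 := rs14 c329 rfl trivial
theorem g330 : Good XX 14 p330 := rs14 c330 rfl trivial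
theorem g331 : Good XX 14 p331 := rs14 c331 rfl trivial
theorem g332 : Good XX 14 p332 := rs14 c332 rfl trivial
theorem g333 : Good XX 14 p333 := rs14 c333 rfl ⟨g331, ⟨g332, trivial⟩⟩
theorem g334 : Good XX 14 p334 := rs14 c334 rfl trivial
theorem g335 : Good XX 14 p335 := rs14 c335 rfl ⟨g271, ⟨g272, ⟨g282, ⟨g285, ⟨g287, ⟨g322, ⟨g323, ⟨g324, ⟨g327, ⟨g328, ⟨g329, ⟨g330, ⟨g333, ⟨g334, trivial⟩⟩⟩⟩⟩⟩⟩⟩⟩⟩⟩⟩⟩⟩
theorem g336 : Good XX 14 p336 := rs14 c336 rfl trivial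
theorem g337 : Good XX 14 p337 := rs14 c337 rfl ⟨g336, trivial⟩
theorem g338 : Good XX 14 p338 := rs14 c338 rfl ⟨g337, trivial⟩
theorem g339 : Good XX 14 p339 := rs14 c339 rfl trivial
theorem g340 : Good XX 14 p340 := rs14 c340 rfl trivial
theorem g341 : Good XX 14 p341 := rs14 c341 rfl trivial
theorem g342 : Good XX 14 p342 := rs14 c342 rfl trivial
theorem g343 : Good XX 14 p343 := rs14 c343 rfl trivial
theorem g344 : Good XX 14 p344 := rs14 c344 rfl trivial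
theorem g345 : Good XX 14 p345 := rs14 c345 rfl trivial
theorem g346 : Good XX 14 p346 := rs14 c346 rfl ⟨g344, ⟨g345, trivial⟩⟩
theorem g347 : Good XX 14 p347 := rs14 c347 rfl trivial
theorem g348 : Good XX 14 p348 := rs14 c348 rfl trivial
theorem g349 : Good XX 14 p349 := rs14 c349 rfl ⟨g347, ⟨g348, trivial⟩⟩
theorem g350 : Good XX 14 p350 := rs14 c350 rfl trivial
theorem g351 : Good XX 14 p351 := rs14 c351 rfl ⟨g350, trivial⟩
theorem g352 : Good XX 14 p352 := rs14 c352 rfl trivial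
theorem g353 : Good XX 14 p353 := rs14 c353 rfl trivial
theorem g354 : Good XX 14 p354 := rs14 c354 rfl ⟨g353, trivial⟩
theorem g355 : Good XX 14 p355 := rs14 c355 rfl ⟨g162, ⟨g163, ⟨g166, ⟨g168, ⟨g173, ⟨g174, ⟨g199, ⟨g210, ⟨g270, ⟨g335, ⟨g338, ⟨g339, ⟨g340, ⟨g341, ⟨g342, ⟨g343, ⟨g346, ⟨g349, ⟨g351, ⟨g352, ⟨g354, trivial⟩⟩⟩⟩⟩⟩⟩⟩⟩⟩⟩⟩⟩⟩⟩⟩⟩⟩⟩⟩⟩
theorem g356 : Good XX 14 p356 := rs14 c356 rfl ⟨g5, ⟨g13, ⟨g25, ⟨g30, ⟨g67, ⟨g70, ⟨g74, ⟨g75, ⟨g80, ⟨g90, ⟨g94, ⟨g108, ⟨g130, ⟨g131, ⟨g132, ⟨g133, ⟨g135, ⟨g137, ⟨g139, ⟨g141, ⟨g142, ⟨g143, ⟨g148, ⟨g158, ⟨g160, ⟨g355, trivial⟩⟩⟩⟩⟩⟩⟩⟩⟩⟩⟩⟩⟩⟩⟩⟩⟩⟩⟩⟩⟩⟩⟩⟩⟩⟩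
theorem g357 : Good XX 14 p357 := rs14 c357 rfl trivial
theorem g358 : Good XX 14 p358 := rs14 c358 rfl trivial
theorem g359 : Good XX 14 p359 := rs14 c359 rfl trivial
theorem g360 : Good XX 14 p360 := rs14 c360 rfl trivial
theorem g361 : Good XX 14 p361 := rs14 c361 rfl trivial
theorem g362 : Good XX 14 p362 := rs14 c362 rfl trivial
theorem g363 : Good XX 14 p363 := rs14 c363 rfl ⟨g361, ⟨g362, trivial⟩⟩
theorem g364 : Good XX 14 p364 := rs14 c364 rfl trivial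
theorem g365 : Good XX 14 p365 := rs14 c365 rfl trivial
theorem g366 : Good XX 14 p366 := rs14 c366 rfl ⟨g364, ⟨g365, trivial⟩⟩
theorem g367 : Good XX 14 p367 := rs14 c367 rfl trivial
theorem g368 : Good XX 14 p368 := rs14 c368 rfl trivial
theorem g369 : Good XX 14 p369 := rs14 c369 rfl trivial
theorem g370 : Good XX 14 p370 := rs14 c370 rfl trivial
theorem g371 : Good XX 14 p371 := rs14 c371 rfl trivial
theorem g372 : Good XX 14 p372 := rs14 c372 rfl trivial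
theorem g373 : Good XX 14 p373 := rs14 c373 rfl ⟨g372, trivial⟩
theorem g374 : Good XX 14 p374 := rs14 c374 rfl trivial
theorem g375 : Good XX 14 p375 := rs14 c375 rfl trivial
theorem g376 : Good XX 14 p376 := rs14 c376 rfl trivial
theorem g377 : Good XX 14 p377 := rs14 c377 rfl trivial
theorem g378 : Good XX 14 p378 := rs14 c378 rfl trivial
theorem g379 : Good XX 14 p379 := rs14 c379 rfl trivial
theorem g380 : Good XX 14 p380 := rs14 c380 rfl trivial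
theorem g381 : Good XX 14 p381 := rs14 c381 rfl trivial
theorem g382 : Good XX 14 p382 := rs14 c382 rfl ⟨g376, ⟨g377, ⟨g378, ⟨g379, ⟨g380, ⟨g381, trivial⟩⟩⟩⟩⟩⟩
theorem g383 : Good XX 14 p383 := rs14 c383 rfl trivial
theorem g384 : Good XX 14 p384 := rs14 c384 rfl trivial
theorem g385 : Good XX 14 p385 := rs14 c385 rfl trivial
theorem g386 : Good XX 14 p386 := rs14 c386 rfl trivial
theorem g387 : Good XX 14 p387 := rs14 c387 rfl trivial
theorem g388 : Good XX 14 p388 := rs14 c388 rfl trivial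
theorem g389 : Good XX 14 p389 := rs14 c389 rfl ⟨g383, ⟨g384, ⟨g385, ⟨g386, ⟨g387, ⟨g388, trivial⟩⟩⟩⟩⟩⟩
theorem g390 : Good XX 14 p390 := rs14 c390 rfl ⟨g357, ⟨g358, ⟨g359, ⟨g360, ⟨g363, ⟨g366, ⟨g367, ⟨g368, ⟨g369, ⟨g370, ⟨g371, ⟨g373, ⟨g374, ⟨g375, ⟨g382, ⟨g389, trivial⟩⟩⟩⟩⟩⟩⟩⟩⟩⟩⟩⟩⟩⟩⟩⟩
theorem g391 : Good XX 14 p391 := rs14 c391 rfl trivial
theorem g392 : Good XX 14 p392 := rs14 c392 rfl trivial
theorem g393 : Good XX 14 p393 := rs14 c393 rfl trivial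
theorem g394 : Good XX 14 p394 := rs14 c394 rfl trivial
theorem g395 : Good XX 14 p395 := rs14 c395 rfl trivial
theorem g396 : Good XX 14 p396 := rs14 c396 rfl trivial
theorem g397 : Good XX 14 p397 := rs14 c397 rfl trivial
theorem g398 : Good XX 14 p398 := rs14 c398 rfl trivial
theorem g399 : Good XX 14 p399 := rs14 c399 rfl trivial
theorem g400 : Good XX 14 p400 := rs14 c400 rfl trivial
theorem g401 : Good XX 14 p401 := rs14 c401 rfl ⟨g397, ⟨g398, ⟨g399, ⟨g400, trivial⟩⟩⟩⟩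
theorem g402 : Good XX 14 p402 := rs14 c402 rfl ⟨g392, ⟨g393, ⟨g394, ⟨g395, ⟨g396, ⟨g401, trivial⟩⟩⟩⟩⟩⟩
theorem g403 : Good XX 14 p403 := rs14 c403 rfl trivial
theorem g404 : Good XX 14 p404 := rs14 c404 rfl trivial
theorem g405 : Good XX 14 p405 := rs14 c405 rfl trivial
theorem g406 : Good XX 14 p406 := rs14 c406 rfl ⟨g405, trivial⟩
theorem g407 : Good XX 14 p407 := rs14 c407 rfl trivial
theorem g408 : Good XX 14 p408 := rs14 c408 rfl trivial
theorem g409 : Good XX 14 p409 := rs14 c409 rfl trivial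
theorem g410 : Good XX 14 p410 := rs14 c410 rfl trivial
theorem g411 : Good XX 14 p411 := rs14 c411 rfl trivial
theorem g412 : Good XX 14 p412 := rs14 c412 rfl trivial
theorem g413 : Good XX 14 p413 := rs14 c413 rfl trivial
theorem g414 : Good XX 14 p414 := rs14 c414 rfl trivial
theorem g415 : Good XX 14 p415 := rs14 c415 rfl ⟨g414, trivial⟩
theorem g416 : Good XX 14 p416 := rs14 c416 rfl trivial
theorem g417 : Good XX 14 p417 := rs14 c417 rfl trivial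
theorem g418 : Good XX 14 p418 := rs14 c418 rfl trivial
theorem g419 : Good XX 14 p419 := rs14 c419 rfl trivial
theorem g420 : Good XX 14 p420 := rs14 c420 rfl trivial
theorem g421 : Good XX 14 p421 := rs14 c421 rfl trivial
theorem g422 : Good XX 14 p422 := rs14 c422 rfl ⟨g420, ⟨g421, trivial⟩⟩
theorem g423 : Good XX 14 p423 := rs14 c423 rfl trivial
theorem g424 : Good XX 14 p424 := rs14 c424 rfl ⟨g423, trivial⟩
theorem g425 : Good XX 14 p425 := rs14 c425 rfl trivial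
theorem g426 : Good XX 14 p426 := rs14 c426 rfl ⟨g425, trivial⟩
theorem g427 : Good XX 14 p427 := rs14 c427 rfl ⟨g416, ⟨g417, ⟨g418, ⟨g419, ⟨g422, ⟨g424, ⟨g426, trivial⟩⟩⟩⟩⟩⟩⟩
theorem g428 : Good XX 14 p428 := rs14 c428 rfl trivial
theorem g429 : Good XX 14 p429 := rs14 c429 rfl ⟨g428, trivial⟩
theorem g430 : Good XX 14 p430 := rs14 c430 rfl ⟨g403, ⟨g404, ⟨g406, ⟨g407, ⟨g408, ⟨g409, ⟨g410, ⟨g411, ⟨g412, ⟨g413, ⟨g415, ⟨g427, ⟨g429, trivial⟩⟩⟩⟩⟩⟩⟩⟩⟩⟩⟩⟩⟩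
theorem g431 : Good XX 14 p431 := rs14 c431 rfl trivial
theorem g432 : Good XX 14 p432 := rs14 c432 rfl trivial
theorem g433 : Good XX 14 p433 := rs14 c433 rfl trivial
theorem g434 : Good XX 14 p434 := rs14 c434 rfl trivial
theorem g435 : Good XX 14 p435 := rs14 c435 rfl trivial
theorem g436 : Good XX 14 p436 := rs14 c436 rfl trivial
theorem g437 : Good XX 14 p437 := rs14 c437 rfl trivial
theorem g438 : Good XX 14 p438 := rs14 c438 rfl trivial
theorem g439 : Good XX 14 p439 := rs14 c439 rfl trivial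
theorem g440 : Good XX 14 p440 := rs14 c440 rfl ⟨g435, ⟨g436, ⟨g437, ⟨g438, ⟨g439, trivial⟩⟩⟩⟩⟩
theorem g441 : Good XX 14 p441 := rs14 c441 rfl trivial
theorem g442 : Good XX 14 p442 := rs14 c442 rfl trivial
theorem g443 : Good XX 14 p443 := rs14 c443 rfl trivial
theorem g444 : Good XX 14 p444 := rs14 c444 rfl ⟨g442, ⟨g443, trivial⟩⟩
theorem g445 : Good XX 14 p445 := rs14 c445 rfl ⟨g431, ⟨g432, ⟨g433, ⟨g434, ⟨g440, ⟨g441, ⟨g444, trivial⟩⟩⟩⟩⟩⟩⟩
theorem g446 : Good XX 14 p446 := rs14 c446 rfl trivial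
theorem g447 : Good XX 14 p447 := rs14 c447 rfl trivial
theorem g448 : Good XX 14 p448 := rs14 c448 rfl trivial
theorem g449 : Good XX 14 p449 := rs14 c449 rfl trivial
theorem g450 : Good XX 14 p450 := rs14 c450 rfl trivial
theorem g451 : Good XX 14 p451 := rs14 c451 rfl trivial
theorem g452 : Good XX 14 p452 := rs14 c452 rfl trivial
theorem g453 : Good XX 14 p453 := rs14 c453 rfl trivial
theorem g454 : Good XX 14 p454 := rs14 c454 rfl trivial
theorem g455 : Good XX 14 p455 := rs14 c455 rfl trivial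
theorem g456 : Good XX 14 p456 := rs14 c456 rfl ⟨g450, ⟨g451, ⟨g452, ⟨g453, ⟨g454, ⟨g455, trivial⟩⟩⟩⟩⟩⟩
theorem g457 : Good XX 14 p457 := rs14 c457 rfl trivial
theorem g458 : Good XX 14 p458 := rs14 c458 rfl trivial
theorem g459 : Good XX 14 p459 := rs14 c459 rfl trivial
theorem g460 : Good XX 14 p460 := rs14 c460 rfl trivial
theorem g461 : Good XX 14 p461 := rs14 c461 rfl trivial
theorem g462 : Good XX 14 p462 := rs14 c462 rfl trivial
theorem g463 : Good XX 14 p463 := rs14 c463 rfl ⟨g461, ⟨g462, trivial⟩⟩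
theorem g464 : Good XX 14 p464 := rs14 c464 rfl ⟨g458, ⟨g459, ⟨g460, ⟨g463, trivial⟩⟩⟩⟩
theorem g465 : Good XX 14 p465 := rs14 c465 rfl trivial
theorem g466 : Good XX 14 p466 := rs14 c466 rfl trivial
theorem g467 : Good XX 14 p467 := rs14 c467 rfl trivial
theorem g468 : Good XX 14 p468 := rs14 c468 rfl trivial
theorem g469 : Good XX 14 p469 := rs14 c469 rfl trivial
theorem g470 : Good XX 14 p470 := rs14 c470 rfl trivial
theorem g471 : Good XX 14 p471 := rs14 c471 rfl trivial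
theorem g472 : Good XX 14 p472 := rs14 c472 rfl trivial
theorem g473 : Good XX 14 p473 := rs14 c473 rfl trivial
theorem g474 : Good XX 14 p474 := rs14 c474 rfl trivial
theorem g475 : Good XX 14 p475 := rs14 c475 rfl trivial
theorem g476 : Good XX 14 p476 := rs14 c476 rfl ⟨g446, ⟨g447, ⟨g448, ⟨g449, ⟨g456, ⟨g457, ⟨g464, ⟨g465, ⟨g466, ⟨g467, ⟨g468, ⟨g469, ⟨g470, ⟨g471, ⟨g472, ⟨g473, ⟨g474, ⟨g475, trivial⟩⟩⟩⟩⟩⟩⟩⟩⟩⟩⟩⟩⟩⟩⟩⟩⟩⟩
theorem g477 : Good XX 14 p477 := rs14 c477 rfl trivial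
theorem g478 : Good XX 14 p478 := rs14 c478 rfl trivial
theorem g479 : Good XX 14 p479 := rs14 c479 rfl trivial
theorem g480 : Good XX 14 p480 := rs14 c480 rfl trivial
theorem g481 : Good XX 14 p481 := rs14 c481 rfl ⟨g480, trivial⟩
theorem g482 : Good XX 14 p482 := rs14 c482 rfl trivial
theorem g483 : Good XX 14 p483 := rs14 c483 rfl trivial
theorem g484 : Good XX 14 p484 := rs14 c484 rfl trivial
theorem g485 : Good XX 14 p485 := rs14 c485 rfl trivial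
theorem g486 : Good XX 14 p486 := rs14 c486 rfl trivial
theorem g487 : Good XX 14 p487 := rs14 c487 rfl ⟨g486, trivial⟩
theorem g488 : Good XX 14 p488 := rs14 c488 rfl trivial
theorem g489 : Good XX 14 p489 := rs14 c489 rfl ⟨g482, ⟨g483, ⟨g484, ⟨g485, ⟨g487, ⟨g488, trivial⟩⟩⟩⟩⟩⟩
theorem g490 : Good XX 14 p490 := rs14 c490 rfl trivial
theorem g491 : Good XX 14 p491 := rs14 c491 rfl trivial
theorem g492 : Good XX 14 p492 := rs14 c492 rfl ⟨g490, ⟨g491, trivial⟩⟩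
theorem g493 : Good XX 14 p493 := rs14 c493 rfl ⟨g477, ⟨g478, ⟨g479, ⟨g481, ⟨g489, ⟨g492, trivial⟩⟩⟩⟩⟩⟩
theorem g494 : Good XX 14 p494 := rs14 c494 rfl trivial
theorem g495 : Good XX 14 p495 := rs14 c495 rfl trivial
theorem g496 : Good XX 14 p496 := rs14 c496 rfl trivial
theorem g497 : Good XX 14 p497 := rs14 c497 rfl trivial
theorem g498 : Good XX 14 p498 := rs14 c498 rfl trivial
theorem g499 : Good XX 14 p499 := rs14 c499 rfl trivial
theorem g500 : Good XX 14 p500 := rs14 c500 rfl trivial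
theorem g501 : Good XX 14 p501 := rs14 c501 rfl ⟨g500, trivial⟩
theorem g502 : Good XX 14 p502 := rs14 c502 rfl ⟨g496, ⟨g497, ⟨g498, ⟨g499, ⟨g501, trivial⟩⟩⟩⟩⟩
theorem g503 : Good XX 14 p503 := rs14 c503 rfl trivial
theorem g504 : Good XX 14 p504 := rs14 c504 rfl trivial
theorem g505 : Good XX 14 p505 := rs14 c505 rfl trivial
theorem g506 : Good XX 14 p506 := rs14 c506 rfl trivial
theorem g507 : Good XX 14 p507 := rs14 c507 rfl trivial
theorem g508 : Good XX 14 p508 := rs14 c508 rfl trivial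
theorem g509 : Good XX 14 p509 := rs14 c509 rfl ⟨g508, trivial⟩
theorem g510 : Good XX 14 p510 := rs14 c510 rfl trivial
theorem g511 : Good XX 14 p511 := rs14 c511 rfl ⟨g510, trivial⟩
theorem g512 : Good XX 14 p512 := rs14 c512 rfl trivial
theorem g513 : Good XX 14 p513 := rs14 c513 rfl trivial
theorem g514 : Good XX 14 p514 := rs14 c514 rfl trivial
theorem g515 : Good XX 14 p515 := rs14 c515 rfl trivial
theorem g516 : Good XX 14 p516 := rs14 c516 rfl trivial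
theorem g517 : Good XX 14 p517 := rs14 c517 rfl trivial
theorem g518 : Good XX 14 p518 := rs14 c518 rfl trivial
theorem g519 : Good XX 14 p519 := rs14 c519 rfl trivial
theorem g520 : Good XX 14 p520 := rs14 c520 rfl trivial
theorem g521 : Good XX 14 p521 := rs14 c521 rfl trivial
theorem g522 : Good XX 14 p522 := rs14 c522 rfl trivial
theorem g523 : Good XX 14 p523 := rs14 c523 rfl trivial
theorem g524 : Good XX 14 p524 := rs14 c524 rfl trivial
theorem g525 : Good XX 14 p525 := rs14 c525 rfl trivial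
theorem g526 : Good XX 14 p526 := rs14 c526 rfl trivial
theorem g527 : Good XX 14 p527 := rs14 c527 rfl trivial
theorem g528 : Good XX 14 p528 := rs14 c528 rfl ⟨g526, ⟨g527, trivial⟩⟩
theorem g529 : Good XX 14 p529 := rs14 c529 rfl trivial
theorem g530 : Good XX 14 p530 := rs14 c530 rfl trivial
theorem g531 : Good XX 14 p531 := rs14 c531 rfl ⟨g529, ⟨g530, trivial⟩⟩
theorem g532 : Good XX 14 p532 := rs14 c532 rfl trivial
theorem g533 : Good XX 14 p533 := rs14 c533 rfl trivial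
theorem g534 : Good XX 14 p534 := rs14 c534 rfl trivial
theorem g535 : Good XX 14 p535 := rs14 c535 rfl trivial
theorem g536 : Good XX 14 p536 := rs14 c536 rfl ⟨g532, ⟨g533, ⟨g534, ⟨g535, trivial⟩⟩⟩⟩
theorem g537 : Good XX 14 p537 := rs14 c537 rfl ⟨g494, ⟨g495, ⟨g502, ⟨g503, ⟨g504, ⟨g505, ⟨g506, ⟨g507, ⟨g509, ⟨g511, ⟨g512, ⟨g513, ⟨g514, ⟨g515, ⟨g516, ⟨g517, ⟨g518, ⟨g519, ⟨g520, ⟨g521, ⟨g522, ⟨g523, ⟨g524, ⟨g525, ⟨g528, ⟨g531, ⟨g536, trivial⟩⟩⟩⟩⟩⟩⟩⟩⟩⟩⟩⟩⟩⟩⟩⟩⟩⟩⟩⟩⟩⟩⟩⟩⟩⟩⟩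
theorem g538 : Good XX 14 p538 := rs14 c538 rfl trivial
theorem g539 : Good XX 14 p539 := rs14 c539 rfl trivial
theorem g540 : Good XX 14 p540 := rs14 c540 rfl ⟨g539, trivial⟩
theorem g541 : Good XX 14 p541 := rs14 c541 rfl trivial
theorem g542 : Good XX 14 p542 := rs14 c542 rfl trivial
theorem g543 : Good XX 14 p543 := rs14 c543 rfl trivial
theorem g544 : Good XX 14 p544 := rs14 c544 rfl trivial
theorem g545 : Good XX 14 p545 := rs14 c545 rfl trivial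
theorem g546 : Good XX 14 p546 := rs14 c546 rfl trivial
theorem g547 : Good XX 14 p547 := rs14 c547 rfl trivial
theorem g548 : Good XX 14 p548 := rs14 c548 rfl trivial
theorem g549 : Good XX 14 p549 := rs14 c549 rfl trivial
theorem g550 : Good XX 14 p550 := rs14 c550 rfl trivial
theorem g551 : Good XX 14 p551 := rs14 c551 rfl trivial
theorem g552 : Good XX 14 p552 := rs14 c552 rfl trivial
theorem g553 : Good XX 14 p553 := rs14 c553 rfl trivial
theorem g554 : Good XX 14 p554 := rs14 c554 rfl ⟨g550, ⟨g551, ⟨g552, ⟨g553, trivial⟩⟩⟩⟩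
theorem g555 : Good XX 14 p555 := rs14 c555 rfl ⟨g538, ⟨g540, ⟨g541, ⟨g542, ⟨g543, ⟨g544, ⟨g545, ⟨g546, ⟨g547, ⟨g548, ⟨g549, ⟨g554, trivial⟩⟩⟩⟩⟩⟩⟩⟩⟩⟩⟩⟩
theorem g556 : Good XX 14 p556 := rs14 c556 rfl trivial
theorem g557 : Good XX 14 p557 := rs14 c557 rfl trivial
theorem g558 : Good XX 14 p558 := rs14 c558 rfl trivial
theorem g559 : Good XX 14 p559 := rs14 c559 rfl ⟨g557, ⟨g558, trivial⟩⟩
theorem g560 : Good XX 14 p560 := rs14 c560 rfl trivial
theorem g561 : Good XX 14 p561 := rs14 c561 rfl trivial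
theorem g562 : Good XX 14 p562 := rs14 c562 rfl trivial
theorem g563 : Good XX 14 p563 := rs14 c563 rfl trivial
theorem g564 : Good XX 14 p564 := rs14 c564 rfl ⟨g556, ⟨g559, ⟨g560, ⟨g561, ⟨g562, ⟨g563, trivial⟩⟩⟩⟩⟩⟩
theorem g565 : Good XX 14 p565 := rs14 c565 rfl ⟨g356, ⟨g390, ⟨g391, ⟨g402, ⟨g430, ⟨g445, ⟨g476, ⟨g493, ⟨g537, ⟨g555, ⟨g564, trivial⟩⟩⟩⟩⟩⟩⟩⟩⟩⟩⟩
theorem g566 : Good XX 14 p566 := rs14 c566 rfl ⟨g565, trivial⟩

end Pool.Agent.N3.C14
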