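import Pool.Agent.Lib.MP_f3f345_co.Rs
import Pool.Agent.Lib.MP_f3f345_co.Conn
import Pool.Agent.Lib.MP_f3f345_co.D15_00
import Pool.Agent.Lib.MP_f3f345_co.D15_01
import Pool.Agent.Lib.MP_f3f345_co.D15_02
import Pool.Agent.Lib.MP_f3f345_co.D15_03
import Pool.Agent.Lib.MP_f3f345_co.D15_04
import Pool.Agent.Lib.MP_f3f345_co.D15_05
import Pool.Agent.Lib.MP_f3f345_co.D15_06
import Pool.Agent.Lib.MP_f3f345_co.D15_07
import Pool.Agent.Lib.MP_f3f345_co.D15_08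
import Pool.Agent.Lib.MP_f3f345_co.D15_09
import Pool.Agent.Lib.MP_f3f345_co.D15_10
import Pool.Agent.Lib.MP_f3f345_co.D15_11
import Pool.Agent.Lib.MP_f3f345_co.D15_12
import Pool.Agent.Lib.MP_f3f345_co.D15_13
import Pool.Agent.Lib.MP_f3f345_co.D15_14
import Pool.Agent.Lib.MP_f3f345_co.D15_15
import Pool.Agent.Lib.MP_f3f345_co.D15_16
import Pool.Agent.Lib.MP_f3f345_co.D15_17
import Pool.Agent.Lib.MP_f3f345_co.D15_18
import Pool.Agent.Lib.MP_f3f345_co.D15_19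
import Pool.Agent.Lib.MP_f3f345_co.D15_20
import Pool.Agent.Lib.MP_f3f345_co.D15_21
import Pool.Agent.Lib.MP_f3f345_co.D15_22
import Pool.Agent.Lib.MP_f3f345_co.D15_23

/-! all subtrees are good, n = 15 -/

namespace Pool.Agent.N3.C15

theorem g0 : Good XX 15 p0 := rs15 c0 rfl trivial
theorem g1 : Good XX 15 p1 := rs15 c1 rfl trivial
theorem g2 : Good XX 15 p2 := rs15 c2 rfl ⟨g1, trivial⟩
theorem g3 : Good XX 15 p3 := rs15 c3 rfl trivial
theorem g4 : Good XX 15 p4 := rs15 c4 rfl ⟨g3, trivial⟩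
theorem g5 : Good XX 15 p5 := rs15 c5 rfl trivial
theorem g6 : Good XX 15 p6 := rs15 c6 rfl trivial
theorem g7 : Good XX 15 p7 := rs15 c7 rfl trivial
theorem g8 : Good XX 15 p8 := rs15 c8 rfl trivial
theorem g9 : Good XX 15 p9 := rs15 c9 rfl ⟨g8, trivial⟩
theorem g10 : Good XX 15 p10 := rs15 c10 rfl trivial
theorem g11 : Good XX 15 p11 := rs15 c11 rfl trivial
theorem g12 : Good XX 15 p12 := rs15 c12 rfl trivial
theorem g13 : Good XX 15 p13 := rs15 c13 rfl ⟨g11, ⟨g12, trivial⟩⟩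
theorem g14 : Good XX 15 p14 := rs15 c14 rfl trivial
theorem g15 : Good XX 15 p15 := rs15 c15 rfl trivial
theorem g16 : Good XX 15 p16 := rs15 c16 rfl trivial
theorem g17 : Good XX 15 p17 := rs15 c17 rfl ⟨g16, trivial⟩
theorem g18 : Good XX 15 p18 := rs15 c18 rfl trivial
theorem g19 : Good XX 15 p19 := rs15 c19 rfl trivial
theorem g20 : Good XX 15 p20 := rs15 c20 rfl trivial
theorem g21 : Good XX 15 p21 := rs15 c21 rfl trivial
theorem g22 : Good XX 15 p22 := rs15 c22 rfl ⟨g21, trivial⟩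
theorem g23 : Good XX 15 p23 := rs15 c23 rfl trivial
theorem g24 : Good XX 15 p24 := rs15 c24 rfl ⟨g18, ⟨g19, ⟨g20, ⟨g22, ⟨g23, trivial⟩⟩⟩⟩⟩
theorem g25 : Good XX 15 p25 := rs15 c25 rfl trivial
theorem g26 : Good XX 15 p26 := rs15 c26 rfl trivial
theorem g27 : Good XX 15 p27 := rs15 c27 rfl trivial
theorem g28 : Good XX 15 p28 := rs15 c28 rfl ⟨g25, ⟨g26, ⟨g27, trivial⟩⟩⟩
theorem g29 : Good XX 15 p29 := rs15 c29 rfl trivial
theorem g30 : Good XX 15 p30 := rs15 c30 rfl trivial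
theorem g31 : Good XX 15 p31 := rs15 c31 rfl trivial
theorem g32 : Good XX 15 p32 := rs15 c32 rfl ⟨g29, ⟨g30, ⟨g31, trivial⟩⟩⟩
theorem g33 : Good XX 15 p33 := rs15 c33 rfl ⟨g5, ⟨g6, ⟨g7, ⟨g9, ⟨g10, ⟨g13, ⟨g14, ⟨g15, ⟨g17, ⟨g24, ⟨g28, ⟨g32, trivial⟩⟩⟩⟩⟩⟩⟩⟩⟩⟩⟩⟩
theorem g34 : Good XX 15 p34 := rs15 c34 rfl trivial
theorem g35 : Good XX 15 p35 := rs15 c35 rfl ⟨g34, trivial⟩
theorem g36 : Good XX 15 p36 := rs15 c36 rfl trivial
theorem g37 : Good XX 15 p37 := rs15 c37 rfl trivial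
theorem g38 : Good XX 15 p38 := rs15 c38 rfl ⟨g37, trivial⟩
theorem g39 : Good XX 15 p39 := rs15 c39 rfl ⟨g36, ⟨g38, trivial⟩⟩
theorem g40 : Good XX 15 p40 := rs15 c40 rfl trivial
theorem g41 : Good XX 15 p41 := rs15 c41 rfl ⟨g40, trivial⟩
theorem g42 : Good XX 15 p42 := rs15 c42 rfl trivial
theorem g43 : Good XX 15 p43 := rs15 c43 rfl trivial
theorem g44 : Good XX 15 p44 := rs15 c44 rfl trivial
theorem g45 : Good XX 15 p45 := rs15 c45 rfl ⟨g44, trivial⟩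
theorem g46 : Good XX 15 p46 := rs15 c46 rfl trivial
theorem g47 : Good XX 15 p47 := rs15 c47 rfl trivial
theorem g48 : Good XX 15 p48 := rs15 c48 rfl ⟨g41, ⟨g42, ⟨g43, ⟨g45, ⟨g46, ⟨g47, trivial⟩⟩⟩⟩⟩⟩
theorem g49 : Good XX 15 p49 := rs15 c49 rfl trivial
theorem g50 : Good XX 15 p50 := rs15 c50 rfl trivial
theorem g51 : Good XX 15 p51 := rs15 c51 rfl ⟨g50, trivial⟩
theorem g52 : Good XX 15 p52 := rs15 c52 rfl ⟨g49, ⟨g51, trivial⟩⟩
theorem g53 : Good XX 15 p53 := rs15 c53 rfl trivial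
theorem g54 : Good XX 15 p54 := rs15 c54 rfl ⟨g53, trivial⟩
theorem g55 : Good XX 15 p55 := rs15 c55 rfl trivial
theorem g56 : Good XX 15 p56 := rs15 c56 rfl trivial
theorem g57 : Good XX 15 p57 := rs15 c57 rfl trivial
theorem g58 : Good XX 15 p58 := rs15 c58 rfl trivial
theorem g59 : Good XX 15 p59 := rs15 c59 rfl trivial
theorem g60 : Good XX 15 p60 := rs15 c60 rfl trivial
theorem g61 : Good XX 15 p61 := rs15 c61 rfl ⟨g58, ⟨g59, ⟨g60, trivial⟩⟩⟩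
theorem g62 : Good XX 15 p62 := rs15 c62 rfl trivial
theorem g63 : Good XX 15 p63 := rs15 c63 rfl trivial
theorem g64 : Good XX 15 p64 := rs15 c64 rfl trivial
theorem g65 : Good XX 15 p65 := rs15 c65 rfl ⟨g64, trivial⟩
theorem g66 : Good XX 15 p66 := rs15 c66 rfl trivial
theorem g67 : Good XX 15 p67 := rs15 c67 rfl trivial
theorem g68 : Good XX 15 p68 := rs15 c68 rfl ⟨g67, trivial⟩
theorem g69 : Good XX 15 p69 := rs15 c69 rfl trivial
theorem g70 : Good XX 15 p70 := rs15 c70 rfl ⟨g69, trivial⟩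
theorem g71 : Good XX 15 p71 := rs15 c71 rfl trivial
theorem g72 : Good XX 15 p72 := rs15 c72 rfl ⟨g71, trivial⟩
theorem g73 : Good XX 15 p73 := rs15 c73 rfl ⟨g66, ⟨g68, ⟨g70, ⟨g72, trivial⟩⟩⟩⟩
theorem g74 : Good XX 15 p74 := rs15 c74 rfl trivial
theorem g75 : Good XX 15 p75 := rs15 c75 rfl trivial
theorem g76 : Good XX 15 p76 := rs15 c76 rfl ⟨g75, trivial⟩
theorem g77 : Good XX 15 p77 := rs15 c77 rfl trivial
theorem g78 : Good XX 15 p78 := rs15 c78 rfl trivial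
theorem g79 : Good XX 15 p79 := rs15 c79 rfl ⟨g52, ⟨g54, ⟨g55, ⟨g56, ⟨g57, ⟨g61, ⟨g62, ⟨g63, ⟨g65, ⟨g73, ⟨g74, ⟨g76, ⟨g77, ⟨g78, trivial⟩⟩⟩⟩⟩⟩⟩⟩⟩⟩⟩⟩⟩⟩
theorem g80 : Good XX 15 p80 := rs15 c80 rfl trivial
theorem g81 : Good XX 15 p81 := rs15 c81 rfl ⟨g0, ⟨g2, ⟨g4, ⟨g33, ⟨g35, ⟨g39, ⟨g48, ⟨g79, ⟨g80, trivial⟩⟩⟩⟩⟩⟩⟩⟩⟩
theorem g82 : Good XX 15 p82 := rs15 c82 rfl trivial
theorem g83 : Good XX 15 p83 := rs15 c83 rfl trivial
theorem g84 : Good XX 15 p84 := rs15 c84 rfl trivial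
theorem g85 : Good XX 15 p85 := rs15 c85 rfl ⟨g84, trivial⟩
theorem g86 : Good XX 15 p86 := rs15 c86 rfl ⟨g82, ⟨g83, ⟨g85, trivial⟩⟩⟩
theorem g87 : Good XX 15 p87 := rs15 c87 rfl trivial
theorem g88 : Good XX 15 p88 := rs15 c88 rfl trivial
theorem g89 : Good XX 15 p89 := rs15 c89 rfl trivial
theorem g90 : Good XX 15 p90 := rs15 c90 rfl ⟨g89, trivial⟩
theorem g91 : Good XX 15 p91 := rs15 c91 rfl trivial
theorem g92 : Good XX 15 p92 := rs15 c92 rfl ⟨g91, trivial⟩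
theorem g93 : Good XX 15 p93 := rs15 c93 rfl trivial
theorem g94 : Good XX 15 p94 := rs15 c94 rfl trivial
theorem g95 : Good XX 15 p95 := rs15 c95 rfl ⟨g93, ⟨g94, trivial⟩⟩
theorem g96 : Good XX 15 p96 := rs15 c96 rfl trivial
theorem g97 : Good XX 15 p97 := rs15 c97 rfl ⟨g96, trivial⟩
theorem g98 : Good XX 15 p98 := rs15 c98 rfl trivial
theorem g99 : Good XX 15 p99 := rs15 c99 rfl trivial
theorem g100 : Good XX 15 p100 := rs15 c100 rfl ⟨g99, trivial⟩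
theorem g101 : Good XX 15 p101 := rs15 c101 rfl trivial
theorem g102 : Good XX 15 p102 := rs15 c102 rfl trivial
theorem g103 : Good XX 15 p103 := rs15 c103 rfl trivial
theorem g104 : Good XX 15 p104 := rs15 c104 rfl ⟨g103, trivial⟩
theorem g105 : Good XX 15 p105 := rs15 c105 rfl trivial
theorem g106 : Good XX 15 p106 := rs15 c106 rfl ⟨g101, ⟨g102, ⟨g104, ⟨g105, trivial⟩⟩⟩⟩
theorem g107 : Good XX 15 p107 := rs15 c107 rfl trivial
theorem g108 : Good XX 15 p108 := rs15 c108 rfl ⟨g107, trivial⟩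
theorem g109 : Good XX 15 p109 := rs15 c109 rfl trivial
theorem g110 : Good XX 15 p110 := rs15 c110 rfl ⟨g109, trivial⟩
theorem g111 : Good XX 15 p111 := rs15 c111 rfl trivial
theorem g112 : Good XX 15 p112 := rs15 c112 rfl trivial
theorem g113 : Good XX 15 p113 := rs15 c113 rfl ⟨g112, trivial⟩
theorem g114 : Good XX 15 p114 := rs15 c114 rfl trivial
theorem g115 : Good XX 15 p115 := rs15 c115 rfl trivial
theorem g116 : Good XX 15 p116 := rs15 c116 rfl ⟨g111, ⟨g113, ⟨g114, ⟨g115, trivial⟩⟩⟩⟩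
theorem g117 : Good XX 15 p117 := rs15 c117 rfl trivial
theorem g118 : Good XX 15 p118 := rs15 c118 rfl trivial
theorem g119 : Good XX 15 p119 := rs15 c119 rfl trivial
theorem g120 : Good XX 15 p120 := rs15 c120 rfl trivial
theorem g121 : Good XX 15 p121 := rs15 c121 rfl ⟨g117, ⟨g118, ⟨g119, ⟨g120, trivial⟩⟩⟩⟩
theorem g122 : Good XX 15 p122 := rs15 c122 rfl trivial
theorem g123 : Good XX 15 p123 := rs15 c123 rfl trivial
theorem g124 : Good XX 15 p124 := rs15 c124 rfl trivial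
theorem g125 : Good XX 15 p125 := rs15 c125 rfl ⟨g122, ⟨g123, ⟨g124, trivial⟩⟩⟩
theorem g126 : Good XX 15 p126 := rs15 c126 rfl ⟨g108, ⟨g110, ⟨g116, ⟨g121, ⟨g125, trivial⟩⟩⟩⟩⟩
theorem g127 : Good XX 15 p127 := rs15 c127 rfl ⟨g87, ⟨g88, ⟨g90, ⟨g92, ⟨g95, ⟨g97, ⟨g98, ⟨g100, ⟨g106, ⟨g126, trivial⟩⟩⟩⟩⟩⟩⟩⟩⟩⟩
theorem g128 : Good XX 15 p128 := rs15 c128 rfl trivial
theorem g129 : Good XX 15 p129 := rs15 c129 rfl trivial
theorem g130 : Good XX 15 p130 := rs15 c130 rfl ⟨g128, ⟨g129, trivial⟩⟩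
theorem g131 : Good XX 15 p131 := rs15 c131 rfl trivial
theorem g132 : Good XX 15 p132 := rs15 c132 rfl trivial
theorem g133 : Good XX 15 p133 := rs15 c133 rfl ⟨g132, trivial⟩
theorem g134 : Good XX 15 p134 := rs15 c134 rfl trivial
theorem g135 : Good XX 15 p135 := rs15 c135 rfl trivial
theorem g136 : Good XX 15 p136 := rs15 c136 rfl ⟨g135, trivial⟩
theorem g137 : Good XX 15 p137 := rs15 c137 rfl trivial
theorem g138 : Good XX 15 p138 := rs15 c138 rfl trivial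
theorem g139 : Good XX 15 p139 := rs15 c139 rfl trivial
theorem g140 : Good XX 15 p140 := rs15 c140 rfl trivial
theorem g141 : Good XX 15 p141 := rs15 c141 rfl ⟨g138, ⟨g139, ⟨g140, trivial⟩⟩⟩
theorem g142 : Good XX 15 p142 := rs15 c142 rfl trivial
theorem g143 : Good XX 15 p143 := rs15 c143 rfl ⟨g133, ⟨g134, ⟨g136, ⟨g137, ⟨g141, ⟨g142, trivial⟩⟩⟩⟩⟩⟩
theorem g144 : Good XX 15 p144 := rs15 c144 rfl trivial
theorem g145 : Good XX 15 p145 := rs15 c145 rfl trivial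
theorem g146 : Good XX 15 p146 := rs15 c146 rfl ⟨g145, trivial⟩
theorem g147 : Good XX 15 p147 := rs15 c147 rfl trivial
theorem g148 : Good XX 15 p148 := rs15 c148 rfl ⟨g147, trivial⟩
theorem g149 : Good XX 15 p149 := rs15 c149 rfl trivial
theorem g150 : Good XX 15 p150 := rs15 c150 rfl trivial
theorem g151 : Good XX 15 p151 := rs15 c151 rfl trivial
theorem g152 : Good XX 15 p152 := rs15 c152 rfl trivial
theorem g153 : Good XX 15 p153 := rs15 c153 rfl trivial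
theorem g154 : Good XX 15 p154 := rs15 c154 rfl trivial
theorem g155 : Good XX 15 p155 := rs15 c155 rfl trivial
theorem g156 : Good XX 15 p156 := rs15 c156 rfl trivial
theorem g157 : Good XX 15 p157 := rs15 c157 rfl ⟨g144, ⟨g146, ⟨g148, ⟨g149, ⟨g150, ⟨g151, ⟨g152, ⟨g153, ⟨g154, ⟨g155, ⟨g156, trivial⟩⟩⟩⟩⟩⟩⟩⟩⟩⟩⟩
theorem g158 : Good XX 15 p158 := rs15 c158 rfl trivial
theorem g159 : Good XX 15 p159 := rs15 c159 rfl ⟨g158, trivial⟩
theorem g160 : Good XX 15 p160 := rs15 c160 rfl ⟨g130, ⟨g131, ⟨g143, ⟨g157, ⟨g159, trivial⟩⟩⟩⟩⟩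
theorem g161 : Good XX 15 p161 := rs15 c161 rfl trivial
theorem g162 : Good XX 15 p162 := rs15 c162 rfl ⟨g161, trivial⟩
theorem g163 : Good XX 15 p163 := rs15 c163 rfl trivial
theorem g164 : Good XX 15 p164 := rs15 c164 rfl trivial
theorem g165 : Good XX 15 p165 := rs15 c165 rfl trivial
theorem g166 : Good XX 15 p166 := rs15 c166 rfl ⟨g165, trivial⟩
theorem g167 : Good XX 15 p167 := rs15 c167 rfl trivial
theorem g168 : Good XX 15 p168 := rs15 c168 rfl trivial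
theorem g169 : Good XX 15 p169 := rs15 c169 rfl ⟨g167, ⟨g168, trivial⟩⟩
theorem g170 : Good XX 15 p170 := rs15 c170 rfl ⟨g163, ⟨g164, ⟨g166, ⟨g169, trivial⟩⟩⟩⟩
theorem g171 : Good XX 15 p171 := rs15 c171 rfl trivial
theorem g172 : Good XX 15 p172 := rs15 c172 rfl ⟨g171, trivial⟩
theorem g173 : Good XX 15 p173 := rs15 c173 rfl trivial
theorem g174 : Good XX 15 p174 := rs15 c174 rfl trivial
theorem g175 : Good XX 15 p175 := rs15 c175 rfl ⟨g174, trivial⟩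
theorem g176 : Good XX 15 p176 := rs15 c176 rfl trivial
theorem g177 : Good XX 15 p177 := rs15 c177 rfl ⟨g176, trivial⟩
theorem g178 : Good XX 15 p178 := rs15 c178 rfl trivial
theorem g179 : Good XX 15 p179 := rs15 c179 rfl trivial
theorem g180 : Good XX 15 p180 := rs15 c180 rfl ⟨g172, ⟨g173, ⟨g175, ⟨g177, ⟨g178, ⟨g179, trivial⟩⟩⟩⟩⟩⟩
theorem g181 : Good XX 15 p181 := rs15 c181 rfl trivial
theorem g182 : Good XX 15 p182 := rs15 c182 rfl trivial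
theorem g183 : Good XX 15 p183 := rs15 c183 rfl trivial
theorem g184 : Good XX 15 p184 := rs15 c184 rfl ⟨g182, ⟨g183, trivial⟩⟩
theorem g185 : Good XX 15 p185 := rs15 c185 rfl trivial
theorem g186 : Good XX 15 p186 := rs15 c186 rfl ⟨g185, trivial⟩
theorem g187 : Good XX 15 p187 := rs15 c187 rfl trivial
theorem g188 : Good XX 15 p188 := rs15 c188 rfl trivial
theorem g189 : Good XX 15 p189 := rs15 c189 rfl trivial
theorem g190 : Good XX 15 p190 := rs15 c190 rfl trivial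
theorem g191 : Good XX 15 p191 := rs15 c191 rfl ⟨g187, ⟨g188, ⟨g189, ⟨g190, trivial⟩⟩⟩⟩
theorem g192 : Good XX 15 p192 := rs15 c192 rfl trivial
theorem g193 : Good XX 15 p193 := rs15 c193 rfl trivial
theorem g194 : Good XX 15 p194 := rs15 c194 rfl trivial
theorem g195 : Good XX 15 p195 := rs15 c195 rfl trivial
theorem g196 : Good XX 15 p196 := rs15 c196 rfl ⟨g181, ⟨g184, ⟨g186, ⟨g191, ⟨g192, ⟨g193, ⟨g194, ⟨g195, trivial⟩⟩⟩⟩⟩⟩⟩⟩
theorem g197 : Good XX 15 p197 := rs15 c197 rfl trivial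
theorem g198 : Good XX 15 p198 := rs15 c198 rfl trivial
theorem g199 : Good XX 15 p199 := rs15 c199 rfl ⟨g198, trivial⟩
theorem g200 : Good XX 15 p200 := rs15 c200 rfl trivial
theorem g201 : Good XX 15 p201 := rs15 c201 rfl trivial
theorem g202 : Good XX 15 p202 := rs15 c202 rfl ⟨g200, ⟨g201, trivial⟩⟩
theorem g203 : Good XX 15 p203 := rs15 c203 rfl ⟨g199, ⟨g202, trivial⟩⟩
theorem g204 : Good XX 15 p204 := rs15 c204 rfl ⟨g197, ⟨g203, trivial⟩⟩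
theorem g205 : Good XX 15 p205 := rs15 c205 rfl trivial
theorem g206 : Good XX 15 p206 := rs15 c206 rfl trivial
theorem g207 : Good XX 15 p207 := rs15 c207 rfl trivial
theorem g208 : Good XX 15 p208 := rs15 c208 rfl ⟨g207, trivial⟩
theorem g209 : Good XX 15 p209 := rs15 c209 rfl trivial
theorem g210 : Good XX 15 p210 := rs15 c210 rfl trivial
theorem g211 : Good XX 15 p211 := rs15 c211 rfl trivial
theorem g212 : Good XX 15 p212 := rs15 c212 rfl ⟨g211, trivial⟩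
theorem g213 : Good XX 15 p213 := rs15 c213 rfl ⟨g210, ⟨g212, trivial⟩⟩
theorem g214 : Good XX 15 p214 := rs15 c214 rfl ⟨g206, ⟨g208, ⟨g209, ⟨g213, trivial⟩⟩⟩⟩
theorem g215 : Good XX 15 p215 := rs15 c215 rfl trivial
theorem g216 : Good XX 15 p216 := rs15 c216 rfl trivial
theorem g217 : Good XX 15 p217 := rs15 c217 rfl trivial
theorem g218 : Good XX 15 p218 := rs15 c218 rfl ⟨g217, trivial⟩
theorem g219 : Good XX 15 p219 := rs15 c219 rfl trivial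
theorem g220 : Good XX 15 p220 := rs15 c220 rfl ⟨g219, trivial⟩
theorem g221 : Good XX 15 p221 := rs15 c221 rfl trivial
theorem g222 : Good XX 15 p222 := rs15 c222 rfl trivial
theorem g223 : Good XX 15 p223 := rs15 c223 rfl trivial
theorem g224 : Good XX 15 p224 := rs15 c224 rfl ⟨g223, trivial⟩
theorem g225 : Good XX 15 p225 := rs15 c225 rfl trivial
theorem g226 : Good XX 15 p226 := rs15 c226 rfl ⟨g221, ⟨g222, ⟨g224, ⟨g225, trivial⟩⟩⟩⟩
theorem g227 : Good XX 15 p227 := rs15 c227 rfl ⟨g216, ⟨g218, ⟨g220, ⟨g226, trivial⟩⟩⟩⟩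
theorem g228 : Good XX 15 p228 := rs15 c228 rfl trivial
theorem g229 : Good XX 15 p229 := rs15 c229 rfl ⟨g228, trivial⟩
theorem g230 : Good XX 15 p230 := rs15 c230 rfl trivial
theorem g231 : Good XX 15 p231 := rs15 c231 rfl ⟨g230, trivial⟩
theorem g232 : Good XX 15 p232 := rs15 c232 rfl trivial
theorem g233 : Good XX 15 p233 := rs15 c233 rfl trivial
theorem g234 : Good XX 15 p234 := rs15 c234 rfl trivial
theorem g235 : Good XX 15 p235 := rs15 c235 rfl ⟨g234, trivial⟩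
theorem g236 : Good XX 15 p236 := rs15 c236 rfl trivial
theorem g237 : Good XX 15 p237 := rs15 c237 rfl ⟨g232, ⟨g233, ⟨g235, ⟨g236, trivial⟩⟩⟩⟩
theorem g238 : Good XX 15 p238 := rs15 c238 rfl ⟨g229, ⟨g231, ⟨g237, trivial⟩⟩⟩
theorem g239 : Good XX 15 p239 := rs15 c239 rfl trivial
theorem g240 : Good XX 15 p240 := rs15 c240 rfl trivial
theorem g241 : Good XX 15 p241 := rs15 c241 rfl ⟨g240, trivial⟩
theorem g242 : Good XX 15 p242 := rs15 c242 rfl trivial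
theorem g243 : Good XX 15 p243 := rs15 c243 rfl ⟨g242, trivial⟩
theorem g244 : Good XX 15 p244 := rs15 c244 rfl trivial
theorem g245 : Good XX 15 p245 := rs15 c245 rfl ⟨g244, trivial⟩
theorem g246 : Good XX 15 p246 := rs15 c246 rfl trivial
theorem g247 : Good XX 15 p247 := rs15 c247 rfl trivial
theorem g248 : Good XX 15 p248 := rs15 c248 rfl ⟨g245, ⟨g246, ⟨g247, trivial⟩⟩⟩
theorem g249 : Good XX 15 p249 := rs15 c249 rfl trivial
theorem g250 : Good XX 15 p250 := rs15 c250 rfl trivial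
theorem g251 : Good XX 15 p251 := rs15 c251 rfl trivial
theorem g252 : Good XX 15 p252 := rs15 c252 rfl trivial
theorem g253 : Good XX 15 p253 := rs15 c253 rfl ⟨g249, ⟨g250, ⟨g251, ⟨g252, trivial⟩⟩⟩⟩
theorem g254 : Good XX 15 p254 := rs15 c254 rfl trivial
theorem g255 : Good XX 15 p255 := rs15 c255 rfl trivial
theorem g256 : Good XX 15 p256 := rs15 c256 rfl trivial
theorem g257 : Good XX 15 p257 := rs15 c257 rfl ⟨g254, ⟨g255, ⟨g256, trivial⟩⟩⟩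
theorem g258 : Good XX 15 p258 := rs15 c258 rfl ⟨g239, ⟨g241, ⟨g243, ⟨g248, ⟨g253, ⟨g257, trivial⟩⟩⟩⟩⟩⟩
theorem g259 : Good XX 15 p259 := rs15 c259 rfl ⟨g205, ⟨g214, ⟨g215, ⟨g227, ⟨g238, ⟨g258, trivial⟩⟩⟩⟩⟩⟩
theorem g260 : Good XX 15 p260 := rs15 c260 rfl trivial
theorem g261 : Good XX 15 p261 := rs15 c261 rfl trivial
theorem g262 : Good XX 15 p262 := rs15 c262 rfl trivial
theorem g263 : Good XX 15 p263 := rs15 c263 rfl ⟨g262, trivial⟩
theorem g264 : Good XX 15 p264 := rs15 c264 rfl trivial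
theorem g265 : Good XX 15 p265 := rs15 c265 rfl trivial
theorem g266 : Good XX 15 p266 := rs15 c266 rfl trivial
theorem g267 : Good XX 15 p267 := rs15 c267 rfl ⟨g266, trivial⟩
theorem g268 : Good XX 15 p268 := rs15 c268 rfl ⟨g265, ⟨g267, trivial⟩⟩
theorem g269 : Good XX 15 p269 := rs15 c269 rfl trivial
theorem g270 : Good XX 15 p270 := rs15 c270 rfl trivial
theorem g271 : Good XX 15 p271 := rs15 c271 rfl trivial
theorem g272 : Good XX 15 p272 := rs15 c272 rfl ⟨g271, trivial⟩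
theorem g273 : Good XX 15 p273 := rs15 c273 rfl trivial
theorem g274 : Good XX 15 p274 := rs15 c274 rfl trivial
theorem g275 : Good XX 15 p275 := rs15 c275 rfl trivial
theorem g276 : Good XX 15 p276 := rs15 c276 rfl trivial
theorem g277 : Good XX 15 p277 := rs15 c277 rfl ⟨g273, ⟨g274, ⟨g275, ⟨g276, trivial⟩⟩⟩⟩
theorem g278 : Good XX 15 p278 := rs15 c278 rfl ⟨g270, ⟨g272, ⟨g277, trivial⟩⟩⟩
theorem g279 : Good XX 15 p279 := rs15 c279 rfl trivial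
theorem g280 : Good XX 15 p280 := rs15 c280 rfl trivial
theorem g281 : Good XX 15 p281 := rs15 c281 rfl ⟨g280, trivial⟩
theorem g282 : Good XX 15 p282 := rs15 c282 rfl trivial
theorem g283 : Good XX 15 p283 := rs15 c283 rfl trivial
theorem g284 : Good XX 15 p284 := rs15 c284 rfl trivial
theorem g285 : Good XX 15 p285 := rs15 c285 rfl trivial
theorem g286 : Good XX 15 p286 := rs15 c286 rfl ⟨g285, trivial⟩
theorem g287 : Good XX 15 p287 := rs15 c287 rfl trivial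
theorem g288 : Good XX 15 p288 := rs15 c288 rfl trivial
theorem g289 : Good XX 15 p289 := rs15 c289 rfl trivial
theorem g290 : Good XX 15 p290 := rs15 c290 rfl ⟨g282, ⟨g283, ⟨g284, ⟨g286, ⟨g287, ⟨g288, ⟨g289, trivial⟩⟩⟩⟩⟩⟩⟩
theorem g291 : Good XX 15 p291 := rs15 c291 rfl ⟨g279, ⟨g281, ⟨g290, trivial⟩⟩⟩
theorem g292 : Good XX 15 p292 := rs15 c292 rfl trivial
theorem g293 : Good XX 15 p293 := rs15 c293 rfl trivial
theorem g294 : Good XX 15 p294 := rs15 c294 rfl ⟨g293, trivial⟩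
theorem g295 : Good XX 15 p295 := rs15 c295 rfl trivial
theorem g296 : Good XX 15 p296 := rs15 c296 rfl trivial
theorem g297 : Good XX 15 p297 := rs15 c297 rfl trivial
theorem g298 : Good XX 15 p298 := rs15 c298 rfl ⟨g295, ⟨g296, ⟨g297, trivial⟩⟩⟩
theorem g299 : Good XX 15 p299 := rs15 c299 rfl trivial
theorem g300 : Good XX 15 p300 := rs15 c300 rfl ⟨g299, trivial⟩
theorem g301 : Good XX 15 p301 := rs15 c301 rfl trivial
theorem g302 : Good XX 15 p302 := rs15 c302 rfl trivial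
theorem g303 : Good XX 15 p303 := rs15 c303 rfl trivial
theorem g304 : Good XX 15 p304 := rs15 c304 rfl trivial
theorem g305 : Good XX 15 p305 := rs15 c305 rfl ⟨g304, trivial⟩
theorem g306 : Good XX 15 p306 := rs15 c306 rfl trivial
theorem g307 : Good XX 15 p307 := rs15 c307 rfl trivial
theorem g308 : Good XX 15 p308 := rs15 c308 rfl trivial
theorem g309 : Good XX 15 p309 := rs15 c309 rfl ⟨g300, ⟨g301, ⟨g302, ⟨g303, ⟨g305, ⟨g306, ⟨g307, ⟨g308, trivial⟩⟩⟩⟩⟩⟩⟩⟩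
theorem g310 : Good XX 15 p310 := rs15 c310 rfl trivial
theorem g311 : Good XX 15 p311 := rs15 c311 rfl trivial
theorem g312 : Good XX 15 p312 := rs15 c312 rfl trivial
theorem g313 : Good XX 15 p313 := rs15 c313 rfl trivial
theorem g314 : Good XX 15 p314 := rs15 c314 rfl trivial
theorem g315 : Good XX 15 p315 := rs15 c315 rfl trivial
theorem g316 : Good XX 15 p316 := rs15 c316 rfl trivial
theorem g317 : Good XX 15 p317 := rs15 c317 rfl trivial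
theorem g318 : Good XX 15 p318 := rs15 c318 rfl ⟨g310, ⟨g311, ⟨g312, ⟨g313, ⟨g314, ⟨g315, ⟨g316, ⟨g317, trivial⟩⟩⟩⟩⟩⟩⟩⟩
theorem g319 : Good XX 15 p319 := rs15 c319 rfl ⟨g292, ⟨g294, ⟨g298, ⟨g309, ⟨g318, trivial⟩⟩⟩⟩⟩
theorem g320 : Good XX 15 p320 := rs15 c320 rfl ⟨g260, ⟨g261, ⟨g263, ⟨g264, ⟨g268, ⟨g269, ⟨g278, ⟨g291, ⟨g319, trivial⟩⟩⟩⟩⟩⟩⟩⟩⟩
theorem g321 : Good XX 15 p321 := rs15 c321 rfl trivial
theorem g322 : Good XX 15 p322 := rs15 c322 rfl trivial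
theorem g323 : Good XX 15 p323 := rs15 c323 rfl ⟨g322, trivial⟩
theorem g324 : Good XX 15 p324 := rs15 c324 rfl trivial
theorem g325 : Good XX 15 p325 := rs15 c325 rfl trivial
theorem g326 : Good XX 15 p326 := rs15 c326 rfl trivial
theorem g327 : Good XX 15 p327 := rs15 c327 rfl ⟨g324, ⟨g325, ⟨g326, trivial⟩⟩⟩
theorem g328 : Good XX 15 p328 := rs15 c328 rfl trivial
theorem g329 : Good XX 15 p329 := rs15 c329 rfl trivial
theorem g330 : Good XX 15 p330 := rs15 c330 rfl trivial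
theorem g331 : Good XX 15 p331 := rs15 c331 rfl trivial
theorem g332 : Good XX 15 p332 := rs15 c332 rfl trivial
theorem g333 : Good XX 15 p333 := rs15 c333 rfl trivial
theorem g334 : Good XX 15 p334 := rs15 c334 rfl ⟨g328, ⟨g329, ⟨g330, ⟨g331, ⟨g332, ⟨g333, trivial⟩⟩⟩⟩⟩⟩
theorem g335 : Good XX 15 p335 := rs15 c335 rfl trivial
theorem g336 : Good XX 15 p336 := rs15 c336 rfl trivial
theorem g337 : Good XX 15 p337 := rs15 c337 rfl trivial
theorem g338 : Good XX 15 p338 := rs15 c338 rfl ⟨g337, trivial⟩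
theorem g339 : Good XX 15 p339 := rs15 c339 rfl trivial
theorem g340 : Good XX 15 p340 := rs15 c340 rfl trivial
theorem g341 : Good XX 15 p341 := rs15 c341 rfl trivial
theorem g342 : Good XX 15 p342 := rs15 c342 rfl ⟨g341, trivial⟩
theorem g343 : Good XX 15 p343 := rs15 c343 rfl trivial
theorem g344 : Good XX 15 p344 := rs15 c344 rfl trivial
theorem g345 : Good XX 15 p345 := rs15 c345 rfl trivial
theorem g346 : Good XX 15 p346 := rs15 c346 rfl ⟨g339, ⟨g340, ⟨g342, ⟨g343, ⟨g344, ⟨g345, trivial⟩⟩⟩⟩⟩⟩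
theorem g347 : Good XX 15 p347 := rs15 c347 rfl ⟨g336, ⟨g338, ⟨g346, trivial⟩⟩⟩
theorem g348 : Good XX 15 p348 := rs15 c348 rfl trivial
theorem g349 : Good XX 15 p349 := rs15 c349 rfl trivial
theorem g350 : Good XX 15 p350 := rs15 c350 rfl trivial
theorem g351 : Good XX 15 p351 := rs15 c351 rfl trivial
theorem g352 : Good XX 15 p352 := rs15 c352 rfl ⟨g349, ⟨g350, ⟨g351, trivial⟩⟩⟩
theorem g353 : Good XX 15 p353 := rs15 c353 rfl trivial
theorem g354 : Good XX 15 p354 := rs15 c354 rfl ⟨g353, trivial⟩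
theorem g355 : Good XX 15 p355 := rs15 c355 rfl trivial
theorem g356 : Good XX 15 p356 := rs15 c356 rfl ⟨g355, trivial⟩
theorem g357 : Good XX 15 p357 := rs15 c357 rfl trivial
theorem g358 : Good XX 15 p358 := rs15 c358 rfl trivial
theorem g359 : Good XX 15 p359 := rs15 c359 rfl trivial
theorem g360 : Good XX 15 p360 := rs15 c360 rfl trivial
theorem g361 : Good XX 15 p361 := rs15 c361 rfl trivial
theorem g362 : Good XX 15 p362 := rs15 c362 rfl trivial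
theorem g363 : Good XX 15 p363 := rs15 c363 rfl trivial
theorem g364 : Good XX 15 p364 := rs15 c364 rfl ⟨g360, ⟨g361, ⟨g362, ⟨g363, trivial⟩⟩⟩⟩
theorem g365 : Good XX 15 p365 := rs15 c365 rfl trivial
theorem g366 : Good XX 15 p366 := rs15 c366 rfl trivial
theorem g367 : Good XX 15 p367 := rs15 c367 rfl trivial
theorem g368 : Good XX 15 p368 := rs15 c368 rfl ⟨g365, ⟨g366, ⟨g367, trivial⟩⟩⟩
theorem g369 : Good XX 15 p369 := rs15 c369 rfl trivial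
theorem g370 : Good XX 15 p370 := rs15 c370 rfl trivial
theorem g371 : Good XX 15 p371 := rs15 c371 rfl ⟨g369, ⟨g370, trivial⟩⟩
theorem g372 : Good XX 15 p372 := rs15 c372 rfl trivial
theorem g373 : Good XX 15 p373 := rs15 c373 rfl trivial
theorem g374 : Good XX 15 p374 := rs15 c374 rfl trivial
theorem g375 : Good XX 15 p375 := rs15 c375 rfl trivial
theorem g376 : Good XX 15 p376 := rs15 c376 rfl trivial
theorem g377 : Good XX 15 p377 := rs15 c377 rfl trivial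
theorem g378 : Good XX 15 p378 := rs15 c378 rfl ⟨g357, ⟨g358, ⟨g359, ⟨g364, ⟨g368, ⟨g371, ⟨g372, ⟨g373, ⟨g374, ⟨g375, ⟨g376, ⟨g377, trivial⟩⟩⟩⟩⟩⟩⟩⟩⟩⟩⟩⟩
theorem g379 : Good XX 15 p379 := rs15 c379 rfl trivial
theorem g380 : Good XX 15 p380 := rs15 c380 rfl trivial
theorem g381 : Good XX 15 p381 := rs15 c381 rfl trivial
theorem g382 : Good XX 15 p382 := rs15 c382 rfl ⟨g381, trivial⟩
theorem g383 : Good XX 15 p383 := rs15 c383 rfl trivial
theorem g384 : Good XX 15 p384 := rs15 c384 rfl trivial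
theorem g385 : Good XX 15 p385 := rs15 c385 rfl trivial
theorem g386 : Good XX 15 p386 := rs15 c386 rfl ⟨g385, trivial⟩
theorem g387 : Good XX 15 p387 := rs15 c387 rfl ⟨g379, ⟨g380, ⟨g382, ⟨g383, ⟨g384, ⟨g386, trivial⟩⟩⟩⟩⟩⟩
theorem g388 : Good XX 15 p388 := rs15 c388 rfl trivial
theorem g389 : Good XX 15 p389 := rs15 c389 rfl ⟨g388, trivial⟩
theorem g390 : Good XX 15 p390 := rs15 c390 rfl trivial
theorem g391 : Good XX 15 p391 := rs15 c391 rfl trivial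
theorem g392 : Good XX 15 p392 := rs15 c392 rfl ⟨g391, trivial⟩
theorem g393 : Good XX 15 p393 := rs15 c393 rfl trivial
theorem g394 : Good XX 15 p394 := rs15 c394 rfl ⟨g393, trivial⟩
theorem g395 : Good XX 15 p395 := rs15 c395 rfl trivial
theorem g396 : Good XX 15 p396 := rs15 c396 rfl trivial
theorem g397 : Good XX 15 p397 := rs15 c397 rfl trivial
theorem g398 : Good XX 15 p398 := rs15 c398 rfl trivial
theorem g399 : Good XX 15 p399 := rs15 c399 rfl trivial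
theorem g400 : Good XX 15 p400 := rs15 c400 rfl trivial
theorem g401 : Good XX 15 p401 := rs15 c401 rfl trivial
theorem g402 : Good XX 15 p402 := rs15 c402 rfl trivial
theorem g403 : Good XX 15 p403 := rs15 c403 rfl ⟨g400, ⟨g401, ⟨g402, trivial⟩⟩⟩
theorem g404 : Good XX 15 p404 := rs15 c404 rfl trivial
theorem g405 : Good XX 15 p405 := rs15 c405 rfl ⟨g389, ⟨g390, ⟨g392, ⟨g394, ⟨g395, ⟨g396, ⟨g397, ⟨g398, ⟨g399, ⟨g403, ⟨g404, trivial⟩⟩⟩⟩⟩⟩⟩⟩⟩⟩⟩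
theorem g406 : Good XX 15 p406 := rs15 c406 rfl ⟨g348, ⟨g352, ⟨g354, ⟨g356, ⟨g378, ⟨g387, ⟨g405, trivial⟩⟩⟩⟩⟩⟩⟩
theorem g407 : Good XX 15 p407 := rs15 c407 rfl trivial
theorem g408 : Good XX 15 p408 := rs15 c408 rfl ⟨g407, trivial⟩
theorem g409 : Good XX 15 p409 := rs15 c409 rfl trivial
theorem g410 : Good XX 15 p410 := rs15 c410 rfl ⟨g409, trivial⟩
theorem g411 : Good XX 15 p411 := rs15 c411 rfl trivial
theorem g412 : Good XX 15 p412 := rs15 c412 rfl trivial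
theorem g413 : Good XX 15 p413 := rs15 c413 rfl trivial
theorem g414 : Good XX 15 p414 := rs15 c414 rfl trivial
theorem g415 : Good XX 15 p415 := rs15 c415 rfl trivial
theorem g416 : Good XX 15 p416 := rs15 c416 rfl trivial
theorem g417 : Good XX 15 p417 := rs15 c417 rfl trivial
theorem g418 : Good XX 15 p418 := rs15 c418 rfl ⟨g415, ⟨g416, ⟨g417, trivial⟩⟩⟩
theorem g419 : Good XX 15 p419 := rs15 c419 rfl trivial
theorem g420 : Good XX 15 p420 := rs15 c420 rfl trivial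
theorem g421 : Good XX 15 p421 := rs15 c421 rfl trivial
theorem g422 : Good XX 15 p422 := rs15 c422 rfl trivial
theorem g423 : Good XX 15 p423 := rs15 c423 rfl trivial
theorem g424 : Good XX 15 p424 := rs15 c424 rfl trivial
theorem g425 : Good XX 15 p425 := rs15 c425 rfl trivial
theorem g426 : Good XX 15 p426 := rs15 c426 rfl trivial
theorem g427 : Good XX 15 p427 := rs15 c427 rfl trivial
theorem g428 : Good XX 15 p428 := rs15 c428 rfl ⟨g411, ⟨g412, ⟨g413, ⟨g414, ⟨g418, ⟨g419, ⟨g420, ⟨g421, ⟨g422, ⟨g423, ⟨g424, ⟨g425, ⟨g426, ⟨g427, trivial⟩⟩⟩⟩⟩⟩⟩⟩⟩⟩⟩⟩⟩⟩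
theorem g429 : Good XX 15 p429 := rs15 c429 rfl trivial
theorem g430 : Good XX 15 p430 := rs15 c430 rfl trivial
theorem g431 : Good XX 15 p431 := rs15 c431 rfl trivial
theorem g432 : Good XX 15 p432 := rs15 c432 rfl trivial
theorem g433 : Good XX 15 p433 := rs15 c433 rfl trivial
theorem g434 : Good XX 15 p434 := rs15 c434 rfl trivial
theorem g435 : Good XX 15 p435 := rs15 c435 rfl ⟨g431, ⟨g432, ⟨g433, ⟨g434, trivial⟩⟩⟩⟩
theorem g436 : Good XX 15 p436 := rs15 c436 rfl trivial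
theorem g437 : Good XX 15 p437 := rs15 c437 rfl trivial
theorem g438 : Good XX 15 p438 := rs15 c438 rfl trivial
theorem g439 : Good XX 15 p439 := rs15 c439 rfl trivial
theorem g440 : Good XX 15 p440 := rs15 c440 rfl trivial
theorem g441 : Good XX 15 p441 := rs15 c441 rfl trivial
theorem g442 : Good XX 15 p442 := rs15 c442 rfl ⟨g429, ⟨g430, ⟨g435, ⟨g436, ⟨g437, ⟨g438, ⟨g439, ⟨g440, ⟨g441, trivial⟩⟩⟩⟩⟩⟩⟩⟩⟩
theorem g443 : Good XX 15 p443 := rs15 c443 rfl trivial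
theorem g444 : Good XX 15 p444 := rs15 c444 rfl ⟨g443, trivial⟩
theorem g445 : Good XX 15 p445 := rs15 c445 rfl trivial
theorem g446 : Good XX 15 p446 := rs15 c446 rfl ⟨g445, trivial⟩
theorem g447 : Good XX 15 p447 := rs15 c447 rfl trivial
theorem g448 : Good XX 15 p448 := rs15 c448 rfl ⟨g447, trivial⟩
theorem g449 : Good XX 15 p449 := rs15 c449 rfl trivial
theorem g450 : Good XX 15 p450 := rs15 c450 rfl trivial
theorem g451 : Good XX 15 p451 := rs15 c451 rfl trivial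
theorem g452 : Good XX 15 p452 := rs15 c452 rfl trivial
theorem g453 : Good XX 15 p453 := rs15 c453 rfl trivial
theorem g454 : Good XX 15 p454 := rs15 c454 rfl ⟨g449, ⟨g450, ⟨g451, ⟨g452, ⟨g453, trivial⟩⟩⟩⟩⟩
theorem g455 : Good XX 15 p455 := rs15 c455 rfl trivial
theorem g456 : Good XX 15 p456 := rs15 c456 rfl ⟨g455, trivial⟩
theorem g457 : Good XX 15 p457 := rs15 c457 rfl trivial
theorem g458 : Good XX 15 p458 := rs15 c458 rfl ⟨g457, trivial⟩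
theorem g459 : Good XX 15 p459 := rs15 c459 rfl trivial
theorem g460 : Good XX 15 p460 := rs15 c460 rfl trivial
theorem g461 : Good XX 15 p461 := rs15 c461 rfl trivial
theorem g462 : Good XX 15 p462 := rs15 c462 rfl trivial
theorem g463 : Good XX 15 p463 := rs15 c463 rfl trivial
theorem g464 : Good XX 15 p464 := rs15 c464 rfl trivial
theorem g465 : Good XX 15 p465 := rs15 c465 rfl trivial
theorem g466 : Good XX 15 p466 := rs15 c466 rfl trivial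
theorem g467 : Good XX 15 p467 := rs15 c467 rfl trivial
theorem g468 : Good XX 15 p468 := rs15 c468 rfl trivial
theorem g469 : Good XX 15 p469 := rs15 c469 rfl trivial
theorem g470 : Good XX 15 p470 := rs15 c470 rfl ⟨g446, ⟨g448, ⟨g454, ⟨g456, ⟨g458, ⟨g459, ⟨g460, ⟨g461, ⟨g462, ⟨g463, ⟨g464, ⟨g465, ⟨g466, ⟨g467, ⟨g468, ⟨g469, trivial⟩⟩⟩⟩⟩⟩⟩⟩⟩⟩⟩⟩⟩⟩⟩⟩
theorem g471 : Good XX 15 p471 := rs15 c471 rfl trivial
theorem g472 : Good XX 15 p472 := rs15 c472 rfl ⟨g471, trivial⟩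
theorem g473 : Good XX 15 p473 := rs15 c473 rfl trivial
theorem g474 : Good XX 15 p474 := rs15 c474 rfl ⟨g473, trivial⟩
theorem g475 : Good XX 15 p475 := rs15 c475 rfl trivial
theorem g476 : Good XX 15 p476 := rs15 c476 rfl trivial
theorem g477 : Good XX 15 p477 := rs15 c477 rfl trivial
theorem g478 : Good XX 15 p478 := rs15 c478 rfl trivial
theorem g479 : Good XX 15 p479 := rs15 c479 rfl ⟨g475, ⟨g476, ⟨g477, ⟨g478, trivial⟩⟩⟩⟩
theorem g480 : Good XX 15 p480 := rs15 c480 rfl trivial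
theorem g481 : Good XX 15 p481 := rs15 c481 rfl ⟨g480, trivial⟩
theorem g482 : Good XX 15 p482 := rs15 c482 rfl trivial
theorem g483 : Good XX 15 p483 := rs15 c483 rfl ⟨g482, trivial⟩
theorem g484 : Good XX 15 p484 := rs15 c484 rfl trivial
theorem g485 : Good XX 15 p485 := rs15 c485 rfl trivial
theorem g486 : Good XX 15 p486 := rs15 c486 rfl trivial
theorem g487 : Good XX 15 p487 := rs15 c487 rfl trivial
theorem g488 : Good XX 15 p488 := rs15 c488 rfl trivial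
theorem g489 : Good XX 15 p489 := rs15 c489 rfl trivial
theorem g490 : Good XX 15 p490 := rs15 c490 rfl trivial
theorem g491 : Good XX 15 p491 := rs15 c491 rfl trivial
theorem g492 : Good XX 15 p492 := rs15 c492 rfl trivial
theorem g493 : Good XX 15 p493 := rs15 c493 rfl trivial
theorem g494 : Good XX 15 p494 := rs15 c494 rfl trivial
theorem g495 : Good XX 15 p495 := rs15 c495 rfl ⟨g472, ⟨g474, ⟨g479, ⟨g481, ⟨g483, ⟨g484, ⟨g485, ⟨g486, ⟨g487, ⟨g488, ⟨g489, ⟨g490, ⟨g491, ⟨g492, ⟨g493, ⟨g494, trivial⟩⟩⟩⟩⟩⟩⟩⟩⟩⟩⟩⟩⟩⟩⟩⟩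
theorem g496 : Good XX 15 p496 := rs15 c496 rfl trivial
theorem g497 : Good XX 15 p497 := rs15 c497 rfl trivial
theorem g498 : Good XX 15 p498 := rs15 c498 rfl ⟨g497, trivial⟩
theorem g499 : Good XX 15 p499 := rs15 c499 rfl trivial
theorem g500 : Good XX 15 p500 := rs15 c500 rfl ⟨g499, trivial⟩
theorem g501 : Good XX 15 p501 := rs15 c501 rfl trivial
theorem g502 : Good XX 15 p502 := rs15 c502 rfl trivial
theorem g503 : Good XX 15 p503 := rs15 c503 rfl trivial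
theorem g504 : Good XX 15 p504 := rs15 c504 rfl trivial
theorem g505 : Good XX 15 p505 := rs15 c505 rfl trivial
theorem g506 : Good XX 15 p506 := rs15 c506 rfl ⟨g504, ⟨g505, trivial⟩⟩
theorem g507 : Good XX 15 p507 := rs15 c507 rfl trivial
theorem g508 : Good XX 15 p508 := rs15 c508 rfl trivial
theorem g509 : Good XX 15 p509 := rs15 c509 rfl ⟨g507, ⟨g508, trivial⟩⟩
theorem g510 : Good XX 15 p510 := rs15 c510 rfl trivial
theorem g511 : Good XX 15 p511 := rs15 c511 rfl trivial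
theorem g512 : Good XX 15 p512 := rs15 c512 rfl trivial
theorem g513 : Good XX 15 p513 := rs15 c513 rfl trivial
theorem g514 : Good XX 15 p514 := rs15 c514 rfl trivial
theorem g515 : Good XX 15 p515 := rs15 c515 rfl trivial
theorem g516 : Good XX 15 p516 := rs15 c516 rfl trivial
theorem g517 : Good XX 15 p517 := rs15 c517 rfl trivial
theorem g518 : Good XX 15 p518 := rs15 c518 rfl trivial
theorem g519 : Good XX 15 p519 := rs15 c519 rfl trivial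
theorem g520 : Good XX 15 p520 := rs15 c520 rfl trivial
theorem g521 : Good XX 15 p521 := rs15 c521 rfl trivial
theorem g522 : Good XX 15 p522 := rs15 c522 rfl trivial
theorem g523 : Good XX 15 p523 := rs15 c523 rfl trivial
theorem g524 : Good XX 15 p524 := rs15 c524 rfl trivial
theorem g525 : Good XX 15 p525 := rs15 c525 rfl trivial
theorem g526 : Good XX 15 p526 := rs15 c526 rfl trivial
theorem g527 : Good XX 15 p527 := rs15 c527 rfl trivial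
theorem g528 : Good XX 15 p528 := rs15 c528 rfl trivial
theorem g529 : Good XX 15 p529 := rs15 c529 rfl trivial
theorem g530 : Good XX 15 p530 := rs15 c530 rfl trivial
theorem g531 : Good XX 15 p531 := rs15 c531 rfl ⟨g496, ⟨g498, ⟨g500, ⟨g501, ⟨g502, ⟨g503, ⟨g506, ⟨g509, ⟨g510, ⟨g511, ⟨g512, ⟨g513, ⟨g514, ⟨g515, ⟨g516, ⟨g517, ⟨g518, ⟨g519, ⟨g520, ⟨g521, ⟨g522, ⟨g523, ⟨g524, ⟨g525, ⟨g526, ⟨g527, ⟨g528, ⟨g529, ⟨g530, trivial⟩⟩⟩⟩⟩⟩⟩⟩⟩⟩⟩⟩⟩⟩⟩⟩⟩⟩⟩⟩⟩⟩⟩⟩⟩⟩⟩⟩⟩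
theorem g532 : Good XX 15 p532 := rs15 c532 rfl ⟨g408, ⟨g410, ⟨g428, ⟨g442, ⟨g444, ⟨g470, ⟨g495, ⟨g531, trivial⟩⟩⟩⟩⟩⟩⟩⟩
theorem g533 : Good XX 15 p533 := rs15 c533 rfl trivial
theorem g534 : Good XX 15 p534 := rs15 c534 rfl trivial
theorem g535 : Good XX 15 p535 := rs15 c535 rfl trivial
theorem g536 : Good XX 15 p536 := rs15 c536 rfl trivial
theorem g537 : Good XX 15 p537 := rs15 c537 rfl ⟨g534, ⟨g535, ⟨g536, trivial⟩⟩⟩
theorem g538 : Good XX 15 p538 := rs15 c538 rfl trivial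
theorem g539 : Good XX 15 p539 := rs15 c539 rfl trivial
theorem g540 : Good XX 15 p540 := rs15 c540 rfl ⟨g539, trivial⟩
theorem g541 : Good XX 15 p541 := rs15 c541 rfl ⟨g538, ⟨g540, trivial⟩⟩
theorem g542 : Good XX 15 p542 := rs15 c542 rfl trivial
theorem g543 : Good XX 15 p543 := rs15 c543 rfl ⟨g542, trivial⟩
theorem g544 : Good XX 15 p544 := rs15 c544 rfl trivial
theorem g545 : Good XX 15 p545 := rs15 c545 rfl ⟨g543, ⟨g544, trivial⟩⟩
theorem g546 : Good XX 15 p546 := rs15 c546 rfl trivial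
theorem g547 : Good XX 15 p547 := rs15 c547 rfl ⟨g546, trivial⟩
theorem g548 : Good XX 15 p548 := rs15 c548 rfl trivial
theorem g549 : Good XX 15 p549 := rs15 c549 rfl trivial
theorem g550 : Good XX 15 p550 := rs15 c550 rfl trivial
theorem g551 : Good XX 15 p551 := rs15 c551 rfl trivial
theorem g552 : Good XX 15 p552 := rs15 c552 rfl trivial
theorem g553 : Good XX 15 p553 := rs15 c553 rfl ⟨g549, ⟨g550, ⟨g551, ⟨g552, trivial⟩⟩⟩⟩
theorem g554 : Good XX 15 p554 := rs15 c554 rfl trivial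
theorem g555 : Good XX 15 p555 := rs15 c555 rfl trivial
theorem g556 : Good XX 15 p556 := rs15 c556 rfl trivial
theorem g557 : Good XX 15 p557 := rs15 c557 rfl trivial
theorem g558 : Good XX 15 p558 := rs15 c558 rfl trivial
theorem g559 : Good XX 15 p559 := rs15 c559 rfl trivial
theorem g560 : Good XX 15 p560 := rs15 c560 rfl trivial
theorem g561 : Good XX 15 p561 := rs15 c561 rfl ⟨g547, ⟨g548, ⟨g553, ⟨g554, ⟨g555, ⟨g556, ⟨g557, ⟨g558, ⟨g559, ⟨g560, trivial⟩⟩⟩⟩⟩⟩⟩⟩⟩⟩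
theorem g562 : Good XX 15 p562 := rs15 c562 rfl trivial
theorem g563 : Good XX 15 p563 := rs15 c563 rfl trivial
theorem g564 : Good XX 15 p564 := rs15 c564 rfl ⟨g563, trivial⟩
theorem g565 : Good XX 15 p565 := rs15 c565 rfl trivial
theorem g566 : Good XX 15 p566 := rs15 c566 rfl ⟨g565, trivial⟩
theorem g567 : Good XX 15 p567 := rs15 c567 rfl trivial
theorem g568 : Good XX 15 p568 := rs15 c568 rfl trivial
theorem g569 : Good XX 15 p569 := rs15 c569 rfl trivial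
theorem g570 : Good XX 15 p570 := rs15 c570 rfl trivial
theorem g571 : Good XX 15 p571 := rs15 c571 rfl trivial
theorem g572 : Good XX 15 p572 := rs15 c572 rfl trivial
theorem g573 : Good XX 15 p573 := rs15 c573 rfl trivial
theorem g574 : Good XX 15 p574 := rs15 c574 rfl trivial
theorem g575 : Good XX 15 p575 := rs15 c575 rfl trivial
theorem g576 : Good XX 15 p576 := rs15 c576 rfl trivial
theorem g577 : Good XX 15 p577 := rs15 c577 rfl trivial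
theorem g578 : Good XX 15 p578 := rs15 c578 rfl trivial
theorem g579 : Good XX 15 p579 := rs15 c579 rfl trivial
theorem g580 : Good XX 15 p580 := rs15 c580 rfl ⟨g562, ⟨g564, ⟨g566, ⟨g567, ⟨g568, ⟨g569, ⟨g570, ⟨g571, ⟨g572, ⟨g573, ⟨g574, ⟨g575, ⟨g576, ⟨g577, ⟨g578, ⟨g579, trivial⟩⟩⟩⟩⟩⟩⟩⟩⟩⟩⟩⟩⟩⟩⟩⟩
theorem g581 : Good XX 15 p581 := rs15 c581 rfl trivial
theorem g582 : Good XX 15 p582 := rs15 c582 rfl trivial
theorem g583 : Good XX 15 p583 := rs15 c583 rfl trivial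
theorem g584 : Good XX 15 p584 := rs15 c584 rfl trivial
theorem g585 : Good XX 15 p585 := rs15 c585 rfl trivial
theorem g586 : Good XX 15 p586 := rs15 c586 rfl trivial
theorem g587 : Good XX 15 p587 := rs15 c587 rfl trivial
theorem g588 : Good XX 15 p588 := rs15 c588 rfl trivial
theorem g589 : Good XX 15 p589 := rs15 c589 rfl ⟨g586, ⟨g587, ⟨g588, trivial⟩⟩⟩
theorem g590 : Good XX 15 p590 := rs15 c590 rfl trivial
theorem g591 : Good XX 15 p591 := rs15 c591 rfl trivial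
theorem g592 : Good XX 15 p592 := rs15 c592 rfl trivial
theorem g593 : Good XX 15 p593 := rs15 c593 rfl trivial
theorem g594 : Good XX 15 p594 := rs15 c594 rfl ⟨g581, ⟨g582, ⟨g583, ⟨g584, ⟨g585, ⟨g589, ⟨g590, ⟨g591, ⟨g592, ⟨g593, trivial⟩⟩⟩⟩⟩⟩⟩⟩⟩⟩
theorem g595 : Good XX 15 p595 := rs15 c595 rfl trivial
theorem g596 : Good XX 15 p596 := rs15 c596 rfl trivial
theorem g597 : Good XX 15 p597 := rs15 c597 rfl ⟨g595, ⟨g596, trivial⟩⟩
theorem g598 : Good XX 15 p598 := rs15 c598 rfl ⟨g533, ⟨g537, ⟨g541, ⟨g545, ⟨g561, ⟨g580, ⟨g594, ⟨g597, trivial⟩⟩⟩⟩⟩⟩⟩⟩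
theorem g599 : Good XX 15 p599 := rs15 c599 rfl trivial
theorem g600 : Good XX 15 p600 := rs15 c600 rfl ⟨g599, trivial⟩
theorem g601 : Good XX 15 p601 := rs15 c601 rfl trivial
theorem g602 : Good XX 15 p602 := rs15 c602 rfl ⟨g601, trivial⟩
theorem g603 : Good XX 15 p603 := rs15 c603 rfl trivial
theorem g604 : Good XX 15 p604 := rs15 c604 rfl trivial
theorem g605 : Good XX 15 p605 := rs15 c605 rfl trivial
theorem g606 : Good XX 15 p606 := rs15 c606 rfl trivial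
theorem g607 : Good XX 15 p607 := rs15 c607 rfl ⟨g606, trivial⟩
theorem g608 : Good XX 15 p608 := rs15 c608 rfl trivial
theorem g609 : Good XX 15 p609 := rs15 c609 rfl trivial
theorem g610 : Good XX 15 p610 := rs15 c610 rfl ⟨g609, trivial⟩
theorem g611 : Good XX 15 p611 := rs15 c611 rfl trivial
theorem g612 : Good XX 15 p612 := rs15 c612 rfl trivial
theorem g613 : Good XX 15 p613 := rs15 c613 rfl ⟨g611, ⟨g612, trivial⟩⟩
theorem g614 : Good XX 15 p614 := rs15 c614 rfl trivial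
theorem g615 : Good XX 15 p615 := rs15 c615 rfl ⟨g600, ⟨g602, ⟨g603, ⟨g604, ⟨g605, ⟨g607, ⟨g608, ⟨g610, ⟨g613, ⟨g614, trivial⟩⟩⟩⟩⟩⟩⟩⟩⟩⟩
theorem g616 : Good XX 15 p616 := rs15 c616 rfl trivial
theorem g617 : Good XX 15 p617 := rs15 c617 rfl trivial
theorem g618 : Good XX 15 p618 := rs15 c618 rfl ⟨g617, trivial⟩
theorem g619 : Good XX 15 p619 := rs15 c619 rfl trivial
theorem g620 : Good XX 15 p620 := rs15 c620 rfl trivial
theorem g621 : Good XX 15 p621 := rs15 c621 rfl trivial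
theorem g622 : Good XX 15 p622 := rs15 c622 rfl ⟨g621, trivial⟩
theorem g623 : Good XX 15 p623 := rs15 c623 rfl ⟨g619, ⟨g620, ⟨g622, trivial⟩⟩⟩
theorem g624 : Good XX 15 p624 := rs15 c624 rfl trivial
theorem g625 : Good XX 15 p625 := rs15 c625 rfl trivial
theorem g626 : Good XX 15 p626 := rs15 c626 rfl trivial
theorem g627 : Good XX 15 p627 := rs15 c627 rfl trivial
theorem g628 : Good XX 15 p628 := rs15 c628 rfl trivial
theorem g629 : Good XX 15 p629 := rs15 c629 rfl trivial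
theorem g630 : Good XX 15 p630 := rs15 c630 rfl trivial
theorem g631 : Good XX 15 p631 := rs15 c631 rfl trivial
theorem g632 : Good XX 15 p632 := rs15 c632 rfl trivial
theorem g633 : Good XX 15 p633 := rs15 c633 rfl trivial
theorem g634 : Good XX 15 p634 := rs15 c634 rfl ⟨g628, ⟨g629, ⟨g630, ⟨g631, ⟨g632, ⟨g633, trivial⟩⟩⟩⟩⟩⟩
theorem g635 : Good XX 15 p635 := rs15 c635 rfl trivial
theorem g636 : Good XX 15 p636 := rs15 c636 rfl ⟨g635, trivial⟩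
theorem g637 : Good XX 15 p637 := rs15 c637 rfl trivial
theorem g638 : Good XX 15 p638 := rs15 c638 rfl ⟨g637, trivial⟩
theorem g639 : Good XX 15 p639 := rs15 c639 rfl trivial
theorem g640 : Good XX 15 p640 := rs15 c640 rfl trivial
theorem g641 : Good XX 15 p641 := rs15 c641 rfl trivial
theorem g642 : Good XX 15 p642 := rs15 c642 rfl trivial
theorem g643 : Good XX 15 p643 := rs15 c643 rfl ⟨g642, trivial⟩
theorem g644 : Good XX 15 p644 := rs15 c644 rfl trivial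
theorem g645 : Good XX 15 p645 := rs15 c645 rfl ⟨g644, trivial⟩
theorem g646 : Good XX 15 p646 := rs15 c646 rfl trivial
theorem g647 : Good XX 15 p647 := rs15 c647 rfl ⟨g646, trivial⟩
theorem g648 : Good XX 15 p648 := rs15 c648 rfl ⟨g616, ⟨g618, ⟨g623, ⟨g624, ⟨g625, ⟨g626, ⟨g627, ⟨g634, ⟨g636, ⟨g638, ⟨g639, ⟨g640, ⟨g641, ⟨g643, ⟨g645, ⟨g647, trivial⟩⟩⟩⟩⟩⟩⟩⟩⟩⟩⟩⟩⟩⟩⟩⟩
theorem g649 : Good XX 15 p649 := rs15 c649 rfl trivial
theorem g650 : Good XX 15 p650 := rs15 c650 rfl trivial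
theorem g651 : Good XX 15 p651 := rs15 c651 rfl ⟨g649, ⟨g650, trivial⟩⟩
theorem g652 : Good XX 15 p652 := rs15 c652 rfl trivial
theorem g653 : Good XX 15 p653 := rs15 c653 rfl ⟨g652, trivial⟩
theorem g654 : Good XX 15 p654 := rs15 c654 rfl trivial
theorem g655 : Good XX 15 p655 := rs15 c655 rfl ⟨g654, trivial⟩
theorem g656 : Good XX 15 p656 := rs15 c656 rfl trivial
theorem g657 : Good XX 15 p657 := rs15 c657 rfl trivial
theorem g658 : Good XX 15 p658 := rs15 c658 rfl trivial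
theorem g659 : Good XX 15 p659 := rs15 c659 rfl trivial
theorem g660 : Good XX 15 p660 := rs15 c660 rfl ⟨g659, trivial⟩
theorem g661 : Good XX 15 p661 := rs15 c661 rfl ⟨g657, ⟨g658, ⟨g660, trivial⟩⟩⟩
theorem g662 : Good XX 15 p662 := rs15 c662 rfl trivial
theorem g663 : Good XX 15 p663 := rs15 c663 rfl trivial
theorem g664 : Good XX 15 p664 := rs15 c664 rfl trivial
theorem g665 : Good XX 15 p665 := rs15 c665 rfl ⟨g664, trivial⟩
theorem g666 : Good XX 15 p666 := rs15 c666 rfl ⟨g662, ⟨g663, ⟨g665, trivial⟩⟩⟩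
theorem g667 : Good XX 15 p667 := rs15 c667 rfl trivial
theorem g668 : Good XX 15 p668 := rs15 c668 rfl trivial
theorem g669 : Good XX 15 p669 := rs15 c669 rfl trivial
theorem g670 : Good XX 15 p670 := rs15 c670 rfl trivial
theorem g671 : Good XX 15 p671 := rs15 c671 rfl trivial
theorem g672 : Good XX 15 p672 := rs15 c672 rfl ⟨g671, trivial⟩
theorem g673 : Good XX 15 p673 := rs15 c673 rfl trivial
theorem g674 : Good XX 15 p674 := rs15 c674 rfl trivial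
theorem g675 : Good XX 15 p675 := rs15 c675 rfl ⟨g674, trivial⟩
theorem g676 : Good XX 15 p676 := rs15 c676 rfl trivial
theorem g677 : Good XX 15 p677 := rs15 c677 rfl trivial
theorem g678 : Good XX 15 p678 := rs15 c678 rfl trivial
theorem g679 : Good XX 15 p679 := rs15 c679 rfl trivial
theorem g680 : Good XX 15 p680 := rs15 c680 rfl trivial
theorem g681 : Good XX 15 p681 := rs15 c681 rfl trivial
theorem g682 : Good XX 15 p682 := rs15 c682 rfl ⟨g676, ⟨g677, ⟨g678, ⟨g679, ⟨g680, ⟨g681, trivial⟩⟩⟩⟩⟩⟩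
theorem g683 : Good XX 15 p683 := rs15 c683 rfl trivial
theorem g684 : Good XX 15 p684 := rs15 c684 rfl ⟨g683, trivial⟩
theorem g685 : Good XX 15 p685 := rs15 c685 rfl ⟨g667, ⟨g668, ⟨g669, ⟨g670, ⟨g672, ⟨g673, ⟨g675, ⟨g682, ⟨g684, trivial⟩⟩⟩⟩⟩⟩⟩⟩⟩
theorem g686 : Good XX 15 p686 := rs15 c686 rfl ⟨g653, ⟨g655, ⟨g656, ⟨g661, ⟨g666, ⟨g685, trivial⟩⟩⟩⟩⟩⟩
theorem g687 : Good XX 15 p687 := rs15 c687 rfl trivial
theorem g688 : Good XX 15 p688 := rs15 c688 rfl trivial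
theorem g689 : Good XX 15 p689 := rs15 c689 rfl ⟨g688, trivial⟩
theorem g690 : Good XX 15 p690 := rs15 c690 rfl trivial
theorem g691 : Good XX 15 p691 := rs15 c691 rfl trivial
theorem g692 : Good XX 15 p692 := rs15 c692 rfl trivial
theorem g693 : Good XX 15 p693 := rs15 c693 rfl trivial
theorem g694 : Good XX 15 p694 := rs15 c694 rfl trivial
theorem g695 : Good XX 15 p695 := rs15 c695 rfl ⟨g692, ⟨g693, ⟨g694, trivial⟩⟩⟩
theorem g696 : Good XX 15 p696 := rs15 c696 rfl trivial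
theorem g697 : Good XX 15 p697 := rs15 c697 rfl trivial
theorem g698 : Good XX 15 p698 := rs15 c698 rfl ⟨g690, ⟨g691, ⟨g695, ⟨g696, ⟨g697, trivial⟩⟩⟩⟩⟩
theorem g699 : Good XX 15 p699 := rs15 c699 rfl trivial
theorem g700 : Good XX 15 p700 := rs15 c700 rfl trivial
theorem g701 : Good XX 15 p701 := rs15 c701 rfl trivial
theorem g702 : Good XX 15 p702 := rs15 c702 rfl trivial
theorem g703 : Good XX 15 p703 := rs15 c703 rfl trivial
theorem g704 : Good XX 15 p704 := rs15 c704 rfl ⟨g703, trivial⟩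
theorem g705 : Good XX 15 p705 := rs15 c705 rfl trivial
theorem g706 : Good XX 15 p706 := rs15 c706 rfl trivial
theorem g707 : Good XX 15 p707 := rs15 c707 rfl trivial
theorem g708 : Good XX 15 p708 := rs15 c708 rfl trivial
theorem g709 : Good XX 15 p709 := rs15 c709 rfl trivial
theorem g710 : Good XX 15 p710 := rs15 c710 rfl trivial
theorem g711 : Good XX 15 p711 := rs15 c711 rfl trivial
theorem g712 : Good XX 15 p712 := rs15 c712 rfl trivial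
theorem g713 : Good XX 15 p713 := rs15 c713 rfl trivial
theorem g714 : Good XX 15 p714 := rs15 c714 rfl trivial
theorem g715 : Good XX 15 p715 := rs15 c715 rfl ⟨g709, ⟨g710, ⟨g711, ⟨g712, ⟨g713, ⟨g714, trivial⟩⟩⟩⟩⟩⟩
theorem g716 : Good XX 15 p716 := rs15 c716 rfl trivial
theorem g717 : Good XX 15 p717 := rs15 c717 rfl ⟨g716, trivial⟩
theorem g718 : Good XX 15 p718 := rs15 c718 rfl trivial
theorem g719 : Good XX 15 p719 := rs15 c719 rfl ⟨g718, trivial⟩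
theorem g720 : Good XX 15 p720 := rs15 c720 rfl trivial
theorem g721 : Good XX 15 p721 := rs15 c721 rfl trivial
theorem g722 : Good XX 15 p722 := rs15 c722 rfl trivial
theorem g723 : Good XX 15 p723 := rs15 c723 rfl trivial
theorem g724 : Good XX 15 p724 := rs15 c724 rfl ⟨g722, ⟨g723, trivial⟩⟩
theorem g725 : Good XX 15 p725 := rs15 c725 rfl trivial
theorem g726 : Good XX 15 p726 := rs15 c726 rfl trivial
theorem g727 : Good XX 15 p727 := rs15 c727 rfl trivial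
theorem g728 : Good XX 15 p728 := rs15 c728 rfl trivial
theorem g729 : Good XX 15 p729 := rs15 c729 rfl trivial
theorem g730 : Good XX 15 p730 := rs15 c730 rfl trivial
theorem g731 : Good XX 15 p731 := rs15 c731 rfl trivial
theorem g732 : Good XX 15 p732 := rs15 c732 rfl trivial
theorem g733 : Good XX 15 p733 := rs15 c733 rfl trivial
theorem g734 : Good XX 15 p734 := rs15 c734 rfl trivial
theorem g735 : Good XX 15 p735 := rs15 c735 rfl ⟨g728, ⟨g729, ⟨g730, ⟨g731, ⟨g732, ⟨g733, ⟨g734, trivial⟩⟩⟩⟩⟩⟩⟩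
theorem g736 : Good XX 15 p736 := rs15 c736 rfl trivial
theorem g737 : Good XX 15 p737 := rs15 c737 rfl trivial
theorem g738 : Good XX 15 p738 := rs15 c738 rfl ⟨g736, ⟨g737, trivial⟩⟩
theorem g739 : Good XX 15 p739 := rs15 c739 rfl trivial
theorem g740 : Good XX 15 p740 := rs15 c740 rfl ⟨g739, trivial⟩
theorem g741 : Good XX 15 p741 := rs15 c741 rfl trivial
theorem g742 : Good XX 15 p742 := rs15 c742 rfl trivial
theorem g743 : Good XX 15 p743 := rs15 c743 rfl trivial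
theorem g744 : Good XX 15 p744 := rs15 c744 rfl trivial
theorem g745 : Good XX 15 p745 := rs15 c745 rfl trivial
theorem g746 : Good XX 15 p746 := rs15 c746 rfl trivial
theorem g747 : Good XX 15 p747 := rs15 c747 rfl trivial
theorem g748 : Good XX 15 p748 := rs15 c748 rfl trivial
theorem g749 : Good XX 15 p749 := rs15 c749 rfl trivial
theorem g750 : Good XX 15 p750 := rs15 c750 rfl trivial
theorem g751 : Good XX 15 p751 := rs15 c751 rfl trivial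
theorem g752 : Good XX 15 p752 := rs15 c752 rfl trivial
theorem g753 : Good XX 15 p753 := rs15 c753 rfl trivial
theorem g754 : Good XX 15 p754 := rs15 c754 rfl trivial
theorem g755 : Good XX 15 p755 := rs15 c755 rfl trivial
theorem g756 : Good XX 15 p756 := rs15 c756 rfl ⟨g752, ⟨g753, ⟨g754, ⟨g755, trivial⟩⟩⟩⟩
theorem g757 : Good XX 15 p757 := rs15 c757 rfl ⟨g741, ⟨g742, ⟨g743, ⟨g744, ⟨g745, ⟨g746, ⟨g747, ⟨g748, ⟨g749, ⟨g750, ⟨g751, ⟨g756, trivial⟩⟩⟩⟩⟩⟩⟩⟩⟩⟩⟩⟩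
theorem g758 : Good XX 15 p758 := rs15 c758 rfl trivial
theorem g759 : Good XX 15 p759 := rs15 c759 rfl ⟨g758, trivial⟩
theorem g760 : Good XX 15 p760 := rs15 c760 rfl ⟨g687, ⟨g689, ⟨g698, ⟨g699, ⟨g700, ⟨g701, ⟨g702, ⟨g704, ⟨g705, ⟨g706, ⟨g707, ⟨g708, ⟨g715, ⟨g717, ⟨g719, ⟨g720, ⟨g721, ⟨g724, ⟨g725, ⟨g726, ⟨g727, ⟨g735, ⟨g738, ⟨g740, ⟨g757, ⟨g759, trivial⟩⟩⟩⟩⟩⟩⟩⟩⟩⟩⟩⟩⟩⟩⟩⟩⟩⟩⟩⟩⟩⟩⟩⟩⟩⟩
theorem g761 : Good XX 15 p761 := rs15 c761 rfl trivial
theorem g762 : Good XX 15 p762 := rs15 c762 rfl ⟨g761, trivial⟩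
theorem g763 : Good XX 15 p763 := rs15 c763 rfl trivial
theorem g764 : Good XX 15 p764 := rs15 c764 rfl ⟨g763, trivial⟩
theorem g765 : Good XX 15 p765 := rs15 c765 rfl trivial
theorem g766 : Good XX 15 p766 := rs15 c766 rfl ⟨g765, trivial⟩
theorem g767 : Good XX 15 p767 := rs15 c767 rfl trivial
theorem g768 : Good XX 15 p768 := rs15 c768 rfl trivial
theorem g769 : Good XX 15 p769 := rs15 c769 rfl ⟨g768, trivial⟩
theorem g770 : Good XX 15 p770 := rs15 c770 rfl trivial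
theorem g771 : Good XX 15 p771 := rs15 c771 rfl trivial
theorem g772 : Good XX 15 p772 := rs15 c772 rfl ⟨g770, ⟨g771, trivial⟩⟩
theorem g773 : Good XX 15 p773 := rs15 c773 rfl ⟨g767, ⟨g769, ⟨g772, trivial⟩⟩⟩
theorem g774 : Good XX 15 p774 := rs15 c774 rfl trivial
theorem g775 : Good XX 15 p775 := rs15 c775 rfl trivial
theorem g776 : Good XX 15 p776 := rs15 c776 rfl trivial
theorem g777 : Good XX 15 p777 := rs15 c777 rfl ⟨g776, trivial⟩
theorem g778 : Good XX 15 p778 := rs15 c778 rfl trivial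
theorem g779 : Good XX 15 p779 := rs15 c779 rfl trivial
theorem g780 : Good XX 15 p780 := rs15 c780 rfl trivial
theorem g781 : Good XX 15 p781 := rs15 c781 rfl ⟨g780, trivial⟩
theorem g782 : Good XX 15 p782 := rs15 c782 rfl trivial
theorem g783 : Good XX 15 p783 := rs15 c783 rfl ⟨g782, trivial⟩
theorem g784 : Good XX 15 p784 := rs15 c784 rfl trivial
theorem g785 : Good XX 15 p785 := rs15 c785 rfl trivial
theorem g786 : Good XX 15 p786 := rs15 c786 rfl trivial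
theorem g787 : Good XX 15 p787 := rs15 c787 rfl trivial
theorem g788 : Good XX 15 p788 := rs15 c788 rfl trivial
theorem g789 : Good XX 15 p789 := rs15 c789 rfl trivial
theorem g790 : Good XX 15 p790 := rs15 c790 rfl trivial
theorem g791 : Good XX 15 p791 := rs15 c791 rfl trivial
theorem g792 : Good XX 15 p792 := rs15 c792 rfl ⟨g784, ⟨g785, ⟨g786, ⟨g787, ⟨g788, ⟨g789, ⟨g790, ⟨g791, trivial⟩⟩⟩⟩⟩⟩⟩⟩
theorem g793 : Good XX 15 p793 := rs15 c793 rfl trivial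
theorem g794 : Good XX 15 p794 := rs15 c794 rfl ⟨g793, trivial⟩
theorem g795 : Good XX 15 p795 := rs15 c795 rfl ⟨g774, ⟨g775, ⟨g777, ⟨g778, ⟨g779, ⟨g781, ⟨g783, ⟨g792, ⟨g794, trivial⟩⟩⟩⟩⟩⟩⟩⟩⟩
theorem g796 : Good XX 15 p796 := rs15 c796 rfl trivial
theorem g797 : Good XX 15 p797 := rs15 c797 rfl ⟨g796, trivial⟩
theorem g798 : Good XX 15 p798 := rs15 c798 rfl trivial
theorem g799 : Good XX 15 p799 := rs15 c799 rfl trivial
theorem g800 : Good XX 15 p800 := rs15 c800 rfl trivial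
theorem g801 : Good XX 15 p801 := rs15 c801 rfl trivial
theorem g802 : Good XX 15 p802 := rs15 c802 rfl trivial
theorem g803 : Good XX 15 p803 := rs15 c803 rfl trivial
theorem g804 : Good XX 15 p804 := rs15 c804 rfl ⟨g799, ⟨g800, ⟨g801, ⟨g802, ⟨g803, trivial⟩⟩⟩⟩⟩
theorem g805 : Good XX 15 p805 := rs15 c805 rfl trivial
theorem g806 : Good XX 15 p806 := rs15 c806 rfl trivial
theorem g807 : Good XX 15 p807 := rs15 c807 rfl trivial
theorem g808 : Good XX 15 p808 := rs15 c808 rfl ⟨g807, trivial⟩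
theorem g809 : Good XX 15 p809 := rs15 c809 rfl trivial
theorem g810 : Good XX 15 p810 := rs15 c810 rfl trivial
theorem g811 : Good XX 15 p811 := rs15 c811 rfl ⟨g806, ⟨g808, ⟨g809, ⟨g810, trivial⟩⟩⟩⟩
theorem g812 : Good XX 15 p812 := rs15 c812 rfl trivial
theorem g813 : Good XX 15 p813 := rs15 c813 rfl trivial
theorem g814 : Good XX 15 p814 := rs15 c814 rfl ⟨g813, trivial⟩
theorem g815 : Good XX 15 p815 := rs15 c815 rfl trivial
theorem g816 : Good XX 15 p816 := rs15 c816 rfl trivial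
theorem g817 : Good XX 15 p817 := rs15 c817 rfl ⟨g815, ⟨g816, trivial⟩⟩
theorem g818 : Good XX 15 p818 := rs15 c818 rfl ⟨g812, ⟨g814, ⟨g817, trivial⟩⟩⟩
theorem g819 : Good XX 15 p819 := rs15 c819 rfl trivial
theorem g820 : Good XX 15 p820 := rs15 c820 rfl trivial
theorem g821 : Good XX 15 p821 := rs15 c821 rfl trivial
theorem g822 : Good XX 15 p822 := rs15 c822 rfl trivial
theorem g823 : Good XX 15 p823 := rs15 c823 rfl trivial
theorem g824 : Good XX 15 p824 := rs15 c824 rfl trivial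
theorem g825 : Good XX 15 p825 := rs15 c825 rfl trivial
theorem g826 : Good XX 15 p826 := rs15 c826 rfl trivial
theorem g827 : Good XX 15 p827 := rs15 c827 rfl trivial
theorem g828 : Good XX 15 p828 := rs15 c828 rfl ⟨g822, ⟨g823, ⟨g824, ⟨g825, ⟨g826, ⟨g827, trivial⟩⟩⟩⟩⟩⟩
theorem g829 : Good XX 15 p829 := rs15 c829 rfl trivial
theorem g830 : Good XX 15 p830 := rs15 c830 rfl ⟨g829, trivial⟩
theorem g831 : Good XX 15 p831 := rs15 c831 rfl trivial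
theorem g832 : Good XX 15 p832 := rs15 c832 rfl trivial
theorem g833 : Good XX 15 p833 := rs15 c833 rfl trivial
theorem g834 : Good XX 15 p834 := rs15 c834 rfl trivial
theorem g835 : Good XX 15 p835 := rs15 c835 rfl trivial
theorem g836 : Good XX 15 p836 := rs15 c836 rfl ⟨g831, ⟨g832, ⟨g833, ⟨g834, ⟨g835, trivial⟩⟩⟩⟩⟩
theorem g837 : Good XX 15 p837 := rs15 c837 rfl trivial
theorem g838 : Good XX 15 p838 := rs15 c838 rfl trivial
theorem g839 : Good XX 15 p839 := rs15 c839 rfl ⟨g838, trivial⟩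
theorem g840 : Good XX 15 p840 := rs15 c840 rfl trivial
theorem g841 : Good XX 15 p841 := rs15 c841 rfl trivial
theorem g842 : Good XX 15 p842 := rs15 c842 rfl trivial
theorem g843 : Good XX 15 p843 := rs15 c843 rfl trivial
theorem g844 : Good XX 15 p844 := rs15 c844 rfl trivial
theorem g845 : Good XX 15 p845 := rs15 c845 rfl trivial
theorem g846 : Good XX 15 p846 := rs15 c846 rfl trivial
theorem g847 : Good XX 15 p847 := rs15 c847 rfl trivial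
theorem g848 : Good XX 15 p848 := rs15 c848 rfl ⟨g840, ⟨g841, ⟨g842, ⟨g843, ⟨g844, ⟨g845, ⟨g846, ⟨g847, trivial⟩⟩⟩⟩⟩⟩⟩⟩
theorem g849 : Good XX 15 p849 := rs15 c849 rfl trivial
theorem g850 : Good XX 15 p850 := rs15 c850 rfl ⟨g849, trivial⟩
theorem g851 : Good XX 15 p851 := rs15 c851 rfl trivial
theorem g852 : Good XX 15 p852 := rs15 c852 rfl trivial
theorem g853 : Good XX 15 p853 := rs15 c853 rfl trivial
theorem g854 : Good XX 15 p854 := rs15 c854 rfl trivial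
theorem g855 : Good XX 15 p855 := rs15 c855 rfl trivial
theorem g856 : Good XX 15 p856 := rs15 c856 rfl trivial
theorem g857 : Good XX 15 p857 := rs15 c857 rfl trivial
theorem g858 : Good XX 15 p858 := rs15 c858 rfl ⟨g851, ⟨g852, ⟨g853, ⟨g854, ⟨g855, ⟨g856, ⟨g857, trivial⟩⟩⟩⟩⟩⟩⟩
theorem g859 : Good XX 15 p859 := rs15 c859 rfl trivial
theorem g860 : Good XX 15 p860 := rs15 c860 rfl trivial
theorem g861 : Good XX 15 p861 := rs15 c861 rfl trivial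
theorem g862 : Good XX 15 p862 := rs15 c862 rfl trivial
theorem g863 : Good XX 15 p863 := rs15 c863 rfl trivial
theorem g864 : Good XX 15 p864 := rs15 c864 rfl trivial
theorem g865 : Good XX 15 p865 := rs15 c865 rfl trivial
theorem g866 : Good XX 15 p866 := rs15 c866 rfl trivial
theorem g867 : Good XX 15 p867 := rs15 c867 rfl ⟨g859, ⟨g860, ⟨g861, ⟨g862, ⟨g863, ⟨g864, ⟨g865, ⟨g866, trivial⟩⟩⟩⟩⟩⟩⟩⟩
theorem g868 : Good XX 15 p868 := rs15 c868 rfl trivial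
theorem g869 : Good XX 15 p869 := rs15 c869 rfl trivial
theorem g870 : Good XX 15 p870 := rs15 c870 rfl trivial
theorem g871 : Good XX 15 p871 := rs15 c871 rfl trivial
theorem g872 : Good XX 15 p872 := rs15 c872 rfl trivial
theorem g873 : Good XX 15 p873 := rs15 c873 rfl ⟨g868, ⟨g869, ⟨g870, ⟨g871, ⟨g872, trivial⟩⟩⟩⟩⟩
theorem g874 : Good XX 15 p874 := rs15 c874 rfl ⟨g819, ⟨g820, ⟨g821, ⟨g828, ⟨g830, ⟨g836, ⟨g837, ⟨g839, ⟨g848, ⟨g850, ⟨g858, ⟨g867, ⟨g873, trivial⟩⟩⟩⟩⟩⟩⟩⟩⟩⟩⟩⟩⟩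
theorem g875 : Good XX 15 p875 := rs15 c875 rfl trivial
theorem g876 : Good XX 15 p876 := rs15 c876 rfl trivial
theorem g877 : Good XX 15 p877 := rs15 c877 rfl trivial
theorem g878 : Good XX 15 p878 := rs15 c878 rfl ⟨g877, trivial⟩
theorem g879 : Good XX 15 p879 := rs15 c879 rfl trivial
theorem g880 : Good XX 15 p880 := rs15 c880 rfl ⟨g879, trivial⟩
theorem g881 : Good XX 15 p881 := rs15 c881 rfl trivial
theorem g882 : Good XX 15 p882 := rs15 c882 rfl trivial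
theorem g883 : Good XX 15 p883 := rs15 c883 rfl trivial
theorem g884 : Good XX 15 p884 := rs15 c884 rfl trivial
theorem g885 : Good XX 15 p885 := rs15 c885 rfl trivial
theorem g886 : Good XX 15 p886 := rs15 c886 rfl trivial
theorem g887 : Good XX 15 p887 := rs15 c887 rfl trivial
theorem g888 : Good XX 15 p888 := rs15 c888 rfl trivial
theorem g889 : Good XX 15 p889 := rs15 c889 rfl ⟨g881, ⟨g882, ⟨g883, ⟨g884, ⟨g885, ⟨g886, ⟨g887, ⟨g888, trivial⟩⟩⟩⟩⟩⟩⟩⟩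
theorem g890 : Good XX 15 p890 := rs15 c890 rfl trivial
theorem g891 : Good XX 15 p891 := rs15 c891 rfl ⟨g890, trivial⟩
theorem g892 : Good XX 15 p892 := rs15 c892 rfl trivial
theorem g893 : Good XX 15 p893 := rs15 c893 rfl ⟨g892, trivial⟩
theorem g894 : Good XX 15 p894 := rs15 c894 rfl trivial
theorem g895 : Good XX 15 p895 := rs15 c895 rfl ⟨g894, trivial⟩
theorem g896 : Good XX 15 p896 := rs15 c896 rfl trivial
theorem g897 : Good XX 15 p897 := rs15 c897 rfl trivial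
theorem g898 : Good XX 15 p898 := rs15 c898 rfl ⟨g897, trivial⟩
theorem g899 : Good XX 15 p899 := rs15 c899 rfl trivial
theorem g900 : Good XX 15 p900 := rs15 c900 rfl ⟨g899, trivial⟩
theorem g901 : Good XX 15 p901 := rs15 c901 rfl trivial
theorem g902 : Good XX 15 p902 := rs15 c902 rfl trivial
theorem g903 : Good XX 15 p903 := rs15 c903 rfl trivial
theorem g904 : Good XX 15 p904 := rs15 c904 rfl trivial
theorem g905 : Good XX 15 p905 := rs15 c905 rfl ⟨g904, trivial⟩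
theorem g906 : Good XX 15 p906 := rs15 c906 rfl trivial
theorem g907 : Good XX 15 p907 := rs15 c907 rfl trivial
theorem g908 : Good XX 15 p908 := rs15 c908 rfl trivial
theorem g909 : Good XX 15 p909 := rs15 c909 rfl trivial
theorem g910 : Good XX 15 p910 := rs15 c910 rfl trivial
theorem g911 : Good XX 15 p911 := rs15 c911 rfl trivial
theorem g912 : Good XX 15 p912 := rs15 c912 rfl trivial
theorem g913 : Good XX 15 p913 := rs15 c913 rfl trivial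
theorem g914 : Good XX 15 p914 := rs15 c914 rfl ⟨g906, ⟨g907, ⟨g908, ⟨g909, ⟨g910, ⟨g911, ⟨g912, ⟨g913, trivial⟩⟩⟩⟩⟩⟩⟩⟩
theorem g915 : Good XX 15 p915 := rs15 c915 rfl trivial
theorem g916 : Good XX 15 p916 := rs15 c916 rfl trivial
theorem g917 : Good XX 15 p917 := rs15 c917 rfl trivial
theorem g918 : Good XX 15 p918 := rs15 c918 rfl trivial
theorem g919 : Good XX 15 p919 := rs15 c919 rfl trivial
theorem g920 : Good XX 15 p920 := rs15 c920 rfl ⟨g915, ⟨g916, ⟨g917, ⟨g918, ⟨g919, trivial⟩⟩⟩⟩⟩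
theorem g921 : Good XX 15 p921 := rs15 c921 rfl trivial
theorem g922 : Good XX 15 p922 := rs15 c922 rfl ⟨g921, trivial⟩
theorem g923 : Good XX 15 p923 := rs15 c923 rfl trivial
theorem g924 : Good XX 15 p924 := rs15 c924 rfl ⟨g923, trivial⟩
theorem g925 : Good XX 15 p925 := rs15 c925 rfl trivial
theorem g926 : Good XX 15 p926 := rs15 c926 rfl trivial
theorem g927 : Good XX 15 p927 := rs15 c927 rfl trivial
theorem g928 : Good XX 15 p928 := rs15 c928 rfl trivial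
theorem g929 : Good XX 15 p929 := rs15 c929 rfl trivial
theorem g930 : Good XX 15 p930 := rs15 c930 rfl ⟨g925, ⟨g926, ⟨g927, ⟨g928, ⟨g929, trivial⟩⟩⟩⟩⟩
theorem g931 : Good XX 15 p931 := rs15 c931 rfl ⟨g797, ⟨g798, ⟨g804, ⟨g805, ⟨g811, ⟨g818, ⟨g874, ⟨g875, ⟨g876, ⟨g878, ⟨g880, ⟨g889, ⟨g891, ⟨g893, ⟨g895, ⟨g896, ⟨g898, ⟨g900, ⟨g901, ⟨g902, ⟨g903, ⟨g905, ⟨g914, ⟨g920, ⟨g922, ⟨g924, ⟨g930, trivial⟩⟩⟩⟩⟩⟩⟩⟩⟩⟩⟩⟩⟩⟩⟩⟩⟩⟩⟩⟩⟩⟩⟩⟩⟩⟩⟩
theorem g932 : Good XX 15 p932 := rs15 c932 rfl trivial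
theorem g933 : Good XX 15 p933 := rs15 c933 rfl ⟨g932, trivial⟩
theorem g934 : Good XX 15 p934 := rs15 c934 rfl trivial
theorem g935 : Good XX 15 p935 := rs15 c935 rfl ⟨g934, trivial⟩
theorem g936 : Good XX 15 p936 := rs15 c936 rfl trivial
theorem g937 : Good XX 15 p937 := rs15 c937 rfl ⟨g936, trivial⟩
theorem g938 : Good XX 15 p938 := rs15 c938 rfl trivial
theorem g939 : Good XX 15 p939 := rs15 c939 rfl trivial
theorem g940 : Good XX 15 p940 := rs15 c940 rfl trivial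
theorem g941 : Good XX 15 p941 := rs15 c941 rfl trivial
theorem g942 : Good XX 15 p942 := rs15 c942 rfl trivial
theorem g943 : Good XX 15 p943 := rs15 c943 rfl ⟨g942, trivial⟩
theorem g944 : Good XX 15 p944 := rs15 c944 rfl trivial
theorem g945 : Good XX 15 p945 := rs15 c945 rfl trivial
theorem g946 : Good XX 15 p946 := rs15 c946 rfl ⟨g944, ⟨g945, trivial⟩⟩
theorem g947 : Good XX 15 p947 := rs15 c947 rfl ⟨g937, ⟨g938, ⟨g939, ⟨g940, ⟨g941, ⟨g943, ⟨g946, trivial⟩⟩⟩⟩⟩⟩⟩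
theorem g948 : Good XX 15 p948 := rs15 c948 rfl trivial
theorem g949 : Good XX 15 p949 := rs15 c949 rfl trivial
theorem g950 : Good XX 15 p950 := rs15 c950 rfl trivial
theorem g951 : Good XX 15 p951 := rs15 c951 rfl trivial
theorem g952 : Good XX 15 p952 := rs15 c952 rfl trivial
theorem g953 : Good XX 15 p953 := rs15 c953 rfl ⟨g951, ⟨g952, trivial⟩⟩
theorem g954 : Good XX 15 p954 := rs15 c954 rfl ⟨g949, ⟨g950, ⟨g953, trivial⟩⟩⟩
theorem g955 : Good XX 15 p955 := rs15 c955 rfl trivial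
theorem g956 : Good XX 15 p956 := rs15 c956 rfl trivial
theorem g957 : Good XX 15 p957 := rs15 c957 rfl ⟨g956, trivial⟩
theorem g958 : Good XX 15 p958 := rs15 c958 rfl trivial
theorem g959 : Good XX 15 p959 := rs15 c959 rfl trivial
theorem g960 : Good XX 15 p960 := rs15 c960 rfl ⟨g958, ⟨g959, trivial⟩⟩
theorem g961 : Good XX 15 p961 := rs15 c961 rfl trivial
theorem g962 : Good XX 15 p962 := rs15 c962 rfl trivial
theorem g963 : Good XX 15 p963 := rs15 c963 rfl trivial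
theorem g964 : Good XX 15 p964 := rs15 c964 rfl trivial
theorem g965 : Good XX 15 p965 := rs15 c965 rfl trivial
theorem g966 : Good XX 15 p966 := rs15 c966 rfl trivial
theorem g967 : Good XX 15 p967 := rs15 c967 rfl trivial
theorem g968 : Good XX 15 p968 := rs15 c968 rfl trivial
theorem g969 : Good XX 15 p969 := rs15 c969 rfl ⟨g963, ⟨g964, ⟨g965, ⟨g966, ⟨g967, ⟨g968, trivial⟩⟩⟩⟩⟩⟩
theorem g970 : Good XX 15 p970 := rs15 c970 rfl trivial
theorem g971 : Good XX 15 p971 := rs15 c971 rfl trivial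
theorem g972 : Good XX 15 p972 := rs15 c972 rfl trivial
theorem g973 : Good XX 15 p973 := rs15 c973 rfl ⟨g970, ⟨g971, ⟨g972, trivial⟩⟩⟩
theorem g974 : Good XX 15 p974 := rs15 c974 rfl trivial
theorem g975 : Good XX 15 p975 := rs15 c975 rfl trivial
theorem g976 : Good XX 15 p976 := rs15 c976 rfl trivial
theorem g977 : Good XX 15 p977 := rs15 c977 rfl ⟨g976, trivial⟩
theorem g978 : Good XX 15 p978 := rs15 c978 rfl trivial
theorem g979 : Good XX 15 p979 := rs15 c979 rfl trivial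
theorem g980 : Good XX 15 p980 := rs15 c980 rfl trivial
theorem g981 : Good XX 15 p981 := rs15 c981 rfl trivial
theorem g982 : Good XX 15 p982 := rs15 c982 rfl trivial
theorem g983 : Good XX 15 p983 := rs15 c983 rfl trivial
theorem g984 : Good XX 15 p984 := rs15 c984 rfl trivial
theorem g985 : Good XX 15 p985 := rs15 c985 rfl trivial
theorem g986 : Good XX 15 p986 := rs15 c986 rfl trivial
theorem g987 : Good XX 15 p987 := rs15 c987 rfl ⟨g978, ⟨g979, ⟨g980, ⟨g981, ⟨g982, ⟨g983, ⟨g984, ⟨g985, ⟨g986, trivial⟩⟩⟩⟩⟩⟩⟩⟩⟩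
theorem g988 : Good XX 15 p988 := rs15 c988 rfl trivial
theorem g989 : Good XX 15 p989 := rs15 c989 rfl trivial
theorem g990 : Good XX 15 p990 := rs15 c990 rfl trivial
theorem g991 : Good XX 15 p991 := rs15 c991 rfl trivial
theorem g992 : Good XX 15 p992 := rs15 c992 rfl trivial
theorem g993 : Good XX 15 p993 := rs15 c993 rfl trivial
theorem g994 : Good XX 15 p994 := rs15 c994 rfl trivial
theorem g995 : Good XX 15 p995 := rs15 c995 rfl ⟨g989, ⟨g990, ⟨g991, ⟨g992, ⟨g993, ⟨g994, trivial⟩⟩⟩⟩⟩⟩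
theorem g996 : Good XX 15 p996 := rs15 c996 rfl trivial
theorem g997 : Good XX 15 p997 := rs15 c997 rfl trivial
theorem g998 : Good XX 15 p998 := rs15 c998 rfl trivial
theorem g999 : Good XX 15 p999 := rs15 c999 rfl trivial
theorem g1000 : Good XX 15 p1000 := rs15 c1000 rfl trivial
theorem g1001 : Good XX 15 p1001 := rs15 c1001 rfl trivial
theorem g1002 : Good XX 15 p1002 := rs15 c1002 rfl trivial
theorem g1003 : Good XX 15 p1003 := rs15 c1003 rfl ⟨g996, ⟨g997, ⟨g998, ⟨g999, ⟨g1000, ⟨g1001, ⟨g1002, trivial⟩⟩⟩⟩⟩⟩⟩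
theorem g1004 : Good XX 15 p1004 := rs15 c1004 rfl trivial
theorem g1005 : Good XX 15 p1005 := rs15 c1005 rfl trivial
theorem g1006 : Good XX 15 p1006 := rs15 c1006 rfl trivial
theorem g1007 : Good XX 15 p1007 := rs15 c1007 rfl trivial
theorem g1008 : Good XX 15 p1008 := rs15 c1008 rfl trivial
theorem g1009 : Good XX 15 p1009 := rs15 c1009 rfl ⟨g1004, ⟨g1005, ⟨g1006, ⟨g1007, ⟨g1008, trivial⟩⟩⟩⟩⟩
theorem g1010 : Good XX 15 p1010 := rs15 c1010 rfl ⟨g961, ⟨g962, ⟨g969, ⟨g973, ⟨g974, ⟨g975, ⟨g977, ⟨g987, ⟨g988, ⟨g995, ⟨g1003, ⟨g1009, trivial⟩⟩⟩⟩⟩⟩⟩⟩⟩⟩⟩⟩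
theorem g1011 : Good XX 15 p1011 := rs15 c1011 rfl trivial
theorem g1012 : Good XX 15 p1012 := rs15 c1012 rfl trivial
theorem g1013 : Good XX 15 p1013 := rs15 c1013 rfl trivial
theorem g1014 : Good XX 15 p1014 := rs15 c1014 rfl trivial
theorem g1015 : Good XX 15 p1015 := rs15 c1015 rfl trivial
theorem g1016 : Good XX 15 p1016 := rs15 c1016 rfl ⟨g1011, ⟨g1012, ⟨g1013, ⟨g1014, ⟨g1015, trivial⟩⟩⟩⟩⟩
theorem g1017 : Good XX 15 p1017 := rs15 c1017 rfl trivial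
theorem g1018 : Good XX 15 p1018 := rs15 c1018 rfl trivial
theorem g1019 : Good XX 15 p1019 := rs15 c1019 rfl trivial
theorem g1020 : Good XX 15 p1020 := rs15 c1020 rfl trivial
theorem g1021 : Good XX 15 p1021 := rs15 c1021 rfl ⟨g1019, ⟨g1020, trivial⟩⟩
theorem g1022 : Good XX 15 p1022 := rs15 c1022 rfl trivial
theorem g1023 : Good XX 15 p1023 := rs15 c1023 rfl trivial
theorem g1024 : Good XX 15 p1024 := rs15 c1024 rfl trivial
theorem g1025 : Good XX 15 p1025 := rs15 c1025 rfl trivial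
theorem g1026 : Good XX 15 p1026 := rs15 c1026 rfl trivial
theorem g1027 : Good XX 15 p1027 := rs15 c1027 rfl trivial
theorem g1028 : Good XX 15 p1028 := rs15 c1028 rfl trivial
theorem g1029 : Good XX 15 p1029 := rs15 c1029 rfl trivial
theorem g1030 : Good XX 15 p1030 := rs15 c1030 rfl trivial
theorem g1031 : Good XX 15 p1031 := rs15 c1031 rfl ⟨g1024, ⟨g1025, ⟨g1026, ⟨g1027, ⟨g1028, ⟨g1029, ⟨g1030, trivial⟩⟩⟩⟩⟩⟩⟩
theorem g1032 : Good XX 15 p1032 := rs15 c1032 rfl trivial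
theorem g1033 : Good XX 15 p1033 := rs15 c1033 rfl trivial
theorem g1034 : Good XX 15 p1034 := rs15 c1034 rfl ⟨g1033, trivial⟩
theorem g1035 : Good XX 15 p1035 := rs15 c1035 rfl trivial
theorem g1036 : Good XX 15 p1036 := rs15 c1036 rfl trivial
theorem g1037 : Good XX 15 p1037 := rs15 c1037 rfl trivial
theorem g1038 : Good XX 15 p1038 := rs15 c1038 rfl trivial
theorem g1039 : Good XX 15 p1039 := rs15 c1039 rfl trivial
theorem g1040 : Good XX 15 p1040 := rs15 c1040 rfl trivial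
theorem g1041 : Good XX 15 p1041 := rs15 c1041 rfl trivial
theorem g1042 : Good XX 15 p1042 := rs15 c1042 rfl ⟨g1035, ⟨g1036, ⟨g1037, ⟨g1038, ⟨g1039, ⟨g1040, ⟨g1041, trivial⟩⟩⟩⟩⟩⟩⟩
theorem g1043 : Good XX 15 p1043 := rs15 c1043 rfl trivial
theorem g1044 : Good XX 15 p1044 := rs15 c1044 rfl trivial
theorem g1045 : Good XX 15 p1045 := rs15 c1045 rfl trivial
theorem g1046 : Good XX 15 p1046 := rs15 c1046 rfl trivial
theorem g1047 : Good XX 15 p1047 := rs15 c1047 rfl trivial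
theorem g1048 : Good XX 15 p1048 := rs15 c1048 rfl trivial
theorem g1049 : Good XX 15 p1049 := rs15 c1049 rfl ⟨g1044, ⟨g1045, ⟨g1046, ⟨g1047, ⟨g1048, trivial⟩⟩⟩⟩⟩
theorem g1050 : Good XX 15 p1050 := rs15 c1050 rfl trivial
theorem g1051 : Good XX 15 p1051 := rs15 c1051 rfl trivial
theorem g1052 : Good XX 15 p1052 := rs15 c1052 rfl trivial
theorem g1053 : Good XX 15 p1053 := rs15 c1053 rfl trivial
theorem g1054 : Good XX 15 p1054 := rs15 c1054 rfl trivial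
theorem g1055 : Good XX 15 p1055 := rs15 c1055 rfl ⟨g1051, ⟨g1052, ⟨g1053, ⟨g1054, trivial⟩⟩⟩⟩
theorem g1056 : Good XX 15 p1056 := rs15 c1056 rfl trivial
theorem g1057 : Good XX 15 p1057 := rs15 c1057 rfl trivial
theorem g1058 : Good XX 15 p1058 := rs15 c1058 rfl trivial
theorem g1059 : Good XX 15 p1059 := rs15 c1059 rfl trivial
theorem g1060 : Good XX 15 p1060 := rs15 c1060 rfl trivial
theorem g1061 : Good XX 15 p1061 := rs15 c1061 rfl trivial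
theorem g1062 : Good XX 15 p1062 := rs15 c1062 rfl trivial
theorem g1063 : Good XX 15 p1063 := rs15 c1063 rfl trivial
theorem g1064 : Good XX 15 p1064 := rs15 c1064 rfl ⟨g1056, ⟨g1057, ⟨g1058, ⟨g1059, ⟨g1060, ⟨g1061, ⟨g1062, ⟨g1063, trivial⟩⟩⟩⟩⟩⟩⟩⟩
theorem g1065 : Good XX 15 p1065 := rs15 c1065 rfl trivial
theorem g1066 : Good XX 15 p1066 := rs15 c1066 rfl trivial
theorem g1067 : Good XX 15 p1067 := rs15 c1067 rfl trivial
theorem g1068 : Good XX 15 p1068 := rs15 c1068 rfl trivial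
theorem g1069 : Good XX 15 p1069 := rs15 c1069 rfl trivial
theorem g1070 : Good XX 15 p1070 := rs15 c1070 rfl ⟨g1065, ⟨g1066, ⟨g1067, ⟨g1068, ⟨g1069, trivial⟩⟩⟩⟩⟩
theorem g1071 : Good XX 15 p1071 := rs15 c1071 rfl ⟨g1022, ⟨g1023, ⟨g1031, ⟨g1032, ⟨g1034, ⟨g1042, ⟨g1043, ⟨g1049, ⟨g1050, ⟨g1055, ⟨g1064, ⟨g1070, trivial⟩⟩⟩⟩⟩⟩⟩⟩⟩⟩⟩⟩
theorem g1072 : Good XX 15 p1072 := rs15 c1072 rfl trivial
theorem g1073 : Good XX 15 p1073 := rs15 c1073 rfl trivial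
theorem g1074 : Good XX 15 p1074 := rs15 c1074 rfl trivial
theorem g1075 : Good XX 15 p1075 := rs15 c1075 rfl trivial
theorem g1076 : Good XX 15 p1076 := rs15 c1076 rfl ⟨g1075, trivial⟩
theorem g1077 : Good XX 15 p1077 := rs15 c1077 rfl trivial
theorem g1078 : Good XX 15 p1078 := rs15 c1078 rfl trivial
theorem g1079 : Good XX 15 p1079 := rs15 c1079 rfl trivial
theorem g1080 : Good XX 15 p1080 := rs15 c1080 rfl trivial
theorem g1081 : Good XX 15 p1081 := rs15 c1081 rfl trivial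
theorem g1082 : Good XX 15 p1082 := rs15 c1082 rfl trivial
theorem g1083 : Good XX 15 p1083 := rs15 c1083 rfl ⟨g1079, ⟨g1080, ⟨g1081, ⟨g1082, trivial⟩⟩⟩⟩
theorem g1084 : Good XX 15 p1084 := rs15 c1084 rfl trivial
theorem g1085 : Good XX 15 p1085 := rs15 c1085 rfl trivial
theorem g1086 : Good XX 15 p1086 := rs15 c1086 rfl trivial
theorem g1087 : Good XX 15 p1087 := rs15 c1087 rfl trivial
theorem g1088 : Good XX 15 p1088 := rs15 c1088 rfl trivial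
theorem g1089 : Good XX 15 p1089 := rs15 c1089 rfl ⟨g1085, ⟨g1086, ⟨g1087, ⟨g1088, trivial⟩⟩⟩⟩
theorem g1090 : Good XX 15 p1090 := rs15 c1090 rfl trivial
theorem g1091 : Good XX 15 p1091 := rs15 c1091 rfl trivial
theorem g1092 : Good XX 15 p1092 := rs15 c1092 rfl ⟨g1090, ⟨g1091, trivial⟩⟩
theorem g1093 : Good XX 15 p1093 := rs15 c1093 rfl trivial
theorem g1094 : Good XX 15 p1094 := rs15 c1094 rfl trivial
theorem g1095 : Good XX 15 p1095 := rs15 c1095 rfl trivial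
theorem g1096 : Good XX 15 p1096 := rs15 c1096 rfl ⟨g1095, trivial⟩
theorem g1097 : Good XX 15 p1097 := rs15 c1097 rfl trivial
theorem g1098 : Good XX 15 p1098 := rs15 c1098 rfl trivial
theorem g1099 : Good XX 15 p1099 := rs15 c1099 rfl trivial
theorem g1100 : Good XX 15 p1100 := rs15 c1100 rfl trivial
theorem g1101 : Good XX 15 p1101 := rs15 c1101 rfl trivial
theorem g1102 : Good XX 15 p1102 := rs15 c1102 rfl trivial
theorem g1103 : Good XX 15 p1103 := rs15 c1103 rfl ⟨g1098, ⟨g1099, ⟨g1100, ⟨g1101, ⟨g1102, trivial⟩⟩⟩⟩⟩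
theorem g1104 : Good XX 15 p1104 := rs15 c1104 rfl trivial
theorem g1105 : Good XX 15 p1105 := rs15 c1105 rfl trivial
theorem g1106 : Good XX 15 p1106 := rs15 c1106 rfl trivial
theorem g1107 : Good XX 15 p1107 := rs15 c1107 rfl trivial
theorem g1108 : Good XX 15 p1108 := rs15 c1108 rfl ⟨g1104, ⟨g1105, ⟨g1106, ⟨g1107, trivial⟩⟩⟩⟩
theorem g1109 : Good XX 15 p1109 := rs15 c1109 rfl trivial
theorem g1110 : Good XX 15 p1110 := rs15 c1110 rfl trivial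
theorem g1111 : Good XX 15 p1111 := rs15 c1111 rfl ⟨g1110, trivial⟩
theorem g1112 : Good XX 15 p1112 := rs15 c1112 rfl trivial
theorem g1113 : Good XX 15 p1113 := rs15 c1113 rfl trivial
theorem g1114 : Good XX 15 p1114 := rs15 c1114 rfl trivial
theorem g1115 : Good XX 15 p1115 := rs15 c1115 rfl trivial
theorem g1116 : Good XX 15 p1116 := rs15 c1116 rfl trivial
theorem g1117 : Good XX 15 p1117 := rs15 c1117 rfl trivial
theorem g1118 : Good XX 15 p1118 := rs15 c1118 rfl trivial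
theorem g1119 : Good XX 15 p1119 := rs15 c1119 rfl trivial
theorem g1120 : Good XX 15 p1120 := rs15 c1120 rfl ⟨g1113, ⟨g1114, ⟨g1115, ⟨g1116, ⟨g1117, ⟨g1118, ⟨g1119, trivial⟩⟩⟩⟩⟩⟩⟩
theorem g1121 : Good XX 15 p1121 := rs15 c1121 rfl trivial
theorem g1122 : Good XX 15 p1122 := rs15 c1122 rfl trivial
theorem g1123 : Good XX 15 p1123 := rs15 c1123 rfl trivial
theorem g1124 : Good XX 15 p1124 := rs15 c1124 rfl trivial
theorem g1125 : Good XX 15 p1125 := rs15 c1125 rfl trivial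
theorem g1126 : Good XX 15 p1126 := rs15 c1126 rfl ⟨g1121, ⟨g1122, ⟨g1123, ⟨g1124, ⟨g1125, trivial⟩⟩⟩⟩⟩
theorem g1127 : Good XX 15 p1127 := rs15 c1127 rfl trivial
theorem g1128 : Good XX 15 p1128 := rs15 c1128 rfl trivial
theorem g1129 : Good XX 15 p1129 := rs15 c1129 rfl trivial
theorem g1130 : Good XX 15 p1130 := rs15 c1130 rfl ⟨g1129, trivial⟩
theorem g1131 : Good XX 15 p1131 := rs15 c1131 rfl trivial
theorem g1132 : Good XX 15 p1132 := rs15 c1132 rfl trivial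
theorem g1133 : Good XX 15 p1133 := rs15 c1133 rfl trivial
theorem g1134 : Good XX 15 p1134 := rs15 c1134 rfl trivial
theorem g1135 : Good XX 15 p1135 := rs15 c1135 rfl trivial
theorem g1136 : Good XX 15 p1136 := rs15 c1136 rfl trivial
theorem g1137 : Good XX 15 p1137 := rs15 c1137 rfl trivial
theorem g1138 : Good XX 15 p1138 := rs15 c1138 rfl trivial
theorem g1139 : Good XX 15 p1139 := rs15 c1139 rfl ⟨g1131, ⟨g1132, ⟨g1133, ⟨g1134, ⟨g1135, ⟨g1136, ⟨g1137, ⟨g1138, trivial⟩⟩⟩⟩⟩⟩⟩⟩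
theorem g1140 : Good XX 15 p1140 := rs15 c1140 rfl trivial
theorem g1141 : Good XX 15 p1141 := rs15 c1141 rfl trivial
theorem g1142 : Good XX 15 p1142 := rs15 c1142 rfl trivial
theorem g1143 : Good XX 15 p1143 := rs15 c1143 rfl trivial
theorem g1144 : Good XX 15 p1144 := rs15 c1144 rfl trivial
theorem g1145 : Good XX 15 p1145 := rs15 c1145 rfl ⟨g1140, ⟨g1141, ⟨g1142, ⟨g1143, ⟨g1144, trivial⟩⟩⟩⟩⟩
theorem g1146 : Good XX 15 p1146 := rs15 c1146 rfl trivial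
theorem g1147 : Good XX 15 p1147 := rs15 c1147 rfl trivial
theorem g1148 : Good XX 15 p1148 := rs15 c1148 rfl ⟨g1146, ⟨g1147, trivial⟩⟩
theorem g1149 : Good XX 15 p1149 := rs15 c1149 rfl trivial
theorem g1150 : Good XX 15 p1150 := rs15 c1150 rfl trivial
theorem g1151 : Good XX 15 p1151 := rs15 c1151 rfl trivial
theorem g1152 : Good XX 15 p1152 := rs15 c1152 rfl trivial
theorem g1153 : Good XX 15 p1153 := rs15 c1153 rfl trivial
theorem g1154 : Good XX 15 p1154 := rs15 c1154 rfl trivial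
theorem g1155 : Good XX 15 p1155 := rs15 c1155 rfl trivial
theorem g1156 : Good XX 15 p1156 := rs15 c1156 rfl trivial
theorem g1157 : Good XX 15 p1157 := rs15 c1157 rfl trivial
theorem g1158 : Good XX 15 p1158 := rs15 c1158 rfl trivial
theorem g1159 : Good XX 15 p1159 := rs15 c1159 rfl trivial
theorem g1160 : Good XX 15 p1160 := rs15 c1160 rfl trivial
theorem g1161 : Good XX 15 p1161 := rs15 c1161 rfl trivial
theorem g1162 : Good XX 15 p1162 := rs15 c1162 rfl trivial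
theorem g1163 : Good XX 15 p1163 := rs15 c1163 rfl trivial
theorem g1164 : Good XX 15 p1164 := rs15 c1164 rfl trivial
theorem g1165 : Good XX 15 p1165 := rs15 c1165 rfl ⟨g1150, ⟨g1151, ⟨g1152, ⟨g1153, ⟨g1154, ⟨g1155, ⟨g1156, ⟨g1157, ⟨g1158, ⟨g1159, ⟨g1160, ⟨g1161, ⟨g1162, ⟨g1163, ⟨g1164, trivial⟩⟩⟩⟩⟩⟩⟩⟩⟩⟩⟩⟩⟩⟩⟩
theorem g1166 : Good XX 15 p1166 := rs15 c1166 rfl ⟨g1094, ⟨g1096, ⟨g1097, ⟨g1103, ⟨g1108, ⟨g1109, ⟨g1111, ⟨g1112, ⟨g1120, ⟨g1126, ⟨g1127, ⟨g1128, ⟨g1130, ⟨g1139, ⟨g1145, ⟨g1148, ⟨g1149, ⟨g1165, trivial⟩⟩⟩⟩⟩⟩⟩⟩⟩⟩⟩⟩⟩⟩⟩⟩⟩⟩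
theorem g1167 : Good XX 15 p1167 := rs15 c1167 rfl ⟨g933, ⟨g935, ⟨g947, ⟨g948, ⟨g954, ⟨g955, ⟨g957, ⟨g960, ⟨g1010, ⟨g1016, ⟨g1017, ⟨g1018, ⟨g1021, ⟨g1071, ⟨g1072, ⟨g1073, ⟨g1074, ⟨g1076, ⟨g1077, ⟨g1078, ⟨g1083, ⟨g1084, ⟨g1089, ⟨g1092, ⟨g1093, ⟨g1166, trivial⟩⟩⟩⟩⟩⟩⟩⟩⟩⟩⟩⟩⟩⟩⟩⟩⟩⟩⟩⟩⟩⟩⟩⟩⟩⟩
theorem g1168 : Good XX 15 p1168 := rs15 c1168 rfl trivial
theorem g1169 : Good XX 15 p1169 := rs15 c1169 rfl trivial
theorem g1170 : Good XX 15 p1170 := rs15 c1170 rfl trivial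
theorem g1171 : Good XX 15 p1171 := rs15 c1171 rfl trivial
theorem g1172 : Good XX 15 p1172 := rs15 c1172 rfl ⟨g1171, trivial⟩
theorem g1173 : Good XX 15 p1173 := rs15 c1173 rfl trivial
theorem g1174 : Good XX 15 p1174 := rs15 c1174 rfl ⟨g1168, ⟨g1169, ⟨g1170, ⟨g1172, ⟨g1173, trivial⟩⟩⟩⟩⟩
theorem g1175 : Good XX 15 p1175 := rs15 c1175 rfl trivial
theorem g1176 : Good XX 15 p1176 := rs15 c1176 rfl trivial
theorem g1177 : Good XX 15 p1177 := rs15 c1177 rfl ⟨g1175, ⟨g1176, trivial⟩⟩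
theorem g1178 : Good XX 15 p1178 := rs15 c1178 rfl trivial
theorem g1179 : Good XX 15 p1179 := rs15 c1179 rfl trivial
theorem g1180 : Good XX 15 p1180 := rs15 c1180 rfl trivial
theorem g1181 : Good XX 15 p1181 := rs15 c1181 rfl trivial
theorem g1182 : Good XX 15 p1182 := rs15 c1182 rfl trivial
theorem g1183 : Good XX 15 p1183 := rs15 c1183 rfl trivial
theorem g1184 : Good XX 15 p1184 := rs15 c1184 rfl trivial
theorem g1185 : Good XX 15 p1185 := rs15 c1185 rfl trivial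
theorem g1186 : Good XX 15 p1186 := rs15 c1186 rfl trivial
theorem g1187 : Good XX 15 p1187 := rs15 c1187 rfl trivial
theorem g1188 : Good XX 15 p1188 := rs15 c1188 rfl ⟨g1186, ⟨g1187, trivial⟩⟩
theorem g1189 : Good XX 15 p1189 := rs15 c1189 rfl trivial
theorem g1190 : Good XX 15 p1190 := rs15 c1190 rfl trivial
theorem g1191 : Good XX 15 p1191 := rs15 c1191 rfl ⟨g1190, trivial⟩
theorem g1192 : Good XX 15 p1192 := rs15 c1192 rfl trivial
theorem g1193 : Good XX 15 p1193 := rs15 c1193 rfl ⟨g1178, ⟨g1179, ⟨g1180, ⟨g1181, ⟨g1182, ⟨g1183, ⟨g1184, ⟨g1185, ⟨g1188, ⟨g1189, ⟨g1191, ⟨g1192, trivial⟩⟩⟩⟩⟩⟩⟩⟩⟩⟩⟩⟩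
theorem g1194 : Good XX 15 p1194 := rs15 c1194 rfl trivial
theorem g1195 : Good XX 15 p1195 := rs15 c1195 rfl trivial
theorem g1196 : Good XX 15 p1196 := rs15 c1196 rfl trivial
theorem g1197 : Good XX 15 p1197 := rs15 c1197 rfl ⟨g1196, trivial⟩
theorem g1198 : Good XX 15 p1198 := rs15 c1198 rfl trivial
theorem g1199 : Good XX 15 p1199 := rs15 c1199 rfl trivial
theorem g1200 : Good XX 15 p1200 := rs15 c1200 rfl trivial
theorem g1201 : Good XX 15 p1201 := rs15 c1201 rfl ⟨g1200, trivial⟩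
theorem g1202 : Good XX 15 p1202 := rs15 c1202 rfl trivial
theorem g1203 : Good XX 15 p1203 := rs15 c1203 rfl trivial
theorem g1204 : Good XX 15 p1204 := rs15 c1204 rfl ⟨g1202, ⟨g1203, trivial⟩⟩
theorem g1205 : Good XX 15 p1205 := rs15 c1205 rfl trivial
theorem g1206 : Good XX 15 p1206 := rs15 c1206 rfl trivial
theorem g1207 : Good XX 15 p1207 := rs15 c1207 rfl trivial
theorem g1208 : Good XX 15 p1208 := rs15 c1208 rfl trivial
theorem g1209 : Good XX 15 p1209 := rs15 c1209 rfl trivial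
theorem g1210 : Good XX 15 p1210 := rs15 c1210 rfl trivial
theorem g1211 : Good XX 15 p1211 := rs15 c1211 rfl ⟨g1205, ⟨g1206, ⟨g1207, ⟨g1208, ⟨g1209, ⟨g1210, trivial⟩⟩⟩⟩⟩⟩
theorem g1212 : Good XX 15 p1212 := rs15 c1212 rfl trivial
theorem g1213 : Good XX 15 p1213 := rs15 c1213 rfl ⟨g1212, trivial⟩
theorem g1214 : Good XX 15 p1214 := rs15 c1214 rfl ⟨g1194, ⟨g1195, ⟨g1197, ⟨g1198, ⟨g1199, ⟨g1201, ⟨g1204, ⟨g1211, ⟨g1213, trivial⟩⟩⟩⟩⟩⟩⟩⟩⟩
theorem g1215 : Good XX 15 p1215 := rs15 c1215 rfl trivial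
theorem g1216 : Good XX 15 p1216 := rs15 c1216 rfl trivial
theorem g1217 : Good XX 15 p1217 := rs15 c1217 rfl ⟨g1216, trivial⟩
theorem g1218 : Good XX 15 p1218 := rs15 c1218 rfl trivial
theorem g1219 : Good XX 15 p1219 := rs15 c1219 rfl trivial
theorem g1220 : Good XX 15 p1220 := rs15 c1220 rfl trivial
theorem g1221 : Good XX 15 p1221 := rs15 c1221 rfl trivial
theorem g1222 : Good XX 15 p1222 := rs15 c1222 rfl trivial
theorem g1223 : Good XX 15 p1223 := rs15 c1223 rfl trivial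
theorem g1224 : Good XX 15 p1224 := rs15 c1224 rfl trivial
theorem g1225 : Good XX 15 p1225 := rs15 c1225 rfl trivial
theorem g1226 : Good XX 15 p1226 := rs15 c1226 rfl ⟨g1219, ⟨g1220, ⟨g1221, ⟨g1222, ⟨g1223, ⟨g1224, ⟨g1225, trivial⟩⟩⟩⟩⟩⟩⟩
theorem g1227 : Good XX 15 p1227 := rs15 c1227 rfl trivial
theorem g1228 : Good XX 15 p1228 := rs15 c1228 rfl trivial
theorem g1229 : Good XX 15 p1229 := rs15 c1229 rfl ⟨g1228, trivial⟩
theorem g1230 : Good XX 15 p1230 := rs15 c1230 rfl ⟨g1215, ⟨g1217, ⟨g1218, ⟨g1226, ⟨g1227, ⟨g1229, trivial⟩⟩⟩⟩⟩⟩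
theorem g1231 : Good XX 15 p1231 := rs15 c1231 rfl trivial
theorem g1232 : Good XX 15 p1232 := rs15 c1232 rfl ⟨g1231, trivial⟩
theorem g1233 : Good XX 15 p1233 := rs15 c1233 rfl trivial
theorem g1234 : Good XX 15 p1234 := rs15 c1234 rfl trivial
theorem g1235 : Good XX 15 p1235 := rs15 c1235 rfl trivial
theorem g1236 : Good XX 15 p1236 := rs15 c1236 rfl ⟨g1235, trivial⟩
theorem g1237 : Good XX 15 p1237 := rs15 c1237 rfl trivial
theorem g1238 : Good XX 15 p1238 := rs15 c1238 rfl trivial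
theorem g1239 : Good XX 15 p1239 := rs15 c1239 rfl trivial
theorem g1240 : Good XX 15 p1240 := rs15 c1240 rfl ⟨g1239, trivial⟩
theorem g1241 : Good XX 15 p1241 := rs15 c1241 rfl trivial
theorem g1242 : Good XX 15 p1242 := rs15 c1242 rfl trivial
theorem g1243 : Good XX 15 p1243 := rs15 c1243 rfl trivial
theorem g1244 : Good XX 15 p1244 := rs15 c1244 rfl trivial
theorem g1245 : Good XX 15 p1245 := rs15 c1245 rfl trivial
theorem g1246 : Good XX 15 p1246 := rs15 c1246 rfl trivial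
theorem g1247 : Good XX 15 p1247 := rs15 c1247 rfl ⟨g1241, ⟨g1242, ⟨g1243, ⟨g1244, ⟨g1245, ⟨g1246, trivial⟩⟩⟩⟩⟩⟩
theorem g1248 : Good XX 15 p1248 := rs15 c1248 rfl trivial
theorem g1249 : Good XX 15 p1249 := rs15 c1249 rfl ⟨g1248, trivial⟩
theorem g1250 : Good XX 15 p1250 := rs15 c1250 rfl trivial
theorem g1251 : Good XX 15 p1251 := rs15 c1251 rfl trivial
theorem g1252 : Good XX 15 p1252 := rs15 c1252 rfl trivial
theorem g1253 : Good XX 15 p1253 := rs15 c1253 rfl trivial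
theorem g1254 : Good XX 15 p1254 := rs15 c1254 rfl trivial
theorem g1255 : Good XX 15 p1255 := rs15 c1255 rfl ⟨g1250, ⟨g1251, ⟨g1252, ⟨g1253, ⟨g1254, trivial⟩⟩⟩⟩⟩
theorem g1256 : Good XX 15 p1256 := rs15 c1256 rfl trivial
theorem g1257 : Good XX 15 p1257 := rs15 c1257 rfl ⟨g1256, trivial⟩
theorem g1258 : Good XX 15 p1258 := rs15 c1258 rfl trivial
theorem g1259 : Good XX 15 p1259 := rs15 c1259 rfl trivial
theorem g1260 : Good XX 15 p1260 := rs15 c1260 rfl trivial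
theorem g1261 : Good XX 15 p1261 := rs15 c1261 rfl trivial
theorem g1262 : Good XX 15 p1262 := rs15 c1262 rfl trivial
theorem g1263 : Good XX 15 p1263 := rs15 c1263 rfl ⟨g1258, ⟨g1259, ⟨g1260, ⟨g1261, ⟨g1262, trivial⟩⟩⟩⟩⟩
theorem g1264 : Good XX 15 p1264 := rs15 c1264 rfl trivial
theorem g1265 : Good XX 15 p1265 := rs15 c1265 rfl ⟨g1264, trivial⟩
theorem g1266 : Good XX 15 p1266 := rs15 c1266 rfl trivial
theorem g1267 : Good XX 15 p1267 := rs15 c1267 rfl trivial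
theorem g1268 : Good XX 15 p1268 := rs15 c1268 rfl trivial
theorem g1269 : Good XX 15 p1269 := rs15 c1269 rfl trivial
theorem g1270 : Good XX 15 p1270 := rs15 c1270 rfl trivial
theorem g1271 : Good XX 15 p1271 := rs15 c1271 rfl ⟨g1268, ⟨g1269, ⟨g1270, trivial⟩⟩⟩
theorem g1272 : Good XX 15 p1272 := rs15 c1272 rfl trivial
theorem g1273 : Good XX 15 p1273 := rs15 c1273 rfl trivial
theorem g1274 : Good XX 15 p1274 := rs15 c1274 rfl trivial
theorem g1275 : Good XX 15 p1275 := rs15 c1275 rfl trivial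
theorem g1276 : Good XX 15 p1276 := rs15 c1276 rfl trivial
theorem g1277 : Good XX 15 p1277 := rs15 c1277 rfl trivial
theorem g1278 : Good XX 15 p1278 := rs15 c1278 rfl trivial
theorem g1279 : Good XX 15 p1279 := rs15 c1279 rfl ⟨g1273, ⟨g1274, ⟨g1275, ⟨g1276, ⟨g1277, ⟨g1278, trivial⟩⟩⟩⟩⟩⟩
theorem g1280 : Good XX 15 p1280 := rs15 c1280 rfl trivial
theorem g1281 : Good XX 15 p1281 := rs15 c1281 rfl trivial
theorem g1282 : Good XX 15 p1282 := rs15 c1282 rfl trivial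
theorem g1283 : Good XX 15 p1283 := rs15 c1283 rfl ⟨g1280, ⟨g1281, ⟨g1282, trivial⟩⟩⟩
theorem g1284 : Good XX 15 p1284 := rs15 c1284 rfl trivial
theorem g1285 : Good XX 15 p1285 := rs15 c1285 rfl trivial
theorem g1286 : Good XX 15 p1286 := rs15 c1286 rfl trivial
theorem g1287 : Good XX 15 p1287 := rs15 c1287 rfl trivial
theorem g1288 : Good XX 15 p1288 := rs15 c1288 rfl trivial
theorem g1289 : Good XX 15 p1289 := rs15 c1289 rfl ⟨g1284, ⟨g1285, ⟨g1286, ⟨g1287, ⟨g1288, trivial⟩⟩⟩⟩⟩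
theorem g1290 : Good XX 15 p1290 := rs15 c1290 rfl trivial
theorem g1291 : Good XX 15 p1291 := rs15 c1291 rfl trivial
theorem g1292 : Good XX 15 p1292 := rs15 c1292 rfl trivial
theorem g1293 : Good XX 15 p1293 := rs15 c1293 rfl trivial
theorem g1294 : Good XX 15 p1294 := rs15 c1294 rfl trivial
theorem g1295 : Good XX 15 p1295 := rs15 c1295 rfl ⟨g1291, ⟨g1292, ⟨g1293, ⟨g1294, trivial⟩⟩⟩⟩
theorem g1296 : Good XX 15 p1296 := rs15 c1296 rfl ⟨g1266, ⟨g1267, ⟨g1271, ⟨g1272, ⟨g1279, ⟨g1283, ⟨g1289, ⟨g1290, ⟨g1295, trivial⟩⟩⟩⟩⟩⟩⟩⟩⟩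
theorem g1297 : Good XX 15 p1297 := rs15 c1297 rfl trivial
theorem g1298 : Good XX 15 p1298 := rs15 c1298 rfl trivial
theorem g1299 : Good XX 15 p1299 := rs15 c1299 rfl trivial
theorem g1300 : Good XX 15 p1300 := rs15 c1300 rfl ⟨g1299, trivial⟩
theorem g1301 : Good XX 15 p1301 := rs15 c1301 rfl trivial
theorem g1302 : Good XX 15 p1302 := rs15 c1302 rfl trivial
theorem g1303 : Good XX 15 p1303 := rs15 c1303 rfl ⟨g1302, trivial⟩
theorem g1304 : Good XX 15 p1304 := rs15 c1304 rfl trivial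
theorem g1305 : Good XX 15 p1305 := rs15 c1305 rfl trivial
theorem g1306 : Good XX 15 p1306 := rs15 c1306 rfl trivial
theorem g1307 : Good XX 15 p1307 := rs15 c1307 rfl trivial
theorem g1308 : Good XX 15 p1308 := rs15 c1308 rfl ⟨g1304, ⟨g1305, ⟨g1306, ⟨g1307, trivial⟩⟩⟩⟩
theorem g1309 : Good XX 15 p1309 := rs15 c1309 rfl trivial
theorem g1310 : Good XX 15 p1310 := rs15 c1310 rfl trivial
theorem g1311 : Good XX 15 p1311 := rs15 c1311 rfl ⟨g1310, trivial⟩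
theorem g1312 : Good XX 15 p1312 := rs15 c1312 rfl trivial
theorem g1313 : Good XX 15 p1313 := rs15 c1313 rfl trivial
theorem g1314 : Good XX 15 p1314 := rs15 c1314 rfl trivial
theorem g1315 : Good XX 15 p1315 := rs15 c1315 rfl trivial
theorem g1316 : Good XX 15 p1316 := rs15 c1316 rfl trivial
theorem g1317 : Good XX 15 p1317 := rs15 c1317 rfl trivial
theorem g1318 : Good XX 15 p1318 := rs15 c1318 rfl ⟨g1312, ⟨g1313, ⟨g1314, ⟨g1315, ⟨g1316, ⟨g1317, trivial⟩⟩⟩⟩⟩⟩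
theorem g1319 : Good XX 15 p1319 := rs15 c1319 rfl trivial
theorem g1320 : Good XX 15 p1320 := rs15 c1320 rfl ⟨g1319, trivial⟩
theorem g1321 : Good XX 15 p1321 := rs15 c1321 rfl trivial
theorem g1322 : Good XX 15 p1322 := rs15 c1322 rfl trivial
theorem g1323 : Good XX 15 p1323 := rs15 c1323 rfl trivial
theorem g1324 : Good XX 15 p1324 := rs15 c1324 rfl trivial
theorem g1325 : Good XX 15 p1325 := rs15 c1325 rfl trivial
theorem g1326 : Good XX 15 p1326 := rs15 c1326 rfl ⟨g1321, ⟨g1322, ⟨g1323, ⟨g1324, ⟨g1325, trivial⟩⟩⟩⟩⟩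
theorem g1327 : Good XX 15 p1327 := rs15 c1327 rfl trivial
theorem g1328 : Good XX 15 p1328 := rs15 c1328 rfl trivial
theorem g1329 : Good XX 15 p1329 := rs15 c1329 rfl ⟨g1327, ⟨g1328, trivial⟩⟩
theorem g1330 : Good XX 15 p1330 := rs15 c1330 rfl trivial
theorem g1331 : Good XX 15 p1331 := rs15 c1331 rfl trivial
theorem g1332 : Good XX 15 p1332 := rs15 c1332 rfl trivial
theorem g1333 : Good XX 15 p1333 := rs15 c1333 rfl trivial
theorem g1334 : Good XX 15 p1334 := rs15 c1334 rfl ⟨g1330, ⟨g1331, ⟨g1332, ⟨g1333, trivial⟩⟩⟩⟩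
theorem g1335 : Good XX 15 p1335 := rs15 c1335 rfl trivial
theorem g1336 : Good XX 15 p1336 := rs15 c1336 rfl trivial
theorem g1337 : Good XX 15 p1337 := rs15 c1337 rfl trivial
theorem g1338 : Good XX 15 p1338 := rs15 c1338 rfl trivial
theorem g1339 : Good XX 15 p1339 := rs15 c1339 rfl ⟨g1335, ⟨g1336, ⟨g1337, ⟨g1338, trivial⟩⟩⟩⟩
theorem g1340 : Good XX 15 p1340 := rs15 c1340 rfl trivial
theorem g1341 : Good XX 15 p1341 := rs15 c1341 rfl trivial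
theorem g1342 : Good XX 15 p1342 := rs15 c1342 rfl ⟨g1340, ⟨g1341, trivial⟩⟩
theorem g1343 : Good XX 15 p1343 := rs15 c1343 rfl trivial
theorem g1344 : Good XX 15 p1344 := rs15 c1344 rfl trivial
theorem g1345 : Good XX 15 p1345 := rs15 c1345 rfl trivial
theorem g1346 : Good XX 15 p1346 := rs15 c1346 rfl trivial
theorem g1347 : Good XX 15 p1347 := rs15 c1347 rfl trivial
theorem g1348 : Good XX 15 p1348 := rs15 c1348 rfl ⟨g1343, ⟨g1344, ⟨g1345, ⟨g1346, ⟨g1347, trivial⟩⟩⟩⟩⟩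
theorem g1349 : Good XX 15 p1349 := rs15 c1349 rfl trivial
theorem g1350 : Good XX 15 p1350 := rs15 c1350 rfl trivial
theorem g1351 : Good XX 15 p1351 := rs15 c1351 rfl trivial
theorem g1352 : Good XX 15 p1352 := rs15 c1352 rfl trivial
theorem g1353 : Good XX 15 p1353 := rs15 c1353 rfl ⟨g1349, ⟨g1350, ⟨g1351, ⟨g1352, trivial⟩⟩⟩⟩
theorem g1354 : Good XX 15 p1354 := rs15 c1354 rfl trivial
theorem g1355 : Good XX 15 p1355 := rs15 c1355 rfl trivial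
theorem g1356 : Good XX 15 p1356 := rs15 c1356 rfl trivial
theorem g1357 : Good XX 15 p1357 := rs15 c1357 rfl trivial
theorem g1358 : Good XX 15 p1358 := rs15 c1358 rfl trivial
theorem g1359 : Good XX 15 p1359 := rs15 c1359 rfl trivial
theorem g1360 : Good XX 15 p1360 := rs15 c1360 rfl trivial
theorem g1361 : Good XX 15 p1361 := rs15 c1361 rfl ⟨g1354, ⟨g1355, ⟨g1356, ⟨g1357, ⟨g1358, ⟨g1359, ⟨g1360, trivial⟩⟩⟩⟩⟩⟩⟩
theorem g1362 : Good XX 15 p1362 := rs15 c1362 rfl trivial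
theorem g1363 : Good XX 15 p1363 := rs15 c1363 rfl trivial
theorem g1364 : Good XX 15 p1364 := rs15 c1364 rfl trivial
theorem g1365 : Good XX 15 p1365 := rs15 c1365 rfl trivial
theorem g1366 : Good XX 15 p1366 := rs15 c1366 rfl trivial
theorem g1367 : Good XX 15 p1367 := rs15 c1367 rfl ⟨g1362, ⟨g1363, ⟨g1364, ⟨g1365, ⟨g1366, trivial⟩⟩⟩⟩⟩
theorem g1368 : Good XX 15 p1368 := rs15 c1368 rfl trivial
theorem g1369 : Good XX 15 p1369 := rs15 c1369 rfl trivial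
theorem g1370 : Good XX 15 p1370 := rs15 c1370 rfl ⟨g1369, trivial⟩
theorem g1371 : Good XX 15 p1371 := rs15 c1371 rfl trivial
theorem g1372 : Good XX 15 p1372 := rs15 c1372 rfl trivial
theorem g1373 : Good XX 15 p1373 := rs15 c1373 rfl trivial
theorem g1374 : Good XX 15 p1374 := rs15 c1374 rfl trivial
theorem g1375 : Good XX 15 p1375 := rs15 c1375 rfl trivial
theorem g1376 : Good XX 15 p1376 := rs15 c1376 rfl trivial
theorem g1377 : Good XX 15 p1377 := rs15 c1377 rfl trivial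
theorem g1378 : Good XX 15 p1378 := rs15 c1378 rfl ⟨g1374, ⟨g1375, ⟨g1376, ⟨g1377, trivial⟩⟩⟩⟩
theorem g1379 : Good XX 15 p1379 := rs15 c1379 rfl trivial
theorem g1380 : Good XX 15 p1380 := rs15 c1380 rfl trivial
theorem g1381 : Good XX 15 p1381 := rs15 c1381 rfl ⟨g1380, trivial⟩
theorem g1382 : Good XX 15 p1382 := rs15 c1382 rfl trivial
theorem g1383 : Good XX 15 p1383 := rs15 c1383 rfl trivial
theorem g1384 : Good XX 15 p1384 := rs15 c1384 rfl ⟨g1382, ⟨g1383, trivial⟩⟩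
theorem g1385 : Good XX 15 p1385 := rs15 c1385 rfl trivial
theorem g1386 : Good XX 15 p1386 := rs15 c1386 rfl trivial
theorem g1387 : Good XX 15 p1387 := rs15 c1387 rfl trivial
theorem g1388 : Good XX 15 p1388 := rs15 c1388 rfl trivial
theorem g1389 : Good XX 15 p1389 := rs15 c1389 rfl ⟨g1386, ⟨g1387, ⟨g1388, trivial⟩⟩⟩
theorem g1390 : Good XX 15 p1390 := rs15 c1390 rfl trivial
theorem g1391 : Good XX 15 p1391 := rs15 c1391 rfl trivial
theorem g1392 : Good XX 15 p1392 := rs15 c1392 rfl trivial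
theorem g1393 : Good XX 15 p1393 := rs15 c1393 rfl trivial
theorem g1394 : Good XX 15 p1394 := rs15 c1394 rfl ⟨g1390, ⟨g1391, ⟨g1392, ⟨g1393, trivial⟩⟩⟩⟩
theorem g1395 : Good XX 15 p1395 := rs15 c1395 rfl trivial
theorem g1396 : Good XX 15 p1396 := rs15 c1396 rfl trivial
theorem g1397 : Good XX 15 p1397 := rs15 c1397 rfl trivial
theorem g1398 : Good XX 15 p1398 := rs15 c1398 rfl trivial
theorem g1399 : Good XX 15 p1399 := rs15 c1399 rfl trivial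
theorem g1400 : Good XX 15 p1400 := rs15 c1400 rfl ⟨g1399, trivial⟩
theorem g1401 : Good XX 15 p1401 := rs15 c1401 rfl trivial
theorem g1402 : Good XX 15 p1402 := rs15 c1402 rfl trivial
theorem g1403 : Good XX 15 p1403 := rs15 c1403 rfl ⟨g1402, trivial⟩
theorem g1404 : Good XX 15 p1404 := rs15 c1404 rfl trivial
theorem g1405 : Good XX 15 p1405 := rs15 c1405 rfl ⟨g1404, trivial⟩
theorem g1406 : Good XX 15 p1406 := rs15 c1406 rfl trivial
theorem g1407 : Good XX 15 p1407 := rs15 c1407 rfl trivial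
theorem g1408 : Good XX 15 p1408 := rs15 c1408 rfl ⟨g1407, trivial⟩
theorem g1409 : Good XX 15 p1409 := rs15 c1409 rfl trivial
theorem g1410 : Good XX 15 p1410 := rs15 c1410 rfl trivial
theorem g1411 : Good XX 15 p1411 := rs15 c1411 rfl ⟨g1409, ⟨g1410, trivial⟩⟩
theorem g1412 : Good XX 15 p1412 := rs15 c1412 rfl trivial
theorem g1413 : Good XX 15 p1413 := rs15 c1413 rfl trivial
theorem g1414 : Good XX 15 p1414 := rs15 c1414 rfl trivial
theorem g1415 : Good XX 15 p1415 := rs15 c1415 rfl trivial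
theorem g1416 : Good XX 15 p1416 := rs15 c1416 rfl trivial
theorem g1417 : Good XX 15 p1417 := rs15 c1417 rfl ⟨g1412, ⟨g1413, ⟨g1414, ⟨g1415, ⟨g1416, trivial⟩⟩⟩⟩⟩
theorem g1418 : Good XX 15 p1418 := rs15 c1418 rfl trivial
theorem g1419 : Good XX 15 p1419 := rs15 c1419 rfl ⟨g1174, ⟨g1177, ⟨g1193, ⟨g1214, ⟨g1230, ⟨g1232, ⟨g1233, ⟨g1234, ⟨g1236, ⟨g1237, ⟨g1238, ⟨g1240, ⟨g1247, ⟨g1249, ⟨g1255, ⟨g1257, ⟨g1263, ⟨g1265, ⟨g1296, ⟨g1297, ⟨g1298, ⟨g1300, ⟨g1301, ⟨g1303, ⟨g1308, ⟨g1309, ⟨g1311, ⟨g1318, ⟨g1320, ⟨g1326, ⟨g1329, ⟨g1334, ⟨g1339, ⟨g1342, ⟨g1348, ⟨g1353, ⟨g1361, ⟨g1367, ⟨g1368, ⟨g1370, ⟨g1371, ⟨g1372, ⟨g1373, ⟨g1378, ⟨g1379, ⟨g1381, ⟨g1384, ⟨g1385, ⟨g1389, ⟨g1394, ⟨g1395, ⟨g1396, ⟨g1397, ⟨g1398, ⟨g1400, ⟨g1401, ⟨g1403, ⟨g1405, ⟨g1406, ⟨g1408, ⟨g1411, ⟨g1417, ⟨g1418, trivial⟩⟩⟩⟩⟩⟩⟩⟩⟩⟩⟩⟩⟩⟩⟩⟩⟩⟩⟩⟩⟩⟩⟩⟩⟩⟩⟩⟩⟩⟩⟩⟩⟩⟩⟩⟩⟩⟩⟩⟩⟩⟩⟩⟩⟩⟩⟩⟩⟩⟩⟩⟩⟩⟩⟩⟩⟩⟩⟩⟩⟩⟩⟩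
theorem g1420 : Good XX 15 p1420 := rs15 c1420 rfl trivial
theorem g1421 : Good XX 15 p1421 := rs15 c1421 rfl trivial
theorem g1422 : Good XX 15 p1422 := rs15 c1422 rfl trivial
theorem g1423 : Good XX 15 p1423 := rs15 c1423 rfl ⟨g1422, trivial⟩
theorem g1424 : Good XX 15 p1424 := rs15 c1424 rfl trivial
theorem g1425 : Good XX 15 p1425 := rs15 c1425 rfl trivial
theorem g1426 : Good XX 15 p1426 := rs15 c1426 rfl trivial
theorem g1427 : Good XX 15 p1427 := rs15 c1427 rfl trivial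
theorem g1428 : Good XX 15 p1428 := rs15 c1428 rfl trivial
theorem g1429 : Good XX 15 p1429 := rs15 c1429 rfl trivial
theorem g1430 : Good XX 15 p1430 := rs15 c1430 rfl trivial
theorem g1431 : Good XX 15 p1431 := rs15 c1431 rfl ⟨g1427, ⟨g1428, ⟨g1429, ⟨g1430, trivial⟩⟩⟩⟩
theorem g1432 : Good XX 15 p1432 := rs15 c1432 rfl trivial
theorem g1433 : Good XX 15 p1433 := rs15 c1433 rfl trivial
theorem g1434 : Good XX 15 p1434 := rs15 c1434 rfl trivial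
theorem g1435 : Good XX 15 p1435 := rs15 c1435 rfl ⟨g1434, trivial⟩
theorem g1436 : Good XX 15 p1436 := rs15 c1436 rfl trivial
theorem g1437 : Good XX 15 p1437 := rs15 c1437 rfl trivial
theorem g1438 : Good XX 15 p1438 := rs15 c1438 rfl trivial
theorem g1439 : Good XX 15 p1439 := rs15 c1439 rfl trivial
theorem g1440 : Good XX 15 p1440 := rs15 c1440 rfl ⟨g1438, ⟨g1439, trivial⟩⟩
theorem g1441 : Good XX 15 p1441 := rs15 c1441 rfl trivial
theorem g1442 : Good XX 15 p1442 := rs15 c1442 rfl trivial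
theorem g1443 : Good XX 15 p1443 := rs15 c1443 rfl trivial
theorem g1444 : Good XX 15 p1444 := rs15 c1444 rfl ⟨g1441, ⟨g1442, ⟨g1443, trivial⟩⟩⟩
theorem g1445 : Good XX 15 p1445 := rs15 c1445 rfl trivial
theorem g1446 : Good XX 15 p1446 := rs15 c1446 rfl ⟨g1445, trivial⟩
theorem g1447 : Good XX 15 p1447 := rs15 c1447 rfl trivial
theorem g1448 : Good XX 15 p1448 := rs15 c1448 rfl ⟨g1447, trivial⟩
theorem g1449 : Good XX 15 p1449 := rs15 c1449 rfl ⟨g1420, ⟨g1421, ⟨g1423, ⟨g1424, ⟨g1425, ⟨g1426, ⟨g1431, ⟨g1432, ⟨g1433, ⟨g1435, ⟨g1436, ⟨g1437, ⟨g1440, ⟨g1444, ⟨g1446, ⟨g1448, trivial⟩⟩⟩⟩⟩⟩⟩⟩⟩⟩⟩⟩⟩⟩⟩⟩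
theorem g1450 : Good XX 15 p1450 := rs15 c1450 rfl trivial
theorem g1451 : Good XX 15 p1451 := rs15 c1451 rfl trivial
theorem g1452 : Good XX 15 p1452 := rs15 c1452 rfl ⟨g1451, trivial⟩
theorem g1453 : Good XX 15 p1453 := rs15 c1453 rfl trivial
theorem g1454 : Good XX 15 p1454 := rs15 c1454 rfl trivial
theorem g1455 : Good XX 15 p1455 := rs15 c1455 rfl trivial
theorem g1456 : Good XX 15 p1456 := rs15 c1456 rfl trivial
theorem g1457 : Good XX 15 p1457 := rs15 c1457 rfl trivial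
theorem g1458 : Good XX 15 p1458 := rs15 c1458 rfl trivial
theorem g1459 : Good XX 15 p1459 := rs15 c1459 rfl trivial
theorem g1460 : Good XX 15 p1460 := rs15 c1460 rfl trivial
theorem g1461 : Good XX 15 p1461 := rs15 c1461 rfl ⟨g1454, ⟨g1455, ⟨g1456, ⟨g1457, ⟨g1458, ⟨g1459, ⟨g1460, trivial⟩⟩⟩⟩⟩⟩⟩
theorem g1462 : Good XX 15 p1462 := rs15 c1462 rfl trivial
theorem g1463 : Good XX 15 p1463 := rs15 c1463 rfl ⟨g1462, trivial⟩
theorem g1464 : Good XX 15 p1464 := rs15 c1464 rfl trivial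
theorem g1465 : Good XX 15 p1465 := rs15 c1465 rfl trivial
theorem g1466 : Good XX 15 p1466 := rs15 c1466 rfl trivial
theorem g1467 : Good XX 15 p1467 := rs15 c1467 rfl trivial
theorem g1468 : Good XX 15 p1468 := rs15 c1468 rfl trivial
theorem g1469 : Good XX 15 p1469 := rs15 c1469 rfl trivial
theorem g1470 : Good XX 15 p1470 := rs15 c1470 rfl trivial
theorem g1471 : Good XX 15 p1471 := rs15 c1471 rfl trivial
theorem g1472 : Good XX 15 p1472 := rs15 c1472 rfl ⟨g1467, ⟨g1468, ⟨g1469, ⟨g1470, ⟨g1471, trivial⟩⟩⟩⟩⟩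
theorem g1473 : Good XX 15 p1473 := rs15 c1473 rfl trivial
theorem g1474 : Good XX 15 p1474 := rs15 c1474 rfl ⟨g1473, trivial⟩
theorem g1475 : Good XX 15 p1475 := rs15 c1475 rfl trivial
theorem g1476 : Good XX 15 p1476 := rs15 c1476 rfl trivial
theorem g1477 : Good XX 15 p1477 := rs15 c1477 rfl trivial
theorem g1478 : Good XX 15 p1478 := rs15 c1478 rfl trivial
theorem g1479 : Good XX 15 p1479 := rs15 c1479 rfl ⟨g1475, ⟨g1476, ⟨g1477, ⟨g1478, trivial⟩⟩⟩⟩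
theorem g1480 : Good XX 15 p1480 := rs15 c1480 rfl trivial
theorem g1481 : Good XX 15 p1481 := rs15 c1481 rfl trivial
theorem g1482 : Good XX 15 p1482 := rs15 c1482 rfl ⟨g1480, ⟨g1481, trivial⟩⟩
theorem g1483 : Good XX 15 p1483 := rs15 c1483 rfl trivial
theorem g1484 : Good XX 15 p1484 := rs15 c1484 rfl trivial
theorem g1485 : Good XX 15 p1485 := rs15 c1485 rfl trivial
theorem g1486 : Good XX 15 p1486 := rs15 c1486 rfl trivial
theorem g1487 : Good XX 15 p1487 := rs15 c1487 rfl trivial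
theorem g1488 : Good XX 15 p1488 := rs15 c1488 rfl trivial
theorem g1489 : Good XX 15 p1489 := rs15 c1489 rfl ⟨g1485, ⟨g1486, ⟨g1487, ⟨g1488, trivial⟩⟩⟩⟩
theorem g1490 : Good XX 15 p1490 := rs15 c1490 rfl trivial
theorem g1491 : Good XX 15 p1491 := rs15 c1491 rfl trivial
theorem g1492 : Good XX 15 p1492 := rs15 c1492 rfl trivial
theorem g1493 : Good XX 15 p1493 := rs15 c1493 rfl ⟨g1491, ⟨g1492, trivial⟩⟩
theorem g1494 : Good XX 15 p1494 := rs15 c1494 rfl trivial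
theorem g1495 : Good XX 15 p1495 := rs15 c1495 rfl ⟨g1494, trivial⟩
theorem g1496 : Good XX 15 p1496 := rs15 c1496 rfl trivial
theorem g1497 : Good XX 15 p1497 := rs15 c1497 rfl trivial
theorem g1498 : Good XX 15 p1498 := rs15 c1498 rfl ⟨g1496, ⟨g1497, trivial⟩⟩
theorem g1499 : Good XX 15 p1499 := rs15 c1499 rfl trivial
theorem g1500 : Good XX 15 p1500 := rs15 c1500 rfl trivial
theorem g1501 : Good XX 15 p1501 := rs15 c1501 rfl trivial
theorem g1502 : Good XX 15 p1502 := rs15 c1502 rfl ⟨g1500, ⟨g1501, trivial⟩⟩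
theorem g1503 : Good XX 15 p1503 := rs15 c1503 rfl trivial
theorem g1504 : Good XX 15 p1504 := rs15 c1504 rfl trivial
theorem g1505 : Good XX 15 p1505 := rs15 c1505 rfl trivial
theorem g1506 : Good XX 15 p1506 := rs15 c1506 rfl ⟨g1503, ⟨g1504, ⟨g1505, trivial⟩⟩⟩
theorem g1507 : Good XX 15 p1507 := rs15 c1507 rfl trivial
theorem g1508 : Good XX 15 p1508 := rs15 c1508 rfl trivial
theorem g1509 : Good XX 15 p1509 := rs15 c1509 rfl trivial
theorem g1510 : Good XX 15 p1510 := rs15 c1510 rfl trivial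
theorem g1511 : Good XX 15 p1511 := rs15 c1511 rfl ⟨g1507, ⟨g1508, ⟨g1509, ⟨g1510, trivial⟩⟩⟩⟩
theorem g1512 : Good XX 15 p1512 := rs15 c1512 rfl trivial
theorem g1513 : Good XX 15 p1513 := rs15 c1513 rfl trivial
theorem g1514 : Good XX 15 p1514 := rs15 c1514 rfl trivial
theorem g1515 : Good XX 15 p1515 := rs15 c1515 rfl ⟨g1512, ⟨g1513, ⟨g1514, trivial⟩⟩⟩
theorem g1516 : Good XX 15 p1516 := rs15 c1516 rfl trivial
theorem g1517 : Good XX 15 p1517 := rs15 c1517 rfl ⟨g1516, trivial⟩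
theorem g1518 : Good XX 15 p1518 := rs15 c1518 rfl trivial
theorem g1519 : Good XX 15 p1519 := rs15 c1519 rfl trivial
theorem g1520 : Good XX 15 p1520 := rs15 c1520 rfl trivial
theorem g1521 : Good XX 15 p1521 := rs15 c1521 rfl ⟨g1518, ⟨g1519, ⟨g1520, trivial⟩⟩⟩
theorem g1522 : Good XX 15 p1522 := rs15 c1522 rfl trivial
theorem g1523 : Good XX 15 p1523 := rs15 c1523 rfl trivial
theorem g1524 : Good XX 15 p1524 := rs15 c1524 rfl trivial
theorem g1525 : Good XX 15 p1525 := rs15 c1525 rfl trivial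
theorem g1526 : Good XX 15 p1526 := rs15 c1526 rfl trivial
theorem g1527 : Good XX 15 p1527 := rs15 c1527 rfl trivial
theorem g1528 : Good XX 15 p1528 := rs15 c1528 rfl trivial
theorem g1529 : Good XX 15 p1529 := rs15 c1529 rfl trivial
theorem g1530 : Good XX 15 p1530 := rs15 c1530 rfl ⟨g1522, ⟨g1523, ⟨g1524, ⟨g1525, ⟨g1526, ⟨g1527, ⟨g1528, ⟨g1529, trivial⟩⟩⟩⟩⟩⟩⟩⟩
theorem g1531 : Good XX 15 p1531 := rs15 c1531 rfl trivial
theorem g1532 : Good XX 15 p1532 := rs15 c1532 rfl ⟨g1531, trivial⟩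
theorem g1533 : Good XX 15 p1533 := rs15 c1533 rfl trivial
theorem g1534 : Good XX 15 p1534 := rs15 c1534 rfl trivial
theorem g1535 : Good XX 15 p1535 := rs15 c1535 rfl trivial
theorem g1536 : Good XX 15 p1536 := rs15 c1536 rfl ⟨g1533, ⟨g1534, ⟨g1535, trivial⟩⟩⟩
theorem g1537 : Good XX 15 p1537 := rs15 c1537 rfl trivial
theorem g1538 : Good XX 15 p1538 := rs15 c1538 rfl ⟨g1537, trivial⟩
theorem g1539 : Good XX 15 p1539 := rs15 c1539 rfl trivial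
theorem g1540 : Good XX 15 p1540 := rs15 c1540 rfl trivial
theorem g1541 : Good XX 15 p1541 := rs15 c1541 rfl ⟨g1539, ⟨g1540, trivial⟩⟩
theorem g1542 : Good XX 15 p1542 := rs15 c1542 rfl trivial
theorem g1543 : Good XX 15 p1543 := rs15 c1543 rfl trivial
theorem g1544 : Good XX 15 p1544 := rs15 c1544 rfl trivial
theorem g1545 : Good XX 15 p1545 := rs15 c1545 rfl trivial
theorem g1546 : Good XX 15 p1546 := rs15 c1546 rfl trivial
theorem g1547 : Good XX 15 p1547 := rs15 c1547 rfl ⟨g1542, ⟨g1543, ⟨g1544, ⟨g1545, ⟨g1546, trivial⟩⟩⟩⟩⟩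
theorem g1548 : Good XX 15 p1548 := rs15 c1548 rfl ⟨g1450, ⟨g1452, ⟨g1453, ⟨g1461, ⟨g1463, ⟨g1464, ⟨g1465, ⟨g1466, ⟨g1472, ⟨g1474, ⟨g1479, ⟨g1482, ⟨g1483, ⟨g1484, ⟨g1489, ⟨g1490, ⟨g1493, ⟨g1495, ⟨g1498, ⟨g1499, ⟨g1502, ⟨g1506, ⟨g1511, ⟨g1515, ⟨g1517, ⟨g1521, ⟨g1530, ⟨g1532, ⟨g1536, ⟨g1538, ⟨g1541, ⟨g1547, trivial⟩⟩⟩⟩⟩⟩⟩⟩⟩⟩⟩⟩⟩⟩⟩⟩⟩⟩⟩⟩⟩⟩⟩⟩⟩⟩⟩⟩⟩⟩⟩⟩
theorem g1549 : Good XX 15 p1549 := rs15 c1549 rfl trivial
theorem g1550 : Good XX 15 p1550 := rs15 c1550 rfl trivial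
theorem g1551 : Good XX 15 p1551 := rs15 c1551 rfl trivial
theorem g1552 : Good XX 15 p1552 := rs15 c1552 rfl trivial
theorem g1553 : Good XX 15 p1553 := rs15 c1553 rfl trivial
theorem g1554 : Good XX 15 p1554 := rs15 c1554 rfl ⟨g1553, trivial⟩
theorem g1555 : Good XX 15 p1555 := rs15 c1555 rfl trivial
theorem g1556 : Good XX 15 p1556 := rs15 c1556 rfl ⟨g1555, trivial⟩
theorem g1557 : Good XX 15 p1557 := rs15 c1557 rfl trivial
theorem g1558 : Good XX 15 p1558 := rs15 c1558 rfl ⟨g1557, trivial⟩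
theorem g1559 : Good XX 15 p1559 := rs15 c1559 rfl trivial
theorem g1560 : Good XX 15 p1560 := rs15 c1560 rfl trivial
theorem g1561 : Good XX 15 p1561 := rs15 c1561 rfl trivial
theorem g1562 : Good XX 15 p1562 := rs15 c1562 rfl trivial
theorem g1563 : Good XX 15 p1563 := rs15 c1563 rfl trivial
theorem g1564 : Good XX 15 p1564 := rs15 c1564 rfl ⟨g1562, ⟨g1563, trivial⟩⟩
theorem g1565 : Good XX 15 p1565 := rs15 c1565 rfl trivial
theorem g1566 : Good XX 15 p1566 := rs15 c1566 rfl trivial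
theorem g1567 : Good XX 15 p1567 := rs15 c1567 rfl trivial
theorem g1568 : Good XX 15 p1568 := rs15 c1568 rfl trivial
theorem g1569 : Good XX 15 p1569 := rs15 c1569 rfl trivial
theorem g1570 : Good XX 15 p1570 := rs15 c1570 rfl ⟨g1566, ⟨g1567, ⟨g1568, ⟨g1569, trivial⟩⟩⟩⟩
theorem g1571 : Good XX 15 p1571 := rs15 c1571 rfl ⟨g1564, ⟨g1565, ⟨g1570, trivial⟩⟩⟩
theorem g1572 : Good XX 15 p1572 := rs15 c1572 rfl trivial
theorem g1573 : Good XX 15 p1573 := rs15 c1573 rfl trivial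
theorem g1574 : Good XX 15 p1574 := rs15 c1574 rfl ⟨g1549, ⟨g1550, ⟨g1551, ⟨g1552, ⟨g1554, ⟨g1556, ⟨g1558, ⟨g1559, ⟨g1560, ⟨g1561, ⟨g1571, ⟨g1572, ⟨g1573, trivial⟩⟩⟩⟩⟩⟩⟩⟩⟩⟩⟩⟩⟩
theorem g1575 : Good XX 15 p1575 := rs15 c1575 rfl ⟨g86, ⟨g127, ⟨g160, ⟨g162, ⟨g170, ⟨g180, ⟨g196, ⟨g204, ⟨g259, ⟨g320, ⟨g321, ⟨g323, ⟨g327, ⟨g334, ⟨g335, ⟨g347, ⟨g406, ⟨g532, ⟨g598, ⟨g615, ⟨g648, ⟨g651, ⟨g686, ⟨g760, ⟨g762, ⟨g764, ⟨g766, ⟨g773, ⟨g795, ⟨g931, ⟨g1167, ⟨g1419, ⟨g1449, ⟨g1548, ⟨g1574, trivial⟩⟩⟩⟩⟩⟩⟩⟩⟩⟩⟩⟩⟩⟩⟩⟩⟩⟩⟩⟩⟩⟩⟩⟩⟩⟩⟩⟩⟩⟩⟩⟩⟩⟩⟩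
theorem g1576 : Good XX 15 p1576 := rs15 c1576 rfl trivial
theorem g1577 : Good XX 15 p1577 := rs15 c1577 rfl ⟨g1576, trivial⟩
theorem g1578 : Good XX 15 p1578 := rs15 c1578 rfl trivial
theorem g1579 : Good XX 15 p1579 := rs15 c1579 rfl ⟨g1578, trivial⟩
theorem g1580 : Good XX 15 p1580 := rs15 c1580 rfl trivial
theorem g1581 : Good XX 15 p1581 := rs15 c1581 rfl ⟨g1580, trivial⟩
theorem g1582 : Good XX 15 p1582 := rs15 c1582 rfl trivial
theorem g1583 : Good XX 15 p1583 := rs15 c1583 rfl trivial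
theorem g1584 : Good XX 15 p1584 := rs15 c1584 rfl trivial
theorem g1585 : Good XX 15 p1585 := rs15 c1585 rfl trivial
theorem g1586 : Good XX 15 p1586 := rs15 c1586 rfl trivial
theorem g1587 : Good XX 15 p1587 := rs15 c1587 rfl ⟨g1585, ⟨g1586, trivial⟩⟩
theorem g1588 : Good XX 15 p1588 := rs15 c1588 rfl trivial
theorem g1589 : Good XX 15 p1589 := rs15 c1589 rfl ⟨g1588, trivial⟩
theorem g1590 : Good XX 15 p1590 := rs15 c1590 rfl ⟨g1582, ⟨g1583, ⟨g1584, ⟨g1587, ⟨g1589, trivial⟩⟩⟩⟩⟩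
theorem g1591 : Good XX 15 p1591 := rs15 c1591 rfl trivial
theorem g1592 : Good XX 15 p1592 := rs15 c1592 rfl trivial
theorem g1593 : Good XX 15 p1593 := rs15 c1593 rfl trivial
theorem g1594 : Good XX 15 p1594 := rs15 c1594 rfl trivial
theorem g1595 : Good XX 15 p1595 := rs15 c1595 rfl ⟨g1593, ⟨g1594, trivial⟩⟩
theorem g1596 : Good XX 15 p1596 := rs15 c1596 rfl trivial
theorem g1597 : Good XX 15 p1597 := rs15 c1597 rfl trivial
theorem g1598 : Good XX 15 p1598 := rs15 c1598 rfl trivial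
theorem g1599 : Good XX 15 p1599 := rs15 c1599 rfl trivial
theorem g1600 : Good XX 15 p1600 := rs15 c1600 rfl trivial
theorem g1601 : Good XX 15 p1601 := rs15 c1601 rfl ⟨g1600, trivial⟩
theorem g1602 : Good XX 15 p1602 := rs15 c1602 rfl trivial
theorem g1603 : Good XX 15 p1603 := rs15 c1603 rfl trivial
theorem g1604 : Good XX 15 p1604 := rs15 c1604 rfl ⟨g1603, trivial⟩
theorem g1605 : Good XX 15 p1605 := rs15 c1605 rfl trivial
theorem g1606 : Good XX 15 p1606 := rs15 c1606 rfl trivial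
theorem g1607 : Good XX 15 p1607 := rs15 c1607 rfl trivial
theorem g1608 : Good XX 15 p1608 := rs15 c1608 rfl ⟨g1605, ⟨g1606, ⟨g1607, trivial⟩⟩⟩
theorem g1609 : Good XX 15 p1609 := rs15 c1609 rfl trivial
theorem g1610 : Good XX 15 p1610 := rs15 c1610 rfl ⟨g1598, ⟨g1599, ⟨g1601, ⟨g1602, ⟨g1604, ⟨g1608, ⟨g1609, trivial⟩⟩⟩⟩⟩⟩⟩
theorem g1611 : Good XX 15 p1611 := rs15 c1611 rfl ⟨g1595, ⟨g1596, ⟨g1597, ⟨g1610, trivial⟩⟩⟩⟩
theorem g1612 : Good XX 15 p1612 := rs15 c1612 rfl trivial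
theorem g1613 : Good XX 15 p1613 := rs15 c1613 rfl ⟨g1612, trivial⟩
theorem g1614 : Good XX 15 p1614 := rs15 c1614 rfl trivial
theorem g1615 : Good XX 15 p1615 := rs15 c1615 rfl trivial
theorem g1616 : Good XX 15 p1616 := rs15 c1616 rfl trivial
theorem g1617 : Good XX 15 p1617 := rs15 c1617 rfl trivial
theorem g1618 : Good XX 15 p1618 := rs15 c1618 rfl trivial
theorem g1619 : Good XX 15 p1619 := rs15 c1619 rfl ⟨g1617, ⟨g1618, trivial⟩⟩
theorem g1620 : Good XX 15 p1620 := rs15 c1620 rfl trivial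
theorem g1621 : Good XX 15 p1621 := rs15 c1621 rfl ⟨g1615, ⟨g1616, ⟨g1619, ⟨g1620, trivial⟩⟩⟩⟩
theorem g1622 : Good XX 15 p1622 := rs15 c1622 rfl ⟨g1613, ⟨g1614, ⟨g1621, trivial⟩⟩⟩
theorem g1623 : Good XX 15 p1623 := rs15 c1623 rfl trivial
theorem g1624 : Good XX 15 p1624 := rs15 c1624 rfl ⟨g1623, trivial⟩
theorem g1625 : Good XX 15 p1625 := rs15 c1625 rfl ⟨g1577, ⟨g1579, ⟨g1581, ⟨g1590, ⟨g1591, ⟨g1592, ⟨g1611, ⟨g1622, ⟨g1624, trivial⟩⟩⟩⟩⟩⟩⟩⟩⟩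
theorem g1626 : Good XX 15 p1626 := rs15 c1626 rfl trivial
theorem g1627 : Good XX 15 p1627 := rs15 c1627 rfl ⟨g1626, trivial⟩
theorem g1628 : Good XX 15 p1628 := rs15 c1628 rfl trivial
theorem g1629 : Good XX 15 p1629 := rs15 c1629 rfl trivial
theorem g1630 : Good XX 15 p1630 := rs15 c1630 rfl trivial
theorem g1631 : Good XX 15 p1631 := rs15 c1631 rfl ⟨g1630, trivial⟩
theorem g1632 : Good XX 15 p1632 := rs15 c1632 rfl trivial
theorem g1633 : Good XX 15 p1633 := rs15 c1633 rfl trivial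
theorem g1634 : Good XX 15 p1634 := rs15 c1634 rfl ⟨g1633, trivial⟩
theorem g1635 : Good XX 15 p1635 := rs15 c1635 rfl trivial
theorem g1636 : Good XX 15 p1636 := rs15 c1636 rfl trivial
theorem g1637 : Good XX 15 p1637 := rs15 c1637 rfl ⟨g1635, ⟨g1636, trivial⟩⟩
theorem g1638 : Good XX 15 p1638 := rs15 c1638 rfl trivial
theorem g1639 : Good XX 15 p1639 := rs15 c1639 rfl ⟨g1629, ⟨g1631, ⟨g1632, ⟨g1634, ⟨g1637, ⟨g1638, trivial⟩⟩⟩⟩⟩⟩
theorem g1640 : Good XX 15 p1640 := rs15 c1640 rfl trivial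
theorem g1641 : Good XX 15 p1641 := rs15 c1641 rfl trivial
theorem g1642 : Good XX 15 p1642 := rs15 c1642 rfl trivial
theorem g1643 : Good XX 15 p1643 := rs15 c1643 rfl ⟨g1642, trivial⟩
theorem g1644 : Good XX 15 p1644 := rs15 c1644 rfl trivial
theorem g1645 : Good XX 15 p1645 := rs15 c1645 rfl trivial
theorem g1646 : Good XX 15 p1646 := rs15 c1646 rfl ⟨g1640, ⟨g1641, ⟨g1643, ⟨g1644, ⟨g1645, trivial⟩⟩⟩⟩⟩
theorem g1647 : Good XX 15 p1647 := rs15 c1647 rfl trivial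
theorem g1648 : Good XX 15 p1648 := rs15 c1648 rfl trivial
theorem g1649 : Good XX 15 p1649 := rs15 c1649 rfl ⟨g1647, ⟨g1648, trivial⟩⟩
theorem g1650 : Good XX 15 p1650 := rs15 c1650 rfl trivial
theorem g1651 : Good XX 15 p1651 := rs15 c1651 rfl ⟨g1650, trivial⟩
theorem g1652 : Good XX 15 p1652 := rs15 c1652 rfl ⟨g1651, trivial⟩
theorem g1653 : Good XX 15 p1653 := rs15 c1653 rfl ⟨g1627, ⟨g1628, ⟨g1639, ⟨g1646, ⟨g1649, ⟨g1652, trivial⟩⟩⟩⟩⟩⟩
theorem g1654 : Good XX 15 p1654 := rs15 c1654 rfl trivial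
theorem g1655 : Good XX 15 p1655 := rs15 c1655 rfl trivial
theorem g1656 : Good XX 15 p1656 := rs15 c1656 rfl trivial
theorem g1657 : Good XX 15 p1657 := rs15 c1657 rfl trivial
theorem g1658 : Good XX 15 p1658 := rs15 c1658 rfl trivial
theorem g1659 : Good XX 15 p1659 := rs15 c1659 rfl trivial
theorem g1660 : Good XX 15 p1660 := rs15 c1660 rfl ⟨g1656, ⟨g1657, ⟨g1658, ⟨g1659, trivial⟩⟩⟩⟩
theorem g1661 : Good XX 15 p1661 := rs15 c1661 rfl trivial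
theorem g1662 : Good XX 15 p1662 := rs15 c1662 rfl trivial
theorem g1663 : Good XX 15 p1663 := rs15 c1663 rfl trivial
theorem g1664 : Good XX 15 p1664 := rs15 c1664 rfl ⟨g1663, trivial⟩
theorem g1665 : Good XX 15 p1665 := rs15 c1665 rfl trivial
theorem g1666 : Good XX 15 p1666 := rs15 c1666 rfl trivial
theorem g1667 : Good XX 15 p1667 := rs15 c1667 rfl trivial
theorem g1668 : Good XX 15 p1668 := rs15 c1668 rfl trivial
theorem g1669 : Good XX 15 p1669 := rs15 c1669 rfl trivial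
theorem g1670 : Good XX 15 p1670 := rs15 c1670 rfl ⟨g1667, ⟨g1668, ⟨g1669, trivial⟩⟩⟩
theorem g1671 : Good XX 15 p1671 := rs15 c1671 rfl trivial
theorem g1672 : Good XX 15 p1672 := rs15 c1672 rfl ⟨g1666, ⟨g1670, ⟨g1671, trivial⟩⟩⟩
theorem g1673 : Good XX 15 p1673 := rs15 c1673 rfl ⟨g1662, ⟨g1664, ⟨g1665, ⟨g1672, trivial⟩⟩⟩⟩
theorem g1674 : Good XX 15 p1674 := rs15 c1674 rfl trivial
theorem g1675 : Good XX 15 p1675 := rs15 c1675 rfl ⟨g1674, trivial⟩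
theorem g1676 : Good XX 15 p1676 := rs15 c1676 rfl trivial
theorem g1677 : Good XX 15 p1677 := rs15 c1677 rfl trivial
theorem g1678 : Good XX 15 p1678 := rs15 c1678 rfl ⟨g1677, trivial⟩
theorem g1679 : Good XX 15 p1679 := rs15 c1679 rfl trivial
theorem g1680 : Good XX 15 p1680 := rs15 c1680 rfl trivial
theorem g1681 : Good XX 15 p1681 := rs15 c1681 rfl trivial
theorem g1682 : Good XX 15 p1682 := rs15 c1682 rfl trivial
theorem g1683 : Good XX 15 p1683 := rs15 c1683 rfl ⟨g1682, trivial⟩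
theorem g1684 : Good XX 15 p1684 := rs15 c1684 rfl trivial
theorem g1685 : Good XX 15 p1685 := rs15 c1685 rfl trivial
theorem g1686 : Good XX 15 p1686 := rs15 c1686 rfl trivial
theorem g1687 : Good XX 15 p1687 := rs15 c1687 rfl ⟨g1686, trivial⟩
theorem g1688 : Good XX 15 p1688 := rs15 c1688 rfl trivial
theorem g1689 : Good XX 15 p1689 := rs15 c1689 rfl trivial
theorem g1690 : Good XX 15 p1690 := rs15 c1690 rfl trivial
theorem g1691 : Good XX 15 p1691 := rs15 c1691 rfl ⟨g1690, trivial⟩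
theorem g1692 : Good XX 15 p1692 := rs15 c1692 rfl trivial
theorem g1693 : Good XX 15 p1693 := rs15 c1693 rfl trivial
theorem g1694 : Good XX 15 p1694 := rs15 c1694 rfl ⟨g1693, trivial⟩
theorem g1695 : Good XX 15 p1695 := rs15 c1695 rfl trivial
theorem g1696 : Good XX 15 p1696 := rs15 c1696 rfl trivial
theorem g1697 : Good XX 15 p1697 := rs15 c1697 rfl trivial
theorem g1698 : Good XX 15 p1698 := rs15 c1698 rfl trivial
theorem g1699 : Good XX 15 p1699 := rs15 c1699 rfl trivial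
theorem g1700 : Good XX 15 p1700 := rs15 c1700 rfl ⟨g1695, ⟨g1696, ⟨g1697, ⟨g1698, ⟨g1699, trivial⟩⟩⟩⟩⟩
theorem g1701 : Good XX 15 p1701 := rs15 c1701 rfl trivial
theorem g1702 : Good XX 15 p1702 := rs15 c1702 rfl ⟨g1701, trivial⟩
theorem g1703 : Good XX 15 p1703 := rs15 c1703 rfl ⟨g1688, ⟨g1689, ⟨g1691, ⟨g1692, ⟨g1694, ⟨g1700, ⟨g1702, trivial⟩⟩⟩⟩⟩⟩⟩
theorem g1704 : Good XX 15 p1704 := rs15 c1704 rfl ⟨g1676, ⟨g1678, ⟨g1679, ⟨g1680, ⟨g1681, ⟨g1683, ⟨g1684, ⟨g1685, ⟨g1687, ⟨g1703, trivial⟩⟩⟩⟩⟩⟩⟩⟩⟩⟩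
theorem g1705 : Good XX 15 p1705 := rs15 c1705 rfl trivial
theorem g1706 : Good XX 15 p1706 := rs15 c1706 rfl trivial
theorem g1707 : Good XX 15 p1707 := rs15 c1707 rfl trivial
theorem g1708 : Good XX 15 p1708 := rs15 c1708 rfl trivial
theorem g1709 : Good XX 15 p1709 := rs15 c1709 rfl trivial
theorem g1710 : Good XX 15 p1710 := rs15 c1710 rfl ⟨g1709, trivial⟩
theorem g1711 : Good XX 15 p1711 := rs15 c1711 rfl ⟨g1707, ⟨g1708, ⟨g1710, trivial⟩⟩⟩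
theorem g1712 : Good XX 15 p1712 := rs15 c1712 rfl trivial
theorem g1713 : Good XX 15 p1713 := rs15 c1713 rfl ⟨g1712, trivial⟩
theorem g1714 : Good XX 15 p1714 := rs15 c1714 rfl trivial
theorem g1715 : Good XX 15 p1715 := rs15 c1715 rfl trivial
theorem g1716 : Good XX 15 p1716 := rs15 c1716 rfl trivial
theorem g1717 : Good XX 15 p1717 := rs15 c1717 rfl ⟨g1716, trivial⟩
theorem g1718 : Good XX 15 p1718 := rs15 c1718 rfl ⟨g1714, ⟨g1715, ⟨g1717, trivial⟩⟩⟩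
theorem g1719 : Good XX 15 p1719 := rs15 c1719 rfl trivial
theorem g1720 : Good XX 15 p1720 := rs15 c1720 rfl trivial
theorem g1721 : Good XX 15 p1721 := rs15 c1721 rfl trivial
theorem g1722 : Good XX 15 p1722 := rs15 c1722 rfl ⟨g1721, trivial⟩
theorem g1723 : Good XX 15 p1723 := rs15 c1723 rfl trivial
theorem g1724 : Good XX 15 p1724 := rs15 c1724 rfl trivial
theorem g1725 : Good XX 15 p1725 := rs15 c1725 rfl trivial
theorem g1726 : Good XX 15 p1726 := rs15 c1726 rfl ⟨g1725, trivial⟩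
theorem g1727 : Good XX 15 p1727 := rs15 c1727 rfl trivial
theorem g1728 : Good XX 15 p1728 := rs15 c1728 rfl trivial
theorem g1729 : Good XX 15 p1729 := rs15 c1729 rfl trivial
theorem g1730 : Good XX 15 p1730 := rs15 c1730 rfl trivial
theorem g1731 : Good XX 15 p1731 := rs15 c1731 rfl trivial
theorem g1732 : Good XX 15 p1732 := rs15 c1732 rfl trivial
theorem g1733 : Good XX 15 p1733 := rs15 c1733 rfl ⟨g1727, ⟨g1728, ⟨g1729, ⟨g1730, ⟨g1731, ⟨g1732, trivial⟩⟩⟩⟩⟩⟩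
theorem g1734 : Good XX 15 p1734 := rs15 c1734 rfl trivial
theorem g1735 : Good XX 15 p1735 := rs15 c1735 rfl ⟨g1734, trivial⟩
theorem g1736 : Good XX 15 p1736 := rs15 c1736 rfl ⟨g1719, ⟨g1720, ⟨g1722, ⟨g1723, ⟨g1724, ⟨g1726, ⟨g1733, ⟨g1735, trivial⟩⟩⟩⟩⟩⟩⟩⟩
theorem g1737 : Good XX 15 p1737 := rs15 c1737 rfl ⟨g1705, ⟨g1706, ⟨g1711, ⟨g1713, ⟨g1718, ⟨g1736, trivial⟩⟩⟩⟩⟩⟩
theorem g1738 : Good XX 15 p1738 := rs15 c1738 rfl trivial
theorem g1739 : Good XX 15 p1739 := rs15 c1739 rfl trivial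
theorem g1740 : Good XX 15 p1740 := rs15 c1740 rfl trivial
theorem g1741 : Good XX 15 p1741 := rs15 c1741 rfl trivial
theorem g1742 : Good XX 15 p1742 := rs15 c1742 rfl trivial
theorem g1743 : Good XX 15 p1743 := rs15 c1743 rfl ⟨g1740, ⟨g1741, ⟨g1742, trivial⟩⟩⟩
theorem g1744 : Good XX 15 p1744 := rs15 c1744 rfl trivial
theorem g1745 : Good XX 15 p1745 := rs15 c1745 rfl ⟨g1743, ⟨g1744, trivial⟩⟩
theorem g1746 : Good XX 15 p1746 := rs15 c1746 rfl trivial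
theorem g1747 : Good XX 15 p1747 := rs15 c1747 rfl ⟨g1746, trivial⟩
theorem g1748 : Good XX 15 p1748 := rs15 c1748 rfl trivial
theorem g1749 : Good XX 15 p1749 := rs15 c1749 rfl trivial
theorem g1750 : Good XX 15 p1750 := rs15 c1750 rfl trivial
theorem g1751 : Good XX 15 p1751 := rs15 c1751 rfl ⟨g1750, trivial⟩
theorem g1752 : Good XX 15 p1752 := rs15 c1752 rfl ⟨g1748, ⟨g1749, ⟨g1751, trivial⟩⟩⟩
theorem g1753 : Good XX 15 p1753 := rs15 c1753 rfl trivial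
theorem g1754 : Good XX 15 p1754 := rs15 c1754 rfl trivial
theorem g1755 : Good XX 15 p1755 := rs15 c1755 rfl trivial
theorem g1756 : Good XX 15 p1756 := rs15 c1756 rfl trivial
theorem g1757 : Good XX 15 p1757 := rs15 c1757 rfl ⟨g1756, trivial⟩
theorem g1758 : Good XX 15 p1758 := rs15 c1758 rfl trivial
theorem g1759 : Good XX 15 p1759 := rs15 c1759 rfl trivial
theorem g1760 : Good XX 15 p1760 := rs15 c1760 rfl trivial
theorem g1761 : Good XX 15 p1761 := rs15 c1761 rfl trivial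
theorem g1762 : Good XX 15 p1762 := rs15 c1762 rfl trivial
theorem g1763 : Good XX 15 p1763 := rs15 c1763 rfl ⟨g1759, ⟨g1760, ⟨g1761, ⟨g1762, trivial⟩⟩⟩⟩
theorem g1764 : Good XX 15 p1764 := rs15 c1764 rfl trivial
theorem g1765 : Good XX 15 p1765 := rs15 c1765 rfl ⟨g1764, trivial⟩
theorem g1766 : Good XX 15 p1766 := rs15 c1766 rfl trivial
theorem g1767 : Good XX 15 p1767 := rs15 c1767 rfl ⟨g1766, trivial⟩
theorem g1768 : Good XX 15 p1768 := rs15 c1768 rfl ⟨g1753, ⟨g1754, ⟨g1755, ⟨g1757, ⟨g1758, ⟨g1763, ⟨g1765, ⟨g1767, trivial⟩⟩⟩⟩⟩⟩⟩⟩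
theorem g1769 : Good XX 15 p1769 := rs15 c1769 rfl trivial
theorem g1770 : Good XX 15 p1770 := rs15 c1770 rfl trivial
theorem g1771 : Good XX 15 p1771 := rs15 c1771 rfl trivial
theorem g1772 : Good XX 15 p1772 := rs15 c1772 rfl ⟨g1771, trivial⟩
theorem g1773 : Good XX 15 p1773 := rs15 c1773 rfl ⟨g1769, ⟨g1770, ⟨g1772, trivial⟩⟩⟩
theorem g1774 : Good XX 15 p1774 := rs15 c1774 rfl trivial
theorem g1775 : Good XX 15 p1775 := rs15 c1775 rfl trivial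
theorem g1776 : Good XX 15 p1776 := rs15 c1776 rfl trivial
theorem g1777 : Good XX 15 p1777 := rs15 c1777 rfl trivial
theorem g1778 : Good XX 15 p1778 := rs15 c1778 rfl ⟨g1777, trivial⟩
theorem g1779 : Good XX 15 p1779 := rs15 c1779 rfl trivial
theorem g1780 : Good XX 15 p1780 := rs15 c1780 rfl trivial
theorem g1781 : Good XX 15 p1781 := rs15 c1781 rfl trivial
theorem g1782 : Good XX 15 p1782 := rs15 c1782 rfl trivial
theorem g1783 : Good XX 15 p1783 := rs15 c1783 rfl trivial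
theorem g1784 : Good XX 15 p1784 := rs15 c1784 rfl trivial
theorem g1785 : Good XX 15 p1785 := rs15 c1785 rfl trivial
theorem g1786 : Good XX 15 p1786 := rs15 c1786 rfl trivial
theorem g1787 : Good XX 15 p1787 := rs15 c1787 rfl ⟨g1781, ⟨g1782, ⟨g1783, ⟨g1784, ⟨g1785, ⟨g1786, trivial⟩⟩⟩⟩⟩⟩
theorem g1788 : Good XX 15 p1788 := rs15 c1788 rfl trivial
theorem g1789 : Good XX 15 p1789 := rs15 c1789 rfl ⟨g1788, trivial⟩
theorem g1790 : Good XX 15 p1790 := rs15 c1790 rfl trivial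
theorem g1791 : Good XX 15 p1791 := rs15 c1791 rfl ⟨g1790, trivial⟩
theorem g1792 : Good XX 15 p1792 := rs15 c1792 rfl ⟨g1774, ⟨g1775, ⟨g1776, ⟨g1778, ⟨g1779, ⟨g1780, ⟨g1787, ⟨g1789, ⟨g1791, trivial⟩⟩⟩⟩⟩⟩⟩⟩⟩
theorem g1793 : Good XX 15 p1793 := rs15 c1793 rfl trivial
theorem g1794 : Good XX 15 p1794 := rs15 c1794 rfl trivial
theorem g1795 : Good XX 15 p1795 := rs15 c1795 rfl ⟨g1793, ⟨g1794, trivial⟩⟩
theorem g1796 : Good XX 15 p1796 := rs15 c1796 rfl trivial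
theorem g1797 : Good XX 15 p1797 := rs15 c1797 rfl trivial
theorem g1798 : Good XX 15 p1798 := rs15 c1798 rfl trivial
theorem g1799 : Good XX 15 p1799 := rs15 c1799 rfl trivial
theorem g1800 : Good XX 15 p1800 := rs15 c1800 rfl trivial
theorem g1801 : Good XX 15 p1801 := rs15 c1801 rfl trivial
theorem g1802 : Good XX 15 p1802 := rs15 c1802 rfl trivial
theorem g1803 : Good XX 15 p1803 := rs15 c1803 rfl ⟨g1798, ⟨g1799, ⟨g1800, ⟨g1801, ⟨g1802, trivial⟩⟩⟩⟩⟩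
theorem g1804 : Good XX 15 p1804 := rs15 c1804 rfl trivial
theorem g1805 : Good XX 15 p1805 := rs15 c1805 rfl trivial
theorem g1806 : Good XX 15 p1806 := rs15 c1806 rfl trivial
theorem g1807 : Good XX 15 p1807 := rs15 c1807 rfl trivial
theorem g1808 : Good XX 15 p1808 := rs15 c1808 rfl trivial
theorem g1809 : Good XX 15 p1809 := rs15 c1809 rfl trivial
theorem g1810 : Good XX 15 p1810 := rs15 c1810 rfl trivial
theorem g1811 : Good XX 15 p1811 := rs15 c1811 rfl ⟨g1806, ⟨g1807, ⟨g1808, ⟨g1809, ⟨g1810, trivial⟩⟩⟩⟩⟩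
theorem g1812 : Good XX 15 p1812 := rs15 c1812 rfl trivial
theorem g1813 : Good XX 15 p1813 := rs15 c1813 rfl trivial
theorem g1814 : Good XX 15 p1814 := rs15 c1814 rfl trivial
theorem g1815 : Good XX 15 p1815 := rs15 c1815 rfl trivial
theorem g1816 : Good XX 15 p1816 := rs15 c1816 rfl trivial
theorem g1817 : Good XX 15 p1817 := rs15 c1817 rfl ⟨g1812, ⟨g1813, ⟨g1814, ⟨g1815, ⟨g1816, trivial⟩⟩⟩⟩⟩
theorem g1818 : Good XX 15 p1818 := rs15 c1818 rfl trivial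
theorem g1819 : Good XX 15 p1819 := rs15 c1819 rfl trivial
theorem g1820 : Good XX 15 p1820 := rs15 c1820 rfl trivial
theorem g1821 : Good XX 15 p1821 := rs15 c1821 rfl trivial
theorem g1822 : Good XX 15 p1822 := rs15 c1822 rfl trivial
theorem g1823 : Good XX 15 p1823 := rs15 c1823 rfl trivial
theorem g1824 : Good XX 15 p1824 := rs15 c1824 rfl trivial
theorem g1825 : Good XX 15 p1825 := rs15 c1825 rfl trivial
theorem g1826 : Good XX 15 p1826 := rs15 c1826 rfl ⟨g1819, ⟨g1820, ⟨g1821, ⟨g1822, ⟨g1823, ⟨g1824, ⟨g1825, trivial⟩⟩⟩⟩⟩⟩⟩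
theorem g1827 : Good XX 15 p1827 := rs15 c1827 rfl trivial
theorem g1828 : Good XX 15 p1828 := rs15 c1828 rfl trivial
theorem g1829 : Good XX 15 p1829 := rs15 c1829 rfl trivial
theorem g1830 : Good XX 15 p1830 := rs15 c1830 rfl trivial
theorem g1831 : Good XX 15 p1831 := rs15 c1831 rfl trivial
theorem g1832 : Good XX 15 p1832 := rs15 c1832 rfl trivial
theorem g1833 : Good XX 15 p1833 := rs15 c1833 rfl trivial
theorem g1834 : Good XX 15 p1834 := rs15 c1834 rfl ⟨g1827, ⟨g1828, ⟨g1829, ⟨g1830, ⟨g1831, ⟨g1832, ⟨g1833, trivial⟩⟩⟩⟩⟩⟩⟩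
theorem g1835 : Good XX 15 p1835 := rs15 c1835 rfl trivial
theorem g1836 : Good XX 15 p1836 := rs15 c1836 rfl trivial
theorem g1837 : Good XX 15 p1837 := rs15 c1837 rfl trivial
theorem g1838 : Good XX 15 p1838 := rs15 c1838 rfl trivial
theorem g1839 : Good XX 15 p1839 := rs15 c1839 rfl ⟨g1835, ⟨g1836, ⟨g1837, ⟨g1838, trivial⟩⟩⟩⟩
theorem g1840 : Good XX 15 p1840 := rs15 c1840 rfl ⟨g1795, ⟨g1796, ⟨g1797, ⟨g1803, ⟨g1804, ⟨g1805, ⟨g1811, ⟨g1817, ⟨g1818, ⟨g1826, ⟨g1834, ⟨g1839, trivial⟩⟩⟩⟩⟩⟩⟩⟩⟩⟩⟩⟩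
theorem g1841 : Good XX 15 p1841 := rs15 c1841 rfl trivial
theorem g1842 : Good XX 15 p1842 := rs15 c1842 rfl trivial
theorem g1843 : Good XX 15 p1843 := rs15 c1843 rfl trivial
theorem g1844 : Good XX 15 p1844 := rs15 c1844 rfl ⟨g1843, trivial⟩
theorem g1845 : Good XX 15 p1845 := rs15 c1845 rfl trivial
theorem g1846 : Good XX 15 p1846 := rs15 c1846 rfl ⟨g1845, trivial⟩
theorem g1847 : Good XX 15 p1847 := rs15 c1847 rfl trivial
theorem g1848 : Good XX 15 p1848 := rs15 c1848 rfl ⟨g1847, trivial⟩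
theorem g1849 : Good XX 15 p1849 := rs15 c1849 rfl trivial
theorem g1850 : Good XX 15 p1850 := rs15 c1850 rfl ⟨g1849, trivial⟩
theorem g1851 : Good XX 15 p1851 := rs15 c1851 rfl trivial
theorem g1852 : Good XX 15 p1852 := rs15 c1852 rfl ⟨g1851, trivial⟩
theorem g1853 : Good XX 15 p1853 := rs15 c1853 rfl trivial
theorem g1854 : Good XX 15 p1854 := rs15 c1854 rfl ⟨g1853, trivial⟩
theorem g1855 : Good XX 15 p1855 := rs15 c1855 rfl trivial
theorem g1856 : Good XX 15 p1856 := rs15 c1856 rfl trivial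
theorem g1857 : Good XX 15 p1857 := rs15 c1857 rfl trivial
theorem g1858 : Good XX 15 p1858 := rs15 c1858 rfl trivial
theorem g1859 : Good XX 15 p1859 := rs15 c1859 rfl trivial
theorem g1860 : Good XX 15 p1860 := rs15 c1860 rfl trivial
theorem g1861 : Good XX 15 p1861 := rs15 c1861 rfl trivial
theorem g1862 : Good XX 15 p1862 := rs15 c1862 rfl ⟨g1855, ⟨g1856, ⟨g1857, ⟨g1858, ⟨g1859, ⟨g1860, ⟨g1861, trivial⟩⟩⟩⟩⟩⟩⟩
theorem g1863 : Good XX 15 p1863 := rs15 c1863 rfl trivial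
theorem g1864 : Good XX 15 p1864 := rs15 c1864 rfl trivial
theorem g1865 : Good XX 15 p1865 := rs15 c1865 rfl trivial
theorem g1866 : Good XX 15 p1866 := rs15 c1866 rfl trivial
theorem g1867 : Good XX 15 p1867 := rs15 c1867 rfl ⟨g1863, ⟨g1864, ⟨g1865, ⟨g1866, trivial⟩⟩⟩⟩
theorem g1868 : Good XX 15 p1868 := rs15 c1868 rfl trivial
theorem g1869 : Good XX 15 p1869 := rs15 c1869 rfl trivial
theorem g1870 : Good XX 15 p1870 := rs15 c1870 rfl trivial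
theorem g1871 : Good XX 15 p1871 := rs15 c1871 rfl trivial
theorem g1872 : Good XX 15 p1872 := rs15 c1872 rfl ⟨g1868, ⟨g1869, ⟨g1870, ⟨g1871, trivial⟩⟩⟩⟩
theorem g1873 : Good XX 15 p1873 := rs15 c1873 rfl ⟨g1841, ⟨g1842, ⟨g1844, ⟨g1846, ⟨g1848, ⟨g1850, ⟨g1852, ⟨g1854, ⟨g1862, ⟨g1867, ⟨g1872, trivial⟩⟩⟩⟩⟩⟩⟩⟩⟩⟩⟩
theorem g1874 : Good XX 15 p1874 := rs15 c1874 rfl ⟨g1661, ⟨g1673, ⟨g1675, ⟨g1704, ⟨g1737, ⟨g1738, ⟨g1739, ⟨g1745, ⟨g1747, ⟨g1752, ⟨g1768, ⟨g1773, ⟨g1792, ⟨g1840, ⟨g1873, trivial⟩⟩⟩⟩⟩⟩⟩⟩⟩⟩⟩⟩⟩⟩⟩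
theorem g1875 : Good XX 15 p1875 := rs15 c1875 rfl trivial
theorem g1876 : Good XX 15 p1876 := rs15 c1876 rfl ⟨g1875, trivial⟩
theorem g1877 : Good XX 15 p1877 := rs15 c1877 rfl trivial
theorem g1878 : Good XX 15 p1878 := rs15 c1878 rfl trivial
theorem g1879 : Good XX 15 p1879 := rs15 c1879 rfl trivial
theorem g1880 : Good XX 15 p1880 := rs15 c1880 rfl trivial
theorem g1881 : Good XX 15 p1881 := rs15 c1881 rfl trivial
theorem g1882 : Good XX 15 p1882 := rs15 c1882 rfl ⟨g1880, ⟨g1881, trivial⟩⟩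
theorem g1883 : Good XX 15 p1883 := rs15 c1883 rfl trivial
theorem g1884 : Good XX 15 p1884 := rs15 c1884 rfl trivial
theorem g1885 : Good XX 15 p1885 := rs15 c1885 rfl trivial
theorem g1886 : Good XX 15 p1886 := rs15 c1886 rfl ⟨g1885, trivial⟩
theorem g1887 : Good XX 15 p1887 := rs15 c1887 rfl trivial
theorem g1888 : Good XX 15 p1888 := rs15 c1888 rfl trivial
theorem g1889 : Good XX 15 p1889 := rs15 c1889 rfl trivial
theorem g1890 : Good XX 15 p1890 := rs15 c1890 rfl ⟨g1888, ⟨g1889, trivial⟩⟩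
theorem g1891 : Good XX 15 p1891 := rs15 c1891 rfl trivial
theorem g1892 : Good XX 15 p1892 := rs15 c1892 rfl trivial
theorem g1893 : Good XX 15 p1893 := rs15 c1893 rfl trivial
theorem g1894 : Good XX 15 p1894 := rs15 c1894 rfl trivial
theorem g1895 : Good XX 15 p1895 := rs15 c1895 rfl trivial
theorem g1896 : Good XX 15 p1896 := rs15 c1896 rfl trivial
theorem g1897 : Good XX 15 p1897 := rs15 c1897 rfl ⟨g1894, ⟨g1895, ⟨g1896, trivial⟩⟩⟩
theorem g1898 : Good XX 15 p1898 := rs15 c1898 rfl trivial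
theorem g1899 : Good XX 15 p1899 := rs15 c1899 rfl ⟨g1891, ⟨g1892, ⟨g1893, ⟨g1897, ⟨g1898, trivial⟩⟩⟩⟩⟩
theorem g1900 : Good XX 15 p1900 := rs15 c1900 rfl ⟨g1883, ⟨g1884, ⟨g1886, ⟨g1887, ⟨g1890, ⟨g1899, trivial⟩⟩⟩⟩⟩⟩
theorem g1901 : Good XX 15 p1901 := rs15 c1901 rfl trivial
theorem g1902 : Good XX 15 p1902 := rs15 c1902 rfl trivial
theorem g1903 : Good XX 15 p1903 := rs15 c1903 rfl trivial
theorem g1904 : Good XX 15 p1904 := rs15 c1904 rfl trivial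
theorem g1905 : Good XX 15 p1905 := rs15 c1905 rfl ⟨g1904, trivial⟩
theorem g1906 : Good XX 15 p1906 := rs15 c1906 rfl trivial
theorem g1907 : Good XX 15 p1907 := rs15 c1907 rfl trivial
theorem g1908 : Good XX 15 p1908 := rs15 c1908 rfl ⟨g1907, trivial⟩
theorem g1909 : Good XX 15 p1909 := rs15 c1909 rfl trivial
theorem g1910 : Good XX 15 p1910 := rs15 c1910 rfl trivial
theorem g1911 : Good XX 15 p1911 := rs15 c1911 rfl ⟨g1902, ⟨g1903, ⟨g1905, ⟨g1906, ⟨g1908, ⟨g1909, ⟨g1910, trivial⟩⟩⟩⟩⟩⟩⟩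
theorem g1912 : Good XX 15 p1912 := rs15 c1912 rfl trivial
theorem g1913 : Good XX 15 p1913 := rs15 c1913 rfl ⟨g1912, trivial⟩
theorem g1914 : Good XX 15 p1914 := rs15 c1914 rfl trivial
theorem g1915 : Good XX 15 p1915 := rs15 c1915 rfl trivial
theorem g1916 : Good XX 15 p1916 := rs15 c1916 rfl trivial
theorem g1917 : Good XX 15 p1917 := rs15 c1917 rfl ⟨g1914, ⟨g1915, ⟨g1916, trivial⟩⟩⟩
theorem g1918 : Good XX 15 p1918 := rs15 c1918 rfl trivial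
theorem g1919 : Good XX 15 p1919 := rs15 c1919 rfl trivial
theorem g1920 : Good XX 15 p1920 := rs15 c1920 rfl trivial
theorem g1921 : Good XX 15 p1921 := rs15 c1921 rfl trivial
theorem g1922 : Good XX 15 p1922 := rs15 c1922 rfl trivial
theorem g1923 : Good XX 15 p1923 := rs15 c1923 rfl trivial
theorem g1924 : Good XX 15 p1924 := rs15 c1924 rfl trivial
theorem g1925 : Good XX 15 p1925 := rs15 c1925 rfl trivial
theorem g1926 : Good XX 15 p1926 := rs15 c1926 rfl ⟨g1918, ⟨g1919, ⟨g1920, ⟨g1921, ⟨g1922, ⟨g1923, ⟨g1924, ⟨g1925, trivial⟩⟩⟩⟩⟩⟩⟩⟩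
theorem g1927 : Good XX 15 p1927 := rs15 c1927 rfl trivial
theorem g1928 : Good XX 15 p1928 := rs15 c1928 rfl trivial
theorem g1929 : Good XX 15 p1929 := rs15 c1929 rfl trivial
theorem g1930 : Good XX 15 p1930 := rs15 c1930 rfl trivial
theorem g1931 : Good XX 15 p1931 := rs15 c1931 rfl trivial
theorem g1932 : Good XX 15 p1932 := rs15 c1932 rfl trivial
theorem g1933 : Good XX 15 p1933 := rs15 c1933 rfl ⟨g1927, ⟨g1928, ⟨g1929, ⟨g1930, ⟨g1931, ⟨g1932, trivial⟩⟩⟩⟩⟩⟩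
theorem g1934 : Good XX 15 p1934 := rs15 c1934 rfl ⟨g1876, ⟨g1877, ⟨g1878, ⟨g1879, ⟨g1882, ⟨g1900, ⟨g1901, ⟨g1911, ⟨g1913, ⟨g1917, ⟨g1926, ⟨g1933, trivial⟩⟩⟩⟩⟩⟩⟩⟩⟩⟩⟩⟩
theorem g1935 : Good XX 15 p1935 := rs15 c1935 rfl trivial
theorem g1936 : Good XX 15 p1936 := rs15 c1936 rfl trivial
theorem g1937 : Good XX 15 p1937 := rs15 c1937 rfl ⟨g1936, trivial⟩
theorem g1938 : Good XX 15 p1938 := rs15 c1938 rfl ⟨g1935, ⟨g1937, trivial⟩⟩
theorem g1939 : Good XX 15 p1939 := rs15 c1939 rfl trivial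
theorem g1940 : Good XX 15 p1940 := rs15 c1940 rfl trivial
theorem g1941 : Good XX 15 p1941 := rs15 c1941 rfl ⟨g1939, ⟨g1940, trivial⟩⟩
theorem g1942 : Good XX 15 p1942 := rs15 c1942 rfl trivial
theorem g1943 : Good XX 15 p1943 := rs15 c1943 rfl trivial
theorem g1944 : Good XX 15 p1944 := rs15 c1944 rfl trivial
theorem g1945 : Good XX 15 p1945 := rs15 c1945 rfl trivial
theorem g1946 : Good XX 15 p1946 := rs15 c1946 rfl trivial
theorem g1947 : Good XX 15 p1947 := rs15 c1947 rfl trivial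
theorem g1948 : Good XX 15 p1948 := rs15 c1948 rfl ⟨g1947, trivial⟩
theorem g1949 : Good XX 15 p1949 := rs15 c1949 rfl trivial
theorem g1950 : Good XX 15 p1950 := rs15 c1950 rfl trivial
theorem g1951 : Good XX 15 p1951 := rs15 c1951 rfl trivial
theorem g1952 : Good XX 15 p1952 := rs15 c1952 rfl trivial
theorem g1953 : Good XX 15 p1953 := rs15 c1953 rfl trivial
theorem g1954 : Good XX 15 p1954 := rs15 c1954 rfl trivial
theorem g1955 : Good XX 15 p1955 := rs15 c1955 rfl trivial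
theorem g1956 : Good XX 15 p1956 := rs15 c1956 rfl trivial
theorem g1957 : Good XX 15 p1957 := rs15 c1957 rfl trivial
theorem g1958 : Good XX 15 p1958 := rs15 c1958 rfl trivial
theorem g1959 : Good XX 15 p1959 := rs15 c1959 rfl trivial
theorem g1960 : Good XX 15 p1960 := rs15 c1960 rfl trivial
theorem g1961 : Good XX 15 p1961 := rs15 c1961 rfl ⟨g1956, ⟨g1957, ⟨g1958, ⟨g1959, ⟨g1960, trivial⟩⟩⟩⟩⟩
theorem g1962 : Good XX 15 p1962 := rs15 c1962 rfl trivial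
theorem g1963 : Good XX 15 p1963 := rs15 c1963 rfl ⟨g1944, ⟨g1945, ⟨g1946, ⟨g1948, ⟨g1949, ⟨g1950, ⟨g1951, ⟨g1952, ⟨g1953, ⟨g1954, ⟨g1955, ⟨g1961, ⟨g1962, trivial⟩⟩⟩⟩⟩⟩⟩⟩⟩⟩⟩⟩⟩
theorem g1964 : Good XX 15 p1964 := rs15 c1964 rfl trivial
theorem g1965 : Good XX 15 p1965 := rs15 c1965 rfl trivial
theorem g1966 : Good XX 15 p1966 := rs15 c1966 rfl trivial
theorem g1967 : Good XX 15 p1967 := rs15 c1967 rfl trivial
theorem g1968 : Good XX 15 p1968 := rs15 c1968 rfl trivial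
theorem g1969 : Good XX 15 p1969 := rs15 c1969 rfl trivial
theorem g1970 : Good XX 15 p1970 := rs15 c1970 rfl trivial
theorem g1971 : Good XX 15 p1971 := rs15 c1971 rfl trivial
theorem g1972 : Good XX 15 p1972 := rs15 c1972 rfl trivial
theorem g1973 : Good XX 15 p1973 := rs15 c1973 rfl trivial
theorem g1974 : Good XX 15 p1974 := rs15 c1974 rfl ⟨g1969, ⟨g1970, ⟨g1971, ⟨g1972, ⟨g1973, trivial⟩⟩⟩⟩⟩
theorem g1975 : Good XX 15 p1975 := rs15 c1975 rfl trivial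
theorem g1976 : Good XX 15 p1976 := rs15 c1976 rfl trivial
theorem g1977 : Good XX 15 p1977 := rs15 c1977 rfl ⟨g1976, trivial⟩
theorem g1978 : Good XX 15 p1978 := rs15 c1978 rfl trivial
theorem g1979 : Good XX 15 p1979 := rs15 c1979 rfl trivial
theorem g1980 : Good XX 15 p1980 := rs15 c1980 rfl ⟨g1979, trivial⟩
theorem g1981 : Good XX 15 p1981 := rs15 c1981 rfl trivial
theorem g1982 : Good XX 15 p1982 := rs15 c1982 rfl trivial
theorem g1983 : Good XX 15 p1983 := rs15 c1983 rfl trivial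
theorem g1984 : Good XX 15 p1984 := rs15 c1984 rfl ⟨g1982, ⟨g1983, trivial⟩⟩
theorem g1985 : Good XX 15 p1985 := rs15 c1985 rfl trivial
theorem g1986 : Good XX 15 p1986 := rs15 c1986 rfl trivial
theorem g1987 : Good XX 15 p1987 := rs15 c1987 rfl trivial
theorem g1988 : Good XX 15 p1988 := rs15 c1988 rfl trivial
theorem g1989 : Good XX 15 p1989 := rs15 c1989 rfl ⟨g1987, ⟨g1988, trivial⟩⟩
theorem g1990 : Good XX 15 p1990 := rs15 c1990 rfl trivial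
theorem g1991 : Good XX 15 p1991 := rs15 c1991 rfl trivial
theorem g1992 : Good XX 15 p1992 := rs15 c1992 rfl trivial
theorem g1993 : Good XX 15 p1993 := rs15 c1993 rfl trivial
theorem g1994 : Good XX 15 p1994 := rs15 c1994 rfl trivial
theorem g1995 : Good XX 15 p1995 := rs15 c1995 rfl trivial
theorem g1996 : Good XX 15 p1996 := rs15 c1996 rfl ⟨g1992, ⟨g1993, ⟨g1994, ⟨g1995, trivial⟩⟩⟩⟩
theorem g1997 : Good XX 15 p1997 := rs15 c1997 rfl trivial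
theorem g1998 : Good XX 15 p1998 := rs15 c1998 rfl trivial
theorem g1999 : Good XX 15 p1999 := rs15 c1999 rfl trivial
theorem g2000 : Good XX 15 p2000 := rs15 c2000 rfl trivial
theorem g2001 : Good XX 15 p2001 := rs15 c2001 rfl trivial
theorem g2002 : Good XX 15 p2002 := rs15 c2002 rfl trivial
theorem g2003 : Good XX 15 p2003 := rs15 c2003 rfl ⟨g1998, ⟨g1999, ⟨g2000, ⟨g2001, ⟨g2002, trivial⟩⟩⟩⟩⟩
theorem g2004 : Good XX 15 p2004 := rs15 c2004 rfl trivial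
theorem g2005 : Good XX 15 p2005 := rs15 c2005 rfl trivial
theorem g2006 : Good XX 15 p2006 := rs15 c2006 rfl trivial
theorem g2007 : Good XX 15 p2007 := rs15 c2007 rfl trivial
theorem g2008 : Good XX 15 p2008 := rs15 c2008 rfl ⟨g2004, ⟨g2005, ⟨g2006, ⟨g2007, trivial⟩⟩⟩⟩
theorem g2009 : Good XX 15 p2009 := rs15 c2009 rfl trivial
theorem g2010 : Good XX 15 p2010 := rs15 c2010 rfl trivial
theorem g2011 : Good XX 15 p2011 := rs15 c2011 rfl trivial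
theorem g2012 : Good XX 15 p2012 := rs15 c2012 rfl ⟨g2009, ⟨g2010, ⟨g2011, trivial⟩⟩⟩
theorem g2013 : Good XX 15 p2013 := rs15 c2013 rfl trivial
theorem g2014 : Good XX 15 p2014 := rs15 c2014 rfl trivial
theorem g2015 : Good XX 15 p2015 := rs15 c2015 rfl trivial
theorem g2016 : Good XX 15 p2016 := rs15 c2016 rfl trivial
theorem g2017 : Good XX 15 p2017 := rs15 c2017 rfl ⟨g2014, ⟨g2015, ⟨g2016, trivial⟩⟩⟩
theorem g2018 : Good XX 15 p2018 := rs15 c2018 rfl trivial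
theorem g2019 : Good XX 15 p2019 := rs15 c2019 rfl trivial
theorem g2020 : Good XX 15 p2020 := rs15 c2020 rfl trivial
theorem g2021 : Good XX 15 p2021 := rs15 c2021 rfl trivial
theorem g2022 : Good XX 15 p2022 := rs15 c2022 rfl trivial
theorem g2023 : Good XX 15 p2023 := rs15 c2023 rfl trivial
theorem g2024 : Good XX 15 p2024 := rs15 c2024 rfl trivial
theorem g2025 : Good XX 15 p2025 := rs15 c2025 rfl ⟨g2021, ⟨g2022, ⟨g2023, ⟨g2024, trivial⟩⟩⟩⟩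
theorem g2026 : Good XX 15 p2026 := rs15 c2026 rfl trivial
theorem g2027 : Good XX 15 p2027 := rs15 c2027 rfl trivial
theorem g2028 : Good XX 15 p2028 := rs15 c2028 rfl trivial
theorem g2029 : Good XX 15 p2029 := rs15 c2029 rfl trivial
theorem g2030 : Good XX 15 p2030 := rs15 c2030 rfl ⟨g2026, ⟨g2027, ⟨g2028, ⟨g2029, trivial⟩⟩⟩⟩
theorem g2031 : Good XX 15 p2031 := rs15 c2031 rfl trivial
theorem g2032 : Good XX 15 p2032 := rs15 c2032 rfl trivial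
theorem g2033 : Good XX 15 p2033 := rs15 c2033 rfl ⟨g2032, trivial⟩
theorem g2034 : Good XX 15 p2034 := rs15 c2034 rfl trivial
theorem g2035 : Good XX 15 p2035 := rs15 c2035 rfl trivial
theorem g2036 : Good XX 15 p2036 := rs15 c2036 rfl trivial
theorem g2037 : Good XX 15 p2037 := rs15 c2037 rfl ⟨g2034, ⟨g2035, ⟨g2036, trivial⟩⟩⟩
theorem g2038 : Good XX 15 p2038 := rs15 c2038 rfl ⟨g1964, ⟨g1965, ⟨g1966, ⟨g1967, ⟨g1968, ⟨g1974, ⟨g1975, ⟨g1977, ⟨g1978, ⟨g1980, ⟨g1981, ⟨g1984, ⟨g1985, ⟨g1986, ⟨g1989, ⟨g1990, ⟨g1991, ⟨g1996, ⟨g1997, ⟨g2003, ⟨g2008, ⟨g2012, ⟨g2013, ⟨g2017, ⟨g2018, ⟨g2019, ⟨g2020, ⟨g2025, ⟨g2030, ⟨g2031, ⟨g2033, ⟨g2037, trivial⟩⟩⟩⟩⟩⟩⟩⟩⟩⟩⟩⟩⟩⟩⟩⟩⟩⟩⟩⟩⟩⟩⟩⟩⟩⟩⟩⟩⟩⟩⟩⟩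
theorem g2039 : Good XX 15 p2039 := rs15 c2039 rfl trivial
theorem g2040 : Good XX 15 p2040 := rs15 c2040 rfl trivial
theorem g2041 : Good XX 15 p2041 := rs15 c2041 rfl trivial
theorem g2042 : Good XX 15 p2042 := rs15 c2042 rfl ⟨g2039, ⟨g2040, ⟨g2041, trivial⟩⟩⟩
theorem g2043 : Good XX 15 p2043 := rs15 c2043 rfl trivial
theorem g2044 : Good XX 15 p2044 := rs15 c2044 rfl trivial
theorem g2045 : Good XX 15 p2045 := rs15 c2045 rfl trivial
theorem g2046 : Good XX 15 p2046 := rs15 c2046 rfl ⟨g2043, ⟨g2044, ⟨g2045, trivial⟩⟩⟩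
theorem g2047 : Good XX 15 p2047 := rs15 c2047 rfl trivial
theorem g2048 : Good XX 15 p2048 := rs15 c2048 rfl ⟨g2047, trivial⟩
theorem g2049 : Good XX 15 p2049 := rs15 c2049 rfl trivial
theorem g2050 : Good XX 15 p2050 := rs15 c2050 rfl trivial
theorem g2051 : Good XX 15 p2051 := rs15 c2051 rfl trivial
theorem g2052 : Good XX 15 p2052 := rs15 c2052 rfl trivial
theorem g2053 : Good XX 15 p2053 := rs15 c2053 rfl trivial
theorem g2054 : Good XX 15 p2054 := rs15 c2054 rfl trivial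
theorem g2055 : Good XX 15 p2055 := rs15 c2055 rfl ⟨g2051, ⟨g2052, ⟨g2053, ⟨g2054, trivial⟩⟩⟩⟩
theorem g2056 : Good XX 15 p2056 := rs15 c2056 rfl trivial
theorem g2057 : Good XX 15 p2057 := rs15 c2057 rfl trivial
theorem g2058 : Good XX 15 p2058 := rs15 c2058 rfl ⟨g2056, ⟨g2057, trivial⟩⟩
theorem g2059 : Good XX 15 p2059 := rs15 c2059 rfl trivial
theorem g2060 : Good XX 15 p2060 := rs15 c2060 rfl trivial
theorem g2061 : Good XX 15 p2061 := rs15 c2061 rfl trivial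
theorem g2062 : Good XX 15 p2062 := rs15 c2062 rfl trivial
theorem g2063 : Good XX 15 p2063 := rs15 c2063 rfl trivial
theorem g2064 : Good XX 15 p2064 := rs15 c2064 rfl trivial
theorem g2065 : Good XX 15 p2065 := rs15 c2065 rfl trivial
theorem g2066 : Good XX 15 p2066 := rs15 c2066 rfl trivial
theorem g2067 : Good XX 15 p2067 := rs15 c2067 rfl trivial
theorem g2068 : Good XX 15 p2068 := rs15 c2068 rfl ⟨g2061, ⟨g2062, ⟨g2063, ⟨g2064, ⟨g2065, ⟨g2066, ⟨g2067, trivial⟩⟩⟩⟩⟩⟩⟩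
theorem g2069 : Good XX 15 p2069 := rs15 c2069 rfl trivial
theorem g2070 : Good XX 15 p2070 := rs15 c2070 rfl trivial
theorem g2071 : Good XX 15 p2071 := rs15 c2071 rfl trivial
theorem g2072 : Good XX 15 p2072 := rs15 c2072 rfl trivial
theorem g2073 : Good XX 15 p2073 := rs15 c2073 rfl trivial
theorem g2074 : Good XX 15 p2074 := rs15 c2074 rfl trivial
theorem g2075 : Good XX 15 p2075 := rs15 c2075 rfl ⟨g2069, ⟨g2070, ⟨g2071, ⟨g2072, ⟨g2073, ⟨g2074, trivial⟩⟩⟩⟩⟩⟩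
theorem g2076 : Good XX 15 p2076 := rs15 c2076 rfl trivial
theorem g2077 : Good XX 15 p2077 := rs15 c2077 rfl ⟨g2076, trivial⟩
theorem g2078 : Good XX 15 p2078 := rs15 c2078 rfl trivial
theorem g2079 : Good XX 15 p2079 := rs15 c2079 rfl trivial
theorem g2080 : Good XX 15 p2080 := rs15 c2080 rfl trivial
theorem g2081 : Good XX 15 p2081 := rs15 c2081 rfl trivial
theorem g2082 : Good XX 15 p2082 := rs15 c2082 rfl ⟨g2078, ⟨g2079, ⟨g2080, ⟨g2081, trivial⟩⟩⟩⟩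
theorem g2083 : Good XX 15 p2083 := rs15 c2083 rfl ⟨g2048, ⟨g2049, ⟨g2050, ⟨g2055, ⟨g2058, ⟨g2059, ⟨g2060, ⟨g2068, ⟨g2075, ⟨g2077, ⟨g2082, trivial⟩⟩⟩⟩⟩⟩⟩⟩⟩⟩⟩
theorem g2084 : Good XX 15 p2084 := rs15 c2084 rfl trivial
theorem g2085 : Good XX 15 p2085 := rs15 c2085 rfl trivial
theorem g2086 : Good XX 15 p2086 := rs15 c2086 rfl trivial
theorem g2087 : Good XX 15 p2087 := rs15 c2087 rfl ⟨g2085, ⟨g2086, trivial⟩⟩
theorem g2088 : Good XX 15 p2088 := rs15 c2088 rfl trivial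
theorem g2089 : Good XX 15 p2089 := rs15 c2089 rfl trivial
theorem g2090 : Good XX 15 p2090 := rs15 c2090 rfl ⟨g2088, ⟨g2089, trivial⟩⟩
theorem g2091 : Good XX 15 p2091 := rs15 c2091 rfl trivial
theorem g2092 : Good XX 15 p2092 := rs15 c2092 rfl trivial
theorem g2093 : Good XX 15 p2093 := rs15 c2093 rfl trivial
theorem g2094 : Good XX 15 p2094 := rs15 c2094 rfl ⟨g2093, trivial⟩
theorem g2095 : Good XX 15 p2095 := rs15 c2095 rfl trivial
theorem g2096 : Good XX 15 p2096 := rs15 c2096 rfl trivial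
theorem g2097 : Good XX 15 p2097 := rs15 c2097 rfl trivial
theorem g2098 : Good XX 15 p2098 := rs15 c2098 rfl trivial
theorem g2099 : Good XX 15 p2099 := rs15 c2099 rfl trivial
theorem g2100 : Good XX 15 p2100 := rs15 c2100 rfl trivial
theorem g2101 : Good XX 15 p2101 := rs15 c2101 rfl ⟨g2097, ⟨g2098, ⟨g2099, ⟨g2100, trivial⟩⟩⟩⟩
theorem g2102 : Good XX 15 p2102 := rs15 c2102 rfl trivial
theorem g2103 : Good XX 15 p2103 := rs15 c2103 rfl trivial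
theorem g2104 : Good XX 15 p2104 := rs15 c2104 rfl trivial
theorem g2105 : Good XX 15 p2105 := rs15 c2105 rfl trivial
theorem g2106 : Good XX 15 p2106 := rs15 c2106 rfl trivial
theorem g2107 : Good XX 15 p2107 := rs15 c2107 rfl ⟨g2103, ⟨g2104, ⟨g2105, ⟨g2106, trivial⟩⟩⟩⟩
theorem g2108 : Good XX 15 p2108 := rs15 c2108 rfl trivial
theorem g2109 : Good XX 15 p2109 := rs15 c2109 rfl trivial
theorem g2110 : Good XX 15 p2110 := rs15 c2110 rfl trivial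
theorem g2111 : Good XX 15 p2111 := rs15 c2111 rfl ⟨g2108, ⟨g2109, ⟨g2110, trivial⟩⟩⟩
theorem g2112 : Good XX 15 p2112 := rs15 c2112 rfl trivial
theorem g2113 : Good XX 15 p2113 := rs15 c2113 rfl trivial
theorem g2114 : Good XX 15 p2114 := rs15 c2114 rfl ⟨g2112, ⟨g2113, trivial⟩⟩
theorem g2115 : Good XX 15 p2115 := rs15 c2115 rfl ⟨g2091, ⟨g2092, ⟨g2094, ⟨g2095, ⟨g2096, ⟨g2101, ⟨g2102, ⟨g2107, ⟨g2111, ⟨g2114, trivial⟩⟩⟩⟩⟩⟩⟩⟩⟩⟩
theorem g2116 : Good XX 15 p2116 := rs15 c2116 rfl trivial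
theorem g2117 : Good XX 15 p2117 := rs15 c2117 rfl trivial
theorem g2118 : Good XX 15 p2118 := rs15 c2118 rfl trivial
theorem g2119 : Good XX 15 p2119 := rs15 c2119 rfl trivial
theorem g2120 : Good XX 15 p2120 := rs15 c2120 rfl trivial
theorem g2121 : Good XX 15 p2121 := rs15 c2121 rfl trivial
theorem g2122 : Good XX 15 p2122 := rs15 c2122 rfl trivial
theorem g2123 : Good XX 15 p2123 := rs15 c2123 rfl ⟨g2121, ⟨g2122, trivial⟩⟩
theorem g2124 : Good XX 15 p2124 := rs15 c2124 rfl ⟨g2116, ⟨g2117, ⟨g2118, ⟨g2119, ⟨g2120, ⟨g2123, trivial⟩⟩⟩⟩⟩⟩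
theorem g2125 : Good XX 15 p2125 := rs15 c2125 rfl trivial
theorem g2126 : Good XX 15 p2126 := rs15 c2126 rfl trivial
theorem g2127 : Good XX 15 p2127 := rs15 c2127 rfl ⟨g2126, trivial⟩
theorem g2128 : Good XX 15 p2128 := rs15 c2128 rfl ⟨g2125, ⟨g2127, trivial⟩⟩
theorem g2129 : Good XX 15 p2129 := rs15 c2129 rfl trivial
theorem g2130 : Good XX 15 p2130 := rs15 c2130 rfl trivial
theorem g2131 : Good XX 15 p2131 := rs15 c2131 rfl trivial
theorem g2132 : Good XX 15 p2132 := rs15 c2132 rfl trivial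
theorem g2133 : Good XX 15 p2133 := rs15 c2133 rfl trivial
theorem g2134 : Good XX 15 p2134 := rs15 c2134 rfl trivial
theorem g2135 : Good XX 15 p2135 := rs15 c2135 rfl ⟨g2132, ⟨g2133, ⟨g2134, trivial⟩⟩⟩
theorem g2136 : Good XX 15 p2136 := rs15 c2136 rfl trivial
theorem g2137 : Good XX 15 p2137 := rs15 c2137 rfl ⟨g2136, trivial⟩
theorem g2138 : Good XX 15 p2138 := rs15 c2138 rfl trivial
theorem g2139 : Good XX 15 p2139 := rs15 c2139 rfl ⟨g2138, trivial⟩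
theorem g2140 : Good XX 15 p2140 := rs15 c2140 rfl trivial
theorem g2141 : Good XX 15 p2141 := rs15 c2141 rfl ⟨g2140, trivial⟩
theorem g2142 : Good XX 15 p2142 := rs15 c2142 rfl trivial
theorem g2143 : Good XX 15 p2143 := rs15 c2143 rfl trivial
theorem g2144 : Good XX 15 p2144 := rs15 c2144 rfl trivial
theorem g2145 : Good XX 15 p2145 := rs15 c2145 rfl trivial
theorem g2146 : Good XX 15 p2146 := rs15 c2146 rfl trivial
theorem g2147 : Good XX 15 p2147 := rs15 c2147 rfl ⟨g2142, ⟨g2143, ⟨g2144, ⟨g2145, ⟨g2146, trivial⟩⟩⟩⟩⟩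
theorem g2148 : Good XX 15 p2148 := rs15 c2148 rfl trivial
theorem g2149 : Good XX 15 p2149 := rs15 c2149 rfl trivial
theorem g2150 : Good XX 15 p2150 := rs15 c2150 rfl trivial
theorem g2151 : Good XX 15 p2151 := rs15 c2151 rfl trivial
theorem g2152 : Good XX 15 p2152 := rs15 c2152 rfl trivial
theorem g2153 : Good XX 15 p2153 := rs15 c2153 rfl ⟨g2148, ⟨g2149, ⟨g2150, ⟨g2151, ⟨g2152, trivial⟩⟩⟩⟩⟩
theorem g2154 : Good XX 15 p2154 := rs15 c2154 rfl trivial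
theorem g2155 : Good XX 15 p2155 := rs15 c2155 rfl trivial
theorem g2156 : Good XX 15 p2156 := rs15 c2156 rfl ⟨g2154, ⟨g2155, trivial⟩⟩
theorem g2157 : Good XX 15 p2157 := rs15 c2157 rfl ⟨g2129, ⟨g2130, ⟨g2131, ⟨g2135, ⟨g2137, ⟨g2139, ⟨g2141, ⟨g2147, ⟨g2153, ⟨g2156, trivial⟩⟩⟩⟩⟩⟩⟩⟩⟩⟩
theorem g2158 : Good XX 15 p2158 := rs15 c2158 rfl trivial
theorem g2159 : Good XX 15 p2159 := rs15 c2159 rfl trivial
theorem g2160 : Good XX 15 p2160 := rs15 c2160 rfl trivial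
theorem g2161 : Good XX 15 p2161 := rs15 c2161 rfl trivial
theorem g2162 : Good XX 15 p2162 := rs15 c2162 rfl trivial
theorem g2163 : Good XX 15 p2163 := rs15 c2163 rfl ⟨g2161, ⟨g2162, trivial⟩⟩
theorem g2164 : Good XX 15 p2164 := rs15 c2164 rfl trivial
theorem g2165 : Good XX 15 p2165 := rs15 c2165 rfl ⟨g2164, trivial⟩
theorem g2166 : Good XX 15 p2166 := rs15 c2166 rfl trivial
theorem g2167 : Good XX 15 p2167 := rs15 c2167 rfl ⟨g2166, trivial⟩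
theorem g2168 : Good XX 15 p2168 := rs15 c2168 rfl trivial
theorem g2169 : Good XX 15 p2169 := rs15 c2169 rfl trivial
theorem g2170 : Good XX 15 p2170 := rs15 c2170 rfl trivial
theorem g2171 : Good XX 15 p2171 := rs15 c2171 rfl trivial
theorem g2172 : Good XX 15 p2172 := rs15 c2172 rfl trivial
theorem g2173 : Good XX 15 p2173 := rs15 c2173 rfl ⟨g2168, ⟨g2169, ⟨g2170, ⟨g2171, ⟨g2172, trivial⟩⟩⟩⟩⟩
theorem g2174 : Good XX 15 p2174 := rs15 c2174 rfl trivial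
theorem g2175 : Good XX 15 p2175 := rs15 c2175 rfl trivial
theorem g2176 : Good XX 15 p2176 := rs15 c2176 rfl trivial
theorem g2177 : Good XX 15 p2177 := rs15 c2177 rfl trivial
theorem g2178 : Good XX 15 p2178 := rs15 c2178 rfl trivial
theorem g2179 : Good XX 15 p2179 := rs15 c2179 rfl trivial
theorem g2180 : Good XX 15 p2180 := rs15 c2180 rfl ⟨g2175, ⟨g2176, ⟨g2177, ⟨g2178, ⟨g2179, trivial⟩⟩⟩⟩⟩
theorem g2181 : Good XX 15 p2181 := rs15 c2181 rfl trivial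
theorem g2182 : Good XX 15 p2182 := rs15 c2182 rfl trivial
theorem g2183 : Good XX 15 p2183 := rs15 c2183 rfl ⟨g2181, ⟨g2182, trivial⟩⟩
theorem g2184 : Good XX 15 p2184 := rs15 c2184 rfl ⟨g2158, ⟨g2159, ⟨g2160, ⟨g2163, ⟨g2165, ⟨g2167, ⟨g2173, ⟨g2174, ⟨g2180, ⟨g2183, trivial⟩⟩⟩⟩⟩⟩⟩⟩⟩⟩
theorem g2185 : Good XX 15 p2185 := rs15 c2185 rfl trivial
theorem g2186 : Good XX 15 p2186 := rs15 c2186 rfl trivial
theorem g2187 : Good XX 15 p2187 := rs15 c2187 rfl trivial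
theorem g2188 : Good XX 15 p2188 := rs15 c2188 rfl trivial
theorem g2189 : Good XX 15 p2189 := rs15 c2189 rfl trivial
theorem g2190 : Good XX 15 p2190 := rs15 c2190 rfl trivial
theorem g2191 : Good XX 15 p2191 := rs15 c2191 rfl trivial
theorem g2192 : Good XX 15 p2192 := rs15 c2192 rfl trivial
theorem g2193 : Good XX 15 p2193 := rs15 c2193 rfl ⟨g2190, ⟨g2191, ⟨g2192, trivial⟩⟩⟩
theorem g2194 : Good XX 15 p2194 := rs15 c2194 rfl trivial
theorem g2195 : Good XX 15 p2195 := rs15 c2195 rfl trivial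
theorem g2196 : Good XX 15 p2196 := rs15 c2196 rfl ⟨g2194, ⟨g2195, trivial⟩⟩
theorem g2197 : Good XX 15 p2197 := rs15 c2197 rfl trivial
theorem g2198 : Good XX 15 p2198 := rs15 c2198 rfl trivial
theorem g2199 : Good XX 15 p2199 := rs15 c2199 rfl ⟨g2197, ⟨g2198, trivial⟩⟩
theorem g2200 : Good XX 15 p2200 := rs15 c2200 rfl trivial
theorem g2201 : Good XX 15 p2201 := rs15 c2201 rfl trivial
theorem g2202 : Good XX 15 p2202 := rs15 c2202 rfl ⟨g2200, ⟨g2201, trivial⟩⟩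
theorem g2203 : Good XX 15 p2203 := rs15 c2203 rfl trivial
theorem g2204 : Good XX 15 p2204 := rs15 c2204 rfl ⟨g2203, trivial⟩
theorem g2205 : Good XX 15 p2205 := rs15 c2205 rfl trivial
theorem g2206 : Good XX 15 p2206 := rs15 c2206 rfl trivial
theorem g2207 : Good XX 15 p2207 := rs15 c2207 rfl trivial
theorem g2208 : Good XX 15 p2208 := rs15 c2208 rfl trivial
theorem g2209 : Good XX 15 p2209 := rs15 c2209 rfl trivial
theorem g2210 : Good XX 15 p2210 := rs15 c2210 rfl trivial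
theorem g2211 : Good XX 15 p2211 := rs15 c2211 rfl ⟨g2205, ⟨g2206, ⟨g2207, ⟨g2208, ⟨g2209, ⟨g2210, trivial⟩⟩⟩⟩⟩⟩
theorem g2212 : Good XX 15 p2212 := rs15 c2212 rfl trivial
theorem g2213 : Good XX 15 p2213 := rs15 c2213 rfl trivial
theorem g2214 : Good XX 15 p2214 := rs15 c2214 rfl trivial
theorem g2215 : Good XX 15 p2215 := rs15 c2215 rfl ⟨g2212, ⟨g2213, ⟨g2214, trivial⟩⟩⟩
theorem g2216 : Good XX 15 p2216 := rs15 c2216 rfl trivial
theorem g2217 : Good XX 15 p2217 := rs15 c2217 rfl trivial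
theorem g2218 : Good XX 15 p2218 := rs15 c2218 rfl trivial
theorem g2219 : Good XX 15 p2219 := rs15 c2219 rfl trivial
theorem g2220 : Good XX 15 p2220 := rs15 c2220 rfl trivial
theorem g2221 : Good XX 15 p2221 := rs15 c2221 rfl trivial
theorem g2222 : Good XX 15 p2222 := rs15 c2222 rfl ⟨g2216, ⟨g2217, ⟨g2218, ⟨g2219, ⟨g2220, ⟨g2221, trivial⟩⟩⟩⟩⟩⟩
theorem g2223 : Good XX 15 p2223 := rs15 c2223 rfl trivial
theorem g2224 : Good XX 15 p2224 := rs15 c2224 rfl trivial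
theorem g2225 : Good XX 15 p2225 := rs15 c2225 rfl ⟨g2223, ⟨g2224, trivial⟩⟩
theorem g2226 : Good XX 15 p2226 := rs15 c2226 rfl trivial
theorem g2227 : Good XX 15 p2227 := rs15 c2227 rfl trivial
theorem g2228 : Good XX 15 p2228 := rs15 c2228 rfl trivial
theorem g2229 : Good XX 15 p2229 := rs15 c2229 rfl trivial
theorem g2230 : Good XX 15 p2230 := rs15 c2230 rfl trivial
theorem g2231 : Good XX 15 p2231 := rs15 c2231 rfl trivial
theorem g2232 : Good XX 15 p2232 := rs15 c2232 rfl trivial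
theorem g2233 : Good XX 15 p2233 := rs15 c2233 rfl trivial
theorem g2234 : Good XX 15 p2234 := rs15 c2234 rfl trivial
theorem g2235 : Good XX 15 p2235 := rs15 c2235 rfl trivial
theorem g2236 : Good XX 15 p2236 := rs15 c2236 rfl ⟨g2226, ⟨g2227, ⟨g2228, ⟨g2229, ⟨g2230, ⟨g2231, ⟨g2232, ⟨g2233, ⟨g2234, ⟨g2235, trivial⟩⟩⟩⟩⟩⟩⟩⟩⟩⟩
theorem g2237 : Good XX 15 p2237 := rs15 c2237 rfl ⟨g2185, ⟨g2186, ⟨g2187, ⟨g2188, ⟨g2189, ⟨g2193, ⟨g2196, ⟨g2199, ⟨g2202, ⟨g2204, ⟨g2211, ⟨g2215, ⟨g2222, ⟨g2225, ⟨g2236, trivial⟩⟩⟩⟩⟩⟩⟩⟩⟩⟩⟩⟩⟩⟩⟩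
theorem g2238 : Good XX 15 p2238 := rs15 c2238 rfl ⟨g2042, ⟨g2046, ⟨g2083, ⟨g2084, ⟨g2087, ⟨g2090, ⟨g2115, ⟨g2124, ⟨g2128, ⟨g2157, ⟨g2184, ⟨g2237, trivial⟩⟩⟩⟩⟩⟩⟩⟩⟩⟩⟩⟩
theorem g2239 : Good XX 15 p2239 := rs15 c2239 rfl trivial
theorem g2240 : Good XX 15 p2240 := rs15 c2240 rfl trivial
theorem g2241 : Good XX 15 p2241 := rs15 c2241 rfl trivial
theorem g2242 : Good XX 15 p2242 := rs15 c2242 rfl trivial
theorem g2243 : Good XX 15 p2243 := rs15 c2243 rfl ⟨g2239, ⟨g2240, ⟨g2241, ⟨g2242, trivial⟩⟩⟩⟩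
theorem g2244 : Good XX 15 p2244 := rs15 c2244 rfl trivial
theorem g2245 : Good XX 15 p2245 := rs15 c2245 rfl trivial
theorem g2246 : Good XX 15 p2246 := rs15 c2246 rfl trivial
theorem g2247 : Good XX 15 p2247 := rs15 c2247 rfl trivial
theorem g2248 : Good XX 15 p2248 := rs15 c2248 rfl trivial
theorem g2249 : Good XX 15 p2249 := rs15 c2249 rfl trivial
theorem g2250 : Good XX 15 p2250 := rs15 c2250 rfl trivial
theorem g2251 : Good XX 15 p2251 := rs15 c2251 rfl ⟨g2249, ⟨g2250, trivial⟩⟩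
theorem g2252 : Good XX 15 p2252 := rs15 c2252 rfl trivial
theorem g2253 : Good XX 15 p2253 := rs15 c2253 rfl ⟨g2244, ⟨g2245, ⟨g2246, ⟨g2247, ⟨g2248, ⟨g2251, ⟨g2252, trivial⟩⟩⟩⟩⟩⟩⟩
theorem g2254 : Good XX 15 p2254 := rs15 c2254 rfl trivial
theorem g2255 : Good XX 15 p2255 := rs15 c2255 rfl trivial
theorem g2256 : Good XX 15 p2256 := rs15 c2256 rfl ⟨g2255, trivial⟩
theorem g2257 : Good XX 15 p2257 := rs15 c2257 rfl trivial
theorem g2258 : Good XX 15 p2258 := rs15 c2258 rfl trivial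
theorem g2259 : Good XX 15 p2259 := rs15 c2259 rfl ⟨g2258, trivial⟩
theorem g2260 : Good XX 15 p2260 := rs15 c2260 rfl trivial
theorem g2261 : Good XX 15 p2261 := rs15 c2261 rfl trivial
theorem g2262 : Good XX 15 p2262 := rs15 c2262 rfl trivial
theorem g2263 : Good XX 15 p2263 := rs15 c2263 rfl trivial
theorem g2264 : Good XX 15 p2264 := rs15 c2264 rfl ⟨g2260, ⟨g2261, ⟨g2262, ⟨g2263, trivial⟩⟩⟩⟩
theorem g2265 : Good XX 15 p2265 := rs15 c2265 rfl trivial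
theorem g2266 : Good XX 15 p2266 := rs15 c2266 rfl trivial
theorem g2267 : Good XX 15 p2267 := rs15 c2267 rfl trivial
theorem g2268 : Good XX 15 p2268 := rs15 c2268 rfl ⟨g2265, ⟨g2266, ⟨g2267, trivial⟩⟩⟩
theorem g2269 : Good XX 15 p2269 := rs15 c2269 rfl trivial
theorem g2270 : Good XX 15 p2270 := rs15 c2270 rfl trivial
theorem g2271 : Good XX 15 p2271 := rs15 c2271 rfl trivial
theorem g2272 : Good XX 15 p2272 := rs15 c2272 rfl ⟨g2269, ⟨g2270, ⟨g2271, trivial⟩⟩⟩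
theorem g2273 : Good XX 15 p2273 := rs15 c2273 rfl ⟨g2254, ⟨g2256, ⟨g2257, ⟨g2259, ⟨g2264, ⟨g2268, ⟨g2272, trivial⟩⟩⟩⟩⟩⟩⟩
theorem g2274 : Good XX 15 p2274 := rs15 c2274 rfl trivial
theorem g2275 : Good XX 15 p2275 := rs15 c2275 rfl trivial
theorem g2276 : Good XX 15 p2276 := rs15 c2276 rfl trivial
theorem g2277 : Good XX 15 p2277 := rs15 c2277 rfl trivial
theorem g2278 : Good XX 15 p2278 := rs15 c2278 rfl trivial
theorem g2279 : Good XX 15 p2279 := rs15 c2279 rfl trivial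
theorem g2280 : Good XX 15 p2280 := rs15 c2280 rfl ⟨g2277, ⟨g2278, ⟨g2279, trivial⟩⟩⟩
theorem g2281 : Good XX 15 p2281 := rs15 c2281 rfl trivial
theorem g2282 : Good XX 15 p2282 := rs15 c2282 rfl ⟨g2274, ⟨g2275, ⟨g2276, ⟨g2280, ⟨g2281, trivial⟩⟩⟩⟩⟩
theorem g2283 : Good XX 15 p2283 := rs15 c2283 rfl trivial
theorem g2284 : Good XX 15 p2284 := rs15 c2284 rfl trivial
theorem g2285 : Good XX 15 p2285 := rs15 c2285 rfl trivial
theorem g2286 : Good XX 15 p2286 := rs15 c2286 rfl ⟨g2284, ⟨g2285, trivial⟩⟩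
theorem g2287 : Good XX 15 p2287 := rs15 c2287 rfl trivial
theorem g2288 : Good XX 15 p2288 := rs15 c2288 rfl trivial
theorem g2289 : Good XX 15 p2289 := rs15 c2289 rfl ⟨g2283, ⟨g2286, ⟨g2287, ⟨g2288, trivial⟩⟩⟩⟩
theorem g2290 : Good XX 15 p2290 := rs15 c2290 rfl trivial
theorem g2291 : Good XX 15 p2291 := rs15 c2291 rfl trivial
theorem g2292 : Good XX 15 p2292 := rs15 c2292 rfl trivial
theorem g2293 : Good XX 15 p2293 := rs15 c2293 rfl trivial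
theorem g2294 : Good XX 15 p2294 := rs15 c2294 rfl ⟨g2292, ⟨g2293, trivial⟩⟩
theorem g2295 : Good XX 15 p2295 := rs15 c2295 rfl trivial
theorem g2296 : Good XX 15 p2296 := rs15 c2296 rfl trivial
theorem g2297 : Good XX 15 p2297 := rs15 c2297 rfl ⟨g2296, trivial⟩
theorem g2298 : Good XX 15 p2298 := rs15 c2298 rfl trivial
theorem g2299 : Good XX 15 p2299 := rs15 c2299 rfl trivial
theorem g2300 : Good XX 15 p2300 := rs15 c2300 rfl ⟨g2299, trivial⟩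
theorem g2301 : Good XX 15 p2301 := rs15 c2301 rfl trivial
theorem g2302 : Good XX 15 p2302 := rs15 c2302 rfl ⟨g2301, trivial⟩
theorem g2303 : Good XX 15 p2303 := rs15 c2303 rfl ⟨g2290, ⟨g2291, ⟨g2294, ⟨g2295, ⟨g2297, ⟨g2298, ⟨g2300, ⟨g2302, trivial⟩⟩⟩⟩⟩⟩⟩⟩
theorem g2304 : Good XX 15 p2304 := rs15 c2304 rfl trivial
theorem g2305 : Good XX 15 p2305 := rs15 c2305 rfl trivial
theorem g2306 : Good XX 15 p2306 := rs15 c2306 rfl trivial
theorem g2307 : Good XX 15 p2307 := rs15 c2307 rfl trivial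
theorem g2308 : Good XX 15 p2308 := rs15 c2308 rfl trivial
theorem g2309 : Good XX 15 p2309 := rs15 c2309 rfl trivial
theorem g2310 : Good XX 15 p2310 := rs15 c2310 rfl ⟨g2307, ⟨g2308, ⟨g2309, trivial⟩⟩⟩
theorem g2311 : Good XX 15 p2311 := rs15 c2311 rfl trivial
theorem g2312 : Good XX 15 p2312 := rs15 c2312 rfl trivial
theorem g2313 : Good XX 15 p2313 := rs15 c2313 rfl ⟨g2312, trivial⟩
theorem g2314 : Good XX 15 p2314 := rs15 c2314 rfl trivial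
theorem g2315 : Good XX 15 p2315 := rs15 c2315 rfl trivial
theorem g2316 : Good XX 15 p2316 := rs15 c2316 rfl trivial
theorem g2317 : Good XX 15 p2317 := rs15 c2317 rfl trivial
theorem g2318 : Good XX 15 p2318 := rs15 c2318 rfl trivial
theorem g2319 : Good XX 15 p2319 := rs15 c2319 rfl ⟨g2314, ⟨g2315, ⟨g2316, ⟨g2317, ⟨g2318, trivial⟩⟩⟩⟩⟩
theorem g2320 : Good XX 15 p2320 := rs15 c2320 rfl trivial
theorem g2321 : Good XX 15 p2321 := rs15 c2321 rfl trivial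
theorem g2322 : Good XX 15 p2322 := rs15 c2322 rfl trivial
theorem g2323 : Good XX 15 p2323 := rs15 c2323 rfl trivial
theorem g2324 : Good XX 15 p2324 := rs15 c2324 rfl trivial
theorem g2325 : Good XX 15 p2325 := rs15 c2325 rfl trivial
theorem g2326 : Good XX 15 p2326 := rs15 c2326 rfl ⟨g2321, ⟨g2322, ⟨g2323, ⟨g2324, ⟨g2325, trivial⟩⟩⟩⟩⟩
theorem g2327 : Good XX 15 p2327 := rs15 c2327 rfl trivial
theorem g2328 : Good XX 15 p2328 := rs15 c2328 rfl trivial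
theorem g2329 : Good XX 15 p2329 := rs15 c2329 rfl ⟨g2327, ⟨g2328, trivial⟩⟩
theorem g2330 : Good XX 15 p2330 := rs15 c2330 rfl ⟨g2304, ⟨g2305, ⟨g2306, ⟨g2310, ⟨g2311, ⟨g2313, ⟨g2319, ⟨g2320, ⟨g2326, ⟨g2329, trivial⟩⟩⟩⟩⟩⟩⟩⟩⟩⟩
theorem g2331 : Good XX 15 p2331 := rs15 c2331 rfl trivial
theorem g2332 : Good XX 15 p2332 := rs15 c2332 rfl trivial
theorem g2333 : Good XX 15 p2333 := rs15 c2333 rfl trivial
theorem g2334 : Good XX 15 p2334 := rs15 c2334 rfl trivial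
theorem g2335 : Good XX 15 p2335 := rs15 c2335 rfl trivial
theorem g2336 : Good XX 15 p2336 := rs15 c2336 rfl ⟨g2335, trivial⟩
theorem g2337 : Good XX 15 p2337 := rs15 c2337 rfl trivial
theorem g2338 : Good XX 15 p2338 := rs15 c2338 rfl trivial
theorem g2339 : Good XX 15 p2339 := rs15 c2339 rfl trivial
theorem g2340 : Good XX 15 p2340 := rs15 c2340 rfl ⟨g2338, ⟨g2339, trivial⟩⟩
theorem g2341 : Good XX 15 p2341 := rs15 c2341 rfl trivial
theorem g2342 : Good XX 15 p2342 := rs15 c2342 rfl trivial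
theorem g2343 : Good XX 15 p2343 := rs15 c2343 rfl trivial
theorem g2344 : Good XX 15 p2344 := rs15 c2344 rfl ⟨g2342, ⟨g2343, trivial⟩⟩
theorem g2345 : Good XX 15 p2345 := rs15 c2345 rfl trivial
theorem g2346 : Good XX 15 p2346 := rs15 c2346 rfl trivial
theorem g2347 : Good XX 15 p2347 := rs15 c2347 rfl trivial
theorem g2348 : Good XX 15 p2348 := rs15 c2348 rfl trivial
theorem g2349 : Good XX 15 p2349 := rs15 c2349 rfl trivial
theorem g2350 : Good XX 15 p2350 := rs15 c2350 rfl ⟨g2345, ⟨g2346, ⟨g2347, ⟨g2348, ⟨g2349, trivial⟩⟩⟩⟩⟩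
theorem g2351 : Good XX 15 p2351 := rs15 c2351 rfl trivial
theorem g2352 : Good XX 15 p2352 := rs15 c2352 rfl trivial
theorem g2353 : Good XX 15 p2353 := rs15 c2353 rfl ⟨g2351, ⟨g2352, trivial⟩⟩
theorem g2354 : Good XX 15 p2354 := rs15 c2354 rfl trivial
theorem g2355 : Good XX 15 p2355 := rs15 c2355 rfl trivial
theorem g2356 : Good XX 15 p2356 := rs15 c2356 rfl ⟨g2354, ⟨g2355, trivial⟩⟩
theorem g2357 : Good XX 15 p2357 := rs15 c2357 rfl trivial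
theorem g2358 : Good XX 15 p2358 := rs15 c2358 rfl trivial
theorem g2359 : Good XX 15 p2359 := rs15 c2359 rfl trivial
theorem g2360 : Good XX 15 p2360 := rs15 c2360 rfl trivial
theorem g2361 : Good XX 15 p2361 := rs15 c2361 rfl ⟨g2357, ⟨g2358, ⟨g2359, ⟨g2360, trivial⟩⟩⟩⟩
theorem g2362 : Good XX 15 p2362 := rs15 c2362 rfl trivial
theorem g2363 : Good XX 15 p2363 := rs15 c2363 rfl trivial
theorem g2364 : Good XX 15 p2364 := rs15 c2364 rfl trivial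
theorem g2365 : Good XX 15 p2365 := rs15 c2365 rfl trivial
theorem g2366 : Good XX 15 p2366 := rs15 c2366 rfl trivial
theorem g2367 : Good XX 15 p2367 := rs15 c2367 rfl trivial
theorem g2368 : Good XX 15 p2368 := rs15 c2368 rfl trivial
theorem g2369 : Good XX 15 p2369 := rs15 c2369 rfl trivial
theorem g2370 : Good XX 15 p2370 := rs15 c2370 rfl trivial
theorem g2371 : Good XX 15 p2371 := rs15 c2371 rfl ⟨g2362, ⟨g2363, ⟨g2364, ⟨g2365, ⟨g2366, ⟨g2367, ⟨g2368, ⟨g2369, ⟨g2370, trivial⟩⟩⟩⟩⟩⟩⟩⟩⟩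
theorem g2372 : Good XX 15 p2372 := rs15 c2372 rfl trivial
theorem g2373 : Good XX 15 p2373 := rs15 c2373 rfl trivial
theorem g2374 : Good XX 15 p2374 := rs15 c2374 rfl ⟨g2372, ⟨g2373, trivial⟩⟩
theorem g2375 : Good XX 15 p2375 := rs15 c2375 rfl ⟨g2331, ⟨g2332, ⟨g2333, ⟨g2334, ⟨g2336, ⟨g2337, ⟨g2340, ⟨g2341, ⟨g2344, ⟨g2350, ⟨g2353, ⟨g2356, ⟨g2361, ⟨g2371, ⟨g2374, trivial⟩⟩⟩⟩⟩⟩⟩⟩⟩⟩⟩⟩⟩⟩⟩
theorem g2376 : Good XX 15 p2376 := rs15 c2376 rfl trivial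
theorem g2377 : Good XX 15 p2377 := rs15 c2377 rfl trivial
theorem g2378 : Good XX 15 p2378 := rs15 c2378 rfl trivial
theorem g2379 : Good XX 15 p2379 := rs15 c2379 rfl trivial
theorem g2380 : Good XX 15 p2380 := rs15 c2380 rfl ⟨g2378, ⟨g2379, trivial⟩⟩
theorem g2381 : Good XX 15 p2381 := rs15 c2381 rfl trivial
theorem g2382 : Good XX 15 p2382 := rs15 c2382 rfl trivial
theorem g2383 : Good XX 15 p2383 := rs15 c2383 rfl trivial
theorem g2384 : Good XX 15 p2384 := rs15 c2384 rfl trivial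
theorem g2385 : Good XX 15 p2385 := rs15 c2385 rfl trivial
theorem g2386 : Good XX 15 p2386 := rs15 c2386 rfl ⟨g2383, ⟨g2384, ⟨g2385, trivial⟩⟩⟩
theorem g2387 : Good XX 15 p2387 := rs15 c2387 rfl trivial
theorem g2388 : Good XX 15 p2388 := rs15 c2388 rfl trivial
theorem g2389 : Good XX 15 p2389 := rs15 c2389 rfl trivial
theorem g2390 : Good XX 15 p2390 := rs15 c2390 rfl trivial
theorem g2391 : Good XX 15 p2391 := rs15 c2391 rfl trivial
theorem g2392 : Good XX 15 p2392 := rs15 c2392 rfl ⟨g2388, ⟨g2389, ⟨g2390, ⟨g2391, trivial⟩⟩⟩⟩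
theorem g2393 : Good XX 15 p2393 := rs15 c2393 rfl trivial
theorem g2394 : Good XX 15 p2394 := rs15 c2394 rfl trivial
theorem g2395 : Good XX 15 p2395 := rs15 c2395 rfl trivial
theorem g2396 : Good XX 15 p2396 := rs15 c2396 rfl trivial
theorem g2397 : Good XX 15 p2397 := rs15 c2397 rfl trivial
theorem g2398 : Good XX 15 p2398 := rs15 c2398 rfl trivial
theorem g2399 : Good XX 15 p2399 := rs15 c2399 rfl ⟨g2393, ⟨g2394, ⟨g2395, ⟨g2396, ⟨g2397, ⟨g2398, trivial⟩⟩⟩⟩⟩⟩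
theorem g2400 : Good XX 15 p2400 := rs15 c2400 rfl trivial
theorem g2401 : Good XX 15 p2401 := rs15 c2401 rfl trivial
theorem g2402 : Good XX 15 p2402 := rs15 c2402 rfl trivial
theorem g2403 : Good XX 15 p2403 := rs15 c2403 rfl trivial
theorem g2404 : Good XX 15 p2404 := rs15 c2404 rfl trivial
theorem g2405 : Good XX 15 p2405 := rs15 c2405 rfl trivial
theorem g2406 : Good XX 15 p2406 := rs15 c2406 rfl trivial
theorem g2407 : Good XX 15 p2407 := rs15 c2407 rfl trivial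
theorem g2408 : Good XX 15 p2408 := rs15 c2408 rfl trivial
theorem g2409 : Good XX 15 p2409 := rs15 c2409 rfl trivial
theorem g2410 : Good XX 15 p2410 := rs15 c2410 rfl ⟨g2400, ⟨g2401, ⟨g2402, ⟨g2403, ⟨g2404, ⟨g2405, ⟨g2406, ⟨g2407, ⟨g2408, ⟨g2409, trivial⟩⟩⟩⟩⟩⟩⟩⟩⟩⟩
theorem g2411 : Good XX 15 p2411 := rs15 c2411 rfl trivial
theorem g2412 : Good XX 15 p2412 := rs15 c2412 rfl trivial
theorem g2413 : Good XX 15 p2413 := rs15 c2413 rfl ⟨g2412, trivial⟩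
theorem g2414 : Good XX 15 p2414 := rs15 c2414 rfl trivial
theorem g2415 : Good XX 15 p2415 := rs15 c2415 rfl trivial
theorem g2416 : Good XX 15 p2416 := rs15 c2416 rfl ⟨g2414, ⟨g2415, trivial⟩⟩
theorem g2417 : Good XX 15 p2417 := rs15 c2417 rfl trivial
theorem g2418 : Good XX 15 p2418 := rs15 c2418 rfl trivial
theorem g2419 : Good XX 15 p2419 := rs15 c2419 rfl ⟨g2417, ⟨g2418, trivial⟩⟩
theorem g2420 : Good XX 15 p2420 := rs15 c2420 rfl ⟨g2376, ⟨g2377, ⟨g2380, ⟨g2381, ⟨g2382, ⟨g2386, ⟨g2387, ⟨g2392, ⟨g2399, ⟨g2410, ⟨g2411, ⟨g2413, ⟨g2416, ⟨g2419, trivial⟩⟩⟩⟩⟩⟩⟩⟩⟩⟩⟩⟩⟩⟩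
theorem g2421 : Good XX 15 p2421 := rs15 c2421 rfl trivial
theorem g2422 : Good XX 15 p2422 := rs15 c2422 rfl trivial
theorem g2423 : Good XX 15 p2423 := rs15 c2423 rfl trivial
theorem g2424 : Good XX 15 p2424 := rs15 c2424 rfl trivial
theorem g2425 : Good XX 15 p2425 := rs15 c2425 rfl ⟨g2424, trivial⟩
theorem g2426 : Good XX 15 p2426 := rs15 c2426 rfl trivial
theorem g2427 : Good XX 15 p2427 := rs15 c2427 rfl trivial
theorem g2428 : Good XX 15 p2428 := rs15 c2428 rfl ⟨g2426, ⟨g2427, trivial⟩⟩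
theorem g2429 : Good XX 15 p2429 := rs15 c2429 rfl trivial
theorem g2430 : Good XX 15 p2430 := rs15 c2430 rfl trivial
theorem g2431 : Good XX 15 p2431 := rs15 c2431 rfl ⟨g2429, ⟨g2430, trivial⟩⟩
theorem g2432 : Good XX 15 p2432 := rs15 c2432 rfl trivial
theorem g2433 : Good XX 15 p2433 := rs15 c2433 rfl trivial
theorem g2434 : Good XX 15 p2434 := rs15 c2434 rfl ⟨g2432, ⟨g2433, trivial⟩⟩
theorem g2435 : Good XX 15 p2435 := rs15 c2435 rfl ⟨g2421, ⟨g2422, ⟨g2423, ⟨g2425, ⟨g2428, ⟨g2431, ⟨g2434, trivial⟩⟩⟩⟩⟩⟩⟩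
theorem g2436 : Good XX 15 p2436 := rs15 c2436 rfl ⟨g1654, ⟨g1655, ⟨g1660, ⟨g1874, ⟨g1934, ⟨g1938, ⟨g1941, ⟨g1942, ⟨g1943, ⟨g1963, ⟨g2038, ⟨g2238, ⟨g2243, ⟨g2253, ⟨g2273, ⟨g2282, ⟨g2289, ⟨g2303, ⟨g2330, ⟨g2375, ⟨g2420, ⟨g2435, trivial⟩⟩⟩⟩⟩⟩⟩⟩⟩⟩⟩⟩⟩⟩⟩⟩⟩⟩⟩⟩⟩⟩
theorem g2437 : Good XX 15 p2437 := rs15 c2437 rfl trivial
theorem g2438 : Good XX 15 p2438 := rs15 c2438 rfl trivial
theorem g2439 : Good XX 15 p2439 := rs15 c2439 rfl trivial
theorem g2440 : Good XX 15 p2440 := rs15 c2440 rfl trivial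
theorem g2441 : Good XX 15 p2441 := rs15 c2441 rfl ⟨g2440, trivial⟩
theorem g2442 : Good XX 15 p2442 := rs15 c2442 rfl trivial
theorem g2443 : Good XX 15 p2443 := rs15 c2443 rfl ⟨g2442, trivial⟩
theorem g2444 : Good XX 15 p2444 := rs15 c2444 rfl trivial
theorem g2445 : Good XX 15 p2445 := rs15 c2445 rfl trivial
theorem g2446 : Good XX 15 p2446 := rs15 c2446 rfl trivial
theorem g2447 : Good XX 15 p2447 := rs15 c2447 rfl trivial
theorem g2448 : Good XX 15 p2448 := rs15 c2448 rfl trivial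
theorem g2449 : Good XX 15 p2449 := rs15 c2449 rfl trivial
theorem g2450 : Good XX 15 p2450 := rs15 c2450 rfl trivial
theorem g2451 : Good XX 15 p2451 := rs15 c2451 rfl trivial
theorem g2452 : Good XX 15 p2452 := rs15 c2452 rfl ⟨g2448, ⟨g2449, ⟨g2450, ⟨g2451, trivial⟩⟩⟩⟩
theorem g2453 : Good XX 15 p2453 := rs15 c2453 rfl trivial
theorem g2454 : Good XX 15 p2454 := rs15 c2454 rfl ⟨g2453, trivial⟩
theorem g2455 : Good XX 15 p2455 := rs15 c2455 rfl ⟨g2444, ⟨g2445, ⟨g2446, ⟨g2447, ⟨g2452, ⟨g2454, trivial⟩⟩⟩⟩⟩⟩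
theorem g2456 : Good XX 15 p2456 := rs15 c2456 rfl ⟨g2437, ⟨g2438, ⟨g2439, ⟨g2441, ⟨g2443, ⟨g2455, trivial⟩⟩⟩⟩⟩⟩
theorem g2457 : Good XX 15 p2457 := rs15 c2457 rfl trivial
theorem g2458 : Good XX 15 p2458 := rs15 c2458 rfl trivial
theorem g2459 : Good XX 15 p2459 := rs15 c2459 rfl trivial
theorem g2460 : Good XX 15 p2460 := rs15 c2460 rfl ⟨g2459, trivial⟩
theorem g2461 : Good XX 15 p2461 := rs15 c2461 rfl trivial
theorem g2462 : Good XX 15 p2462 := rs15 c2462 rfl trivial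
theorem g2463 : Good XX 15 p2463 := rs15 c2463 rfl trivial
theorem g2464 : Good XX 15 p2464 := rs15 c2464 rfl ⟨g2463, trivial⟩
theorem g2465 : Good XX 15 p2465 := rs15 c2465 rfl trivial
theorem g2466 : Good XX 15 p2466 := rs15 c2466 rfl trivial
theorem g2467 : Good XX 15 p2467 := rs15 c2467 rfl ⟨g2466, trivial⟩
theorem g2468 : Good XX 15 p2468 := rs15 c2468 rfl trivial
theorem g2469 : Good XX 15 p2469 := rs15 c2469 rfl trivial
theorem g2470 : Good XX 15 p2470 := rs15 c2470 rfl trivial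
theorem g2471 : Good XX 15 p2471 := rs15 c2471 rfl trivial
theorem g2472 : Good XX 15 p2472 := rs15 c2472 rfl trivial
theorem g2473 : Good XX 15 p2473 := rs15 c2473 rfl trivial
theorem g2474 : Good XX 15 p2474 := rs15 c2474 rfl ⟨g2470, ⟨g2471, ⟨g2472, ⟨g2473, trivial⟩⟩⟩⟩
theorem g2475 : Good XX 15 p2475 := rs15 c2475 rfl trivial
theorem g2476 : Good XX 15 p2476 := rs15 c2476 rfl ⟨g2475, trivial⟩
theorem g2477 : Good XX 15 p2477 := rs15 c2477 rfl trivial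
theorem g2478 : Good XX 15 p2478 := rs15 c2478 rfl trivial
theorem g2479 : Good XX 15 p2479 := rs15 c2479 rfl ⟨g2477, ⟨g2478, trivial⟩⟩
theorem g2480 : Good XX 15 p2480 := rs15 c2480 rfl trivial
theorem g2481 : Good XX 15 p2481 := rs15 c2481 rfl trivial
theorem g2482 : Good XX 15 p2482 := rs15 c2482 rfl trivial
theorem g2483 : Good XX 15 p2483 := rs15 c2483 rfl trivial
theorem g2484 : Good XX 15 p2484 := rs15 c2484 rfl trivial
theorem g2485 : Good XX 15 p2485 := rs15 c2485 rfl trivial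
theorem g2486 : Good XX 15 p2486 := rs15 c2486 rfl ⟨g2480, ⟨g2481, ⟨g2482, ⟨g2483, ⟨g2484, ⟨g2485, trivial⟩⟩⟩⟩⟩⟩
theorem g2487 : Good XX 15 p2487 := rs15 c2487 rfl trivial
theorem g2488 : Good XX 15 p2488 := rs15 c2488 rfl trivial
theorem g2489 : Good XX 15 p2489 := rs15 c2489 rfl ⟨g2487, ⟨g2488, trivial⟩⟩
theorem g2490 : Good XX 15 p2490 := rs15 c2490 rfl ⟨g2468, ⟨g2469, ⟨g2474, ⟨g2476, ⟨g2479, ⟨g2486, ⟨g2489, trivial⟩⟩⟩⟩⟩⟩⟩
theorem g2491 : Good XX 15 p2491 := rs15 c2491 rfl trivial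
theorem g2492 : Good XX 15 p2492 := rs15 c2492 rfl trivial
theorem g2493 : Good XX 15 p2493 := rs15 c2493 rfl trivial
theorem g2494 : Good XX 15 p2494 := rs15 c2494 rfl ⟨g2493, trivial⟩
theorem g2495 : Good XX 15 p2495 := rs15 c2495 rfl trivial
theorem g2496 : Good XX 15 p2496 := rs15 c2496 rfl trivial
theorem g2497 : Good XX 15 p2497 := rs15 c2497 rfl trivial
theorem g2498 : Good XX 15 p2498 := rs15 c2498 rfl trivial
theorem g2499 : Good XX 15 p2499 := rs15 c2499 rfl ⟨g2496, ⟨g2497, ⟨g2498, trivial⟩⟩⟩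
theorem g2500 : Good XX 15 p2500 := rs15 c2500 rfl trivial
theorem g2501 : Good XX 15 p2501 := rs15 c2501 rfl trivial
theorem g2502 : Good XX 15 p2502 := rs15 c2502 rfl ⟨g2501, trivial⟩
theorem g2503 : Good XX 15 p2503 := rs15 c2503 rfl trivial
theorem g2504 : Good XX 15 p2504 := rs15 c2504 rfl trivial
theorem g2505 : Good XX 15 p2505 := rs15 c2505 rfl trivial
theorem g2506 : Good XX 15 p2506 := rs15 c2506 rfl trivial
theorem g2507 : Good XX 15 p2507 := rs15 c2507 rfl ⟨g2504, ⟨g2505, ⟨g2506, trivial⟩⟩⟩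
theorem g2508 : Good XX 15 p2508 := rs15 c2508 rfl trivial
theorem g2509 : Good XX 15 p2509 := rs15 c2509 rfl trivial
theorem g2510 : Good XX 15 p2510 := rs15 c2510 rfl trivial
theorem g2511 : Good XX 15 p2511 := rs15 c2511 rfl trivial
theorem g2512 : Good XX 15 p2512 := rs15 c2512 rfl trivial
theorem g2513 : Good XX 15 p2513 := rs15 c2513 rfl ⟨g2508, ⟨g2509, ⟨g2510, ⟨g2511, ⟨g2512, trivial⟩⟩⟩⟩⟩
theorem g2514 : Good XX 15 p2514 := rs15 c2514 rfl trivial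
theorem g2515 : Good XX 15 p2515 := rs15 c2515 rfl trivial
theorem g2516 : Good XX 15 p2516 := rs15 c2516 rfl trivial
theorem g2517 : Good XX 15 p2517 := rs15 c2517 rfl ⟨g2514, ⟨g2515, ⟨g2516, trivial⟩⟩⟩
theorem g2518 : Good XX 15 p2518 := rs15 c2518 rfl ⟨g2495, ⟨g2499, ⟨g2500, ⟨g2502, ⟨g2503, ⟨g2507, ⟨g2513, ⟨g2517, trivial⟩⟩⟩⟩⟩⟩⟩⟩
theorem g2519 : Good XX 15 p2519 := rs15 c2519 rfl trivial
theorem g2520 : Good XX 15 p2520 := rs15 c2520 rfl trivial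
theorem g2521 : Good XX 15 p2521 := rs15 c2521 rfl trivial
theorem g2522 : Good XX 15 p2522 := rs15 c2522 rfl trivial
theorem g2523 : Good XX 15 p2523 := rs15 c2523 rfl trivial
theorem g2524 : Good XX 15 p2524 := rs15 c2524 rfl trivial
theorem g2525 : Good XX 15 p2525 := rs15 c2525 rfl trivial
theorem g2526 : Good XX 15 p2526 := rs15 c2526 rfl ⟨g2522, ⟨g2523, ⟨g2524, ⟨g2525, trivial⟩⟩⟩⟩
theorem g2527 : Good XX 15 p2527 := rs15 c2527 rfl trivial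
theorem g2528 : Good XX 15 p2528 := rs15 c2528 rfl trivial
theorem g2529 : Good XX 15 p2529 := rs15 c2529 rfl trivial
theorem g2530 : Good XX 15 p2530 := rs15 c2530 rfl trivial
theorem g2531 : Good XX 15 p2531 := rs15 c2531 rfl trivial
theorem g2532 : Good XX 15 p2532 := rs15 c2532 rfl trivial
theorem g2533 : Good XX 15 p2533 := rs15 c2533 rfl ⟨g2527, ⟨g2528, ⟨g2529, ⟨g2530, ⟨g2531, ⟨g2532, trivial⟩⟩⟩⟩⟩⟩
theorem g2534 : Good XX 15 p2534 := rs15 c2534 rfl trivial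
theorem g2535 : Good XX 15 p2535 := rs15 c2535 rfl trivial
theorem g2536 : Good XX 15 p2536 := rs15 c2536 rfl ⟨g2534, ⟨g2535, trivial⟩⟩
theorem g2537 : Good XX 15 p2537 := rs15 c2537 rfl trivial
theorem g2538 : Good XX 15 p2538 := rs15 c2538 rfl trivial
theorem g2539 : Good XX 15 p2539 := rs15 c2539 rfl trivial
theorem g2540 : Good XX 15 p2540 := rs15 c2540 rfl trivial
theorem g2541 : Good XX 15 p2541 := rs15 c2541 rfl trivial
theorem g2542 : Good XX 15 p2542 := rs15 c2542 rfl trivial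
theorem g2543 : Good XX 15 p2543 := rs15 c2543 rfl ⟨g2539, ⟨g2540, ⟨g2541, ⟨g2542, trivial⟩⟩⟩⟩
theorem g2544 : Good XX 15 p2544 := rs15 c2544 rfl trivial
theorem g2545 : Good XX 15 p2545 := rs15 c2545 rfl trivial
theorem g2546 : Good XX 15 p2546 := rs15 c2546 rfl trivial
theorem g2547 : Good XX 15 p2547 := rs15 c2547 rfl ⟨g2544, ⟨g2545, ⟨g2546, trivial⟩⟩⟩
theorem g2548 : Good XX 15 p2548 := rs15 c2548 rfl trivial
theorem g2549 : Good XX 15 p2549 := rs15 c2549 rfl trivial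
theorem g2550 : Good XX 15 p2550 := rs15 c2550 rfl trivial
theorem g2551 : Good XX 15 p2551 := rs15 c2551 rfl ⟨g2548, ⟨g2549, ⟨g2550, trivial⟩⟩⟩
theorem g2552 : Good XX 15 p2552 := rs15 c2552 rfl trivial
theorem g2553 : Good XX 15 p2553 := rs15 c2553 rfl ⟨g2552, trivial⟩
theorem g2554 : Good XX 15 p2554 := rs15 c2554 rfl trivial
theorem g2555 : Good XX 15 p2555 := rs15 c2555 rfl trivial
theorem g2556 : Good XX 15 p2556 := rs15 c2556 rfl trivial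
theorem g2557 : Good XX 15 p2557 := rs15 c2557 rfl trivial
theorem g2558 : Good XX 15 p2558 := rs15 c2558 rfl trivial
theorem g2559 : Good XX 15 p2559 := rs15 c2559 rfl trivial
theorem g2560 : Good XX 15 p2560 := rs15 c2560 rfl trivial
theorem g2561 : Good XX 15 p2561 := rs15 c2561 rfl trivial
theorem g2562 : Good XX 15 p2562 := rs15 c2562 rfl trivial
theorem g2563 : Good XX 15 p2563 := rs15 c2563 rfl trivial
theorem g2564 : Good XX 15 p2564 := rs15 c2564 rfl trivial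
theorem g2565 : Good XX 15 p2565 := rs15 c2565 rfl trivial
theorem g2566 : Good XX 15 p2566 := rs15 c2566 rfl trivial
theorem g2567 : Good XX 15 p2567 := rs15 c2567 rfl trivial
theorem g2568 : Good XX 15 p2568 := rs15 c2568 rfl trivial
theorem g2569 : Good XX 15 p2569 := rs15 c2569 rfl ⟨g2537, ⟨g2538, ⟨g2543, ⟨g2547, ⟨g2551, ⟨g2553, ⟨g2554, ⟨g2555, ⟨g2556, ⟨g2557, ⟨g2558, ⟨g2559, ⟨g2560, ⟨g2561, ⟨g2562, ⟨g2563, ⟨g2564, ⟨g2565, ⟨g2566, ⟨g2567, ⟨g2568, trivial⟩⟩⟩⟩⟩⟩⟩⟩⟩⟩⟩⟩⟩⟩⟩⟩⟩⟩⟩⟩⟩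
theorem g2570 : Good XX 15 p2570 := rs15 c2570 rfl ⟨g2457, ⟨g2458, ⟨g2460, ⟨g2461, ⟨g2462, ⟨g2464, ⟨g2465, ⟨g2467, ⟨g2490, ⟨g2491, ⟨g2492, ⟨g2494, ⟨g2518, ⟨g2519, ⟨g2520, ⟨g2521, ⟨g2526, ⟨g2533, ⟨g2536, ⟨g2569, trivial⟩⟩⟩⟩⟩⟩⟩⟩⟩⟩⟩⟩⟩⟩⟩⟩⟩⟩⟩⟩
theorem g2571 : Good XX 15 p2571 := rs15 c2571 rfl trivial
theorem g2572 : Good XX 15 p2572 := rs15 c2572 rfl trivial
theorem g2573 : Good XX 15 p2573 := rs15 c2573 rfl trivial
theorem g2574 : Good XX 15 p2574 := rs15 c2574 rfl trivial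
theorem g2575 : Good XX 15 p2575 := rs15 c2575 rfl trivial
theorem g2576 : Good XX 15 p2576 := rs15 c2576 rfl ⟨g2575, trivial⟩
theorem g2577 : Good XX 15 p2577 := rs15 c2577 rfl trivial
theorem g2578 : Good XX 15 p2578 := rs15 c2578 rfl trivial
theorem g2579 : Good XX 15 p2579 := rs15 c2579 rfl ⟨g2578, trivial⟩
theorem g2580 : Good XX 15 p2580 := rs15 c2580 rfl trivial
theorem g2581 : Good XX 15 p2581 := rs15 c2581 rfl trivial
theorem g2582 : Good XX 15 p2582 := rs15 c2582 rfl trivial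
theorem g2583 : Good XX 15 p2583 := rs15 c2583 rfl trivial
theorem g2584 : Good XX 15 p2584 := rs15 c2584 rfl trivial
theorem g2585 : Good XX 15 p2585 := rs15 c2585 rfl ⟨g2581, ⟨g2582, ⟨g2583, ⟨g2584, trivial⟩⟩⟩⟩
theorem g2586 : Good XX 15 p2586 := rs15 c2586 rfl trivial
theorem g2587 : Good XX 15 p2587 := rs15 c2587 rfl trivial
theorem g2588 : Good XX 15 p2588 := rs15 c2588 rfl trivial
theorem g2589 : Good XX 15 p2589 := rs15 c2589 rfl trivial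
theorem g2590 : Good XX 15 p2590 := rs15 c2590 rfl ⟨g2586, ⟨g2587, ⟨g2588, ⟨g2589, trivial⟩⟩⟩⟩
theorem g2591 : Good XX 15 p2591 := rs15 c2591 rfl trivial
theorem g2592 : Good XX 15 p2592 := rs15 c2592 rfl trivial
theorem g2593 : Good XX 15 p2593 := rs15 c2593 rfl ⟨g2591, ⟨g2592, trivial⟩⟩
theorem g2594 : Good XX 15 p2594 := rs15 c2594 rfl trivial
theorem g2595 : Good XX 15 p2595 := rs15 c2595 rfl trivial
theorem g2596 : Good XX 15 p2596 := rs15 c2596 rfl ⟨g2594, ⟨g2595, trivial⟩⟩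
theorem g2597 : Good XX 15 p2597 := rs15 c2597 rfl trivial
theorem g2598 : Good XX 15 p2598 := rs15 c2598 rfl trivial
theorem g2599 : Good XX 15 p2599 := rs15 c2599 rfl ⟨g2598, trivial⟩
theorem g2600 : Good XX 15 p2600 := rs15 c2600 rfl trivial
theorem g2601 : Good XX 15 p2601 := rs15 c2601 rfl ⟨g2600, trivial⟩
theorem g2602 : Good XX 15 p2602 := rs15 c2602 rfl trivial
theorem g2603 : Good XX 15 p2603 := rs15 c2603 rfl ⟨g2602, trivial⟩
theorem g2604 : Good XX 15 p2604 := rs15 c2604 rfl trivial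
theorem g2605 : Good XX 15 p2605 := rs15 c2605 rfl ⟨g2604, trivial⟩
theorem g2606 : Good XX 15 p2606 := rs15 c2606 rfl trivial
theorem g2607 : Good XX 15 p2607 := rs15 c2607 rfl trivial
theorem g2608 : Good XX 15 p2608 := rs15 c2608 rfl ⟨g2606, ⟨g2607, trivial⟩⟩
theorem g2609 : Good XX 15 p2609 := rs15 c2609 rfl ⟨g2603, ⟨g2605, ⟨g2608, trivial⟩⟩⟩
theorem g2610 : Good XX 15 p2610 := rs15 c2610 rfl ⟨g2571, ⟨g2572, ⟨g2573, ⟨g2574, ⟨g2576, ⟨g2577, ⟨g2579, ⟨g2580, ⟨g2585, ⟨g2590, ⟨g2593, ⟨g2596, ⟨g2597, ⟨g2599, ⟨g2601, ⟨g2609, trivial⟩⟩⟩⟩⟩⟩⟩⟩⟩⟩⟩⟩⟩⟩⟩⟩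
theorem g2611 : Good XX 15 p2611 := rs15 c2611 rfl trivial
theorem g2612 : Good XX 15 p2612 := rs15 c2612 rfl trivial
theorem g2613 : Good XX 15 p2613 := rs15 c2613 rfl trivial
theorem g2614 : Good XX 15 p2614 := rs15 c2614 rfl ⟨g2611, ⟨g2612, ⟨g2613, trivial⟩⟩⟩
theorem g2615 : Good XX 15 p2615 := rs15 c2615 rfl trivial
theorem g2616 : Good XX 15 p2616 := rs15 c2616 rfl ⟨g2615, trivial⟩
theorem g2617 : Good XX 15 p2617 := rs15 c2617 rfl trivial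
theorem g2618 : Good XX 15 p2618 := rs15 c2618 rfl trivial
theorem g2619 : Good XX 15 p2619 := rs15 c2619 rfl trivial
theorem g2620 : Good XX 15 p2620 := rs15 c2620 rfl trivial
theorem g2621 : Good XX 15 p2621 := rs15 c2621 rfl ⟨g2617, ⟨g2618, ⟨g2619, ⟨g2620, trivial⟩⟩⟩⟩
theorem g2622 : Good XX 15 p2622 := rs15 c2622 rfl trivial
theorem g2623 : Good XX 15 p2623 := rs15 c2623 rfl trivial
theorem g2624 : Good XX 15 p2624 := rs15 c2624 rfl ⟨g2622, ⟨g2623, trivial⟩⟩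
theorem g2625 : Good XX 15 p2625 := rs15 c2625 rfl trivial
theorem g2626 : Good XX 15 p2626 := rs15 c2626 rfl trivial
theorem g2627 : Good XX 15 p2627 := rs15 c2627 rfl trivial
theorem g2628 : Good XX 15 p2628 := rs15 c2628 rfl trivial
theorem g2629 : Good XX 15 p2629 := rs15 c2629 rfl ⟨g2625, ⟨g2626, ⟨g2627, ⟨g2628, trivial⟩⟩⟩⟩
theorem g2630 : Good XX 15 p2630 := rs15 c2630 rfl trivial
theorem g2631 : Good XX 15 p2631 := rs15 c2631 rfl trivial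
theorem g2632 : Good XX 15 p2632 := rs15 c2632 rfl trivial
theorem g2633 : Good XX 15 p2633 := rs15 c2633 rfl trivial
theorem g2634 : Good XX 15 p2634 := rs15 c2634 rfl trivial
theorem g2635 : Good XX 15 p2635 := rs15 c2635 rfl trivial
theorem g2636 : Good XX 15 p2636 := rs15 c2636 rfl trivial
theorem g2637 : Good XX 15 p2637 := rs15 c2637 rfl trivial
theorem g2638 : Good XX 15 p2638 := rs15 c2638 rfl trivial
theorem g2639 : Good XX 15 p2639 := rs15 c2639 rfl trivial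
theorem g2640 : Good XX 15 p2640 := rs15 c2640 rfl ⟨g2637, ⟨g2638, ⟨g2639, trivial⟩⟩⟩
theorem g2641 : Good XX 15 p2641 := rs15 c2641 rfl trivial
theorem g2642 : Good XX 15 p2642 := rs15 c2642 rfl trivial
theorem g2643 : Good XX 15 p2643 := rs15 c2643 rfl trivial
theorem g2644 : Good XX 15 p2644 := rs15 c2644 rfl trivial
theorem g2645 : Good XX 15 p2645 := rs15 c2645 rfl trivial
theorem g2646 : Good XX 15 p2646 := rs15 c2646 rfl trivial
theorem g2647 : Good XX 15 p2647 := rs15 c2647 rfl ⟨g2646, trivial⟩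
theorem g2648 : Good XX 15 p2648 := rs15 c2648 rfl trivial
theorem g2649 : Good XX 15 p2649 := rs15 c2649 rfl ⟨g2614, ⟨g2616, ⟨g2621, ⟨g2624, ⟨g2629, ⟨g2630, ⟨g2631, ⟨g2632, ⟨g2633, ⟨g2634, ⟨g2635, ⟨g2636, ⟨g2640, ⟨g2641, ⟨g2642, ⟨g2643, ⟨g2644, ⟨g2645, ⟨g2647, ⟨g2648, trivial⟩⟩⟩⟩⟩⟩⟩⟩⟩⟩⟩⟩⟩⟩⟩⟩⟩⟩⟩⟩
theorem g2650 : Good XX 15 p2650 := rs15 c2650 rfl trivial
theorem g2651 : Good XX 15 p2651 := rs15 c2651 rfl trivial
theorem g2652 : Good XX 15 p2652 := rs15 c2652 rfl trivial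
theorem g2653 : Good XX 15 p2653 := rs15 c2653 rfl trivial
theorem g2654 : Good XX 15 p2654 := rs15 c2654 rfl trivial
theorem g2655 : Good XX 15 p2655 := rs15 c2655 rfl trivial
theorem g2656 : Good XX 15 p2656 := rs15 c2656 rfl trivial
theorem g2657 : Good XX 15 p2657 := rs15 c2657 rfl trivial
theorem g2658 : Good XX 15 p2658 := rs15 c2658 rfl trivial
theorem g2659 : Good XX 15 p2659 := rs15 c2659 rfl trivial
theorem g2660 : Good XX 15 p2660 := rs15 c2660 rfl ⟨g2655, ⟨g2656, ⟨g2657, ⟨g2658, ⟨g2659, trivial⟩⟩⟩⟩⟩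
theorem g2661 : Good XX 15 p2661 := rs15 c2661 rfl trivial
theorem g2662 : Good XX 15 p2662 := rs15 c2662 rfl ⟨g2651, ⟨g2652, ⟨g2653, ⟨g2654, ⟨g2660, ⟨g2661, trivial⟩⟩⟩⟩⟩⟩
theorem g2663 : Good XX 15 p2663 := rs15 c2663 rfl trivial
theorem g2664 : Good XX 15 p2664 := rs15 c2664 rfl trivial
theorem g2665 : Good XX 15 p2665 := rs15 c2665 rfl trivial
theorem g2666 : Good XX 15 p2666 := rs15 c2666 rfl trivial
theorem g2667 : Good XX 15 p2667 := rs15 c2667 rfl ⟨g2663, ⟨g2664, ⟨g2665, ⟨g2666, trivial⟩⟩⟩⟩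
theorem g2668 : Good XX 15 p2668 := rs15 c2668 rfl trivial
theorem g2669 : Good XX 15 p2669 := rs15 c2669 rfl trivial
theorem g2670 : Good XX 15 p2670 := rs15 c2670 rfl trivial
theorem g2671 : Good XX 15 p2671 := rs15 c2671 rfl trivial
theorem g2672 : Good XX 15 p2672 := rs15 c2672 rfl ⟨g2671, trivial⟩
theorem g2673 : Good XX 15 p2673 := rs15 c2673 rfl trivial
theorem g2674 : Good XX 15 p2674 := rs15 c2674 rfl trivial
theorem g2675 : Good XX 15 p2675 := rs15 c2675 rfl trivial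
theorem g2676 : Good XX 15 p2676 := rs15 c2676 rfl trivial
theorem g2677 : Good XX 15 p2677 := rs15 c2677 rfl trivial
theorem g2678 : Good XX 15 p2678 := rs15 c2678 rfl trivial
theorem g2679 : Good XX 15 p2679 := rs15 c2679 rfl trivial
theorem g2680 : Good XX 15 p2680 := rs15 c2680 rfl trivial
theorem g2681 : Good XX 15 p2681 := rs15 c2681 rfl ⟨g2675, ⟨g2676, ⟨g2677, ⟨g2678, ⟨g2679, ⟨g2680, trivial⟩⟩⟩⟩⟩⟩
theorem g2682 : Good XX 15 p2682 := rs15 c2682 rfl trivial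
theorem g2683 : Good XX 15 p2683 := rs15 c2683 rfl trivial
theorem g2684 : Good XX 15 p2684 := rs15 c2684 rfl trivial
theorem g2685 : Good XX 15 p2685 := rs15 c2685 rfl ⟨g2682, ⟨g2683, ⟨g2684, trivial⟩⟩⟩
theorem g2686 : Good XX 15 p2686 := rs15 c2686 rfl ⟨g2670, ⟨g2672, ⟨g2673, ⟨g2674, ⟨g2681, ⟨g2685, trivial⟩⟩⟩⟩⟩⟩
theorem g2687 : Good XX 15 p2687 := rs15 c2687 rfl trivial
theorem g2688 : Good XX 15 p2688 := rs15 c2688 rfl trivial
theorem g2689 : Good XX 15 p2689 := rs15 c2689 rfl trivial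
theorem g2690 : Good XX 15 p2690 := rs15 c2690 rfl ⟨g2688, ⟨g2689, trivial⟩⟩
theorem g2691 : Good XX 15 p2691 := rs15 c2691 rfl trivial
theorem g2692 : Good XX 15 p2692 := rs15 c2692 rfl trivial
theorem g2693 : Good XX 15 p2693 := rs15 c2693 rfl trivial
theorem g2694 : Good XX 15 p2694 := rs15 c2694 rfl trivial
theorem g2695 : Good XX 15 p2695 := rs15 c2695 rfl trivial
theorem g2696 : Good XX 15 p2696 := rs15 c2696 rfl ⟨g2695, trivial⟩
theorem g2697 : Good XX 15 p2697 := rs15 c2697 rfl trivial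
theorem g2698 : Good XX 15 p2698 := rs15 c2698 rfl ⟨g2697, trivial⟩
theorem g2699 : Good XX 15 p2699 := rs15 c2699 rfl trivial
theorem g2700 : Good XX 15 p2700 := rs15 c2700 rfl trivial
theorem g2701 : Good XX 15 p2701 := rs15 c2701 rfl trivial
theorem g2702 : Good XX 15 p2702 := rs15 c2702 rfl ⟨g2700, ⟨g2701, trivial⟩⟩
theorem g2703 : Good XX 15 p2703 := rs15 c2703 rfl trivial
theorem g2704 : Good XX 15 p2704 := rs15 c2704 rfl ⟨g2703, trivial⟩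
theorem g2705 : Good XX 15 p2705 := rs15 c2705 rfl trivial
theorem g2706 : Good XX 15 p2706 := rs15 c2706 rfl trivial
theorem g2707 : Good XX 15 p2707 := rs15 c2707 rfl trivial
theorem g2708 : Good XX 15 p2708 := rs15 c2708 rfl ⟨g2707, trivial⟩
theorem g2709 : Good XX 15 p2709 := rs15 c2709 rfl ⟨g2694, ⟨g2696, ⟨g2698, ⟨g2699, ⟨g2702, ⟨g2704, ⟨g2705, ⟨g2706, ⟨g2708, trivial⟩⟩⟩⟩⟩⟩⟩⟩⟩
theorem g2710 : Good XX 15 p2710 := rs15 c2710 rfl trivial
theorem g2711 : Good XX 15 p2711 := rs15 c2711 rfl trivial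
theorem g2712 : Good XX 15 p2712 := rs15 c2712 rfl trivial
theorem g2713 : Good XX 15 p2713 := rs15 c2713 rfl trivial
theorem g2714 : Good XX 15 p2714 := rs15 c2714 rfl trivial
theorem g2715 : Good XX 15 p2715 := rs15 c2715 rfl trivial
theorem g2716 : Good XX 15 p2716 := rs15 c2716 rfl trivial
theorem g2717 : Good XX 15 p2717 := rs15 c2717 rfl ⟨g2716, trivial⟩
theorem g2718 : Good XX 15 p2718 := rs15 c2718 rfl ⟨g2711, ⟨g2712, ⟨g2713, ⟨g2714, ⟨g2715, ⟨g2717, trivial⟩⟩⟩⟩⟩⟩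
theorem g2719 : Good XX 15 p2719 := rs15 c2719 rfl trivial
theorem g2720 : Good XX 15 p2720 := rs15 c2720 rfl trivial
theorem g2721 : Good XX 15 p2721 := rs15 c2721 rfl trivial
theorem g2722 : Good XX 15 p2722 := rs15 c2722 rfl trivial
theorem g2723 : Good XX 15 p2723 := rs15 c2723 rfl trivial
theorem g2724 : Good XX 15 p2724 := rs15 c2724 rfl trivial
theorem g2725 : Good XX 15 p2725 := rs15 c2725 rfl trivial
theorem g2726 : Good XX 15 p2726 := rs15 c2726 rfl ⟨g2724, ⟨g2725, trivial⟩⟩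
theorem g2727 : Good XX 15 p2727 := rs15 c2727 rfl trivial
theorem g2728 : Good XX 15 p2728 := rs15 c2728 rfl trivial
theorem g2729 : Good XX 15 p2729 := rs15 c2729 rfl trivial
theorem g2730 : Good XX 15 p2730 := rs15 c2730 rfl trivial
theorem g2731 : Good XX 15 p2731 := rs15 c2731 rfl trivial
theorem g2732 : Good XX 15 p2732 := rs15 c2732 rfl ⟨g2729, ⟨g2730, ⟨g2731, trivial⟩⟩⟩
theorem g2733 : Good XX 15 p2733 := rs15 c2733 rfl trivial
theorem g2734 : Good XX 15 p2734 := rs15 c2734 rfl trivial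
theorem g2735 : Good XX 15 p2735 := rs15 c2735 rfl trivial
theorem g2736 : Good XX 15 p2736 := rs15 c2736 rfl trivial
theorem g2737 : Good XX 15 p2737 := rs15 c2737 rfl trivial
theorem g2738 : Good XX 15 p2738 := rs15 c2738 rfl trivial
theorem g2739 : Good XX 15 p2739 := rs15 c2739 rfl trivial
theorem g2740 : Good XX 15 p2740 := rs15 c2740 rfl ⟨g2733, ⟨g2734, ⟨g2735, ⟨g2736, ⟨g2737, ⟨g2738, ⟨g2739, trivial⟩⟩⟩⟩⟩⟩⟩
theorem g2741 : Good XX 15 p2741 := rs15 c2741 rfl trivial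
theorem g2742 : Good XX 15 p2742 := rs15 c2742 rfl trivial
theorem g2743 : Good XX 15 p2743 := rs15 c2743 rfl trivial
theorem g2744 : Good XX 15 p2744 := rs15 c2744 rfl ⟨g2741, ⟨g2742, ⟨g2743, trivial⟩⟩⟩
theorem g2745 : Good XX 15 p2745 := rs15 c2745 rfl ⟨g2721, ⟨g2722, ⟨g2723, ⟨g2726, ⟨g2727, ⟨g2728, ⟨g2732, ⟨g2740, ⟨g2744, trivial⟩⟩⟩⟩⟩⟩⟩⟩⟩
theorem g2746 : Good XX 15 p2746 := rs15 c2746 rfl trivial
theorem g2747 : Good XX 15 p2747 := rs15 c2747 rfl trivial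
theorem g2748 : Good XX 15 p2748 := rs15 c2748 rfl trivial
theorem g2749 : Good XX 15 p2749 := rs15 c2749 rfl trivial
theorem g2750 : Good XX 15 p2750 := rs15 c2750 rfl trivial
theorem g2751 : Good XX 15 p2751 := rs15 c2751 rfl ⟨g2750, trivial⟩
theorem g2752 : Good XX 15 p2752 := rs15 c2752 rfl ⟨g2746, ⟨g2747, ⟨g2748, ⟨g2749, ⟨g2751, trivial⟩⟩⟩⟩⟩
theorem g2753 : Good XX 15 p2753 := rs15 c2753 rfl trivial
theorem g2754 : Good XX 15 p2754 := rs15 c2754 rfl trivial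
theorem g2755 : Good XX 15 p2755 := rs15 c2755 rfl trivial
theorem g2756 : Good XX 15 p2756 := rs15 c2756 rfl trivial
theorem g2757 : Good XX 15 p2757 := rs15 c2757 rfl trivial
theorem g2758 : Good XX 15 p2758 := rs15 c2758 rfl trivial
theorem g2759 : Good XX 15 p2759 := rs15 c2759 rfl ⟨g2755, ⟨g2756, ⟨g2757, ⟨g2758, trivial⟩⟩⟩⟩
theorem g2760 : Good XX 15 p2760 := rs15 c2760 rfl trivial
theorem g2761 : Good XX 15 p2761 := rs15 c2761 rfl trivial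
theorem g2762 : Good XX 15 p2762 := rs15 c2762 rfl trivial
theorem g2763 : Good XX 15 p2763 := rs15 c2763 rfl trivial
theorem g2764 : Good XX 15 p2764 := rs15 c2764 rfl trivial
theorem g2765 : Good XX 15 p2765 := rs15 c2765 rfl trivial
theorem g2766 : Good XX 15 p2766 := rs15 c2766 rfl trivial
theorem g2767 : Good XX 15 p2767 := rs15 c2767 rfl ⟨g2761, ⟨g2762, ⟨g2763, ⟨g2764, ⟨g2765, ⟨g2766, trivial⟩⟩⟩⟩⟩⟩
theorem g2768 : Good XX 15 p2768 := rs15 c2768 rfl trivial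
theorem g2769 : Good XX 15 p2769 := rs15 c2769 rfl trivial
theorem g2770 : Good XX 15 p2770 := rs15 c2770 rfl trivial
theorem g2771 : Good XX 15 p2771 := rs15 c2771 rfl trivial
theorem g2772 : Good XX 15 p2772 := rs15 c2772 rfl trivial
theorem g2773 : Good XX 15 p2773 := rs15 c2773 rfl trivial
theorem g2774 : Good XX 15 p2774 := rs15 c2774 rfl trivial
theorem g2775 : Good XX 15 p2775 := rs15 c2775 rfl ⟨g2769, ⟨g2770, ⟨g2771, ⟨g2772, ⟨g2773, ⟨g2774, trivial⟩⟩⟩⟩⟩⟩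
theorem g2776 : Good XX 15 p2776 := rs15 c2776 rfl trivial
theorem g2777 : Good XX 15 p2777 := rs15 c2777 rfl trivial
theorem g2778 : Good XX 15 p2778 := rs15 c2778 rfl ⟨g2776, ⟨g2777, trivial⟩⟩
theorem g2779 : Good XX 15 p2779 := rs15 c2779 rfl trivial
theorem g2780 : Good XX 15 p2780 := rs15 c2780 rfl trivial
theorem g2781 : Good XX 15 p2781 := rs15 c2781 rfl trivial
theorem g2782 : Good XX 15 p2782 := rs15 c2782 rfl trivial
theorem g2783 : Good XX 15 p2783 := rs15 c2783 rfl trivial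
theorem g2784 : Good XX 15 p2784 := rs15 c2784 rfl ⟨g2781, ⟨g2782, ⟨g2783, trivial⟩⟩⟩
theorem g2785 : Good XX 15 p2785 := rs15 c2785 rfl trivial
theorem g2786 : Good XX 15 p2786 := rs15 c2786 rfl ⟨g2785, trivial⟩
theorem g2787 : Good XX 15 p2787 := rs15 c2787 rfl trivial
theorem g2788 : Good XX 15 p2788 := rs15 c2788 rfl trivial
theorem g2789 : Good XX 15 p2789 := rs15 c2789 rfl trivial
theorem g2790 : Good XX 15 p2790 := rs15 c2790 rfl trivial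
theorem g2791 : Good XX 15 p2791 := rs15 c2791 rfl trivial
theorem g2792 : Good XX 15 p2792 := rs15 c2792 rfl trivial
theorem g2793 : Good XX 15 p2793 := rs15 c2793 rfl ⟨g2788, ⟨g2789, ⟨g2790, ⟨g2791, ⟨g2792, trivial⟩⟩⟩⟩⟩
theorem g2794 : Good XX 15 p2794 := rs15 c2794 rfl trivial
theorem g2795 : Good XX 15 p2795 := rs15 c2795 rfl trivial
theorem g2796 : Good XX 15 p2796 := rs15 c2796 rfl ⟨g2794, ⟨g2795, trivial⟩⟩
theorem g2797 : Good XX 15 p2797 := rs15 c2797 rfl trivial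
theorem g2798 : Good XX 15 p2798 := rs15 c2798 rfl trivial
theorem g2799 : Good XX 15 p2799 := rs15 c2799 rfl trivial
theorem g2800 : Good XX 15 p2800 := rs15 c2800 rfl ⟨g2798, ⟨g2799, trivial⟩⟩
theorem g2801 : Good XX 15 p2801 := rs15 c2801 rfl trivial
theorem g2802 : Good XX 15 p2802 := rs15 c2802 rfl trivial
theorem g2803 : Good XX 15 p2803 := rs15 c2803 rfl trivial
theorem g2804 : Good XX 15 p2804 := rs15 c2804 rfl trivial
theorem g2805 : Good XX 15 p2805 := rs15 c2805 rfl ⟨g2801, ⟨g2802, ⟨g2803, ⟨g2804, trivial⟩⟩⟩⟩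
theorem g2806 : Good XX 15 p2806 := rs15 c2806 rfl trivial
theorem g2807 : Good XX 15 p2807 := rs15 c2807 rfl trivial
theorem g2808 : Good XX 15 p2808 := rs15 c2808 rfl ⟨g2806, ⟨g2807, trivial⟩⟩
theorem g2809 : Good XX 15 p2809 := rs15 c2809 rfl trivial
theorem g2810 : Good XX 15 p2810 := rs15 c2810 rfl trivial
theorem g2811 : Good XX 15 p2811 := rs15 c2811 rfl trivial
theorem g2812 : Good XX 15 p2812 := rs15 c2812 rfl trivial
theorem g2813 : Good XX 15 p2813 := rs15 c2813 rfl trivial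
theorem g2814 : Good XX 15 p2814 := rs15 c2814 rfl trivial
theorem g2815 : Good XX 15 p2815 := rs15 c2815 rfl trivial
theorem g2816 : Good XX 15 p2816 := rs15 c2816 rfl trivial
theorem g2817 : Good XX 15 p2817 := rs15 c2817 rfl trivial
theorem g2818 : Good XX 15 p2818 := rs15 c2818 rfl trivial
theorem g2819 : Good XX 15 p2819 := rs15 c2819 rfl trivial
theorem g2820 : Good XX 15 p2820 := rs15 c2820 rfl ⟨g2809, ⟨g2810, ⟨g2811, ⟨g2812, ⟨g2813, ⟨g2814, ⟨g2815, ⟨g2816, ⟨g2817, ⟨g2818, ⟨g2819, trivial⟩⟩⟩⟩⟩⟩⟩⟩⟩⟩⟩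
theorem g2821 : Good XX 15 p2821 := rs15 c2821 rfl ⟨g2779, ⟨g2780, ⟨g2784, ⟨g2786, ⟨g2787, ⟨g2793, ⟨g2796, ⟨g2797, ⟨g2800, ⟨g2805, ⟨g2808, ⟨g2820, trivial⟩⟩⟩⟩⟩⟩⟩⟩⟩⟩⟩⟩
theorem g2822 : Good XX 15 p2822 := rs15 c2822 rfl ⟨g2710, ⟨g2718, ⟨g2719, ⟨g2720, ⟨g2745, ⟨g2752, ⟨g2753, ⟨g2754, ⟨g2759, ⟨g2760, ⟨g2767, ⟨g2768, ⟨g2775, ⟨g2778, ⟨g2821, trivial⟩⟩⟩⟩⟩⟩⟩⟩⟩⟩⟩⟩⟩⟩⟩
theorem g2823 : Good XX 15 p2823 := rs15 c2823 rfl trivial
theorem g2824 : Good XX 15 p2824 := rs15 c2824 rfl ⟨g2823, trivial⟩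
theorem g2825 : Good XX 15 p2825 := rs15 c2825 rfl trivial
theorem g2826 : Good XX 15 p2826 := rs15 c2826 rfl trivial
theorem g2827 : Good XX 15 p2827 := rs15 c2827 rfl trivial
theorem g2828 : Good XX 15 p2828 := rs15 c2828 rfl trivial
theorem g2829 : Good XX 15 p2829 := rs15 c2829 rfl ⟨g2828, trivial⟩
theorem g2830 : Good XX 15 p2830 := rs15 c2830 rfl trivial
theorem g2831 : Good XX 15 p2831 := rs15 c2831 rfl trivial
theorem g2832 : Good XX 15 p2832 := rs15 c2832 rfl trivial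
theorem g2833 : Good XX 15 p2833 := rs15 c2833 rfl trivial
theorem g2834 : Good XX 15 p2834 := rs15 c2834 rfl ⟨g2832, ⟨g2833, trivial⟩⟩
theorem g2835 : Good XX 15 p2835 := rs15 c2835 rfl trivial
theorem g2836 : Good XX 15 p2836 := rs15 c2836 rfl trivial
theorem g2837 : Good XX 15 p2837 := rs15 c2837 rfl trivial
theorem g2838 : Good XX 15 p2838 := rs15 c2838 rfl trivial
theorem g2839 : Good XX 15 p2839 := rs15 c2839 rfl trivial
theorem g2840 : Good XX 15 p2840 := rs15 c2840 rfl trivial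
theorem g2841 : Good XX 15 p2841 := rs15 c2841 rfl trivial
theorem g2842 : Good XX 15 p2842 := rs15 c2842 rfl trivial
theorem g2843 : Good XX 15 p2843 := rs15 c2843 rfl ⟨g2836, ⟨g2837, ⟨g2838, ⟨g2839, ⟨g2840, ⟨g2841, ⟨g2842, trivial⟩⟩⟩⟩⟩⟩⟩
theorem g2844 : Good XX 15 p2844 := rs15 c2844 rfl trivial
theorem g2845 : Good XX 15 p2845 := rs15 c2845 rfl trivial
theorem g2846 : Good XX 15 p2846 := rs15 c2846 rfl ⟨g2844, ⟨g2845, trivial⟩⟩
theorem g2847 : Good XX 15 p2847 := rs15 c2847 rfl ⟨g2824, ⟨g2825, ⟨g2826, ⟨g2827, ⟨g2829, ⟨g2830, ⟨g2831, ⟨g2834, ⟨g2835, ⟨g2843, ⟨g2846, trivial⟩⟩⟩⟩⟩⟩⟩⟩⟩⟩⟩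
theorem g2848 : Good XX 15 p2848 := rs15 c2848 rfl trivial
theorem g2849 : Good XX 15 p2849 := rs15 c2849 rfl trivial
theorem g2850 : Good XX 15 p2850 := rs15 c2850 rfl trivial
theorem g2851 : Good XX 15 p2851 := rs15 c2851 rfl trivial
theorem g2852 : Good XX 15 p2852 := rs15 c2852 rfl ⟨g2848, ⟨g2849, ⟨g2850, ⟨g2851, trivial⟩⟩⟩⟩
theorem g2853 : Good XX 15 p2853 := rs15 c2853 rfl trivial
theorem g2854 : Good XX 15 p2854 := rs15 c2854 rfl ⟨g2853, trivial⟩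
theorem g2855 : Good XX 15 p2855 := rs15 c2855 rfl trivial
theorem g2856 : Good XX 15 p2856 := rs15 c2856 rfl trivial
theorem g2857 : Good XX 15 p2857 := rs15 c2857 rfl trivial
theorem g2858 : Good XX 15 p2858 := rs15 c2858 rfl ⟨g2856, ⟨g2857, trivial⟩⟩
theorem g2859 : Good XX 15 p2859 := rs15 c2859 rfl trivial
theorem g2860 : Good XX 15 p2860 := rs15 c2860 rfl trivial
theorem g2861 : Good XX 15 p2861 := rs15 c2861 rfl trivial
theorem g2862 : Good XX 15 p2862 := rs15 c2862 rfl trivial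
theorem g2863 : Good XX 15 p2863 := rs15 c2863 rfl ⟨g2860, ⟨g2861, ⟨g2862, trivial⟩⟩⟩
theorem g2864 : Good XX 15 p2864 := rs15 c2864 rfl trivial
theorem g2865 : Good XX 15 p2865 := rs15 c2865 rfl trivial
theorem g2866 : Good XX 15 p2866 := rs15 c2866 rfl trivial
theorem g2867 : Good XX 15 p2867 := rs15 c2867 rfl ⟨g2864, ⟨g2865, ⟨g2866, trivial⟩⟩⟩
theorem g2868 : Good XX 15 p2868 := rs15 c2868 rfl trivial
theorem g2869 : Good XX 15 p2869 := rs15 c2869 rfl ⟨g2868, trivial⟩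
theorem g2870 : Good XX 15 p2870 := rs15 c2870 rfl trivial
theorem g2871 : Good XX 15 p2871 := rs15 c2871 rfl trivial
theorem g2872 : Good XX 15 p2872 := rs15 c2872 rfl trivial
theorem g2873 : Good XX 15 p2873 := rs15 c2873 rfl ⟨g2870, ⟨g2871, ⟨g2872, trivial⟩⟩⟩
theorem g2874 : Good XX 15 p2874 := rs15 c2874 rfl trivial
theorem g2875 : Good XX 15 p2875 := rs15 c2875 rfl trivial
theorem g2876 : Good XX 15 p2876 := rs15 c2876 rfl trivial
theorem g2877 : Good XX 15 p2877 := rs15 c2877 rfl ⟨g2874, ⟨g2875, ⟨g2876, trivial⟩⟩⟩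
theorem g2878 : Good XX 15 p2878 := rs15 c2878 rfl trivial
theorem g2879 : Good XX 15 p2879 := rs15 c2879 rfl trivial
theorem g2880 : Good XX 15 p2880 := rs15 c2880 rfl trivial
theorem g2881 : Good XX 15 p2881 := rs15 c2881 rfl trivial
theorem g2882 : Good XX 15 p2882 := rs15 c2882 rfl trivial
theorem g2883 : Good XX 15 p2883 := rs15 c2883 rfl trivial
theorem g2884 : Good XX 15 p2884 := rs15 c2884 rfl ⟨g2878, ⟨g2879, ⟨g2880, ⟨g2881, ⟨g2882, ⟨g2883, trivial⟩⟩⟩⟩⟩⟩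
theorem g2885 : Good XX 15 p2885 := rs15 c2885 rfl trivial
theorem g2886 : Good XX 15 p2886 := rs15 c2886 rfl trivial
theorem g2887 : Good XX 15 p2887 := rs15 c2887 rfl trivial
theorem g2888 : Good XX 15 p2888 := rs15 c2888 rfl ⟨g2885, ⟨g2886, ⟨g2887, trivial⟩⟩⟩
theorem g2889 : Good XX 15 p2889 := rs15 c2889 rfl ⟨g2854, ⟨g2855, ⟨g2858, ⟨g2859, ⟨g2863, ⟨g2867, ⟨g2869, ⟨g2873, ⟨g2877, ⟨g2884, ⟨g2888, trivial⟩⟩⟩⟩⟩⟩⟩⟩⟩⟩⟩
theorem g2890 : Good XX 15 p2890 := rs15 c2890 rfl trivial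
theorem g2891 : Good XX 15 p2891 := rs15 c2891 rfl trivial
theorem g2892 : Good XX 15 p2892 := rs15 c2892 rfl ⟨g2890, ⟨g2891, trivial⟩⟩
theorem g2893 : Good XX 15 p2893 := rs15 c2893 rfl trivial
theorem g2894 : Good XX 15 p2894 := rs15 c2894 rfl trivial
theorem g2895 : Good XX 15 p2895 := rs15 c2895 rfl ⟨g2893, ⟨g2894, trivial⟩⟩
theorem g2896 : Good XX 15 p2896 := rs15 c2896 rfl trivial
theorem g2897 : Good XX 15 p2897 := rs15 c2897 rfl trivial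
theorem g2898 : Good XX 15 p2898 := rs15 c2898 rfl ⟨g2897, trivial⟩
theorem g2899 : Good XX 15 p2899 := rs15 c2899 rfl ⟨g2892, ⟨g2895, ⟨g2896, ⟨g2898, trivial⟩⟩⟩⟩
theorem g2900 : Good XX 15 p2900 := rs15 c2900 rfl trivial
theorem g2901 : Good XX 15 p2901 := rs15 c2901 rfl trivial
theorem g2902 : Good XX 15 p2902 := rs15 c2902 rfl trivial
theorem g2903 : Good XX 15 p2903 := rs15 c2903 rfl ⟨g2902, trivial⟩
theorem g2904 : Good XX 15 p2904 := rs15 c2904 rfl trivial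
theorem g2905 : Good XX 15 p2905 := rs15 c2905 rfl ⟨g2904, trivial⟩
theorem g2906 : Good XX 15 p2906 := rs15 c2906 rfl trivial
theorem g2907 : Good XX 15 p2907 := rs15 c2907 rfl trivial
theorem g2908 : Good XX 15 p2908 := rs15 c2908 rfl ⟨g2906, ⟨g2907, trivial⟩⟩
theorem g2909 : Good XX 15 p2909 := rs15 c2909 rfl trivial
theorem g2910 : Good XX 15 p2910 := rs15 c2910 rfl ⟨g2909, trivial⟩
theorem g2911 : Good XX 15 p2911 := rs15 c2911 rfl trivial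
theorem g2912 : Good XX 15 p2912 := rs15 c2912 rfl trivial
theorem g2913 : Good XX 15 p2913 := rs15 c2913 rfl ⟨g2911, ⟨g2912, trivial⟩⟩
theorem g2914 : Good XX 15 p2914 := rs15 c2914 rfl trivial
theorem g2915 : Good XX 15 p2915 := rs15 c2915 rfl trivial
theorem g2916 : Good XX 15 p2916 := rs15 c2916 rfl trivial
theorem g2917 : Good XX 15 p2917 := rs15 c2917 rfl ⟨g2915, ⟨g2916, trivial⟩⟩
theorem g2918 : Good XX 15 p2918 := rs15 c2918 rfl trivial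
theorem g2919 : Good XX 15 p2919 := rs15 c2919 rfl trivial
theorem g2920 : Good XX 15 p2920 := rs15 c2920 rfl ⟨g2918, ⟨g2919, trivial⟩⟩
theorem g2921 : Good XX 15 p2921 := rs15 c2921 rfl trivial
theorem g2922 : Good XX 15 p2922 := rs15 c2922 rfl trivial
theorem g2923 : Good XX 15 p2923 := rs15 c2923 rfl trivial
theorem g2924 : Good XX 15 p2924 := rs15 c2924 rfl trivial
theorem g2925 : Good XX 15 p2925 := rs15 c2925 rfl trivial
theorem g2926 : Good XX 15 p2926 := rs15 c2926 rfl ⟨g2921, ⟨g2922, ⟨g2923, ⟨g2924, ⟨g2925, trivial⟩⟩⟩⟩⟩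
theorem g2927 : Good XX 15 p2927 := rs15 c2927 rfl trivial
theorem g2928 : Good XX 15 p2928 := rs15 c2928 rfl trivial
theorem g2929 : Good XX 15 p2929 := rs15 c2929 rfl trivial
theorem g2930 : Good XX 15 p2930 := rs15 c2930 rfl ⟨g2927, ⟨g2928, ⟨g2929, trivial⟩⟩⟩
theorem g2931 : Good XX 15 p2931 := rs15 c2931 rfl ⟨g2900, ⟨g2901, ⟨g2903, ⟨g2905, ⟨g2908, ⟨g2910, ⟨g2913, ⟨g2914, ⟨g2917, ⟨g2920, ⟨g2926, ⟨g2930, trivial⟩⟩⟩⟩⟩⟩⟩⟩⟩⟩⟩⟩
theorem g2932 : Good XX 15 p2932 := rs15 c2932 rfl trivial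
theorem g2933 : Good XX 15 p2933 := rs15 c2933 rfl trivial
theorem g2934 : Good XX 15 p2934 := rs15 c2934 rfl trivial
theorem g2935 : Good XX 15 p2935 := rs15 c2935 rfl trivial
theorem g2936 : Good XX 15 p2936 := rs15 c2936 rfl ⟨g2935, trivial⟩
theorem g2937 : Good XX 15 p2937 := rs15 c2937 rfl trivial
theorem g2938 : Good XX 15 p2938 := rs15 c2938 rfl trivial
theorem g2939 : Good XX 15 p2939 := rs15 c2939 rfl trivial
theorem g2940 : Good XX 15 p2940 := rs15 c2940 rfl trivial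
theorem g2941 : Good XX 15 p2941 := rs15 c2941 rfl trivial
theorem g2942 : Good XX 15 p2942 := rs15 c2942 rfl ⟨g2938, ⟨g2939, ⟨g2940, ⟨g2941, trivial⟩⟩⟩⟩
theorem g2943 : Good XX 15 p2943 := rs15 c2943 rfl trivial
theorem g2944 : Good XX 15 p2944 := rs15 c2944 rfl trivial
theorem g2945 : Good XX 15 p2945 := rs15 c2945 rfl trivial
theorem g2946 : Good XX 15 p2946 := rs15 c2946 rfl trivial
theorem g2947 : Good XX 15 p2947 := rs15 c2947 rfl trivial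
theorem g2948 : Good XX 15 p2948 := rs15 c2948 rfl trivial
theorem g2949 : Good XX 15 p2949 := rs15 c2949 rfl ⟨g2943, ⟨g2944, ⟨g2945, ⟨g2946, ⟨g2947, ⟨g2948, trivial⟩⟩⟩⟩⟩⟩
theorem g2950 : Good XX 15 p2950 := rs15 c2950 rfl trivial
theorem g2951 : Good XX 15 p2951 := rs15 c2951 rfl trivial
theorem g2952 : Good XX 15 p2952 := rs15 c2952 rfl trivial
theorem g2953 : Good XX 15 p2953 := rs15 c2953 rfl ⟨g2950, ⟨g2951, ⟨g2952, trivial⟩⟩⟩
theorem g2954 : Good XX 15 p2954 := rs15 c2954 rfl trivial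
theorem g2955 : Good XX 15 p2955 := rs15 c2955 rfl trivial
theorem g2956 : Good XX 15 p2956 := rs15 c2956 rfl trivial
theorem g2957 : Good XX 15 p2957 := rs15 c2957 rfl trivial
theorem g2958 : Good XX 15 p2958 := rs15 c2958 rfl trivial
theorem g2959 : Good XX 15 p2959 := rs15 c2959 rfl trivial
theorem g2960 : Good XX 15 p2960 := rs15 c2960 rfl trivial
theorem g2961 : Good XX 15 p2961 := rs15 c2961 rfl trivial
theorem g2962 : Good XX 15 p2962 := rs15 c2962 rfl trivial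
theorem g2963 : Good XX 15 p2963 := rs15 c2963 rfl trivial
theorem g2964 : Good XX 15 p2964 := rs15 c2964 rfl trivial
theorem g2965 : Good XX 15 p2965 := rs15 c2965 rfl ⟨g2954, ⟨g2955, ⟨g2956, ⟨g2957, ⟨g2958, ⟨g2959, ⟨g2960, ⟨g2961, ⟨g2962, ⟨g2963, ⟨g2964, trivial⟩⟩⟩⟩⟩⟩⟩⟩⟩⟩⟩
theorem g2966 : Good XX 15 p2966 := rs15 c2966 rfl trivial
theorem g2967 : Good XX 15 p2967 := rs15 c2967 rfl trivial
theorem g2968 : Good XX 15 p2968 := rs15 c2968 rfl trivial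
theorem g2969 : Good XX 15 p2969 := rs15 c2969 rfl trivial
theorem g2970 : Good XX 15 p2970 := rs15 c2970 rfl trivial
theorem g2971 : Good XX 15 p2971 := rs15 c2971 rfl trivial
theorem g2972 : Good XX 15 p2972 := rs15 c2972 rfl trivial
theorem g2973 : Good XX 15 p2973 := rs15 c2973 rfl ⟨g2971, ⟨g2972, trivial⟩⟩
theorem g2974 : Good XX 15 p2974 := rs15 c2974 rfl trivial
theorem g2975 : Good XX 15 p2975 := rs15 c2975 rfl trivial
theorem g2976 : Good XX 15 p2976 := rs15 c2976 rfl trivial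
theorem g2977 : Good XX 15 p2977 := rs15 c2977 rfl ⟨g2974, ⟨g2975, ⟨g2976, trivial⟩⟩⟩
theorem g2978 : Good XX 15 p2978 := rs15 c2978 rfl trivial
theorem g2979 : Good XX 15 p2979 := rs15 c2979 rfl trivial
theorem g2980 : Good XX 15 p2980 := rs15 c2980 rfl ⟨g2978, ⟨g2979, trivial⟩⟩
theorem g2981 : Good XX 15 p2981 := rs15 c2981 rfl trivial
theorem g2982 : Good XX 15 p2982 := rs15 c2982 rfl trivial
theorem g2983 : Good XX 15 p2983 := rs15 c2983 rfl trivial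
theorem g2984 : Good XX 15 p2984 := rs15 c2984 rfl ⟨g2981, ⟨g2982, ⟨g2983, trivial⟩⟩⟩
theorem g2985 : Good XX 15 p2985 := rs15 c2985 rfl trivial
theorem g2986 : Good XX 15 p2986 := rs15 c2986 rfl trivial
theorem g2987 : Good XX 15 p2987 := rs15 c2987 rfl trivial
theorem g2988 : Good XX 15 p2988 := rs15 c2988 rfl trivial
theorem g2989 : Good XX 15 p2989 := rs15 c2989 rfl trivial
theorem g2990 : Good XX 15 p2990 := rs15 c2990 rfl trivial
theorem g2991 : Good XX 15 p2991 := rs15 c2991 rfl trivial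
theorem g2992 : Good XX 15 p2992 := rs15 c2992 rfl ⟨g2985, ⟨g2986, ⟨g2987, ⟨g2988, ⟨g2989, ⟨g2990, ⟨g2991, trivial⟩⟩⟩⟩⟩⟩⟩
theorem g2993 : Good XX 15 p2993 := rs15 c2993 rfl ⟨g2650, ⟨g2662, ⟨g2667, ⟨g2668, ⟨g2669, ⟨g2686, ⟨g2687, ⟨g2690, ⟨g2691, ⟨g2692, ⟨g2693, ⟨g2709, ⟨g2822, ⟨g2847, ⟨g2852, ⟨g2889, ⟨g2899, ⟨g2931, ⟨g2932, ⟨g2933, ⟨g2934, ⟨g2936, ⟨g2937, ⟨g2942, ⟨g2949, ⟨g2953, ⟨g2965, ⟨g2966, ⟨g2967, ⟨g2968, ⟨g2969, ⟨g2970, ⟨g2973, ⟨g2977, ⟨g2980, ⟨g2984, ⟨g2992, trivial⟩⟩⟩⟩⟩⟩⟩⟩⟩⟩⟩⟩⟩⟩⟩⟩⟩⟩⟩⟩⟩⟩⟩⟩⟩⟩⟩⟩⟩⟩⟩⟩⟩⟩⟩⟩⟩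
theorem g2994 : Good XX 15 p2994 := rs15 c2994 rfl trivial
theorem g2995 : Good XX 15 p2995 := rs15 c2995 rfl trivial
theorem g2996 : Good XX 15 p2996 := rs15 c2996 rfl trivial
theorem g2997 : Good XX 15 p2997 := rs15 c2997 rfl trivial
theorem g2998 : Good XX 15 p2998 := rs15 c2998 rfl ⟨g2997, trivial⟩
theorem g2999 : Good XX 15 p2999 := rs15 c2999 rfl trivial
theorem g3000 : Good XX 15 p3000 := rs15 c3000 rfl trivial
theorem g3001 : Good XX 15 p3001 := rs15 c3001 rfl trivial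
theorem g3002 : Good XX 15 p3002 := rs15 c3002 rfl trivial
theorem g3003 : Good XX 15 p3003 := rs15 c3003 rfl trivial
theorem g3004 : Good XX 15 p3004 := rs15 c3004 rfl trivial
theorem g3005 : Good XX 15 p3005 := rs15 c3005 rfl trivial
theorem g3006 : Good XX 15 p3006 := rs15 c3006 rfl trivial
theorem g3007 : Good XX 15 p3007 := rs15 c3007 rfl ⟨g3004, ⟨g3005, ⟨g3006, trivial⟩⟩⟩
theorem g3008 : Good XX 15 p3008 := rs15 c3008 rfl trivial
theorem g3009 : Good XX 15 p3009 := rs15 c3009 rfl trivial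
theorem g3010 : Good XX 15 p3010 := rs15 c3010 rfl trivial
theorem g3011 : Good XX 15 p3011 := rs15 c3011 rfl trivial
theorem g3012 : Good XX 15 p3012 := rs15 c3012 rfl trivial
theorem g3013 : Good XX 15 p3013 := rs15 c3013 rfl ⟨g3009, ⟨g3010, ⟨g3011, ⟨g3012, trivial⟩⟩⟩⟩
theorem g3014 : Good XX 15 p3014 := rs15 c3014 rfl trivial
theorem g3015 : Good XX 15 p3015 := rs15 c3015 rfl trivial
theorem g3016 : Good XX 15 p3016 := rs15 c3016 rfl ⟨g3014, ⟨g3015, trivial⟩⟩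
theorem g3017 : Good XX 15 p3017 := rs15 c3017 rfl ⟨g3002, ⟨g3003, ⟨g3007, ⟨g3008, ⟨g3013, ⟨g3016, trivial⟩⟩⟩⟩⟩⟩
theorem g3018 : Good XX 15 p3018 := rs15 c3018 rfl trivial
theorem g3019 : Good XX 15 p3019 := rs15 c3019 rfl trivial
theorem g3020 : Good XX 15 p3020 := rs15 c3020 rfl trivial
theorem g3021 : Good XX 15 p3021 := rs15 c3021 rfl trivial
theorem g3022 : Good XX 15 p3022 := rs15 c3022 rfl ⟨g3021, trivial⟩
theorem g3023 : Good XX 15 p3023 := rs15 c3023 rfl trivial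
theorem g3024 : Good XX 15 p3024 := rs15 c3024 rfl ⟨g3023, trivial⟩
theorem g3025 : Good XX 15 p3025 := rs15 c3025 rfl trivial
theorem g3026 : Good XX 15 p3026 := rs15 c3026 rfl trivial
theorem g3027 : Good XX 15 p3027 := rs15 c3027 rfl ⟨g3025, ⟨g3026, trivial⟩⟩
theorem g3028 : Good XX 15 p3028 := rs15 c3028 rfl trivial
theorem g3029 : Good XX 15 p3029 := rs15 c3029 rfl ⟨g3028, trivial⟩
theorem g3030 : Good XX 15 p3030 := rs15 c3030 rfl trivial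
theorem g3031 : Good XX 15 p3031 := rs15 c3031 rfl trivial
theorem g3032 : Good XX 15 p3032 := rs15 c3032 rfl trivial
theorem g3033 : Good XX 15 p3033 := rs15 c3033 rfl trivial
theorem g3034 : Good XX 15 p3034 := rs15 c3034 rfl ⟨g3030, ⟨g3031, ⟨g3032, ⟨g3033, trivial⟩⟩⟩⟩
theorem g3035 : Good XX 15 p3035 := rs15 c3035 rfl ⟨g3018, ⟨g3019, ⟨g3020, ⟨g3022, ⟨g3024, ⟨g3027, ⟨g3029, ⟨g3034, trivial⟩⟩⟩⟩⟩⟩⟩⟩
theorem g3036 : Good XX 15 p3036 := rs15 c3036 rfl trivial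
theorem g3037 : Good XX 15 p3037 := rs15 c3037 rfl trivial
theorem g3038 : Good XX 15 p3038 := rs15 c3038 rfl trivial
theorem g3039 : Good XX 15 p3039 := rs15 c3039 rfl trivial
theorem g3040 : Good XX 15 p3040 := rs15 c3040 rfl trivial
theorem g3041 : Good XX 15 p3041 := rs15 c3041 rfl trivial
theorem g3042 : Good XX 15 p3042 := rs15 c3042 rfl trivial
theorem g3043 : Good XX 15 p3043 := rs15 c3043 rfl trivial
theorem g3044 : Good XX 15 p3044 := rs15 c3044 rfl trivial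
theorem g3045 : Good XX 15 p3045 := rs15 c3045 rfl ⟨g3041, ⟨g3042, ⟨g3043, ⟨g3044, trivial⟩⟩⟩⟩
theorem g3046 : Good XX 15 p3046 := rs15 c3046 rfl trivial
theorem g3047 : Good XX 15 p3047 := rs15 c3047 rfl trivial
theorem g3048 : Good XX 15 p3048 := rs15 c3048 rfl trivial
theorem g3049 : Good XX 15 p3049 := rs15 c3049 rfl trivial
theorem g3050 : Good XX 15 p3050 := rs15 c3050 rfl trivial
theorem g3051 : Good XX 15 p3051 := rs15 c3051 rfl ⟨g3046, ⟨g3047, ⟨g3048, ⟨g3049, ⟨g3050, trivial⟩⟩⟩⟩⟩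
theorem g3052 : Good XX 15 p3052 := rs15 c3052 rfl trivial
theorem g3053 : Good XX 15 p3053 := rs15 c3053 rfl trivial
theorem g3054 : Good XX 15 p3054 := rs15 c3054 rfl trivial
theorem g3055 : Good XX 15 p3055 := rs15 c3055 rfl trivial
theorem g3056 : Good XX 15 p3056 := rs15 c3056 rfl trivial
theorem g3057 : Good XX 15 p3057 := rs15 c3057 rfl ⟨g3052, ⟨g3053, ⟨g3054, ⟨g3055, ⟨g3056, trivial⟩⟩⟩⟩⟩
theorem g3058 : Good XX 15 p3058 := rs15 c3058 rfl trivial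
theorem g3059 : Good XX 15 p3059 := rs15 c3059 rfl ⟨g3058, trivial⟩
theorem g3060 : Good XX 15 p3060 := rs15 c3060 rfl trivial
theorem g3061 : Good XX 15 p3061 := rs15 c3061 rfl trivial
theorem g3062 : Good XX 15 p3062 := rs15 c3062 rfl trivial
theorem g3063 : Good XX 15 p3063 := rs15 c3063 rfl trivial
theorem g3064 : Good XX 15 p3064 := rs15 c3064 rfl trivial
theorem g3065 : Good XX 15 p3065 := rs15 c3065 rfl trivial
theorem g3066 : Good XX 15 p3066 := rs15 c3066 rfl trivial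
theorem g3067 : Good XX 15 p3067 := rs15 c3067 rfl ⟨g3060, ⟨g3061, ⟨g3062, ⟨g3063, ⟨g3064, ⟨g3065, ⟨g3066, trivial⟩⟩⟩⟩⟩⟩⟩
theorem g3068 : Good XX 15 p3068 := rs15 c3068 rfl ⟨g3036, ⟨g3037, ⟨g3038, ⟨g3039, ⟨g3040, ⟨g3045, ⟨g3051, ⟨g3057, ⟨g3059, ⟨g3067, trivial⟩⟩⟩⟩⟩⟩⟩⟩⟩⟩
theorem g3069 : Good XX 15 p3069 := rs15 c3069 rfl trivial
theorem g3070 : Good XX 15 p3070 := rs15 c3070 rfl ⟨g3069, trivial⟩
theorem g3071 : Good XX 15 p3071 := rs15 c3071 rfl trivial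
theorem g3072 : Good XX 15 p3072 := rs15 c3072 rfl trivial
theorem g3073 : Good XX 15 p3073 := rs15 c3073 rfl ⟨g3071, ⟨g3072, trivial⟩⟩
theorem g3074 : Good XX 15 p3074 := rs15 c3074 rfl ⟨g3070, ⟨g3073, trivial⟩⟩
theorem g3075 : Good XX 15 p3075 := rs15 c3075 rfl trivial
theorem g3076 : Good XX 15 p3076 := rs15 c3076 rfl trivial
theorem g3077 : Good XX 15 p3077 := rs15 c3077 rfl trivial
theorem g3078 : Good XX 15 p3078 := rs15 c3078 rfl trivial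
theorem g3079 : Good XX 15 p3079 := rs15 c3079 rfl trivial
theorem g3080 : Good XX 15 p3080 := rs15 c3080 rfl ⟨g3078, ⟨g3079, trivial⟩⟩
theorem g3081 : Good XX 15 p3081 := rs15 c3081 rfl trivial
theorem g3082 : Good XX 15 p3082 := rs15 c3082 rfl trivial
theorem g3083 : Good XX 15 p3083 := rs15 c3083 rfl ⟨g3082, trivial⟩
theorem g3084 : Good XX 15 p3084 := rs15 c3084 rfl ⟨g3075, ⟨g3076, ⟨g3077, ⟨g3080, ⟨g3081, ⟨g3083, trivial⟩⟩⟩⟩⟩⟩
theorem g3085 : Good XX 15 p3085 := rs15 c3085 rfl trivial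
theorem g3086 : Good XX 15 p3086 := rs15 c3086 rfl trivial
theorem g3087 : Good XX 15 p3087 := rs15 c3087 rfl trivial
theorem g3088 : Good XX 15 p3088 := rs15 c3088 rfl trivial
theorem g3089 : Good XX 15 p3089 := rs15 c3089 rfl trivial
theorem g3090 : Good XX 15 p3090 := rs15 c3090 rfl trivial
theorem g3091 : Good XX 15 p3091 := rs15 c3091 rfl ⟨g3087, ⟨g3088, ⟨g3089, ⟨g3090, trivial⟩⟩⟩⟩
theorem g3092 : Good XX 15 p3092 := rs15 c3092 rfl trivial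
theorem g3093 : Good XX 15 p3093 := rs15 c3093 rfl trivial
theorem g3094 : Good XX 15 p3094 := rs15 c3094 rfl trivial
theorem g3095 : Good XX 15 p3095 := rs15 c3095 rfl trivial
theorem g3096 : Good XX 15 p3096 := rs15 c3096 rfl trivial
theorem g3097 : Good XX 15 p3097 := rs15 c3097 rfl trivial
theorem g3098 : Good XX 15 p3098 := rs15 c3098 rfl ⟨g3095, ⟨g3096, ⟨g3097, trivial⟩⟩⟩
theorem g3099 : Good XX 15 p3099 := rs15 c3099 rfl trivial
theorem g3100 : Good XX 15 p3100 := rs15 c3100 rfl ⟨g3099, trivial⟩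
theorem g3101 : Good XX 15 p3101 := rs15 c3101 rfl trivial
theorem g3102 : Good XX 15 p3102 := rs15 c3102 rfl trivial
theorem g3103 : Good XX 15 p3103 := rs15 c3103 rfl trivial
theorem g3104 : Good XX 15 p3104 := rs15 c3104 rfl trivial
theorem g3105 : Good XX 15 p3105 := rs15 c3105 rfl trivial
theorem g3106 : Good XX 15 p3106 := rs15 c3106 rfl ⟨g3101, ⟨g3102, ⟨g3103, ⟨g3104, ⟨g3105, trivial⟩⟩⟩⟩⟩
theorem g3107 : Good XX 15 p3107 := rs15 c3107 rfl trivial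
theorem g3108 : Good XX 15 p3108 := rs15 c3108 rfl trivial
theorem g3109 : Good XX 15 p3109 := rs15 c3109 rfl trivial
theorem g3110 : Good XX 15 p3110 := rs15 c3110 rfl trivial
theorem g3111 : Good XX 15 p3111 := rs15 c3111 rfl trivial
theorem g3112 : Good XX 15 p3112 := rs15 c3112 rfl ⟨g3107, ⟨g3108, ⟨g3109, ⟨g3110, ⟨g3111, trivial⟩⟩⟩⟩⟩
theorem g3113 : Good XX 15 p3113 := rs15 c3113 rfl trivial
theorem g3114 : Good XX 15 p3114 := rs15 c3114 rfl trivial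
theorem g3115 : Good XX 15 p3115 := rs15 c3115 rfl trivial
theorem g3116 : Good XX 15 p3116 := rs15 c3116 rfl ⟨g3113, ⟨g3114, ⟨g3115, trivial⟩⟩⟩
theorem g3117 : Good XX 15 p3117 := rs15 c3117 rfl trivial
theorem g3118 : Good XX 15 p3118 := rs15 c3118 rfl trivial
theorem g3119 : Good XX 15 p3119 := rs15 c3119 rfl trivial
theorem g3120 : Good XX 15 p3120 := rs15 c3120 rfl trivial
theorem g3121 : Good XX 15 p3121 := rs15 c3121 rfl trivial
theorem g3122 : Good XX 15 p3122 := rs15 c3122 rfl trivial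
theorem g3123 : Good XX 15 p3123 := rs15 c3123 rfl trivial
theorem g3124 : Good XX 15 p3124 := rs15 c3124 rfl trivial
theorem g3125 : Good XX 15 p3125 := rs15 c3125 rfl trivial
theorem g3126 : Good XX 15 p3126 := rs15 c3126 rfl trivial
theorem g3127 : Good XX 15 p3127 := rs15 c3127 rfl trivial
theorem g3128 : Good XX 15 p3128 := rs15 c3128 rfl ⟨g3117, ⟨g3118, ⟨g3119, ⟨g3120, ⟨g3121, ⟨g3122, ⟨g3123, ⟨g3124, ⟨g3125, ⟨g3126, ⟨g3127, trivial⟩⟩⟩⟩⟩⟩⟩⟩⟩⟩⟩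
theorem g3129 : Good XX 15 p3129 := rs15 c3129 rfl ⟨g3085, ⟨g3086, ⟨g3091, ⟨g3092, ⟨g3093, ⟨g3094, ⟨g3098, ⟨g3100, ⟨g3106, ⟨g3112, ⟨g3116, ⟨g3128, trivial⟩⟩⟩⟩⟩⟩⟩⟩⟩⟩⟩⟩
theorem g3130 : Good XX 15 p3130 := rs15 c3130 rfl trivial
theorem g3131 : Good XX 15 p3131 := rs15 c3131 rfl trivial
theorem g3132 : Good XX 15 p3132 := rs15 c3132 rfl trivial
theorem g3133 : Good XX 15 p3133 := rs15 c3133 rfl trivial
theorem g3134 : Good XX 15 p3134 := rs15 c3134 rfl trivial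
theorem g3135 : Good XX 15 p3135 := rs15 c3135 rfl trivial
theorem g3136 : Good XX 15 p3136 := rs15 c3136 rfl ⟨g3133, ⟨g3134, ⟨g3135, trivial⟩⟩⟩
theorem g3137 : Good XX 15 p3137 := rs15 c3137 rfl trivial
theorem g3138 : Good XX 15 p3138 := rs15 c3138 rfl trivial
theorem g3139 : Good XX 15 p3139 := rs15 c3139 rfl trivial
theorem g3140 : Good XX 15 p3140 := rs15 c3140 rfl ⟨g3139, trivial⟩
theorem g3141 : Good XX 15 p3141 := rs15 c3141 rfl trivial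
theorem g3142 : Good XX 15 p3142 := rs15 c3142 rfl trivial
theorem g3143 : Good XX 15 p3143 := rs15 c3143 rfl trivial
theorem g3144 : Good XX 15 p3144 := rs15 c3144 rfl trivial
theorem g3145 : Good XX 15 p3145 := rs15 c3145 rfl ⟨g3141, ⟨g3142, ⟨g3143, ⟨g3144, trivial⟩⟩⟩⟩
theorem g3146 : Good XX 15 p3146 := rs15 c3146 rfl trivial
theorem g3147 : Good XX 15 p3147 := rs15 c3147 rfl ⟨g3146, trivial⟩
theorem g3148 : Good XX 15 p3148 := rs15 c3148 rfl trivial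
theorem g3149 : Good XX 15 p3149 := rs15 c3149 rfl trivial
theorem g3150 : Good XX 15 p3150 := rs15 c3150 rfl ⟨g3148, ⟨g3149, trivial⟩⟩
theorem g3151 : Good XX 15 p3151 := rs15 c3151 rfl trivial
theorem g3152 : Good XX 15 p3152 := rs15 c3152 rfl ⟨g3151, trivial⟩
theorem g3153 : Good XX 15 p3153 := rs15 c3153 rfl trivial
theorem g3154 : Good XX 15 p3154 := rs15 c3154 rfl ⟨g3153, trivial⟩
theorem g3155 : Good XX 15 p3155 := rs15 c3155 rfl trivial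
theorem g3156 : Good XX 15 p3156 := rs15 c3156 rfl trivial
theorem g3157 : Good XX 15 p3157 := rs15 c3157 rfl trivial
theorem g3158 : Good XX 15 p3158 := rs15 c3158 rfl trivial
theorem g3159 : Good XX 15 p3159 := rs15 c3159 rfl trivial
theorem g3160 : Good XX 15 p3160 := rs15 c3160 rfl ⟨g3130, ⟨g3131, ⟨g3132, ⟨g3136, ⟨g3137, ⟨g3138, ⟨g3140, ⟨g3145, ⟨g3147, ⟨g3150, ⟨g3152, ⟨g3154, ⟨g3155, ⟨g3156, ⟨g3157, ⟨g3158, ⟨g3159, trivial⟩⟩⟩⟩⟩⟩⟩⟩⟩⟩⟩⟩⟩⟩⟩⟩⟩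
theorem g3161 : Good XX 15 p3161 := rs15 c3161 rfl trivial
theorem g3162 : Good XX 15 p3162 := rs15 c3162 rfl trivial
theorem g3163 : Good XX 15 p3163 := rs15 c3163 rfl trivial
theorem g3164 : Good XX 15 p3164 := rs15 c3164 rfl trivial
theorem g3165 : Good XX 15 p3165 := rs15 c3165 rfl trivial
theorem g3166 : Good XX 15 p3166 := rs15 c3166 rfl trivial
theorem g3167 : Good XX 15 p3167 := rs15 c3167 rfl ⟨g3164, ⟨g3165, ⟨g3166, trivial⟩⟩⟩
theorem g3168 : Good XX 15 p3168 := rs15 c3168 rfl trivial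
theorem g3169 : Good XX 15 p3169 := rs15 c3169 rfl trivial
theorem g3170 : Good XX 15 p3170 := rs15 c3170 rfl ⟨g3169, trivial⟩
theorem g3171 : Good XX 15 p3171 := rs15 c3171 rfl trivial
theorem g3172 : Good XX 15 p3172 := rs15 c3172 rfl trivial
theorem g3173 : Good XX 15 p3173 := rs15 c3173 rfl trivial
theorem g3174 : Good XX 15 p3174 := rs15 c3174 rfl trivial
theorem g3175 : Good XX 15 p3175 := rs15 c3175 rfl ⟨g3172, ⟨g3173, ⟨g3174, trivial⟩⟩⟩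
theorem g3176 : Good XX 15 p3176 := rs15 c3176 rfl trivial
theorem g3177 : Good XX 15 p3177 := rs15 c3177 rfl trivial
theorem g3178 : Good XX 15 p3178 := rs15 c3178 rfl trivial
theorem g3179 : Good XX 15 p3179 := rs15 c3179 rfl trivial
theorem g3180 : Good XX 15 p3180 := rs15 c3180 rfl trivial
theorem g3181 : Good XX 15 p3181 := rs15 c3181 rfl trivial
theorem g3182 : Good XX 15 p3182 := rs15 c3182 rfl trivial
theorem g3183 : Good XX 15 p3183 := rs15 c3183 rfl trivial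
theorem g3184 : Good XX 15 p3184 := rs15 c3184 rfl trivial
theorem g3185 : Good XX 15 p3185 := rs15 c3185 rfl ⟨g3184, trivial⟩
theorem g3186 : Good XX 15 p3186 := rs15 c3186 rfl ⟨g3161, ⟨g3162, ⟨g3163, ⟨g3167, ⟨g3168, ⟨g3170, ⟨g3171, ⟨g3175, ⟨g3176, ⟨g3177, ⟨g3178, ⟨g3179, ⟨g3180, ⟨g3181, ⟨g3182, ⟨g3183, ⟨g3185, trivial⟩⟩⟩⟩⟩⟩⟩⟩⟩⟩⟩⟩⟩⟩⟩⟩⟩
theorem g3187 : Good XX 15 p3187 := rs15 c3187 rfl trivial
theorem g3188 : Good XX 15 p3188 := rs15 c3188 rfl trivial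
theorem g3189 : Good XX 15 p3189 := rs15 c3189 rfl trivial
theorem g3190 : Good XX 15 p3190 := rs15 c3190 rfl trivial
theorem g3191 : Good XX 15 p3191 := rs15 c3191 rfl trivial
theorem g3192 : Good XX 15 p3192 := rs15 c3192 rfl trivial
theorem g3193 : Good XX 15 p3193 := rs15 c3193 rfl ⟨g3192, trivial⟩
theorem g3194 : Good XX 15 p3194 := rs15 c3194 rfl trivial
theorem g3195 : Good XX 15 p3195 := rs15 c3195 rfl ⟨g3187, ⟨g3188, ⟨g3189, ⟨g3190, ⟨g3191, ⟨g3193, ⟨g3194, trivial⟩⟩⟩⟩⟩⟩⟩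
theorem g3196 : Good XX 15 p3196 := rs15 c3196 rfl ⟨g2994, ⟨g2995, ⟨g2996, ⟨g2998, ⟨g2999, ⟨g3000, ⟨g3001, ⟨g3017, ⟨g3035, ⟨g3068, ⟨g3074, ⟨g3084, ⟨g3129, ⟨g3160, ⟨g3186, ⟨g3195, trivial⟩⟩⟩⟩⟩⟩⟩⟩⟩⟩⟩⟩⟩⟩⟩⟩
theorem g3197 : Good XX 15 p3197 := rs15 c3197 rfl trivial
theorem g3198 : Good XX 15 p3198 := rs15 c3198 rfl trivial
theorem g3199 : Good XX 15 p3199 := rs15 c3199 rfl trivial
theorem g3200 : Good XX 15 p3200 := rs15 c3200 rfl trivial
theorem g3201 : Good XX 15 p3201 := rs15 c3201 rfl trivial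
theorem g3202 : Good XX 15 p3202 := rs15 c3202 rfl trivial
theorem g3203 : Good XX 15 p3203 := rs15 c3203 rfl trivial
theorem g3204 : Good XX 15 p3204 := rs15 c3204 rfl trivial
theorem g3205 : Good XX 15 p3205 := rs15 c3205 rfl trivial
theorem g3206 : Good XX 15 p3206 := rs15 c3206 rfl trivial
theorem g3207 : Good XX 15 p3207 := rs15 c3207 rfl trivial
theorem g3208 : Good XX 15 p3208 := rs15 c3208 rfl trivial
theorem g3209 : Good XX 15 p3209 := rs15 c3209 rfl trivial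
theorem g3210 : Good XX 15 p3210 := rs15 c3210 rfl trivial
theorem g3211 : Good XX 15 p3211 := rs15 c3211 rfl trivial
theorem g3212 : Good XX 15 p3212 := rs15 c3212 rfl trivial
theorem g3213 : Good XX 15 p3213 := rs15 c3213 rfl trivial
theorem g3214 : Good XX 15 p3214 := rs15 c3214 rfl ⟨g3213, trivial⟩
theorem g3215 : Good XX 15 p3215 := rs15 c3215 rfl trivial
theorem g3216 : Good XX 15 p3216 := rs15 c3216 rfl ⟨g3214, ⟨g3215, trivial⟩⟩
theorem g3217 : Good XX 15 p3217 := rs15 c3217 rfl trivial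
theorem g3218 : Good XX 15 p3218 := rs15 c3218 rfl trivial
theorem g3219 : Good XX 15 p3219 := rs15 c3219 rfl trivial
theorem g3220 : Good XX 15 p3220 := rs15 c3220 rfl trivial
theorem g3221 : Good XX 15 p3221 := rs15 c3221 rfl ⟨g3199, ⟨g3200, ⟨g3201, ⟨g3202, ⟨g3203, ⟨g3204, ⟨g3205, ⟨g3206, ⟨g3207, ⟨g3208, ⟨g3209, ⟨g3210, ⟨g3211, ⟨g3212, ⟨g3216, ⟨g3217, ⟨g3218, ⟨g3219, ⟨g3220, trivial⟩⟩⟩⟩⟩⟩⟩⟩⟩⟩⟩⟩⟩⟩⟩⟩⟩⟩⟩
theorem g3222 : Good XX 15 p3222 := rs15 c3222 rfl trivial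
theorem g3223 : Good XX 15 p3223 := rs15 c3223 rfl trivial
theorem g3224 : Good XX 15 p3224 := rs15 c3224 rfl ⟨g3222, ⟨g3223, trivial⟩⟩
theorem g3225 : Good XX 15 p3225 := rs15 c3225 rfl trivial
theorem g3226 : Good XX 15 p3226 := rs15 c3226 rfl trivial
theorem g3227 : Good XX 15 p3227 := rs15 c3227 rfl trivial
theorem g3228 : Good XX 15 p3228 := rs15 c3228 rfl ⟨g3226, ⟨g3227, trivial⟩⟩
theorem g3229 : Good XX 15 p3229 := rs15 c3229 rfl trivial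
theorem g3230 : Good XX 15 p3230 := rs15 c3230 rfl trivial
theorem g3231 : Good XX 15 p3231 := rs15 c3231 rfl trivial
theorem g3232 : Good XX 15 p3232 := rs15 c3232 rfl trivial
theorem g3233 : Good XX 15 p3233 := rs15 c3233 rfl ⟨g3232, trivial⟩
theorem g3234 : Good XX 15 p3234 := rs15 c3234 rfl trivial
theorem g3235 : Good XX 15 p3235 := rs15 c3235 rfl trivial
theorem g3236 : Good XX 15 p3236 := rs15 c3236 rfl trivial
theorem g3237 : Good XX 15 p3237 := rs15 c3237 rfl trivial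
theorem g3238 : Good XX 15 p3238 := rs15 c3238 rfl trivial
theorem g3239 : Good XX 15 p3239 := rs15 c3239 rfl trivial
theorem g3240 : Good XX 15 p3240 := rs15 c3240 rfl trivial
theorem g3241 : Good XX 15 p3241 := rs15 c3241 rfl trivial
theorem g3242 : Good XX 15 p3242 := rs15 c3242 rfl trivial
theorem g3243 : Good XX 15 p3243 := rs15 c3243 rfl trivial
theorem g3244 : Good XX 15 p3244 := rs15 c3244 rfl ⟨g3234, ⟨g3235, ⟨g3236, ⟨g3237, ⟨g3238, ⟨g3239, ⟨g3240, ⟨g3241, ⟨g3242, ⟨g3243, trivial⟩⟩⟩⟩⟩⟩⟩⟩⟩⟩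
theorem g3245 : Good XX 15 p3245 := rs15 c3245 rfl trivial
theorem g3246 : Good XX 15 p3246 := rs15 c3246 rfl trivial
theorem g3247 : Good XX 15 p3247 := rs15 c3247 rfl trivial
theorem g3248 : Good XX 15 p3248 := rs15 c3248 rfl trivial
theorem g3249 : Good XX 15 p3249 := rs15 c3249 rfl trivial
theorem g3250 : Good XX 15 p3250 := rs15 c3250 rfl ⟨g3249, trivial⟩
theorem g3251 : Good XX 15 p3251 := rs15 c3251 rfl trivial
theorem g3252 : Good XX 15 p3252 := rs15 c3252 rfl trivial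
theorem g3253 : Good XX 15 p3253 := rs15 c3253 rfl trivial
theorem g3254 : Good XX 15 p3254 := rs15 c3254 rfl ⟨g3252, ⟨g3253, trivial⟩⟩
theorem g3255 : Good XX 15 p3255 := rs15 c3255 rfl trivial
theorem g3256 : Good XX 15 p3256 := rs15 c3256 rfl trivial
theorem g3257 : Good XX 15 p3257 := rs15 c3257 rfl trivial
theorem g3258 : Good XX 15 p3258 := rs15 c3258 rfl trivial
theorem g3259 : Good XX 15 p3259 := rs15 c3259 rfl ⟨g3255, ⟨g3256, ⟨g3257, ⟨g3258, trivial⟩⟩⟩⟩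
theorem g3260 : Good XX 15 p3260 := rs15 c3260 rfl trivial
theorem g3261 : Good XX 15 p3261 := rs15 c3261 rfl trivial
theorem g3262 : Good XX 15 p3262 := rs15 c3262 rfl trivial
theorem g3263 : Good XX 15 p3263 := rs15 c3263 rfl trivial
theorem g3264 : Good XX 15 p3264 := rs15 c3264 rfl ⟨g3263, trivial⟩
theorem g3265 : Good XX 15 p3265 := rs15 c3265 rfl trivial
theorem g3266 : Good XX 15 p3266 := rs15 c3266 rfl trivial
theorem g3267 : Good XX 15 p3267 := rs15 c3267 rfl trivial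
theorem g3268 : Good XX 15 p3268 := rs15 c3268 rfl trivial
theorem g3269 : Good XX 15 p3269 := rs15 c3269 rfl trivial
theorem g3270 : Good XX 15 p3270 := rs15 c3270 rfl ⟨g3233, ⟨g3244, ⟨g3245, ⟨g3246, ⟨g3247, ⟨g3248, ⟨g3250, ⟨g3251, ⟨g3254, ⟨g3259, ⟨g3260, ⟨g3261, ⟨g3262, ⟨g3264, ⟨g3265, ⟨g3266, ⟨g3267, ⟨g3268, ⟨g3269, trivial⟩⟩⟩⟩⟩⟩⟩⟩⟩⟩⟩⟩⟩⟩⟩⟩⟩⟩⟩
theorem g3271 : Good XX 15 p3271 := rs15 c3271 rfl trivial
theorem g3272 : Good XX 15 p3272 := rs15 c3272 rfl trivial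
theorem g3273 : Good XX 15 p3273 := rs15 c3273 rfl ⟨g3272, trivial⟩
theorem g3274 : Good XX 15 p3274 := rs15 c3274 rfl trivial
theorem g3275 : Good XX 15 p3275 := rs15 c3275 rfl ⟨g3274, trivial⟩
theorem g3276 : Good XX 15 p3276 := rs15 c3276 rfl trivial
theorem g3277 : Good XX 15 p3277 := rs15 c3277 rfl trivial
theorem g3278 : Good XX 15 p3278 := rs15 c3278 rfl trivial
theorem g3279 : Good XX 15 p3279 := rs15 c3279 rfl ⟨g3276, ⟨g3277, ⟨g3278, trivial⟩⟩⟩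
theorem g3280 : Good XX 15 p3280 := rs15 c3280 rfl trivial
theorem g3281 : Good XX 15 p3281 := rs15 c3281 rfl ⟨g3271, ⟨g3273, ⟨g3275, ⟨g3279, ⟨g3280, trivial⟩⟩⟩⟩⟩
theorem g3282 : Good XX 15 p3282 := rs15 c3282 rfl trivial
theorem g3283 : Good XX 15 p3283 := rs15 c3283 rfl trivial
theorem g3284 : Good XX 15 p3284 := rs15 c3284 rfl trivial
theorem g3285 : Good XX 15 p3285 := rs15 c3285 rfl trivial
theorem g3286 : Good XX 15 p3286 := rs15 c3286 rfl trivial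
theorem g3287 : Good XX 15 p3287 := rs15 c3287 rfl trivial
theorem g3288 : Good XX 15 p3288 := rs15 c3288 rfl trivial
theorem g3289 : Good XX 15 p3289 := rs15 c3289 rfl trivial
theorem g3290 : Good XX 15 p3290 := rs15 c3290 rfl trivial
theorem g3291 : Good XX 15 p3291 := rs15 c3291 rfl trivial
theorem g3292 : Good XX 15 p3292 := rs15 c3292 rfl trivial
theorem g3293 : Good XX 15 p3293 := rs15 c3293 rfl trivial
theorem g3294 : Good XX 15 p3294 := rs15 c3294 rfl trivial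
theorem g3295 : Good XX 15 p3295 := rs15 c3295 rfl ⟨g3293, ⟨g3294, trivial⟩⟩
theorem g3296 : Good XX 15 p3296 := rs15 c3296 rfl trivial
theorem g3297 : Good XX 15 p3297 := rs15 c3297 rfl ⟨g3287, ⟨g3288, ⟨g3289, ⟨g3290, ⟨g3291, ⟨g3292, ⟨g3295, ⟨g3296, trivial⟩⟩⟩⟩⟩⟩⟩⟩
theorem g3298 : Good XX 15 p3298 := rs15 c3298 rfl trivial
theorem g3299 : Good XX 15 p3299 := rs15 c3299 rfl trivial
theorem g3300 : Good XX 15 p3300 := rs15 c3300 rfl trivial
theorem g3301 : Good XX 15 p3301 := rs15 c3301 rfl ⟨g3298, ⟨g3299, ⟨g3300, trivial⟩⟩⟩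
theorem g3302 : Good XX 15 p3302 := rs15 c3302 rfl trivial
theorem g3303 : Good XX 15 p3303 := rs15 c3303 rfl trivial
theorem g3304 : Good XX 15 p3304 := rs15 c3304 rfl trivial
theorem g3305 : Good XX 15 p3305 := rs15 c3305 rfl trivial
theorem g3306 : Good XX 15 p3306 := rs15 c3306 rfl trivial
theorem g3307 : Good XX 15 p3307 := rs15 c3307 rfl trivial
theorem g3308 : Good XX 15 p3308 := rs15 c3308 rfl trivial
theorem g3309 : Good XX 15 p3309 := rs15 c3309 rfl trivial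
theorem g3310 : Good XX 15 p3310 := rs15 c3310 rfl trivial
theorem g3311 : Good XX 15 p3311 := rs15 c3311 rfl trivial
theorem g3312 : Good XX 15 p3312 := rs15 c3312 rfl ⟨g3301, ⟨g3302, ⟨g3303, ⟨g3304, ⟨g3305, ⟨g3306, ⟨g3307, ⟨g3308, ⟨g3309, ⟨g3310, ⟨g3311, trivial⟩⟩⟩⟩⟩⟩⟩⟩⟩⟩⟩
theorem g3313 : Good XX 15 p3313 := rs15 c3313 rfl trivial
theorem g3314 : Good XX 15 p3314 := rs15 c3314 rfl trivial
theorem g3315 : Good XX 15 p3315 := rs15 c3315 rfl trivial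
theorem g3316 : Good XX 15 p3316 := rs15 c3316 rfl trivial
theorem g3317 : Good XX 15 p3317 := rs15 c3317 rfl trivial
theorem g3318 : Good XX 15 p3318 := rs15 c3318 rfl trivial
theorem g3319 : Good XX 15 p3319 := rs15 c3319 rfl trivial
theorem g3320 : Good XX 15 p3320 := rs15 c3320 rfl trivial
theorem g3321 : Good XX 15 p3321 := rs15 c3321 rfl trivial
theorem g3322 : Good XX 15 p3322 := rs15 c3322 rfl trivial
theorem g3323 : Good XX 15 p3323 := rs15 c3323 rfl trivial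
theorem g3324 : Good XX 15 p3324 := rs15 c3324 rfl trivial
theorem g3325 : Good XX 15 p3325 := rs15 c3325 rfl trivial
theorem g3326 : Good XX 15 p3326 := rs15 c3326 rfl trivial
theorem g3327 : Good XX 15 p3327 := rs15 c3327 rfl ⟨g3326, trivial⟩
theorem g3328 : Good XX 15 p3328 := rs15 c3328 rfl ⟨g3317, ⟨g3318, ⟨g3319, ⟨g3320, ⟨g3321, ⟨g3322, ⟨g3323, ⟨g3324, ⟨g3325, ⟨g3327, trivial⟩⟩⟩⟩⟩⟩⟩⟩⟩⟩
theorem g3329 : Good XX 15 p3329 := rs15 c3329 rfl trivial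
theorem g3330 : Good XX 15 p3330 := rs15 c3330 rfl trivial
theorem g3331 : Good XX 15 p3331 := rs15 c3331 rfl trivial
theorem g3332 : Good XX 15 p3332 := rs15 c3332 rfl ⟨g3331, trivial⟩
theorem g3333 : Good XX 15 p3333 := rs15 c3333 rfl trivial
theorem g3334 : Good XX 15 p3334 := rs15 c3334 rfl trivial
theorem g3335 : Good XX 15 p3335 := rs15 c3335 rfl trivial
theorem g3336 : Good XX 15 p3336 := rs15 c3336 rfl ⟨g3281, ⟨g3282, ⟨g3283, ⟨g3284, ⟨g3285, ⟨g3286, ⟨g3297, ⟨g3312, ⟨g3313, ⟨g3314, ⟨g3315, ⟨g3316, ⟨g3328, ⟨g3329, ⟨g3330, ⟨g3332, ⟨g3333, ⟨g3334, ⟨g3335, trivial⟩⟩⟩⟩⟩⟩⟩⟩⟩⟩⟩⟩⟩⟩⟩⟩⟩⟩⟩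
theorem g3337 : Good XX 15 p3337 := rs15 c3337 rfl trivial
theorem g3338 : Good XX 15 p3338 := rs15 c3338 rfl trivial
theorem g3339 : Good XX 15 p3339 := rs15 c3339 rfl trivial
theorem g3340 : Good XX 15 p3340 := rs15 c3340 rfl trivial
theorem g3341 : Good XX 15 p3341 := rs15 c3341 rfl trivial
theorem g3342 : Good XX 15 p3342 := rs15 c3342 rfl trivial
theorem g3343 : Good XX 15 p3343 := rs15 c3343 rfl ⟨g3338, ⟨g3339, ⟨g3340, ⟨g3341, ⟨g3342, trivial⟩⟩⟩⟩⟩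
theorem g3344 : Good XX 15 p3344 := rs15 c3344 rfl trivial
theorem g3345 : Good XX 15 p3345 := rs15 c3345 rfl trivial
theorem g3346 : Good XX 15 p3346 := rs15 c3346 rfl trivial
theorem g3347 : Good XX 15 p3347 := rs15 c3347 rfl trivial
theorem g3348 : Good XX 15 p3348 := rs15 c3348 rfl trivial
theorem g3349 : Good XX 15 p3349 := rs15 c3349 rfl ⟨g3348, trivial⟩
theorem g3350 : Good XX 15 p3350 := rs15 c3350 rfl trivial
theorem g3351 : Good XX 15 p3351 := rs15 c3351 rfl trivial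
theorem g3352 : Good XX 15 p3352 := rs15 c3352 rfl trivial
theorem g3353 : Good XX 15 p3353 := rs15 c3353 rfl ⟨g3350, ⟨g3351, ⟨g3352, trivial⟩⟩⟩
theorem g3354 : Good XX 15 p3354 := rs15 c3354 rfl trivial
theorem g3355 : Good XX 15 p3355 := rs15 c3355 rfl trivial
theorem g3356 : Good XX 15 p3356 := rs15 c3356 rfl trivial
theorem g3357 : Good XX 15 p3357 := rs15 c3357 rfl ⟨g3356, trivial⟩
theorem g3358 : Good XX 15 p3358 := rs15 c3358 rfl ⟨g3337, ⟨g3343, ⟨g3344, ⟨g3345, ⟨g3346, ⟨g3347, ⟨g3349, ⟨g3353, ⟨g3354, ⟨g3355, ⟨g3357, trivial⟩⟩⟩⟩⟩⟩⟩⟩⟩⟩⟩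
theorem g3359 : Good XX 15 p3359 := rs15 c3359 rfl trivial
theorem g3360 : Good XX 15 p3360 := rs15 c3360 rfl ⟨g3359, trivial⟩
theorem g3361 : Good XX 15 p3361 := rs15 c3361 rfl trivial
theorem g3362 : Good XX 15 p3362 := rs15 c3362 rfl trivial
theorem g3363 : Good XX 15 p3363 := rs15 c3363 rfl trivial
theorem g3364 : Good XX 15 p3364 := rs15 c3364 rfl trivial
theorem g3365 : Good XX 15 p3365 := rs15 c3365 rfl trivial
theorem g3366 : Good XX 15 p3366 := rs15 c3366 rfl trivial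
theorem g3367 : Good XX 15 p3367 := rs15 c3367 rfl trivial
theorem g3368 : Good XX 15 p3368 := rs15 c3368 rfl trivial
theorem g3369 : Good XX 15 p3369 := rs15 c3369 rfl ⟨g3363, ⟨g3364, ⟨g3365, ⟨g3366, ⟨g3367, ⟨g3368, trivial⟩⟩⟩⟩⟩⟩
theorem g3370 : Good XX 15 p3370 := rs15 c3370 rfl trivial
theorem g3371 : Good XX 15 p3371 := rs15 c3371 rfl trivial
theorem g3372 : Good XX 15 p3372 := rs15 c3372 rfl ⟨g3361, ⟨g3362, ⟨g3369, ⟨g3370, ⟨g3371, trivial⟩⟩⟩⟩⟩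
theorem g3373 : Good XX 15 p3373 := rs15 c3373 rfl trivial
theorem g3374 : Good XX 15 p3374 := rs15 c3374 rfl trivial
theorem g3375 : Good XX 15 p3375 := rs15 c3375 rfl trivial
theorem g3376 : Good XX 15 p3376 := rs15 c3376 rfl trivial
theorem g3377 : Good XX 15 p3377 := rs15 c3377 rfl trivial
theorem g3378 : Good XX 15 p3378 := rs15 c3378 rfl trivial
theorem g3379 : Good XX 15 p3379 := rs15 c3379 rfl trivial
theorem g3380 : Good XX 15 p3380 := rs15 c3380 rfl trivial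
theorem g3381 : Good XX 15 p3381 := rs15 c3381 rfl trivial
theorem g3382 : Good XX 15 p3382 := rs15 c3382 rfl ⟨g3381, trivial⟩
theorem g3383 : Good XX 15 p3383 := rs15 c3383 rfl ⟨g3382, trivial⟩
theorem g3384 : Good XX 15 p3384 := rs15 c3384 rfl trivial
theorem g3385 : Good XX 15 p3385 := rs15 c3385 rfl trivial
theorem g3386 : Good XX 15 p3386 := rs15 c3386 rfl ⟨g3385, trivial⟩
theorem g3387 : Good XX 15 p3387 := rs15 c3387 rfl trivial
theorem g3388 : Good XX 15 p3388 := rs15 c3388 rfl trivial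
theorem g3389 : Good XX 15 p3389 := rs15 c3389 rfl trivial
theorem g3390 : Good XX 15 p3390 := rs15 c3390 rfl trivial
theorem g3391 : Good XX 15 p3391 := rs15 c3391 rfl trivial
theorem g3392 : Good XX 15 p3392 := rs15 c3392 rfl trivial
theorem g3393 : Good XX 15 p3393 := rs15 c3393 rfl ⟨g3389, ⟨g3390, ⟨g3391, ⟨g3392, trivial⟩⟩⟩⟩
theorem g3394 : Good XX 15 p3394 := rs15 c3394 rfl ⟨g3386, ⟨g3387, ⟨g3388, ⟨g3393, trivial⟩⟩⟩⟩
theorem g3395 : Good XX 15 p3395 := rs15 c3395 rfl trivial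
theorem g3396 : Good XX 15 p3396 := rs15 c3396 rfl trivial
theorem g3397 : Good XX 15 p3397 := rs15 c3397 rfl ⟨g3395, ⟨g3396, trivial⟩⟩
theorem g3398 : Good XX 15 p3398 := rs15 c3398 rfl trivial
theorem g3399 : Good XX 15 p3399 := rs15 c3399 rfl trivial
theorem g3400 : Good XX 15 p3400 := rs15 c3400 rfl trivial
theorem g3401 : Good XX 15 p3401 := rs15 c3401 rfl trivial
theorem g3402 : Good XX 15 p3402 := rs15 c3402 rfl ⟨g3400, ⟨g3401, trivial⟩⟩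
theorem g3403 : Good XX 15 p3403 := rs15 c3403 rfl trivial
theorem g3404 : Good XX 15 p3404 := rs15 c3404 rfl trivial
theorem g3405 : Good XX 15 p3405 := rs15 c3405 rfl trivial
theorem g3406 : Good XX 15 p3406 := rs15 c3406 rfl trivial
theorem g3407 : Good XX 15 p3407 := rs15 c3407 rfl trivial
theorem g3408 : Good XX 15 p3408 := rs15 c3408 rfl trivial
theorem g3409 : Good XX 15 p3409 := rs15 c3409 rfl trivial
theorem g3410 : Good XX 15 p3410 := rs15 c3410 rfl trivial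
theorem g3411 : Good XX 15 p3411 := rs15 c3411 rfl trivial
theorem g3412 : Good XX 15 p3412 := rs15 c3412 rfl trivial
theorem g3413 : Good XX 15 p3413 := rs15 c3413 rfl ⟨g3398, ⟨g3399, ⟨g3402, ⟨g3403, ⟨g3404, ⟨g3405, ⟨g3406, ⟨g3407, ⟨g3408, ⟨g3409, ⟨g3410, ⟨g3411, ⟨g3412, trivial⟩⟩⟩⟩⟩⟩⟩⟩⟩⟩⟩⟩⟩
theorem g3414 : Good XX 15 p3414 := rs15 c3414 rfl trivial
theorem g3415 : Good XX 15 p3415 := rs15 c3415 rfl trivial
theorem g3416 : Good XX 15 p3416 := rs15 c3416 rfl trivial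
theorem g3417 : Good XX 15 p3417 := rs15 c3417 rfl ⟨g3415, ⟨g3416, trivial⟩⟩
theorem g3418 : Good XX 15 p3418 := rs15 c3418 rfl trivial
theorem g3419 : Good XX 15 p3419 := rs15 c3419 rfl trivial
theorem g3420 : Good XX 15 p3420 := rs15 c3420 rfl ⟨g3418, ⟨g3419, trivial⟩⟩
theorem g3421 : Good XX 15 p3421 := rs15 c3421 rfl trivial
theorem g3422 : Good XX 15 p3422 := rs15 c3422 rfl trivial
theorem g3423 : Good XX 15 p3423 := rs15 c3423 rfl trivial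
theorem g3424 : Good XX 15 p3424 := rs15 c3424 rfl trivial
theorem g3425 : Good XX 15 p3425 := rs15 c3425 rfl ⟨g3424, trivial⟩
theorem g3426 : Good XX 15 p3426 := rs15 c3426 rfl trivial
theorem g3427 : Good XX 15 p3427 := rs15 c3427 rfl ⟨g3421, ⟨g3422, ⟨g3423, ⟨g3425, ⟨g3426, trivial⟩⟩⟩⟩⟩
theorem g3428 : Good XX 15 p3428 := rs15 c3428 rfl trivial
theorem g3429 : Good XX 15 p3429 := rs15 c3429 rfl trivial
theorem g3430 : Good XX 15 p3430 := rs15 c3430 rfl trivial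
theorem g3431 : Good XX 15 p3431 := rs15 c3431 rfl trivial
theorem g3432 : Good XX 15 p3432 := rs15 c3432 rfl trivial
theorem g3433 : Good XX 15 p3433 := rs15 c3433 rfl ⟨g3431, ⟨g3432, trivial⟩⟩
theorem g3434 : Good XX 15 p3434 := rs15 c3434 rfl trivial
theorem g3435 : Good XX 15 p3435 := rs15 c3435 rfl trivial
theorem g3436 : Good XX 15 p3436 := rs15 c3436 rfl ⟨g3435, trivial⟩
theorem g3437 : Good XX 15 p3437 := rs15 c3437 rfl trivial
theorem g3438 : Good XX 15 p3438 := rs15 c3438 rfl ⟨g3437, trivial⟩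
theorem g3439 : Good XX 15 p3439 := rs15 c3439 rfl ⟨g3428, ⟨g3429, ⟨g3430, ⟨g3433, ⟨g3434, ⟨g3436, ⟨g3438, trivial⟩⟩⟩⟩⟩⟩⟩
theorem g3440 : Good XX 15 p3440 := rs15 c3440 rfl trivial
theorem g3441 : Good XX 15 p3441 := rs15 c3441 rfl trivial
theorem g3442 : Good XX 15 p3442 := rs15 c3442 rfl ⟨g3441, trivial⟩
theorem g3443 : Good XX 15 p3443 := rs15 c3443 rfl trivial
theorem g3444 : Good XX 15 p3444 := rs15 c3444 rfl ⟨g3443, trivial⟩
theorem g3445 : Good XX 15 p3445 := rs15 c3445 rfl trivial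
theorem g3446 : Good XX 15 p3446 := rs15 c3446 rfl trivial
theorem g3447 : Good XX 15 p3447 := rs15 c3447 rfl trivial
theorem g3448 : Good XX 15 p3448 := rs15 c3448 rfl trivial
theorem g3449 : Good XX 15 p3449 := rs15 c3449 rfl trivial
theorem g3450 : Good XX 15 p3450 := rs15 c3450 rfl trivial
theorem g3451 : Good XX 15 p3451 := rs15 c3451 rfl trivial
theorem g3452 : Good XX 15 p3452 := rs15 c3452 rfl ⟨g3440, ⟨g3442, ⟨g3444, ⟨g3445, ⟨g3446, ⟨g3447, ⟨g3448, ⟨g3449, ⟨g3450, ⟨g3451, trivial⟩⟩⟩⟩⟩⟩⟩⟩⟩⟩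
theorem g3453 : Good XX 15 p3453 := rs15 c3453 rfl ⟨g3377, ⟨g3378, ⟨g3379, ⟨g3380, ⟨g3383, ⟨g3384, ⟨g3394, ⟨g3397, ⟨g3413, ⟨g3414, ⟨g3417, ⟨g3420, ⟨g3427, ⟨g3439, ⟨g3452, trivial⟩⟩⟩⟩⟩⟩⟩⟩⟩⟩⟩⟩⟩⟩⟩
theorem g3454 : Good XX 15 p3454 := rs15 c3454 rfl trivial
theorem g3455 : Good XX 15 p3455 := rs15 c3455 rfl trivial
theorem g3456 : Good XX 15 p3456 := rs15 c3456 rfl trivial
theorem g3457 : Good XX 15 p3457 := rs15 c3457 rfl trivial
theorem g3458 : Good XX 15 p3458 := rs15 c3458 rfl ⟨g3457, trivial⟩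
theorem g3459 : Good XX 15 p3459 := rs15 c3459 rfl trivial
theorem g3460 : Good XX 15 p3460 := rs15 c3460 rfl trivial
theorem g3461 : Good XX 15 p3461 := rs15 c3461 rfl trivial
theorem g3462 : Good XX 15 p3462 := rs15 c3462 rfl trivial
theorem g3463 : Good XX 15 p3463 := rs15 c3463 rfl trivial
theorem g3464 : Good XX 15 p3464 := rs15 c3464 rfl ⟨g3462, ⟨g3463, trivial⟩⟩
theorem g3465 : Good XX 15 p3465 := rs15 c3465 rfl trivial
theorem g3466 : Good XX 15 p3466 := rs15 c3466 rfl trivial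
theorem g3467 : Good XX 15 p3467 := rs15 c3467 rfl ⟨g3465, ⟨g3466, trivial⟩⟩
theorem g3468 : Good XX 15 p3468 := rs15 c3468 rfl trivial
theorem g3469 : Good XX 15 p3469 := rs15 c3469 rfl trivial
theorem g3470 : Good XX 15 p3470 := rs15 c3470 rfl trivial
theorem g3471 : Good XX 15 p3471 := rs15 c3471 rfl trivial
theorem g3472 : Good XX 15 p3472 := rs15 c3472 rfl trivial
theorem g3473 : Good XX 15 p3473 := rs15 c3473 rfl ⟨g3468, ⟨g3469, ⟨g3470, ⟨g3471, ⟨g3472, trivial⟩⟩⟩⟩⟩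
theorem g3474 : Good XX 15 p3474 := rs15 c3474 rfl ⟨g3464, ⟨g3467, ⟨g3473, trivial⟩⟩⟩
theorem g3475 : Good XX 15 p3475 := rs15 c3475 rfl trivial
theorem g3476 : Good XX 15 p3476 := rs15 c3476 rfl trivial
theorem g3477 : Good XX 15 p3477 := rs15 c3477 rfl trivial
theorem g3478 : Good XX 15 p3478 := rs15 c3478 rfl trivial
theorem g3479 : Good XX 15 p3479 := rs15 c3479 rfl trivial
theorem g3480 : Good XX 15 p3480 := rs15 c3480 rfl trivial
theorem g3481 : Good XX 15 p3481 := rs15 c3481 rfl ⟨g3475, ⟨g3476, ⟨g3477, ⟨g3478, ⟨g3479, ⟨g3480, trivial⟩⟩⟩⟩⟩⟩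
theorem g3482 : Good XX 15 p3482 := rs15 c3482 rfl trivial
theorem g3483 : Good XX 15 p3483 := rs15 c3483 rfl trivial
theorem g3484 : Good XX 15 p3484 := rs15 c3484 rfl trivial
theorem g3485 : Good XX 15 p3485 := rs15 c3485 rfl trivial
theorem g3486 : Good XX 15 p3486 := rs15 c3486 rfl trivial
theorem g3487 : Good XX 15 p3487 := rs15 c3487 rfl ⟨g3484, ⟨g3485, ⟨g3486, trivial⟩⟩⟩
theorem g3488 : Good XX 15 p3488 := rs15 c3488 rfl trivial
theorem g3489 : Good XX 15 p3489 := rs15 c3489 rfl trivial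
theorem g3490 : Good XX 15 p3490 := rs15 c3490 rfl ⟨g3482, ⟨g3483, ⟨g3487, ⟨g3488, ⟨g3489, trivial⟩⟩⟩⟩⟩
theorem g3491 : Good XX 15 p3491 := rs15 c3491 rfl trivial
theorem g3492 : Good XX 15 p3492 := rs15 c3492 rfl trivial
theorem g3493 : Good XX 15 p3493 := rs15 c3493 rfl trivial
theorem g3494 : Good XX 15 p3494 := rs15 c3494 rfl trivial
theorem g3495 : Good XX 15 p3495 := rs15 c3495 rfl ⟨g3491, ⟨g3492, ⟨g3493, ⟨g3494, trivial⟩⟩⟩⟩
theorem g3496 : Good XX 15 p3496 := rs15 c3496 rfl trivial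
theorem g3497 : Good XX 15 p3497 := rs15 c3497 rfl ⟨g3496, trivial⟩
theorem g3498 : Good XX 15 p3498 := rs15 c3498 rfl trivial
theorem g3499 : Good XX 15 p3499 := rs15 c3499 rfl trivial
theorem g3500 : Good XX 15 p3500 := rs15 c3500 rfl trivial
theorem g3501 : Good XX 15 p3501 := rs15 c3501 rfl trivial
theorem g3502 : Good XX 15 p3502 := rs15 c3502 rfl ⟨g3501, trivial⟩
theorem g3503 : Good XX 15 p3503 := rs15 c3503 rfl trivial
theorem g3504 : Good XX 15 p3504 := rs15 c3504 rfl trivial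
theorem g3505 : Good XX 15 p3505 := rs15 c3505 rfl ⟨g3504, trivial⟩
theorem g3506 : Good XX 15 p3506 := rs15 c3506 rfl ⟨g3498, ⟨g3499, ⟨g3500, ⟨g3502, ⟨g3503, ⟨g3505, trivial⟩⟩⟩⟩⟩⟩
theorem g3507 : Good XX 15 p3507 := rs15 c3507 rfl trivial
theorem g3508 : Good XX 15 p3508 := rs15 c3508 rfl trivial
theorem g3509 : Good XX 15 p3509 := rs15 c3509 rfl trivial
theorem g3510 : Good XX 15 p3510 := rs15 c3510 rfl trivial
theorem g3511 : Good XX 15 p3511 := rs15 c3511 rfl trivial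
theorem g3512 : Good XX 15 p3512 := rs15 c3512 rfl trivial
theorem g3513 : Good XX 15 p3513 := rs15 c3513 rfl trivial
theorem g3514 : Good XX 15 p3514 := rs15 c3514 rfl trivial
theorem g3515 : Good XX 15 p3515 := rs15 c3515 rfl trivial
theorem g3516 : Good XX 15 p3516 := rs15 c3516 rfl trivial
theorem g3517 : Good XX 15 p3517 := rs15 c3517 rfl trivial
theorem g3518 : Good XX 15 p3518 := rs15 c3518 rfl trivial
theorem g3519 : Good XX 15 p3519 := rs15 c3519 rfl trivial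
theorem g3520 : Good XX 15 p3520 := rs15 c3520 rfl trivial
theorem g3521 : Good XX 15 p3521 := rs15 c3521 rfl trivial
theorem g3522 : Good XX 15 p3522 := rs15 c3522 rfl trivial
theorem g3523 : Good XX 15 p3523 := rs15 c3523 rfl ⟨g3520, ⟨g3521, ⟨g3522, trivial⟩⟩⟩
theorem g3524 : Good XX 15 p3524 := rs15 c3524 rfl trivial
theorem g3525 : Good XX 15 p3525 := rs15 c3525 rfl ⟨g3524, trivial⟩
theorem g3526 : Good XX 15 p3526 := rs15 c3526 rfl trivial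
theorem g3527 : Good XX 15 p3527 := rs15 c3527 rfl trivial
theorem g3528 : Good XX 15 p3528 := rs15 c3528 rfl trivial
theorem g3529 : Good XX 15 p3529 := rs15 c3529 rfl trivial
theorem g3530 : Good XX 15 p3530 := rs15 c3530 rfl trivial
theorem g3531 : Good XX 15 p3531 := rs15 c3531 rfl ⟨g3526, ⟨g3527, ⟨g3528, ⟨g3529, ⟨g3530, trivial⟩⟩⟩⟩⟩
theorem g3532 : Good XX 15 p3532 := rs15 c3532 rfl trivial
theorem g3533 : Good XX 15 p3533 := rs15 c3533 rfl trivial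
theorem g3534 : Good XX 15 p3534 := rs15 c3534 rfl trivial
theorem g3535 : Good XX 15 p3535 := rs15 c3535 rfl trivial
theorem g3536 : Good XX 15 p3536 := rs15 c3536 rfl trivial
theorem g3537 : Good XX 15 p3537 := rs15 c3537 rfl ⟨g3532, ⟨g3533, ⟨g3534, ⟨g3535, ⟨g3536, trivial⟩⟩⟩⟩⟩
theorem g3538 : Good XX 15 p3538 := rs15 c3538 rfl trivial
theorem g3539 : Good XX 15 p3539 := rs15 c3539 rfl trivial
theorem g3540 : Good XX 15 p3540 := rs15 c3540 rfl trivial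
theorem g3541 : Good XX 15 p3541 := rs15 c3541 rfl trivial
theorem g3542 : Good XX 15 p3542 := rs15 c3542 rfl trivial
theorem g3543 : Good XX 15 p3543 := rs15 c3543 rfl trivial
theorem g3544 : Good XX 15 p3544 := rs15 c3544 rfl trivial
theorem g3545 : Good XX 15 p3545 := rs15 c3545 rfl trivial
theorem g3546 : Good XX 15 p3546 := rs15 c3546 rfl ⟨g3495, ⟨g3497, ⟨g3506, ⟨g3507, ⟨g3508, ⟨g3509, ⟨g3510, ⟨g3511, ⟨g3512, ⟨g3513, ⟨g3514, ⟨g3515, ⟨g3516, ⟨g3517, ⟨g3518, ⟨g3519, ⟨g3523, ⟨g3525, ⟨g3531, ⟨g3537, ⟨g3538, ⟨g3539, ⟨g3540, ⟨g3541, ⟨g3542, ⟨g3543, ⟨g3544, ⟨g3545, trivial⟩⟩⟩⟩⟩⟩⟩⟩⟩⟩⟩⟩⟩⟩⟩⟩⟩⟩⟩⟩⟩⟩⟩⟩⟩⟩⟩⟩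
theorem g3547 : Good XX 15 p3547 := rs15 c3547 rfl trivial
theorem g3548 : Good XX 15 p3548 := rs15 c3548 rfl trivial
theorem g3549 : Good XX 15 p3549 := rs15 c3549 rfl trivial
theorem g3550 : Good XX 15 p3550 := rs15 c3550 rfl trivial
theorem g3551 : Good XX 15 p3551 := rs15 c3551 rfl ⟨g3549, ⟨g3550, trivial⟩⟩
theorem g3552 : Good XX 15 p3552 := rs15 c3552 rfl trivial
theorem g3553 : Good XX 15 p3553 := rs15 c3553 rfl trivial
theorem g3554 : Good XX 15 p3554 := rs15 c3554 rfl trivial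
theorem g3555 : Good XX 15 p3555 := rs15 c3555 rfl trivial
theorem g3556 : Good XX 15 p3556 := rs15 c3556 rfl trivial
theorem g3557 : Good XX 15 p3557 := rs15 c3557 rfl ⟨g3555, ⟨g3556, trivial⟩⟩
theorem g3558 : Good XX 15 p3558 := rs15 c3558 rfl trivial
theorem g3559 : Good XX 15 p3559 := rs15 c3559 rfl trivial
theorem g3560 : Good XX 15 p3560 := rs15 c3560 rfl ⟨g3558, ⟨g3559, trivial⟩⟩
theorem g3561 : Good XX 15 p3561 := rs15 c3561 rfl trivial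
theorem g3562 : Good XX 15 p3562 := rs15 c3562 rfl trivial
theorem g3563 : Good XX 15 p3563 := rs15 c3563 rfl trivial
theorem g3564 : Good XX 15 p3564 := rs15 c3564 rfl trivial
theorem g3565 : Good XX 15 p3565 := rs15 c3565 rfl trivial
theorem g3566 : Good XX 15 p3566 := rs15 c3566 rfl trivial
theorem g3567 : Good XX 15 p3567 := rs15 c3567 rfl trivial
theorem g3568 : Good XX 15 p3568 := rs15 c3568 rfl trivial
theorem g3569 : Good XX 15 p3569 := rs15 c3569 rfl trivial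
theorem g3570 : Good XX 15 p3570 := rs15 c3570 rfl trivial
theorem g3571 : Good XX 15 p3571 := rs15 c3571 rfl trivial
theorem g3572 : Good XX 15 p3572 := rs15 c3572 rfl ⟨g3567, ⟨g3568, ⟨g3569, ⟨g3570, ⟨g3571, trivial⟩⟩⟩⟩⟩
theorem g3573 : Good XX 15 p3573 := rs15 c3573 rfl trivial
theorem g3574 : Good XX 15 p3574 := rs15 c3574 rfl trivial
theorem g3575 : Good XX 15 p3575 := rs15 c3575 rfl trivial
theorem g3576 : Good XX 15 p3576 := rs15 c3576 rfl trivial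
theorem g3577 : Good XX 15 p3577 := rs15 c3577 rfl trivial
theorem g3578 : Good XX 15 p3578 := rs15 c3578 rfl trivial
theorem g3579 : Good XX 15 p3579 := rs15 c3579 rfl trivial
theorem g3580 : Good XX 15 p3580 := rs15 c3580 rfl trivial
theorem g3581 : Good XX 15 p3581 := rs15 c3581 rfl trivial
theorem g3582 : Good XX 15 p3582 := rs15 c3582 rfl trivial
theorem g3583 : Good XX 15 p3583 := rs15 c3583 rfl trivial
theorem g3584 : Good XX 15 p3584 := rs15 c3584 rfl trivial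
theorem g3585 : Good XX 15 p3585 := rs15 c3585 rfl trivial
theorem g3586 : Good XX 15 p3586 := rs15 c3586 rfl trivial
theorem g3587 : Good XX 15 p3587 := rs15 c3587 rfl trivial
theorem g3588 : Good XX 15 p3588 := rs15 c3588 rfl trivial
theorem g3589 : Good XX 15 p3589 := rs15 c3589 rfl trivial
theorem g3590 : Good XX 15 p3590 := rs15 c3590 rfl trivial
theorem g3591 : Good XX 15 p3591 := rs15 c3591 rfl trivial
theorem g3592 : Good XX 15 p3592 := rs15 c3592 rfl ⟨g3547, ⟨g3548, ⟨g3551, ⟨g3552, ⟨g3553, ⟨g3554, ⟨g3557, ⟨g3560, ⟨g3561, ⟨g3562, ⟨g3563, ⟨g3564, ⟨g3565, ⟨g3566, ⟨g3572, ⟨g3573, ⟨g3574, ⟨g3575, ⟨g3576, ⟨g3577, ⟨g3578, ⟨g3579, ⟨g3580, ⟨g3581, ⟨g3582, ⟨g3583, ⟨g3584, ⟨g3585, ⟨g3586, ⟨g3587, ⟨g3588, ⟨g3589, ⟨g3590, ⟨g3591, trivial⟩⟩⟩⟩⟩⟩⟩⟩⟩⟩⟩⟩⟩⟩⟩⟩⟩⟩⟩⟩⟩⟩⟩⟩⟩⟩⟩⟩⟩⟩⟩⟩⟩⟩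
theorem g3593 : Good XX 15 p3593 := rs15 c3593 rfl ⟨g3373, ⟨g3374, ⟨g3375, ⟨g3376, ⟨g3453, ⟨g3454, ⟨g3455, ⟨g3456, ⟨g3458, ⟨g3459, ⟨g3460, ⟨g3461, ⟨g3474, ⟨g3481, ⟨g3490, ⟨g3546, ⟨g3592, trivial⟩⟩⟩⟩⟩⟩⟩⟩⟩⟩⟩⟩⟩⟩⟩⟩⟩
theorem g3594 : Good XX 15 p3594 := rs15 c3594 rfl trivial
theorem g3595 : Good XX 15 p3595 := rs15 c3595 rfl trivial
theorem g3596 : Good XX 15 p3596 := rs15 c3596 rfl trivial
theorem g3597 : Good XX 15 p3597 := rs15 c3597 rfl trivial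
theorem g3598 : Good XX 15 p3598 := rs15 c3598 rfl ⟨g3597, trivial⟩
theorem g3599 : Good XX 15 p3599 := rs15 c3599 rfl trivial
theorem g3600 : Good XX 15 p3600 := rs15 c3600 rfl trivial
theorem g3601 : Good XX 15 p3601 := rs15 c3601 rfl trivial
theorem g3602 : Good XX 15 p3602 := rs15 c3602 rfl ⟨g3598, ⟨g3599, ⟨g3600, ⟨g3601, trivial⟩⟩⟩⟩
theorem g3603 : Good XX 15 p3603 := rs15 c3603 rfl trivial
theorem g3604 : Good XX 15 p3604 := rs15 c3604 rfl trivial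
theorem g3605 : Good XX 15 p3605 := rs15 c3605 rfl trivial
theorem g3606 : Good XX 15 p3606 := rs15 c3606 rfl trivial
theorem g3607 : Good XX 15 p3607 := rs15 c3607 rfl trivial
theorem g3608 : Good XX 15 p3608 := rs15 c3608 rfl ⟨g3606, ⟨g3607, trivial⟩⟩
theorem g3609 : Good XX 15 p3609 := rs15 c3609 rfl ⟨g3604, ⟨g3605, ⟨g3608, trivial⟩⟩⟩
theorem g3610 : Good XX 15 p3610 := rs15 c3610 rfl trivial
theorem g3611 : Good XX 15 p3611 := rs15 c3611 rfl trivial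
theorem g3612 : Good XX 15 p3612 := rs15 c3612 rfl trivial
theorem g3613 : Good XX 15 p3613 := rs15 c3613 rfl trivial
theorem g3614 : Good XX 15 p3614 := rs15 c3614 rfl trivial
theorem g3615 : Good XX 15 p3615 := rs15 c3615 rfl ⟨g3614, trivial⟩
theorem g3616 : Good XX 15 p3616 := rs15 c3616 rfl trivial
theorem g3617 : Good XX 15 p3617 := rs15 c3617 rfl trivial
theorem g3618 : Good XX 15 p3618 := rs15 c3618 rfl trivial
theorem g3619 : Good XX 15 p3619 := rs15 c3619 rfl ⟨g3618, trivial⟩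
theorem g3620 : Good XX 15 p3620 := rs15 c3620 rfl ⟨g3616, ⟨g3617, ⟨g3619, trivial⟩⟩⟩
theorem g3621 : Good XX 15 p3621 := rs15 c3621 rfl trivial
theorem g3622 : Good XX 15 p3622 := rs15 c3622 rfl trivial
theorem g3623 : Good XX 15 p3623 := rs15 c3623 rfl trivial
theorem g3624 : Good XX 15 p3624 := rs15 c3624 rfl trivial
theorem g3625 : Good XX 15 p3625 := rs15 c3625 rfl ⟨g3624, trivial⟩
theorem g3626 : Good XX 15 p3626 := rs15 c3626 rfl trivial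
theorem g3627 : Good XX 15 p3627 := rs15 c3627 rfl trivial
theorem g3628 : Good XX 15 p3628 := rs15 c3628 rfl ⟨g3621, ⟨g3622, ⟨g3623, ⟨g3625, ⟨g3626, ⟨g3627, trivial⟩⟩⟩⟩⟩⟩
theorem g3629 : Good XX 15 p3629 := rs15 c3629 rfl ⟨g3610, ⟨g3611, ⟨g3612, ⟨g3613, ⟨g3615, ⟨g3620, ⟨g3628, trivial⟩⟩⟩⟩⟩⟩⟩
theorem g3630 : Good XX 15 p3630 := rs15 c3630 rfl trivial
theorem g3631 : Good XX 15 p3631 := rs15 c3631 rfl trivial
theorem g3632 : Good XX 15 p3632 := rs15 c3632 rfl trivial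
theorem g3633 : Good XX 15 p3633 := rs15 c3633 rfl trivial
theorem g3634 : Good XX 15 p3634 := rs15 c3634 rfl trivial
theorem g3635 : Good XX 15 p3635 := rs15 c3635 rfl trivial
theorem g3636 : Good XX 15 p3636 := rs15 c3636 rfl trivial
theorem g3637 : Good XX 15 p3637 := rs15 c3637 rfl trivial
theorem g3638 : Good XX 15 p3638 := rs15 c3638 rfl ⟨g3633, ⟨g3634, ⟨g3635, ⟨g3636, ⟨g3637, trivial⟩⟩⟩⟩⟩
theorem g3639 : Good XX 15 p3639 := rs15 c3639 rfl trivial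
theorem g3640 : Good XX 15 p3640 := rs15 c3640 rfl trivial
theorem g3641 : Good XX 15 p3641 := rs15 c3641 rfl trivial
theorem g3642 : Good XX 15 p3642 := rs15 c3642 rfl trivial
theorem g3643 : Good XX 15 p3643 := rs15 c3643 rfl trivial
theorem g3644 : Good XX 15 p3644 := rs15 c3644 rfl trivial
theorem g3645 : Good XX 15 p3645 := rs15 c3645 rfl trivial
theorem g3646 : Good XX 15 p3646 := rs15 c3646 rfl ⟨g3642, ⟨g3643, ⟨g3644, ⟨g3645, trivial⟩⟩⟩⟩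
theorem g3647 : Good XX 15 p3647 := rs15 c3647 rfl trivial
theorem g3648 : Good XX 15 p3648 := rs15 c3648 rfl trivial
theorem g3649 : Good XX 15 p3649 := rs15 c3649 rfl trivial
theorem g3650 : Good XX 15 p3650 := rs15 c3650 rfl trivial
theorem g3651 : Good XX 15 p3651 := rs15 c3651 rfl trivial
theorem g3652 : Good XX 15 p3652 := rs15 c3652 rfl trivial
theorem g3653 : Good XX 15 p3653 := rs15 c3653 rfl trivial
theorem g3654 : Good XX 15 p3654 := rs15 c3654 rfl ⟨g3652, ⟨g3653, trivial⟩⟩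
theorem g3655 : Good XX 15 p3655 := rs15 c3655 rfl trivial
theorem g3656 : Good XX 15 p3656 := rs15 c3656 rfl ⟨g3647, ⟨g3648, ⟨g3649, ⟨g3650, ⟨g3651, ⟨g3654, ⟨g3655, trivial⟩⟩⟩⟩⟩⟩⟩
theorem g3657 : Good XX 15 p3657 := rs15 c3657 rfl trivial
theorem g3658 : Good XX 15 p3658 := rs15 c3658 rfl ⟨g3657, trivial⟩
theorem g3659 : Good XX 15 p3659 := rs15 c3659 rfl trivial
theorem g3660 : Good XX 15 p3660 := rs15 c3660 rfl ⟨g3658, ⟨g3659, trivial⟩⟩
theorem g3661 : Good XX 15 p3661 := rs15 c3661 rfl ⟨g3630, ⟨g3631, ⟨g3632, ⟨g3638, ⟨g3639, ⟨g3640, ⟨g3641, ⟨g3646, ⟨g3656, ⟨g3660, trivial⟩⟩⟩⟩⟩⟩⟩⟩⟩⟩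
theorem g3662 : Good XX 15 p3662 := rs15 c3662 rfl ⟨g3602, ⟨g3603, ⟨g3609, ⟨g3629, ⟨g3661, trivial⟩⟩⟩⟩⟩
theorem g3663 : Good XX 15 p3663 := rs15 c3663 rfl trivial
theorem g3664 : Good XX 15 p3664 := rs15 c3664 rfl trivial
theorem g3665 : Good XX 15 p3665 := rs15 c3665 rfl trivial
theorem g3666 : Good XX 15 p3666 := rs15 c3666 rfl trivial
theorem g3667 : Good XX 15 p3667 := rs15 c3667 rfl trivial
theorem g3668 : Good XX 15 p3668 := rs15 c3668 rfl trivial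
theorem g3669 : Good XX 15 p3669 := rs15 c3669 rfl ⟨g3668, trivial⟩
theorem g3670 : Good XX 15 p3670 := rs15 c3670 rfl trivial
theorem g3671 : Good XX 15 p3671 := rs15 c3671 rfl trivial
theorem g3672 : Good XX 15 p3672 := rs15 c3672 rfl trivial
theorem g3673 : Good XX 15 p3673 := rs15 c3673 rfl ⟨g3672, trivial⟩
theorem g3674 : Good XX 15 p3674 := rs15 c3674 rfl ⟨g3670, ⟨g3671, ⟨g3673, trivial⟩⟩⟩
theorem g3675 : Good XX 15 p3675 := rs15 c3675 rfl trivial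
theorem g3676 : Good XX 15 p3676 := rs15 c3676 rfl trivial
theorem g3677 : Good XX 15 p3677 := rs15 c3677 rfl trivial
theorem g3678 : Good XX 15 p3678 := rs15 c3678 rfl trivial
theorem g3679 : Good XX 15 p3679 := rs15 c3679 rfl trivial
theorem g3680 : Good XX 15 p3680 := rs15 c3680 rfl ⟨g3679, trivial⟩
theorem g3681 : Good XX 15 p3681 := rs15 c3681 rfl trivial
theorem g3682 : Good XX 15 p3682 := rs15 c3682 rfl trivial
theorem g3683 : Good XX 15 p3683 := rs15 c3683 rfl ⟨g3675, ⟨g3676, ⟨g3677, ⟨g3678, ⟨g3680, ⟨g3681, ⟨g3682, trivial⟩⟩⟩⟩⟩⟩⟩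
theorem g3684 : Good XX 15 p3684 := rs15 c3684 rfl ⟨g3665, ⟨g3666, ⟨g3667, ⟨g3669, ⟨g3674, ⟨g3683, trivial⟩⟩⟩⟩⟩⟩
theorem g3685 : Good XX 15 p3685 := rs15 c3685 rfl trivial
theorem g3686 : Good XX 15 p3686 := rs15 c3686 rfl trivial
theorem g3687 : Good XX 15 p3687 := rs15 c3687 rfl ⟨g3685, ⟨g3686, trivial⟩⟩
theorem g3688 : Good XX 15 p3688 := rs15 c3688 rfl trivial
theorem g3689 : Good XX 15 p3689 := rs15 c3689 rfl trivial
theorem g3690 : Good XX 15 p3690 := rs15 c3690 rfl trivial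
theorem g3691 : Good XX 15 p3691 := rs15 c3691 rfl trivial
theorem g3692 : Good XX 15 p3692 := rs15 c3692 rfl trivial
theorem g3693 : Good XX 15 p3693 := rs15 c3693 rfl trivial
theorem g3694 : Good XX 15 p3694 := rs15 c3694 rfl trivial
theorem g3695 : Good XX 15 p3695 := rs15 c3695 rfl trivial
theorem g3696 : Good XX 15 p3696 := rs15 c3696 rfl trivial
theorem g3697 : Good XX 15 p3697 := rs15 c3697 rfl trivial
theorem g3698 : Good XX 15 p3698 := rs15 c3698 rfl ⟨g3697, trivial⟩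
theorem g3699 : Good XX 15 p3699 := rs15 c3699 rfl trivial
theorem g3700 : Good XX 15 p3700 := rs15 c3700 rfl trivial
theorem g3701 : Good XX 15 p3701 := rs15 c3701 rfl trivial
theorem g3702 : Good XX 15 p3702 := rs15 c3702 rfl trivial
theorem g3703 : Good XX 15 p3703 := rs15 c3703 rfl trivial
theorem g3704 : Good XX 15 p3704 := rs15 c3704 rfl trivial
theorem g3705 : Good XX 15 p3705 := rs15 c3705 rfl trivial
theorem g3706 : Good XX 15 p3706 := rs15 c3706 rfl trivial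
theorem g3707 : Good XX 15 p3707 := rs15 c3707 rfl ⟨g3704, ⟨g3705, ⟨g3706, trivial⟩⟩⟩
theorem g3708 : Good XX 15 p3708 := rs15 c3708 rfl trivial
theorem g3709 : Good XX 15 p3709 := rs15 c3709 rfl trivial
theorem g3710 : Good XX 15 p3710 := rs15 c3710 rfl trivial
theorem g3711 : Good XX 15 p3711 := rs15 c3711 rfl trivial
theorem g3712 : Good XX 15 p3712 := rs15 c3712 rfl trivial
theorem g3713 : Good XX 15 p3713 := rs15 c3713 rfl ⟨g3710, ⟨g3711, ⟨g3712, trivial⟩⟩⟩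
theorem g3714 : Good XX 15 p3714 := rs15 c3714 rfl trivial
theorem g3715 : Good XX 15 p3715 := rs15 c3715 rfl trivial
theorem g3716 : Good XX 15 p3716 := rs15 c3716 rfl trivial
theorem g3717 : Good XX 15 p3717 := rs15 c3717 rfl ⟨g3714, ⟨g3715, ⟨g3716, trivial⟩⟩⟩
theorem g3718 : Good XX 15 p3718 := rs15 c3718 rfl ⟨g3699, ⟨g3700, ⟨g3701, ⟨g3702, ⟨g3703, ⟨g3707, ⟨g3708, ⟨g3709, ⟨g3713, ⟨g3717, trivial⟩⟩⟩⟩⟩⟩⟩⟩⟩⟩
theorem g3719 : Good XX 15 p3719 := rs15 c3719 rfl trivial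
theorem g3720 : Good XX 15 p3720 := rs15 c3720 rfl trivial
theorem g3721 : Good XX 15 p3721 := rs15 c3721 rfl trivial
theorem g3722 : Good XX 15 p3722 := rs15 c3722 rfl trivial
theorem g3723 : Good XX 15 p3723 := rs15 c3723 rfl trivial
theorem g3724 : Good XX 15 p3724 := rs15 c3724 rfl ⟨g3723, trivial⟩
theorem g3725 : Good XX 15 p3725 := rs15 c3725 rfl trivial
theorem g3726 : Good XX 15 p3726 := rs15 c3726 rfl ⟨g3719, ⟨g3720, ⟨g3721, ⟨g3722, ⟨g3724, ⟨g3725, trivial⟩⟩⟩⟩⟩⟩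
theorem g3727 : Good XX 15 p3727 := rs15 c3727 rfl trivial
theorem g3728 : Good XX 15 p3728 := rs15 c3728 rfl trivial
theorem g3729 : Good XX 15 p3729 := rs15 c3729 rfl trivial
theorem g3730 : Good XX 15 p3730 := rs15 c3730 rfl ⟨g3729, trivial⟩
theorem g3731 : Good XX 15 p3731 := rs15 c3731 rfl trivial
theorem g3732 : Good XX 15 p3732 := rs15 c3732 rfl trivial
theorem g3733 : Good XX 15 p3733 := rs15 c3733 rfl trivial
theorem g3734 : Good XX 15 p3734 := rs15 c3734 rfl trivial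
theorem g3735 : Good XX 15 p3735 := rs15 c3735 rfl ⟨g3731, ⟨g3732, ⟨g3733, ⟨g3734, trivial⟩⟩⟩⟩
theorem g3736 : Good XX 15 p3736 := rs15 c3736 rfl trivial
theorem g3737 : Good XX 15 p3737 := rs15 c3737 rfl trivial
theorem g3738 : Good XX 15 p3738 := rs15 c3738 rfl trivial
theorem g3739 : Good XX 15 p3739 := rs15 c3739 rfl ⟨g3736, ⟨g3737, ⟨g3738, trivial⟩⟩⟩
theorem g3740 : Good XX 15 p3740 := rs15 c3740 rfl trivial
theorem g3741 : Good XX 15 p3741 := rs15 c3741 rfl trivial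
theorem g3742 : Good XX 15 p3742 := rs15 c3742 rfl trivial
theorem g3743 : Good XX 15 p3743 := rs15 c3743 rfl trivial
theorem g3744 : Good XX 15 p3744 := rs15 c3744 rfl trivial
theorem g3745 : Good XX 15 p3745 := rs15 c3745 rfl ⟨g3742, ⟨g3743, ⟨g3744, trivial⟩⟩⟩
theorem g3746 : Good XX 15 p3746 := rs15 c3746 rfl ⟨g3687, ⟨g3688, ⟨g3689, ⟨g3690, ⟨g3691, ⟨g3692, ⟨g3693, ⟨g3694, ⟨g3695, ⟨g3696, ⟨g3698, ⟨g3718, ⟨g3726, ⟨g3727, ⟨g3728, ⟨g3730, ⟨g3735, ⟨g3739, ⟨g3740, ⟨g3741, ⟨g3745, trivial⟩⟩⟩⟩⟩⟩⟩⟩⟩⟩⟩⟩⟩⟩⟩⟩⟩⟩⟩⟩⟩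
theorem g3747 : Good XX 15 p3747 := rs15 c3747 rfl trivial
theorem g3748 : Good XX 15 p3748 := rs15 c3748 rfl trivial
theorem g3749 : Good XX 15 p3749 := rs15 c3749 rfl ⟨g3748, trivial⟩
theorem g3750 : Good XX 15 p3750 := rs15 c3750 rfl trivial
theorem g3751 : Good XX 15 p3751 := rs15 c3751 rfl trivial
theorem g3752 : Good XX 15 p3752 := rs15 c3752 rfl trivial
theorem g3753 : Good XX 15 p3753 := rs15 c3753 rfl ⟨g3751, ⟨g3752, trivial⟩⟩
theorem g3754 : Good XX 15 p3754 := rs15 c3754 rfl trivial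
theorem g3755 : Good XX 15 p3755 := rs15 c3755 rfl trivial
theorem g3756 : Good XX 15 p3756 := rs15 c3756 rfl trivial
theorem g3757 : Good XX 15 p3757 := rs15 c3757 rfl trivial
theorem g3758 : Good XX 15 p3758 := rs15 c3758 rfl trivial
theorem g3759 : Good XX 15 p3759 := rs15 c3759 rfl ⟨g3754, ⟨g3755, ⟨g3756, ⟨g3757, ⟨g3758, trivial⟩⟩⟩⟩⟩
theorem g3760 : Good XX 15 p3760 := rs15 c3760 rfl trivial
theorem g3761 : Good XX 15 p3761 := rs15 c3761 rfl trivial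
theorem g3762 : Good XX 15 p3762 := rs15 c3762 rfl trivial
theorem g3763 : Good XX 15 p3763 := rs15 c3763 rfl ⟨g3760, ⟨g3761, ⟨g3762, trivial⟩⟩⟩
theorem g3764 : Good XX 15 p3764 := rs15 c3764 rfl trivial
theorem g3765 : Good XX 15 p3765 := rs15 c3765 rfl trivial
theorem g3766 : Good XX 15 p3766 := rs15 c3766 rfl ⟨g3764, ⟨g3765, trivial⟩⟩
theorem g3767 : Good XX 15 p3767 := rs15 c3767 rfl trivial
theorem g3768 : Good XX 15 p3768 := rs15 c3768 rfl trivial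
theorem g3769 : Good XX 15 p3769 := rs15 c3769 rfl trivial
theorem g3770 : Good XX 15 p3770 := rs15 c3770 rfl trivial
theorem g3771 : Good XX 15 p3771 := rs15 c3771 rfl trivial
theorem g3772 : Good XX 15 p3772 := rs15 c3772 rfl ⟨g3771, trivial⟩
theorem g3773 : Good XX 15 p3773 := rs15 c3773 rfl trivial
theorem g3774 : Good XX 15 p3774 := rs15 c3774 rfl trivial
theorem g3775 : Good XX 15 p3775 := rs15 c3775 rfl trivial
theorem g3776 : Good XX 15 p3776 := rs15 c3776 rfl trivial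
theorem g3777 : Good XX 15 p3777 := rs15 c3777 rfl ⟨g3776, trivial⟩
theorem g3778 : Good XX 15 p3778 := rs15 c3778 rfl trivial
theorem g3779 : Good XX 15 p3779 := rs15 c3779 rfl trivial
theorem g3780 : Good XX 15 p3780 := rs15 c3780 rfl trivial
theorem g3781 : Good XX 15 p3781 := rs15 c3781 rfl trivial
theorem g3782 : Good XX 15 p3782 := rs15 c3782 rfl ⟨g3779, ⟨g3780, ⟨g3781, trivial⟩⟩⟩
theorem g3783 : Good XX 15 p3783 := rs15 c3783 rfl trivial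
theorem g3784 : Good XX 15 p3784 := rs15 c3784 rfl trivial
theorem g3785 : Good XX 15 p3785 := rs15 c3785 rfl trivial
theorem g3786 : Good XX 15 p3786 := rs15 c3786 rfl trivial
theorem g3787 : Good XX 15 p3787 := rs15 c3787 rfl ⟨g3784, ⟨g3785, ⟨g3786, trivial⟩⟩⟩
theorem g3788 : Good XX 15 p3788 := rs15 c3788 rfl trivial
theorem g3789 : Good XX 15 p3789 := rs15 c3789 rfl trivial
theorem g3790 : Good XX 15 p3790 := rs15 c3790 rfl trivial
theorem g3791 : Good XX 15 p3791 := rs15 c3791 rfl trivial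
theorem g3792 : Good XX 15 p3792 := rs15 c3792 rfl trivial
theorem g3793 : Good XX 15 p3793 := rs15 c3793 rfl trivial
theorem g3794 : Good XX 15 p3794 := rs15 c3794 rfl trivial
theorem g3795 : Good XX 15 p3795 := rs15 c3795 rfl trivial
theorem g3796 : Good XX 15 p3796 := rs15 c3796 rfl ⟨g3795, trivial⟩
theorem g3797 : Good XX 15 p3797 := rs15 c3797 rfl trivial
theorem g3798 : Good XX 15 p3798 := rs15 c3798 rfl trivial
theorem g3799 : Good XX 15 p3799 := rs15 c3799 rfl trivial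
theorem g3800 : Good XX 15 p3800 := rs15 c3800 rfl trivial
theorem g3801 : Good XX 15 p3801 := rs15 c3801 rfl trivial
theorem g3802 : Good XX 15 p3802 := rs15 c3802 rfl trivial
theorem g3803 : Good XX 15 p3803 := rs15 c3803 rfl ⟨g3799, ⟨g3800, ⟨g3801, ⟨g3802, trivial⟩⟩⟩⟩
theorem g3804 : Good XX 15 p3804 := rs15 c3804 rfl trivial
theorem g3805 : Good XX 15 p3805 := rs15 c3805 rfl ⟨g3804, trivial⟩
theorem g3806 : Good XX 15 p3806 := rs15 c3806 rfl trivial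
theorem g3807 : Good XX 15 p3807 := rs15 c3807 rfl trivial
theorem g3808 : Good XX 15 p3808 := rs15 c3808 rfl trivial
theorem g3809 : Good XX 15 p3809 := rs15 c3809 rfl trivial
theorem g3810 : Good XX 15 p3810 := rs15 c3810 rfl trivial
theorem g3811 : Good XX 15 p3811 := rs15 c3811 rfl trivial
theorem g3812 : Good XX 15 p3812 := rs15 c3812 rfl ⟨g3809, ⟨g3810, ⟨g3811, trivial⟩⟩⟩
theorem g3813 : Good XX 15 p3813 := rs15 c3813 rfl trivial
theorem g3814 : Good XX 15 p3814 := rs15 c3814 rfl trivial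
theorem g3815 : Good XX 15 p3815 := rs15 c3815 rfl trivial
theorem g3816 : Good XX 15 p3816 := rs15 c3816 rfl ⟨g3813, ⟨g3814, ⟨g3815, trivial⟩⟩⟩
theorem g3817 : Good XX 15 p3817 := rs15 c3817 rfl trivial
theorem g3818 : Good XX 15 p3818 := rs15 c3818 rfl trivial
theorem g3819 : Good XX 15 p3819 := rs15 c3819 rfl trivial
theorem g3820 : Good XX 15 p3820 := rs15 c3820 rfl trivial
theorem g3821 : Good XX 15 p3821 := rs15 c3821 rfl ⟨g3820, trivial⟩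
theorem g3822 : Good XX 15 p3822 := rs15 c3822 rfl trivial
theorem g3823 : Good XX 15 p3823 := rs15 c3823 rfl trivial
theorem g3824 : Good XX 15 p3824 := rs15 c3824 rfl trivial
theorem g3825 : Good XX 15 p3825 := rs15 c3825 rfl trivial
theorem g3826 : Good XX 15 p3826 := rs15 c3826 rfl ⟨g3823, ⟨g3824, ⟨g3825, trivial⟩⟩⟩
theorem g3827 : Good XX 15 p3827 := rs15 c3827 rfl trivial
theorem g3828 : Good XX 15 p3828 := rs15 c3828 rfl trivial
theorem g3829 : Good XX 15 p3829 := rs15 c3829 rfl trivial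
theorem g3830 : Good XX 15 p3830 := rs15 c3830 rfl trivial
theorem g3831 : Good XX 15 p3831 := rs15 c3831 rfl ⟨g3830, trivial⟩
theorem g3832 : Good XX 15 p3832 := rs15 c3832 rfl trivial
theorem g3833 : Good XX 15 p3833 := rs15 c3833 rfl ⟨g3832, trivial⟩
theorem g3834 : Good XX 15 p3834 := rs15 c3834 rfl trivial
theorem g3835 : Good XX 15 p3835 := rs15 c3835 rfl trivial
theorem g3836 : Good XX 15 p3836 := rs15 c3836 rfl trivial
theorem g3837 : Good XX 15 p3837 := rs15 c3837 rfl trivial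
theorem g3838 : Good XX 15 p3838 := rs15 c3838 rfl ⟨g3835, ⟨g3836, ⟨g3837, trivial⟩⟩⟩
theorem g3839 : Good XX 15 p3839 := rs15 c3839 rfl trivial
theorem g3840 : Good XX 15 p3840 := rs15 c3840 rfl trivial
theorem g3841 : Good XX 15 p3841 := rs15 c3841 rfl ⟨g3839, ⟨g3840, trivial⟩⟩
theorem g3842 : Good XX 15 p3842 := rs15 c3842 rfl trivial
theorem g3843 : Good XX 15 p3843 := rs15 c3843 rfl trivial
theorem g3844 : Good XX 15 p3844 := rs15 c3844 rfl trivial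
theorem g3845 : Good XX 15 p3845 := rs15 c3845 rfl trivial
theorem g3846 : Good XX 15 p3846 := rs15 c3846 rfl trivial
theorem g3847 : Good XX 15 p3847 := rs15 c3847 rfl trivial
theorem g3848 : Good XX 15 p3848 := rs15 c3848 rfl trivial
theorem g3849 : Good XX 15 p3849 := rs15 c3849 rfl ⟨g3842, ⟨g3843, ⟨g3844, ⟨g3845, ⟨g3846, ⟨g3847, ⟨g3848, trivial⟩⟩⟩⟩⟩⟩⟩
theorem g3850 : Good XX 15 p3850 := rs15 c3850 rfl ⟨g3766, ⟨g3767, ⟨g3768, ⟨g3769, ⟨g3770, ⟨g3772, ⟨g3773, ⟨g3774, ⟨g3775, ⟨g3777, ⟨g3778, ⟨g3782, ⟨g3783, ⟨g3787, ⟨g3788, ⟨g3789, ⟨g3790, ⟨g3791, ⟨g3792, ⟨g3793, ⟨g3794, ⟨g3796, ⟨g3797, ⟨g3798, ⟨g3803, ⟨g3805, ⟨g3806, ⟨g3807, ⟨g3808, ⟨g3812, ⟨g3816, ⟨g3817, ⟨g3818, ⟨g3819, ⟨g3821, ⟨g3822, ⟨g3826, ⟨g3827, ⟨g3828, ⟨g3829, ⟨g3831, ⟨g3833, ⟨g3834, ⟨g3838, ⟨g3841, ⟨g3849, trivial⟩⟩⟩⟩⟩⟩⟩⟩⟩⟩⟩⟩⟩⟩⟩⟩⟩⟩⟩⟩⟩⟩⟩⟩⟩⟩⟩⟩⟩⟩⟩⟩⟩⟩⟩⟩⟩⟩⟩⟩⟩⟩⟩⟩⟩⟩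
theorem g3851 : Good XX 15 p3851 := rs15 c3851 rfl trivial
theorem g3852 : Good XX 15 p3852 := rs15 c3852 rfl trivial
theorem g3853 : Good XX 15 p3853 := rs15 c3853 rfl trivial
theorem g3854 : Good XX 15 p3854 := rs15 c3854 rfl trivial
theorem g3855 : Good XX 15 p3855 := rs15 c3855 rfl trivial
theorem g3856 : Good XX 15 p3856 := rs15 c3856 rfl trivial
theorem g3857 : Good XX 15 p3857 := rs15 c3857 rfl trivial
theorem g3858 : Good XX 15 p3858 := rs15 c3858 rfl ⟨g3857, trivial⟩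
theorem g3859 : Good XX 15 p3859 := rs15 c3859 rfl trivial
theorem g3860 : Good XX 15 p3860 := rs15 c3860 rfl trivial
theorem g3861 : Good XX 15 p3861 := rs15 c3861 rfl trivial
theorem g3862 : Good XX 15 p3862 := rs15 c3862 rfl trivial
theorem g3863 : Good XX 15 p3863 := rs15 c3863 rfl trivial
theorem g3864 : Good XX 15 p3864 := rs15 c3864 rfl ⟨g3863, trivial⟩
theorem g3865 : Good XX 15 p3865 := rs15 c3865 rfl trivial
theorem g3866 : Good XX 15 p3866 := rs15 c3866 rfl trivial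
theorem g3867 : Good XX 15 p3867 := rs15 c3867 rfl trivial
theorem g3868 : Good XX 15 p3868 := rs15 c3868 rfl trivial
theorem g3869 : Good XX 15 p3869 := rs15 c3869 rfl ⟨g3867, ⟨g3868, trivial⟩⟩
theorem g3870 : Good XX 15 p3870 := rs15 c3870 rfl trivial
theorem g3871 : Good XX 15 p3871 := rs15 c3871 rfl trivial
theorem g3872 : Good XX 15 p3872 := rs15 c3872 rfl trivial
theorem g3873 : Good XX 15 p3873 := rs15 c3873 rfl trivial
theorem g3874 : Good XX 15 p3874 := rs15 c3874 rfl ⟨g3871, ⟨g3872, ⟨g3873, trivial⟩⟩⟩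
theorem g3875 : Good XX 15 p3875 := rs15 c3875 rfl trivial
theorem g3876 : Good XX 15 p3876 := rs15 c3876 rfl trivial
theorem g3877 : Good XX 15 p3877 := rs15 c3877 rfl trivial
theorem g3878 : Good XX 15 p3878 := rs15 c3878 rfl trivial
theorem g3879 : Good XX 15 p3879 := rs15 c3879 rfl trivial
theorem g3880 : Good XX 15 p3880 := rs15 c3880 rfl ⟨g3875, ⟨g3876, ⟨g3877, ⟨g3878, ⟨g3879, trivial⟩⟩⟩⟩⟩
theorem g3881 : Good XX 15 p3881 := rs15 c3881 rfl trivial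
theorem g3882 : Good XX 15 p3882 := rs15 c3882 rfl trivial
theorem g3883 : Good XX 15 p3883 := rs15 c3883 rfl trivial
theorem g3884 : Good XX 15 p3884 := rs15 c3884 rfl trivial
theorem g3885 : Good XX 15 p3885 := rs15 c3885 rfl trivial
theorem g3886 : Good XX 15 p3886 := rs15 c3886 rfl trivial
theorem g3887 : Good XX 15 p3887 := rs15 c3887 rfl ⟨g3851, ⟨g3852, ⟨g3853, ⟨g3854, ⟨g3855, ⟨g3856, ⟨g3858, ⟨g3859, ⟨g3860, ⟨g3861, ⟨g3862, ⟨g3864, ⟨g3865, ⟨g3866, ⟨g3869, ⟨g3870, ⟨g3874, ⟨g3880, ⟨g3881, ⟨g3882, ⟨g3883, ⟨g3884, ⟨g3885, ⟨g3886, trivial⟩⟩⟩⟩⟩⟩⟩⟩⟩⟩⟩⟩⟩⟩⟩⟩⟩⟩⟩⟩⟩⟩⟩⟩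
theorem g3888 : Good XX 15 p3888 := rs15 c3888 rfl ⟨g3663, ⟨g3664, ⟨g3684, ⟨g3746, ⟨g3747, ⟨g3749, ⟨g3750, ⟨g3753, ⟨g3759, ⟨g3763, ⟨g3850, ⟨g3887, trivial⟩⟩⟩⟩⟩⟩⟩⟩⟩⟩⟩⟩
theorem g3889 : Good XX 15 p3889 := rs15 c3889 rfl trivial
theorem g3890 : Good XX 15 p3890 := rs15 c3890 rfl trivial
theorem g3891 : Good XX 15 p3891 := rs15 c3891 rfl ⟨g3889, ⟨g3890, trivial⟩⟩
theorem g3892 : Good XX 15 p3892 := rs15 c3892 rfl trivial
theorem g3893 : Good XX 15 p3893 := rs15 c3893 rfl trivial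
theorem g3894 : Good XX 15 p3894 := rs15 c3894 rfl trivial
theorem g3895 : Good XX 15 p3895 := rs15 c3895 rfl trivial
theorem g3896 : Good XX 15 p3896 := rs15 c3896 rfl trivial
theorem g3897 : Good XX 15 p3897 := rs15 c3897 rfl ⟨g3892, ⟨g3893, ⟨g3894, ⟨g3895, ⟨g3896, trivial⟩⟩⟩⟩⟩
theorem g3898 : Good XX 15 p3898 := rs15 c3898 rfl trivial
theorem g3899 : Good XX 15 p3899 := rs15 c3899 rfl trivial
theorem g3900 : Good XX 15 p3900 := rs15 c3900 rfl trivial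
theorem g3901 : Good XX 15 p3901 := rs15 c3901 rfl trivial
theorem g3902 : Good XX 15 p3902 := rs15 c3902 rfl ⟨g3901, trivial⟩
theorem g3903 : Good XX 15 p3903 := rs15 c3903 rfl trivial
theorem g3904 : Good XX 15 p3904 := rs15 c3904 rfl ⟨g3903, trivial⟩
theorem g3905 : Good XX 15 p3905 := rs15 c3905 rfl trivial
theorem g3906 : Good XX 15 p3906 := rs15 c3906 rfl trivial
theorem g3907 : Good XX 15 p3907 := rs15 c3907 rfl trivial
theorem g3908 : Good XX 15 p3908 := rs15 c3908 rfl trivial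
theorem g3909 : Good XX 15 p3909 := rs15 c3909 rfl trivial
theorem g3910 : Good XX 15 p3910 := rs15 c3910 rfl ⟨g3905, ⟨g3906, ⟨g3907, ⟨g3908, ⟨g3909, trivial⟩⟩⟩⟩⟩
theorem g3911 : Good XX 15 p3911 := rs15 c3911 rfl trivial
theorem g3912 : Good XX 15 p3912 := rs15 c3912 rfl trivial
theorem g3913 : Good XX 15 p3913 := rs15 c3913 rfl trivial
theorem g3914 : Good XX 15 p3914 := rs15 c3914 rfl trivial
theorem g3915 : Good XX 15 p3915 := rs15 c3915 rfl trivial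
theorem g3916 : Good XX 15 p3916 := rs15 c3916 rfl ⟨g3914, ⟨g3915, trivial⟩⟩
theorem g3917 : Good XX 15 p3917 := rs15 c3917 rfl trivial
theorem g3918 : Good XX 15 p3918 := rs15 c3918 rfl trivial
theorem g3919 : Good XX 15 p3919 := rs15 c3919 rfl ⟨g3918, trivial⟩
theorem g3920 : Good XX 15 p3920 := rs15 c3920 rfl trivial
theorem g3921 : Good XX 15 p3921 := rs15 c3921 rfl ⟨g3911, ⟨g3912, ⟨g3913, ⟨g3916, ⟨g3917, ⟨g3919, ⟨g3920, trivial⟩⟩⟩⟩⟩⟩⟩
theorem g3922 : Good XX 15 p3922 := rs15 c3922 rfl trivial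
theorem g3923 : Good XX 15 p3923 := rs15 c3923 rfl trivial
theorem g3924 : Good XX 15 p3924 := rs15 c3924 rfl trivial
theorem g3925 : Good XX 15 p3925 := rs15 c3925 rfl trivial
theorem g3926 : Good XX 15 p3926 := rs15 c3926 rfl trivial
theorem g3927 : Good XX 15 p3927 := rs15 c3927 rfl trivial
theorem g3928 : Good XX 15 p3928 := rs15 c3928 rfl trivial
theorem g3929 : Good XX 15 p3929 := rs15 c3929 rfl ⟨g3926, ⟨g3927, ⟨g3928, trivial⟩⟩⟩
theorem g3930 : Good XX 15 p3930 := rs15 c3930 rfl ⟨g3922, ⟨g3923, ⟨g3924, ⟨g3925, ⟨g3929, trivial⟩⟩⟩⟩⟩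
theorem g3931 : Good XX 15 p3931 := rs15 c3931 rfl trivial
theorem g3932 : Good XX 15 p3932 := rs15 c3932 rfl ⟨g3931, trivial⟩
theorem g3933 : Good XX 15 p3933 := rs15 c3933 rfl trivial
theorem g3934 : Good XX 15 p3934 := rs15 c3934 rfl trivial
theorem g3935 : Good XX 15 p3935 := rs15 c3935 rfl trivial
theorem g3936 : Good XX 15 p3936 := rs15 c3936 rfl ⟨g3935, trivial⟩
theorem g3937 : Good XX 15 p3937 := rs15 c3937 rfl trivial
theorem g3938 : Good XX 15 p3938 := rs15 c3938 rfl ⟨g3937, trivial⟩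
theorem g3939 : Good XX 15 p3939 := rs15 c3939 rfl trivial
theorem g3940 : Good XX 15 p3940 := rs15 c3940 rfl ⟨g3939, trivial⟩
theorem g3941 : Good XX 15 p3941 := rs15 c3941 rfl ⟨g3933, ⟨g3934, ⟨g3936, ⟨g3938, ⟨g3940, trivial⟩⟩⟩⟩⟩
theorem g3942 : Good XX 15 p3942 := rs15 c3942 rfl trivial
theorem g3943 : Good XX 15 p3943 := rs15 c3943 rfl trivial
theorem g3944 : Good XX 15 p3944 := rs15 c3944 rfl trivial
theorem g3945 : Good XX 15 p3945 := rs15 c3945 rfl trivial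
theorem g3946 : Good XX 15 p3946 := rs15 c3946 rfl ⟨g3944, ⟨g3945, trivial⟩⟩
theorem g3947 : Good XX 15 p3947 := rs15 c3947 rfl trivial
theorem g3948 : Good XX 15 p3948 := rs15 c3948 rfl trivial
theorem g3949 : Good XX 15 p3949 := rs15 c3949 rfl trivial
theorem g3950 : Good XX 15 p3950 := rs15 c3950 rfl ⟨g3948, ⟨g3949, trivial⟩⟩
theorem g3951 : Good XX 15 p3951 := rs15 c3951 rfl trivial
theorem g3952 : Good XX 15 p3952 := rs15 c3952 rfl trivial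
theorem g3953 : Good XX 15 p3953 := rs15 c3953 rfl trivial
theorem g3954 : Good XX 15 p3954 := rs15 c3954 rfl trivial
theorem g3955 : Good XX 15 p3955 := rs15 c3955 rfl trivial
theorem g3956 : Good XX 15 p3956 := rs15 c3956 rfl ⟨g3952, ⟨g3953, ⟨g3954, ⟨g3955, trivial⟩⟩⟩⟩
theorem g3957 : Good XX 15 p3957 := rs15 c3957 rfl trivial
theorem g3958 : Good XX 15 p3958 := rs15 c3958 rfl trivial
theorem g3959 : Good XX 15 p3959 := rs15 c3959 rfl ⟨g3957, ⟨g3958, trivial⟩⟩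
theorem g3960 : Good XX 15 p3960 := rs15 c3960 rfl ⟨g3942, ⟨g3943, ⟨g3946, ⟨g3947, ⟨g3950, ⟨g3951, ⟨g3956, ⟨g3959, trivial⟩⟩⟩⟩⟩⟩⟩⟩
theorem g3961 : Good XX 15 p3961 := rs15 c3961 rfl trivial
theorem g3962 : Good XX 15 p3962 := rs15 c3962 rfl trivial
theorem g3963 : Good XX 15 p3963 := rs15 c3963 rfl trivial
theorem g3964 : Good XX 15 p3964 := rs15 c3964 rfl trivial
theorem g3965 : Good XX 15 p3965 := rs15 c3965 rfl trivial
theorem g3966 : Good XX 15 p3966 := rs15 c3966 rfl trivial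
theorem g3967 : Good XX 15 p3967 := rs15 c3967 rfl trivial
theorem g3968 : Good XX 15 p3968 := rs15 c3968 rfl ⟨g3965, ⟨g3966, ⟨g3967, trivial⟩⟩⟩
theorem g3969 : Good XX 15 p3969 := rs15 c3969 rfl trivial
theorem g3970 : Good XX 15 p3970 := rs15 c3970 rfl trivial
theorem g3971 : Good XX 15 p3971 := rs15 c3971 rfl trivial
theorem g3972 : Good XX 15 p3972 := rs15 c3972 rfl trivial
theorem g3973 : Good XX 15 p3973 := rs15 c3973 rfl trivial
theorem g3974 : Good XX 15 p3974 := rs15 c3974 rfl trivial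
theorem g3975 : Good XX 15 p3975 := rs15 c3975 rfl trivial
theorem g3976 : Good XX 15 p3976 := rs15 c3976 rfl ⟨g3972, ⟨g3973, ⟨g3974, ⟨g3975, trivial⟩⟩⟩⟩
theorem g3977 : Good XX 15 p3977 := rs15 c3977 rfl trivial
theorem g3978 : Good XX 15 p3978 := rs15 c3978 rfl ⟨g3977, trivial⟩
theorem g3979 : Good XX 15 p3979 := rs15 c3979 rfl trivial
theorem g3980 : Good XX 15 p3980 := rs15 c3980 rfl trivial
theorem g3981 : Good XX 15 p3981 := rs15 c3981 rfl trivial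
theorem g3982 : Good XX 15 p3982 := rs15 c3982 rfl trivial
theorem g3983 : Good XX 15 p3983 := rs15 c3983 rfl trivial
theorem g3984 : Good XX 15 p3984 := rs15 c3984 rfl trivial
theorem g3985 : Good XX 15 p3985 := rs15 c3985 rfl trivial
theorem g3986 : Good XX 15 p3986 := rs15 c3986 rfl trivial
theorem g3987 : Good XX 15 p3987 := rs15 c3987 rfl ⟨g3961, ⟨g3962, ⟨g3963, ⟨g3964, ⟨g3968, ⟨g3969, ⟨g3970, ⟨g3971, ⟨g3976, ⟨g3978, ⟨g3979, ⟨g3980, ⟨g3981, ⟨g3982, ⟨g3983, ⟨g3984, ⟨g3985, ⟨g3986, trivial⟩⟩⟩⟩⟩⟩⟩⟩⟩⟩⟩⟩⟩⟩⟩⟩⟩⟩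
theorem g3988 : Good XX 15 p3988 := rs15 c3988 rfl trivial
theorem g3989 : Good XX 15 p3989 := rs15 c3989 rfl trivial
theorem g3990 : Good XX 15 p3990 := rs15 c3990 rfl trivial
theorem g3991 : Good XX 15 p3991 := rs15 c3991 rfl trivial
theorem g3992 : Good XX 15 p3992 := rs15 c3992 rfl trivial
theorem g3993 : Good XX 15 p3993 := rs15 c3993 rfl trivial
theorem g3994 : Good XX 15 p3994 := rs15 c3994 rfl trivial
theorem g3995 : Good XX 15 p3995 := rs15 c3995 rfl trivial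
theorem g3996 : Good XX 15 p3996 := rs15 c3996 rfl trivial
theorem g3997 : Good XX 15 p3997 := rs15 c3997 rfl trivial
theorem g3998 : Good XX 15 p3998 := rs15 c3998 rfl ⟨g3996, ⟨g3997, trivial⟩⟩
theorem g3999 : Good XX 15 p3999 := rs15 c3999 rfl trivial
theorem g4000 : Good XX 15 p4000 := rs15 c4000 rfl ⟨g3999, trivial⟩
theorem g4001 : Good XX 15 p4001 := rs15 c4001 rfl ⟨g3993, ⟨g3994, ⟨g3995, ⟨g3998, ⟨g4000, trivial⟩⟩⟩⟩⟩
theorem g4002 : Good XX 15 p4002 := rs15 c4002 rfl trivial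
theorem g4003 : Good XX 15 p4003 := rs15 c4003 rfl trivial
theorem g4004 : Good XX 15 p4004 := rs15 c4004 rfl trivial
theorem g4005 : Good XX 15 p4005 := rs15 c4005 rfl trivial
theorem g4006 : Good XX 15 p4006 := rs15 c4006 rfl trivial
theorem g4007 : Good XX 15 p4007 := rs15 c4007 rfl trivial
theorem g4008 : Good XX 15 p4008 := rs15 c4008 rfl trivial
theorem g4009 : Good XX 15 p4009 := rs15 c4009 rfl ⟨g4006, ⟨g4007, ⟨g4008, trivial⟩⟩⟩
theorem g4010 : Good XX 15 p4010 := rs15 c4010 rfl trivial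
theorem g4011 : Good XX 15 p4011 := rs15 c4011 rfl ⟨g4010, trivial⟩
theorem g4012 : Good XX 15 p4012 := rs15 c4012 rfl ⟨g4002, ⟨g4003, ⟨g4004, ⟨g4005, ⟨g4009, ⟨g4011, trivial⟩⟩⟩⟩⟩⟩
theorem g4013 : Good XX 15 p4013 := rs15 c4013 rfl trivial
theorem g4014 : Good XX 15 p4014 := rs15 c4014 rfl trivial
theorem g4015 : Good XX 15 p4015 := rs15 c4015 rfl trivial
theorem g4016 : Good XX 15 p4016 := rs15 c4016 rfl ⟨g4014, ⟨g4015, trivial⟩⟩
theorem g4017 : Good XX 15 p4017 := rs15 c4017 rfl trivial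
theorem g4018 : Good XX 15 p4018 := rs15 c4018 rfl ⟨g4017, trivial⟩
theorem g4019 : Good XX 15 p4019 := rs15 c4019 rfl trivial
theorem g4020 : Good XX 15 p4020 := rs15 c4020 rfl trivial
theorem g4021 : Good XX 15 p4021 := rs15 c4021 rfl trivial
theorem g4022 : Good XX 15 p4022 := rs15 c4022 rfl ⟨g4019, ⟨g4020, ⟨g4021, trivial⟩⟩⟩
theorem g4023 : Good XX 15 p4023 := rs15 c4023 rfl ⟨g3991, ⟨g3992, ⟨g4001, ⟨g4012, ⟨g4013, ⟨g4016, ⟨g4018, ⟨g4022, trivial⟩⟩⟩⟩⟩⟩⟩⟩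
theorem g4024 : Good XX 15 p4024 := rs15 c4024 rfl trivial
theorem g4025 : Good XX 15 p4025 := rs15 c4025 rfl trivial
theorem g4026 : Good XX 15 p4026 := rs15 c4026 rfl trivial
theorem g4027 : Good XX 15 p4027 := rs15 c4027 rfl trivial
theorem g4028 : Good XX 15 p4028 := rs15 c4028 rfl trivial
theorem g4029 : Good XX 15 p4029 := rs15 c4029 rfl ⟨g4024, ⟨g4025, ⟨g4026, ⟨g4027, ⟨g4028, trivial⟩⟩⟩⟩⟩
theorem g4030 : Good XX 15 p4030 := rs15 c4030 rfl ⟨g3891, ⟨g3897, ⟨g3898, ⟨g3899, ⟨g3900, ⟨g3902, ⟨g3904, ⟨g3910, ⟨g3921, ⟨g3930, ⟨g3932, ⟨g3941, ⟨g3960, ⟨g3987, ⟨g3988, ⟨g3989, ⟨g3990, ⟨g4023, ⟨g4029, trivial⟩⟩⟩⟩⟩⟩⟩⟩⟩⟩⟩⟩⟩⟩⟩⟩⟩⟩⟩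
theorem g4031 : Good XX 15 p4031 := rs15 c4031 rfl trivial
theorem g4032 : Good XX 15 p4032 := rs15 c4032 rfl trivial
theorem g4033 : Good XX 15 p4033 := rs15 c4033 rfl trivial
theorem g4034 : Good XX 15 p4034 := rs15 c4034 rfl trivial
theorem g4035 : Good XX 15 p4035 := rs15 c4035 rfl trivial
theorem g4036 : Good XX 15 p4036 := rs15 c4036 rfl trivial
theorem g4037 : Good XX 15 p4037 := rs15 c4037 rfl ⟨g4035, ⟨g4036, trivial⟩⟩
theorem g4038 : Good XX 15 p4038 := rs15 c4038 rfl trivial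
theorem g4039 : Good XX 15 p4039 := rs15 c4039 rfl trivial
theorem g4040 : Good XX 15 p4040 := rs15 c4040 rfl trivial
theorem g4041 : Good XX 15 p4041 := rs15 c4041 rfl trivial
theorem g4042 : Good XX 15 p4042 := rs15 c4042 rfl trivial
theorem g4043 : Good XX 15 p4043 := rs15 c4043 rfl trivial
theorem g4044 : Good XX 15 p4044 := rs15 c4044 rfl trivial
theorem g4045 : Good XX 15 p4045 := rs15 c4045 rfl trivial
theorem g4046 : Good XX 15 p4046 := rs15 c4046 rfl trivial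
theorem g4047 : Good XX 15 p4047 := rs15 c4047 rfl ⟨g4044, ⟨g4045, ⟨g4046, trivial⟩⟩⟩
theorem g4048 : Good XX 15 p4048 := rs15 c4048 rfl trivial
theorem g4049 : Good XX 15 p4049 := rs15 c4049 rfl ⟨g4048, trivial⟩
theorem g4050 : Good XX 15 p4050 := rs15 c4050 rfl ⟨g4042, ⟨g4043, ⟨g4047, ⟨g4049, trivial⟩⟩⟩⟩
theorem g4051 : Good XX 15 p4051 := rs15 c4051 rfl ⟨g4038, ⟨g4039, ⟨g4040, ⟨g4041, ⟨g4050, trivial⟩⟩⟩⟩⟩
theorem g4052 : Good XX 15 p4052 := rs15 c4052 rfl trivial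
theorem g4053 : Good XX 15 p4053 := rs15 c4053 rfl trivial
theorem g4054 : Good XX 15 p4054 := rs15 c4054 rfl trivial
theorem g4055 : Good XX 15 p4055 := rs15 c4055 rfl trivial
theorem g4056 : Good XX 15 p4056 := rs15 c4056 rfl trivial
theorem g4057 : Good XX 15 p4057 := rs15 c4057 rfl trivial
theorem g4058 : Good XX 15 p4058 := rs15 c4058 rfl trivial
theorem g4059 : Good XX 15 p4059 := rs15 c4059 rfl trivial
theorem g4060 : Good XX 15 p4060 := rs15 c4060 rfl trivial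
theorem g4061 : Good XX 15 p4061 := rs15 c4061 rfl trivial
theorem g4062 : Good XX 15 p4062 := rs15 c4062 rfl trivial
theorem g4063 : Good XX 15 p4063 := rs15 c4063 rfl trivial
theorem g4064 : Good XX 15 p4064 := rs15 c4064 rfl trivial
theorem g4065 : Good XX 15 p4065 := rs15 c4065 rfl ⟨g4063, ⟨g4064, trivial⟩⟩
theorem g4066 : Good XX 15 p4066 := rs15 c4066 rfl trivial
theorem g4067 : Good XX 15 p4067 := rs15 c4067 rfl trivial
theorem g4068 : Good XX 15 p4068 := rs15 c4068 rfl trivial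
theorem g4069 : Good XX 15 p4069 := rs15 c4069 rfl trivial
theorem g4070 : Good XX 15 p4070 := rs15 c4070 rfl ⟨g4059, ⟨g4060, ⟨g4061, ⟨g4062, ⟨g4065, ⟨g4066, ⟨g4067, ⟨g4068, ⟨g4069, trivial⟩⟩⟩⟩⟩⟩⟩⟩⟩
theorem g4071 : Good XX 15 p4071 := rs15 c4071 rfl trivial
theorem g4072 : Good XX 15 p4072 := rs15 c4072 rfl trivial
theorem g4073 : Good XX 15 p4073 := rs15 c4073 rfl trivial
theorem g4074 : Good XX 15 p4074 := rs15 c4074 rfl trivial
theorem g4075 : Good XX 15 p4075 := rs15 c4075 rfl trivial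
theorem g4076 : Good XX 15 p4076 := rs15 c4076 rfl trivial
theorem g4077 : Good XX 15 p4077 := rs15 c4077 rfl ⟨g4075, ⟨g4076, trivial⟩⟩
theorem g4078 : Good XX 15 p4078 := rs15 c4078 rfl trivial
theorem g4079 : Good XX 15 p4079 := rs15 c4079 rfl trivial
theorem g4080 : Good XX 15 p4080 := rs15 c4080 rfl trivial
theorem g4081 : Good XX 15 p4081 := rs15 c4081 rfl trivial
theorem g4082 : Good XX 15 p4082 := rs15 c4082 rfl ⟨g4080, ⟨g4081, trivial⟩⟩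
theorem g4083 : Good XX 15 p4083 := rs15 c4083 rfl trivial
theorem g4084 : Good XX 15 p4084 := rs15 c4084 rfl trivial
theorem g4085 : Good XX 15 p4085 := rs15 c4085 rfl trivial
theorem g4086 : Good XX 15 p4086 := rs15 c4086 rfl ⟨g4083, ⟨g4084, ⟨g4085, trivial⟩⟩⟩
theorem g4087 : Good XX 15 p4087 := rs15 c4087 rfl trivial
theorem g4088 : Good XX 15 p4088 := rs15 c4088 rfl trivial
theorem g4089 : Good XX 15 p4089 := rs15 c4089 rfl ⟨g4087, ⟨g4088, trivial⟩⟩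
theorem g4090 : Good XX 15 p4090 := rs15 c4090 rfl trivial
theorem g4091 : Good XX 15 p4091 := rs15 c4091 rfl trivial
theorem g4092 : Good XX 15 p4092 := rs15 c4092 rfl trivial
theorem g4093 : Good XX 15 p4093 := rs15 c4093 rfl trivial
theorem g4094 : Good XX 15 p4094 := rs15 c4094 rfl ⟨g4092, ⟨g4093, trivial⟩⟩
theorem g4095 : Good XX 15 p4095 := rs15 c4095 rfl trivial
theorem g4096 : Good XX 15 p4096 := rs15 c4096 rfl trivial
theorem g4097 : Good XX 15 p4097 := rs15 c4097 rfl ⟨g4096, trivial⟩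
theorem g4098 : Good XX 15 p4098 := rs15 c4098 rfl trivial
theorem g4099 : Good XX 15 p4099 := rs15 c4099 rfl trivial
theorem g4100 : Good XX 15 p4100 := rs15 c4100 rfl trivial
theorem g4101 : Good XX 15 p4101 := rs15 c4101 rfl ⟨g4099, ⟨g4100, trivial⟩⟩
theorem g4102 : Good XX 15 p4102 := rs15 c4102 rfl trivial
theorem g4103 : Good XX 15 p4103 := rs15 c4103 rfl ⟨g4102, trivial⟩
theorem g4104 : Good XX 15 p4104 := rs15 c4104 rfl trivial
theorem g4105 : Good XX 15 p4105 := rs15 c4105 rfl trivial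
theorem g4106 : Good XX 15 p4106 := rs15 c4106 rfl trivial
theorem g4107 : Good XX 15 p4107 := rs15 c4107 rfl trivial
theorem g4108 : Good XX 15 p4108 := rs15 c4108 rfl trivial
theorem g4109 : Good XX 15 p4109 := rs15 c4109 rfl trivial
theorem g4110 : Good XX 15 p4110 := rs15 c4110 rfl trivial
theorem g4111 : Good XX 15 p4111 := rs15 c4111 rfl trivial
theorem g4112 : Good XX 15 p4112 := rs15 c4112 rfl ⟨g4109, ⟨g4110, ⟨g4111, trivial⟩⟩⟩
theorem g4113 : Good XX 15 p4113 := rs15 c4113 rfl trivial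
theorem g4114 : Good XX 15 p4114 := rs15 c4114 rfl ⟨g4113, trivial⟩
theorem g4115 : Good XX 15 p4115 := rs15 c4115 rfl trivial
theorem g4116 : Good XX 15 p4116 := rs15 c4116 rfl ⟨g4115, trivial⟩
theorem g4117 : Good XX 15 p4117 := rs15 c4117 rfl trivial
theorem g4118 : Good XX 15 p4118 := rs15 c4118 rfl trivial
theorem g4119 : Good XX 15 p4119 := rs15 c4119 rfl ⟨g4052, ⟨g4053, ⟨g4054, ⟨g4055, ⟨g4056, ⟨g4057, ⟨g4058, ⟨g4070, ⟨g4071, ⟨g4072, ⟨g4073, ⟨g4074, ⟨g4077, ⟨g4078, ⟨g4079, ⟨g4082, ⟨g4086, ⟨g4089, ⟨g4090, ⟨g4091, ⟨g4094, ⟨g4095, ⟨g4097, ⟨g4098, ⟨g4101, ⟨g4103, ⟨g4104, ⟨g4105, ⟨g4106, ⟨g4107, ⟨g4108, ⟨g4112, ⟨g4114, ⟨g4116, ⟨g4117, ⟨g4118, trivial⟩⟩⟩⟩⟩⟩⟩⟩⟩⟩⟩⟩⟩⟩⟩⟩⟩⟩⟩⟩⟩⟩⟩⟩⟩⟩⟩⟩⟩⟩⟩⟩⟩⟩⟩⟩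
theorem g4120 : Good XX 15 p4120 := rs15 c4120 rfl trivial
theorem g4121 : Good XX 15 p4121 := rs15 c4121 rfl trivial
theorem g4122 : Good XX 15 p4122 := rs15 c4122 rfl ⟨g4121, trivial⟩
theorem g4123 : Good XX 15 p4123 := rs15 c4123 rfl trivial
theorem g4124 : Good XX 15 p4124 := rs15 c4124 rfl ⟨g4123, trivial⟩
theorem g4125 : Good XX 15 p4125 := rs15 c4125 rfl trivial
theorem g4126 : Good XX 15 p4126 := rs15 c4126 rfl trivial
theorem g4127 : Good XX 15 p4127 := rs15 c4127 rfl trivial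
theorem g4128 : Good XX 15 p4128 := rs15 c4128 rfl trivial
theorem g4129 : Good XX 15 p4129 := rs15 c4129 rfl trivial
theorem g4130 : Good XX 15 p4130 := rs15 c4130 rfl trivial
theorem g4131 : Good XX 15 p4131 := rs15 c4131 rfl ⟨g4129, ⟨g4130, trivial⟩⟩
theorem g4132 : Good XX 15 p4132 := rs15 c4132 rfl trivial
theorem g4133 : Good XX 15 p4133 := rs15 c4133 rfl trivial
theorem g4134 : Good XX 15 p4134 := rs15 c4134 rfl trivial
theorem g4135 : Good XX 15 p4135 := rs15 c4135 rfl ⟨g4133, ⟨g4134, trivial⟩⟩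
theorem g4136 : Good XX 15 p4136 := rs15 c4136 rfl ⟨g4126, ⟨g4127, ⟨g4128, ⟨g4131, ⟨g4132, ⟨g4135, trivial⟩⟩⟩⟩⟩⟩
theorem g4137 : Good XX 15 p4137 := rs15 c4137 rfl trivial
theorem g4138 : Good XX 15 p4138 := rs15 c4138 rfl trivial
theorem g4139 : Good XX 15 p4139 := rs15 c4139 rfl trivial
theorem g4140 : Good XX 15 p4140 := rs15 c4140 rfl trivial
theorem g4141 : Good XX 15 p4141 := rs15 c4141 rfl trivial
theorem g4142 : Good XX 15 p4142 := rs15 c4142 rfl trivial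
theorem g4143 : Good XX 15 p4143 := rs15 c4143 rfl ⟨g4142, trivial⟩
theorem g4144 : Good XX 15 p4144 := rs15 c4144 rfl trivial
theorem g4145 : Good XX 15 p4145 := rs15 c4145 rfl trivial
theorem g4146 : Good XX 15 p4146 := rs15 c4146 rfl trivial
theorem g4147 : Good XX 15 p4147 := rs15 c4147 rfl trivial
theorem g4148 : Good XX 15 p4148 := rs15 c4148 rfl trivial
theorem g4149 : Good XX 15 p4149 := rs15 c4149 rfl trivial
theorem g4150 : Good XX 15 p4150 := rs15 c4150 rfl trivial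
theorem g4151 : Good XX 15 p4151 := rs15 c4151 rfl trivial
theorem g4152 : Good XX 15 p4152 := rs15 c4152 rfl trivial
theorem g4153 : Good XX 15 p4153 := rs15 c4153 rfl ⟨g4152, trivial⟩
theorem g4154 : Good XX 15 p4154 := rs15 c4154 rfl trivial
theorem g4155 : Good XX 15 p4155 := rs15 c4155 rfl trivial
theorem g4156 : Good XX 15 p4156 := rs15 c4156 rfl trivial
theorem g4157 : Good XX 15 p4157 := rs15 c4157 rfl trivial
theorem g4158 : Good XX 15 p4158 := rs15 c4158 rfl trivial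
theorem g4159 : Good XX 15 p4159 := rs15 c4159 rfl ⟨g4157, ⟨g4158, trivial⟩⟩
theorem g4160 : Good XX 15 p4160 := rs15 c4160 rfl trivial
theorem g4161 : Good XX 15 p4161 := rs15 c4161 rfl ⟨g4160, trivial⟩
theorem g4162 : Good XX 15 p4162 := rs15 c4162 rfl trivial
theorem g4163 : Good XX 15 p4163 := rs15 c4163 rfl trivial
theorem g4164 : Good XX 15 p4164 := rs15 c4164 rfl trivial
theorem g4165 : Good XX 15 p4165 := rs15 c4165 rfl trivial
theorem g4166 : Good XX 15 p4166 := rs15 c4166 rfl ⟨g4162, ⟨g4163, ⟨g4164, ⟨g4165, trivial⟩⟩⟩⟩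
theorem g4167 : Good XX 15 p4167 := rs15 c4167 rfl trivial
theorem g4168 : Good XX 15 p4168 := rs15 c4168 rfl trivial
theorem g4169 : Good XX 15 p4169 := rs15 c4169 rfl ⟨g4167, ⟨g4168, trivial⟩⟩
theorem g4170 : Good XX 15 p4170 := rs15 c4170 rfl trivial
theorem g4171 : Good XX 15 p4171 := rs15 c4171 rfl trivial
theorem g4172 : Good XX 15 p4172 := rs15 c4172 rfl trivial
theorem g4173 : Good XX 15 p4173 := rs15 c4173 rfl trivial
theorem g4174 : Good XX 15 p4174 := rs15 c4174 rfl ⟨g4170, ⟨g4171, ⟨g4172, ⟨g4173, trivial⟩⟩⟩⟩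
theorem g4175 : Good XX 15 p4175 := rs15 c4175 rfl trivial
theorem g4176 : Good XX 15 p4176 := rs15 c4176 rfl trivial
theorem g4177 : Good XX 15 p4177 := rs15 c4177 rfl ⟨g4175, ⟨g4176, trivial⟩⟩
theorem g4178 : Good XX 15 p4178 := rs15 c4178 rfl trivial
theorem g4179 : Good XX 15 p4179 := rs15 c4179 rfl trivial
theorem g4180 : Good XX 15 p4180 := rs15 c4180 rfl trivial
theorem g4181 : Good XX 15 p4181 := rs15 c4181 rfl trivial
theorem g4182 : Good XX 15 p4182 := rs15 c4182 rfl ⟨g4178, ⟨g4179, ⟨g4180, ⟨g4181, trivial⟩⟩⟩⟩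
theorem g4183 : Good XX 15 p4183 := rs15 c4183 rfl ⟨g4125, ⟨g4136, ⟨g4137, ⟨g4138, ⟨g4139, ⟨g4140, ⟨g4141, ⟨g4143, ⟨g4144, ⟨g4145, ⟨g4146, ⟨g4147, ⟨g4148, ⟨g4149, ⟨g4150, ⟨g4151, ⟨g4153, ⟨g4154, ⟨g4155, ⟨g4156, ⟨g4159, ⟨g4161, ⟨g4166, ⟨g4169, ⟨g4174, ⟨g4177, ⟨g4182, trivial⟩⟩⟩⟩⟩⟩⟩⟩⟩⟩⟩⟩⟩⟩⟩⟩⟩⟩⟩⟩⟩⟩⟩⟩⟩⟩⟩
theorem g4184 : Good XX 15 p4184 := rs15 c4184 rfl trivial
theorem g4185 : Good XX 15 p4185 := rs15 c4185 rfl trivial
theorem g4186 : Good XX 15 p4186 := rs15 c4186 rfl trivial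
theorem g4187 : Good XX 15 p4187 := rs15 c4187 rfl trivial
theorem g4188 : Good XX 15 p4188 := rs15 c4188 rfl trivial
theorem g4189 : Good XX 15 p4189 := rs15 c4189 rfl trivial
theorem g4190 : Good XX 15 p4190 := rs15 c4190 rfl trivial
theorem g4191 : Good XX 15 p4191 := rs15 c4191 rfl trivial
theorem g4192 : Good XX 15 p4192 := rs15 c4192 rfl trivial
theorem g4193 : Good XX 15 p4193 := rs15 c4193 rfl trivial
theorem g4194 : Good XX 15 p4194 := rs15 c4194 rfl trivial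
theorem g4195 : Good XX 15 p4195 := rs15 c4195 rfl trivial
theorem g4196 : Good XX 15 p4196 := rs15 c4196 rfl ⟨g4193, ⟨g4194, ⟨g4195, trivial⟩⟩⟩
theorem g4197 : Good XX 15 p4197 := rs15 c4197 rfl trivial
theorem g4198 : Good XX 15 p4198 := rs15 c4198 rfl trivial
theorem g4199 : Good XX 15 p4199 := rs15 c4199 rfl trivial
theorem g4200 : Good XX 15 p4200 := rs15 c4200 rfl trivial
theorem g4201 : Good XX 15 p4201 := rs15 c4201 rfl trivial
theorem g4202 : Good XX 15 p4202 := rs15 c4202 rfl trivial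
theorem g4203 : Good XX 15 p4203 := rs15 c4203 rfl ⟨g4200, ⟨g4201, ⟨g4202, trivial⟩⟩⟩
theorem g4204 : Good XX 15 p4204 := rs15 c4204 rfl trivial
theorem g4205 : Good XX 15 p4205 := rs15 c4205 rfl trivial
theorem g4206 : Good XX 15 p4206 := rs15 c4206 rfl trivial
theorem g4207 : Good XX 15 p4207 := rs15 c4207 rfl ⟨g4205, ⟨g4206, trivial⟩⟩
theorem g4208 : Good XX 15 p4208 := rs15 c4208 rfl trivial
theorem g4209 : Good XX 15 p4209 := rs15 c4209 rfl trivial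
theorem g4210 : Good XX 15 p4210 := rs15 c4210 rfl trivial
theorem g4211 : Good XX 15 p4211 := rs15 c4211 rfl trivial
theorem g4212 : Good XX 15 p4212 := rs15 c4212 rfl ⟨g4209, ⟨g4210, ⟨g4211, trivial⟩⟩⟩
theorem g4213 : Good XX 15 p4213 := rs15 c4213 rfl trivial
theorem g4214 : Good XX 15 p4214 := rs15 c4214 rfl ⟨g4213, trivial⟩
theorem g4215 : Good XX 15 p4215 := rs15 c4215 rfl ⟨g4198, ⟨g4199, ⟨g4203, ⟨g4204, ⟨g4207, ⟨g4208, ⟨g4212, ⟨g4214, trivial⟩⟩⟩⟩⟩⟩⟩⟩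
theorem g4216 : Good XX 15 p4216 := rs15 c4216 rfl trivial
theorem g4217 : Good XX 15 p4217 := rs15 c4217 rfl trivial
theorem g4218 : Good XX 15 p4218 := rs15 c4218 rfl trivial
theorem g4219 : Good XX 15 p4219 := rs15 c4219 rfl trivial
theorem g4220 : Good XX 15 p4220 := rs15 c4220 rfl trivial
theorem g4221 : Good XX 15 p4221 := rs15 c4221 rfl ⟨g4217, ⟨g4218, ⟨g4219, ⟨g4220, trivial⟩⟩⟩⟩
theorem g4222 : Good XX 15 p4222 := rs15 c4222 rfl trivial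
theorem g4223 : Good XX 15 p4223 := rs15 c4223 rfl trivial
theorem g4224 : Good XX 15 p4224 := rs15 c4224 rfl trivial
theorem g4225 : Good XX 15 p4225 := rs15 c4225 rfl trivial
theorem g4226 : Good XX 15 p4226 := rs15 c4226 rfl ⟨g4223, ⟨g4224, ⟨g4225, trivial⟩⟩⟩
theorem g4227 : Good XX 15 p4227 := rs15 c4227 rfl trivial
theorem g4228 : Good XX 15 p4228 := rs15 c4228 rfl trivial
theorem g4229 : Good XX 15 p4229 := rs15 c4229 rfl trivial
theorem g4230 : Good XX 15 p4230 := rs15 c4230 rfl trivial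
theorem g4231 : Good XX 15 p4231 := rs15 c4231 rfl trivial
theorem g4232 : Good XX 15 p4232 := rs15 c4232 rfl ⟨g4227, ⟨g4228, ⟨g4229, ⟨g4230, ⟨g4231, trivial⟩⟩⟩⟩⟩
theorem g4233 : Good XX 15 p4233 := rs15 c4233 rfl trivial
theorem g4234 : Good XX 15 p4234 := rs15 c4234 rfl ⟨g4233, trivial⟩
theorem g4235 : Good XX 15 p4235 := rs15 c4235 rfl trivial
theorem g4236 : Good XX 15 p4236 := rs15 c4236 rfl trivial
theorem g4237 : Good XX 15 p4237 := rs15 c4237 rfl ⟨g4235, ⟨g4236, trivial⟩⟩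
theorem g4238 : Good XX 15 p4238 := rs15 c4238 rfl trivial
theorem g4239 : Good XX 15 p4239 := rs15 c4239 rfl trivial
theorem g4240 : Good XX 15 p4240 := rs15 c4240 rfl trivial
theorem g4241 : Good XX 15 p4241 := rs15 c4241 rfl trivial
theorem g4242 : Good XX 15 p4242 := rs15 c4242 rfl ⟨g4238, ⟨g4239, ⟨g4240, ⟨g4241, trivial⟩⟩⟩⟩
theorem g4243 : Good XX 15 p4243 := rs15 c4243 rfl trivial
theorem g4244 : Good XX 15 p4244 := rs15 c4244 rfl trivial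
theorem g4245 : Good XX 15 p4245 := rs15 c4245 rfl trivial
theorem g4246 : Good XX 15 p4246 := rs15 c4246 rfl trivial
theorem g4247 : Good XX 15 p4247 := rs15 c4247 rfl trivial
theorem g4248 : Good XX 15 p4248 := rs15 c4248 rfl trivial
theorem g4249 : Good XX 15 p4249 := rs15 c4249 rfl trivial
theorem g4250 : Good XX 15 p4250 := rs15 c4250 rfl trivial
theorem g4251 : Good XX 15 p4251 := rs15 c4251 rfl ⟨g4243, ⟨g4244, ⟨g4245, ⟨g4246, ⟨g4247, ⟨g4248, ⟨g4249, ⟨g4250, trivial⟩⟩⟩⟩⟩⟩⟩⟩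
theorem g4252 : Good XX 15 p4252 := rs15 c4252 rfl trivial
theorem g4253 : Good XX 15 p4253 := rs15 c4253 rfl ⟨g4252, trivial⟩
theorem g4254 : Good XX 15 p4254 := rs15 c4254 rfl trivial
theorem g4255 : Good XX 15 p4255 := rs15 c4255 rfl trivial
theorem g4256 : Good XX 15 p4256 := rs15 c4256 rfl trivial
theorem g4257 : Good XX 15 p4257 := rs15 c4257 rfl trivial
theorem g4258 : Good XX 15 p4258 := rs15 c4258 rfl trivial
theorem g4259 : Good XX 15 p4259 := rs15 c4259 rfl ⟨g4254, ⟨g4255, ⟨g4256, ⟨g4257, ⟨g4258, trivial⟩⟩⟩⟩⟩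
theorem g4260 : Good XX 15 p4260 := rs15 c4260 rfl trivial
theorem g4261 : Good XX 15 p4261 := rs15 c4261 rfl trivial
theorem g4262 : Good XX 15 p4262 := rs15 c4262 rfl trivial
theorem g4263 : Good XX 15 p4263 := rs15 c4263 rfl trivial
theorem g4264 : Good XX 15 p4264 := rs15 c4264 rfl ⟨g4260, ⟨g4261, ⟨g4262, ⟨g4263, trivial⟩⟩⟩⟩
theorem g4265 : Good XX 15 p4265 := rs15 c4265 rfl trivial
theorem g4266 : Good XX 15 p4266 := rs15 c4266 rfl trivial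
theorem g4267 : Good XX 15 p4267 := rs15 c4267 rfl trivial
theorem g4268 : Good XX 15 p4268 := rs15 c4268 rfl ⟨g4267, trivial⟩
theorem g4269 : Good XX 15 p4269 := rs15 c4269 rfl trivial
theorem g4270 : Good XX 15 p4270 := rs15 c4270 rfl trivial
theorem g4271 : Good XX 15 p4271 := rs15 c4271 rfl trivial
theorem g4272 : Good XX 15 p4272 := rs15 c4272 rfl ⟨g4270, ⟨g4271, trivial⟩⟩
theorem g4273 : Good XX 15 p4273 := rs15 c4273 rfl trivial
theorem g4274 : Good XX 15 p4274 := rs15 c4274 rfl trivial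
theorem g4275 : Good XX 15 p4275 := rs15 c4275 rfl ⟨g4274, trivial⟩
theorem g4276 : Good XX 15 p4276 := rs15 c4276 rfl trivial
theorem g4277 : Good XX 15 p4277 := rs15 c4277 rfl trivial
theorem g4278 : Good XX 15 p4278 := rs15 c4278 rfl trivial
theorem g4279 : Good XX 15 p4279 := rs15 c4279 rfl ⟨g4278, trivial⟩
theorem g4280 : Good XX 15 p4280 := rs15 c4280 rfl trivial
theorem g4281 : Good XX 15 p4281 := rs15 c4281 rfl trivial
theorem g4282 : Good XX 15 p4282 := rs15 c4282 rfl ⟨g4281, trivial⟩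
theorem g4283 : Good XX 15 p4283 := rs15 c4283 rfl trivial
theorem g4284 : Good XX 15 p4284 := rs15 c4284 rfl trivial
theorem g4285 : Good XX 15 p4285 := rs15 c4285 rfl ⟨g4283, ⟨g4284, trivial⟩⟩
theorem g4286 : Good XX 15 p4286 := rs15 c4286 rfl trivial
theorem g4287 : Good XX 15 p4287 := rs15 c4287 rfl trivial
theorem g4288 : Good XX 15 p4288 := rs15 c4288 rfl trivial
theorem g4289 : Good XX 15 p4289 := rs15 c4289 rfl ⟨g4287, ⟨g4288, trivial⟩⟩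
theorem g4290 : Good XX 15 p4290 := rs15 c4290 rfl trivial
theorem g4291 : Good XX 15 p4291 := rs15 c4291 rfl trivial
theorem g4292 : Good XX 15 p4292 := rs15 c4292 rfl ⟨g4290, ⟨g4291, trivial⟩⟩
theorem g4293 : Good XX 15 p4293 := rs15 c4293 rfl trivial
theorem g4294 : Good XX 15 p4294 := rs15 c4294 rfl trivial
theorem g4295 : Good XX 15 p4295 := rs15 c4295 rfl trivial
theorem g4296 : Good XX 15 p4296 := rs15 c4296 rfl trivial
theorem g4297 : Good XX 15 p4297 := rs15 c4297 rfl trivial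
theorem g4298 : Good XX 15 p4298 := rs15 c4298 rfl ⟨g4293, ⟨g4294, ⟨g4295, ⟨g4296, ⟨g4297, trivial⟩⟩⟩⟩⟩
theorem g4299 : Good XX 15 p4299 := rs15 c4299 rfl trivial
theorem g4300 : Good XX 15 p4300 := rs15 c4300 rfl ⟨g4299, trivial⟩
theorem g4301 : Good XX 15 p4301 := rs15 c4301 rfl trivial
theorem g4302 : Good XX 15 p4302 := rs15 c4302 rfl trivial
theorem g4303 : Good XX 15 p4303 := rs15 c4303 rfl ⟨g4302, trivial⟩
theorem g4304 : Good XX 15 p4304 := rs15 c4304 rfl trivial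
theorem g4305 : Good XX 15 p4305 := rs15 c4305 rfl trivial
theorem g4306 : Good XX 15 p4306 := rs15 c4306 rfl trivial
theorem g4307 : Good XX 15 p4307 := rs15 c4307 rfl ⟨g4306, trivial⟩
theorem g4308 : Good XX 15 p4308 := rs15 c4308 rfl trivial
theorem g4309 : Good XX 15 p4309 := rs15 c4309 rfl trivial
theorem g4310 : Good XX 15 p4310 := rs15 c4310 rfl trivial
theorem g4311 : Good XX 15 p4311 := rs15 c4311 rfl trivial
theorem g4312 : Good XX 15 p4312 := rs15 c4312 rfl ⟨g4311, trivial⟩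
theorem g4313 : Good XX 15 p4313 := rs15 c4313 rfl trivial
theorem g4314 : Good XX 15 p4314 := rs15 c4314 rfl trivial
theorem g4315 : Good XX 15 p4315 := rs15 c4315 rfl trivial
theorem g4316 : Good XX 15 p4316 := rs15 c4316 rfl trivial
theorem g4317 : Good XX 15 p4317 := rs15 c4317 rfl trivial
theorem g4318 : Good XX 15 p4318 := rs15 c4318 rfl ⟨g4315, ⟨g4316, ⟨g4317, trivial⟩⟩⟩
theorem g4319 : Good XX 15 p4319 := rs15 c4319 rfl trivial
theorem g4320 : Good XX 15 p4320 := rs15 c4320 rfl trivial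
theorem g4321 : Good XX 15 p4321 := rs15 c4321 rfl trivial
theorem g4322 : Good XX 15 p4322 := rs15 c4322 rfl ⟨g4319, ⟨g4320, ⟨g4321, trivial⟩⟩⟩
theorem g4323 : Good XX 15 p4323 := rs15 c4323 rfl trivial
theorem g4324 : Good XX 15 p4324 := rs15 c4324 rfl ⟨g4323, trivial⟩
theorem g4325 : Good XX 15 p4325 := rs15 c4325 rfl trivial
theorem g4326 : Good XX 15 p4326 := rs15 c4326 rfl trivial
theorem g4327 : Good XX 15 p4327 := rs15 c4327 rfl trivial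
theorem g4328 : Good XX 15 p4328 := rs15 c4328 rfl trivial
theorem g4329 : Good XX 15 p4329 := rs15 c4329 rfl trivial
theorem g4330 : Good XX 15 p4330 := rs15 c4330 rfl ⟨g4327, ⟨g4328, ⟨g4329, trivial⟩⟩⟩
theorem g4331 : Good XX 15 p4331 := rs15 c4331 rfl trivial
theorem g4332 : Good XX 15 p4332 := rs15 c4332 rfl trivial
theorem g4333 : Good XX 15 p4333 := rs15 c4333 rfl ⟨g4331, ⟨g4332, trivial⟩⟩
theorem g4334 : Good XX 15 p4334 := rs15 c4334 rfl trivial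
theorem g4335 : Good XX 15 p4335 := rs15 c4335 rfl trivial
theorem g4336 : Good XX 15 p4336 := rs15 c4336 rfl trivial
theorem g4337 : Good XX 15 p4337 := rs15 c4337 rfl trivial
theorem g4338 : Good XX 15 p4338 := rs15 c4338 rfl ⟨g4334, ⟨g4335, ⟨g4336, ⟨g4337, trivial⟩⟩⟩⟩
theorem g4339 : Good XX 15 p4339 := rs15 c4339 rfl trivial
theorem g4340 : Good XX 15 p4340 := rs15 c4340 rfl trivial
theorem g4341 : Good XX 15 p4341 := rs15 c4341 rfl trivial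
theorem g4342 : Good XX 15 p4342 := rs15 c4342 rfl trivial
theorem g4343 : Good XX 15 p4343 := rs15 c4343 rfl trivial
theorem g4344 : Good XX 15 p4344 := rs15 c4344 rfl trivial
theorem g4345 : Good XX 15 p4345 := rs15 c4345 rfl trivial
theorem g4346 : Good XX 15 p4346 := rs15 c4346 rfl trivial
theorem g4347 : Good XX 15 p4347 := rs15 c4347 rfl ⟨g4343, ⟨g4344, ⟨g4345, ⟨g4346, trivial⟩⟩⟩⟩
theorem g4348 : Good XX 15 p4348 := rs15 c4348 rfl trivial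
theorem g4349 : Good XX 15 p4349 := rs15 c4349 rfl ⟨g4348, trivial⟩
theorem g4350 : Good XX 15 p4350 := rs15 c4350 rfl trivial
theorem g4351 : Good XX 15 p4351 := rs15 c4351 rfl trivial
theorem g4352 : Good XX 15 p4352 := rs15 c4352 rfl ⟨g4351, trivial⟩
theorem g4353 : Good XX 15 p4353 := rs15 c4353 rfl trivial
theorem g4354 : Good XX 15 p4354 := rs15 c4354 rfl trivial
theorem g4355 : Good XX 15 p4355 := rs15 c4355 rfl trivial
theorem g4356 : Good XX 15 p4356 := rs15 c4356 rfl trivial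
theorem g4357 : Good XX 15 p4357 := rs15 c4357 rfl trivial
theorem g4358 : Good XX 15 p4358 := rs15 c4358 rfl trivial
theorem g4359 : Good XX 15 p4359 := rs15 c4359 rfl ⟨g4184, ⟨g4185, ⟨g4186, ⟨g4187, ⟨g4188, ⟨g4189, ⟨g4190, ⟨g4191, ⟨g4192, ⟨g4196, ⟨g4197, ⟨g4215, ⟨g4216, ⟨g4221, ⟨g4222, ⟨g4226, ⟨g4232, ⟨g4234, ⟨g4237, ⟨g4242, ⟨g4251, ⟨g4253, ⟨g4259, ⟨g4264, ⟨g4265, ⟨g4266, ⟨g4268, ⟨g4269, ⟨g4272, ⟨g4273, ⟨g4275, ⟨g4276, ⟨g4277, ⟨g4279, ⟨g4280, ⟨g4282, ⟨g4285, ⟨g4286, ⟨g4289, ⟨g4292, ⟨g4298, ⟨g4300, ⟨g4301, ⟨g4303, ⟨g4304, ⟨g4305, ⟨g4307, ⟨g4308, ⟨g4309, ⟨g4310, ⟨g4312, ⟨g4313, ⟨g4314, ⟨g4318, ⟨g4322, ⟨g4324, ⟨g4325, ⟨g4326, ⟨g4330, ⟨g4333, ⟨g4338, ⟨g4339, ⟨g4340, ⟨g4341, ⟨g4342, ⟨g4347, ⟨g4349, ⟨g4350, ⟨g4352, ⟨g4353, ⟨g4354, ⟨g4355, ⟨g4356, ⟨g4357, ⟨g4358, trivial⟩⟩⟩⟩⟩⟩⟩⟩⟩⟩⟩⟩⟩⟩⟩⟩⟩⟩⟩⟩⟩⟩⟩⟩⟩⟩⟩⟩⟩⟩⟩⟩⟩⟩⟩⟩⟩⟩⟩⟩⟩⟩⟩⟩⟩⟩⟩⟩⟩⟩⟩⟩⟩⟩⟩⟩⟩⟩⟩⟩⟩⟩⟩⟩⟩⟩⟩⟩⟩⟩⟩⟩⟩⟩⟩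
theorem g4360 : Good XX 15 p4360 := rs15 c4360 rfl ⟨g4031, ⟨g4032, ⟨g4033, ⟨g4034, ⟨g4037, ⟨g4051, ⟨g4119, ⟨g4120, ⟨g4122, ⟨g4124, ⟨g4183, ⟨g4359, trivial⟩⟩⟩⟩⟩⟩⟩⟩⟩⟩⟩⟩
theorem g4361 : Good XX 15 p4361 := rs15 c4361 rfl trivial
theorem g4362 : Good XX 15 p4362 := rs15 c4362 rfl trivial
theorem g4363 : Good XX 15 p4363 := rs15 c4363 rfl trivial
theorem g4364 : Good XX 15 p4364 := rs15 c4364 rfl ⟨g4362, ⟨g4363, trivial⟩⟩
theorem g4365 : Good XX 15 p4365 := rs15 c4365 rfl trivial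
theorem g4366 : Good XX 15 p4366 := rs15 c4366 rfl trivial
theorem g4367 : Good XX 15 p4367 := rs15 c4367 rfl trivial
theorem g4368 : Good XX 15 p4368 := rs15 c4368 rfl trivial
theorem g4369 : Good XX 15 p4369 := rs15 c4369 rfl trivial
theorem g4370 : Good XX 15 p4370 := rs15 c4370 rfl trivial
theorem g4371 : Good XX 15 p4371 := rs15 c4371 rfl trivial
theorem g4372 : Good XX 15 p4372 := rs15 c4372 rfl trivial
theorem g4373 : Good XX 15 p4373 := rs15 c4373 rfl trivial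
theorem g4374 : Good XX 15 p4374 := rs15 c4374 rfl trivial
theorem g4375 : Good XX 15 p4375 := rs15 c4375 rfl trivial
theorem g4376 : Good XX 15 p4376 := rs15 c4376 rfl ⟨g4374, ⟨g4375, trivial⟩⟩
theorem g4377 : Good XX 15 p4377 := rs15 c4377 rfl trivial
theorem g4378 : Good XX 15 p4378 := rs15 c4378 rfl trivial
theorem g4379 : Good XX 15 p4379 := rs15 c4379 rfl trivial
theorem g4380 : Good XX 15 p4380 := rs15 c4380 rfl ⟨g4379, trivial⟩
theorem g4381 : Good XX 15 p4381 := rs15 c4381 rfl trivial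
theorem g4382 : Good XX 15 p4382 := rs15 c4382 rfl trivial
theorem g4383 : Good XX 15 p4383 := rs15 c4383 rfl ⟨g4382, trivial⟩
theorem g4384 : Good XX 15 p4384 := rs15 c4384 rfl trivial
theorem g4385 : Good XX 15 p4385 := rs15 c4385 rfl trivial
theorem g4386 : Good XX 15 p4386 := rs15 c4386 rfl trivial
theorem g4387 : Good XX 15 p4387 := rs15 c4387 rfl trivial
theorem g4388 : Good XX 15 p4388 := rs15 c4388 rfl ⟨g4385, ⟨g4386, ⟨g4387, trivial⟩⟩⟩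
theorem g4389 : Good XX 15 p4389 := rs15 c4389 rfl trivial
theorem g4390 : Good XX 15 p4390 := rs15 c4390 rfl trivial
theorem g4391 : Good XX 15 p4391 := rs15 c4391 rfl ⟨g4389, ⟨g4390, trivial⟩⟩
theorem g4392 : Good XX 15 p4392 := rs15 c4392 rfl trivial
theorem g4393 : Good XX 15 p4393 := rs15 c4393 rfl trivial
theorem g4394 : Good XX 15 p4394 := rs15 c4394 rfl trivial
theorem g4395 : Good XX 15 p4395 := rs15 c4395 rfl trivial
theorem g4396 : Good XX 15 p4396 := rs15 c4396 rfl trivial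
theorem g4397 : Good XX 15 p4397 := rs15 c4397 rfl ⟨g4392, ⟨g4393, ⟨g4394, ⟨g4395, ⟨g4396, trivial⟩⟩⟩⟩⟩
theorem g4398 : Good XX 15 p4398 := rs15 c4398 rfl ⟨g4365, ⟨g4366, ⟨g4367, ⟨g4368, ⟨g4369, ⟨g4370, ⟨g4371, ⟨g4372, ⟨g4373, ⟨g4376, ⟨g4377, ⟨g4378, ⟨g4380, ⟨g4381, ⟨g4383, ⟨g4384, ⟨g4388, ⟨g4391, ⟨g4397, trivial⟩⟩⟩⟩⟩⟩⟩⟩⟩⟩⟩⟩⟩⟩⟩⟩⟩⟩⟩
theorem g4399 : Good XX 15 p4399 := rs15 c4399 rfl trivial
theorem g4400 : Good XX 15 p4400 := rs15 c4400 rfl trivial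
theorem g4401 : Good XX 15 p4401 := rs15 c4401 rfl ⟨g4400, trivial⟩
theorem g4402 : Good XX 15 p4402 := rs15 c4402 rfl trivial
theorem g4403 : Good XX 15 p4403 := rs15 c4403 rfl trivial
theorem g4404 : Good XX 15 p4404 := rs15 c4404 rfl ⟨g4403, trivial⟩
theorem g4405 : Good XX 15 p4405 := rs15 c4405 rfl trivial
theorem g4406 : Good XX 15 p4406 := rs15 c4406 rfl trivial
theorem g4407 : Good XX 15 p4407 := rs15 c4407 rfl trivial
theorem g4408 : Good XX 15 p4408 := rs15 c4408 rfl trivial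
theorem g4409 : Good XX 15 p4409 := rs15 c4409 rfl ⟨g4406, ⟨g4407, ⟨g4408, trivial⟩⟩⟩
theorem g4410 : Good XX 15 p4410 := rs15 c4410 rfl trivial
theorem g4411 : Good XX 15 p4411 := rs15 c4411 rfl ⟨g4410, trivial⟩
theorem g4412 : Good XX 15 p4412 := rs15 c4412 rfl trivial
theorem g4413 : Good XX 15 p4413 := rs15 c4413 rfl ⟨g4412, trivial⟩
theorem g4414 : Good XX 15 p4414 := rs15 c4414 rfl ⟨g4402, ⟨g4404, ⟨g4405, ⟨g4409, ⟨g4411, ⟨g4413, trivial⟩⟩⟩⟩⟩⟩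
theorem g4415 : Good XX 15 p4415 := rs15 c4415 rfl trivial
theorem g4416 : Good XX 15 p4416 := rs15 c4416 rfl trivial
theorem g4417 : Good XX 15 p4417 := rs15 c4417 rfl trivial
theorem g4418 : Good XX 15 p4418 := rs15 c4418 rfl trivial
theorem g4419 : Good XX 15 p4419 := rs15 c4419 rfl trivial
theorem g4420 : Good XX 15 p4420 := rs15 c4420 rfl ⟨g4419, trivial⟩
theorem g4421 : Good XX 15 p4421 := rs15 c4421 rfl trivial
theorem g4422 : Good XX 15 p4422 := rs15 c4422 rfl trivial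
theorem g4423 : Good XX 15 p4423 := rs15 c4423 rfl trivial
theorem g4424 : Good XX 15 p4424 := rs15 c4424 rfl trivial
theorem g4425 : Good XX 15 p4425 := rs15 c4425 rfl trivial
theorem g4426 : Good XX 15 p4426 := rs15 c4426 rfl trivial
theorem g4427 : Good XX 15 p4427 := rs15 c4427 rfl trivial
theorem g4428 : Good XX 15 p4428 := rs15 c4428 rfl trivial
theorem g4429 : Good XX 15 p4429 := rs15 c4429 rfl trivial
theorem g4430 : Good XX 15 p4430 := rs15 c4430 rfl trivial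
theorem g4431 : Good XX 15 p4431 := rs15 c4431 rfl trivial
theorem g4432 : Good XX 15 p4432 := rs15 c4432 rfl ⟨g4428, ⟨g4429, ⟨g4430, ⟨g4431, trivial⟩⟩⟩⟩
theorem g4433 : Good XX 15 p4433 := rs15 c4433 rfl trivial
theorem g4434 : Good XX 15 p4434 := rs15 c4434 rfl trivial
theorem g4435 : Good XX 15 p4435 := rs15 c4435 rfl ⟨g4434, trivial⟩
theorem g4436 : Good XX 15 p4436 := rs15 c4436 rfl trivial
theorem g4437 : Good XX 15 p4437 := rs15 c4437 rfl trivial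
theorem g4438 : Good XX 15 p4438 := rs15 c4438 rfl trivial
theorem g4439 : Good XX 15 p4439 := rs15 c4439 rfl trivial
theorem g4440 : Good XX 15 p4440 := rs15 c4440 rfl ⟨g4437, ⟨g4438, ⟨g4439, trivial⟩⟩⟩
theorem g4441 : Good XX 15 p4441 := rs15 c4441 rfl trivial
theorem g4442 : Good XX 15 p4442 := rs15 c4442 rfl trivial
theorem g4443 : Good XX 15 p4443 := rs15 c4443 rfl trivial
theorem g4444 : Good XX 15 p4444 := rs15 c4444 rfl ⟨g4443, trivial⟩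
theorem g4445 : Good XX 15 p4445 := rs15 c4445 rfl trivial
theorem g4446 : Good XX 15 p4446 := rs15 c4446 rfl trivial
theorem g4447 : Good XX 15 p4447 := rs15 c4447 rfl trivial
theorem g4448 : Good XX 15 p4448 := rs15 c4448 rfl trivial
theorem g4449 : Good XX 15 p4449 := rs15 c4449 rfl ⟨g4446, ⟨g4447, ⟨g4448, trivial⟩⟩⟩
theorem g4450 : Good XX 15 p4450 := rs15 c4450 rfl trivial
theorem g4451 : Good XX 15 p4451 := rs15 c4451 rfl trivial
theorem g4452 : Good XX 15 p4452 := rs15 c4452 rfl trivial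
theorem g4453 : Good XX 15 p4453 := rs15 c4453 rfl ⟨g4450, ⟨g4451, ⟨g4452, trivial⟩⟩⟩
theorem g4454 : Good XX 15 p4454 := rs15 c4454 rfl trivial
theorem g4455 : Good XX 15 p4455 := rs15 c4455 rfl trivial
theorem g4456 : Good XX 15 p4456 := rs15 c4456 rfl trivial
theorem g4457 : Good XX 15 p4457 := rs15 c4457 rfl trivial
theorem g4458 : Good XX 15 p4458 := rs15 c4458 rfl trivial
theorem g4459 : Good XX 15 p4459 := rs15 c4459 rfl ⟨g4454, ⟨g4455, ⟨g4456, ⟨g4457, ⟨g4458, trivial⟩⟩⟩⟩⟩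
theorem g4460 : Good XX 15 p4460 := rs15 c4460 rfl ⟨g4399, ⟨g4401, ⟨g4414, ⟨g4415, ⟨g4416, ⟨g4417, ⟨g4418, ⟨g4420, ⟨g4421, ⟨g4422, ⟨g4423, ⟨g4424, ⟨g4425, ⟨g4426, ⟨g4427, ⟨g4432, ⟨g4433, ⟨g4435, ⟨g4436, ⟨g4440, ⟨g4441, ⟨g4442, ⟨g4444, ⟨g4445, ⟨g4449, ⟨g4453, ⟨g4459, trivial⟩⟩⟩⟩⟩⟩⟩⟩⟩⟩⟩⟩⟩⟩⟩⟩⟩⟩⟩⟩⟩⟩⟩⟩⟩⟩⟩
theorem g4461 : Good XX 15 p4461 := rs15 c4461 rfl trivial
theorem g4462 : Good XX 15 p4462 := rs15 c4462 rfl trivial
theorem g4463 : Good XX 15 p4463 := rs15 c4463 rfl ⟨g4462, trivial⟩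
theorem g4464 : Good XX 15 p4464 := rs15 c4464 rfl trivial
theorem g4465 : Good XX 15 p4465 := rs15 c4465 rfl trivial
theorem g4466 : Good XX 15 p4466 := rs15 c4466 rfl trivial
theorem g4467 : Good XX 15 p4467 := rs15 c4467 rfl ⟨g4466, trivial⟩
theorem g4468 : Good XX 15 p4468 := rs15 c4468 rfl trivial
theorem g4469 : Good XX 15 p4469 := rs15 c4469 rfl trivial
theorem g4470 : Good XX 15 p4470 := rs15 c4470 rfl trivial
theorem g4471 : Good XX 15 p4471 := rs15 c4471 rfl trivial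
theorem g4472 : Good XX 15 p4472 := rs15 c4472 rfl ⟨g4470, ⟨g4471, trivial⟩⟩
theorem g4473 : Good XX 15 p4473 := rs15 c4473 rfl trivial
theorem g4474 : Good XX 15 p4474 := rs15 c4474 rfl trivial
theorem g4475 : Good XX 15 p4475 := rs15 c4475 rfl trivial
theorem g4476 : Good XX 15 p4476 := rs15 c4476 rfl trivial
theorem g4477 : Good XX 15 p4477 := rs15 c4477 rfl trivial
theorem g4478 : Good XX 15 p4478 := rs15 c4478 rfl trivial
theorem g4479 : Good XX 15 p4479 := rs15 c4479 rfl ⟨g4473, ⟨g4474, ⟨g4475, ⟨g4476, ⟨g4477, ⟨g4478, trivial⟩⟩⟩⟩⟩⟩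
theorem g4480 : Good XX 15 p4480 := rs15 c4480 rfl trivial
theorem g4481 : Good XX 15 p4481 := rs15 c4481 rfl trivial
theorem g4482 : Good XX 15 p4482 := rs15 c4482 rfl ⟨g4480, ⟨g4481, trivial⟩⟩
theorem g4483 : Good XX 15 p4483 := rs15 c4483 rfl trivial
theorem g4484 : Good XX 15 p4484 := rs15 c4484 rfl trivial
theorem g4485 : Good XX 15 p4485 := rs15 c4485 rfl trivial
theorem g4486 : Good XX 15 p4486 := rs15 c4486 rfl ⟨g4485, trivial⟩
theorem g4487 : Good XX 15 p4487 := rs15 c4487 rfl trivial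
theorem g4488 : Good XX 15 p4488 := rs15 c4488 rfl trivial
theorem g4489 : Good XX 15 p4489 := rs15 c4489 rfl ⟨g4488, trivial⟩
theorem g4490 : Good XX 15 p4490 := rs15 c4490 rfl trivial
theorem g4491 : Good XX 15 p4491 := rs15 c4491 rfl trivial
theorem g4492 : Good XX 15 p4492 := rs15 c4492 rfl trivial
theorem g4493 : Good XX 15 p4493 := rs15 c4493 rfl trivial
theorem g4494 : Good XX 15 p4494 := rs15 c4494 rfl ⟨g4491, ⟨g4492, ⟨g4493, trivial⟩⟩⟩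
theorem g4495 : Good XX 15 p4495 := rs15 c4495 rfl trivial
theorem g4496 : Good XX 15 p4496 := rs15 c4496 rfl trivial
theorem g4497 : Good XX 15 p4497 := rs15 c4497 rfl trivial
theorem g4498 : Good XX 15 p4498 := rs15 c4498 rfl ⟨g4495, ⟨g4496, ⟨g4497, trivial⟩⟩⟩
theorem g4499 : Good XX 15 p4499 := rs15 c4499 rfl trivial
theorem g4500 : Good XX 15 p4500 := rs15 c4500 rfl trivial
theorem g4501 : Good XX 15 p4501 := rs15 c4501 rfl trivial
theorem g4502 : Good XX 15 p4502 := rs15 c4502 rfl trivial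
theorem g4503 : Good XX 15 p4503 := rs15 c4503 rfl trivial
theorem g4504 : Good XX 15 p4504 := rs15 c4504 rfl trivial
theorem g4505 : Good XX 15 p4505 := rs15 c4505 rfl ⟨g4500, ⟨g4501, ⟨g4502, ⟨g4503, ⟨g4504, trivial⟩⟩⟩⟩⟩
theorem g4506 : Good XX 15 p4506 := rs15 c4506 rfl trivial
theorem g4507 : Good XX 15 p4507 := rs15 c4507 rfl trivial
theorem g4508 : Good XX 15 p4508 := rs15 c4508 rfl trivial
theorem g4509 : Good XX 15 p4509 := rs15 c4509 rfl ⟨g4506, ⟨g4507, ⟨g4508, trivial⟩⟩⟩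
theorem g4510 : Good XX 15 p4510 := rs15 c4510 rfl trivial
theorem g4511 : Good XX 15 p4511 := rs15 c4511 rfl trivial
theorem g4512 : Good XX 15 p4512 := rs15 c4512 rfl ⟨g4510, ⟨g4511, trivial⟩⟩
theorem g4513 : Good XX 15 p4513 := rs15 c4513 rfl trivial
theorem g4514 : Good XX 15 p4514 := rs15 c4514 rfl trivial
theorem g4515 : Good XX 15 p4515 := rs15 c4515 rfl trivial
theorem g4516 : Good XX 15 p4516 := rs15 c4516 rfl ⟨g4513, ⟨g4514, ⟨g4515, trivial⟩⟩⟩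
theorem g4517 : Good XX 15 p4517 := rs15 c4517 rfl trivial
theorem g4518 : Good XX 15 p4518 := rs15 c4518 rfl trivial
theorem g4519 : Good XX 15 p4519 := rs15 c4519 rfl trivial
theorem g4520 : Good XX 15 p4520 := rs15 c4520 rfl trivial
theorem g4521 : Good XX 15 p4521 := rs15 c4521 rfl ⟨g4517, ⟨g4518, ⟨g4519, ⟨g4520, trivial⟩⟩⟩⟩
theorem g4522 : Good XX 15 p4522 := rs15 c4522 rfl ⟨g4461, ⟨g4463, ⟨g4464, ⟨g4465, ⟨g4467, ⟨g4468, ⟨g4469, ⟨g4472, ⟨g4479, ⟨g4482, ⟨g4483, ⟨g4484, ⟨g4486, ⟨g4487, ⟨g4489, ⟨g4490, ⟨g4494, ⟨g4498, ⟨g4499, ⟨g4505, ⟨g4509, ⟨g4512, ⟨g4516, ⟨g4521, trivial⟩⟩⟩⟩⟩⟩⟩⟩⟩⟩⟩⟩⟩⟩⟩⟩⟩⟩⟩⟩⟩⟩⟩⟩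
theorem g4523 : Good XX 15 p4523 := rs15 c4523 rfl ⟨g4361, ⟨g4364, ⟨g4398, ⟨g4460, ⟨g4522, trivial⟩⟩⟩⟩⟩
theorem g4524 : Good XX 15 p4524 := rs15 c4524 rfl trivial
theorem g4525 : Good XX 15 p4525 := rs15 c4525 rfl trivial
theorem g4526 : Good XX 15 p4526 := rs15 c4526 rfl trivial
theorem g4527 : Good XX 15 p4527 := rs15 c4527 rfl trivial
theorem g4528 : Good XX 15 p4528 := rs15 c4528 rfl trivial
theorem g4529 : Good XX 15 p4529 := rs15 c4529 rfl trivial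
theorem g4530 : Good XX 15 p4530 := rs15 c4530 rfl trivial
theorem g4531 : Good XX 15 p4531 := rs15 c4531 rfl ⟨g4524, ⟨g4525, ⟨g4526, ⟨g4527, ⟨g4528, ⟨g4529, ⟨g4530, trivial⟩⟩⟩⟩⟩⟩⟩
theorem g4532 : Good XX 15 p4532 := rs15 c4532 rfl trivial
theorem g4533 : Good XX 15 p4533 := rs15 c4533 rfl trivial
theorem g4534 : Good XX 15 p4534 := rs15 c4534 rfl trivial
theorem g4535 : Good XX 15 p4535 := rs15 c4535 rfl trivial
theorem g4536 : Good XX 15 p4536 := rs15 c4536 rfl trivial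
theorem g4537 : Good XX 15 p4537 := rs15 c4537 rfl trivial
theorem g4538 : Good XX 15 p4538 := rs15 c4538 rfl ⟨g4536, ⟨g4537, trivial⟩⟩
theorem g4539 : Good XX 15 p4539 := rs15 c4539 rfl trivial
theorem g4540 : Good XX 15 p4540 := rs15 c4540 rfl trivial
theorem g4541 : Good XX 15 p4541 := rs15 c4541 rfl ⟨g4532, ⟨g4533, ⟨g4534, ⟨g4535, ⟨g4538, ⟨g4539, ⟨g4540, trivial⟩⟩⟩⟩⟩⟩⟩
theorem g4542 : Good XX 15 p4542 := rs15 c4542 rfl trivial
theorem g4543 : Good XX 15 p4543 := rs15 c4543 rfl trivial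
theorem g4544 : Good XX 15 p4544 := rs15 c4544 rfl trivial
theorem g4545 : Good XX 15 p4545 := rs15 c4545 rfl trivial
theorem g4546 : Good XX 15 p4546 := rs15 c4546 rfl trivial
theorem g4547 : Good XX 15 p4547 := rs15 c4547 rfl trivial
theorem g4548 : Good XX 15 p4548 := rs15 c4548 rfl trivial
theorem g4549 : Good XX 15 p4549 := rs15 c4549 rfl trivial
theorem g4550 : Good XX 15 p4550 := rs15 c4550 rfl trivial
theorem g4551 : Good XX 15 p4551 := rs15 c4551 rfl trivial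
theorem g4552 : Good XX 15 p4552 := rs15 c4552 rfl trivial
theorem g4553 : Good XX 15 p4553 := rs15 c4553 rfl trivial
theorem g4554 : Good XX 15 p4554 := rs15 c4554 rfl trivial
theorem g4555 : Good XX 15 p4555 := rs15 c4555 rfl trivial
theorem g4556 : Good XX 15 p4556 := rs15 c4556 rfl trivial
theorem g4557 : Good XX 15 p4557 := rs15 c4557 rfl trivial
theorem g4558 : Good XX 15 p4558 := rs15 c4558 rfl trivial
theorem g4559 : Good XX 15 p4559 := rs15 c4559 rfl ⟨g4553, ⟨g4554, ⟨g4555, ⟨g4556, ⟨g4557, ⟨g4558, trivial⟩⟩⟩⟩⟩⟩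
theorem g4560 : Good XX 15 p4560 := rs15 c4560 rfl trivial
theorem g4561 : Good XX 15 p4561 := rs15 c4561 rfl trivial
theorem g4562 : Good XX 15 p4562 := rs15 c4562 rfl trivial
theorem g4563 : Good XX 15 p4563 := rs15 c4563 rfl trivial
theorem g4564 : Good XX 15 p4564 := rs15 c4564 rfl trivial
theorem g4565 : Good XX 15 p4565 := rs15 c4565 rfl ⟨g4560, ⟨g4561, ⟨g4562, ⟨g4563, ⟨g4564, trivial⟩⟩⟩⟩⟩
theorem g4566 : Good XX 15 p4566 := rs15 c4566 rfl trivial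
theorem g4567 : Good XX 15 p4567 := rs15 c4567 rfl trivial
theorem g4568 : Good XX 15 p4568 := rs15 c4568 rfl trivial
theorem g4569 : Good XX 15 p4569 := rs15 c4569 rfl ⟨g4568, trivial⟩
theorem g4570 : Good XX 15 p4570 := rs15 c4570 rfl trivial
theorem g4571 : Good XX 15 p4571 := rs15 c4571 rfl trivial
theorem g4572 : Good XX 15 p4572 := rs15 c4572 rfl trivial
theorem g4573 : Good XX 15 p4573 := rs15 c4573 rfl trivial
theorem g4574 : Good XX 15 p4574 := rs15 c4574 rfl ⟨g4572, ⟨g4573, trivial⟩⟩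
theorem g4575 : Good XX 15 p4575 := rs15 c4575 rfl trivial
theorem g4576 : Good XX 15 p4576 := rs15 c4576 rfl ⟨g4566, ⟨g4567, ⟨g4569, ⟨g4570, ⟨g4571, ⟨g4574, ⟨g4575, trivial⟩⟩⟩⟩⟩⟩⟩
theorem g4577 : Good XX 15 p4577 := rs15 c4577 rfl trivial
theorem g4578 : Good XX 15 p4578 := rs15 c4578 rfl trivial
theorem g4579 : Good XX 15 p4579 := rs15 c4579 rfl trivial
theorem g4580 : Good XX 15 p4580 := rs15 c4580 rfl trivial
theorem g4581 : Good XX 15 p4581 := rs15 c4581 rfl trivial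
theorem g4582 : Good XX 15 p4582 := rs15 c4582 rfl ⟨g4581, trivial⟩
theorem g4583 : Good XX 15 p4583 := rs15 c4583 rfl trivial
theorem g4584 : Good XX 15 p4584 := rs15 c4584 rfl ⟨g4583, trivial⟩
theorem g4585 : Good XX 15 p4585 := rs15 c4585 rfl trivial
theorem g4586 : Good XX 15 p4586 := rs15 c4586 rfl ⟨g4585, trivial⟩
theorem g4587 : Good XX 15 p4587 := rs15 c4587 rfl trivial
theorem g4588 : Good XX 15 p4588 := rs15 c4588 rfl trivial
theorem g4589 : Good XX 15 p4589 := rs15 c4589 rfl trivial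
theorem g4590 : Good XX 15 p4590 := rs15 c4590 rfl trivial
theorem g4591 : Good XX 15 p4591 := rs15 c4591 rfl trivial
theorem g4592 : Good XX 15 p4592 := rs15 c4592 rfl ⟨g4589, ⟨g4590, ⟨g4591, trivial⟩⟩⟩
theorem g4593 : Good XX 15 p4593 := rs15 c4593 rfl trivial
theorem g4594 : Good XX 15 p4594 := rs15 c4594 rfl ⟨g4593, trivial⟩
theorem g4595 : Good XX 15 p4595 := rs15 c4595 rfl trivial
theorem g4596 : Good XX 15 p4596 := rs15 c4596 rfl trivial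
theorem g4597 : Good XX 15 p4597 := rs15 c4597 rfl trivial
theorem g4598 : Good XX 15 p4598 := rs15 c4598 rfl trivial
theorem g4599 : Good XX 15 p4599 := rs15 c4599 rfl trivial
theorem g4600 : Good XX 15 p4600 := rs15 c4600 rfl ⟨g4595, ⟨g4596, ⟨g4597, ⟨g4598, ⟨g4599, trivial⟩⟩⟩⟩⟩
theorem g4601 : Good XX 15 p4601 := rs15 c4601 rfl ⟨g4542, ⟨g4543, ⟨g4544, ⟨g4545, ⟨g4546, ⟨g4547, ⟨g4548, ⟨g4549, ⟨g4550, ⟨g4551, ⟨g4552, ⟨g4559, ⟨g4565, ⟨g4576, ⟨g4577, ⟨g4578, ⟨g4579, ⟨g4580, ⟨g4582, ⟨g4584, ⟨g4586, ⟨g4587, ⟨g4588, ⟨g4592, ⟨g4594, ⟨g4600, trivial⟩⟩⟩⟩⟩⟩⟩⟩⟩⟩⟩⟩⟩⟩⟩⟩⟩⟩⟩⟩⟩⟩⟩⟩⟩⟩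
theorem g4602 : Good XX 15 p4602 := rs15 c4602 rfl trivial
theorem g4603 : Good XX 15 p4603 := rs15 c4603 rfl trivial
theorem g4604 : Good XX 15 p4604 := rs15 c4604 rfl trivial
theorem g4605 : Good XX 15 p4605 := rs15 c4605 rfl trivial
theorem g4606 : Good XX 15 p4606 := rs15 c4606 rfl trivial
theorem g4607 : Good XX 15 p4607 := rs15 c4607 rfl ⟨g4602, ⟨g4603, ⟨g4604, ⟨g4605, ⟨g4606, trivial⟩⟩⟩⟩⟩
theorem g4608 : Good XX 15 p4608 := rs15 c4608 rfl trivial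
theorem g4609 : Good XX 15 p4609 := rs15 c4609 rfl trivial
theorem g4610 : Good XX 15 p4610 := rs15 c4610 rfl trivial
theorem g4611 : Good XX 15 p4611 := rs15 c4611 rfl trivial
theorem g4612 : Good XX 15 p4612 := rs15 c4612 rfl trivial
theorem g4613 : Good XX 15 p4613 := rs15 c4613 rfl trivial
theorem g4614 : Good XX 15 p4614 := rs15 c4614 rfl trivial
theorem g4615 : Good XX 15 p4615 := rs15 c4615 rfl trivial
theorem g4616 : Good XX 15 p4616 := rs15 c4616 rfl ⟨g4608, ⟨g4609, ⟨g4610, ⟨g4611, ⟨g4612, ⟨g4613, ⟨g4614, ⟨g4615, trivial⟩⟩⟩⟩⟩⟩⟩⟩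
theorem g4617 : Good XX 15 p4617 := rs15 c4617 rfl trivial
theorem g4618 : Good XX 15 p4618 := rs15 c4618 rfl trivial
theorem g4619 : Good XX 15 p4619 := rs15 c4619 rfl trivial
theorem g4620 : Good XX 15 p4620 := rs15 c4620 rfl trivial
theorem g4621 : Good XX 15 p4621 := rs15 c4621 rfl ⟨g4617, ⟨g4618, ⟨g4619, ⟨g4620, trivial⟩⟩⟩⟩
theorem g4622 : Good XX 15 p4622 := rs15 c4622 rfl trivial
theorem g4623 : Good XX 15 p4623 := rs15 c4623 rfl trivial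
theorem g4624 : Good XX 15 p4624 := rs15 c4624 rfl trivial
theorem g4625 : Good XX 15 p4625 := rs15 c4625 rfl trivial
theorem g4626 : Good XX 15 p4626 := rs15 c4626 rfl trivial
theorem g4627 : Good XX 15 p4627 := rs15 c4627 rfl trivial
theorem g4628 : Good XX 15 p4628 := rs15 c4628 rfl trivial
theorem g4629 : Good XX 15 p4629 := rs15 c4629 rfl ⟨g4628, trivial⟩
theorem g4630 : Good XX 15 p4630 := rs15 c4630 rfl trivial
theorem g4631 : Good XX 15 p4631 := rs15 c4631 rfl trivial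
theorem g4632 : Good XX 15 p4632 := rs15 c4632 rfl ⟨g4622, ⟨g4623, ⟨g4624, ⟨g4625, ⟨g4626, ⟨g4627, ⟨g4629, ⟨g4630, ⟨g4631, trivial⟩⟩⟩⟩⟩⟩⟩⟩⟩
theorem g4633 : Good XX 15 p4633 := rs15 c4633 rfl trivial
theorem g4634 : Good XX 15 p4634 := rs15 c4634 rfl trivial
theorem g4635 : Good XX 15 p4635 := rs15 c4635 rfl trivial
theorem g4636 : Good XX 15 p4636 := rs15 c4636 rfl ⟨g4635, trivial⟩
theorem g4637 : Good XX 15 p4637 := rs15 c4637 rfl trivial
theorem g4638 : Good XX 15 p4638 := rs15 c4638 rfl trivial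
theorem g4639 : Good XX 15 p4639 := rs15 c4639 rfl ⟨g4638, trivial⟩
theorem g4640 : Good XX 15 p4640 := rs15 c4640 rfl trivial
theorem g4641 : Good XX 15 p4641 := rs15 c4641 rfl trivial
theorem g4642 : Good XX 15 p4642 := rs15 c4642 rfl ⟨g4633, ⟨g4634, ⟨g4636, ⟨g4637, ⟨g4639, ⟨g4640, ⟨g4641, trivial⟩⟩⟩⟩⟩⟩⟩
theorem g4643 : Good XX 15 p4643 := rs15 c4643 rfl trivial
theorem g4644 : Good XX 15 p4644 := rs15 c4644 rfl trivial
theorem g4645 : Good XX 15 p4645 := rs15 c4645 rfl trivial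
theorem g4646 : Good XX 15 p4646 := rs15 c4646 rfl trivial
theorem g4647 : Good XX 15 p4647 := rs15 c4647 rfl trivial
theorem g4648 : Good XX 15 p4648 := rs15 c4648 rfl trivial
theorem g4649 : Good XX 15 p4649 := rs15 c4649 rfl ⟨g4648, trivial⟩
theorem g4650 : Good XX 15 p4650 := rs15 c4650 rfl trivial
theorem g4651 : Good XX 15 p4651 := rs15 c4651 rfl trivial
theorem g4652 : Good XX 15 p4652 := rs15 c4652 rfl ⟨g4651, trivial⟩
theorem g4653 : Good XX 15 p4653 := rs15 c4653 rfl trivial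
theorem g4654 : Good XX 15 p4654 := rs15 c4654 rfl trivial
theorem g4655 : Good XX 15 p4655 := rs15 c4655 rfl trivial
theorem g4656 : Good XX 15 p4656 := rs15 c4656 rfl trivial
theorem g4657 : Good XX 15 p4657 := rs15 c4657 rfl trivial
theorem g4658 : Good XX 15 p4658 := rs15 c4658 rfl ⟨g4653, ⟨g4654, ⟨g4655, ⟨g4656, ⟨g4657, trivial⟩⟩⟩⟩⟩
theorem g4659 : Good XX 15 p4659 := rs15 c4659 rfl trivial
theorem g4660 : Good XX 15 p4660 := rs15 c4660 rfl trivial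
theorem g4661 : Good XX 15 p4661 := rs15 c4661 rfl trivial
theorem g4662 : Good XX 15 p4662 := rs15 c4662 rfl trivial
theorem g4663 : Good XX 15 p4663 := rs15 c4663 rfl trivial
theorem g4664 : Good XX 15 p4664 := rs15 c4664 rfl trivial
theorem g4665 : Good XX 15 p4665 := rs15 c4665 rfl ⟨g4660, ⟨g4661, ⟨g4662, ⟨g4663, ⟨g4664, trivial⟩⟩⟩⟩⟩
theorem g4666 : Good XX 15 p4666 := rs15 c4666 rfl trivial
theorem g4667 : Good XX 15 p4667 := rs15 c4667 rfl ⟨g4666, trivial⟩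
theorem g4668 : Good XX 15 p4668 := rs15 c4668 rfl trivial
theorem g4669 : Good XX 15 p4669 := rs15 c4669 rfl trivial
theorem g4670 : Good XX 15 p4670 := rs15 c4670 rfl ⟨g4668, ⟨g4669, trivial⟩⟩
theorem g4671 : Good XX 15 p4671 := rs15 c4671 rfl trivial
theorem g4672 : Good XX 15 p4672 := rs15 c4672 rfl trivial
theorem g4673 : Good XX 15 p4673 := rs15 c4673 rfl trivial
theorem g4674 : Good XX 15 p4674 := rs15 c4674 rfl trivial
theorem g4675 : Good XX 15 p4675 := rs15 c4675 rfl trivial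
theorem g4676 : Good XX 15 p4676 := rs15 c4676 rfl ⟨g4671, ⟨g4672, ⟨g4673, ⟨g4674, ⟨g4675, trivial⟩⟩⟩⟩⟩
theorem g4677 : Good XX 15 p4677 := rs15 c4677 rfl trivial
theorem g4678 : Good XX 15 p4678 := rs15 c4678 rfl ⟨g4677, trivial⟩
theorem g4679 : Good XX 15 p4679 := rs15 c4679 rfl trivial
theorem g4680 : Good XX 15 p4680 := rs15 c4680 rfl trivial
theorem g4681 : Good XX 15 p4681 := rs15 c4681 rfl trivial
theorem g4682 : Good XX 15 p4682 := rs15 c4682 rfl trivial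
theorem g4683 : Good XX 15 p4683 := rs15 c4683 rfl ⟨g4679, ⟨g4680, ⟨g4681, ⟨g4682, trivial⟩⟩⟩⟩
theorem g4684 : Good XX 15 p4684 := rs15 c4684 rfl trivial
theorem g4685 : Good XX 15 p4685 := rs15 c4685 rfl trivial
theorem g4686 : Good XX 15 p4686 := rs15 c4686 rfl trivial
theorem g4687 : Good XX 15 p4687 := rs15 c4687 rfl trivial
theorem g4688 : Good XX 15 p4688 := rs15 c4688 rfl trivial
theorem g4689 : Good XX 15 p4689 := rs15 c4689 rfl ⟨g4684, ⟨g4685, ⟨g4686, ⟨g4687, ⟨g4688, trivial⟩⟩⟩⟩⟩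
theorem g4690 : Good XX 15 p4690 := rs15 c4690 rfl trivial
theorem g4691 : Good XX 15 p4691 := rs15 c4691 rfl trivial
theorem g4692 : Good XX 15 p4692 := rs15 c4692 rfl trivial
theorem g4693 : Good XX 15 p4693 := rs15 c4693 rfl trivial
theorem g4694 : Good XX 15 p4694 := rs15 c4694 rfl trivial
theorem g4695 : Good XX 15 p4695 := rs15 c4695 rfl ⟨g4694, trivial⟩
theorem g4696 : Good XX 15 p4696 := rs15 c4696 rfl trivial
theorem g4697 : Good XX 15 p4697 := rs15 c4697 rfl trivial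
theorem g4698 : Good XX 15 p4698 := rs15 c4698 rfl ⟨g4697, trivial⟩
theorem g4699 : Good XX 15 p4699 := rs15 c4699 rfl trivial
theorem g4700 : Good XX 15 p4700 := rs15 c4700 rfl trivial
theorem g4701 : Good XX 15 p4701 := rs15 c4701 rfl trivial
theorem g4702 : Good XX 15 p4702 := rs15 c4702 rfl trivial
theorem g4703 : Good XX 15 p4703 := rs15 c4703 rfl ⟨g4700, ⟨g4701, ⟨g4702, trivial⟩⟩⟩
theorem g4704 : Good XX 15 p4704 := rs15 c4704 rfl trivial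
theorem g4705 : Good XX 15 p4705 := rs15 c4705 rfl trivial
theorem g4706 : Good XX 15 p4706 := rs15 c4706 rfl trivial
theorem g4707 : Good XX 15 p4707 := rs15 c4707 rfl trivial
theorem g4708 : Good XX 15 p4708 := rs15 c4708 rfl ⟨g4704, ⟨g4705, ⟨g4706, ⟨g4707, trivial⟩⟩⟩⟩
theorem g4709 : Good XX 15 p4709 := rs15 c4709 rfl trivial
theorem g4710 : Good XX 15 p4710 := rs15 c4710 rfl trivial
theorem g4711 : Good XX 15 p4711 := rs15 c4711 rfl ⟨g4710, trivial⟩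
theorem g4712 : Good XX 15 p4712 := rs15 c4712 rfl trivial
theorem g4713 : Good XX 15 p4713 := rs15 c4713 rfl trivial
theorem g4714 : Good XX 15 p4714 := rs15 c4714 rfl trivial
theorem g4715 : Good XX 15 p4715 := rs15 c4715 rfl trivial
theorem g4716 : Good XX 15 p4716 := rs15 c4716 rfl ⟨g4715, trivial⟩
theorem g4717 : Good XX 15 p4717 := rs15 c4717 rfl trivial
theorem g4718 : Good XX 15 p4718 := rs15 c4718 rfl trivial
theorem g4719 : Good XX 15 p4719 := rs15 c4719 rfl ⟨g4718, trivial⟩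
theorem g4720 : Good XX 15 p4720 := rs15 c4720 rfl trivial
theorem g4721 : Good XX 15 p4721 := rs15 c4721 rfl ⟨g4720, trivial⟩
theorem g4722 : Good XX 15 p4722 := rs15 c4722 rfl trivial
theorem g4723 : Good XX 15 p4723 := rs15 c4723 rfl trivial
theorem g4724 : Good XX 15 p4724 := rs15 c4724 rfl trivial
theorem g4725 : Good XX 15 p4725 := rs15 c4725 rfl trivial
theorem g4726 : Good XX 15 p4726 := rs15 c4726 rfl trivial
theorem g4727 : Good XX 15 p4727 := rs15 c4727 rfl trivial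
theorem g4728 : Good XX 15 p4728 := rs15 c4728 rfl trivial
theorem g4729 : Good XX 15 p4729 := rs15 c4729 rfl trivial
theorem g4730 : Good XX 15 p4730 := rs15 c4730 rfl ⟨g4722, ⟨g4723, ⟨g4724, ⟨g4725, ⟨g4726, ⟨g4727, ⟨g4728, ⟨g4729, trivial⟩⟩⟩⟩⟩⟩⟩⟩
theorem g4731 : Good XX 15 p4731 := rs15 c4731 rfl trivial
theorem g4732 : Good XX 15 p4732 := rs15 c4732 rfl ⟨g4731, trivial⟩
theorem g4733 : Good XX 15 p4733 := rs15 c4733 rfl ⟨g4607, ⟨g4616, ⟨g4621, ⟨g4632, ⟨g4642, ⟨g4643, ⟨g4644, ⟨g4645, ⟨g4646, ⟨g4647, ⟨g4649, ⟨g4650, ⟨g4652, ⟨g4658, ⟨g4659, ⟨g4665, ⟨g4667, ⟨g4670, ⟨g4676, ⟨g4678, ⟨g4683, ⟨g4689, ⟨g4690, ⟨g4691, ⟨g4692, ⟨g4693, ⟨g4695, ⟨g4696, ⟨g4698, ⟨g4699, ⟨g4703, ⟨g4708, ⟨g4709, ⟨g4711, ⟨g4712, ⟨g4713, ⟨g4714, ⟨g4716, ⟨g4717, ⟨g4719, ⟨g4721, ⟨g4730, ⟨g4732, trivial⟩⟩⟩⟩⟩⟩⟩⟩⟩⟩⟩⟩⟩⟩⟩⟩⟩⟩⟩⟩⟩⟩⟩⟩⟩⟩⟩⟩⟩⟩⟩⟩⟩⟩⟩⟩⟩⟩⟩⟩⟩⟩⟩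
theorem g4734 : Good XX 15 p4734 := rs15 c4734 rfl trivial
theorem g4735 : Good XX 15 p4735 := rs15 c4735 rfl trivial
theorem g4736 : Good XX 15 p4736 := rs15 c4736 rfl trivial
theorem g4737 : Good XX 15 p4737 := rs15 c4737 rfl trivial
theorem g4738 : Good XX 15 p4738 := rs15 c4738 rfl trivial
theorem g4739 : Good XX 15 p4739 := rs15 c4739 rfl trivial
theorem g4740 : Good XX 15 p4740 := rs15 c4740 rfl trivial
theorem g4741 : Good XX 15 p4741 := rs15 c4741 rfl ⟨g4734, ⟨g4735, ⟨g4736, ⟨g4737, ⟨g4738, ⟨g4739, ⟨g4740, trivial⟩⟩⟩⟩⟩⟩⟩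
theorem g4742 : Good XX 15 p4742 := rs15 c4742 rfl trivial
theorem g4743 : Good XX 15 p4743 := rs15 c4743 rfl trivial
theorem g4744 : Good XX 15 p4744 := rs15 c4744 rfl trivial
theorem g4745 : Good XX 15 p4745 := rs15 c4745 rfl trivial
theorem g4746 : Good XX 15 p4746 := rs15 c4746 rfl trivial
theorem g4747 : Good XX 15 p4747 := rs15 c4747 rfl trivial
theorem g4748 : Good XX 15 p4748 := rs15 c4748 rfl trivial
theorem g4749 : Good XX 15 p4749 := rs15 c4749 rfl ⟨g4748, trivial⟩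
theorem g4750 : Good XX 15 p4750 := rs15 c4750 rfl trivial
theorem g4751 : Good XX 15 p4751 := rs15 c4751 rfl ⟨g4750, trivial⟩
theorem g4752 : Good XX 15 p4752 := rs15 c4752 rfl trivial
theorem g4753 : Good XX 15 p4753 := rs15 c4753 rfl trivial
theorem g4754 : Good XX 15 p4754 := rs15 c4754 rfl trivial
theorem g4755 : Good XX 15 p4755 := rs15 c4755 rfl ⟨g4752, ⟨g4753, ⟨g4754, trivial⟩⟩⟩
theorem g4756 : Good XX 15 p4756 := rs15 c4756 rfl ⟨g4742, ⟨g4743, ⟨g4744, ⟨g4745, ⟨g4746, ⟨g4747, ⟨g4749, ⟨g4751, ⟨g4755, trivial⟩⟩⟩⟩⟩⟩⟩⟩⟩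
theorem g4757 : Good XX 15 p4757 := rs15 c4757 rfl trivial
theorem g4758 : Good XX 15 p4758 := rs15 c4758 rfl trivial
theorem g4759 : Good XX 15 p4759 := rs15 c4759 rfl trivial
theorem g4760 : Good XX 15 p4760 := rs15 c4760 rfl trivial
theorem g4761 : Good XX 15 p4761 := rs15 c4761 rfl trivial
theorem g4762 : Good XX 15 p4762 := rs15 c4762 rfl trivial
theorem g4763 : Good XX 15 p4763 := rs15 c4763 rfl trivial
theorem g4764 : Good XX 15 p4764 := rs15 c4764 rfl ⟨g4757, ⟨g4758, ⟨g4759, ⟨g4760, ⟨g4761, ⟨g4762, ⟨g4763, trivial⟩⟩⟩⟩⟩⟩⟩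
theorem g4765 : Good XX 15 p4765 := rs15 c4765 rfl trivial
theorem g4766 : Good XX 15 p4766 := rs15 c4766 rfl trivial
theorem g4767 : Good XX 15 p4767 := rs15 c4767 rfl trivial
theorem g4768 : Good XX 15 p4768 := rs15 c4768 rfl trivial
theorem g4769 : Good XX 15 p4769 := rs15 c4769 rfl trivial
theorem g4770 : Good XX 15 p4770 := rs15 c4770 rfl trivial
theorem g4771 : Good XX 15 p4771 := rs15 c4771 rfl trivial
theorem g4772 : Good XX 15 p4772 := rs15 c4772 rfl trivial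
theorem g4773 : Good XX 15 p4773 := rs15 c4773 rfl trivial
theorem g4774 : Good XX 15 p4774 := rs15 c4774 rfl ⟨g4771, ⟨g4772, ⟨g4773, trivial⟩⟩⟩
theorem g4775 : Good XX 15 p4775 := rs15 c4775 rfl trivial
theorem g4776 : Good XX 15 p4776 := rs15 c4776 rfl trivial
theorem g4777 : Good XX 15 p4777 := rs15 c4777 rfl trivial
theorem g4778 : Good XX 15 p4778 := rs15 c4778 rfl ⟨g4775, ⟨g4776, ⟨g4777, trivial⟩⟩⟩
theorem g4779 : Good XX 15 p4779 := rs15 c4779 rfl trivial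
theorem g4780 : Good XX 15 p4780 := rs15 c4780 rfl trivial
theorem g4781 : Good XX 15 p4781 := rs15 c4781 rfl trivial
theorem g4782 : Good XX 15 p4782 := rs15 c4782 rfl trivial
theorem g4783 : Good XX 15 p4783 := rs15 c4783 rfl ⟨g4779, ⟨g4780, ⟨g4781, ⟨g4782, trivial⟩⟩⟩⟩
theorem g4784 : Good XX 15 p4784 := rs15 c4784 rfl trivial
theorem g4785 : Good XX 15 p4785 := rs15 c4785 rfl trivial
theorem g4786 : Good XX 15 p4786 := rs15 c4786 rfl ⟨g4785, trivial⟩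
theorem g4787 : Good XX 15 p4787 := rs15 c4787 rfl trivial
theorem g4788 : Good XX 15 p4788 := rs15 c4788 rfl ⟨g4787, trivial⟩
theorem g4789 : Good XX 15 p4789 := rs15 c4789 rfl ⟨g4765, ⟨g4766, ⟨g4767, ⟨g4768, ⟨g4769, ⟨g4770, ⟨g4774, ⟨g4778, ⟨g4783, ⟨g4784, ⟨g4786, ⟨g4788, trivial⟩⟩⟩⟩⟩⟩⟩⟩⟩⟩⟩⟩
theorem g4790 : Good XX 15 p4790 := rs15 c4790 rfl trivial
theorem g4791 : Good XX 15 p4791 := rs15 c4791 rfl trivial
theorem g4792 : Good XX 15 p4792 := rs15 c4792 rfl trivial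
theorem g4793 : Good XX 15 p4793 := rs15 c4793 rfl trivial
theorem g4794 : Good XX 15 p4794 := rs15 c4794 rfl trivial
theorem g4795 : Good XX 15 p4795 := rs15 c4795 rfl trivial
theorem g4796 : Good XX 15 p4796 := rs15 c4796 rfl trivial
theorem g4797 : Good XX 15 p4797 := rs15 c4797 rfl trivial
theorem g4798 : Good XX 15 p4798 := rs15 c4798 rfl trivial
theorem g4799 : Good XX 15 p4799 := rs15 c4799 rfl trivial
theorem g4800 : Good XX 15 p4800 := rs15 c4800 rfl trivial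
theorem g4801 : Good XX 15 p4801 := rs15 c4801 rfl ⟨g4798, ⟨g4799, ⟨g4800, trivial⟩⟩⟩
theorem g4802 : Good XX 15 p4802 := rs15 c4802 rfl trivial
theorem g4803 : Good XX 15 p4803 := rs15 c4803 rfl ⟨g4802, trivial⟩
theorem g4804 : Good XX 15 p4804 := rs15 c4804 rfl trivial
theorem g4805 : Good XX 15 p4805 := rs15 c4805 rfl ⟨g4804, trivial⟩
theorem g4806 : Good XX 15 p4806 := rs15 c4806 rfl trivial
theorem g4807 : Good XX 15 p4807 := rs15 c4807 rfl ⟨g4806, trivial⟩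
theorem g4808 : Good XX 15 p4808 := rs15 c4808 rfl trivial
theorem g4809 : Good XX 15 p4809 := rs15 c4809 rfl ⟨g4808, trivial⟩
theorem g4810 : Good XX 15 p4810 := rs15 c4810 rfl trivial
theorem g4811 : Good XX 15 p4811 := rs15 c4811 rfl trivial
theorem g4812 : Good XX 15 p4812 := rs15 c4812 rfl ⟨g4810, ⟨g4811, trivial⟩⟩
theorem g4813 : Good XX 15 p4813 := rs15 c4813 rfl trivial
theorem g4814 : Good XX 15 p4814 := rs15 c4814 rfl ⟨g4813, trivial⟩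
theorem g4815 : Good XX 15 p4815 := rs15 c4815 rfl trivial
theorem g4816 : Good XX 15 p4816 := rs15 c4816 rfl trivial
theorem g4817 : Good XX 15 p4817 := rs15 c4817 rfl trivial
theorem g4818 : Good XX 15 p4818 := rs15 c4818 rfl trivial
theorem g4819 : Good XX 15 p4819 := rs15 c4819 rfl ⟨g4818, trivial⟩
theorem g4820 : Good XX 15 p4820 := rs15 c4820 rfl trivial
theorem g4821 : Good XX 15 p4821 := rs15 c4821 rfl trivial
theorem g4822 : Good XX 15 p4822 := rs15 c4822 rfl ⟨g4820, ⟨g4821, trivial⟩⟩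
theorem g4823 : Good XX 15 p4823 := rs15 c4823 rfl trivial
theorem g4824 : Good XX 15 p4824 := rs15 c4824 rfl trivial
theorem g4825 : Good XX 15 p4825 := rs15 c4825 rfl trivial
theorem g4826 : Good XX 15 p4826 := rs15 c4826 rfl trivial
theorem g4827 : Good XX 15 p4827 := rs15 c4827 rfl trivial
theorem g4828 : Good XX 15 p4828 := rs15 c4828 rfl trivial
theorem g4829 : Good XX 15 p4829 := rs15 c4829 rfl trivial
theorem g4830 : Good XX 15 p4830 := rs15 c4830 rfl ⟨g4823, ⟨g4824, ⟨g4825, ⟨g4826, ⟨g4827, ⟨g4828, ⟨g4829, trivial⟩⟩⟩⟩⟩⟩⟩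
theorem g4831 : Good XX 15 p4831 := rs15 c4831 rfl trivial
theorem g4832 : Good XX 15 p4832 := rs15 c4832 rfl ⟨g4831, trivial⟩
theorem g4833 : Good XX 15 p4833 := rs15 c4833 rfl ⟨g4764, ⟨g4789, ⟨g4790, ⟨g4791, ⟨g4792, ⟨g4793, ⟨g4794, ⟨g4795, ⟨g4796, ⟨g4797, ⟨g4801, ⟨g4803, ⟨g4805, ⟨g4807, ⟨g4809, ⟨g4812, ⟨g4814, ⟨g4815, ⟨g4816, ⟨g4817, ⟨g4819, ⟨g4822, ⟨g4830, ⟨g4832, trivial⟩⟩⟩⟩⟩⟩⟩⟩⟩⟩⟩⟩⟩⟩⟩⟩⟩⟩⟩⟩⟩⟩⟩⟩
theorem g4834 : Good XX 15 p4834 := rs15 c4834 rfl trivial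
theorem g4835 : Good XX 15 p4835 := rs15 c4835 rfl ⟨g4834, trivial⟩
theorem g4836 : Good XX 15 p4836 := rs15 c4836 rfl trivial
theorem g4837 : Good XX 15 p4837 := rs15 c4837 rfl ⟨g4836, trivial⟩
theorem g4838 : Good XX 15 p4838 := rs15 c4838 rfl trivial
theorem g4839 : Good XX 15 p4839 := rs15 c4839 rfl trivial
theorem g4840 : Good XX 15 p4840 := rs15 c4840 rfl trivial
theorem g4841 : Good XX 15 p4841 := rs15 c4841 rfl trivial
theorem g4842 : Good XX 15 p4842 := rs15 c4842 rfl ⟨g4838, ⟨g4839, ⟨g4840, ⟨g4841, trivial⟩⟩⟩⟩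
theorem g4843 : Good XX 15 p4843 := rs15 c4843 rfl trivial
theorem g4844 : Good XX 15 p4844 := rs15 c4844 rfl trivial
theorem g4845 : Good XX 15 p4845 := rs15 c4845 rfl trivial
theorem g4846 : Good XX 15 p4846 := rs15 c4846 rfl trivial
theorem g4847 : Good XX 15 p4847 := rs15 c4847 rfl ⟨g4843, ⟨g4844, ⟨g4845, ⟨g4846, trivial⟩⟩⟩⟩
theorem g4848 : Good XX 15 p4848 := rs15 c4848 rfl trivial
theorem g4849 : Good XX 15 p4849 := rs15 c4849 rfl trivial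
theorem g4850 : Good XX 15 p4850 := rs15 c4850 rfl ⟨g4849, trivial⟩
theorem g4851 : Good XX 15 p4851 := rs15 c4851 rfl trivial
theorem g4852 : Good XX 15 p4852 := rs15 c4852 rfl trivial
theorem g4853 : Good XX 15 p4853 := rs15 c4853 rfl trivial
theorem g4854 : Good XX 15 p4854 := rs15 c4854 rfl trivial
theorem g4855 : Good XX 15 p4855 := rs15 c4855 rfl ⟨g4853, ⟨g4854, trivial⟩⟩
theorem g4856 : Good XX 15 p4856 := rs15 c4856 rfl trivial
theorem g4857 : Good XX 15 p4857 := rs15 c4857 rfl ⟨g4848, ⟨g4850, ⟨g4851, ⟨g4852, ⟨g4855, ⟨g4856, trivial⟩⟩⟩⟩⟩⟩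
theorem g4858 : Good XX 15 p4858 := rs15 c4858 rfl trivial
theorem g4859 : Good XX 15 p4859 := rs15 c4859 rfl trivial
theorem g4860 : Good XX 15 p4860 := rs15 c4860 rfl ⟨g4859, trivial⟩
theorem g4861 : Good XX 15 p4861 := rs15 c4861 rfl trivial
theorem g4862 : Good XX 15 p4862 := rs15 c4862 rfl trivial
theorem g4863 : Good XX 15 p4863 := rs15 c4863 rfl trivial
theorem g4864 : Good XX 15 p4864 := rs15 c4864 rfl trivial
theorem g4865 : Good XX 15 p4865 := rs15 c4865 rfl ⟨g4862, ⟨g4863, ⟨g4864, trivial⟩⟩⟩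
theorem g4866 : Good XX 15 p4866 := rs15 c4866 rfl trivial
theorem g4867 : Good XX 15 p4867 := rs15 c4867 rfl trivial
theorem g4868 : Good XX 15 p4868 := rs15 c4868 rfl ⟨g4858, ⟨g4860, ⟨g4861, ⟨g4865, ⟨g4866, ⟨g4867, trivial⟩⟩⟩⟩⟩⟩
theorem g4869 : Good XX 15 p4869 := rs15 c4869 rfl trivial
theorem g4870 : Good XX 15 p4870 := rs15 c4870 rfl trivial
theorem g4871 : Good XX 15 p4871 := rs15 c4871 rfl trivial
theorem g4872 : Good XX 15 p4872 := rs15 c4872 rfl ⟨g4871, trivial⟩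
theorem g4873 : Good XX 15 p4873 := rs15 c4873 rfl trivial
theorem g4874 : Good XX 15 p4874 := rs15 c4874 rfl trivial
theorem g4875 : Good XX 15 p4875 := rs15 c4875 rfl ⟨g4873, ⟨g4874, trivial⟩⟩
theorem g4876 : Good XX 15 p4876 := rs15 c4876 rfl trivial
theorem g4877 : Good XX 15 p4877 := rs15 c4877 rfl trivial
theorem g4878 : Good XX 15 p4878 := rs15 c4878 rfl trivial
theorem g4879 : Good XX 15 p4879 := rs15 c4879 rfl ⟨g4877, ⟨g4878, trivial⟩⟩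
theorem g4880 : Good XX 15 p4880 := rs15 c4880 rfl trivial
theorem g4881 : Good XX 15 p4881 := rs15 c4881 rfl trivial
theorem g4882 : Good XX 15 p4882 := rs15 c4882 rfl trivial
theorem g4883 : Good XX 15 p4883 := rs15 c4883 rfl trivial
theorem g4884 : Good XX 15 p4884 := rs15 c4884 rfl trivial
theorem g4885 : Good XX 15 p4885 := rs15 c4885 rfl trivial
theorem g4886 : Good XX 15 p4886 := rs15 c4886 rfl ⟨g4881, ⟨g4882, ⟨g4883, ⟨g4884, ⟨g4885, trivial⟩⟩⟩⟩⟩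
theorem g4887 : Good XX 15 p4887 := rs15 c4887 rfl trivial
theorem g4888 : Good XX 15 p4888 := rs15 c4888 rfl trivial
theorem g4889 : Good XX 15 p4889 := rs15 c4889 rfl ⟨g4887, ⟨g4888, trivial⟩⟩
theorem g4890 : Good XX 15 p4890 := rs15 c4890 rfl trivial
theorem g4891 : Good XX 15 p4891 := rs15 c4891 rfl trivial
theorem g4892 : Good XX 15 p4892 := rs15 c4892 rfl trivial
theorem g4893 : Good XX 15 p4893 := rs15 c4893 rfl trivial
theorem g4894 : Good XX 15 p4894 := rs15 c4894 rfl trivial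
theorem g4895 : Good XX 15 p4895 := rs15 c4895 rfl ⟨g4891, ⟨g4892, ⟨g4893, ⟨g4894, trivial⟩⟩⟩⟩
theorem g4896 : Good XX 15 p4896 := rs15 c4896 rfl trivial
theorem g4897 : Good XX 15 p4897 := rs15 c4897 rfl ⟨g4896, trivial⟩
theorem g4898 : Good XX 15 p4898 := rs15 c4898 rfl trivial
theorem g4899 : Good XX 15 p4899 := rs15 c4899 rfl trivial
theorem g4900 : Good XX 15 p4900 := rs15 c4900 rfl ⟨g4898, ⟨g4899, trivial⟩⟩
theorem g4901 : Good XX 15 p4901 := rs15 c4901 rfl trivial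
theorem g4902 : Good XX 15 p4902 := rs15 c4902 rfl ⟨g4901, trivial⟩
theorem g4903 : Good XX 15 p4903 := rs15 c4903 rfl ⟨g4869, ⟨g4870, ⟨g4872, ⟨g4875, ⟨g4876, ⟨g4879, ⟨g4880, ⟨g4886, ⟨g4889, ⟨g4890, ⟨g4895, ⟨g4897, ⟨g4900, ⟨g4902, trivial⟩⟩⟩⟩⟩⟩⟩⟩⟩⟩⟩⟩⟩⟩
theorem g4904 : Good XX 15 p4904 := rs15 c4904 rfl trivial
theorem g4905 : Good XX 15 p4905 := rs15 c4905 rfl trivial
theorem g4906 : Good XX 15 p4906 := rs15 c4906 rfl trivial
theorem g4907 : Good XX 15 p4907 := rs15 c4907 rfl trivial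
theorem g4908 : Good XX 15 p4908 := rs15 c4908 rfl trivial
theorem g4909 : Good XX 15 p4909 := rs15 c4909 rfl trivial
theorem g4910 : Good XX 15 p4910 := rs15 c4910 rfl trivial
theorem g4911 : Good XX 15 p4911 := rs15 c4911 rfl trivial
theorem g4912 : Good XX 15 p4912 := rs15 c4912 rfl trivial
theorem g4913 : Good XX 15 p4913 := rs15 c4913 rfl ⟨g4910, ⟨g4911, ⟨g4912, trivial⟩⟩⟩
theorem g4914 : Good XX 15 p4914 := rs15 c4914 rfl trivial
theorem g4915 : Good XX 15 p4915 := rs15 c4915 rfl trivial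
theorem g4916 : Good XX 15 p4916 := rs15 c4916 rfl ⟨g4915, trivial⟩
theorem g4917 : Good XX 15 p4917 := rs15 c4917 rfl trivial
theorem g4918 : Good XX 15 p4918 := rs15 c4918 rfl ⟨g4917, trivial⟩
theorem g4919 : Good XX 15 p4919 := rs15 c4919 rfl ⟨g4904, ⟨g4905, ⟨g4906, ⟨g4907, ⟨g4908, ⟨g4909, ⟨g4913, ⟨g4914, ⟨g4916, ⟨g4918, trivial⟩⟩⟩⟩⟩⟩⟩⟩⟩⟩
theorem g4920 : Good XX 15 p4920 := rs15 c4920 rfl trivial
theorem g4921 : Good XX 15 p4921 := rs15 c4921 rfl ⟨g4920, trivial⟩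
theorem g4922 : Good XX 15 p4922 := rs15 c4922 rfl trivial
theorem g4923 : Good XX 15 p4923 := rs15 c4923 rfl trivial
theorem g4924 : Good XX 15 p4924 := rs15 c4924 rfl trivial
theorem g4925 : Good XX 15 p4925 := rs15 c4925 rfl trivial
theorem g4926 : Good XX 15 p4926 := rs15 c4926 rfl ⟨g4921, ⟨g4922, ⟨g4923, ⟨g4924, ⟨g4925, trivial⟩⟩⟩⟩⟩
theorem g4927 : Good XX 15 p4927 := rs15 c4927 rfl trivial
theorem g4928 : Good XX 15 p4928 := rs15 c4928 rfl trivial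
theorem g4929 : Good XX 15 p4929 := rs15 c4929 rfl trivial
theorem g4930 : Good XX 15 p4930 := rs15 c4930 rfl ⟨g4929, trivial⟩
theorem g4931 : Good XX 15 p4931 := rs15 c4931 rfl trivial
theorem g4932 : Good XX 15 p4932 := rs15 c4932 rfl ⟨g4931, trivial⟩
theorem g4933 : Good XX 15 p4933 := rs15 c4933 rfl trivial
theorem g4934 : Good XX 15 p4934 := rs15 c4934 rfl trivial
theorem g4935 : Good XX 15 p4935 := rs15 c4935 rfl trivial
theorem g4936 : Good XX 15 p4936 := rs15 c4936 rfl ⟨g4933, ⟨g4934, ⟨g4935, trivial⟩⟩⟩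
theorem g4937 : Good XX 15 p4937 := rs15 c4937 rfl trivial
theorem g4938 : Good XX 15 p4938 := rs15 c4938 rfl trivial
theorem g4939 : Good XX 15 p4939 := rs15 c4939 rfl trivial
theorem g4940 : Good XX 15 p4940 := rs15 c4940 rfl trivial
theorem g4941 : Good XX 15 p4941 := rs15 c4941 rfl trivial
theorem g4942 : Good XX 15 p4942 := rs15 c4942 rfl trivial
theorem g4943 : Good XX 15 p4943 := rs15 c4943 rfl ⟨g4938, ⟨g4939, ⟨g4940, ⟨g4941, ⟨g4942, trivial⟩⟩⟩⟩⟩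
theorem g4944 : Good XX 15 p4944 := rs15 c4944 rfl trivial
theorem g4945 : Good XX 15 p4945 := rs15 c4945 rfl trivial
theorem g4946 : Good XX 15 p4946 := rs15 c4946 rfl trivial
theorem g4947 : Good XX 15 p4947 := rs15 c4947 rfl trivial
theorem g4948 : Good XX 15 p4948 := rs15 c4948 rfl trivial
theorem g4949 : Good XX 15 p4949 := rs15 c4949 rfl ⟨g4945, ⟨g4946, ⟨g4947, ⟨g4948, trivial⟩⟩⟩⟩
theorem g4950 : Good XX 15 p4950 := rs15 c4950 rfl trivial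
theorem g4951 : Good XX 15 p4951 := rs15 c4951 rfl ⟨g4950, trivial⟩
theorem g4952 : Good XX 15 p4952 := rs15 c4952 rfl trivial
theorem g4953 : Good XX 15 p4953 := rs15 c4953 rfl trivial
theorem g4954 : Good XX 15 p4954 := rs15 c4954 rfl trivial
theorem g4955 : Good XX 15 p4955 := rs15 c4955 rfl trivial
theorem g4956 : Good XX 15 p4956 := rs15 c4956 rfl ⟨g4952, ⟨g4953, ⟨g4954, ⟨g4955, trivial⟩⟩⟩⟩
theorem g4957 : Good XX 15 p4957 := rs15 c4957 rfl trivial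
theorem g4958 : Good XX 15 p4958 := rs15 c4958 rfl trivial
theorem g4959 : Good XX 15 p4959 := rs15 c4959 rfl trivial
theorem g4960 : Good XX 15 p4960 := rs15 c4960 rfl ⟨g4957, ⟨g4958, ⟨g4959, trivial⟩⟩⟩
theorem g4961 : Good XX 15 p4961 := rs15 c4961 rfl ⟨g4927, ⟨g4928, ⟨g4930, ⟨g4932, ⟨g4936, ⟨g4937, ⟨g4943, ⟨g4944, ⟨g4949, ⟨g4951, ⟨g4956, ⟨g4960, trivial⟩⟩⟩⟩⟩⟩⟩⟩⟩⟩⟩⟩
theorem g4962 : Good XX 15 p4962 := rs15 c4962 rfl trivial
theorem g4963 : Good XX 15 p4963 := rs15 c4963 rfl trivial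
theorem g4964 : Good XX 15 p4964 := rs15 c4964 rfl trivial
theorem g4965 : Good XX 15 p4965 := rs15 c4965 rfl ⟨g4964, trivial⟩
theorem g4966 : Good XX 15 p4966 := rs15 c4966 rfl trivial
theorem g4967 : Good XX 15 p4967 := rs15 c4967 rfl trivial
theorem g4968 : Good XX 15 p4968 := rs15 c4968 rfl ⟨g4967, trivial⟩
theorem g4969 : Good XX 15 p4969 := rs15 c4969 rfl trivial
theorem g4970 : Good XX 15 p4970 := rs15 c4970 rfl trivial
theorem g4971 : Good XX 15 p4971 := rs15 c4971 rfl ⟨g4969, ⟨g4970, trivial⟩⟩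
theorem g4972 : Good XX 15 p4972 := rs15 c4972 rfl trivial
theorem g4973 : Good XX 15 p4973 := rs15 c4973 rfl trivial
theorem g4974 : Good XX 15 p4974 := rs15 c4974 rfl trivial
theorem g4975 : Good XX 15 p4975 := rs15 c4975 rfl trivial
theorem g4976 : Good XX 15 p4976 := rs15 c4976 rfl trivial
theorem g4977 : Good XX 15 p4977 := rs15 c4977 rfl ⟨g4973, ⟨g4974, ⟨g4975, ⟨g4976, trivial⟩⟩⟩⟩
theorem g4978 : Good XX 15 p4978 := rs15 c4978 rfl trivial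
theorem g4979 : Good XX 15 p4979 := rs15 c4979 rfl trivial
theorem g4980 : Good XX 15 p4980 := rs15 c4980 rfl ⟨g4979, trivial⟩
theorem g4981 : Good XX 15 p4981 := rs15 c4981 rfl trivial
theorem g4982 : Good XX 15 p4982 := rs15 c4982 rfl trivial
theorem g4983 : Good XX 15 p4983 := rs15 c4983 rfl trivial
theorem g4984 : Good XX 15 p4984 := rs15 c4984 rfl trivial
theorem g4985 : Good XX 15 p4985 := rs15 c4985 rfl trivial
theorem g4986 : Good XX 15 p4986 := rs15 c4986 rfl ⟨g4981, ⟨g4982, ⟨g4983, ⟨g4984, ⟨g4985, trivial⟩⟩⟩⟩⟩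
theorem g4987 : Good XX 15 p4987 := rs15 c4987 rfl trivial
theorem g4988 : Good XX 15 p4988 := rs15 c4988 rfl trivial
theorem g4989 : Good XX 15 p4989 := rs15 c4989 rfl trivial
theorem g4990 : Good XX 15 p4990 := rs15 c4990 rfl trivial
theorem g4991 : Good XX 15 p4991 := rs15 c4991 rfl ⟨g4987, ⟨g4988, ⟨g4989, ⟨g4990, trivial⟩⟩⟩⟩
theorem g4992 : Good XX 15 p4992 := rs15 c4992 rfl trivial
theorem g4993 : Good XX 15 p4993 := rs15 c4993 rfl trivial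
theorem g4994 : Good XX 15 p4994 := rs15 c4994 rfl trivial
theorem g4995 : Good XX 15 p4995 := rs15 c4995 rfl ⟨g4992, ⟨g4993, ⟨g4994, trivial⟩⟩⟩
theorem g4996 : Good XX 15 p4996 := rs15 c4996 rfl ⟨g4962, ⟨g4963, ⟨g4965, ⟨g4966, ⟨g4968, ⟨g4971, ⟨g4972, ⟨g4977, ⟨g4978, ⟨g4980, ⟨g4986, ⟨g4991, ⟨g4995, trivial⟩⟩⟩⟩⟩⟩⟩⟩⟩⟩⟩⟩⟩
theorem g4997 : Good XX 15 p4997 := rs15 c4997 rfl trivial
theorem g4998 : Good XX 15 p4998 := rs15 c4998 rfl trivial
theorem g4999 : Good XX 15 p4999 := rs15 c4999 rfl trivial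
theorem g5000 : Good XX 15 p5000 := rs15 c5000 rfl trivial
theorem g5001 : Good XX 15 p5001 := rs15 c5001 rfl trivial
theorem g5002 : Good XX 15 p5002 := rs15 c5002 rfl trivial
theorem g5003 : Good XX 15 p5003 := rs15 c5003 rfl ⟨g5002, trivial⟩
theorem g5004 : Good XX 15 p5004 := rs15 c5004 rfl trivial
theorem g5005 : Good XX 15 p5005 := rs15 c5005 rfl ⟨g5004, trivial⟩
theorem g5006 : Good XX 15 p5006 := rs15 c5006 rfl trivial
theorem g5007 : Good XX 15 p5007 := rs15 c5007 rfl ⟨g5006, trivial⟩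
theorem g5008 : Good XX 15 p5008 := rs15 c5008 rfl trivial
theorem g5009 : Good XX 15 p5009 := rs15 c5009 rfl trivial
theorem g5010 : Good XX 15 p5010 := rs15 c5010 rfl trivial
theorem g5011 : Good XX 15 p5011 := rs15 c5011 rfl trivial
theorem g5012 : Good XX 15 p5012 := rs15 c5012 rfl ⟨g5008, ⟨g5009, ⟨g5010, ⟨g5011, trivial⟩⟩⟩⟩
theorem g5013 : Good XX 15 p5013 := rs15 c5013 rfl trivial
theorem g5014 : Good XX 15 p5014 := rs15 c5014 rfl trivial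
theorem g5015 : Good XX 15 p5015 := rs15 c5015 rfl ⟨g5013, ⟨g5014, trivial⟩⟩
theorem g5016 : Good XX 15 p5016 := rs15 c5016 rfl trivial
theorem g5017 : Good XX 15 p5017 := rs15 c5017 rfl trivial
theorem g5018 : Good XX 15 p5018 := rs15 c5018 rfl trivial
theorem g5019 : Good XX 15 p5019 := rs15 c5019 rfl trivial
theorem g5020 : Good XX 15 p5020 := rs15 c5020 rfl trivial
theorem g5021 : Good XX 15 p5021 := rs15 c5021 rfl trivial
theorem g5022 : Good XX 15 p5022 := rs15 c5022 rfl ⟨g5016, ⟨g5017, ⟨g5018, ⟨g5019, ⟨g5020, ⟨g5021, trivial⟩⟩⟩⟩⟩⟩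
theorem g5023 : Good XX 15 p5023 := rs15 c5023 rfl trivial
theorem g5024 : Good XX 15 p5024 := rs15 c5024 rfl trivial
theorem g5025 : Good XX 15 p5025 := rs15 c5025 rfl trivial
theorem g5026 : Good XX 15 p5026 := rs15 c5026 rfl trivial
theorem g5027 : Good XX 15 p5027 := rs15 c5027 rfl trivial
theorem g5028 : Good XX 15 p5028 := rs15 c5028 rfl ⟨g5023, ⟨g5024, ⟨g5025, ⟨g5026, ⟨g5027, trivial⟩⟩⟩⟩⟩
theorem g5029 : Good XX 15 p5029 := rs15 c5029 rfl trivial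
theorem g5030 : Good XX 15 p5030 := rs15 c5030 rfl ⟨g5029, trivial⟩
theorem g5031 : Good XX 15 p5031 := rs15 c5031 rfl trivial
theorem g5032 : Good XX 15 p5032 := rs15 c5032 rfl trivial
theorem g5033 : Good XX 15 p5033 := rs15 c5033 rfl ⟨g5031, ⟨g5032, trivial⟩⟩
theorem g5034 : Good XX 15 p5034 := rs15 c5034 rfl trivial
theorem g5035 : Good XX 15 p5035 := rs15 c5035 rfl trivial
theorem g5036 : Good XX 15 p5036 := rs15 c5036 rfl ⟨g5034, ⟨g5035, trivial⟩⟩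
theorem g5037 : Good XX 15 p5037 := rs15 c5037 rfl trivial
theorem g5038 : Good XX 15 p5038 := rs15 c5038 rfl trivial
theorem g5039 : Good XX 15 p5039 := rs15 c5039 rfl trivial
theorem g5040 : Good XX 15 p5040 := rs15 c5040 rfl trivial
theorem g5041 : Good XX 15 p5041 := rs15 c5041 rfl trivial
theorem g5042 : Good XX 15 p5042 := rs15 c5042 rfl trivial
theorem g5043 : Good XX 15 p5043 := rs15 c5043 rfl trivial
theorem g5044 : Good XX 15 p5044 := rs15 c5044 rfl trivial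
theorem g5045 : Good XX 15 p5045 := rs15 c5045 rfl ⟨g5037, ⟨g5038, ⟨g5039, ⟨g5040, ⟨g5041, ⟨g5042, ⟨g5043, ⟨g5044, trivial⟩⟩⟩⟩⟩⟩⟩⟩
theorem g5046 : Good XX 15 p5046 := rs15 c5046 rfl trivial
theorem g5047 : Good XX 15 p5047 := rs15 c5047 rfl trivial
theorem g5048 : Good XX 15 p5048 := rs15 c5048 rfl trivial
theorem g5049 : Good XX 15 p5049 := rs15 c5049 rfl trivial
theorem g5050 : Good XX 15 p5050 := rs15 c5050 rfl trivial
theorem g5051 : Good XX 15 p5051 := rs15 c5051 rfl trivial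
theorem g5052 : Good XX 15 p5052 := rs15 c5052 rfl trivial
theorem g5053 : Good XX 15 p5053 := rs15 c5053 rfl trivial
theorem g5054 : Good XX 15 p5054 := rs15 c5054 rfl ⟨g5046, ⟨g5047, ⟨g5048, ⟨g5049, ⟨g5050, ⟨g5051, ⟨g5052, ⟨g5053, trivial⟩⟩⟩⟩⟩⟩⟩⟩
theorem g5055 : Good XX 15 p5055 := rs15 c5055 rfl trivial
theorem g5056 : Good XX 15 p5056 := rs15 c5056 rfl trivial
theorem g5057 : Good XX 15 p5057 := rs15 c5057 rfl trivial
theorem g5058 : Good XX 15 p5058 := rs15 c5058 rfl trivial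
theorem g5059 : Good XX 15 p5059 := rs15 c5059 rfl trivial
theorem g5060 : Good XX 15 p5060 := rs15 c5060 rfl trivial
theorem g5061 : Good XX 15 p5061 := rs15 c5061 rfl ⟨g5055, ⟨g5056, ⟨g5057, ⟨g5058, ⟨g5059, ⟨g5060, trivial⟩⟩⟩⟩⟩⟩
theorem g5062 : Good XX 15 p5062 := rs15 c5062 rfl trivial
theorem g5063 : Good XX 15 p5063 := rs15 c5063 rfl trivial
theorem g5064 : Good XX 15 p5064 := rs15 c5064 rfl trivial
theorem g5065 : Good XX 15 p5065 := rs15 c5065 rfl trivial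
theorem g5066 : Good XX 15 p5066 := rs15 c5066 rfl trivial
theorem g5067 : Good XX 15 p5067 := rs15 c5067 rfl trivial
theorem g5068 : Good XX 15 p5068 := rs15 c5068 rfl trivial
theorem g5069 : Good XX 15 p5069 := rs15 c5069 rfl trivial
theorem g5070 : Good XX 15 p5070 := rs15 c5070 rfl trivial
theorem g5071 : Good XX 15 p5071 := rs15 c5071 rfl trivial
theorem g5072 : Good XX 15 p5072 := rs15 c5072 rfl trivial
theorem g5073 : Good XX 15 p5073 := rs15 c5073 rfl trivial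
theorem g5074 : Good XX 15 p5074 := rs15 c5074 rfl ⟨g5062, ⟨g5063, ⟨g5064, ⟨g5065, ⟨g5066, ⟨g5067, ⟨g5068, ⟨g5069, ⟨g5070, ⟨g5071, ⟨g5072, ⟨g5073, trivial⟩⟩⟩⟩⟩⟩⟩⟩⟩⟩⟩⟩
theorem g5075 : Good XX 15 p5075 := rs15 c5075 rfl trivial
theorem g5076 : Good XX 15 p5076 := rs15 c5076 rfl trivial
theorem g5077 : Good XX 15 p5077 := rs15 c5077 rfl trivial
theorem g5078 : Good XX 15 p5078 := rs15 c5078 rfl trivial
theorem g5079 : Good XX 15 p5079 := rs15 c5079 rfl trivial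
theorem g5080 : Good XX 15 p5080 := rs15 c5080 rfl trivial
theorem g5081 : Good XX 15 p5081 := rs15 c5081 rfl trivial
theorem g5082 : Good XX 15 p5082 := rs15 c5082 rfl trivial
theorem g5083 : Good XX 15 p5083 := rs15 c5083 rfl trivial
theorem g5084 : Good XX 15 p5084 := rs15 c5084 rfl trivial
theorem g5085 : Good XX 15 p5085 := rs15 c5085 rfl trivial
theorem g5086 : Good XX 15 p5086 := rs15 c5086 rfl trivial
theorem g5087 : Good XX 15 p5087 := rs15 c5087 rfl trivial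
theorem g5088 : Good XX 15 p5088 := rs15 c5088 rfl trivial
theorem g5089 : Good XX 15 p5089 := rs15 c5089 rfl trivial
theorem g5090 : Good XX 15 p5090 := rs15 c5090 rfl trivial
theorem g5091 : Good XX 15 p5091 := rs15 c5091 rfl trivial
theorem g5092 : Good XX 15 p5092 := rs15 c5092 rfl trivial
theorem g5093 : Good XX 15 p5093 := rs15 c5093 rfl trivial
theorem g5094 : Good XX 15 p5094 := rs15 c5094 rfl trivial
theorem g5095 : Good XX 15 p5095 := rs15 c5095 rfl trivial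
theorem g5096 : Good XX 15 p5096 := rs15 c5096 rfl trivial
theorem g5097 : Good XX 15 p5097 := rs15 c5097 rfl trivial
theorem g5098 : Good XX 15 p5098 := rs15 c5098 rfl ⟨g5030, ⟨g5033, ⟨g5036, ⟨g5045, ⟨g5054, ⟨g5061, ⟨g5074, ⟨g5075, ⟨g5076, ⟨g5077, ⟨g5078, ⟨g5079, ⟨g5080, ⟨g5081, ⟨g5082, ⟨g5083, ⟨g5084, ⟨g5085, ⟨g5086, ⟨g5087, ⟨g5088, ⟨g5089, ⟨g5090, ⟨g5091, ⟨g5092, ⟨g5093, ⟨g5094, ⟨g5095, ⟨g5096, ⟨g5097, trivial⟩⟩⟩⟩⟩⟩⟩⟩⟩⟩⟩⟩⟩⟩⟩⟩⟩⟩⟩⟩⟩⟩⟩⟩⟩⟩⟩⟩⟩⟩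
theorem g5099 : Good XX 15 p5099 := rs15 c5099 rfl ⟨g4531, ⟨g4541, ⟨g4601, ⟨g4733, ⟨g4741, ⟨g4756, ⟨g4833, ⟨g4835, ⟨g4837, ⟨g4842, ⟨g4847, ⟨g4857, ⟨g4868, ⟨g4903, ⟨g4919, ⟨g4926, ⟨g4961, ⟨g4996, ⟨g4997, ⟨g4998, ⟨g4999, ⟨g5000, ⟨g5001, ⟨g5003, ⟨g5005, ⟨g5007, ⟨g5012, ⟨g5015, ⟨g5022, ⟨g5028, ⟨g5098, trivial⟩⟩⟩⟩⟩⟩⟩⟩⟩⟩⟩⟩⟩⟩⟩⟩⟩⟩⟩⟩⟩⟩⟩⟩⟩⟩⟩⟩⟩⟩⟩
theorem g5100 : Good XX 15 p5100 := rs15 c5100 rfl trivial
theorem g5101 : Good XX 15 p5101 := rs15 c5101 rfl trivial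
theorem g5102 : Good XX 15 p5102 := rs15 c5102 rfl trivial
theorem g5103 : Good XX 15 p5103 := rs15 c5103 rfl ⟨g5101, ⟨g5102, trivial⟩⟩
theorem g5104 : Good XX 15 p5104 := rs15 c5104 rfl trivial
theorem g5105 : Good XX 15 p5105 := rs15 c5105 rfl ⟨g5100, ⟨g5103, ⟨g5104, trivial⟩⟩⟩
theorem g5106 : Good XX 15 p5106 := rs15 c5106 rfl trivial
theorem g5107 : Good XX 15 p5107 := rs15 c5107 rfl trivial
theorem g5108 : Good XX 15 p5108 := rs15 c5108 rfl trivial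
theorem g5109 : Good XX 15 p5109 := rs15 c5109 rfl trivial
theorem g5110 : Good XX 15 p5110 := rs15 c5110 rfl trivial
theorem g5111 : Good XX 15 p5111 := rs15 c5111 rfl trivial
theorem g5112 : Good XX 15 p5112 := rs15 c5112 rfl trivial
theorem g5113 : Good XX 15 p5113 := rs15 c5113 rfl trivial
theorem g5114 : Good XX 15 p5114 := rs15 c5114 rfl trivial
theorem g5115 : Good XX 15 p5115 := rs15 c5115 rfl trivial
theorem g5116 : Good XX 15 p5116 := rs15 c5116 rfl trivial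
theorem g5117 : Good XX 15 p5117 := rs15 c5117 rfl trivial
theorem g5118 : Good XX 15 p5118 := rs15 c5118 rfl ⟨g5114, ⟨g5115, ⟨g5116, ⟨g5117, trivial⟩⟩⟩⟩
theorem g5119 : Good XX 15 p5119 := rs15 c5119 rfl trivial
theorem g5120 : Good XX 15 p5120 := rs15 c5120 rfl trivial
theorem g5121 : Good XX 15 p5121 := rs15 c5121 rfl trivial
theorem g5122 : Good XX 15 p5122 := rs15 c5122 rfl ⟨g5119, ⟨g5120, ⟨g5121, trivial⟩⟩⟩
theorem g5123 : Good XX 15 p5123 := rs15 c5123 rfl trivial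
theorem g5124 : Good XX 15 p5124 := rs15 c5124 rfl trivial
theorem g5125 : Good XX 15 p5125 := rs15 c5125 rfl ⟨g5123, ⟨g5124, trivial⟩⟩
theorem g5126 : Good XX 15 p5126 := rs15 c5126 rfl trivial
theorem g5127 : Good XX 15 p5127 := rs15 c5127 rfl trivial
theorem g5128 : Good XX 15 p5128 := rs15 c5128 rfl ⟨g5126, ⟨g5127, trivial⟩⟩
theorem g5129 : Good XX 15 p5129 := rs15 c5129 rfl trivial
theorem g5130 : Good XX 15 p5130 := rs15 c5130 rfl trivial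
theorem g5131 : Good XX 15 p5131 := rs15 c5131 rfl trivial
theorem g5132 : Good XX 15 p5132 := rs15 c5132 rfl ⟨g5129, ⟨g5130, ⟨g5131, trivial⟩⟩⟩
theorem g5133 : Good XX 15 p5133 := rs15 c5133 rfl trivial
theorem g5134 : Good XX 15 p5134 := rs15 c5134 rfl trivial
theorem g5135 : Good XX 15 p5135 := rs15 c5135 rfl trivial
theorem g5136 : Good XX 15 p5136 := rs15 c5136 rfl trivial
theorem g5137 : Good XX 15 p5137 := rs15 c5137 rfl trivial
theorem g5138 : Good XX 15 p5138 := rs15 c5138 rfl trivial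
theorem g5139 : Good XX 15 p5139 := rs15 c5139 rfl ⟨g5133, ⟨g5134, ⟨g5135, ⟨g5136, ⟨g5137, ⟨g5138, trivial⟩⟩⟩⟩⟩⟩
theorem g5140 : Good XX 15 p5140 := rs15 c5140 rfl trivial
theorem g5141 : Good XX 15 p5141 := rs15 c5141 rfl trivial
theorem g5142 : Good XX 15 p5142 := rs15 c5142 rfl trivial
theorem g5143 : Good XX 15 p5143 := rs15 c5143 rfl ⟨g5140, ⟨g5141, ⟨g5142, trivial⟩⟩⟩
theorem g5144 : Good XX 15 p5144 := rs15 c5144 rfl trivial
theorem g5145 : Good XX 15 p5145 := rs15 c5145 rfl trivial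
theorem g5146 : Good XX 15 p5146 := rs15 c5146 rfl trivial
theorem g5147 : Good XX 15 p5147 := rs15 c5147 rfl trivial
theorem g5148 : Good XX 15 p5148 := rs15 c5148 rfl trivial
theorem g5149 : Good XX 15 p5149 := rs15 c5149 rfl ⟨g5146, ⟨g5147, ⟨g5148, trivial⟩⟩⟩
theorem g5150 : Good XX 15 p5150 := rs15 c5150 rfl trivial
theorem g5151 : Good XX 15 p5151 := rs15 c5151 rfl trivial
theorem g5152 : Good XX 15 p5152 := rs15 c5152 rfl trivial
theorem g5153 : Good XX 15 p5153 := rs15 c5153 rfl trivial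
theorem g5154 : Good XX 15 p5154 := rs15 c5154 rfl trivial
theorem g5155 : Good XX 15 p5155 := rs15 c5155 rfl trivial
theorem g5156 : Good XX 15 p5156 := rs15 c5156 rfl trivial
theorem g5157 : Good XX 15 p5157 := rs15 c5157 rfl trivial
theorem g5158 : Good XX 15 p5158 := rs15 c5158 rfl trivial
theorem g5159 : Good XX 15 p5159 := rs15 c5159 rfl trivial
theorem g5160 : Good XX 15 p5160 := rs15 c5160 rfl trivial
theorem g5161 : Good XX 15 p5161 := rs15 c5161 rfl ⟨g5160, trivial⟩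
theorem g5162 : Good XX 15 p5162 := rs15 c5162 rfl trivial
theorem g5163 : Good XX 15 p5163 := rs15 c5163 rfl trivial
theorem g5164 : Good XX 15 p5164 := rs15 c5164 rfl trivial
theorem g5165 : Good XX 15 p5165 := rs15 c5165 rfl trivial
theorem g5166 : Good XX 15 p5166 := rs15 c5166 rfl trivial
theorem g5167 : Good XX 15 p5167 := rs15 c5167 rfl ⟨g5164, ⟨g5165, ⟨g5166, trivial⟩⟩⟩
theorem g5168 : Good XX 15 p5168 := rs15 c5168 rfl trivial
theorem g5169 : Good XX 15 p5169 := rs15 c5169 rfl trivial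
theorem g5170 : Good XX 15 p5170 := rs15 c5170 rfl trivial
theorem g5171 : Good XX 15 p5171 := rs15 c5171 rfl trivial
theorem g5172 : Good XX 15 p5172 := rs15 c5172 rfl trivial
theorem g5173 : Good XX 15 p5173 := rs15 c5173 rfl trivial
theorem g5174 : Good XX 15 p5174 := rs15 c5174 rfl ⟨g5170, ⟨g5171, ⟨g5172, ⟨g5173, trivial⟩⟩⟩⟩
theorem g5175 : Good XX 15 p5175 := rs15 c5175 rfl trivial
theorem g5176 : Good XX 15 p5176 := rs15 c5176 rfl ⟨g5175, trivial⟩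
theorem g5177 : Good XX 15 p5177 := rs15 c5177 rfl trivial
theorem g5178 : Good XX 15 p5178 := rs15 c5178 rfl trivial
theorem g5179 : Good XX 15 p5179 := rs15 c5179 rfl trivial
theorem g5180 : Good XX 15 p5180 := rs15 c5180 rfl trivial
theorem g5181 : Good XX 15 p5181 := rs15 c5181 rfl ⟨g5180, trivial⟩
theorem g5182 : Good XX 15 p5182 := rs15 c5182 rfl trivial
theorem g5183 : Good XX 15 p5183 := rs15 c5183 rfl trivial
theorem g5184 : Good XX 15 p5184 := rs15 c5184 rfl trivial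
theorem g5185 : Good XX 15 p5185 := rs15 c5185 rfl trivial
theorem g5186 : Good XX 15 p5186 := rs15 c5186 rfl ⟨g5185, trivial⟩
theorem g5187 : Good XX 15 p5187 := rs15 c5187 rfl trivial
theorem g5188 : Good XX 15 p5188 := rs15 c5188 rfl trivial
theorem g5189 : Good XX 15 p5189 := rs15 c5189 rfl trivial
theorem g5190 : Good XX 15 p5190 := rs15 c5190 rfl trivial
theorem g5191 : Good XX 15 p5191 := rs15 c5191 rfl trivial
theorem g5192 : Good XX 15 p5192 := rs15 c5192 rfl trivial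
theorem g5193 : Good XX 15 p5193 := rs15 c5193 rfl trivial
theorem g5194 : Good XX 15 p5194 := rs15 c5194 rfl trivial
theorem g5195 : Good XX 15 p5195 := rs15 c5195 rfl trivial
theorem g5196 : Good XX 15 p5196 := rs15 c5196 rfl trivial
theorem g5197 : Good XX 15 p5197 := rs15 c5197 rfl trivial
theorem g5198 : Good XX 15 p5198 := rs15 c5198 rfl trivial
theorem g5199 : Good XX 15 p5199 := rs15 c5199 rfl trivial
theorem g5200 : Good XX 15 p5200 := rs15 c5200 rfl trivial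
theorem g5201 : Good XX 15 p5201 := rs15 c5201 rfl ⟨g5200, trivial⟩
theorem g5202 : Good XX 15 p5202 := rs15 c5202 rfl trivial
theorem g5203 : Good XX 15 p5203 := rs15 c5203 rfl ⟨g5202, trivial⟩
theorem g5204 : Good XX 15 p5204 := rs15 c5204 rfl trivial
theorem g5205 : Good XX 15 p5205 := rs15 c5205 rfl trivial
theorem g5206 : Good XX 15 p5206 := rs15 c5206 rfl trivial
theorem g5207 : Good XX 15 p5207 := rs15 c5207 rfl trivial
theorem g5208 : Good XX 15 p5208 := rs15 c5208 rfl ⟨g5207, trivial⟩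
theorem g5209 : Good XX 15 p5209 := rs15 c5209 rfl trivial
theorem g5210 : Good XX 15 p5210 := rs15 c5210 rfl ⟨g5149, ⟨g5150, ⟨g5151, ⟨g5152, ⟨g5153, ⟨g5154, ⟨g5155, ⟨g5156, ⟨g5157, ⟨g5158, ⟨g5159, ⟨g5161, ⟨g5162, ⟨g5163, ⟨g5167, ⟨g5168, ⟨g5169, ⟨g5174, ⟨g5176, ⟨g5177, ⟨g5178, ⟨g5179, ⟨g5181, ⟨g5182, ⟨g5183, ⟨g5184, ⟨g5186, ⟨g5187, ⟨g5188, ⟨g5189, ⟨g5190, ⟨g5191, ⟨g5192, ⟨g5193, ⟨g5194, ⟨g5195, ⟨g5196, ⟨g5197, ⟨g5198, ⟨g5199, ⟨g5201, ⟨g5203, ⟨g5204, ⟨g5205, ⟨g5206, ⟨g5208, ⟨g5209, trivial⟩⟩⟩⟩⟩⟩⟩⟩⟩⟩⟩⟩⟩⟩⟩⟩⟩⟩⟩⟩⟩⟩⟩⟩⟩⟩⟩⟩⟩⟩⟩⟩⟩⟩⟩⟩⟩⟩⟩⟩⟩⟩⟩⟩⟩⟩⟩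
theorem g5211 : Good XX 15 p5211 := rs15 c5211 rfl trivial
theorem g5212 : Good XX 15 p5212 := rs15 c5212 rfl trivial
theorem g5213 : Good XX 15 p5213 := rs15 c5213 rfl trivial
theorem g5214 : Good XX 15 p5214 := rs15 c5214 rfl trivial
theorem g5215 : Good XX 15 p5215 := rs15 c5215 rfl trivial
theorem g5216 : Good XX 15 p5216 := rs15 c5216 rfl trivial
theorem g5217 : Good XX 15 p5217 := rs15 c5217 rfl trivial
theorem g5218 : Good XX 15 p5218 := rs15 c5218 rfl trivial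
theorem g5219 : Good XX 15 p5219 := rs15 c5219 rfl trivial
theorem g5220 : Good XX 15 p5220 := rs15 c5220 rfl trivial
theorem g5221 : Good XX 15 p5221 := rs15 c5221 rfl ⟨g5220, trivial⟩
theorem g5222 : Good XX 15 p5222 := rs15 c5222 rfl trivial
theorem g5223 : Good XX 15 p5223 := rs15 c5223 rfl trivial
theorem g5224 : Good XX 15 p5224 := rs15 c5224 rfl ⟨g5222, ⟨g5223, trivial⟩⟩
theorem g5225 : Good XX 15 p5225 := rs15 c5225 rfl trivial
theorem g5226 : Good XX 15 p5226 := rs15 c5226 rfl trivial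
theorem g5227 : Good XX 15 p5227 := rs15 c5227 rfl trivial
theorem g5228 : Good XX 15 p5228 := rs15 c5228 rfl trivial
theorem g5229 : Good XX 15 p5229 := rs15 c5229 rfl trivial
theorem g5230 : Good XX 15 p5230 := rs15 c5230 rfl trivial
theorem g5231 : Good XX 15 p5231 := rs15 c5231 rfl ⟨g5227, ⟨g5228, ⟨g5229, ⟨g5230, trivial⟩⟩⟩⟩
theorem g5232 : Good XX 15 p5232 := rs15 c5232 rfl trivial
theorem g5233 : Good XX 15 p5233 := rs15 c5233 rfl ⟨g5232, trivial⟩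
theorem g5234 : Good XX 15 p5234 := rs15 c5234 rfl trivial
theorem g5235 : Good XX 15 p5235 := rs15 c5235 rfl trivial
theorem g5236 : Good XX 15 p5236 := rs15 c5236 rfl ⟨g5234, ⟨g5235, trivial⟩⟩
theorem g5237 : Good XX 15 p5237 := rs15 c5237 rfl trivial
theorem g5238 : Good XX 15 p5238 := rs15 c5238 rfl trivial
theorem g5239 : Good XX 15 p5239 := rs15 c5239 rfl trivial
theorem g5240 : Good XX 15 p5240 := rs15 c5240 rfl trivial
theorem g5241 : Good XX 15 p5241 := rs15 c5241 rfl trivial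
theorem g5242 : Good XX 15 p5242 := rs15 c5242 rfl trivial
theorem g5243 : Good XX 15 p5243 := rs15 c5243 rfl trivial
theorem g5244 : Good XX 15 p5244 := rs15 c5244 rfl trivial
theorem g5245 : Good XX 15 p5245 := rs15 c5245 rfl trivial
theorem g5246 : Good XX 15 p5246 := rs15 c5246 rfl trivial
theorem g5247 : Good XX 15 p5247 := rs15 c5247 rfl ⟨g5224, ⟨g5225, ⟨g5226, ⟨g5231, ⟨g5233, ⟨g5236, ⟨g5237, ⟨g5238, ⟨g5239, ⟨g5240, ⟨g5241, ⟨g5242, ⟨g5243, ⟨g5244, ⟨g5245, ⟨g5246, trivial⟩⟩⟩⟩⟩⟩⟩⟩⟩⟩⟩⟩⟩⟩⟩⟩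
theorem g5248 : Good XX 15 p5248 := rs15 c5248 rfl trivial
theorem g5249 : Good XX 15 p5249 := rs15 c5249 rfl ⟨g5248, trivial⟩
theorem g5250 : Good XX 15 p5250 := rs15 c5250 rfl trivial
theorem g5251 : Good XX 15 p5251 := rs15 c5251 rfl trivial
theorem g5252 : Good XX 15 p5252 := rs15 c5252 rfl ⟨g5251, trivial⟩
theorem g5253 : Good XX 15 p5253 := rs15 c5253 rfl trivial
theorem g5254 : Good XX 15 p5254 := rs15 c5254 rfl trivial
theorem g5255 : Good XX 15 p5255 := rs15 c5255 rfl trivial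
theorem g5256 : Good XX 15 p5256 := rs15 c5256 rfl ⟨g5254, ⟨g5255, trivial⟩⟩
theorem g5257 : Good XX 15 p5257 := rs15 c5257 rfl trivial
theorem g5258 : Good XX 15 p5258 := rs15 c5258 rfl trivial
theorem g5259 : Good XX 15 p5259 := rs15 c5259 rfl trivial
theorem g5260 : Good XX 15 p5260 := rs15 c5260 rfl ⟨g5257, ⟨g5258, ⟨g5259, trivial⟩⟩⟩
theorem g5261 : Good XX 15 p5261 := rs15 c5261 rfl trivial
theorem g5262 : Good XX 15 p5262 := rs15 c5262 rfl ⟨g5261, trivial⟩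
theorem g5263 : Good XX 15 p5263 := rs15 c5263 rfl trivial
theorem g5264 : Good XX 15 p5264 := rs15 c5264 rfl ⟨g5263, trivial⟩
theorem g5265 : Good XX 15 p5265 := rs15 c5265 rfl trivial
theorem g5266 : Good XX 15 p5266 := rs15 c5266 rfl trivial
theorem g5267 : Good XX 15 p5267 := rs15 c5267 rfl trivial
theorem g5268 : Good XX 15 p5268 := rs15 c5268 rfl trivial
theorem g5269 : Good XX 15 p5269 := rs15 c5269 rfl trivial
theorem g5270 : Good XX 15 p5270 := rs15 c5270 rfl trivial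
theorem g5271 : Good XX 15 p5271 := rs15 c5271 rfl trivial
theorem g5272 : Good XX 15 p5272 := rs15 c5272 rfl ⟨g5249, ⟨g5250, ⟨g5252, ⟨g5253, ⟨g5256, ⟨g5260, ⟨g5262, ⟨g5264, ⟨g5265, ⟨g5266, ⟨g5267, ⟨g5268, ⟨g5269, ⟨g5270, ⟨g5271, trivial⟩⟩⟩⟩⟩⟩⟩⟩⟩⟩⟩⟩⟩⟩⟩
theorem g5273 : Good XX 15 p5273 := rs15 c5273 rfl trivial
theorem g5274 : Good XX 15 p5274 := rs15 c5274 rfl ⟨g5273, trivial⟩
theorem g5275 : Good XX 15 p5275 := rs15 c5275 rfl trivial
theorem g5276 : Good XX 15 p5276 := rs15 c5276 rfl trivial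
theorem g5277 : Good XX 15 p5277 := rs15 c5277 rfl ⟨g5275, ⟨g5276, trivial⟩⟩
theorem g5278 : Good XX 15 p5278 := rs15 c5278 rfl trivial
theorem g5279 : Good XX 15 p5279 := rs15 c5279 rfl trivial
theorem g5280 : Good XX 15 p5280 := rs15 c5280 rfl trivial
theorem g5281 : Good XX 15 p5281 := rs15 c5281 rfl trivial
theorem g5282 : Good XX 15 p5282 := rs15 c5282 rfl trivial
theorem g5283 : Good XX 15 p5283 := rs15 c5283 rfl ⟨g5281, ⟨g5282, trivial⟩⟩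
theorem g5284 : Good XX 15 p5284 := rs15 c5284 rfl trivial
theorem g5285 : Good XX 15 p5285 := rs15 c5285 rfl trivial
theorem g5286 : Good XX 15 p5286 := rs15 c5286 rfl trivial
theorem g5287 : Good XX 15 p5287 := rs15 c5287 rfl trivial
theorem g5288 : Good XX 15 p5288 := rs15 c5288 rfl trivial
theorem g5289 : Good XX 15 p5289 := rs15 c5289 rfl ⟨g5288, trivial⟩
theorem g5290 : Good XX 15 p5290 := rs15 c5290 rfl trivial
theorem g5291 : Good XX 15 p5291 := rs15 c5291 rfl ⟨g5284, ⟨g5285, ⟨g5286, ⟨g5287, ⟨g5289, ⟨g5290, trivial⟩⟩⟩⟩⟩⟩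
theorem g5292 : Good XX 15 p5292 := rs15 c5292 rfl trivial
theorem g5293 : Good XX 15 p5293 := rs15 c5293 rfl trivial
theorem g5294 : Good XX 15 p5294 := rs15 c5294 rfl trivial
theorem g5295 : Good XX 15 p5295 := rs15 c5295 rfl trivial
theorem g5296 : Good XX 15 p5296 := rs15 c5296 rfl trivial
theorem g5297 : Good XX 15 p5297 := rs15 c5297 rfl trivial
theorem g5298 : Good XX 15 p5298 := rs15 c5298 rfl trivial
theorem g5299 : Good XX 15 p5299 := rs15 c5299 rfl trivial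
theorem g5300 : Good XX 15 p5300 := rs15 c5300 rfl trivial
theorem g5301 : Good XX 15 p5301 := rs15 c5301 rfl trivial
theorem g5302 : Good XX 15 p5302 := rs15 c5302 rfl trivial
theorem g5303 : Good XX 15 p5303 := rs15 c5303 rfl ⟨g5302, trivial⟩
theorem g5304 : Good XX 15 p5304 := rs15 c5304 rfl trivial
theorem g5305 : Good XX 15 p5305 := rs15 c5305 rfl trivial
theorem g5306 : Good XX 15 p5306 := rs15 c5306 rfl trivial
theorem g5307 : Good XX 15 p5307 := rs15 c5307 rfl trivial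
theorem g5308 : Good XX 15 p5308 := rs15 c5308 rfl ⟨g5307, trivial⟩
theorem g5309 : Good XX 15 p5309 := rs15 c5309 rfl trivial
theorem g5310 : Good XX 15 p5310 := rs15 c5310 rfl trivial
theorem g5311 : Good XX 15 p5311 := rs15 c5311 rfl ⟨g5310, trivial⟩
theorem g5312 : Good XX 15 p5312 := rs15 c5312 rfl trivial
theorem g5313 : Good XX 15 p5313 := rs15 c5313 rfl trivial
theorem g5314 : Good XX 15 p5314 := rs15 c5314 rfl trivial
theorem g5315 : Good XX 15 p5315 := rs15 c5315 rfl trivial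
theorem g5316 : Good XX 15 p5316 := rs15 c5316 rfl ⟨g5312, ⟨g5313, ⟨g5314, ⟨g5315, trivial⟩⟩⟩⟩
theorem g5317 : Good XX 15 p5317 := rs15 c5317 rfl trivial
theorem g5318 : Good XX 15 p5318 := rs15 c5318 rfl trivial
theorem g5319 : Good XX 15 p5319 := rs15 c5319 rfl trivial
theorem g5320 : Good XX 15 p5320 := rs15 c5320 rfl trivial
theorem g5321 : Good XX 15 p5321 := rs15 c5321 rfl trivial
theorem g5322 : Good XX 15 p5322 := rs15 c5322 rfl trivial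
theorem g5323 : Good XX 15 p5323 := rs15 c5323 rfl ⟨g5322, trivial⟩
theorem g5324 : Good XX 15 p5324 := rs15 c5324 rfl trivial
theorem g5325 : Good XX 15 p5325 := rs15 c5325 rfl trivial
theorem g5326 : Good XX 15 p5326 := rs15 c5326 rfl ⟨g5325, trivial⟩
theorem g5327 : Good XX 15 p5327 := rs15 c5327 rfl trivial
theorem g5328 : Good XX 15 p5328 := rs15 c5328 rfl ⟨g5327, trivial⟩
theorem g5329 : Good XX 15 p5329 := rs15 c5329 rfl trivial
theorem g5330 : Good XX 15 p5330 := rs15 c5330 rfl trivial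
theorem g5331 : Good XX 15 p5331 := rs15 c5331 rfl trivial
theorem g5332 : Good XX 15 p5332 := rs15 c5332 rfl trivial
theorem g5333 : Good XX 15 p5333 := rs15 c5333 rfl trivial
theorem g5334 : Good XX 15 p5334 := rs15 c5334 rfl ⟨g5332, ⟨g5333, trivial⟩⟩
theorem g5335 : Good XX 15 p5335 := rs15 c5335 rfl trivial
theorem g5336 : Good XX 15 p5336 := rs15 c5336 rfl trivial
theorem g5337 : Good XX 15 p5337 := rs15 c5337 rfl trivial
theorem g5338 : Good XX 15 p5338 := rs15 c5338 rfl ⟨g5211, ⟨g5212, ⟨g5213, ⟨g5214, ⟨g5215, ⟨g5216, ⟨g5217, ⟨g5218, ⟨g5219, ⟨g5221, ⟨g5247, ⟨g5272, ⟨g5274, ⟨g5277, ⟨g5278, ⟨g5279, ⟨g5280, ⟨g5283, ⟨g5291, ⟨g5292, ⟨g5293, ⟨g5294, ⟨g5295, ⟨g5296, ⟨g5297, ⟨g5298, ⟨g5299, ⟨g5300, ⟨g5301, ⟨g5303, ⟨g5304, ⟨g5305, ⟨g5306, ⟨g5308, ⟨g5309, ⟨g5311, ⟨g5316, ⟨g5317, ⟨g5318, ⟨g5319, ⟨g5320, ⟨g5321, ⟨g5323, ⟨g5324, ⟨g5326, ⟨g5328, ⟨g5329, ⟨g5330, ⟨g5331, ⟨g5334, ⟨g5335, ⟨g5336,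 ⟨g5337, trivial⟩⟩⟩⟩⟩⟩⟩⟩⟩⟩⟩⟩⟩⟩⟩⟩⟩⟩⟩⟩⟩⟩⟩⟩⟩⟩⟩⟩⟩⟩⟩⟩⟩⟩⟩⟩⟩⟩⟩⟩⟩⟩⟩⟩⟩⟩⟩⟩⟩⟩⟩⟩⟩
theorem g5339 : Good XX 15 p5339 := rs15 c5339 rfl trivial
theorem g5340 : Good XX 15 p5340 := rs15 c5340 rfl ⟨g5339, trivial⟩
theorem g5341 : Good XX 15 p5341 := rs15 c5341 rfl ⟨g5105, ⟨g5106, ⟨g5107, ⟨g5108, ⟨g5109, ⟨g5110, ⟨g5111, ⟨g5112, ⟨g5113, ⟨g5118, ⟨g5122, ⟨g5125, ⟨g5128, ⟨g5132, ⟨g5139, ⟨g5143, ⟨g5144, ⟨g5145, ⟨g5210, ⟨g5338, ⟨g5340, trivial⟩⟩⟩⟩⟩⟩⟩⟩⟩⟩⟩⟩⟩⟩⟩⟩⟩⟩⟩⟩⟩
theorem g5342 : Good XX 15 p5342 := rs15 c5342 rfl trivial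
theorem g5343 : Good XX 15 p5343 := rs15 c5343 rfl ⟨g5342, trivial⟩
theorem g5344 : Good XX 15 p5344 := rs15 c5344 rfl trivial
theorem g5345 : Good XX 15 p5345 := rs15 c5345 rfl ⟨g5344, trivial⟩
theorem g5346 : Good XX 15 p5346 := rs15 c5346 rfl trivial
theorem g5347 : Good XX 15 p5347 := rs15 c5347 rfl trivial
theorem g5348 : Good XX 15 p5348 := rs15 c5348 rfl trivial
theorem g5349 : Good XX 15 p5349 := rs15 c5349 rfl ⟨g5346, ⟨g5347, ⟨g5348, trivial⟩⟩⟩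
theorem g5350 : Good XX 15 p5350 := rs15 c5350 rfl trivial
theorem g5351 : Good XX 15 p5351 := rs15 c5351 rfl trivial
theorem g5352 : Good XX 15 p5352 := rs15 c5352 rfl trivial
theorem g5353 : Good XX 15 p5353 := rs15 c5353 rfl trivial
theorem g5354 : Good XX 15 p5354 := rs15 c5354 rfl trivial
theorem g5355 : Good XX 15 p5355 := rs15 c5355 rfl trivial
theorem g5356 : Good XX 15 p5356 := rs15 c5356 rfl ⟨g5343, ⟨g5345, ⟨g5349, ⟨g5350, ⟨g5351, ⟨g5352, ⟨g5353, ⟨g5354, ⟨g5355, trivial⟩⟩⟩⟩⟩⟩⟩⟩⟩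
theorem g5357 : Good XX 15 p5357 := rs15 c5357 rfl trivial
theorem g5358 : Good XX 15 p5358 := rs15 c5358 rfl trivial
theorem g5359 : Good XX 15 p5359 := rs15 c5359 rfl trivial
theorem g5360 : Good XX 15 p5360 := rs15 c5360 rfl ⟨g5357, ⟨g5358, ⟨g5359, trivial⟩⟩⟩
theorem g5361 : Good XX 15 p5361 := rs15 c5361 rfl trivial
theorem g5362 : Good XX 15 p5362 := rs15 c5362 rfl trivial
theorem g5363 : Good XX 15 p5363 := rs15 c5363 rfl trivial
theorem g5364 : Good XX 15 p5364 := rs15 c5364 rfl trivial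
theorem g5365 : Good XX 15 p5365 := rs15 c5365 rfl ⟨g5361, ⟨g5362, ⟨g5363, ⟨g5364, trivial⟩⟩⟩⟩
theorem g5366 : Good XX 15 p5366 := rs15 c5366 rfl trivial
theorem g5367 : Good XX 15 p5367 := rs15 c5367 rfl trivial
theorem g5368 : Good XX 15 p5368 := rs15 c5368 rfl trivial
theorem g5369 : Good XX 15 p5369 := rs15 c5369 rfl trivial
theorem g5370 : Good XX 15 p5370 := rs15 c5370 rfl trivial
theorem g5371 : Good XX 15 p5371 := rs15 c5371 rfl ⟨g5366, ⟨g5367, ⟨g5368, ⟨g5369, ⟨g5370, trivial⟩⟩⟩⟩⟩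
theorem g5372 : Good XX 15 p5372 := rs15 c5372 rfl trivial
theorem g5373 : Good XX 15 p5373 := rs15 c5373 rfl trivial
theorem g5374 : Good XX 15 p5374 := rs15 c5374 rfl trivial
theorem g5375 : Good XX 15 p5375 := rs15 c5375 rfl trivial
theorem g5376 : Good XX 15 p5376 := rs15 c5376 rfl trivial
theorem g5377 : Good XX 15 p5377 := rs15 c5377 rfl trivial
theorem g5378 : Good XX 15 p5378 := rs15 c5378 rfl trivial
theorem g5379 : Good XX 15 p5379 := rs15 c5379 rfl trivial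
theorem g5380 : Good XX 15 p5380 := rs15 c5380 rfl trivial
theorem g5381 : Good XX 15 p5381 := rs15 c5381 rfl trivial
theorem g5382 : Good XX 15 p5382 := rs15 c5382 rfl trivial
theorem g5383 : Good XX 15 p5383 := rs15 c5383 rfl trivial
theorem g5384 : Good XX 15 p5384 := rs15 c5384 rfl trivial
theorem g5385 : Good XX 15 p5385 := rs15 c5385 rfl trivial
theorem g5386 : Good XX 15 p5386 := rs15 c5386 rfl trivial
theorem g5387 : Good XX 15 p5387 := rs15 c5387 rfl trivial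
theorem g5388 : Good XX 15 p5388 := rs15 c5388 rfl trivial
theorem g5389 : Good XX 15 p5389 := rs15 c5389 rfl trivial
theorem g5390 : Good XX 15 p5390 := rs15 c5390 rfl trivial
theorem g5391 : Good XX 15 p5391 := rs15 c5391 rfl ⟨g5390, trivial⟩
theorem g5392 : Good XX 15 p5392 := rs15 c5392 rfl trivial
theorem g5393 : Good XX 15 p5393 := rs15 c5393 rfl trivial
theorem g5394 : Good XX 15 p5394 := rs15 c5394 rfl trivial
theorem g5395 : Good XX 15 p5395 := rs15 c5395 rfl ⟨g5360, ⟨g5365, ⟨g5371, ⟨g5372, ⟨g5373, ⟨g5374, ⟨g5375, ⟨g5376, ⟨g5377, ⟨g5378, ⟨g5379, ⟨g5380, ⟨g5381, ⟨g5382, ⟨g5383, ⟨g5384, ⟨g5385, ⟨g5386, ⟨g5387, ⟨g5388, ⟨g5389, ⟨g5391, ⟨g5392, ⟨g5393, ⟨g5394, trivial⟩⟩⟩⟩⟩⟩⟩⟩⟩⟩⟩⟩⟩⟩⟩⟩⟩⟩⟩⟩⟩⟩⟩⟩⟩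
theorem g5396 : Good XX 15 p5396 := rs15 c5396 rfl trivial
theorem g5397 : Good XX 15 p5397 := rs15 c5397 rfl trivial
theorem g5398 : Good XX 15 p5398 := rs15 c5398 rfl trivial
theorem g5399 : Good XX 15 p5399 := rs15 c5399 rfl trivial
theorem g5400 : Good XX 15 p5400 := rs15 c5400 rfl ⟨g5399, trivial⟩
theorem g5401 : Good XX 15 p5401 := rs15 c5401 rfl trivial
theorem g5402 : Good XX 15 p5402 := rs15 c5402 rfl ⟨g5401, trivial⟩
theorem g5403 : Good XX 15 p5403 := rs15 c5403 rfl trivial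
theorem g5404 : Good XX 15 p5404 := rs15 c5404 rfl trivial
theorem g5405 : Good XX 15 p5405 := rs15 c5405 rfl ⟨g5396, ⟨g5397, ⟨g5398, ⟨g5400, ⟨g5402, ⟨g5403, ⟨g5404, trivial⟩⟩⟩⟩⟩⟩⟩
theorem g5406 : Good XX 15 p5406 := rs15 c5406 rfl trivial
theorem g5407 : Good XX 15 p5407 := rs15 c5407 rfl trivial
theorem g5408 : Good XX 15 p5408 := rs15 c5408 rfl ⟨g5406, ⟨g5407, trivial⟩⟩
theorem g5409 : Good XX 15 p5409 := rs15 c5409 rfl trivial
theorem g5410 : Good XX 15 p5410 := rs15 c5410 rfl trivial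
theorem g5411 : Good XX 15 p5411 := rs15 c5411 rfl trivial
theorem g5412 : Good XX 15 p5412 := rs15 c5412 rfl ⟨g5411, trivial⟩
theorem g5413 : Good XX 15 p5413 := rs15 c5413 rfl trivial
theorem g5414 : Good XX 15 p5414 := rs15 c5414 rfl ⟨g5413, trivial⟩
theorem g5415 : Good XX 15 p5415 := rs15 c5415 rfl trivial
theorem g5416 : Good XX 15 p5416 := rs15 c5416 rfl trivial
theorem g5417 : Good XX 15 p5417 := rs15 c5417 rfl trivial
theorem g5418 : Good XX 15 p5418 := rs15 c5418 rfl trivial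
theorem g5419 : Good XX 15 p5419 := rs15 c5419 rfl trivial
theorem g5420 : Good XX 15 p5420 := rs15 c5420 rfl ⟨g5417, ⟨g5418, ⟨g5419, trivial⟩⟩⟩
theorem g5421 : Good XX 15 p5421 := rs15 c5421 rfl ⟨g5408, ⟨g5409, ⟨g5410, ⟨g5412, ⟨g5414, ⟨g5415, ⟨g5416, ⟨g5420, trivial⟩⟩⟩⟩⟩⟩⟩⟩
theorem g5422 : Good XX 15 p5422 := rs15 c5422 rfl trivial
theorem g5423 : Good XX 15 p5423 := rs15 c5423 rfl trivial
theorem g5424 : Good XX 15 p5424 := rs15 c5424 rfl trivial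
theorem g5425 : Good XX 15 p5425 := rs15 c5425 rfl ⟨g5424, trivial⟩
theorem g5426 : Good XX 15 p5426 := rs15 c5426 rfl trivial
theorem g5427 : Good XX 15 p5427 := rs15 c5427 rfl trivial
theorem g5428 : Good XX 15 p5428 := rs15 c5428 rfl trivial
theorem g5429 : Good XX 15 p5429 := rs15 c5429 rfl trivial
theorem g5430 : Good XX 15 p5430 := rs15 c5430 rfl ⟨g5422, ⟨g5423, ⟨g5425, ⟨g5426, ⟨g5427, ⟨g5428, ⟨g5429, trivial⟩⟩⟩⟩⟩⟩⟩
theorem g5431 : Good XX 15 p5431 := rs15 c5431 rfl trivial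
theorem g5432 : Good XX 15 p5432 := rs15 c5432 rfl ⟨g5431, trivial⟩
theorem g5433 : Good XX 15 p5433 := rs15 c5433 rfl trivial
theorem g5434 : Good XX 15 p5434 := rs15 c5434 rfl ⟨g5433, trivial⟩
theorem g5435 : Good XX 15 p5435 := rs15 c5435 rfl trivial
theorem g5436 : Good XX 15 p5436 := rs15 c5436 rfl trivial
theorem g5437 : Good XX 15 p5437 := rs15 c5437 rfl trivial
theorem g5438 : Good XX 15 p5438 := rs15 c5438 rfl trivial
theorem g5439 : Good XX 15 p5439 := rs15 c5439 rfl trivial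
theorem g5440 : Good XX 15 p5440 := rs15 c5440 rfl trivial
theorem g5441 : Good XX 15 p5441 := rs15 c5441 rfl trivial
theorem g5442 : Good XX 15 p5442 := rs15 c5442 rfl trivial
theorem g5443 : Good XX 15 p5443 := rs15 c5443 rfl trivial
theorem g5444 : Good XX 15 p5444 := rs15 c5444 rfl ⟨g5443, trivial⟩
theorem g5445 : Good XX 15 p5445 := rs15 c5445 rfl ⟨g5432, ⟨g5434, ⟨g5435, ⟨g5436, ⟨g5437, ⟨g5438, ⟨g5439, ⟨g5440, ⟨g5441, ⟨g5442, ⟨g5444, trivial⟩⟩⟩⟩⟩⟩⟩⟩⟩⟩⟩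
theorem g5446 : Good XX 15 p5446 := rs15 c5446 rfl trivial
theorem g5447 : Good XX 15 p5447 := rs15 c5447 rfl trivial
theorem g5448 : Good XX 15 p5448 := rs15 c5448 rfl trivial
theorem g5449 : Good XX 15 p5449 := rs15 c5449 rfl ⟨g5447, ⟨g5448, trivial⟩⟩
theorem g5450 : Good XX 15 p5450 := rs15 c5450 rfl trivial
theorem g5451 : Good XX 15 p5451 := rs15 c5451 rfl ⟨g5356, ⟨g5395, ⟨g5405, ⟨g5421, ⟨g5430, ⟨g5445, ⟨g5446, ⟨g5449, ⟨g5450, trivial⟩⟩⟩⟩⟩⟩⟩⟩⟩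
theorem g5452 : Good XX 15 p5452 := rs15 c5452 rfl trivial
theorem g5453 : Good XX 15 p5453 := rs15 c5453 rfl ⟨g81, ⟨g1575, ⟨g1625, ⟨g1653, ⟨g2436, ⟨g2456, ⟨g2570, ⟨g2610, ⟨g2649, ⟨g2993, ⟨g3196, ⟨g3197, ⟨g3198, ⟨g3221, ⟨g3224, ⟨g3225, ⟨g3228, ⟨g3229, ⟨g3230, ⟨g3231, ⟨g3270, ⟨g3336, ⟨g3358, ⟨g3360, ⟨g3372, ⟨g3593, ⟨g3594, ⟨g3595, ⟨g3596, ⟨g3662, ⟨g3888, ⟨g4030, ⟨g4360, ⟨g4523, ⟨g5099, ⟨g5341, ⟨g5451, ⟨g5452, trivial⟩⟩⟩⟩⟩⟩⟩⟩⟩⟩⟩⟩⟩⟩⟩⟩⟩⟩⟩⟩⟩⟩⟩⟩⟩⟩⟩⟩⟩⟩⟩⟩⟩⟩⟩⟩⟩⟩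
theorem g5454 : Good XX 15 p5454 := rs15 c5454 rfl ⟨g5453, trivial⟩

end Pool.Agent.N3.C15
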