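import Pool.Agent.Lib.MP_f3f345_co.Rs
import Pool.Agent.Lib.MP_f3f345_co.Conn
import Pool.Agent.Lib.MP_f3f345_co.D7_00

/-! all subtrees are good, n = 7 -/

namespace Pool.Agent.N3.C7

theorem enc_exc : enc 7 fano.mat 7 = px := by decide +kernel
theorem gx : Good XX 7 px :=
  good_exc fano (fun I h => Or.inl ⟨rfl, h⟩) enc_exc (cfg_mx fano fano_conn (by norm_num) (by norm_num))
theorem g0 : Good XX 7 p0 := rs7 c0 rfl ⟨gx, trivial⟩

end Pool.Agent.N3.C7
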