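import Pool.Agent.Lib.MP_f3f345_co.Rs
import Pool.Agent.Lib.MP_f3f345_co.Conn
import Pool.Agent.Lib.MP_f3f345_co.D8_00

/-! all subtrees are good, n = 8 -/

namespace Pool.Agent.N3.C8

theorem enc_exc : enc 8 mobiusKantor.mat 8 = px := by decide +kernel
theorem gx : Good XX 8 px :=
  good_exc mobiusKantor (fun I h => Or.inr (Or.inl ⟨rfl, h⟩)) enc_exc (cfg_mx mobiusKantor mobiusKantor_conn (by norm_num) (by norm_num))
theorem g0 : Good XX 8 p0 := rs8 c0 rfl ⟨gx, trivial⟩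

end Pool.Agent.N3.C8
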