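import Pool.Agent.Lib.MP_f3f345_co.Rs
import Pool.Agent.Lib.MP_f3f345_co.Conn
import Pool.Agent.Lib.MP_f3f345_co.D9_00

/-! all subtrees are good, n = 9 -/

namespace Pool.Agent.N3.C9

theorem g0 : Good XX 9 p0 := rs9 c0 rfl trivial

end Pool.Agent.N3.C9
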