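import Pool.Agent.Lib.MP_f3f345_co.A01
import Pool.Agent.Lib.MP_f3f345_co.A02
import Pool.Agent.Lib.MP_f3f345_co.A03
import Pool.Agent.Lib.MP_f3f345_co.A04
import Pool.Agent.Lib.MP_f3f345_co.A05
import Pool.Agent.Lib.MP_f3f345_co.A06
import Pool.Agent.Lib.MP_f3f345_co.A07
import Pool.Agent.Lib.MP_f3f345_co.A08
import Pool.Agent.Lib.MP_f3f345_co.A09
import Pool.Agent.Lib.MP_f3f345_co.A10
import Pool.Agent.Lib.MP_f3f345_co.A11
import Pool.Agent.Lib.MP_f3f345_co.A12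
import Pool.Agent.Lib.MP_f3f345_co.A13
import Pool.Agent.Lib.MP_f3f345_co.A14
import Pool.Agent.Lib.MP_f3f345_co.A15
import Pool.Agent.Lib.MP_f3f345_co.A16
import Pool.Agent.Lib.MP_f3f345_co.A17
import Pool.Agent.Lib.MP_f3f345_co.A18

/-! # Level 0 lemmas -/
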