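import Pool.Agent.Lib.MP_f3f345_co.I0
import Pool.Agent.Lib.MP_f3f345_co.B01
import Pool.Agent.Lib.MP_f3f345_co.B02
import Pool.Agent.Lib.MP_f3f345_co.B03
import Pool.Agent.Lib.MP_f3f345_co.B04
import Pool.Agent.Lib.MP_f3f345_co.B05
import Pool.Agent.Lib.MP_f3f345_co.B06
import Pool.Agent.Lib.MP_f3f345_co.B07

/-! # Level 1 lemmas -/
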