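import Pool.Agent.Lib.MP_f3f345_co.I1
import Pool.Agent.Lib.MP_f3f345_co.C01
import Pool.Agent.Lib.MP_f3f345_co.C02
import Pool.Agent.Lib.MP_f3f345_co.C03

/-! # Level 2 lemmas -/
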