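import Pool.Agent.Lib.MP_f3f345_co.A19
import Pool.Agent.Lib.MP_f3f345_co.A20
import Pool.Agent.Lib.MP_f3f345_co.A21
import Pool.Agent.Lib.MP_f3f345_co.A22

/-! # Configurations -/
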