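import Pool.Agent.Lib.MP_f3f345_co.Def

/-! # The literal constants satisfy the formulas -/
namespace Pool.Agent.N3

deriving instance DecidableEq for K

theorem K7_ok : K7 = KK 7 := by decide +kernel
theorem K8_ok : K8 = KK 8 := by decide +kernel
theorem K9_ok : K9 = KK 9 := by decide +kernel
theorem K10_ok : K10 = KK 10 := by decide +kernel
theorem K11_ok : K11 = KK 11 := by decide +kernel
theorem K12_ok : K12 = KK 12 := by decide +kernel
theorem K13_ok : K13 = KK 13 := by decide +kernel
theorem K14_ok : K14 = KK 14 := by decide +kernel
theorem K15_ok : K15 = KK 15 := by decide +kernel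

end Pool.Agent.N3
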