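import Pool.Agent.Lib.MP_f3f345_co.G7
import Pool.Agent.Lib.MP_f3f345_co.G8
import Pool.Agent.Lib.MP_f3f345_co.G9
import Pool.Agent.Lib.MP_f3f345_co.G10
import Pool.Agent.Lib.MP_f3f345_co.G11
import Pool.Agent.Lib.MP_f3f345_co.G12
import Pool.Agent.Lib.MP_f3f345_co.G13
import Pool.Agent.Lib.MP_f3f345_co.G14
import Pool.Agent.Lib.MP_f3f345_co.G15

/-! # The classification for at most fifteen points -/
namespace Pool.Agent.N3

theorem main (n : ℕ) (hn : n ≤ 15) (C : Cfg n) (hC : C.levi.Connected) :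
    C.RatRealizable ∨ C.Iso fano ∨ C.Iso mobiusKantor ∨ C.Iso ten := by
  have h0 : 0 < n := by
    obtain ⟨v⟩ := hC.nonempty
    rcases v with v | v
    · exact lt_of_le_of_lt (Nat.zero_le _) v.2
    · exact lt_of_le_of_lt (Nat.zero_le _) v.2
  have h7 := seven_le C h0
  have key : ∀ P, Good XX n P → 2 ^ (5 * (n - 1)) + 2 ^ (5 * (n - 2)) + 2 ^ (5 * (n - 3)) = P →
      C.RatRealizable ∨ C.Iso fano ∨ C.Iso mobiusKantor ∨ C.Iso ten := fun P hg hP =>
    classify hg hP (by omega) hn C hC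
  have hc : n = 7 ∨ n = 8 ∨ n = 9 ∨ n = 10 ∨ n = 11 ∨ n = 12 ∨ n = 13 ∨ n = 14 ∨ n = 15 := by omega
  rcases hc with rfl | rfl | rfl | rfl | rfl | rfl | rfl | rfl | rfl
  · exact key _ C7.g0 (by decide +kernel)
  · exact key _ C8.g0 (by decide +kernel)
  · exact key _ C9.g0 (by decide +kernel)
  · exact key _ C10.g1 (by decide +kernel)
  · exact key _ C11.g3 (by decide +kernel)
  · exact key _ C12.g15 (by decide +kernel)
  · exact key _ C13.g73 (by decide +kernel)
  · exact key _ C14.g566 (by decide +kernel)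
  · exact key _ C15.g5454 (by decide +kernel)

end Pool.Agent.N3
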