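/-! row matrices, n = 10 -/

namespace Pool.Agent.N3.C10

def p0 : Nat := nat_lit 0x000000002108000000000000000020004200000000000000200000108000
def p1 : Nat := nat_lit 0x00000000210800000000
def px : Nat := nat_lit 0x00000000210800000000000000002000420000000000000020000010800000000000010040100000000000000100000004200000000000080200040000000000000800008020000000000000400004010000000000000200800100000000000000100021

end Pool.Agent.N3.C10
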