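/-! row matrices, n = 11 -/

namespace Pool.Agent.N3.C11

def p0 : Nat := nat_lit 0x0000000421000000000000000004000840000000000000040000021000000000000020080200000000000000200040008000
def p1 : Nat := nat_lit 0x0000000421000000000000000004000840000000000000040000021000000000000020080200000000000000200000008400
def p2 : Nat := nat_lit 0x0000000421000000000000000004000840000000000000040000021000000000000020080000800000000000200002000400
def p3 : Nat := nat_lit 0x00000004210000000000

end Pool.Agent.N3.C11
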