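/-! row matrices, n = 12 -/

namespace Pool.Agent.N3.C12

def p0 : Nat := nat_lit 0x000000842000000000000000008001080000000000000080000042000000000000040100400000000000000400080010000000000000200800008000
def p1 : Nat := nat_lit 0x00000084200000000000000000800108000000000000008000004200000000000004010040000000000000040008001000000000000020000200800000000000200000000420
def p2 : Nat := nat_lit 0x0000008420000000000000000080010800000000000000800000420000000000000401004000000000000004000800100000
def p3 : Nat := nat_lit 0x000000842000000000000000008001080000000000000080000042000000000000040100400000000000000400000010800000000000200802000000
def p4 : Nat := nat_lit 0x00000084200000000000000000800108000000000000008000004200000000000004010040000000000000040000001080000000000020080010000000000000200002000400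
def p5 : Nat := nat_lit 0x00000084200000000000000000800108000000000000008000004200000000000004010040000000000000040000001080000000000020080010000000000000200000000420
def p6 : Nat := nat_lit 0x000000842000000000000000008001080000000000000080000042000000000000040100400000000000000400000010800000000000200800000400
def p7 : Nat := nat_lit 0x0000008420000000000000000080010800000000000000800000420000000000000401004000000000000004000000108000
def p8 : Nat := nat_lit 0x000000842000000000000000008001080000000000000080000042000000000000040100001000000000000400004000800000000000200800100000
def p9 : Nat := nat_lit 0x00000084200000000000000000800108000000000000008000004200000000000004010000100000000000040000400080000000000020080000800000000000200000000420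
def p10 : Nat := nat_lit 0x00000084200000000000000000800108000000000000008000004200000000000004010000100000000000040000400080000000000020080000040000000000200000100020
def p11 : Nat := nat_lit 0x000000842000000000000000008001080000000000000080000042000000000000040100001000000000000400004000800000000000200800000400
def p12 : Nat := nat_lit 0x0000008420000000000000000080010800000000000000800000420000000000000401000010000000000004000000008400
def p13 : Nat := nat_lit 0x00000084200000000000000000800108000000000000008000004200000000000004010000100000
def p14 : Nat := nat_lit 0x000000842000000000000000008001080000000000000080000042000000
def p15 : Nat := nat_lit 0x00000084200000000000

end Pool.Agent.N3.C12
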