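import Pool.Agent.Lib.MP_f3f345_co.Snd
import Pool.Agent.Lib.MP_f3f345_co.KOk
import Pool.Agent.Lib.MP_f3f345_co.I3

/-! # From certificates to the classification -/
namespace Pool.Agent.N3

open Finset

/-- the exceptional matrices -/
def XX (n : ℕ) (I : ℕ → ℕ → ℕ) : Prop :=
  (n = 7 ∧ Eqv 7 fano.mat I) ∨ (n = 8 ∧ Eqv 8 mobiusKantor.mat I) ∨ (n = 10 ∧ Eqv 10 ten.mat I)

def AllG (n : ℕ) : List ℕ → Prop
  | [] => True
  | a :: L => Good XX n a ∧ AllG n L

theorem AllG_mem {n : ℕ} {L : List ℕ} (h : AllG n L) : ∀ a ∈ L, Good XX n a := by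
  induction L with
  | nil => intro a ha; exact absurd ha (by simp)
  | cons b L ih =>
    intro a ha
    rcases List.mem_cons.1 ha with rfl | h1
    · exact h.1
    · exact ih h.2 a h1

theorem rs {κ : K} {n P g idx h D : ℕ} {E L : List ℕ} (hκ : κ = KK n) (hn : (Nat.ble 3 n && Nat.ble n 15) = true)
    (hr : run κ 10000 P g idx h D E L = true)
    (hb : (Nat.blt g n && Nat.blt idx 256) = true) (hL : AllG n L) : Good XX n P := by
  rw [Bool.and_eq_true] at hn hb
  have h1 := Nat.le_of_ble_eq_true hn.1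
  have h2 := Nat.le_of_ble_eq_true hn.2
  have h3 : g < n := by simpa [Nat.blt_eq] using hb.1
  have h4 : idx < 256 := by simpa [Nat.blt_eq] using hb.2
  exact run_sound hκ h1 h2 h3 h4 hr (AllG_mem hL)

theorem rs7 {P g idx h D : ℕ} {E L : List ℕ} (hr : run K7 10000 P g idx h D E L = true)
    (hb : (Nat.blt g 7 && Nat.blt idx 256) = true) (hL : AllG 7 L) : Good XX 7 P := rs K7_ok rfl hr hb hL
theorem rs8 {P g idx h D : ℕ} {E L : List ℕ} (hr : run K8 10000 P g idx h D E L = true)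
    (hb : (Nat.blt g 8 && Nat.blt idx 256) = true) (hL : AllG 8 L) : Good XX 8 P := rs K8_ok rfl hr hb hL
theorem rs9 {P g idx h D : ℕ} {E L : List ℕ} (hr : run K9 10000 P g idx h D E L = true)
    (hb : (Nat.blt g 9 && Nat.blt idx 256) = true) (hL : AllG 9 L) : Good XX 9 P := rs K9_ok rfl hr hb hL
theorem rs10 {P g idx h D : ℕ} {E L : List ℕ} (hr : run K10 10000 P g idx h D E L = true)
    (hb : (Nat.blt g 10 && Nat.blt idx 256) = true) (hL : AllG 10 L) : Good XX 10 P := rs K10_ok rfl hr hb hL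
theorem rs11 {P g idx h D : ℕ} {E L : List ℕ} (hr : run K11 10000 P g idx h D E L = true)
    (hb : (Nat.blt g 11 && Nat.blt idx 256) = true) (hL : AllG 11 L) : Good XX 11 P := rs K11_ok rfl hr hb hL
theorem rs12 {P g idx h D : ℕ} {E L : List ℕ} (hr : run K12 10000 P g idx h D E L = true)
    (hb : (Nat.blt g 12 && Nat.blt idx 256) = true) (hL : AllG 12 L) : Good XX 12 P := rs K12_ok rfl hr hb hL
theorem rs13 {P g idx h D : ℕ} {E L : List ℕ} (hr : run K13 10000 P g idx h D E L = true)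
    (hb : (Nat.blt g 13 && Nat.blt idx 256) = true) (hL : AllG 13 L) : Good XX 13 P := rs K13_ok rfl hr hb hL
theorem rs14 {P g idx h D : ℕ} {E L : List ℕ} (hr : run K14 10000 P g idx h D E L = true)
    (hb : (Nat.blt g 14 && Nat.blt idx 256) = true) (hL : AllG 14 L) : Good XX 14 P := rs K14_ok rfl hr hb hL
theorem rs15 {P g idx h D : ℕ} {E L : List ℕ} (hr : run K15 10000 P g idx h D E L = true)
    (hb : (Nat.blt g 15 && Nat.blt idx 256) = true) (hL : AllG 15 L) : Good XX 15 P := rs K15_ok rfl hr hb hL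

/-- an exceptional complete matrix -/
theorem good_exc {n P : ℕ} (D : Cfg n) (hX : ∀ I, Eqv n D.mat I → XX n I) (hP : enc n D.mat n = P)
    (hm : Mx n D.mat) : Good XX n P := by
  intro I hM k hk h
  have h1 : I = D.mat := enc_inj hM.1 hm hk (by rw [h, hP])
  exact Or.inr (hX I (h1 ▸ eqv_refl n I))

theorem XX_eqv {n : ℕ} {I J : ℕ → ℕ → ℕ} (h : Eqv n I J) (hI : XX n I) : XX n J := by
  rcases hI with ⟨rfl, h1⟩ | ⟨rfl, h1⟩ | ⟨rfl, h1⟩
  · exact Or.inl ⟨rfl, eqv_trans h1 h⟩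
  · exact Or.inr (Or.inl ⟨rfl, eqv_trans h1 h⟩)
  · exact Or.inr (Or.inr ⟨rfl, eqv_trans h1 h⟩)

theorem R_of_good {n P : ℕ} (hg : Good XX n P)
    (hP : 2 ^ (5 * (n - 1)) + 2 ^ (5 * (n - 2)) + 2 ^ (5 * (n - 3)) = P) {I : ℕ → ℕ → ℕ} (hI : Mx n I) :
    R XX n I := by
  obtain ⟨J, hJ, hIJ⟩ := exists_max hI (fun J h => mx_eqv h hI) (fun J L h h' => eqv_trans h h') (eqv_refl n I)
  have h1 : R XX n J := by
    refine hg J hJ 1 (by have := hI.n3; omega) ?_
    have h2 : enc n J 1 = msk n J 0 := by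
      show 0 * 2 ^ 80 + msk n J 0 = _
      rw [zero_mul, zero_add]
    rw [h2, root_msk hJ, hP]
  rcases h1 with h1 | h1
  · exact Or.inl (realZ_eqv (eqv_symm hIJ) h1)
  · exact Or.inr (XX_eqv (eqv_symm hIJ) h1)

theorem classify {n P : ℕ} (hg : Good XX n P)
    (hP : 2 ^ (5 * (n - 1)) + 2 ^ (5 * (n - 2)) + 2 ^ (5 * (n - 3)) = P) (h4 : 4 ≤ n) (h15 : n ≤ 15)
    (C : Cfg n) (hC : C.levi.Connected) :
    C.RatRealizable ∨ C.Iso fano ∨ C.Iso mobiusKantor ∨ C.Iso ten := by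
  rcases R_of_good hg hP (cfg_mx C hC (by omega) h15) with h | h
  · exact Or.inl (realize C h4 h)
  · rcases h with ⟨rfl, h1⟩ | ⟨rfl, h1⟩ | ⟨rfl, h1⟩
    · exact Or.inr (Or.inl (iso_of_eqv fano C fanoS fanoT fano_dual h1))
    · exact Or.inr (Or.inr (Or.inl (iso_of_eqv mobiusKantor C mkS mkT mk_dual h1)))
    · exact Or.inr (Or.inr (Or.inr (iso_of_eqv ten C tenS tenT ten_dual h1)))

/-- a connected configuration has at least seven points -/
theorem seven_le {n : ℕ} (C : Cfg n) (h0 : 0 < n) : 7 ≤ n := by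
  classical
  let i : Fin n := ⟨0, h0⟩
  obtain ⟨j1, j2, j3, h12, h13, h23, hj⟩ := card_eq_three.1 (C.card_point i)
  have hm : ∀ j, i ∈ C.line j ↔ j = j1 ∨ j = j2 ∨ j = j3 := by
    intro j
    have : j ∈ univ.filter (fun j => i ∈ C.line j) ↔ j ∈ ({j1, j2, j3} : Finset (Fin n)) := by rw [hj]
    simpa using this
  have hd : ∀ j j', j ≠ j' → i ∈ C.line j → i ∈ C.line j' →
      Disjoint ((C.line j).erase i) ((C.line j').erase i) := by
    intro j j' hjj h1 h2
    rw [disjoint_left]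
    intro a ha ha'
    rw [mem_erase] at ha ha'
    have h3 := C.inter i a (Ne.symm ha.1)
    have h4 : ({j, j'} : Finset (Fin n)) ⊆ univ.filter (fun l => i ∈ C.line l ∧ a ∈ C.line l) := by
      intro l hl
      rw [mem_insert, mem_singleton] at hl
      rcases hl with rfl | rfl
      · exact mem_filter.2 ⟨mem_univ _, h1, ha.2⟩
      · exact mem_filter.2 ⟨mem_univ _, h2, ha'.2⟩
    have h5 := card_le_card h4
    rw [card_pair hjj] at h5
    omega
  have m1 := (hm j1).2 (Or.inl rfl)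
  have m2 := (hm j2).2 (Or.inr (Or.inl rfl))
  have m3 := (hm j3).2 (Or.inr (Or.inr rfl))
  have c : ∀ j, i ∈ C.line j → ((C.line j).erase i).card = 2 := by
    intro j h
    rw [card_erase_of_mem h, C.card_line]
  have hu : ((C.line j1).erase i ∪ ((C.line j2).erase i ∪ (C.line j3).erase i)).card = 6 := by
    rw [card_union_of_disjoint, card_union_of_disjoint (hd _ _ h23 m2 m3), c _ m1, c _ m2, c _ m3]
    rw [disjoint_union_right]
    exact ⟨hd _ _ h12 m1 m2, hd _ _ h13 m1 m3⟩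
  have hi : i ∉ (C.line j1).erase i ∪ ((C.line j2).erase i ∪ (C.line j3).erase i) := by
    simp
  have h7 := card_le_univ (insert i ((C.line j1).erase i ∪ ((C.line j2).erase i ∪ (C.line j3).erase i)))
  rw [card_insert_of_notMem hi, hu, Fintype.card_fin] at h7
  omega

end Pool.Agent.N3
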