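import Pool.Agent.Lib.MP_f3f345_co.I2

/-! # Soundness of the checker -/
namespace Pool.Agent.N3

open Finset

variable {X : ℕ → (ℕ → ℕ → ℕ) → Prop}

/-- every maximal matrix extending `P` has the target property -/
def Good (X : ℕ → (ℕ → ℕ → ℕ) → Prop) (n P : ℕ) : Prop :=
  ∀ I, Max n I → ∀ k ≤ n, enc n I k = P → R X n I

structure St (n : ℕ) (I : ℕ → ℕ → ℕ) (k P G F W : ℕ) : Prop where
  mx : Max n I
  k1 : 1 ≤ k
  kn : k ≤ n
  hP : enc n I k = P
  hG : gM n I k = G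
  hF : fM n I k = F
  hW : wM n I k = W

/-- top unsaturated position -/
def Top (n : ℕ) (I : ℕ → ℕ → ℕ) (k h : ℕ) : Prop :=
  h < n ∧ deg I k h < 3 ∧ ∀ c < n, h < c → deg I k c = 3

def Cov (X : ℕ → (ℕ → ℕ → ℕ) → Prop) (n : ℕ) (c : Ctx) (G h S : ℕ) : Prop :=
  ∀ I k x y, St n I k c.P G c.F c.W → k < n → Top n I k h → Nx n I k h x y →
    c.A.testBit (80 * x + 5 * y) = true → R X n I ∨ S.testBit (80 * x + 5 * y) = true

def Sd (X : ℕ → (ℕ → ℕ → ℕ) → Prop) (n : ℕ) (ih : T) : Prop :=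
  ∀ c G h S D E L, (∀ a ∈ L, Good X n a) → ih c G h S D E L = true →
    (∃ D' E' L', (∀ a ∈ L', Good X n a) ∧ c.cont D' E' L' = true) ∧ Cov X n c G h S

theorem brec_true {b c : Bool} (h : Bool.rec (motive := fun _ => Bool) false c b = true) :
    b = true ∧ c = true := by
  cases b with
  | false => exact absurd h (by simp)
  | true => exact ⟨rfl, h⟩

theorem msk_nx {n k h x y : ℕ} {I : ℕ → ℕ → ℕ} (hI : Mx n I) (hN : Nx n I k h x y) :
    msk n I k = 2 ^ (5 * h) + 2 ^ (5 * x) + 2 ^ (5 * y) := by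
  obtain ⟨hyx, hxh, hhn, hc⟩ := hN
  have h1 : ∀ c ∈ range n, I k c * 2 ^ (5 * c) =
      (if c = h then 2 ^ (5 * c) else 0) + (if c = x then 2 ^ (5 * c) else 0) +
        (if c = y then 2 ^ (5 * c) else 0) := by
    intro c _
    by_cases h1 : I k c = 1
    · rw [h1]
      rcases (hc c).1 h1 with rfl | rfl | rfl
      · rw [if_pos rfl, if_neg (by omega), if_neg (by omega)]; ring
      · rw [if_neg (by omega), if_pos rfl, if_neg (by omega)]; ring
      · rw [if_neg (by omega), if_neg (by omega), if_pos rfl]; ring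
    · have h0 : I k c = 0 := by have := hI.le1 k c; omega
      have h2 := fun h => h1 ((hc c).2 h)
      rw [h0, if_neg (fun h => h2 (Or.inl h)), if_neg (fun h => h2 (Or.inr (Or.inl h))),
        if_neg (fun h => h2 (Or.inr (Or.inr h)))]
      ring
  rw [msk, sum_congr rfl h1, sum_add_distrib, sum_add_distrib, sum_ite_eq', sum_ite_eq', sum_ite_eq',
    if_pos (mem_range.2 hhn), if_pos (mem_range.2 (by omega)), if_pos (mem_range.2 (by omega))]

theorem land15 (a : ℕ) : Nat.land a 15 = a % 16 := by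
  have := Nat.and_two_pow_sub_one_eq_mod a 4
  simpa using this
theorem shr (a b : ℕ) : Nat.shiftRight a b = a / 2 ^ b := Nat.shiftRight_eq_div_pow a b
theorem shl (a b : ℕ) : Nat.shiftLeft a b = a * 2 ^ b := Nat.shiftLeft_eq a b
theorem land255 (a : ℕ) : Nat.land a 255 = a % 256 := by
  have := Nat.and_two_pow_sub_one_eq_mod a 8
  simpa using this
theorem land7 (a : ℕ) : Nat.land a 7 = a % 8 := by
  have := Nat.and_two_pow_sub_one_eq_mod a 3
  simpa using this

theorem rowm_eq (h idx : ℕ) : rowm h idx = 2 ^ (5 * h) + 2 ^ (5 * (idx / 16)) + 2 ^ (5 * (idx % 16)) := by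
  have h32 : ∀ a : ℕ, Nat.pow 32 a = 2 ^ (5 * a) := fun a => by
    rw [pow_mul]; rfl
  have e1 : Nat.shiftRight idx 4 = idx / 16 := shr idx 4
  have e2 : Nat.land idx 15 = idx % 16 := land15 idx
  unfold rowm
  rw [e1, e2, h32, h32, h32]
  exact (Nat.add_assoc _ _ _).symm

theorem newv_eq (h idx : ℕ) : newv h idx = 1280 * h + 80 * (idx / 16) + 5 * (idx % 16) := by
  have e1 : Nat.shiftRight idx 4 = idx / 16 := shr idx 4
  have e2 : Nat.land idx 15 = idx % 16 := land15 idx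
  unfold newv
  rw [e1, e2]
  exact (Nat.add_assoc _ _ _).symm

/-- lexicographic comparison of masks -/
theorem lex_code {h x y g x' y' : ℕ} (hyx : y < x) (hxh : x < h) (hyx' : y' < x') (hxg : x' < g)
    (hg : g ≤ 15)
    (hlt : 2 ^ (5 * h) + 2 ^ (5 * x) + 2 ^ (5 * y) < 2 ^ (5 * g) + 2 ^ (5 * x') + 2 ^ (5 * y')) :
    1280 * h + 80 * x + 5 * y < 1280 * g + 80 * x' + 5 * y' := by
  have key : ∀ a b : ℕ, a < b → 2 ^ (5 * a) * 32 ≤ 2 ^ (5 * b) := by
    intro a b hab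
    calc 2 ^ (5 * a) * 32 = 2 ^ (5 * (a + 1)) := by rw [Nat.mul_add, pow_add]; norm_num
      _ ≤ 2 ^ (5 * b) := Nat.pow_le_pow_right (by norm_num) (by omega)
  by_contra hcon
  have hgh : g ≤ h := by
    by_contra hc
    omega
  have := key y x hyx
  have := key x h hxh
  have := key y' x' hyx'
  have := key x' g hxg
  have p1 : 0 < 2 ^ (5 * y) := Nat.two_pow_pos _
  have p2 : 0 < 2 ^ (5 * y') := Nat.two_pow_pos _
  rcases Nat.lt_or_ge g h with h1 | h1
  · have := key g h h1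
    omega
  · have hgh' : g = h := by omega
    subst hgh'
    rcases Nat.lt_or_ge x' x with h2 | h2
    · have := key x' x h2
      omega
    · have hx' : x ≤ x' := h2
      have hxx : x = x' := by omega
      subst hxx
      have hy : y' ≤ y := by omega
      have : 2 ^ (5 * y') ≤ 2 ^ (5 * y) := Nat.pow_le_pow_right (by norm_num) (by omega)
      omega

theorem St_next {n k P G F W : ℕ} {I : ℕ → ℕ → ℕ} (h : St n I k P G F W) (hk : k < n) :
    St n I (k + 1) (addP P (msk n I k)) (G - outer (KK n) (msk n I k)) (addF F (msk n I k))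
      (addW (KK n) W (msk n I k)) where
  mx := h.mx
  k1 := by omega
  kn := hk
  hP := by
    unfold addP
    rw [shl, ← h.hP]
    rfl
  hG := by rw [← h.hG, gM_succ h.mx.1 hk]
  hF := by rw [← h.hF, fM_succ h.mx.1 hk]
  hW := by rw [← h.hW, wM_succ h.mx.1 hk]

/-- one child of a node is treated -/
theorem cov_step {n G h S idx : ℕ} {c : Ctx} (hn3 : 3 ≤ n) (hn : n ≤ 15) (hi : idx < 256)
    (hc : Cov X n c G h (S ||| outer (KK n) (rowm h idx)))
    (hch : ∀ I k, St n I k c.P G c.F c.W → k < n → Top n I k h → msk n I k = rowm h idx →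
      h < n → ((idx % 16 < idx / 16) → idx / 16 < h) → R X n I) : Cov X n c G h S := by
  intro I k x y hSt hk hT hN hA
  rcases hc I k x y hSt hk hT hN hA with h1 | h1
  · exact Or.inl h1
  · rw [Nat.testBit_or, Bool.or_eq_true] at h1
    rcases h1 with h1 | h1
    · exact Or.inr h1
    · obtain ⟨h2, h3⟩ := cover_bit hn3 hn hT.1 hN.1 hN.2.1 hi h1
      refine Or.inl (hch I k hSt hk hT ?_ hT.1 ?_)
      · rw [h2, msk_nx hSt.mx.1 hN]
      · intro _
        have := hN.1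
        have := hN.2.1
        omega

theorem node_sound {n : ℕ} {ih : T} (hn3 : 3 ≤ n) (hn : n ≤ 15) (hS : Sd X n ih)
    {G P F W h g idx D : ℕ} {E L : List ℕ} {cont : ℕ → List ℕ → List ℕ → Bool}
    (hL : ∀ a ∈ L, Good X n a) (hidx : idx < 256)
    (hr : node (KK n) ih G P F W h g idx D E L cont = true) :
    (∃ D' E' L', (∀ a ∈ L', Good X n a) ∧ cont D' E' L' = true) ∧
    ∀ I k, St n I k P G F W → msk n I (k - 1) = rowm g idx → g < n → 
      ((idx % 16 < idx / 16) → idx / 16 < g) → R X n I := by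
  unfold node node2 at hr
  obtain ⟨h1, h2⟩ := brec_true hr
  obtain ⟨h3, h4⟩ := hS _ _ _ _ _ _ _ hL h2
  refine ⟨h3, ?_⟩
  intro I k hSt hmk hgn hxg
  have hU : unsat (KK n) G = uM n I k := by rw [← hSt.hG]; exact unsat_eq hSt.mx.1 hSt.kn
  have h1' := Nat.eq_of_beq_eq_true h1
  rw [hU, shr] at h1'
  have e1 : Nat.shiftRight idx 4 = idx / 16 := shr idx 4
  have e2 : Nat.land idx 15 = idx % 16 := land15 idx
  rw [e1, e2] at h1'
  have e3 : Nat.sub (Nat.succ (idx % 16)) (idx / 16) = idx % 16 + 1 - idx / 16 := rfl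
  rw [e3] at h1'
  obtain ⟨hone, hTop, hkn⟩ := uM_top hSt.mx.1 hSt.kn (by omega) h1' (by omega)
  have hyx : idx % 16 < idx / 16 := by omega
  have hxg' := hxg hyx
  obtain ⟨h', x, y, f, hN, hh1, hh2, ux, uy, ahx, ahy, axy, hF, hfh, hfr⟩ := next_row hSt.mx hkn hSt.k1
  have hhh : h' = h := by
    rcases Nat.lt_trichotomy h' h with hlt | heq | hgt
    · have := hh2 h hTop.1 hlt
      have := hTop.2.1
      omega
    · exact heq
    · have := hTop.2.2 h' hN.2.2.1 hgt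
      omega
  subst hhh
  have hmem := amat_mem (v := newv g idx) hSt.mx.1 hkn hN.2.2.1 hN.1 hN.2.1 ux uy ahx ahy axy hF hfh hfr (by
    rw [newv_eq]
    apply lex_code hN.1 hN.2.1 hyx hxg' (by omega)
    rw [← msk_nx hSt.mx.1 hN, ← rowm_eq, ← hmk]
    have := sorted (k := k - 1) hSt.mx (by have := hSt.k1; omega)
    rwa [Nat.sub_add_cancel hSt.k1] at this)
  rw [hSt.hG, hSt.hF, ← hU] at hmem
  have hSt' : St n I k P G F W := hSt
  rcases h4 I k x y hSt' hkn hTop hN hmem with h5 | h5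
  · exact h5
  · simp at h5

/-- the conclusion of a run -/
def Out (X : ℕ → (ℕ → ℕ → ℕ) → Prop) (n : ℕ) (c : Ctx) (G h S : ℕ) : Prop :=
  (∃ D' E' L', (∀ a ∈ L', Good X n a) ∧ c.cont D' E' L' = true) ∧ Cov X n c G h S

theorem idx_lt (s : ℕ) : Nat.land (Nat.shiftRight s 3) 255 < 256 := by
  rw [land255]
  exact Nat.mod_lt _ (by norm_num)

theorem lor_eq (a b : ℕ) : Nat.lor a b = a ||| b := rfl

theorem kDeg_sound {n : ℕ} {ih : T} (hn3 : 3 ≤ n) (hn : n ≤ 15) (hS : Sd X n ih)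
    {c : Ctx} {G h S D : ℕ} {E L : List ℕ} {s : ℕ} (hL : ∀ a ∈ L, Good X n a)
    (hr : kDeg (KK n) ih c G h S D E L s = true) : Out X n c G h S := by
  unfold kDeg at hr
  obtain ⟨h1, h2⟩ := brec_true hr
  obtain ⟨h3, h4⟩ := hS _ _ _ _ _ _ _ hL h2
  refine ⟨h3, cov_step hn3 hn (idx_lt s) h4 ?_⟩
  intro I k hSt hk hT hmk _ _
  exfalso
  have hSt' := St_next hSt hk
  rw [hmk] at hSt'
  have h5 : Nat.sub G (outer (KK n) (rowm h (Nat.land (Nat.shiftRight s 3) 255))) = gM n I (k + 1) := hSt'.hG.symm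
  rw [h5] at h1
  obtain ⟨hq, hlt⟩ := degbad_bits hSt.mx.1 hSt'.kn (unsat_eq hSt.mx.1 hSt'.kn) h1
  have := deg_bound hSt.mx.1 hSt'.kn hq
  omega

theorem kEnd_sound {n : ℕ} {c : Ctx} {G h S D : ℕ} {E L : List ℕ} (hL : ∀ a ∈ L, Good X n a)
    (hr : kEnd c S D E L = true) : Out X n c G h S := by
  unfold kEnd at hr
  obtain ⟨h1, h2⟩ := brec_true hr
  refine ⟨⟨_, _, _, hL, h2⟩, ?_⟩
  intro I k x y hSt hk hT hN hA
  have h3 : S &&& c.A = c.A := Nat.eq_of_beq_eq_true h1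
  rw [← h3, Nat.testBit_and, Bool.and_eq_true] at hA
  exact Or.inr hA.1

theorem kInt_sound {n : ℕ} {ih : T} (hn3 : 3 ≤ n) (hn : n ≤ 15) (hS : Sd X n ih)
    {c : Ctx} {G h S D : ℕ} {E L : List ℕ} {s : ℕ} (hL : ∀ a ∈ L, Good X n a)
    (hr : kInt (KK n) ih c G h S D E L s (rowm h (Nat.land (Nat.shiftRight s 3) 255))
      (outer (KK n) (rowm h (Nat.land (Nat.shiftRight s 3) 255))) = true) : Out X n c G h S := by
  unfold kInt at hr
  obtain ⟨⟨D', E', L', hL', h2⟩, h3⟩ := node_sound hn3 hn hS hL (idx_lt s) hr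
  obtain ⟨h4, h5⟩ := hS _ _ _ _ _ _ _ hL' h2
  refine ⟨h4, cov_step hn3 hn (idx_lt s) h5 ?_⟩
  intro I k hSt hk hT hmk hh hx
  have hSt' := St_next hSt hk
  rw [hmk] at hSt'
  exact h3 I (k + 1) hSt' hmk hh hx

theorem kNon_sound {n : ℕ} {ih : T} (hn3 : 3 ≤ n) (hn : n ≤ 15) (hS : Sd X n ih)
    {c : Ctx} {G h S D : ℕ} {E L : List ℕ} {s : ℕ} (hL : ∀ a ∈ L, Good X n a) {idx : ℕ} (hi : idx < 256)
    (hr : kNon (KK n) ih c G h (Nat.lor S (outer (KK n) (rowm h idx))) D E L s (addP c.P (rowm h idx))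
      (addW (KK n) c.W (rowm h idx)) = true ∨
      kNon (KK n) ih c G h (Nat.lor S (outer (KK n) (rowm h idx))) D E L s (addP c.P (rowm h idx))
      (wideT (KK n) (addP c.P (rowm h idx))) = true) : Out X n c G h S := by
  have hm : ∀ a : ℕ, Nat.land a (KK n).mt < 2 ^ (5 * n) := by
    intro a
    have : Nat.land a (KK n).mt = a % 2 ^ (5 * n) := Nat.and_two_pow_sub_one_eq_mod a (5 * n)
    rw [this]
    exact Nat.mod_lt _ (Nat.two_pow_pos _)
  have key : (∀ I k, St n I k c.P G c.F c.W → k < n → msk n I k = rowm h idx → False) →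
      ih c G h (Nat.lor S (outer (KK n) (rowm h idx))) (Nat.shiftRight D (KK n).b10n) E L = true →
      Out X n c G h S := by
    intro hch h2
    obtain ⟨h4, h5⟩ := hS _ _ _ _ _ _ _ hL h2
    refine ⟨h4, cov_step hn3 hn hi h5 ?_⟩
    intro I k hSt hk hT hmk hh hx
    exact (hch I k hSt hk hmk).elim
  rcases hr with hr | hr
  · unfold kNon at hr
    obtain ⟨h1, h2⟩ := brec_true hr
    refine key ?_ h2
    intro I k hSt hk hmk
    have hSt' := St_next hSt hk
    rw [hmk] at hSt'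
    rw [← hSt'.hP, ← hSt'.hW] at h1
    exact primal_false hSt.mx hSt'.kn (hm _) (hm _) h1
  · unfold kNon at hr
    obtain ⟨h1, h2⟩ := brec_true hr
    refine key ?_ h2
    intro I k hSt hk hmk
    have hSt' := St_next hSt hk
    rw [hmk] at hSt'
    rw [← hSt'.hP] at h1
    exact dual_false hSt.mx hSt'.kn (hm _) (hm _) h1

theorem kLeaf_sound {n : ℕ} {ih : T} (hn3 : 3 ≤ n) (hn : n ≤ 15) (hS : Sd X n ih)
    {c : Ctx} {G h S D : ℕ} {E L : List ℕ} (hL : ∀ a ∈ L, Good X n a) {idx : ℕ} (hi : idx < 256)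
    (hr : kLeaf (KK n) ih c G h (Nat.lor S (outer (KK n) (rowm h idx))) D E L
      (addP c.P (rowm h idx)) = true) : Out X n c G h S := by
  have hm : ∀ a : ℕ, Nat.land a (KK n).p21 < 2 ^ (21 * n) := by
    intro a
    have : Nat.land a (KK n).p21 = a % 2 ^ (21 * n) := Nat.and_two_pow_sub_one_eq_mod a (21 * n)
    rw [this]
    exact Nat.mod_lt _ (Nat.two_pow_pos _)
  unfold kLeaf at hr
  obtain ⟨h1, h2⟩ := brec_true hr
  obtain ⟨h4, h5⟩ := hS _ _ _ _ _ _ _ hL h2
  refine ⟨h4, cov_step hn3 hn hi h5 ?_⟩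
  intro I k hSt hk hT hmk hh hx
  have hSt' := St_next hSt hk
  rw [hmk] at hSt'
  rw [← hSt'.hP] at h1
  exact Or.inl (leaf_bits hSt.mx.1 hSt'.kn (hm _) (hm _) h1)

theorem uM_eq_fM {n k : ℕ} {I : ℕ → ℕ → ℕ} (h : uM n I k = fM n I k) :
    ∀ c < n, deg I k c < 3 → deg I k c = 0 := by
  intro c hc hd
  have h1 : S 5 n (fun c => if deg I k c < 3 then 1 else 0) = S 5 n (fun c => if deg I k c = 0 then 1 else 0) := h
  have h2 := S_inj (fun m _ => by split_ifs <;> norm_num) (fun m _ => by split_ifs <;> norm_num) h1 c hc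
  rw [if_pos hd] at h2
  by_contra h3
  rw [if_neg h3] at h2
  omega

theorem fM_pos {n k : ℕ} {I : ℕ → ℕ → ℕ} (h : 1 ≤ fM n I k) : ∃ c < n, deg I k c = 0 := by
  by_contra hc
  push Not at hc
  have : fM n I k = 0 := by
    rw [fM]
    apply sum_eq_zero
    intro c hcm
    rw [if_neg (hc c (mem_range.1 hcm)), zero_mul]
  omega

theorem kClo_sound {n : ℕ} {ih : T} (hn3 : 3 ≤ n) (hn : n ≤ 15) (hS : Sd X n ih)
    {c : Ctx} {G h S D : ℕ} {E L : List ℕ} (hL : ∀ a ∈ L, Good X n a) {idx : ℕ} (hi : idx < 256)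
    (hr : kClo (KK n) ih c G h S D E L (rowm h idx) (outer (KK n) (rowm h idx)) = true) : Out X n c G h S := by
  unfold kClo at hr
  obtain ⟨h1, hr2⟩ := brec_true hr
  obtain ⟨h1', h2⟩ := brec_true hr2
  obtain ⟨h4, h5⟩ := hS _ _ _ _ _ _ _ hL h2
  refine ⟨h4, cov_step hn3 hn hi h5 ?_⟩
  intro I k hSt hk hT hmk hh hx
  have hSt' := St_next hSt hk
  rw [hmk] at hSt'
  have e1 := Nat.eq_of_beq_eq_true h1
  have e2 := Nat.le_of_ble_eq_true h1'
  have h6 : Nat.sub G (outer (KK n) (rowm h idx)) = gM n I (k + 1) := hSt'.hG.symm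
  rw [h6, unsat_eq hSt.mx.1 hSt'.kn, ← hSt'.hF] at e1
  rw [← hSt'.hF] at e2
  exact (closed_false hSt.mx.1 hSt'.kn hSt'.k1 (uM_eq_fM e1) (fM_pos e2)).elim

theorem kDel_sound {n : ℕ} {ih : T} (hn3 : 3 ≤ n) (hn : n ≤ 15) (hS : Sd X n ih)
    {c : Ctx} {G h S D : ℕ} {E L : List ℕ} (hL : ∀ a ∈ L, Good X n a) {idx : ℕ} (hi : idx < 256)
    (hr : kDel ih c G h (Nat.lor S (outer (KK n) (rowm h idx))) D E L (addP c.P (rowm h idx)) = true) :
    Out X n c G h S := by
  cases L with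
  | nil => exact absurd hr (by unfold kDel; simp)
  | cons a L =>
    unfold kDel at hr
    obtain ⟨h1, h2⟩ := brec_true hr
    obtain ⟨h4, h5⟩ := hS _ _ _ _ _ _ _ (fun b hb => hL b (List.mem_cons_of_mem _ hb)) h2
    refine ⟨h4, cov_step hn3 hn hi h5 ?_⟩
    intro I k hSt hk hT hmk hh hx
    have hSt' := St_next hSt hk
    rw [hmk] at hSt'
    have e1 := Nat.eq_of_beq_eq_true h1
    exact hL a (List.mem_cons_self ..) I hSt.mx (k + 1) hSt'.kn (by rw [hSt'.hP, e1])

theorem kNext_sound {n : ℕ} {ih : T} (hS : Sd X n ih)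
    {c : Ctx} {G h S : ℕ} {E L : List ℕ} (hL : ∀ a ∈ L, Good X n a)
    (hr : kNext ih c G h S E L = true) : Out X n c G h S := by
  cases E with
  | nil => exact absurd hr (by unfold kNext; simp)
  | cons D' E' =>
    unfold kNext at hr
    exact hS _ _ _ _ _ _ _ hL hr

theorem kO2_sound {n : ℕ} {ih : T} (hn3 : 3 ≤ n) (hn : n ≤ 15) (hS : Sd X n ih)
    {c : Ctx} {G h S D : ℕ} {E L : List ℕ} {s t : ℕ} (hL : ∀ a ∈ L, Good X n a)
    (hr : kO2 (KK n) ih c G h S D E L s (rowm h (Nat.land (Nat.shiftRight s 3) 255)) t = true) :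
    Out X n c G h S := by
  unfold kO2 at hr
  rcases t with _ | t
  · exact kInt_sound hn3 hn hS hL hr
  rcases t with _ | t
  · exact kNon_sound hn3 hn hS hL (idx_lt s) (Or.inl hr)
  rcases t with _ | t
  · exact kNon_sound hn3 hn hS hL (idx_lt s) (Or.inr hr)
  rcases t with _ | t
  · exact kLeaf_sound hn3 hn hS hL (idx_lt s) hr
  rcases t with _ | t
  · exact kNext_sound hS hL hr
  have hr2 : kC (KK n) ih c G h S D E L s (rowm h (Nat.land (Nat.shiftRight s 3) 255))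
    (outer (KK n) (rowm h (Nat.land (Nat.shiftRight s 3) 255))) = true := hr
  unfold kC at hr2
  rcases hx : Nat.shiftRight s 11 with _ | x
  · rw [hx] at hr2
    exact kClo_sound hn3 hn hS hL (idx_lt s) hr2
  · rw [hx] at hr2
    exact kDel_sound hn3 hn hS hL (idx_lt s) hr2

theorem step_sound {n : ℕ} {ih : T} (hn3 : 3 ≤ n) (hn : n ≤ 15) (hS : Sd X n ih) :
    Sd X n (step (KK n) ih) := by
  intro c G h S D E L hL hr
  unfold step at hr
  rcases ht : Nat.land D 7 with _ | t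
  · rw [ht] at hr
    exact kDeg_sound hn3 hn hS hL hr
  · rw [ht] at hr
    have hr2 : kOth (KK n) ih c G h S D E L (Nat.land D 32767) t = true := hr
    unfold kOth at hr2
    rcases t with _ | t
    · exact kEnd_sound hL hr2
    · exact kO2_sound hn3 hn hS hL hr2

theorem loop_sound {n : ℕ} (hn3 : 3 ≤ n) (hn : n ≤ 15) (fuel : ℕ) : Sd X n (loop (KK n) fuel) := by
  induction fuel with
  | zero =>
    intro c G h S D E L hL hr
    exact absurd hr (by unfold loop; simp)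
  | succ fuel ih => exact step_sound hn3 hn ih

/-- soundness of a certificate -/
theorem run_sound {κ : K} {n fuel P g idx h D : ℕ} {E L : List ℕ} (hκ : κ = KK n) (hn3 : 3 ≤ n) (hn : n ≤ 15)
    (hg : g < n) (hidx : idx < 256) (hr : run κ fuel P g idx h D E L = true) (hL : ∀ a ∈ L, Good X n a) :
    Good X n P := by
  subst hκ
  unfold run at hr
  obtain ⟨h1, hr2⟩ := brec_true hr
  obtain ⟨h2, h3⟩ := brec_true hr2
  obtain ⟨_, h5⟩ := node_sound hn3 hn (loop_sound hn3 hn fuel) hL hidx h3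
  intro I hM k hk hP
  have hfld := Nat.eq_of_beq_eq_true h1
  have hgx : idx / 16 < g := by
    have h6 := Nat.le_of_ble_eq_true h2
    have e1 : Nat.shiftRight idx 4 = idx / 16 := shr idx 4
    rw [e1] at h6
    exact h6
  have hk1 : 1 ≤ k := by
    rcases Nat.eq_zero_or_pos k with h0 | h0
    · exfalso
      subst h0
      have hP0 : P = 0 := hP.symm
      rw [hP0, rowm_eq] at hfld
      have : fld (KK n) 0 0 = 0 := by
        unfold fld
        simp
      rw [this] at hfld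
      have p1 := Nat.two_pow_pos (5 * g)
      have p2 := Nat.two_pow_pos (5 * (idx / 16))
      have p3 := Nat.two_pow_pos (5 * (idx % 16))
      omega
    · exact h0
  obtain ⟨hG, hF, hW⟩ := st_eq hM.1 hk
  refine h5 I k ⟨hM, hk1, hk, hP, ?_, ?_, ?_⟩ ?_ hg (fun _ => hgx)
  · rw [← hP, hG]
  · rw [← hP, hF]
  · rw [← hP, hW]
  · rw [← fld_zero hM.1 hk hk1, hP, hfld]

end Pool.Agent.N3
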